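import Pool.Agent.Zk28.TF.Root

/-!
Orders of algebraic functions: sums, products, limits, norms and coefficients.
-/

set_option autoImplicit false
set_option linter.unusedSectionVars false

open FF Pool.Agent.W602.GT Polynomial

namespace Pool.Agent.Zk28.TS

open Pool.Agent.Zk28.TF

variable {K : Type} [Field K] [Algebra ℂ K]

theorem place_gal {P : Place ℂ K} {r : ℝ} (L : IntermediateField K (AlgebraicClosure K))
    {Ω : Place ℂ L} {e : ℕ} (hΩ : Over Ω P e) (f : L)
    (h : AlgOrd P r (f : AlgebraicClosure K)) (σ : L ≃ₐ[K] L) : GR Ω (e * r) (σ f) := by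
  refine h.place hΩ fun pol hpol => ?_
  have h5 : Polynomial.aeval f pol = 0 := by
    apply (algebraMap L (AlgebraicClosure K)).injective
    rw [map_zero, ← hpol]
    exact (Polynomial.aeval_algebraMap_apply (AlgebraicClosure K) _ pol).symm
  have h6 := Polynomial.aeval_algHom_apply σ.toAlgHom f pol
  rw [h5, map_zero] at h6
  exact h6

/-- The criterion with the conjugates at one place. -/
theorem algOrd_gal [CharZero K] {P : Place ℂ K} {r : ℝ} (Z : Set (AlgebraicClosure K)) [Finite Z]
    (x : AlgebraicClosure K)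
    (hx : x ∈ (FiniteGaloisIntermediateField.adjoin K Z : IntermediateField K (AlgebraicClosure K)))
    (h : ∀ (Ω : Place ℂ (FiniteGaloisIntermediateField.adjoin K Z)) (e : ℕ), Over Ω P e →
      ∀ σ : FiniteGaloisIntermediateField.adjoin K Z ≃ₐ[K]
        FiniteGaloisIntermediateField.adjoin K Z, GR Ω (e * r) (σ ⟨x, hx⟩)) : AlgOrd P r x := by
  classical
  obtain ⟨Ω, e, hΩ⟩ := exists_place (P := P) (FiniteGaloisIntermediateField.adjoin K Z)
  exact algOrd_of_conj (r := r) hΩ.1 hΩ
    (FiniteGaloisIntermediateField.adjoin K Z : IntermediateField K (AlgebraicClosure K)).val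
    ⟨x, hx⟩ fun σ => h Ω e hΩ σ

theorem AlgOrd.mono {P : Place ℂ K} {r r' : ℝ} {f : AlgebraicClosure K} (h : AlgOrd P r f)
    (hr : r' ≤ r) : AlgOrd P r' f := by
  obtain ⟨p, hp, hpf, hc⟩ := h
  refine ⟨p, hp, hpf, fun i hi => (hc i hi).imp id fun h1 => le_trans ?_ h1⟩
  refine mul_le_mul_of_nonneg_left hr ?_
  have : (i : ℝ) ≤ p.natDegree := by exact_mod_cast hi.le
  linarith

theorem AlgOrd.add {P : Place ℂ K} {r : ℝ} {f g : AlgebraicClosure K} (hf : AlgOrd P r f)
    (hg : AlgOrd P r g) : AlgOrd P r (f + g) := by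
  classical
  have hcK : CharZero K := charZero_of_injective_algebraMap (algebraMap ℂ K).injective
  let Z : Set (AlgebraicClosure K) := {f, g}
  have hZ : Finite Z := Set.Finite.to_subtype (Set.toFinite _)
  have hfL : f ∈ (FiniteGaloisIntermediateField.adjoin K Z :
      IntermediateField K (AlgebraicClosure K)) :=
    FiniteGaloisIntermediateField.subset_adjoin K Z (Set.mem_insert _ _)
  have hgL : g ∈ (FiniteGaloisIntermediateField.adjoin K Z :
      IntermediateField K (AlgebraicClosure K)) :=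
    FiniteGaloisIntermediateField.subset_adjoin K Z (Set.mem_insert_of_mem _ rfl)
  refine algOrd_gal Z _ (add_mem hfL hgL) fun Ω e hΩ σ => ?_
  have h1 := place_gal _ hΩ ⟨f, hfL⟩ hf σ
  have h2 := place_gal _ hΩ ⟨g, hgL⟩ hg σ
  have h3 : (⟨f + g, add_mem hfL hgL⟩ : (FiniteGaloisIntermediateField.adjoin K Z :
      IntermediateField K (AlgebraicClosure K))) = ⟨f, hfL⟩ + ⟨g, hgL⟩ := rfl
  have h4 := h1.add h2
  rw [← map_add, ← h3] at h4
  exact h4

theorem AlgOrd.mul {P : Place ℂ K} {r r' : ℝ} {f g : AlgebraicClosure K} (hf : AlgOrd P r f)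
    (hg : AlgOrd P r' g) : AlgOrd P (r + r') (f * g) := by
  classical
  have hcK : CharZero K := charZero_of_injective_algebraMap (algebraMap ℂ K).injective
  let Z : Set (AlgebraicClosure K) := {f, g}
  have hZ : Finite Z := Set.Finite.to_subtype (Set.toFinite _)
  have hfL : f ∈ (FiniteGaloisIntermediateField.adjoin K Z :
      IntermediateField K (AlgebraicClosure K)) :=
    FiniteGaloisIntermediateField.subset_adjoin K Z (Set.mem_insert _ _)
  have hgL : g ∈ (FiniteGaloisIntermediateField.adjoin K Z :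
      IntermediateField K (AlgebraicClosure K)) :=
    FiniteGaloisIntermediateField.subset_adjoin K Z (Set.mem_insert_of_mem _ rfl)
  refine algOrd_gal Z _ (mul_mem hfL hgL) fun Ω e hΩ σ => ?_
  have h1 := place_gal _ hΩ ⟨f, hfL⟩ hf σ
  have h2 := place_gal _ hΩ ⟨g, hgL⟩ hg σ
  have h3 : (⟨f * g, mul_mem hfL hgL⟩ : (FiniteGaloisIntermediateField.adjoin K Z :
      IntermediateField K (AlgebraicClosure K))) = ⟨f, hfL⟩ * ⟨g, hgL⟩ := rfl
  have h4 := h1.mul h2
  rw [← map_mul, ← h3, ← mul_add] at h4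
  exact h4

theorem AlgOrd.one {P : Place ℂ K} : AlgOrd P 0 (1 : AlgebraicClosure K) := by
  have h1 := AlgOrd.of_GR (P := P) (r := 0) (f := (1 : K)) GR.one
  rwa [map_one] at h1

theorem AlgOrd.neg {P : Place ℂ K} {r : ℝ} {f : AlgebraicClosure K} (h : AlgOrd P r f) :
    AlgOrd P r (-f) := by
  have h1 := (AlgOrd.of_GR (P := P) (r := 0) (f := (-1 : K)) GR.one.neg).mul h
  rw [map_neg, map_one, neg_one_mul, zero_add] at h1
  exact h1

theorem AlgOrd.sum {P : Place ℂ K} {r : ℝ} {ι : Type*} (A : Finset ι)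
    {f : ι → AlgebraicClosure K} (h : ∀ i ∈ A, AlgOrd P r (f i)) : AlgOrd P r (∑ i ∈ A, f i) := by
  classical
  induction A using Finset.induction_on with
  | empty => rw [Finset.sum_empty]; exact AlgOrd.zero
  | insert a A ha ih =>
    rw [Finset.sum_insert ha]
    exact (h a (Finset.mem_insert_self a A)).add
      (ih fun i hi => h i (Finset.mem_insert_of_mem hi))

theorem AlgOrd.prod {P : Place ℂ K} {ι : Type*} (A : Finset ι) {r : ι → ℝ}
    {f : ι → AlgebraicClosure K} (h : ∀ i ∈ A, AlgOrd P (r i) (f i)) :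
    AlgOrd P (∑ i ∈ A, r i) (∏ i ∈ A, f i) := by
  classical
  induction A using Finset.induction_on with
  | empty => rw [Finset.sum_empty, Finset.prod_empty]; exact AlgOrd.one
  | insert a A ha ih =>
    rw [Finset.sum_insert ha, Finset.prod_insert ha]
    exact (h a (Finset.mem_insert_self a A)).mul
      (ih fun i hi => h i (Finset.mem_insert_of_mem hi))

theorem AlgOrd.gal {P : Place ℂ K} {r : ℝ} {f : AlgebraicClosure K} (h : AlgOrd P r f)
    (σ : AlgebraicClosure K ≃ₐ[K] AlgebraicClosure K) : AlgOrd P r (σ f) := by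
  obtain ⟨p, hmon, hroot, hcoef⟩ := h
  refine ⟨p, hmon, ?_, hcoef⟩
  have h1 := Polynomial.aeval_algHom_apply σ.toAlgHom f p
  rw [hroot, map_zero] at h1
  exact h1

/-- Limits. -/
theorem AlgOrd.limit {P : Place ℂ K} {r : ℝ} {f : AlgebraicClosure K}
    (h : ∀ ε : ℝ, 0 < ε → AlgOrd P (r - ε) f) : AlgOrd P r f := by
  classical
  have hcK : CharZero K := charZero_of_injective_algebraMap (algebraMap ℂ K).injective
  let Z : Set (AlgebraicClosure K) := {f}
  have hZ : Finite Z := Set.Finite.to_subtype (Set.toFinite _)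
  have hfL : f ∈ (FiniteGaloisIntermediateField.adjoin K Z :
      IntermediateField K (AlgebraicClosure K)) :=
    FiniteGaloisIntermediateField.subset_adjoin K Z rfl
  refine algOrd_gal Z _ hfL fun Ω e hΩ σ => ?_
  by_cases h0 : σ ⟨f, hfL⟩ = 0
  · exact Or.inl h0
  right
  have he : (0 : ℝ) < e := by exact_mod_cast hΩ.1
  refine le_of_forall_pos_sub_le fun ε hε => ?_
  have h1 := (place_gal _ hΩ ⟨f, hfL⟩ (h (ε / e) (div_pos hε he)) σ).resolve_left h0
  have h2 : (e : ℝ) * (r - ε / e) = e * r - ε := by field_simp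
  rw [h2] at h1
  exact h1

/-- The norm of an algebraic function. -/
theorem exists_alg_norm {c : AlgebraicClosure K} (hc : c ≠ 0) :
    ∃ (N : ℕ) (y : K), 0 < N ∧ y ≠ 0 ∧ ∀ (P : Place ℂ K) (r : ℝ), AlgOrd P r c →
      N * r ≤ P.ord y ∧ AlgOrd P ((N - 1) * r) (algebraMap K _ y / c) := by
  classical
  have hcK : CharZero K := charZero_of_injective_algebraMap (algebraMap ℂ K).injective
  let Z : Set (AlgebraicClosure K) := {c}
  have hZ : Finite Z := Set.Finite.to_subtype (Set.toFinite _)
  let L : FiniteGaloisIntermediateField K (AlgebraicClosure K) :=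
    FiniteGaloisIntermediateField.adjoin K Z
  have hcL : c ∈ (L : IntermediateField K (AlgebraicClosure K)) :=
    FiniteGaloisIntermediateField.subset_adjoin K Z rfl
  let c' : L := ⟨c, hcL⟩
  have hc' : c' ≠ 0 := fun h => hc (congrArg Subtype.val h)
  have hfix : (∏ σ : L ≃ₐ[K] L, σ c') ∈ Set.range (algebraMap K L) := by
    rw [IsGalois.mem_range_algebraMap_iff_fixed]
    intro τ
    rw [map_prod]
    exact Equiv.prod_comp (Equiv.mulLeft τ) fun σ => σ c'
  obtain ⟨y, hy⟩ := hfix
  have hprod : ∏ σ : L ≃ₐ[K] L, σ c' ≠ 0 := Finset.prod_ne_zero_iff.mpr fun σ _ =>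
    (map_ne_zero_iff _ σ.injective).mpr hc'
  have hy0 : y ≠ 0 := by
    rintro rfl
    rw [map_zero] at hy
    exact hprod hy.symm
  refine ⟨Fintype.card (L ≃ₐ[K] L), y, Fintype.card_pos, hy0, fun P r h => ⟨?_, ?_⟩⟩
  · obtain ⟨Ω, e, hΩ⟩ := exists_place (P := P) L
    have h1 : GR Ω (∑ σ : L ≃ₐ[K] L, e * r) (∏ σ : L ≃ₐ[K] L, σ c') :=
      GR.prod Finset.univ fun σ _ => place_gal _ hΩ c' h σ
    have he : (0 : ℝ) < e := by exact_mod_cast hΩ.1
    rw [← hy, Finset.sum_const, Finset.card_univ, nsmul_eq_mul] at h1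
    rcases h1 with h1 | h1
    · exact absurd ((map_eq_zero _).mp h1) hy0
    · rw [hΩ.2] at h1
      push_cast at h1
      have h2 : (e : ℝ) * (Fintype.card (L ≃ₐ[K] L) * r) ≤ e * P.ord y := by
        refine le_trans (le_of_eq ?_) h1
        ring
      exact le_of_mul_le_mul_left h2 he
  · have h1 : AlgOrd P (∑ σ ∈ (Finset.univ : Finset (L ≃ₐ[K] L)).erase 1, r)
        (∏ σ ∈ (Finset.univ : Finset (L ≃ₐ[K] L)).erase 1, ((σ c' : L) : AlgebraicClosure K)) := by
      refine AlgOrd.prod _ fun σ _ => ?_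
      obtain ⟨p, hmon, hroot, hcoef⟩ := h
      refine ⟨p, hmon, ?_, hcoef⟩
      have h5 : Polynomial.aeval c' p = 0 := by
        apply (algebraMap L (AlgebraicClosure K)).injective
        rw [map_zero, ← hroot]
        exact (Polynomial.aeval_algebraMap_apply (AlgebraicClosure K) _ p).symm
      have h6 := Polynomial.aeval_algHom_apply
        ((L : IntermediateField K (AlgebraicClosure K)).val.comp σ.toAlgHom) c' p
      rw [h5, map_zero] at h6
      exact h6
    rw [Finset.sum_const, Finset.card_erase_of_mem (Finset.mem_univ _), nsmul_eq_mul,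
      Finset.card_univ, Nat.cast_sub Fintype.card_pos, Nat.cast_one] at h1
    have h2 : algebraMap K (AlgebraicClosure K) y / c =
        ∏ σ ∈ (Finset.univ : Finset (L ≃ₐ[K] L)).erase 1, ((σ c' : L) : AlgebraicClosure K) := by
      rw [div_eq_iff hc]
      have h3 := Finset.prod_erase_mul (Finset.univ : Finset (L ≃ₐ[K] L))
        (fun σ => ((σ c' : L) : AlgebraicClosure K)) (Finset.mem_univ 1)
      have h4 : ((1 : L ≃ₐ[K] L) c' : AlgebraicClosure K) = c := rfl
      rw [h4] at h3
      rw [h3]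
      have h5 := congrArg (fun x : L => (x : AlgebraicClosure K)) hy
      change ((algebraMap K L y : L) : AlgebraicClosure K) = _ at h5
      have h6 : ((∏ σ : L ≃ₐ[K] L, σ c' : L) : AlgebraicClosure K) =
          ∏ σ : L ≃ₐ[K] L, ((σ c' : L) : AlgebraicClosure K) :=
        map_prod (L : IntermediateField K (AlgebraicClosure K)).val _ _
      rw [← h6, ← h5]
      rfl
    rw [h2]
    exact h1

/-- A coefficient which is not constant. -/
theorem exists_nonconst_coeff {f : AlgebraicClosure K} (hf : Transcendental ℂ f) :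
    ∃ (j : ℕ) (y : K), 0 < j ∧ Transcendental ℂ y ∧ ∀ (P : Place ℂ K) (r : ℝ), AlgOrd P r f →
      j * r ≤ P.ord y := by
  classical
  have hcK : CharZero K := charZero_of_injective_algebraMap (algebraMap ℂ K).injective
  let Z : Set (AlgebraicClosure K) := {f}
  have hZ : Finite Z := Set.Finite.to_subtype (Set.toFinite _)
  let L : FiniteGaloisIntermediateField K (AlgebraicClosure K) :=
    FiniteGaloisIntermediateField.adjoin K Z
  have hfL : f ∈ (L : IntermediateField K (AlgebraicClosure K)) :=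
    FiniteGaloisIntermediateField.subset_adjoin K Z rfl
  let x : L := ⟨f, hfL⟩
  let p : L[X] := ∏ σ : L ≃ₐ[K] L, (X - C (σ x))
  have hmon : p.Monic := monic_prod_of_monic _ _ fun σ _ => monic_X_sub_C _
  have hdeg : p.natDegree = Fintype.card (L ≃ₐ[K] L) := by
    change (∏ σ : L ≃ₐ[K] L, (X - C (σ x))).natDegree = _
    rw [natDegree_prod_of_monic _ _ fun σ _ => monic_X_sub_C _]
    simp
  have hfix : ∀ (τ : L ≃ₐ[K] L), p.map (τ : L →+* L) = p := by
    intro τ
    change (∏ σ : L ≃ₐ[K] L, (X - C (σ x))).map (τ : L →+* L) = ∏ σ : L ≃ₐ[K] L, (X - C (σ x))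
    rw [Polynomial.map_prod]
    have h1 : ∀ σ : L ≃ₐ[K] L, (X - C (σ x)).map (τ : L →+* L) = X - C ((τ * σ) x) := by
      intro σ
      rw [Polynomial.map_sub, map_X, map_C]
      rfl
    rw [Finset.prod_congr rfl fun σ _ => h1 σ]
    exact Equiv.prod_comp (Equiv.mulLeft τ) fun σ => X - C (σ x)
  have hlift : p ∈ lifts (algebraMap K L) := by
    rw [lifts_iff_coeff_lifts]
    intro i
    rw [IsGalois.mem_range_algebraMap_iff_fixed]
    intro τ
    have h1 := congrArg (fun q => q.coeff i) (hfix τ)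
    simp only [coeff_map] at h1
    exact h1
  obtain ⟨p0, hp0⟩ := (mem_lifts p).mp hlift
  have hdeg0 : p0.natDegree = p.natDegree := by
    rw [← hp0, natDegree_map]
  have hmon0 : p0.Monic := by
    rw [← hp0] at hmon
    exact (algebraMap K L).injective.monic_map_iff.mpr hmon
  have hroot : aeval f p0 = 0 := by
    have h1 : aeval x p0 = 0 := by
      have h2 : aeval x p0 = (p0.map (algebraMap K L)).eval x := by
        rw [eval_map_algebraMap]
      rw [h2, hp0]
      change (∏ σ : L ≃ₐ[K] L, (X - C (σ x))).eval x = 0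
      rw [eval_prod]
      refine Finset.prod_eq_zero (Finset.mem_univ 1) ?_
      simp
    have h3 := Polynomial.aeval_algHom_apply (L : IntermediateField K (AlgebraicClosure K)).val x p0
    rw [h1, map_zero] at h3
    exact h3
  obtain ⟨i, hi, hitr⟩ : ∃ i, i < p0.natDegree ∧ Transcendental ℂ (p0.coeff i) := by
    by_contra hno
    push Not at hno
    apply hf
    have hcoef : ∀ i, IsIntegral ℂ (p0.coeff i) := by
      intro i
      rcases lt_trichotomy i p0.natDegree with h | h | h
      · have h1 := hno i h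
        rw [Transcendental, not_not] at h1
        exact isAlgebraic_iff_isIntegral.mp h1
      · rw [h, hmon0.coeff_natDegree]
        exact isIntegral_one
      · rw [coeff_eq_zero_of_natDegree_lt h]
        exact isIntegral_zero
    let q : (integralClosure ℂ K)[X] := p0.toSubring (integralClosure ℂ K).toSubring (by
      intro a ha
      obtain ⟨i, -, rfl⟩ := Polynomial.mem_coeffs_iff.mp ha
      exact hcoef i)
    have hq : q.map (algebraMap (integralClosure ℂ K) K) = p0 := by
      ext i
      rw [coeff_map]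
      exact Polynomial.coeff_toSubring _ _ _
    have h1 : IsIntegral (integralClosure ℂ K) f := by
      refine ⟨q, ?_, ?_⟩
      · have h2 : (q.map (algebraMap (integralClosure ℂ K) K)).Monic := by rw [hq]; exact hmon0
        exact (FaithfulSMul.algebraMap_injective (integralClosure ℂ K) K).monic_map_iff.mpr h2
      · rw [← hq, aeval_map_algebraMap] at hroot
        exact hroot
    exact (isIntegral_trans (R := ℂ) (A := integralClosure ℂ K) f h1).isAlgebraic
  refine ⟨p0.natDegree - i, p0.coeff i, by omega, hitr, fun P r h => ?_⟩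
  obtain ⟨Ω, e, hΩ⟩ := exists_place (P := P) L
  have h1 := coeff_bound Ω (e * r) Finset.univ (fun σ : L ≃ₐ[K] L => σ x)
    (fun σ _ => place_gal _ hΩ x h σ) i
  change GR Ω _ (p.coeff i) at h1
  rw [← hp0, coeff_map] at h1
  rcases h1 with h1 | h1
  · exfalso
    have h2 := (map_eq_zero _).mp h1
    rw [h2] at hitr
    exact hitr isAlgebraic_zero
  · rw [hΩ.2] at h1
    rw [hdeg0, hdeg, ← Finset.card_univ]
    push_cast at h1
    have he' : (0 : ℝ) < e := by exact_mod_cast hΩ.1
    have hle : i ≤ (Finset.univ : Finset (L ≃ₐ[K] L)).card := by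
      rw [Finset.card_univ, ← hdeg, ← hdeg0]
      exact hi.le
    rw [Nat.cast_sub hle]
    have h2 : (e : ℝ) * (((Finset.univ : Finset (L ≃ₐ[K] L)).card - (i : ℝ)) * r) ≤
        e * P.ord (p0.coeff i) := by
      refine le_trans (le_of_eq ?_) h1
      ring
    exact le_of_mul_le_mul_left h2 he'

end Pool.Agent.Zk28.TS
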