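import Pool.Agent.Zk28.TF.Psef

/-!
Groups of divisor classes without effective classes.
-/

set_option autoImplicit false
set_option linter.unusedSectionVars false

open FF Pool.Agent.W602.GT

namespace Pool.Agent.Zk28.TF

open Pool.Agent.Zk28.TS

variable {K : Type} [Field K] [Algebra ℂ K]

/-- The divisors `D` and `E` on `X` are `ℚ`-linearly equivalent. -/
def QEquiv (n : ℕ) (X : Set (Place ℂ K)) (D E : Place ℂ K → ℝ) : Prop :=
  ∃ (N : ℕ) (z : K), 0 < N ∧ z ≠ 0 ∧ ∀ P ∈ X, Divisorial n P → N * (D P - E P) = P.ord z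

/-- `E` is a nonzero effective divisor on `X`. -/
def PosDiv (n : ℕ) (X : Set (Place ℂ K)) (E : Place ℂ K → ℝ) : Prop :=
  (∀ P ∈ X, Divisorial n P → 0 ≤ E P) ∧ ∃ P ∈ X, Divisorial n P ∧ 0 < E P

/-- `A` is a group of `G`-invariant divisor classes on `X` with the coefficients in `ℚ`, which contains
the class of `L` and no class of a nonzero effective divisor. It is given by the set of its divisors. -/
structure NullGroup (n : ℕ) (X : Set (Place ℂ K)) (G : Set (K ≃ₐ[ℂ] K)) (L : Place ℂ K → ℝ)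
    (A : Set (Place ℂ K → ℝ)) : Prop where
  mem : L ∈ A
  add : ∀ D ∈ A, ∀ E ∈ A, (fun P => D P + E P) ∈ A
  rat : ∀ D ∈ A, ∀ q : ℚ, (fun P => q * D P) ∈ A
  equiv : ∀ D ∈ A, ∀ E, QEquiv n X D E → E ∈ A
  inv : ∀ D ∈ A, InvariantClass n X G D
  null : ∀ D ∈ A, ¬ PosDiv n X D

/-- `A` is maximal: all `G`-invariant classes `D` which do not belong to `A` are, modulo `A`, classes of
nonzero effective divisors, or negatives of such. -/
structure MaxNullGroup (n : ℕ) (X : Set (Place ℂ K)) (G : Set (K ≃ₐ[ℂ] K)) (L : Place ℂ K → ℝ)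
    (A : Set (Place ℂ K → ℝ)) : Prop extends NullGroup n X G L A where
  total : ∀ D, InvariantClass n X G D → D ∈ A ∨
    (∃ E, PosDiv n X E ∧ (fun P => D P - E P) ∈ A) ∨ ∃ E, PosDiv n X E ∧ (fun P => D P + E P) ∈ A

end Pool.Agent.Zk28.TF
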