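import Pool.Agent.Zk28.TF.Defs

/-!
The canonical divisor of a distribution.
-/

set_option autoImplicit false
set_option linter.unusedSectionVars false

open FF Pool.Agent.W602.GT

namespace Pool.Agent.Zk28.TF

open Pool.Agent.Zk28.TS

variable {K : Type} [Field K] [Algebra ℂ K]

/-- `κ` is the divisor on `X` of the leafwise `r`-form `θ` on the distribution `V` of rank `r`, a canonical
divisor of `V` with respect to the pair `(X, Δ)`: for all prime divisors `P` of `X` the values of `θ` on
`r` vector fields in `V` which are regular at `P` have order at least `κ P - b δ P`, where `b` is the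
number of those which are not tangent to `P` (not logarithmic at `P`), and this order occurs. -/
def LeafDivOf (n : ℕ) (X : Set (Place ℂ K)) (δ : Place ℂ K → ℝ)
    (V : Submodule K (Derivation ℂ K K)) {r : ℕ} (θ : V [⋀^Fin r]→ₗ[K] K)
    (κ : Place ℂ K → ℝ) : Prop :=
  ∀ P ∈ X, Divisorial n P →
    (∀ D : Fin r → V, (∀ i, DerReg P (D i : Derivation ℂ K K)) → θ D = 0 ∨
      κ P ≤ P.ord (θ D) + ({a | ¬ DerLog P (D a : Derivation ℂ K K)}.ncard : ℝ) * δ P) ∧
    ∃ D : Fin r → V, (∀ i, DerReg P (D i : Derivation ℂ K K)) ∧ θ D ≠ 0 ∧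
      P.ord (θ D) + ({a | ¬ DerLog P (D a : Derivation ℂ K K)}.ncard : ℝ) * δ P = κ P

/-- The canonical class of the distribution `V` (with respect to the pair) is `c` times the class of the
divisor `L`: for a nonzero leafwise form `θ` of maximal degree with the divisor `κ` some positive
multiple of `κ - c L` is the divisor of a rational function `z`. -/
def CanonicalMultiple (n : ℕ) (X : Set (Place ℂ K)) (δ L : Place ℂ K → ℝ)
    (V : Submodule K (Derivation ℂ K K)) (c : ℚ) : Prop :=
  ∃ (θ : V [⋀^Fin (Module.finrank K V)]→ₗ[K] K) (κ : Place ℂ K → ℝ), θ ≠ 0 ∧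
    LeafDivOf n X δ V θ κ ∧ ∃ (N : ℕ) (z : K), 0 < N ∧ z ≠ 0 ∧
      ∀ P ∈ X, Divisorial n P → N * (κ P - c * L P) = P.ord z

end Pool.Agent.Zk28.TF
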