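import Pool.Agent.Zk28.TF.SP7
import Pool.Agent.Zk25.TF.DF

/-!
Supplements to the dichotomy.
-/

set_option autoImplicit false
set_option linter.unusedSectionVars false

open FF Pool.Agent.W602.GT

namespace Pool.Agent.Zk28.TF

open Pool.Agent.Zk28.TS

section

variable {K : Type} [Field K] [Algebra ℂ K] {n : ℕ}
  {X : Set (Place ℂ K)} {δ : Place ℂ K → ℝ} {k : Place ℂ K → ℤ} {G : Set (K ≃ₐ[ℂ] K)}
  {A C : Set (Place ℂ K → ℝ)} [Algebra.EssFiniteType ℂ K] [Module.Finite K (Derivation ℂ K K)]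

/-- The form which defines a foliation with a negative canonical class. -/
theorem negative_tensor (hn : 1 ≤ n) (htr : Algebra.trdeg ℂ K = n)
    (hδ : ∀ P ∈ X, 0 ≤ δ P ∧ δ P ≤ 1)
    {ω : (Fin n → Derivation ℂ K K) → K} (hω : IsPluri 1 ω) (hω0 : ∃ D, ω D ≠ 0)
    (hk : DivOf n X ω k) (hA : NullGroup n X G (fun P => k P + δ P) A)
    {F : Submodule K (Derivation ℂ K K)} (hF : F ≠ ⊤) {κ E : Place ℂ K → ℝ}
    (hκ : CanonicalDivisor n X δ F κ) (hκE : (fun P => κ P + E P) ∈ A) :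
    ∃ (p : ℕ) (a : Place ℂ K → ℝ) (t : MTensor K (Fin p)), 0 < p ∧
      p = n - Module.finrank K F ∧ a ∈ A ∧ t ≠ 0 ∧ MAdapted n X δ (fun P => a P - E P) t ∧
      ∀ D : Fin p → Derivation ℂ K K, (∃ i, D i ∈ F) → t D = 0 := by
  obtain ⟨hp, t, ht0, ht, htF⟩ := Pool.Agent.Zk25.TF.defining_form hn htr hδ hω hω0 hk hF
  obtain ⟨y, hy, h1⟩ := (canonicalDivisor_iff htr hδ).mp hκ
  refine ⟨_, fun P => -(k P + δ P) - vs δ F P + E P, t, hp, rfl, ?_, ht0, ?_, htF⟩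
  · have h2 := hA.sub_mem hκE hA.mem
    refine hA.congr h2 (inv_ne_zero hy) fun P hPX hP => ?_
    rw [h1 P hPX hP, P.ord_inv]
    push_cast
    ring
  · convert ht using 1
    funext P
    ring

/-- The distributions of a semistable tangent bundle. -/
theorem mem_or_of_effMod {L : Place ℂ K → ℝ} (htr : Algebra.trdeg ℂ K = n)
    (hδ : ∀ P ∈ X, 0 ≤ δ P ∧ δ P ≤ 1) (hA : NullGroup n X G L A)
    (h : ∀ (W : Submodule K (Derivation ℂ K K)) (κ : Place ℂ K → ℝ), Invariant G W →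
      CanonicalDivisor n X δ W κ → EffMod n X A κ) (W : Submodule K (Derivation ℂ K K))
    (hW : InvSub G W) :
    vs δ W ∈ A ∨ ∃ E, PosDiv n X E ∧ (fun P => vs δ W P + E P) ∈ A := by
  obtain ⟨θ0, hθ0, hθd⟩ := leafDiv htr hδ W
  obtain ⟨E, hE, h1⟩ := h W _ (invariant_iff.mpr hW) ⟨θ0, hθ0, hθd⟩
  have h2 : (fun P => vs δ W P + E P) ∈ A := by
    have h3 := hA.rat _ h1 (-1)
    convert h3 using 1
    funext P
    push_cast
    ring
  by_cases hpos : ∃ P ∈ X, Divisorial n P ∧ 0 < E P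
  · exact Or.inr ⟨E, ⟨hE, hpos⟩, h2⟩
  · left
    push Not at hpos
    refine hA.congr h2 (z := 1) one_ne_zero fun P hPX hP => ?_
    rw [le_antisymm (hpos P hPX hP) (hE P hPX hP), P.ord_one]
    push_cast
    ring

end

end Pool.Agent.Zk28.TF
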