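import Pool.Agent.Zk28.TF.SP3
import Pool.Agent.Zk28.TF.SP8
import Pool.Agent.Zk80.TF.FR
import Pool.Agent.Zk17.TF.GD

/-!
The Bochner principle for a maximal group of classes.
-/

set_option autoImplicit false
set_option linter.unusedSectionVars false

open FF Pool.Agent.W602.GT

namespace Pool.Agent.Zk28.TF

open Pool.Agent.Zk28.TS

section

variable {K : Type} [Field K] [Algebra ℂ K] {n : ℕ}
  {X : Set (Place ℂ K)} {δ : Place ℂ K → ℝ} {k : Place ℂ K → ℤ} {G : Set (K ≃ₐ[ℂ] K)}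
  {A C : Set (Place ℂ K → ℝ)}

/-- Tensors with values in nonnegative classes only. -/
theorem noZeros_of_eff {L : Place ℂ K → ℝ} (hA : NullGroup n X G L A)
    (h : ∀ p : ℕ, 0 < p → ∀ γ : Place ℂ K → ℝ, InvariantClass n X G γ →
      ∀ t : MTensor K (Fin p), t ≠ 0 → MAdapted n X δ γ t → EffMod n X A γ) :
    Pool.Agent.Zk17.TF.NoZeros n X δ G A := by
  intro m γ E t hm ht0 hγ hEG hE ht P hPX hP
  by_contra hne
  have hinv : InvariantClass n X G fun P => γ P - E P := by
    have h1 := inv_comb (hA.inv _ hγ) hEG 1 (-1)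
    convert h1 using 1
    funext P
    push_cast
    ring
  obtain ⟨E', hE', h1⟩ := h m hm _ hinv t ht0 ht
  have h2 := hA.sub_mem hγ h1
  refine hA.null _ h2 ⟨fun Q hQX hQ => ?_, P, hPX, hP, ?_⟩
  · have h3 := hE Q hQX hQ
    have h4 := hE' Q hQX hQ
    linarith
  · have h3 := lt_of_le_of_ne (hE P hPX hP) (Ne.symm hne)
    have h4 := hE' P hPX hP
    linarith

variable [Algebra.EssFiniteType ℂ K] [Module.Finite K (Derivation ℂ K K)]

/-- The number of the tensors with values in a null group. -/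
theorem bochner_of_noZeros (hn : 1 ≤ n) (htr : Algebra.trdeg ℂ K = n)
    (hδ : ∀ P ∈ X, 0 ≤ δ P ∧ δ P ≤ 1)
    {ω : (Fin n → Derivation ℂ K K) → K} (hω : IsPluri 1 ω) (hω0 : ∃ D, ω D ≠ 0)
    (hk : DivOf n X ω k) (hG : ∀ g ∈ G, MPreserves X δ (fun _ => (0 : ℝ)) g)
    (hconst : ∀ z : K, z ≠ 0 → (∀ P ∈ X, Divisorial n P → 0 ≤ P.ord z) →
      ∃ a : ℂ, algebraMap ℂ K a = z)
    (hA : NullGroup n X G (fun P => k P + δ P) A)
    (hNZ : Pool.Agent.Zk17.TF.NoZeros n X δ G A) :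
    ∀ p : ℕ, 0 < p →
      (∀ γ ∈ A, ∀ (t : MTensor K (Fin p)) (E : Place ℂ K → ℝ), t ≠ 0 →
        (∀ P ∈ X, Divisorial n P → 0 ≤ E P) → MAdapted n X δ (fun P => γ P - E P) t →
        ∀ P ∈ X, Divisorial n P → E P = 0) ∧
      ∀ (N : ℕ) (γ : Fin N → Place ℂ K → ℝ) (t : Fin N → MTensor K (Fin p)),
        (∀ j, γ j ∈ A) → (∀ j, MAdapted n X δ (γ j) (t j)) →
        (∀ i j, QEquiv n X (γ i) (γ j) → γ i = γ j) →
        (∀ ρ, LinearIndependent ℂ fun j : {j : Fin N // γ j = ρ} => t j) →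
        LinearIndependent (AlgebraicClosure K) t ∧ N ≤ n ^ p ∧
          (N = n ^ p → QEquiv n X (fun P => ∑ j, γ j P)
            fun P => -(p * (n : ℝ) ^ (p - 1) * (k P + δ P))) := by
  classical
  refine fun p hp => ⟨fun γ hγ t E ht0 hE ht => ?_, fun N γ t hγ ht hdist hti => ?_⟩
  · exact Pool.Agent.Zk17.TF.zero_gen hn htr hδ hG hA hNZ hp hγ ht0 hE ht
  · have h1 := Pool.Agent.Zk17.TF.indep_gen hn htr hδ hG hA hNZ hconst hp hγ hdist ht hti
    have h2 := finite_MTensor (K := K) (n := n) (p := p) htr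
    have := h2.1
    have h3 := h1.fintype_card_le_finrank
    rw [Fintype.card_fin] at h3
    refine ⟨h1, h3.trans h2.2, fun hN => ?_⟩
    have hFD := Pool.Agent.Zk80.TF.full_det hn htr hδ hω hω0 hk hp hN ht h1
    have hsumA : (fun P => ∑ j, γ j P) ∈ A := by
      have h4 : ∀ S : Finset (Fin N), (fun P => ∑ j ∈ S, γ j P) ∈ A := by
        intro S
        induction S using Finset.induction_on with
        | empty => simpa using hA.zero_mem
        | insert a S ha ih =>
          have h5 := hA.add _ (hγ a) _ ih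
          convert h5 using 1
          funext P
          rw [Finset.sum_insert ha]
      exact h4 Finset.univ
    have hDA : (fun P => -(∑ j, γ j P + p * (n : ℝ) ^ (p - 1) * (k P + δ P))) ∈ A := by
      have h4 := hA.add _ (hA.rat _ hsumA (-1)) _ (hA.rat _ hA.mem (-(p * (n : ℚ) ^ (p - 1))))
      convert h4 using 1
      funext P
      push_cast
      ring
    obtain ⟨M, z, hM, hz, h5⟩ := hA.equiv_of_eff hDA hFD
    refine ⟨M, z⁻¹, hM, inv_ne_zero hz, fun P hPX hP => ?_⟩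
    have h6 := h5 P hPX hP
    rw [P.ord_inv]
    push_cast
    rw [← h6]
    ring

end

end Pool.Agent.Zk28.TF
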