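import Pool.Agent.Zk28.TF.V3
import Pool.Agent.Zk28.TF.SP5
import Pool.Agent.Zk28.TF.AOrd

/-!
Zeros of tensors, for null groups of divisors with finite support.
-/

set_option autoImplicit false
set_option linter.unusedSectionVars false

open FF Pool.Agent.W602.GT

namespace Pool.Agent.Zk28.TF

open Pool.Agent.Zk28.TS

section

variable {K : Type} [Field K] [Algebra ℂ K] {n : ℕ}
  {X : Set (Place ℂ K)} {δ : Place ℂ K → ℝ} {G : Set (K ≃ₐ[ℂ] K)}
  {A : Set (Place ℂ K → ℝ)}

/-- The zero divisor of a tensor has finite support. -/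
theorem fin_zero (hX : LocFin n X δ) {p : ℕ} {γ E : Place ℂ K → ℝ} (hγ : FinDiv n X γ)
    (hE : ∀ P ∈ X, Divisorial n P → 0 ≤ E P) {t : MTensor K (Fin p)} (ht0 : t ≠ 0)
    (ht : MAdapted n X δ (fun P => γ P - E P) t) : FinDiv n X E := by
  classical
  obtain ⟨D, hD⟩ : ∃ D, t D ≠ 0 := by
    by_contra hno
    push Not at hno
    exact ht0 (MultilinearMap.ext hno)
  obtain ⟨N, y, hN, hy, h⟩ := exists_alg_norm hD
  have hNR : (0 : ℝ) < N := by exact_mod_cast hN
  have h1 : AA n X fun P => ∀ i, DerReg P (D i) := AA.all fun i => hX.fields _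
  have h2 : AA n X fun P => δ P = 0 := hX.boundary
  have h3 : AA n X fun P => γ P = 0 := hγ
  have h4 : AA n X fun P => (P.ord y : ℝ) = 0 := hX.functions _ hy
  rw [finDiv_iff]
  refine ((h1.and h2).and (h3.and h4)).mono ?_
  rintro P hPX hP ⟨⟨a1, a2⟩, a3, a4⟩
  have h5 := (h P _ (ht P hPX hP D a1)).1
  rw [a4] at h5
  beta_reduce at h5
  rw [a2, a3] at h5
  have h6 := hE P hPX hP
  have h7 : (N : ℝ) * E P ≤ 0 := by
    have h8 : (N : ℝ) * E P =
        N * -(({a | ¬ DerLog P (D a)}.ncard : ℝ) * 0 + (0 - E P)) := by ring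
    rw [h8]
    exact h5
  nlinarith

/-- Tensors with values in nonnegative classes only. -/
theorem noZeros_of_effF {L : Place ℂ K → ℝ} (hX : LocFin n X δ) (hA : FinNull n X G L A)
    (h : ∀ p : ℕ, 0 < p → ∀ γ : Place ℂ K → ℝ, FinDiv n X γ → InvariantClass n X G γ →
      ∀ t : MTensor K (Fin p), t ≠ 0 → MAdapted n X δ γ t → EffMod n X A γ) :
    Pool.Agent.Zk17.TF.NoZeros n X δ G A := by
  intro m γ E t hm ht0 hγ hEG hE ht P hPX hP
  by_contra hne
  have hinv : InvariantClass n X G fun P => γ P - E P := by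
    have h1 := inv_comb (hA.inv _ hγ) hEG 1 (-1)
    convert h1 using 1
    funext P
    push_cast
    ring
  have hfE := fin_zero hX (hA.fin _ hγ) hE ht0 ht
  have hf : FinDiv n X fun P => γ P - E P :=
    ((hA.fin _ hγ).comb hfE 1 (-1)).congr fun P _ _ => by ring
  obtain ⟨E', hE', h1⟩ := h m hm _ hf hinv t ht0 ht
  have h2 := hA.toNullGroup.sub_mem hγ h1
  refine hA.null _ h2 ⟨fun Q hQX hQ => ?_, P, hPX, hP, ?_⟩
  · have h3 := hE Q hQX hQ
    have h4 := hE' Q hQX hQ
    linarith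
  · have h3 := lt_of_le_of_ne (hE P hPX hP) (Ne.symm hne)
    have h4 := hE' P hPX hP
    linarith

end

end Pool.Agent.Zk28.TF
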