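import Pool.Agent.Zk28.TF.Slope

/-!
Degree orders for which `K_X + Δ + B` is negative, and the foliations which they define.
-/

set_option autoImplicit false
set_option linter.unusedSectionVars false

open FF Pool.Agent.W602.GT

namespace Pool.Agent.Zk28.TF

open Pool.Agent.Zk28.TS

section

variable {K : Type} [Field K] [Algebra ℂ K] {n : ℕ}

/-- The volume of the tangent bundle. -/
theorem htopv [Algebra.EssFiniteType ℂ K] [Module.Finite K (Derivation ℂ K K)]
    (hn : 1 ≤ n) (htr : Algebra.trdeg ℂ K = n)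
    {X : Set (Place ℂ K)} {δ β : Place ℂ K → ℝ} (hδ : ∀ P ∈ X, 0 ≤ δ P ∧ δ P ≤ 1)
    {ω : (Fin n → Derivation ℂ K K) → K} (hω : IsPluri 1 ω) (hω0 : ∃ D, ω D ≠ 0)
    {k : Place ℂ K → ℤ} (hk : DivOf n X ω k) :
    ∃ y : K, y ≠ 0 ∧ ∀ t : ℝ, ∀ P ∈ X, Divisorial n P →
      hh n δ (fun P => β P + t * (k P + δ P + β P)) ⊤ P =
        -((1 + t) * (k P + δ P + β P)) + P.ord y := by
  obtain ⟨x, b, hF⟩ := exists_fr htr
  have hn' : (0 : ℝ) < n := by exact_mod_cast hn
  obtain ⟨y, hy, hvt⟩ := vs_top htr hδ hω hω0 hk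
  refine ⟨y, hy, fun t P hPX hP => ?_⟩
  unfold hh
  rw [finrank_top, hF.finrank, div_self hn'.ne', hvt P hPX hP]
  ring

/-- If `L` is effective then it is nonnegative. -/
theorem eff_of_section [Algebra.EssFiniteType ℂ K] (htr : Algebra.trdeg ℂ K = n)
    {X : Set (Place ℂ K)} {δ β : Place ℂ K → ℝ}
    {ω : (Fin n → Derivation ℂ K K) → K} (hω : IsPluri 1 ω) (hω0 : ∃ D, ω D ≠ 0)
    {k : Place ℂ K → ℤ} (hk : DivOf n X ω k) {N : ℕ} (hN : 0 < N)
    {η : (Fin n → Derivation ℂ K K) → K}
    (hη : IsSection n X (fun P => δ P + β P) N η) (hη0 : ∃ D, η D ≠ 0) :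
    Eff n X fun P => -(k P + δ P + β P) := by
  classical
  obtain ⟨x, b, hF⟩ := exists_fr htr
  have hexp : ∀ (N : ℕ) (η : (Fin n → Derivation ℂ K K) → K), IsPluri N η →
      ∀ D : Fin n → Derivation ℂ K K, η D = (Matrix.of fun i j => D i (x j)).det ^ N * η b := by
    intro N η hη D
    have h1 := hη (Matrix.of fun i j => D i (x j)) b
    have h2 : (fun i => ∑ j, (Matrix.of fun i j => D i (x j)) i j • b j) = D := by
      funext i
      exact hF.2 (D i)
    rw [h2] at h1
    exact h1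
  have hωb : ω b ≠ 0 := by
    intro h0
    obtain ⟨D, hD⟩ := hω0
    rw [hexp 1 ω hω D, h0, mul_zero] at hD
    exact hD rfl
  have hηb : η b ≠ 0 := by
    intro h0
    obtain ⟨D, hD⟩ := hη0
    rw [hexp N η hη.1 D, h0, mul_zero] at hD
    exact hD rfl
  refine ⟨N, hN, η b / ω b ^ N, div_ne_zero hηb (pow_ne_zero _ hωb), fun P hPX hP => ?_⟩
  obtain ⟨D, hD, hD0, hDk⟩ := (hk P hPX hP).2
  have h1 := hη.2 P hPX hP D hD
  have h2 := hexp 1 ω hω D
  have h3 := hexp N η hη.1 D
  have hdet : (Matrix.of fun i j => D i (x j)).det ≠ 0 := by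
    intro h0
    rw [h2, h0, pow_one, zero_mul] at hD0
    exact hD0 rfl
  have hη' : η D ≠ 0 := by
    rw [h3]
    exact mul_ne_zero (pow_ne_zero _ hdet) hηb
  rcases h1 with h1 | h1
  · exact absurd h1 hη'
  rw [h3, P.ord_mul (pow_ne_zero _ hdet) hηb, P.ord_pow] at h1
  rw [h2, P.ord_mul (pow_ne_zero _ hdet) hωb, P.ord_pow] at hDk
  rw [P.ord_div hηb (pow_ne_zero _ hωb), P.ord_pow]
  have hDk' : ((P.ord (Matrix.of fun i j => D i (x j)).det : ℤ) : ℝ) + P.ord (ω b) = k P := by
    rw [← hDk]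
    push_cast
    ring
  push_cast at h1 ⊢
  nlinarith

/-- The Kodaira dimension is `-∞` if and only if `L` is negative for a degree order. -/
theorem exists_degreeOrder [Algebra.EssFiniteType ℂ K] (hn : 1 ≤ n)
    (htr : Algebra.trdeg ℂ K = n)
    {X : Set (Place ℂ K)} {δ β : Place ℂ K → ℝ} (hδ : ∀ P ∈ X, 0 ≤ δ P ∧ δ P ≤ 1)
    {ω : (Fin n → Derivation ℂ K K) → K} (hω : IsPluri 1 ω) (hω0 : ∃ D, ω D ≠ 0)
    {k : Place ℂ K → ℤ} (hk : DivOf n X ω k) :
    (¬ ∃ N : ℕ, 0 < N ∧ ∃ η : (Fin n → Derivation ℂ K K) → K,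
      IsSection n X (fun P => δ P + β P) N η ∧ ∃ D, η D ≠ 0) ↔
    ∃ Pos, DegreeOrder n X Pos ∧ (fun P => k P + δ P + β P) ∉ Pos := by
  classical
  obtain ⟨x, b, hF⟩ := exists_fr htr
  have hfin := hF.finite
  obtain ⟨y, hy, htop⟩ := htopv (β := β) hn htr hδ hω hω0 hk
  constructor
  · intro hno
    have hle : ¬ Eff n X fun P => -(k P + δ P + β P) := by
      intro h
      apply hno
      refine section_of_eff hn htr hδ ?_
      obtain ⟨N, hN, z, hz, h⟩ := h
      refine ⟨N, hN, z * y ^ N, mul_ne_zero hz (pow_ne_zero _ hy), fun P hPX hP => ?_⟩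
      have h2 := htop 0 P hPX hP
      have h3 : (fun P => β P + (0 : ℝ) * (k P + δ P + β P)) = β := by funext P; ring
      rw [h3] at h2
      rw [h2, P.ord_mul hz (pow_ne_zero _ hy), P.ord_pow]
      push_cast
      linarith [h P hPX hP]
    obtain ⟨C, hEC, hC, htot, hxC⟩ := exists_total (E := {f | Eff n X f}) isCone_eff
      (x0 := fun P => -(k P + δ P + β P)) hle
    exact ⟨opp C, degreeOrder_of_cone hEC hC htot, hxC⟩
  · rintro ⟨Pos, hPos, hL⟩ ⟨N, hN, η, hη, hη0⟩
    have h1 := hPos.eff_subset (eff_of_section htr hω hω0 hk hN hη hη0)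
    apply hL
    change (fun P => -(-(k P + δ P + β P))) ∈ Pos at h1
    simpa only [neg_neg] using h1

/-- The foliation of a degree order. -/
theorem order_main [Algebra.EssFiniteType ℂ K] (hn : 1 ≤ n) (htr : Algebra.trdeg ℂ K = n)
    {X : Set (Place ℂ K)} {δ β : Place ℂ K → ℝ} (hδ : ∀ P ∈ X, 0 ≤ δ P ∧ δ P ≤ 1)
    {ω : (Fin n → Derivation ℂ K K) → K} (hω : IsPluri 1 ω) (hω0 : ∃ D, ω D ≠ 0)
    {k : Place ℂ K → ℤ} (hk : DivOf n X ω k)
    {G : Set (K ≃ₐ[ℂ] K)} (hG : ∀ σ ∈ G, MPreserves X δ β σ)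
    {Pos : Set (Place ℂ K → ℝ)} (hPos : DegreeOrder n X Pos)
    (hL : (fun P => k P + δ P + β P) ∉ Pos) :
    ∃ F : Submodule K (Derivation ℂ K K), F ≠ ⊥ ∧
      (β ∈ Pos → ∀ D ∈ F, ∀ E ∈ F, ⁅D, E⁆ ∈ F) ∧
      (∀ σ ∈ G, ∀ D ∈ F, ∀ E, Image σ D E → E ∈ F) ∧
      ∀ m : ℕ, 0 < m → ∀ q : ℚ,
        (-(m / n : ℚ) < q ∨ ∃ p : ℕ, 0 < p ∧ ∃ r : ℚ, -(p / n : ℚ) < r ∧
          -((n - 1) * q * p) < m * (p + r) ∧
          ∃ s : MultilinearMap K (fun _ : Fin p => (⊤ : Submodule K (Derivation ℂ K K)))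
            (AlgebraicClosure K),
            LeafAdapted n X δ (fun P => (p : ℝ) / n * β P + r * (k P + δ P + β P)) ⊤ s ∧
              s ≠ 0) →
        ∀ γ : Place ℂ K → ℝ, InvariantClass n X G γ →
        (fun P => (m : ℝ) / n * β P + q * (k P + δ P + β P) - γ P) ∈ Pos →
        ∀ s : MultilinearMap K (fun _ : Fin m => F) (AlgebraicClosure K),
        LeafAdapted n X δ γ F s → s = 0 := by
  classical
  obtain ⟨x, b, hF⟩ := exists_fr htr
  have hfin := hF.finite
  have hn' : (0 : ℝ) < n := by exact_mod_cast hn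
  have hnq : (0 : ℚ) < n := by exact_mod_cast hn
  obtain ⟨y, hy, htop⟩ := htopv (β := β) hn htr hδ hω hω0 hk
  obtain ⟨l, hl⟩ : ∃ l : Place ℂ K → ℝ, l = fun P => k P + δ P + β P := ⟨_, rfl⟩
  have hlP : ∀ P, l P = k P + δ P + β P := fun P => by rw [hl]
  rw [← hl] at hL
  simp only [← hlP] at htop
  have hEC := hPos.eff_subset
  have hC := hPos.isCone
  have htot := hPos.tot
  set C := opp Pos with hCdef
  have hxC : (fun P => -(l P)) ∉ C := by
    intro h
    apply hL
    change (fun P => -(-(l P))) ∈ Pos at h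
    simpa only [neg_neg] using h
  have hlC : l ∈ C := by
    rcases htot l with h | h
    · exact h
    · exact absurd h hxC
  -- principal divisors
  have hpr : ∀ z : K, z ≠ 0 → ∀ f g : Place ℂ K → ℝ,
      (∀ P ∈ X, Divisorial n P → f P = g P + P.ord z) → g ∈ C → f ∈ C := by
    intro z hz f g hfg hg
    have h1 : f - g ∈ C := by
      refine hEC ⟨1, Nat.one_pos, z, hz, fun P hPX hP => ?_⟩
      rw [Pi.sub_apply, hfg P hPX hP]
      push_cast
      linarith
    have h2 := hC.add _ h1 _ hg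
    rwa [sub_add_cancel] at h2
  -- negative multiples of `l`
  have hneg : ∀ c : ℚ, 0 < c → ∀ z : K, z ≠ 0 → ∀ f : Place ℂ K → ℝ, f ∈ C →
      (∀ P ∈ X, Divisorial n P → f P = -(c * l P) + P.ord z) → False := by
    intro c hc z hz f hf hfz
    have h1 : (fun P => -((c : ℝ) * l P)) ∈ C :=
      hpr z⁻¹ (inv_ne_zero hz) _ _ (fun P hPX hP => by
        rw [hfz P hPX hP, P.ord_inv]
        push_cast
        ring) hf
    have h2 := hC.rat h1 (q := c⁻¹) (inv_nonneg.mpr hc.le)
    apply hxC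
    have h3 : (fun P => ((c⁻¹ : ℚ) : ℝ) * -((c : ℝ) * l P)) = fun P => -(l P) := by
      funext P
      have h4 : (c : ℝ) ≠ 0 := by exact_mod_cast hc.ne'
      push_cast
      field_simp
    rw [h3] at h2
    exact h2
  let Adm : ℚ → Prop := fun t => -1 < t ∨ ∃ p : ℕ, 0 < p ∧ ∃ r : ℚ, -(p / n : ℚ) < r ∧
    -((n - 1) * t * p) < n * (p + r) ∧
    ∃ s : MultilinearMap K (fun _ : Fin p => (⊤ : Submodule K (Derivation ℂ K K)))
      (AlgebraicClosure K),
      LeafAdapted n X δ (fun P => (p : ℝ) / n * β P + r * (k P + δ P + β P)) ⊤ s ∧ s ≠ 0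
  obtain ⟨F, hF0, hFb, hFG, hFv⟩ := slope_main hn htr (β := β) (l := l) hδ hG hEC hC htot hlC Adm
    (Or.inl (by norm_num)) (by
      rintro t (ht | ⟨p, hp, r, hr, hpr', s, hs, hs0⟩)
      · refine ⟨⊤, fun _ _ _ _ => Submodule.mem_top, fun h => ?_⟩
        exact hneg (1 + t) (by linarith) y hy _ h fun P hPX hP => by
          rw [htop t P hPX hP]
          push_cast
          ring
      · by_contra hno
        push Not at hno
        have hp' : (0 : ℝ) < p := by exact_mod_cast hp
        have hpq : (0 : ℚ) < p := by exact_mod_cast hp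
        have hfun : (fun P => (p : ℝ) / n * (β P + ((n * r / p : ℚ) : ℝ) * l P)) =
            fun P => (p : ℝ) / n * β P + r * (k P + δ P + β P) := by
          funext P
          rw [hlP]
          push_cast
          field_simp
        set t1 : ℚ := n * r / p with ht1
        have ht1' : -1 < t1 := by
          rw [ht1, lt_div_iff₀ hpq]
          have h1 : (n : ℚ) * -(p / n) < n * r := mul_lt_mul_of_pos_left hr hnq
          have h2 : (n : ℚ) * -(p / n) = -1 * p := by field_simp
          rw [← h2]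
          exact h1
        have ht1n : (n : ℚ) * (p + r) = p * (n + t1) := by
          rw [ht1]
          field_simp
        have hcond : -((n - 1) * t) < n + t1 := by
          rw [ht1n] at hpr'
          have h1 : (p : ℚ) * -((n - 1) * t) < p * (n + t1) := by linarith
          exact lt_of_mul_lt_mul_left h1 hpq.le
        obtain ⟨M, W, hM, hW, -, hW0, hrel⟩ := rel_tensor htr hδ
          (β := fun P => β P + ((t1 : ℚ) : ℝ) * l P) (V := ⊤) (G := G)
          (fun _ _ _ _ => Submodule.mem_top) hp (by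
            intro σ hσ s' hs' u hu
            rw [hfun] at hs' ⊢
            exact pull_ex htr hω hω0 hk (hG σ hσ) (fun _ _ => Submodule.mem_top) _ _ hs' hu)
          (s1 := s) (by rw [hfun]; exact hs) hs0
        let S : Finset ℕ := (Finset.range M).filter fun i => W i ≠ ⊤
        have h0S : 0 ∈ S := Finset.mem_filter.mpr ⟨Finset.mem_range.mpr hM, hW0⟩
        have hrel' : ∑ i ∈ S, (hh n δ (fun P => β P + (t1 : ℝ) * l P) ⊤ -
            hh n δ (fun P => β P + (t1 : ℝ) * l P) (W i)) ∈ C := by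
          have h1 := hEC hrel
          have h2 : ∑ i ∈ S, (hh n δ (fun P => β P + (t1 : ℝ) * l P) ⊤ -
              hh n δ (fun P => β P + (t1 : ℝ) * l P) (W i)) =
              ∑ i ∈ Finset.range M, (hh n δ (fun P => β P + (t1 : ℝ) * l P) ⊤ -
              hh n δ (fun P => β P + (t1 : ℝ) * l P) (W i)) := by
            refine Finset.sum_subset (Finset.filter_subset _ _) fun i hi hiS => ?_
            have h3 : W i = ⊤ := by
              by_contra h4
              exact hiS (Finset.mem_filter.mpr ⟨hi, h4⟩)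
            rw [h3, sub_self]
          rw [h2]
          exact h1
        have h1 := hC.sum S (f := fun i => hh n δ (fun P => β P + (t : ℝ) * l P) (W i))
          fun i _ => hno (W i) (hW i)
        have h2 := hC.add _ hrel' _ h1
        let c : ℕ → ℚ := fun i => (1 + t1) - (Module.finrank K (W i) : ℚ) / n * (t1 - t)
        have hc : ∀ i ∈ S, 0 < c i := by
          intro i hi
          have h3 : W i ≠ ⊤ := (Finset.mem_filter.mp hi).2
          have h4 : Module.finrank K (W i) < n := by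
            have h5 := Submodule.finrank_lt h3
            rwa [hF.finrank] at h5
          have h5 : (Module.finrank K (W i) : ℚ) ≤ n - 1 := by
            have : (Module.finrank K (W i) : ℚ) + 1 ≤ n := by exact_mod_cast h4
            linarith
          have h6 : (0 : ℚ) ≤ Module.finrank K (W i) := Nat.cast_nonneg _
          change 0 < (1 + t1) - (Module.finrank K (W i) : ℚ) / n * (t1 - t)
          rw [sub_pos, div_mul_eq_mul_div, div_lt_iff₀ hnq]
          rcases le_or_gt t t1 with h7 | h7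
          · have h8 := mul_le_mul_of_nonneg_right h5 (sub_nonneg.mpr h7)
            nlinarith
          · have h8 : (Module.finrank K (W i) : ℚ) * (t1 - t) ≤ 0 :=
              mul_nonpos_of_nonneg_of_nonpos h6 (by linarith)
            nlinarith
        refine hneg (∑ i ∈ S, c i) (Finset.sum_pos hc ⟨0, h0S⟩) (y ^ S.card)
          (pow_ne_zero _ hy) _ h2 fun P hPX hP => ?_
        rw [Pi.add_apply, Finset.sum_apply, Finset.sum_apply, ← Finset.sum_add_distrib,
          P.ord_pow]
        have h3 : ∀ i ∈ S, (hh n δ (fun P => β P + (t1 : ℝ) * l P) ⊤ -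
            hh n δ (fun P => β P + (t1 : ℝ) * l P) (W i)) P +
            hh n δ (fun P => β P + (t : ℝ) * l P) (W i) P = -(c i * l P) + P.ord y := by
          intro i _
          rw [Pi.sub_apply, htop t1 P hPX hP]
          simp only [c]
          unfold hh
          push_cast
          ring
        rw [Finset.sum_congr rfl h3, Finset.sum_add_distrib, Finset.sum_const, nsmul_eq_mul,
          Finset.sum_neg_distrib, ← Finset.sum_mul]
        push_cast
        ring)
  refine ⟨F, hF0, fun hβ => hFb ?_, hFG, fun m hm q hq γ hγ hγP s hs => ?_⟩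
  · change (fun P => -(-β P)) ∈ Pos
    simpa only [neg_neg] using hβ
  have hm' : (0 : ℝ) < m := by exact_mod_cast hm
  have hmq : (0 : ℚ) < m := by exact_mod_cast hm
  refine hFv m hm (q * n / m) ?_ γ hγ ?_ s hs
  · rcases hq with hq | ⟨p, hp, r, hr, h1, h2⟩
    · left
      rw [lt_div_iff₀ hmq]
      have h1 : -(m / n : ℚ) * n < q * n := mul_lt_mul_of_pos_right hq hnq
      have h2 : -(m / n : ℚ) * n = -1 * m := by
        field_simp
      rw [← h2]
      exact h1
    · right
      refine ⟨p, hp, r, hr, ?_, h2⟩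
      have h3 : ((n : ℚ) - 1) * (q * n / m) * p = ((n - 1) * q * p) * (n / m) := by
        field_simp
      have h4 : (n : ℚ) * (p + r) = (m * (p + r)) * (n / m) := by
        field_simp
      rw [h3, h4, ← neg_mul]
      exact mul_lt_mul_of_pos_right h1 (div_pos hnq hmq)
  · change (fun P => -(γ P - (m : ℝ) / n * (β P + ((q * n / m : ℚ) : ℝ) * l P))) ∈ Pos
    convert hγP using 1
    funext P
    rw [hlP]
    push_cast
    field_simp
    ring

end

end Pool.Agent.Zk28.TF
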