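import Pool.Agent.Zk28.TF.Wron2
import Pool.Agent.Zk28.TF.OrderA

/-!
The algebraicity criterion: the images of the leaves of a foliation without leafwise tensors.
-/

set_option autoImplicit false
set_option linter.unusedSectionVars false

open FF Pool.Agent.W602.GT

namespace Pool.Agent.Zk28.TF

open Pool.Agent.Zk28.TS

section

variable {K : Type} [Field K] [Algebra ℂ K]

/-- The field of the first integrals of `F`: the rational functions which are constant along the
leaves. -/
def firstIntegrals (F : Submodule K (Derivation ℂ K K)) : Subalgebra ℂ K where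
  carrier := {f | ∀ D ∈ F, D f = 0}
  mul_mem' := by
    intro f g hf hg D hD
    rw [Derivation.leibniz, hf D hD, hg D hD, smul_zero, smul_zero, add_zero]
  one_mem' := fun D _ => D.map_one_eq_zero
  add_mem' := by
    intro f g hf hg D hD
    rw [map_add, hf D hD, hg D hD, add_zero]
  zero_mem' := fun D _ => map_zero D
  algebraMap_mem' := fun c D _ => D.map_algebraMap c

theorem mem_firstIntegrals {F : Submodule K (Derivation ℂ K K)} {f : K} :
    f ∈ firstIntegrals F ↔ ∀ D ∈ F, D f = 0 := Iff.rfl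

/-- The monomials in algebraically independent functions. -/
theorem monomials_indep {F : Submodule K (Derivation ℂ K K)} {d t : ℕ} {z : Fin d → K}
    (hz : AlgebraicIndependent (firstIntegrals F) z) (c : (Fin d → Fin (t + 1)) → K)
    (hc : ∀ b, ∀ E ∈ F, E (c b) = 0) (hsum : ∑ b, c b * ∏ a, z a ^ (b a : ℕ) = 0) : c = 0 := by
  classical
  let c' : (Fin d → Fin (t + 1)) → firstIntegrals F := fun b => ⟨c b, hc b⟩
  let μ : (Fin d → Fin (t + 1)) → (Fin d →₀ ℕ) := fun b => Finsupp.equivFunOnFinite.symm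
    fun a => (b a : ℕ)
  have hμ : Function.Injective μ := by
    intro b b' h
    funext a
    apply Fin.ext
    have h1 := congrArg (fun e : Fin d →₀ ℕ => e a) h
    exact h1
  let p : MvPolynomial (Fin d) (firstIntegrals F) := ∑ b, MvPolynomial.monomial (μ b) (c' b)
  have h1 : MvPolynomial.aeval z p = 0 := by
    simp only [p]
    rw [map_sum, ← hsum]
    refine Finset.sum_congr rfl fun b _ => ?_
    rw [MvPolynomial.aeval_monomial]
    congr 1
    rw [Finsupp.prod_fintype _ _ fun i => pow_zero _]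
    rfl
  have h2 : p = 0 := hz (by rw [h1, map_zero])
  funext b
  have h3 := congrArg (fun q => MvPolynomial.coeff (μ b) q) h2
  simp only [p] at h3
  rw [MvPolynomial.coeff_sum, Finset.sum_eq_single b] at h3
  · rw [MvPolynomial.coeff_monomial, if_pos rfl, MvPolynomial.coeff_zero] at h3
    exact congrArg Subtype.val h3
  · intro b' _ hb'
    rw [MvPolynomial.coeff_monomial, if_neg fun h => hb' (hμ h)]
  · intro h
    exact absurd (Finset.mem_univ b) h

/-- **The algebraicity criterion.** -/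
theorem images {n : ℕ} {X : Set (Place ℂ K)} {δ : Place ℂ K → ℝ} (hδ : ∀ P ∈ X, 0 ≤ δ P)
    {V : Submodule K (Derivation ℂ K K)} [Module.Finite K V]
    (hbr : ∀ D ∈ V, ∀ E ∈ V, ⁅D, E⁆ ∈ V) {M : Place ℂ K → ℝ} (C : ℕ)
    (hvan : ∀ e m : ℕ, C * e < m → ∀ s : MultilinearMap K (fun _ : Fin m => V)
      (AlgebraicClosure K), LeafAdapted n X δ (fun P => (e : ℝ) * M P) V s → s = 0)
    {d : ℕ} (x : Fin (d + 1) → K) (hx0 : x 0 ≠ 0)
    (hx : ∀ i, ∀ P ∈ X, Divisorial n P → x i = 0 ∨ -M P ≤ P.ord (x i))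
    (hz : AlgebraicIndependent (firstIntegrals V) fun a : Fin d => x a.succ / x 0) :
    LinearIndependent K fun a : Fin d => dd V (x a.succ / x 0) := by
  classical
  by_contra hli
  set z : Fin d → K := fun a => x a.succ / x 0 with hzdef
  obtain ⟨ι, hι, hιd, D, A, hcard, hcomm, hzA, h1A, hmulA, hDA, hE⟩ := exists_coords V hbr z
  set ρ := Fintype.card ι with hρdef
  have hρ : ρ < d := by
    rw [hcard]
    by_contra hge
    apply hli
    rw [linearIndependent_iff_card_le_finrank_span, Fintype.card_fin]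
    exact not_lt.mp hge
  have hd : 0 < d := by omega
  -- the numbers
  let C1 : ℕ := 2 * (C + 1) * d
  let t : ℕ := 2 * C1 ^ ρ
  let T : ℕ := C1 * t
  let k : ℕ := d * t
  have hC1 : 0 < C1 := by positivity
  have ht : 0 < t := by positivity
  let I : Type := Fin d → Fin (t + 1)
  let g : I → K := fun b => ∏ a, z a ^ (b a : ℕ)
  have hcardI : Fintype.card I = (t + 1) ^ d := by
    simp [I]
  set N : ℕ := Fintype.card I with hN
  have hNpos : 0 < N := by rw [hcardI]; positivity
  have hgA : ∀ b, g b ∈ A := by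
    intro b
    have hpow : ∀ (a : Fin d) (j : ℕ), z a ^ j ∈ A := by
      intro a j
      induction j with
      | zero => rw [pow_zero]; exact h1A
      | succ j ih => rw [pow_succ]; exact hmulA _ ih _ (hzA a)
    have hprod : ∀ S : Finset (Fin d), ∏ a ∈ S, z a ^ (b a : ℕ) ∈ A := by
      intro S
      induction S using Finset.induction_on with
      | empty => rw [Finset.prod_empty]; exact h1A
      | insert a S ha ih => rw [Finset.prod_insert ha]; exact hmulA _ (hpow a _) _ ih
    exact hprod _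
  have hind : ∀ c : I → K, (∀ b, ∀ E ∈ V, E (c b) = 0) → ∑ b, c b * g b = 0 → c = 0 :=
    fun c hc hsum => monomials_indep hz c hc hsum
  -- words of minimal total length
  have hex : ∃ m : ℕ, ∃ (ℓ : I → ℕ) (D : (a : I) → Fin (ℓ a) → Derivation ℂ K K),
      (∀ a i, D a i ∈ V) ∧ ∑ a, ℓ a = m ∧
      (Matrix.of fun a b => ev (ℓ a) (D a) (g b)).det ≠ 0 := by
    obtain ⟨ℓ, D, hD, hdet⟩ := exists_words (V := V) hind
    exact ⟨_, ℓ, D, hD, rfl, hdet⟩
  set m := Nat.find hex with hm
  obtain ⟨ℓ, D0, hD0, hℓ, hdet⟩ := Nat.find_spec hex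
  rw [← hm] at hℓ
  have hmin : MinLen V g m := by
    intro ℓ' D' hD' hlt
    by_contra hne
    exact Nat.find_min hex (hm ▸ hlt) ⟨ℓ', D', hD', rfl, hne⟩
  -- the length
  have hlen : C * (N * k) < m := by
    have h1 := length_bound (V := V) (g := g) (ρ := ρ)
      (fun T => finrank_Us hcomm hDA hE hgA T) hD0 hdet T
    rw [hℓ, ← hN] at h1
    have h2 : 2 * T ^ ρ ≤ N := by
      rw [hcardI]
      calc 2 * T ^ ρ = t * t ^ ρ := by
            simp only [T]
            rw [mul_pow]
            simp only [t]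
            ring
        _ ≤ (t + 1) * (t + 1) ^ ρ :=
            Nat.mul_le_mul (Nat.le_succ t) (Nat.pow_le_pow_left (Nat.le_succ t) ρ)
        _ = (t + 1) ^ (ρ + 1) := by ring
        _ ≤ (t + 1) ^ d := Nat.pow_le_pow_right (Nat.succ_pos t) hρ
    have h3 : T * (2 * T ^ ρ) ≤ T * N := Nat.mul_le_mul_left T h2
    have h4 : T * N = 2 * ((C + 1) * (N * k)) := by
      simp only [T, C1, k]
      ring
    have h5 : 0 < N * k := Nat.mul_pos hNpos (Nat.mul_pos hd ht)
    have h6 : (C + 1) * (N * k) = C * (N * k) + N * k := by ring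
    have h7 : T * (2 * T ^ ρ) = 2 * (T * T ^ ρ) := by ring
    omega
  -- the tensor
  obtain ⟨s0, hs0⟩ := exists_wronskian (V := V) hmin hℓ
  have hcardσ : Fintype.card (Σ a, Fin (ℓ a)) = m := by
    rw [Fintype.card_sigma]
    simpa using hℓ
  let e : (Σ a, Fin (ℓ a)) ≃ Fin m := Fintype.equivFinOfCardEq hcardσ
  let s : MultilinearMap K (fun _ : Fin m => V) (AlgebraicClosure K) :=
    (Algebra.linearMap K (AlgebraicClosure K)).compMultilinearMap
      (x 0 ^ (k * N) • s0.domDomCongr e)
  have hsval : ∀ E : Fin m → V, s E = algebraMap K (AlgebraicClosure K) (x 0 ^ (k * N) *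
      (Matrix.of fun a b => ev (ℓ a) (fun i => (E (e ⟨a, i⟩) : Derivation ℂ K K)) (g b)).det) := by
    intro E
    have h1 := hs0 fun i => E (e i)
    change Algebra.linearMap K (AlgebraicClosure K) (x 0 ^ (k * N) • s0 fun i => E (e i)) = _
    rw [h1]
    rfl
  have hs := hvan (N * k) m hlen s ?_
  · have h1 := congrArg (fun s => s fun j => (⟨D0 (e.symm j).1 (e.symm j).2,
      hD0 _ _⟩ : V)) hs
    rw [hsval] at h1
    change _ = (0 : AlgebraicClosure K) at h1
    have h2 := (map_eq_zero_iff _ (algebraMap K (AlgebraicClosure K)).injective).mp h1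
    rcases mul_eq_zero.mp h2 with h3 | h3
    · exact pow_ne_zero _ hx0 h3
    · apply hdet
      rw [← h3]
      congr 2
      funext a b
      congr 1
      funext i
      have h4 : ∀ p q : Σ a, Fin (ℓ a), p = q → D0 p.1 p.2 = D0 q.1 q.2 := by
        rintro p _ rfl
        rfl
      exact h4 ⟨a, i⟩ _ (e.symm_apply_apply _).symm
  · -- the order
    intro P hPX hP E hEreg
    rw [hsval]
    apply AlgOrd.of_GR
    have hz0 : ∀ a, z a ≠ 0 := fun a => hz.ne_zero a
    have hxs : ∀ i, x i ≠ 0 := by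
      intro i
      refine Fin.cases hx0 (fun a => ?_) i
      intro h0
      apply hz0 a
      simp only [z]
      rw [h0, zero_div]
    have hxM : ∀ i, -M P ≤ P.ord (x i) := fun i => (hx i P hPX hP).resolve_left (hxs i)
    have hg0 : ∀ b, g b ≠ 0 := fun b => Finset.prod_ne_zero_iff.mpr fun a _ => pow_ne_zero _ (hz0 a)
    obtain ⟨b0, -, hb0⟩ := Finset.exists_min_image (Finset.univ : Finset I)
      (fun b => P.ord (g b)) ⟨fun _ => 0, Finset.mem_univ _⟩
    -- the order of the monomials
    have hord : -(k * M P) ≤ k * (P.ord (x 0) : ℝ) + P.ord (g b0) := by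
      have h1 : P.ord (g b0) = ∑ a, (b0 a : ℕ) * (P.ord (x a.succ) - P.ord (x 0)) := by
        have h2 : ∀ S : Finset (Fin d), P.ord (∏ a ∈ S, z a ^ (b0 a : ℕ)) =
            ∑ a ∈ S, ((b0 a : ℕ) : ℤ) * (P.ord (x a.succ) - P.ord (x 0)) := by
          intro S
          induction S using Finset.induction_on with
          | empty => rw [Finset.prod_empty, Finset.sum_empty, P.ord_one]
          | insert a S ha ih =>
            rw [Finset.prod_insert ha, Finset.sum_insert ha, P.ord_mul (pow_ne_zero _ (hz0 a))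
              (Finset.prod_ne_zero_iff.mpr fun a _ => pow_ne_zero _ (hz0 a)), ih, P.ord_pow,
              P.ord_div (hxs _) hx0]
        exact h2 _
      rw [h1]
      push_cast
      have h3 : (k : ℝ) = ∑ a : Fin d, (t : ℝ) := by
        simp [k]
      rw [h3, Finset.sum_mul, Finset.sum_mul, ← Finset.sum_neg_distrib, ← Finset.sum_add_distrib]
      refine Finset.sum_le_sum fun a _ => ?_
      have h4 : ((b0 a : ℕ) : ℝ) ≤ t := by
        have := (b0 a).isLt
        exact_mod_cast Nat.lt_succ_iff.mp this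
      have h5 : (0 : ℝ) ≤ (b0 a : ℕ) := Nat.cast_nonneg _
      have h6 := hxM a.succ
      have h7 := hxM 0
      have h8 := mul_le_mul_of_nonneg_left h6 h5
      have h9 := mul_le_mul_of_nonneg_left h7 (sub_nonneg.mpr h4)
      nlinarith
    have hEV : ∀ a i, (E (e ⟨a, i⟩) : Derivation ℂ K K) ∈ V := fun a i => (E _).2
    have hmul := hmin.mul hℓ (fun a i => (E (e ⟨a, i⟩) : Derivation ℂ K K)) hEV (g b0)⁻¹
    rw [← hN] at hmul
    set Δ := (Matrix.of fun a b => ev (ℓ a) (fun i => (E (e ⟨a, i⟩) : Derivation ℂ K K))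
      (g b)).det with hΔ
    have hreg : P.Reg ((g b0)⁻¹ ^ N * Δ) := by
      rw [← hmul]
      have h1 : ∀ a b, P.Reg (ev (ℓ a) (fun i => (E (e ⟨a, i⟩) : Derivation ℂ K K))
          ((g b0)⁻¹ * g b)) := by
        intro a b
        refine ev_reg _ _ (fun i => hEreg _) _ (Or.inr ?_)
        rw [P.ord_mul (inv_ne_zero (hg0 _)) (hg0 _), P.ord_inv]
        have := hb0 b (Finset.mem_univ _)
        omega
      rw [Matrix.det_apply]
      refine P.O.toSubring.sum_mem fun σ _ => ?_
      refine P.O.toSubring.zsmul_mem ?_ _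
      exact P.O.toSubring.prod_mem fun i _ => h1 _ _
    by_cases hΔ0 : Δ = 0
    · left
      rw [hΔ0, mul_zero]
    right
    have h1 : 0 ≤ P.ord ((g b0)⁻¹ ^ N * Δ) := by
      rcases hreg with h | h
      · exact absurd h (mul_ne_zero (pow_ne_zero _ (inv_ne_zero (hg0 _))) hΔ0)
      · exact h
    rw [P.ord_mul (pow_ne_zero _ (inv_ne_zero (hg0 _))) hΔ0, P.ord_pow, P.ord_inv] at h1
    rw [P.ord_mul (pow_ne_zero _ hx0) hΔ0, P.ord_pow]
    have h2 : (0 : ℝ) ≤ -((N : ℝ) * P.ord (g b0)) + P.ord Δ := by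
      have h3 : ((0 : ℤ) : ℝ) ≤ ((N * -P.ord (g b0) + P.ord Δ : ℤ) : ℝ) := by
        exact_mod_cast h1
      push_cast at h3
      linarith
    have h3 := mul_le_mul_of_nonneg_left hord (Nat.cast_nonneg (α := ℝ) N)
    have h4 : (0 : ℝ) ≤ ({a | ¬ DerLog P (E a : Derivation ℂ K K)}.ncard : ℝ) * δ P :=
      mul_nonneg (Nat.cast_nonneg _) (hδ P hPX)
    push_cast
    nlinarith

end

end Pool.Agent.Zk28.TF
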