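import Pool.Agent.Zk28.TF.Levi3

/-!
The Lie bracket of vector fields: the curvature of a distribution.
-/

set_option autoImplicit false
set_option linter.unusedSectionVars false

open FF Pool.Agent.W602.GT

namespace Pool.Agent.Zk28.TF

open Pool.Agent.Zk28.TS

variable {K : Type} [Field K] [Algebra ℂ K]

theorem smul_lie' (a : K) (x y : Derivation ℂ K K) : ⁅a • x, y⁆ = a • ⁅x, y⁆ - y a • x := by
  ext f
  rw [Derivation.commutator_apply]
  simp only [Derivation.sub_apply, Derivation.smul_apply, Derivation.commutator_apply,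
    Derivation.leibniz, smul_eq_mul]
  ring

theorem lie_smul' (a : K) (x y : Derivation ℂ K K) : ⁅x, a • y⁆ = a • ⁅x, y⁆ + x a • y := by
  ext f
  rw [Derivation.commutator_apply]
  simp only [Derivation.add_apply, Derivation.smul_apply, Derivation.commutator_apply,
    Derivation.leibniz, smul_eq_mul]
  ring

/-- The curvature of a distribution. -/
noncomputable def kap (V : Submodule K (Derivation ℂ K K)) :
    V →ₗ[K] V →ₗ[K] (Derivation ℂ K K ⧸ V) :=
  LinearMap.mk₂ K (fun x y => V.mkQ ⁅(x : Derivation ℂ K K), (y : Derivation ℂ K K)⁆)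
    (fun x x' y => by rw [Submodule.coe_add, add_lie, map_add])
    (fun a x y => by
      rw [Submodule.coe_smul, smul_lie', map_sub, map_smul, map_smul]
      have h : V.mkQ (x : Derivation ℂ K K) = 0 := by
        rw [Submodule.mkQ_apply, Submodule.Quotient.mk_eq_zero]
        exact x.2
      rw [h, smul_zero, sub_zero])
    (fun x y y' => by rw [Submodule.coe_add, lie_add, map_add])
    (fun a x y => by
      rw [Submodule.coe_smul, lie_smul', map_add, map_smul, map_smul]
      have h : V.mkQ (y : Derivation ℂ K K) = 0 := by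
        rw [Submodule.mkQ_apply, Submodule.Quotient.mk_eq_zero]
        exact y.2
      rw [h, smul_zero, add_zero])

theorem kap_apply (V : Submodule K (Derivation ℂ K K)) (x y : V) :
    kap V x y = V.mkQ ⁅(x : Derivation ℂ K K), (y : Derivation ℂ K K)⁆ := rfl

theorem reg_neg' {P : Place ℂ K} {f : K} (h : P.Reg f) : P.Reg (-f) := by
  rcases h with h | h
  · exact Or.inl (by rw [h, neg_zero])
  · exact Or.inr (by rw [P.ord_neg]; exact h)

theorem reg_sub' {P : Place ℂ K} {f g : K} (hf : P.Reg f) (hg : P.Reg g) : P.Reg (f - g) := by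
  rw [sub_eq_add_neg]
  exact P.reg_add hf (reg_neg' hg)

theorem DerReg.lie {P : Place ℂ K} {D E : Derivation ℂ K K} (hD : DerReg P D) (hE : DerReg P E) :
    DerReg P ⁅D, E⁆ := by
  intro f hf
  rw [Derivation.commutator_apply]
  exact reg_sub' (hD _ (hE _ hf)) (hE _ (hD _ hf))

theorem DerLog.lie {P : Place ℂ K} {D E : Derivation ℂ K K} (hD : DerLog P D) (hE : DerLog P E)
    (hD' : DerReg P D) (hE' : DerReg P E) : DerLog P ⁅D, E⁆ := by
  have key : ∀ D E : Derivation ℂ K K, DerLog P D → DerLog P E → DerReg P D → ∀ f,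
      P.Reg (D (E f) / f) := by
    intro D E hD hE hD' f
    by_cases hf : f = 0
    · rw [hf, map_zero, map_zero, div_zero]
      exact Or.inl rfl
    have h1 : E f = (E f / f) * f := (div_mul_cancel₀ _ hf).symm
    have h2 : D (E f) / f = (E f / f) * (D f / f) + D (E f / f) := by
      conv_lhs => rw [h1]
      rw [Derivation.leibniz, smul_eq_mul, smul_eq_mul]
      field_simp
    rw [h2]
    exact P.reg_add (P.reg_mul (hE f) (hD f)) (hD' _ (hE f))
  intro f
  rw [Derivation.commutator_apply, sub_div]
  exact reg_sub' (key D E hD hE hD' f) (key E D hE hD hE' f)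

theorem conj_lie (σ : K ≃ₐ[ℂ] K) (D E : Derivation ℂ K K) :
    conj σ ⁅D, E⁆ = ⁅conj σ D, conj σ E⁆ := by
  ext f
  simp only [conj_apply, Derivation.commutator_apply, map_sub, AlgEquiv.symm_apply_apply]

section quotient

variable {V : Submodule K (Derivation ℂ K K)}

/-- The action on the quotient. -/
noncomputable def qconj (σ : K ≃ₐ[ℂ] K) (q : Derivation ℂ K K ⧸ V) : Derivation ℂ K K ⧸ V :=
  V.mkQ (conj σ (Quotient.out q))

theorem conj_sub (σ : K ≃ₐ[ℂ] K) (D D' : Derivation ℂ K K) :
    conj σ (D - D') = conj σ D - conj σ D' := by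
  ext f
  simp [conj_apply]

theorem qconj_mk (σ : K ≃ₐ[ℂ] K) (h : ∀ D ∈ V, conj σ D ∈ V) (D : Derivation ℂ K K) :
    qconj σ (V.mkQ D) = V.mkQ (conj σ D) := by
  unfold qconj
  rw [← sub_eq_zero, ← map_sub, ← conj_sub, Submodule.mkQ_apply,
    Submodule.Quotient.mk_eq_zero]
  apply h
  rw [← Submodule.Quotient.mk_eq_zero V, Submodule.Quotient.mk_sub, sub_eq_zero]
  exact Quotient.out_eq _

variable [Module.Finite K (Derivation ℂ K K)]

/-- Invariant distributions are mapped onto themselves. -/
theorem mem_of_conj_mem (σ : K ≃ₐ[ℂ] K) (h : ∀ D ∈ V, conj σ D ∈ V) {D : Derivation ℂ K K}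
    (hD : conj σ D ∈ V) : D ∈ V := by
  classical
  let B := Module.finBasis K V
  have hsum : ∀ (c : Fin (Module.finrank K V) → K),
      conj σ (∑ i, c i • (B i : Derivation ℂ K K)) =
        ∑ i, σ (c i) • conj σ (B i : Derivation ℂ K K) := by
    intro c
    have h1 : ∀ (A : Finset (Fin (Module.finrank K V))),
        conj σ (∑ i ∈ A, c i • (B i : Derivation ℂ K K)) =
        ∑ i ∈ A, σ (c i) • conj σ (B i : Derivation ℂ K K) := by
      intro A
      induction A using Finset.induction_on with
      | empty =>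
        rw [Finset.sum_empty, Finset.sum_empty]
        ext f
        simp [conj_apply]
      | insert i A hi ih =>
        rw [Finset.sum_insert hi, Finset.sum_insert hi, conj_add, conj_smul, ih]
    exact h1 _
  have hc : LinearIndependent K fun i => (⟨conj σ (B i), h _ (B i).2⟩ : V) := by
    rw [Fintype.linearIndependent_iff]
    intro g hg i
    have h1 : ∑ i, g i • conj σ (B i : Derivation ℂ K K) = 0 := by
      have h2 := congrArg Subtype.val hg
      rw [Submodule.coe_sum] at h2
      exact h2
    have h2 : conj σ (∑ i, σ.symm (g i) • (B i : Derivation ℂ K K)) = 0 := by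
      rw [hsum]
      simpa using h1
    have h3 := conj_inj h2
    have h4 : ∑ i, σ.symm (g i) • B i = 0 := by
      apply Subtype.ext
      rw [Submodule.coe_sum]
      exact h3
    have h5 := Fintype.linearIndependent_iff.mp B.linearIndependent _ h4 i
    simpa using h5
  have hs := hc.span_eq_top_of_card_eq_finrank' (by rw [Fintype.card_fin])
  have h1 : (⟨conj σ D, hD⟩ : V) ∈ Submodule.span K (Set.range fun i =>
      (⟨conj σ (B i), h _ (B i).2⟩ : V)) := by
    rw [hs]
    exact Submodule.mem_top
  obtain ⟨c, hc'⟩ := (Submodule.mem_span_range_iff_exists_fun K).mp h1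
  have h2 : ∑ i, c i • conj σ (B i : Derivation ℂ K K) = conj σ D := by
    have h3 := congrArg Subtype.val hc'
    rw [Submodule.coe_sum] at h3
    exact h3
  have h3 : conj σ (D - ∑ i, σ.symm (c i) • (B i : Derivation ℂ K K)) = 0 := by
    rw [conj_sub, hsum, sub_eq_zero, ← h2]
    simp
  have h4 := conj_inj h3
  rw [sub_eq_zero.mp h4]
  exact Submodule.sum_mem _ fun i _ => Submodule.smul_mem _ _ (B i).2

end quotient

end Pool.Agent.Zk28.TF
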