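import Pool.Agent.Zk28.TF.LDefs
import Pool.Agent.Zk28.TF.NDefs

/-!
Canonical divisors of distributions.
-/

set_option autoImplicit false
set_option linter.unusedSectionVars false

open FF Pool.Agent.W602.GT

namespace Pool.Agent.Zk28.TF

open Pool.Agent.Zk28.TS

variable {K : Type} [Field K] [Algebra ℂ K]

/-- `κ` is a canonical divisor of the distribution `V` with respect to the pair `(X, Δ)`: the divisor of
a nonzero leafwise form of the maximal degree (the rank of `V`). -/
def CanonicalDivisor (n : ℕ) (X : Set (Place ℂ K)) (δ : Place ℂ K → ℝ)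
    (V : Submodule K (Derivation ℂ K K)) (κ : Place ℂ K → ℝ) : Prop :=
  ∃ θ : V [⋀^Fin (Module.finrank K V)]→ₗ[K] K, θ ≠ 0 ∧ LeafDivOf n X δ V θ κ

/-- The distribution `V` is invariant under `G`. -/
def Invariant (G : Set (K ≃ₐ[ℂ] K)) (V : Submodule K (Derivation ℂ K K)) : Prop :=
  ∀ σ ∈ G, ∀ D ∈ V, ∀ E, Image σ D E → E ∈ V

/-- `V` is a `G`-invariant distribution, and its canonical class is `c L`. -/
def InvariantMultiple (n : ℕ) (X : Set (Place ℂ K)) (δ L : Place ℂ K → ℝ) (G : Set (K ≃ₐ[ℂ] K))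
    (V : Submodule K (Derivation ℂ K K)) (c : ℚ) : Prop :=
  Invariant G V ∧ ∃ κ, CanonicalDivisor n X δ V κ ∧ QEquiv n X κ fun P => c * L P

end Pool.Agent.Zk28.TF
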