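import Pool.Agent.Zk28.TS.MAct

/-!
Orders of products of algebraic functions with radicals.
-/

set_option autoImplicit false
set_option linter.unusedSectionVars false

open FF Pool.Agent.W602.GT Polynomial

namespace Pool.Agent.Zk28.TF

open Pool.Agent.Zk28.TS

section

variable {L : Type} [Field L] [Algebra ℂ L]

theorem coeff_bound (Ω : Place ℂ L) (s : ℝ) {ι : Type*} (A : Finset ι) (x : ι → L)
    (hx : ∀ j ∈ A, GR Ω s (x j)) (i : ℕ) :
    GR Ω (((A.card : ℝ) - i) * s) ((∏ j ∈ A, (X - C (x j))).coeff i) := by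
  classical
  induction A using Finset.induction_on generalizing i with
  | empty =>
    rw [Finset.prod_empty, coeff_one]
    by_cases h : i = 0
    · rw [if_pos h]
      refine Or.inr ?_
      rw [Ω.ord_one, h]
      simp
    · rw [if_neg h]
      exact GR.zero
  | insert a A ha ih =>
    rw [Finset.prod_insert ha, Finset.card_insert_of_notMem ha, sub_mul X (C (x a)), coeff_sub,
      coeff_C_mul]
    have ih' := fun i => ih (fun j hj => hx j (Finset.mem_insert_of_mem hj)) i
    have h1 : GR Ω ((((A.card + 1 : ℕ) : ℝ) - i) * s)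
        (x a * (∏ j ∈ A, (X - C (x j))).coeff i) := by
      refine ((hx a (Finset.mem_insert_self a A)).mul (ih' i)).mono (le_of_eq ?_)
      push_cast
      ring
    have h2 : GR Ω ((((A.card + 1 : ℕ) : ℝ) - i) * s)
        ((X * ∏ j ∈ A, (X - C (x j))).coeff i) := by
      rcases i with _ | i
      · rw [coeff_X_mul_zero]
        exact GR.zero
      · rw [coeff_X_mul]
        refine (ih' i).mono (le_of_eq ?_)
        push_cast
        ring
    have h3 := h2.add h1.neg
    rw [← sub_eq_add_neg] at h3
    exact h3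

end

variable {K : Type} [Field K] [Algebra ℂ K]

theorem algOrd_of_conj {P : Place ℂ K} {r : ℝ} {L : Type} [Field L] [Algebra K L] [Algebra ℂ L]
    [IsScalarTower ℂ K L] [FiniteDimensional K L] [IsGalois K L] {Ω : Place ℂ L} {e : ℕ}
    (he : 0 < e) (hΩ : Over Ω P e) (ι : L →ₐ[K] AlgebraicClosure K) (x : L)
    (h : ∀ σ : L ≃ₐ[K] L, GR Ω (e * r) (σ x)) : AlgOrd P r (ι x) := by
  classical
  let p : L[X] := ∏ σ : L ≃ₐ[K] L, (X - C (σ x))
  have hmon : p.Monic := monic_prod_of_monic _ _ fun σ _ => monic_X_sub_C _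
  have hdeg : p.natDegree = Fintype.card (L ≃ₐ[K] L) := by
    change (∏ σ : L ≃ₐ[K] L, (X - C (σ x))).natDegree = _
    rw [natDegree_prod_of_monic _ _ fun σ _ => monic_X_sub_C _]
    simp
  have hfix : ∀ (τ : L ≃ₐ[K] L), p.map (τ : L →+* L) = p := by
    intro τ
    change (∏ σ : L ≃ₐ[K] L, (X - C (σ x))).map (τ : L →+* L) = ∏ σ : L ≃ₐ[K] L, (X - C (σ x))
    rw [Polynomial.map_prod]
    have h1 : ∀ σ : L ≃ₐ[K] L, (X - C (σ x)).map (τ : L →+* L) = X - C ((τ * σ) x) := by
      intro σ
      rw [Polynomial.map_sub, map_X, map_C]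
      rfl
    rw [Finset.prod_congr rfl fun σ _ => h1 σ]
    exact Equiv.prod_comp (Equiv.mulLeft τ) fun σ => X - C (σ x)
  have hlift : p ∈ lifts (algebraMap K L) := by
    rw [lifts_iff_coeff_lifts]
    intro i
    rw [IsGalois.mem_range_algebraMap_iff_fixed]
    intro τ
    have h1 := congrArg (fun q => q.coeff i) (hfix τ)
    simp only [coeff_map] at h1
    exact h1
  obtain ⟨p0, hp0⟩ := (mem_lifts p).mp hlift
  have hdeg0 : p0.natDegree = p.natDegree := by
    rw [← hp0, natDegree_map]
  have hmon0 : p0.Monic := by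
    rw [← hp0] at hmon
    exact (algebraMap K L).injective.monic_map_iff.mpr hmon
  refine ⟨p0, hmon0, ?_, fun i hi => ?_⟩
  · rw [Polynomial.aeval_algHom_apply]
    have h1 : aeval x p0 = 0 := by
      have h2 : aeval x p0 = (p0.map (algebraMap K L)).eval x := by
        rw [eval_map_algebraMap]
      rw [h2, hp0]
      change (∏ σ : L ≃ₐ[K] L, (X - C (σ x))).eval x = 0
      rw [eval_prod]
      refine Finset.prod_eq_zero (Finset.mem_univ 1) ?_
      simp
    rw [h1, map_zero]
  · have h1 := coeff_bound Ω (e * r) Finset.univ (fun σ : L ≃ₐ[K] L => σ x) (fun σ _ => h σ) i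
    change GR Ω _ (p.coeff i) at h1
    rw [← hp0, coeff_map] at h1
    rcases h1 with h1 | h1
    · left
      exact (map_eq_zero _).mp h1
    · right
      rw [hΩ.2] at h1
      rw [hdeg0, hdeg, ← Finset.card_univ]
      push_cast at h1
      have he' : (0 : ℝ) < e := by exact_mod_cast he
      have h2 : (e : ℝ) * (((Finset.univ : Finset (L ≃ₐ[K] L)).card - (i : ℝ)) * r) ≤
          e * P.ord (p0.coeff i) := by
        refine le_trans (le_of_eq ?_) h1
        ring
      exact le_of_mul_le_mul_left h2 he'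

/-- Multiplication with radicals. -/
theorem AlgOrd.mul_root {P : Place ℂ K} {r : ℝ} {f : AlgebraicClosure K} (h : AlgOrd P r f)
    {b : ℕ} (hb : 0 < b) {ζ : AlgebraicClosure K} {z : K} (hz : z ≠ 0)
    (hζ : ζ ^ b = algebraMap K _ z) : AlgOrd P (r + P.ord z / b) (ζ * f) := by
  classical
  have hcK : CharZero K := charZero_of_injective_algebraMap (algebraMap ℂ K).injective
  let Z : Set (AlgebraicClosure K) := {ζ, f}
  have hZ : Finite Z := Set.Finite.to_subtype (Set.toFinite _)
  let L : FiniteGaloisIntermediateField K (AlgebraicClosure K) :=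
    FiniteGaloisIntermediateField.adjoin K Z
  have hζL : ζ ∈ (L : IntermediateField K (AlgebraicClosure K)) :=
    FiniteGaloisIntermediateField.subset_adjoin K Z (Set.mem_insert _ _)
  have hfL : f ∈ (L : IntermediateField K (AlgebraicClosure K)) :=
    FiniteGaloisIntermediateField.subset_adjoin K Z (Set.mem_insert_of_mem _ rfl)
  obtain ⟨Ω, e, hΩ⟩ := exists_place (P := P) L
  have he : 0 < e := hΩ.1
  let ζ' : L := ⟨ζ, hζL⟩
  let f' : L := ⟨f, hfL⟩
  have h1 := algOrd_of_conj (r := r + P.ord z / b) he hΩ (L : IntermediateField K (AlgebraicClosure K)).val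
    (ζ' * f') fun σ => by
    rw [map_mul, mul_add, add_comm]
    have h2 : (σ ζ') ^ b = algebraMap K L z := by
      rw [← map_pow]
      have h3 : ζ' ^ b = algebraMap K L z := Subtype.ext hζ
      rw [h3, σ.commutes]
    have hζ0 : σ ζ' ≠ 0 := by
      intro h0
      rw [h0, zero_pow hb.ne'] at h2
      exact hz ((map_eq_zero _).mp h2.symm)
    refine GR.mul (Or.inr ?_) ?_
    · have h3 := congrArg Ω.ord h2
      rw [Ω.ord_pow, hΩ.2] at h3
      have h4 : (b : ℝ) * Ω.ord (σ ζ') = e * P.ord z := by exact_mod_cast h3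
      have hb' : (0 : ℝ) < b := by exact_mod_cast hb
      refine le_of_eq ?_
      field_simp
      linarith
    · exact h.place hΩ (x := σ f') (by
        intro pol hpol
        have h5 : Polynomial.aeval f' pol = 0 := by
          apply (algebraMap L (AlgebraicClosure K)).injective
          rw [map_zero, ← hpol]
          exact (Polynomial.aeval_algebraMap_apply (AlgebraicClosure K) _ pol).symm
        have h6 := Polynomial.aeval_algHom_apply σ.toAlgHom f' pol
        rw [h5, map_zero] at h6
        exact h6)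
  exact h1

end Pool.Agent.Zk28.TF
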