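import Pool.Agent.Zk28.TF.Levi6
import Pool.Agent.Zk28.TF.Root
import Pool.Agent.Zk28.TS.Crit

/-!
The canonical class, and its behaviour under automorphisms.
-/

set_option autoImplicit false
set_option linter.unusedSectionVars false

open FF Pool.Agent.W602.GT

namespace Pool.Agent.Zk28.TF

open Pool.Agent.Zk28.TS

variable {K : Type} [Field K] [Algebra ℂ K] {n : ℕ}

section

variable [Algebra.EssFiniteType ℂ K]

/-- There is a vector field in a frame which is not logarithmic. -/
theorem exists_nonlog (htr : Algebra.trdeg ℂ K = n) {P : Place ℂ K}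
    (hP : Divisorial n P) {b : Fin n → Derivation ℂ K K} (hb : LinearIndependent K b)
    {A : Fin n → Fin n → K} (hA : Tri P b A) : ∃ i, ¬ DerLog P (fr A b i) := by
  classical
  by_contra hno
  push Not at hno
  obtain ⟨y, E, i0, hF, hyr, hi0, hreg, hlog⟩ := frame_at htr hP
  have hfin := hF.finite
  -- the frame spans
  have hbP : LinearIndependent K fun i => fr A b i := by
    have hci : LinearIndependent K A := indep_iff_det.mpr hA.det
    rw [Fintype.linearIndependent_iff] at hci ⊢
    intro g hg0 i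
    refine hci g ?_ i
    have h1 : ∑ j, (∑ i, g i * A i j) • b j = 0 := by
      rw [← hg0]
      unfold fr
      simp only [Finset.sum_smul, Finset.smul_sum, mul_smul]
      exact Finset.sum_comm
    have h2 := Fintype.linearIndependent_iff.mp hb _ h1
    funext j
    rw [Finset.sum_apply]
    exact h2 j
  have hspan := hbP.span_eq_top_of_card_eq_finrank' (by rw [Fintype.card_fin, hF.finrank])
  obtain ⟨x, hx⟩ := (Submodule.mem_span_range_iff_exists_fun K).mp
    (show E i0 ∈ Submodule.span K (Set.range fun i => fr A b i) by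
      rw [hspan]; exact Submodule.mem_top)
  have hco := (hA.co x (by rw [hx]; exact hreg i0)).1
  have hlogE : DerLog P (E i0) := by
    rw [← hx]
    intro f
    have h1 : (∑ i, x i • fr A b i) f / f = ∑ i, x i * (fr A b i f / f) := by
      rw [der_sum, Finset.sum_div]
      exact Finset.sum_congr rfl fun i _ => by ring
    rw [h1]
    have h2 : GR P 0 (∑ i, x i * (fr A b i f / f)) := by
      refine GR.sum _ fun i _ => ?_
      have h3 := (hco i).mul (GR_of_reg (hno i f))
      rwa [add_zero] at h3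
    rcases h2 with h2 | h2
    · exact Or.inl h2
    · exact Or.inr (by exact_mod_cast h2)
  have h1 := hlogE (y i0)
  rw [hF.1 i0 i0, if_pos rfl] at h1
  have hy0 : y i0 ≠ 0 := by
    intro h0
    rw [h0, P.ord_zero] at hi0
    omega
  rcases h1 with h1 | h1
  · exact (one_div_ne_zero hy0) h1
  · rw [P.ord_div one_ne_zero hy0, P.ord_one, hi0] at h1
    omega

/-- The value of a form on a frame. -/
theorem divOf_frame (htr : Algebra.trdeg ℂ K = n) {X : Set (Place ℂ K)}
    {ω : (Fin n → Derivation ℂ K K) → K} (hω : IsPluri 1 ω) {k : Place ℂ K → ℤ}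
    (hk : DivOf n X ω k) {P : Place ℂ K} (hPX : P ∈ X) (hP : Divisorial n P)
    {b : Fin n → Derivation ℂ K K} (hb : LinearIndependent K b) (hωb : ω b ≠ 0)
    {A : Fin n → Fin n → K} (hA : Tri P b A) :
    k P = ∑ i, P.ord (A i i) + P.ord (ω b) := by
  classical
  obtain ⟨y, E, hF⟩ := exists_fr htr
  have hfin := hF.finite
  have hval : ω (fun i => fr A b i) = (Matrix.of A).det * ω b := by
    have h1 := pluri_change hω A b
    rw [pow_one] at h1
    exact h1
  have hval0 : ω (fun i => fr A b i) ≠ 0 := by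
    rw [hval]
    exact mul_ne_zero hA.det hωb
  have hord : P.ord (ω (fun i => fr A b i)) = ∑ i, P.ord (A i i) + P.ord (ω b) := by
    rw [hval, P.ord_mul hA.det hωb, tri_det_all hA.low, ord_prod' _ _ fun i _ => hA.diag i]
  rw [← hord]
  obtain ⟨h1, D, hD, hD0, hDk⟩ := hk P hPX hP
  refine le_antisymm ((h1 _ fun i => hA.reg i).resolve_left hval0) ?_
  have hbP : LinearIndependent K fun i => fr A b i := by
    have hci : LinearIndependent K A := indep_iff_det.mpr hA.det
    rw [Fintype.linearIndependent_iff] at hci ⊢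
    intro g hg0 i
    refine hci g ?_ i
    have h1 : ∑ j, (∑ i, g i * A i j) • b j = 0 := by
      rw [← hg0]
      unfold fr
      simp only [Finset.sum_smul, Finset.smul_sum, mul_smul]
      exact Finset.sum_comm
    have h2 := Fintype.linearIndependent_iff.mp hb _ h1
    funext j
    rw [Finset.sum_apply]
    exact h2 j
  have hspan := hbP.span_eq_top_of_card_eq_finrank' (by rw [Fintype.card_fin, hF.finrank])
  have hex : ∀ i, ∃ z : Fin n → K, ∑ l, z l • fr A b l = D i := fun i =>
    (Submodule.mem_span_range_iff_exists_fun K).mp (by rw [hspan]; exact Submodule.mem_top)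
  choose z hz using hex
  have h4 : ω D = (Matrix.of z).det * ω fun i => fr A b i := by
    have h5 := pluri_change hω z fun i => fr A b i
    rw [pow_one] at h5
    rw [← h5]
    congr 1
    funext i
    exact (hz i).symm
  have h5 : GR P 0 (Matrix.of z).det :=
    GR.det fun i l => (hA.co (z i) (by rw [hz]; exact hD i)).1 l
  have hz0 : (Matrix.of z).det ≠ 0 := by
    intro h0
    rw [h0, zero_mul] at h4
    exact hD0 h4
  rw [← hDk, h4, P.ord_mul hz0 hval0]
  rcases h5 with h5 | h5
  · exact absurd h5 hz0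
  · have h6 : (0 : ℤ) ≤ P.ord (Matrix.of z).det := by exact_mod_cast h5
    omega

/-- The canonical class. -/
theorem vs_top [Module.Finite K (Derivation ℂ K K)]
    (htr : Algebra.trdeg ℂ K = n) {X : Set (Place ℂ K)} {δ : Place ℂ K → ℝ}
    (hδ : ∀ P ∈ X, 0 ≤ δ P ∧ δ P ≤ 1)
    {ω : (Fin n → Derivation ℂ K K) → K} (hω : IsPluri 1 ω) (hω0 : ∃ D, ω D ≠ 0)
    {k : Place ℂ K → ℤ} (hk : DivOf n X ω k) :
    ∃ y : K, y ≠ 0 ∧ ∀ P ∈ X, Divisorial n P → vs δ ⊤ P = -(k P + δ P) + P.ord y := by
  classical
  obtain ⟨x, b, hF⟩ := exists_fr htr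
  have hωb : ω b ≠ 0 := by
    intro h0
    obtain ⟨D, hD⟩ := hω0
    apply hD
    have h1 := hω (Matrix.of fun i j => D i (x j)) b
    have h2 : (fun i => ∑ j, (Matrix.of fun i j => D i (x j)) i j • b j) = D := by
      funext i
      exact hF.2 (D i)
    rw [h2, h0, mul_zero] at h1
    exact h1
  obtain ⟨y', hy', hvol⟩ := vs_tuple htr hδ ⊤ hF.indep hF.span
  refine ⟨ω b / y', div_ne_zero hωb hy', fun P hPX hP => ?_⟩
  obtain ⟨A, hA⟩ := exists_tri' htr hP hF.indep
  obtain ⟨i0, hi0⟩ := exists_nonlog htr hP hF.indep hA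
  have h1 := divOf_frame htr hω hk hPX hP hF.indep hωb hA
  have h2 := hvol P hPX hP
  rw [vol_eq (hδ P hPX) hA] at h2
  unfold gv at h2
  rw [Finset.sum_sub_distrib] at h2
  have h3 : ∑ i, et P (δ P) (fr A b i) = -(δ P) := by
    rw [Finset.sum_eq_single i0]
    · exact et_nlog hi0
    · intro i _ hi
      refine et_log ?_
      by_contra hno
      exact hi (hA.one i i0 hno hi0)
    · intro hno
      exact absurd (Finset.mem_univ _) hno
  rw [h3] at h2
  have h4 : (k P : ℝ) = ∑ i, (P.ord (A i i) : ℝ) + P.ord (ω b) := by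
    rw [h1]
    push_cast
    rfl
  rw [P.ord_div hωb hy', h4]
  push_cast
  linarith

end

section transport

theorem conj_symm (σ : K ≃ₐ[ℂ] K) (D : Derivation ℂ K K) : conj σ (conj σ.symm D) = D := by
  ext f
  simp [conj_apply]

/-- The canonical divisor under an automorphism. -/
theorem exists_factor (htr : Algebra.trdeg ℂ K = n) {X : Set (Place ℂ K)}
    {ω : (Fin n → Derivation ℂ K K) → K} (hω : IsPluri 1 ω) (hω0 : ∃ D, ω D ≠ 0)
    {k : Place ℂ K → ℤ} (hk : DivOf n X ω k) (σ : K ≃ₐ[ℂ] K) :
    ∃ z : K, z ≠ 0 ∧ ∀ P ∈ X, Divisorial n P → ∀ Q ∈ X, Divisorial n Q →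
      (∀ f, Q.ord (σ f) = P.ord f) → k Q = k P + P.ord z := by
  classical
  obtain ⟨x, b, hF⟩ := exists_fr htr
  -- expansions
  have hexp : ∀ D : Fin n → Derivation ℂ K K,
      ω D = (Matrix.of fun i j => D i (x j)).det * ω b := by
    intro D
    have h1 := hω (Matrix.of fun i j => D i (x j)) b
    have h2 : (fun i => ∑ j, (Matrix.of fun i j => D i (x j)) i j • b j) = D := by
      funext i
      exact hF.2 (D i)
    rw [h2, pow_one] at h1
    exact h1
  have hωb : ω b ≠ 0 := by
    intro h0
    obtain ⟨D, hD⟩ := hω0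
    apply hD
    rw [hexp, h0, mul_zero]
  have hpull : ∀ D : Fin n → Derivation ℂ K K, ω (fun i => conj σ (D i)) =
      σ (Matrix.of fun i j => D i (x j)).det * ω fun i => conj σ (b i) := by
    intro D
    have h1 := pluri_change hω (fun i j => σ (D i (x j))) fun i => conj σ (b i)
    rw [pow_one] at h1
    have h2 : (fun i => ∑ j, σ (D i (x j)) • conj σ (b j)) = fun i => conj σ (D i) := by
      funext i
      have h3 : conj σ (∑ j, D i (x j) • b j) = ∑ j, σ (D i (x j)) • conj σ (b j) := by
        have h4 : ∀ A : Finset (Fin n), conj σ (∑ j ∈ A, D i (x j) • b j) =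
            ∑ j ∈ A, σ (D i (x j)) • conj σ (b j) := by
          intro A
          induction A using Finset.induction_on with
          | empty =>
            ext f
            simp [conj_apply]
          | insert j A hj ih =>
            rw [Finset.sum_insert hj, Finset.sum_insert hj, conj_add, conj_smul, ih]
        exact h4 _
      rw [← h3, hF.2 (D i)]
    rw [h2] at h1
    rw [h1]
    congr 1
    have h5 : (Matrix.of fun i j => σ (D i (x j))) =
        (σ : K →+* K).mapMatrix (Matrix.of fun i j => D i (x j)) := rfl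
    rw [h5, ← RingHom.map_det]
    rfl
  have hσb : ω (fun i => conj σ (b i)) ≠ 0 := by
    intro h0
    have h1 := hpull fun i => conj σ.symm (b i)
    simp only [conj_symm] at h1
    rw [h0, mul_zero] at h1
    exact hωb h1
  refine ⟨σ.symm (ω fun i => conj σ (b i)) / ω b, div_ne_zero ((map_ne_zero σ.symm).mpr hσb) hωb,
    fun P hPX hP Q hQX hQ hPQ => ?_⟩
  set z := σ.symm (ω fun i => conj σ (b i)) / ω b with hz
  have hz0 : z ≠ 0 := div_ne_zero ((map_ne_zero σ.symm).mpr hσb) hωb
  -- orders
  have hord : ∀ D : Fin n → Derivation ℂ K K, ω D ≠ 0 →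
      ω (fun i => conj σ (D i)) ≠ 0 ∧
      Q.ord (ω fun i => conj σ (D i)) = P.ord (ω D) + P.ord z := by
    intro D hD
    have h1 : ω (fun i => conj σ (D i)) = σ (z * ω D) := by
      rw [hpull D, hexp D, hz, map_mul, map_div₀, AlgEquiv.apply_symm_apply, map_mul]
      have hσωb : σ (ω b) ≠ 0 := (map_ne_zero σ).mpr hωb
      field_simp
    rw [h1, hPQ]
    refine ⟨(map_ne_zero σ).mpr (mul_ne_zero hz0 hD), ?_⟩
    rw [P.ord_mul hz0 hD, add_comm]
  have hreg : ∀ f, Q.Reg (σ f) ↔ P.Reg f := by
    intro f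
    unfold Place.Reg
    rw [hPQ f]
    constructor
    · rintro (h | h)
      · exact Or.inl ((map_eq_zero σ).mp h)
      · exact Or.inr h
    · rintro (h | h)
      · exact Or.inl (by rw [h, map_zero])
      · exact Or.inr h
  have hreg1 : ∀ D, DerReg P D → DerReg Q (conj σ D) := by
    intro D hD f hf
    rw [conj_apply, hreg]
    apply hD
    rw [← hreg, AlgEquiv.apply_symm_apply]
    exact hf
  have hreg2 : ∀ D, DerReg Q D → DerReg P (conj σ.symm D) := by
    intro D hD f hf
    rw [← hreg, conj_apply, AlgEquiv.apply_symm_apply]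
    apply hD
    have h1 : σ.symm.symm f = σ f := rfl
    rw [h1, hreg]
    exact hf
  obtain ⟨hP1, D1, hD1, hD10, hD1k⟩ := hk P hPX hP
  obtain ⟨hQ1, D2, hD2, hD20, hD2k⟩ := hk Q hQX hQ
  refine le_antisymm ?_ ?_
  · obtain ⟨h1, h2⟩ := hord D1 hD10
    rw [← hD1k, ← h2]
    exact (hQ1 _ fun i => hreg1 _ (hD1 i)).resolve_left h1
  · have h3 : ω (fun i => conj σ.symm (D2 i)) ≠ 0 := by
      intro h0
      apply hD20
      have h4 := hpull fun i => conj σ.symm (D2 i)
      simp only [conj_symm] at h4
      rw [h4]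
      have h5 := hexp fun i => conj σ.symm (D2 i)
      rw [h0] at h5
      have h6 := (mul_eq_zero.mp h5.symm).resolve_right hωb
      rw [h6, map_zero, zero_mul]
    obtain ⟨h1, h2⟩ := hord _ h3
    simp only [conj_symm] at h2
    have h4 := (hP1 _ fun i => hreg2 _ (hD2 i)).resolve_left h3
    rw [← hD2k, h2]
    omega

end transport

end Pool.Agent.Zk28.TF
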