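import Mathlib

/-!
Total preorders which extend a cone, and minima of submodular functions.
-/

set_option autoImplicit false
set_option linter.unusedSectionVars false

namespace Pool.Agent.Zk28.TF

section cone

variable {M : Type*} [AddCommGroup M]

/-- A cone: closed under addition and division by positive integers. -/
structure IsCone (C : Set M) : Prop where
  zero : (0 : M) ∈ C
  add : ∀ x ∈ C, ∀ y ∈ C, x + y ∈ C
  root : ∀ (N : ℕ) (x : M), 0 < N → N • x ∈ C → x ∈ C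

theorem IsCone.nsmul {C : Set M} (h : IsCone C) (N : ℕ) {x : M} (hx : x ∈ C) : N • x ∈ C := by
  induction N with
  | zero => rw [zero_smul]; exact h.zero
  | succ N ih => rw [succ_nsmul]; exact h.add _ ih _ hx

theorem IsCone.sum {C : Set M} (h : IsCone C) {ι : Type*} (s : Finset ι) {f : ι → M}
    (hf : ∀ i ∈ s, f i ∈ C) : ∑ i ∈ s, f i ∈ C := by
  classical
  induction s using Finset.induction_on with
  | empty => exact h.zero
  | insert a s ha ih =>
    rw [Finset.sum_insert ha]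
    exact h.add _ (hf a (Finset.mem_insert_self a s)) _
      (ih fun i hi => hf i (Finset.mem_insert_of_mem hi))

/-- A cone which does not contain `x0` is contained in a total one. -/
theorem exists_total {E : Set M} (hE : IsCone E) {x0 : M} (hx0 : x0 ∉ E) :
    ∃ C : Set M, E ⊆ C ∧ IsCone C ∧ (∀ x, x ∈ C ∨ -x ∈ C) ∧ x0 ∉ C := by
  obtain ⟨C, hEC, hmax⟩ := zorn_subset_nonempty {C : Set M | IsCone C ∧ x0 ∉ C} (by
    intro c hc hchain hne
    refine ⟨⋃₀ c, ⟨⟨?_, ?_, ?_⟩, ?_⟩, fun s hs => Set.subset_sUnion_of_mem hs⟩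
    · obtain ⟨s, hs⟩ := hne
      exact ⟨s, hs, (hc hs).1.zero⟩
    · rintro x ⟨s, hs, hxs⟩ y ⟨t, ht, hyt⟩
      rcases hchain.total hs ht with h | h
      · exact ⟨t, ht, (hc ht).1.add x (h hxs) y hyt⟩
      · exact ⟨s, hs, (hc hs).1.add x hxs y (h hyt)⟩
    · rintro N x hN ⟨s, hs, hxs⟩
      exact ⟨s, hs, (hc hs).1.root N x hN hxs⟩
    · rintro ⟨s, hs, hxs⟩
      exact (hc hs).2 hxs) E ⟨hE, hx0⟩
  obtain ⟨⟨hC, hxC⟩, hmax'⟩ := hmax
  refine ⟨C, hEC, hC, ?_, hxC⟩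
  -- the cone generated by `C` and `f`
  have key : ∀ f : M, f ∉ C → ∃ (N k : ℕ), 0 < N ∧ N • x0 - k • f ∈ C := by
    intro f hf
    by_contra hno
    push Not at hno
    let D : Set M := {g | ∃ (N k : ℕ), 0 < N ∧ N • g - k • f ∈ C}
    have hD : IsCone D := by
      refine ⟨⟨1, 0, Nat.one_pos, by simpa using hC.zero⟩, ?_, ?_⟩
      · rintro x ⟨N, k, hN, hx⟩ y ⟨N', k', hN', hy⟩
        refine ⟨N * N', N' * k + N * k', Nat.mul_pos hN hN', ?_⟩
        have h1 := hC.add _ (hC.nsmul N' hx) _ (hC.nsmul N hy)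
        have h2 : N' • (N • x - k • f) + N • (N' • y - k' • f) =
            (N * N') • (x + y) - (N' * k + N * k') • f := by
          module
        rw [← h2]
        exact h1
      · rintro N x hN ⟨N', k', hN', hx⟩
        refine ⟨N' * N, k', Nat.mul_pos hN' hN, ?_⟩
        rw [mul_smul]
        exact hx
    have hCD : C ⊆ D := fun g hg => ⟨1, 0, Nat.one_pos, by simpa using hg⟩
    have hxD : x0 ∉ D := by
      rintro ⟨N, k, hN, h⟩
      exact hno N k hN h
    have h1 := hmax' ⟨hD, hxD⟩ hCD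
    exact hf (h1 ⟨1, 1, Nat.one_pos, by simpa using hC.zero⟩)
  intro f
  by_contra hno
  push Not at hno
  obtain ⟨N, k, hN, h1⟩ := key f hno.1
  obtain ⟨N', k', hN', h2⟩ := key (-f) hno.2
  have h3 := hC.add _ (hC.nsmul k' h1) _ (hC.nsmul k h2)
  have h4 : k' • (N • x0 - k • f) + k • (N' • x0 - k' • -f) = (k' * N + k * N') • x0 := by
    module
  rw [h4] at h3
  rcases Nat.eq_zero_or_pos (k' * N + k * N') with h5 | h5
  · have h6 : k' = 0 := by
      have h7 : k' * N = 0 := by omega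
      rcases Nat.mul_eq_zero.mp h7 with h | h
      · exact h
      · omega
    rw [h6, zero_smul, sub_zero] at h2
    exact hxC (hC.root N' x0 hN' h2)
  · exact hxC (hC.root _ x0 h5 h3)

end cone

section lattice

variable {M : Type*} [AddCommGroup M] {α : Type*} [Lattice α]

/-- Minima of submodular functions on intervals. -/
theorem exists_min {C : Set M} (hC : IsCone C) (htot : ∀ x, x ∈ C ∨ -x ∈ C) (L : α → Prop)
    (hsup : ∀ a b, L a → L b → L (a ⊔ b)) (hinf : ∀ a b, L a → L b → L (a ⊓ b)) (d : α → ℕ)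
    (hd : ∀ a b, a < b → d a < d b) (H : α → M)
    (hsub : ∀ a b, L a → L b → H a + H b - (H (a ⊔ b) + H (a ⊓ b)) ∈ C) :
    ∀ (k : ℕ) (A B : α), L A → L B → A ≤ B → d B ≤ d A + k →
      ∃ V, L V ∧ A ≤ V ∧ V ≤ B ∧ ∀ W, L W → A ≤ W → W ≤ B → H W - H V ∈ C := by
  have hneg : ∀ x y : M, ¬ x - y ∈ C → y - x ∈ C := by
    intro x y h
    rcases htot (x - y) with h1 | h1
    · exact absurd h1 h
    · rwa [neg_sub] at h1
  have htr : ∀ x y z : M, x - y ∈ C → y - z ∈ C → x - z ∈ C := by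
    intro x y z h1 h2
    have h3 := hC.add _ h1 _ h2
    rwa [sub_add_sub_cancel] at h3
  have hself : ∀ x : M, x - x ∈ C := fun x => by rw [sub_self]; exact hC.zero
  intro k
  induction k with
  | zero =>
    intro A B hA hB hAB hdim
    refine ⟨A, hA, le_rfl, hAB, fun W hW hAW hWB => ?_⟩
    have h1 : A = W := by
      by_contra hne
      have h2 := hd A W (lt_of_le_of_ne hAW hne)
      have h3 : d W ≤ d B := by
        rcases hWB.eq_or_lt with h | h
        · rw [h]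
        · exact (hd _ _ h).le
      omega
    rw [← h1]
    exact hself _
  | succ k ih =>
    intro A B hA hB hAB hdim
    by_cases h1 : ∀ W, L W → A ≤ W → W ≤ B → H W - H A ∈ C
    · exact ⟨A, hA, le_rfl, hAB, h1⟩
    by_cases h2 : ∀ W, L W → A ≤ W → W ≤ B → H W - H B ∈ C
    · exact ⟨B, hB, hAB, le_rfl, h2⟩
    push Not at h1 h2
    obtain ⟨W1, hW1, hAW1, hW1B, h1⟩ := h1
    obtain ⟨W2, hW2, hAW2, hW2B, h2⟩ := h2
    obtain ⟨V1, hV1, hAV1, hV1B, h3, h4⟩ : ∃ V, L V ∧ A ≤ V ∧ V ≤ B ∧ ¬ H V - H A ∈ C ∧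
        ¬ H V - H B ∈ C := by
      by_cases h5 : H B - H A ∈ C
      · exact ⟨W1, hW1, hAW1, hW1B, h1, fun h => h1 (htr _ _ _ h h5)⟩
      · exact ⟨W2, hW2, hAW2, hW2B, fun h => h2 (htr _ _ _ h (hneg _ _ h5)), h2⟩
    have hAV1' : A < V1 := lt_of_le_of_ne hAV1 fun h => h3 (by rw [h]; exact hself _)
    have hV1B' : V1 < B := lt_of_le_of_ne hV1B fun h => h4 (by rw [h]; exact hself _)
    have hd1 := hd _ _ hAV1'
    have hd2 := hd _ _ hV1B'
    obtain ⟨N1, hN1, hVN1, hN1B, hmin1⟩ := ih V1 B hV1 hB hV1B (by omega)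
    have hN1B' : N1 < B := lt_of_le_of_ne hN1B fun h => h4 (by
      rw [← h]
      exact hmin1 V1 hV1 le_rfl hV1B)
    have hd3 := hd _ _ hN1B'
    obtain ⟨N2, hN2, hAN2, hN21, hmin2⟩ := ih A N1 hA hN1 (hAV1.trans hVN1) (by omega)
    have hAN2' : A < N2 := lt_of_le_of_ne hAN2 fun h => h3 (by
      rw [h]
      exact hmin2 V1 hV1 hAV1 hVN1)
    have hd4 := hd _ _ hAN2'
    obtain ⟨N3, hN3, hN23, hN3B, hmin3⟩ := ih N2 B hN2 hB (hN21.trans hN1B) (by omega)
    refine ⟨N3, hN3, hAN2.trans hN23, hN3B, fun W hW hAW hWB => ?_⟩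
    have h5 := hmin2 (W ⊓ N2) (hinf _ _ hW hN2) (le_inf hAW hAN2) (inf_le_right.trans hN21)
    have h6 := hsub W N2 hW hN2
    have h7 : H W - H (W ⊔ N2) ∈ C := by
      have h8 := hC.add _ h6 _ h5
      have h9 : H W + H N2 - (H (W ⊔ N2) + H (W ⊓ N2)) + (H (W ⊓ N2) - H N2) =
          H W - H (W ⊔ N2) := by abel
      rwa [h9] at h8
    exact htr _ _ _ h7 (hmin3 _ (hsup _ _ hW hN2) le_sup_right
      (sup_le hWB (hN21.trans hN1B)))

/-- Minima with the smallest dimension. -/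
theorem exists_strict_min [BoundedOrder α] {C : Set M} (hC : IsCone C)
    (htot : ∀ x, x ∈ C ∨ -x ∈ C) (L : α → Prop) (hbot : L ⊥) (htop : L ⊤)
    (hsup : ∀ a b, L a → L b → L (a ⊔ b)) (hinf : ∀ a b, L a → L b → L (a ⊓ b)) (d : α → ℕ)
    (hd : ∀ a b, a < b → d a < d b) (H : α → M)
    (hsub : ∀ a b, L a → L b → H a + H b - (H (a ⊔ b) + H (a ⊓ b)) ∈ C) :
    ∃ V, L V ∧ (∀ W, L W → H W - H V ∈ C) ∧ ∀ W, L W → W < V → ¬ H V - H W ∈ C := by
  classical
  obtain ⟨V0, hV0, -, -, hmin0⟩ := exists_min hC htot L hsup hinf d hd H hsub (d ⊤) ⊥ ⊤ hbot htop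
    bot_le (Nat.le_add_left _ _)
  have hex : ∃ k, ∃ V, L V ∧ (∀ W, L W → H W - H V ∈ C) ∧ d V = k :=
    ⟨d V0, V0, hV0, fun W hW => hmin0 W hW bot_le le_top, rfl⟩
  obtain ⟨V, hV, hmin, hdV⟩ := Nat.find_spec hex
  refine ⟨V, hV, hmin, fun W hW hWV h => ?_⟩
  have h1 : ∀ W', L W' → H W' - H W ∈ C := by
    intro W' hW'
    have h3 := hC.add _ (hmin W' hW') _ h
    rwa [sub_add_sub_cancel] at h3
  have h2 := Nat.find_min' hex ⟨W, hW, h1, rfl⟩
  have h3 := hd _ _ hWV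
  omega

end lattice

end Pool.Agent.Zk28.TF
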