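import Pool.Agent.Zk28.TF.Ord

/-!
The optimal flag of a family of multivalued tensors, and its flag form.
-/

set_option autoImplicit false
set_option linter.unusedSectionVars false

open FF Pool.Agent.W602.GT

namespace Pool.Agent.Zk28.TF

open Pool.Agent.Zk28.TS

section

variable {K : Type} [Field K] {U : Type} [AddCommGroup U] [Module K U]
variable {F : Type} [Field F] [Algebra K F] {n m : ℕ}

theorem exists_val_neG {b : Fin n → U} (hspan : Submodule.span K (Set.range b) = ⊤)
    {s : MultilinearMap K (fun _ : Fin m => U) F} (hs : s ≠ 0) :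
    ∃ J : Fin m → Fin n, s (fun a => b (J a)) ≠ 0 := by
  classical
  by_contra hno
  push Not at hno
  apply hs
  ext D
  have hex : ∀ a, ∃ z : Fin n → K, ∑ i, z i • b i = D a := fun a =>
    (Submodule.mem_span_range_iff_exists_fun K).mp (by rw [hspan]; exact Submodule.mem_top)
  choose z hz using hex
  have h1 : D = fun a => ∑ i, z a i • b i := by
    funext a
    exact (hz a).symm
  rw [h1, MultilinearMap.map_sum]
  refine Finset.sum_eq_zero fun J _ => ?_
  rw [MultilinearMap.map_smul_univ s (fun a => z a (J a)) (fun a => b (J a)), hno J, smul_zero]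

/-- The value of a tensor on linear combinations. -/
theorem mtensor_expandG
    (s : MultilinearMap K (fun _ : Fin m => U) F) (c : Fin n → Fin n → K)
    (b : Fin n → U) (I : Fin m → Fin n) :
    s (fun a => ∑ j, c (I a) j • b j) =
      tm (fun J => s fun a => b (J a)) fun a j => algebraMap K F (c (I a) j) := by
  rw [MultilinearMap.map_sum, tm_apply]
  refine Finset.sum_congr rfl fun J _ => ?_
  rw [MultilinearMap.map_smul_univ s (fun a => c (I a) (J a)) (fun a => b (J a)),
    Algebra.smul_def, map_prod]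

theorem resK_stdG (T : (Fin m → Fin n) → F) (J : Fin m → Fin n) :
    resK (K := K) (tm T) (fun a => std K n (J a)) = T J := by
  rw [resK_apply]
  have h5 : (fun (a : Fin m) (i : Fin n) => algebraMap K F (std K n (J a) i)) =
      fun a => (Pi.single (J a) 1 : Fin n → F) := by
    funext a i
    unfold std
    by_cases h6 : i = J a
    · subst h6; simp
    · simp [Pi.single_eq_of_ne h6]
  rw [h5]
  exact tm_single T J

/-- Optimality in coordinates. -/
theorem opt_stdG {P : Set (MultilinearMap K (fun _ : Fin m => U) F)}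
    {b : Fin n → U} {w : Fin n → ℝ} (h : Opt P b w) {S : Type}
    (f : S → MultilinearMap K (fun _ : Fin m => U) F) (hf : Set.range f = P) :
    Opt (Set.range fun s => resK (K := K) (tm fun J => f s fun a => b (J a)))
      (std K n) w := by
  refine ⟨std_indep, ?_, fun c' w' hc' hg => ?_⟩
  · rintro I ⟨_, ⟨s, rfl⟩, hI⟩
    rw [resK_stdG] at hI
    exact h.2.1 I ⟨f s, hf ▸ ⟨s, rfl⟩, hI⟩
  · refine h.2.2 (fun i => ∑ j, c' i j • b j) w' ?_ ?_
    · rw [Fintype.linearIndependent_iff] at hc' ⊢
      intro g hg0 i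
      refine hc' g ?_ i
      have h1 : ∑ j, (∑ i, g i * c' i j) • b j = 0 := by
        rw [← hg0]
        simp only [Finset.sum_smul, Finset.smul_sum, mul_smul]
        exact Finset.sum_comm
      have h2 := Fintype.linearIndependent_iff.mp h.1 _ h1
      funext j
      rw [Finset.sum_apply]
      exact h2 j
    · rintro I ⟨s, hs, hI⟩
      rw [← hf] at hs
      obtain ⟨s, rfl⟩ := hs
      refine hg I ⟨_, ⟨s, rfl⟩, ?_⟩
      rw [resK_apply, ← mtensor_expandG]
      exact hI

theorem Opt.permG {W : Type*} [AddCommGroup W] [Module K W]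
    {P : Set (MultilinearMap K (fun _ : Fin m => U) W)}
    {b : Fin n → U} {w : Fin n → ℝ} (h : Opt P b w) (σ : Equiv.Perm (Fin n)) :
    Opt P (b ∘ σ) (w ∘ σ) := by
  have hsq : TS.sq (w ∘ σ) = TS.sq w := Equiv.sum_comp σ fun i => w i ^ 2
  refine ⟨h.1.comp _ σ.injective, ?_, fun b' w' hb' hg' => by rw [hsq]; exact h.2.2 b' w' hb' hg'⟩
  rintro I ⟨s, hs, hI⟩
  exact h.2.1 (fun a => σ (I a)) ⟨s, hs, hI⟩

end

section

variable {K : Type} [Field K] [Algebra ℂ K] {U : Type} [AddCommGroup U] [Module K U] {n m : ℕ}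

/-- The flag form of the optimal flag. -/
theorem core (hm : 1 ≤ m)
    {P0 : Set (MultilinearMap K (fun _ : Fin m => U) (AlgebraicClosure K))}
    (hgal : ∀ (σ : AlgebraicClosure K ≃ₐ[K] AlgebraicClosure K), ∀ s ∈ P0,
      σ.toLinearMap.compMultilinearMap s ∈ P0)
    {b : Fin n → U} {w : Fin n → ℝ} (hopt : Opt P0 b w) (hmono : Monotone w)
    (hspan : Submodule.span K (Set.range b) = ⊤)
    (hne : ∃ s ∈ P0, s ≠ 0) :
    ∃ (ρ : ℝ) (ν : Fin n → ℕ) (R : ℕ) (c : K), 0 < ρ ∧ 0 < R ∧ c ≠ 0 ∧
      (∀ i, (ν i : ℝ) = ρ * w i) ∧ ((∑ i, ν i : ℕ) : ℝ) = R * m ∧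
      ∀ (P : Place ℂ K) (A : Fin n → Fin n → K) (η : Fin n → ℝ) (β : ℝ),
        (∀ i j, i < j → A i j = 0) → (Matrix.of A).det ≠ 0 →
        (∀ s ∈ P0, ∀ J : Fin m → Fin n,
          AlgOrd P ((∑ a, η (J a)) - β) (s fun a => ∑ j, A (J a) j • b j)) →
        GR P ((∑ i, ν i * η i) - R * β) (c * ∏ i, A i i ^ ν i) := by
  classical
  have hcK : CharZero K := charZero_of_injective_algebraMap (algebraMap ℂ K).injective
  set F := AlgebraicClosure K with hFdef
  have hm' : (0 : ℝ) < m := by exact_mod_cast hm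
  obtain ⟨s1, hs1, hs1'⟩ := hne
  have hn : 1 ≤ n := by
    obtain ⟨J, -⟩ := exists_val_neG hspan hs1'
    exact (Nat.pos_of_ne_zero fun h0 => by
      subst h0
      exact (J ⟨0, hm⟩).elim0)
  -- coordinates
  let S : Type := {s : MultilinearMap K (fun _ : Fin m => U) F // s ∈ P0}
  let v : S → (Fin m → Fin n) → F := fun s J => s.1 fun a => b (J a)
  have hstd : Opt (Set.range fun s => resK (K := K) (tm (v s))) (std K n) w :=
    opt_stdG hopt (fun s : S => s.1) Subtype.range_coe
  have hgal' : ∀ (σ : F ≃ₐ[K] F) (s : S), ∃ s', ∀ J, v s' J = σ (v s J) := fun σ s =>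
    ⟨⟨_, hgal σ s.1 s.2⟩, fun J => rfl⟩
  have hne : (supp (Set.range fun s => resK (K := K) (tm (v s))) (std K n)).Nonempty := by
    obtain ⟨J, hJ⟩ := exists_val_neG hspan hs1'
    refine ⟨J, _, ⟨⟨s1, hs1⟩, rfl⟩, ?_⟩
    rw [resK_stdG]
    exact hJ
  have hsupp : ∀ (s : S) I, v s I ≠ 0 → 1 ≤ ∑ x, w (I x) := fun s I hI =>
    hopt.2.1 I ⟨s.1, s.2, hI⟩
  obtain ⟨Q, N, a, e, q, l, hQ, hN, hq, haN, ha, hinv⟩ := exists_inv (K := K) hn hm v hgal' hstd hne
  have hsq : 0 < TS.sq w := hstd.pos hne
  have ha' : ∀ i j, w i = w j → a i = a j := by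
    intro i j hij
    have h1 : (a i : ℝ) = a j := by rw [ha, ha, hij]
    exact_mod_cast h1
  -- a finite Galois extension
  let S0 : Type := Fin q × Fin Q
  let v0 : S0 → (Fin m → Fin n) → F := fun p => v ((l p.1).1 p.2)
  let Z : Set F := Set.range fun p : S0 × (Fin m → Fin n) => v0 p.1 p.2
  have hZ : Finite Z := Set.finite_range _
  let L : FiniteGaloisIntermediateField K F := FiniteGaloisIntermediateField.adjoin K Z
  have hZL : ∀ p J, v0 p J ∈ (L : IntermediateField K F) := fun p J =>
    FiniteGaloisIntermediateField.subset_adjoin K Z ⟨(p, J), rfl⟩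
  let vL : S0 → (Fin m → Fin n) → L := fun p J => ⟨v0 p J, hZL p J⟩
  let l0 : Fin q → (Fin Q → S0) × (Fin (n * N) → Fin n) := fun i => (fun k => (i, k), (l i).2)
  have hcL : CharZero L := charZero_of_injective_algebraMap (algebraMap K L).injective
  set cL : L := Qv (aux a w e vL) (q * N) q l0 with hcLdef
  have hcL0 : cL ≠ 0 := by
    intro h0
    apply hinv
    have h1 := map_Qv (algebraMap L F) (aux a w e vL) (q * N) q l0
    rw [← hcLdef, h0, map_zero] at h1
    rw [h1]
    refine Qv_congr (fun i J => ?_) fun i => rfl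
    rw [map_aux]
    rfl
  set d := Fintype.card (L ≃ₐ[K] L) with hd
  have hd0 : 0 < d := Fintype.card_pos
  let c : K := Algebra.norm K cL
  have hc0 : c ≠ 0 := Algebra.norm_ne_zero_iff.mpr hcL0
  let ν : Fin n → ℕ := fun i => d * q * (N - a i)
  set ρ : ℝ := d * q * Q / TS.sq w with hρ
  have hρ0 : 0 < ρ := by
    have h1 : (0 : ℝ) < d := by exact_mod_cast hd0
    have h2 : (0 : ℝ) < q := by exact_mod_cast hq
    have h3 : (0 : ℝ) < Q := by exact_mod_cast hQ
    positivity
  have hνw : ∀ i, (ν i : ℝ) = ρ * w i := by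
    intro i
    simp only [ν]
    push_cast [Nat.cast_sub (haN i)]
    rw [ha i, hρ]
    field_simp
    ring
  have hsumw := hopt.sum
  have hsumν : ((∑ i, ν i : ℕ) : ℝ) = d * q * Q * m := by
    push_cast
    rw [Finset.sum_congr rfl fun i _ => hνw i, ← Finset.mul_sum, hsumw, hρ]
    field_simp
  refine ⟨ρ, ν, d * q * Q, c, hρ0, by positivity, hc0, hνw, by rw [hsumν]; push_cast; ring, ?_⟩
  intro P A η β hA hdet hord
  have h1 := norm_orderG (P := P) (L := L) hmono hA hdet (v := vL)
    (fun p I hI => hsupp ((l p.1).1 p.2) I fun h0 => hI (Subtype.ext h0))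
    (η := η) (β := β) (by
      intro Ω eΩ hΩ σ p J
      have h2 : AlgOrd P ((∑ a, η (J a)) - β)
          (((l p.1).1 p.2).1 fun x => ∑ j, A (J x) j • b j) :=
        hord _ ((l p.1).1 p.2).2 J
      have h3 : (((l p.1).1 p.2).1 fun x => ∑ j, A (J x) j • b j) =
          algebraMap L F (ta (Matrix.of fun i j => algebraMap K L (A i j)).transpose
            (vL p) J) := by
        rw [mtensor_expandG, ta_eq_tm, map_tm]
        rfl
      rw [h3] at h2
      exact h2.place hΩ (x := σ (ta (Matrix.of fun i j =>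
        algebraMap K L (A i j)).transpose (vL p) J)) (by
        intro pol hpol
        have h5 : Polynomial.aeval (ta (Matrix.of fun i j =>
            algebraMap K L (A i j)).transpose (vL p) J) pol = 0 := by
          apply (algebraMap L F).injective
          rw [map_zero, ← hpol]
          exact (Polynomial.aeval_algebraMap_apply F _ pol).symm
        have h6 := Polynomial.aeval_algHom_apply σ.toAlgHom (ta (Matrix.of fun i j =>
            algebraMap K L (A i j)).transpose (vL p) J) pol
        rw [h5, map_zero] at h6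
        exact h6))
    ha' haN e q l0
  exact h1

end

end Pool.Agent.Zk28.TF
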