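import Pool.Agent.Zk28.TF.Main

/-!
The criterion for sections of multiples of `K_X + Δ + B`, with tensors with values in multiples of it.
-/

set_option autoImplicit false
set_option linter.unusedSectionVars false

open FF Pool.Agent.W602.GT

namespace Pool.Agent.Zk28.TF

open Pool.Agent.Zk28.TS

section

variable {K : Type} [Field K] [Algebra ℂ K] {n : ℕ}

/-- The conjugates of tensors with values in a multiple of a canonical divisor. -/
theorem pull_ex' (htr : Algebra.trdeg ℂ K = n) {X : Set (Place ℂ K)}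
    {δ β : Place ℂ K → ℝ} {ω : (Fin n → Derivation ℂ K K) → K} (hω : IsPluri 1 ω)
    (hω0 : ∃ D, ω D ≠ 0) {k : Place ℂ K → ℤ} (hk : DivOf n X ω k) {σ : K ≃ₐ[ℂ] K}
    (hσ : MPreserves X δ β σ) {m : ℕ} (p : ℝ) (q : ℚ) {s : MTensor K (Fin m)}
    (hs : MAdapted n X δ (fun P => p * β P + q * (k P + δ P + β P)) s)
    {u : Fin m → Derivation ℂ K K} (hu : s (fun a => conj σ (u a)) ≠ 0) :
    ∃ s' : MTensor K (Fin m),
      MAdapted n X δ (fun P => p * β P + q * (k P + δ P + β P)) s' ∧ s' u ≠ 0 := by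
  obtain ⟨z, hz, hzk⟩ := exists_factor htr hω hω0 hk σ
  obtain ⟨τ, hτ⟩ := exists_lift σ
  have hz' : z ^ q.num ≠ 0 := zpow_ne_zero _ hz
  obtain ⟨ζ, hζ⟩ := IsAlgClosed.exists_pow_nat_eq
    (algebraMap K (AlgebraicClosure K) (z ^ q.num)) q.den_pos
  have hζ0 : ζ ≠ 0 := by
    intro h0
    rw [h0, zero_pow q.den_pos.ne'] at hζ
    exact hz' ((map_eq_zero _).mp hζ.symm)
  refine ⟨ζ • mpull σ τ hτ s, ?_, ?_⟩
  · intro P hPX hP D hD
    obtain ⟨Q, hQX, hQd, hδ, hβ, hQ, hreg, hlog⟩ := place_transport (n := n) hσ hPX hP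
    have h1 := hs Q hQX hQd (fun a => conj σ (D a)) fun a => hreg _ (hD a)
    have h2 : {a | ¬ DerLog Q (conj σ (D a))} = {a | ¬ DerLog P (D a)} := by
      ext a
      exact not_congr (hlog _)
    have h3 := hzk P hPX hP Q hQX hQd hQ
    have h4 : (k Q : ℝ) = k P + P.ord z := by rw [h3]; push_cast; rfl
    rw [h2, hδ] at h1
    beta_reduce at h1 ⊢
    rw [hβ, h4, hδ] at h1
    have h5 : AlgOrd P _ (mpull σ τ hτ s D) := h1.image σ τ hτ hQ
      (RingEquiv.apply_symm_apply _ _)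
    have h6 := AlgOrd.mul_root h5 q.den_pos hz' hζ
    have h7 : (P.ord (z ^ q.num) : ℝ) / q.den = q * P.ord z := by
      rw [P.ord_zpow]
      have h8 : (q : ℝ) = q.num / q.den := by
        exact_mod_cast (Rat.num_div_den q).symm
      rw [h8]
      push_cast
      ring
    rw [h7] at h6
    change AlgOrd P _ (ζ * mpull σ τ hτ s D)
    convert h6 using 1
    ring
  · change ζ • τ.symm (s fun a => conj σ (u a)) ≠ 0
    rw [smul_eq_mul]
    exact mul_ne_zero hζ0 ((map_ne_zero_iff _ τ.symm.injective).mpr hu)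

/-- If `- L` is effective up to principal divisors then there are sections. -/
theorem section_of_L [Algebra.EssFiniteType ℂ K] (hn : 1 ≤ n) (htr : Algebra.trdeg ℂ K = n)
    {X : Set (Place ℂ K)} {δ β : Place ℂ K → ℝ} (hδ : ∀ P ∈ X, 0 ≤ δ P ∧ δ P ≤ 1)
    {ω : (Fin n → Derivation ℂ K K) → K} (hω : IsPluri 1 ω) (hω0 : ∃ D, ω D ≠ 0)
    {k : Place ℂ K → ℤ} (hk : DivOf n X ω k)
    (h : Eff n X fun P => -(k P + δ P + β P)) :
    ∃ N : ℕ, 0 < N ∧ ∃ ω : (Fin n → Derivation ℂ K K) → K,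
      IsSection n X (fun P => δ P + β P) N ω ∧ ∃ D, ω D ≠ 0 := by
  obtain ⟨x, b, hF⟩ := exists_fr htr
  have hfin := hF.finite
  have hn' : (0 : ℝ) < n := by exact_mod_cast hn
  obtain ⟨y, hy, hvt⟩ := vs_top htr hδ hω hω0 hk
  refine section_of_eff hn htr hδ ?_
  obtain ⟨N, hN, z, hz, h⟩ := h
  refine ⟨N, hN, z * y ^ N, mul_ne_zero hz (pow_ne_zero _ hy), fun P hPX hP => ?_⟩
  have h2 : hh n δ β ⊤ P = -(k P + δ P + β P) + P.ord y := by
    unfold hh
    rw [finrank_top, hF.finrank, div_self hn'.ne', hvt P hPX hP]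
    ring
  rw [h2, P.ord_mul hz (pow_ne_zero _ hy), P.ord_pow]
  push_cast
  linarith [h P hPX hP]

/-- The criterion. -/
theorem crit2 [Algebra.EssFiniteType ℂ K] (hn : 1 ≤ n) (htr : Algebra.trdeg ℂ K = n)
    {X : Set (Place ℂ K)} {δ β : Place ℂ K → ℝ} (hδ : ∀ P ∈ X, 0 ≤ δ P ∧ δ P ≤ 1)
    {ω : (Fin n → Derivation ℂ K K) → K} (hω : IsPluri 1 ω) (hω0 : ∃ D, ω D ≠ 0)
    {k : Place ℂ K → ℤ} (hk : DivOf n X ω k)
    {G : Set (K ≃ₐ[ℂ] K)} (hG : ∀ σ ∈ G, MPreserves X δ β σ) {m : ℕ} (hm : 0 < m)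
    {q : ℚ} (hq : -(m / n : ℚ) < q)
    (h : ∀ b : Fin n → Derivation ℂ K K, LinearIndependent K b → ∀ w : Fin n → ℤ,
      ∑ i, w i = 0 → InvariantFlag G b (fun i => (w i : ℝ)) → ∃ s : MTensor K (Fin m),
        MAdapted n X δ (fun P => (m : ℝ) / n * β P + q * (k P + δ P + β P)) s ∧
        ∃ I : Fin m → Fin n, s (fun a => b (I a)) ≠ 0 ∧ ∑ a, w (I a) ≤ 0) :
    ∃ N : ℕ, 0 < N ∧ ∃ ω : (Fin n → Derivation ℂ K K) → K,
      IsSection n X (fun P => δ P + β P) N ω ∧ ∃ D, ω D ≠ 0 := by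
  classical
  obtain ⟨y, E, hF⟩ := exists_fr htr
  have hfin := hF.finite
  have hn' : (0 : ℝ) < n := by exact_mod_cast hn
  have hm' : (0 : ℝ) < m := by exact_mod_cast hm
  set γ : Place ℂ K → ℝ := fun P => (m : ℝ) / n * β P + q * (k P + δ P + β P) with hγ
  obtain ⟨s1, hs1, I1, hI1, -⟩ := h E hF.indep (fun _ => 0) (by simp) (by
    intro σ _ t D D' hDD' hD
    simp only [Int.cast_zero] at hD ⊢
    by_cases ht : (0 : ℝ) ≤ t
    · have h1 : E '' {i : Fin n | (0 : ℝ) ≤ t} = Set.range E := by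
        have : {i : Fin n | (0 : ℝ) ≤ t} = Set.univ := by
          ext i; simp [ht]
        rw [this, Set.image_univ]
      rw [h1, hF.span]
      exact Submodule.mem_top
    · have h1 : E '' {i : Fin n | (0 : ℝ) ≤ t} = ∅ := by
        have : {i : Fin n | (0 : ℝ) ≤ t} = ∅ := by
          ext i; simp [ht]
        rw [this, Set.image_empty]
      rw [h1, Submodule.span_empty, Submodule.mem_bot] at hD ⊢
      rw [image_eq hDD', hD]
      ext f
      rw [conj_apply]
      simp)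
  have hs1' : s1 ≠ 0 := by
    rintro rfl
    exact hI1 rfl
  -- the optimal flag
  let P0 : Set (MTensor K (Fin m)) := {s | MAdapted n X δ γ s}
  obtain ⟨b', w', hopt'⟩ := exists_opt hm P0 hF.indep
  let π : Equiv.Perm (Fin n) := Tuple.sort w'
  set w : Fin n → ℝ := w' ∘ π with hw
  set b : Fin n → Derivation ℂ K K := b' ∘ π with hb
  have hopt : Opt P0 b w := Opt.permG hopt' π
  have hmono : Monotone w := Tuple.monotone_sort w'
  have hspan : Submodule.span K (Set.range b) = ⊤ :=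
    hopt.1.span_eq_top_of_card_eq_finrank' (by rw [Fintype.card_fin, hF.finrank])
  have hgal : ∀ (σ : AlgebraicClosure K ≃ₐ[K] AlgebraicClosure K), ∀ s ∈ P0,
      σ.toLinearMap.compMultilinearMap s ∈ P0 := by
    intro σ s hs
    exact gal_adapted (κ := Fin m) hs σ
  obtain ⟨ρ, ν, R, c, hρ0, hR, hc0, hνw, hsumν, hcore⟩ := core hm
    hgal hopt hmono hspan ⟨s1, hs1, hs1'⟩
  have hR' : (0 : ℝ) < R := by exact_mod_cast hR
  have hsumw := hopt.sum
  have hRsq : (R : ℝ) = ρ * TS.sq w := by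
    have h2 : ((∑ i, ν i : ℕ) : ℝ) = ρ * ∑ i, w i := by
      push_cast
      rw [Finset.mul_sum]
      exact Finset.sum_congr rfl fun i _ => hνw i
    rw [hsumw, hsumν] at h2
    have h4 : (R : ℝ) * m = (ρ * TS.sq w) * m := by
      rw [h2]
      ring
    exact mul_right_cancel₀ hm'.ne' h4
  have hsq : 0 < TS.sq w := by
    by_contra hle
    push Not at hle
    nlinarith
  set A : ℝ := ∑ i, (ν i : ℝ) with hA
  have hAR : A = R * m := by
    rw [hA, ← hsumν]
    push_cast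
    rfl
  -- the invariance of the flag
  have hinv : ∀ σ ∈ G, ∀ (t : ℝ) (D : Derivation ℂ K K), D ∈ fl K b w t →
      conj σ D ∈ fl K b w t := by
    intro σ hσ t D hD
    refine hopt.invariant hF.finrank σ.toRingEquiv (conj σ) (conj_add σ)
      (fun a x => conj_smul σ a x) (fun x hx => conj_inj hx) ?_ t hD
    intro s hs u hu
    exact pull_ex' htr hω hω0 hk (hG σ hσ) _ q hs hu
  obtain ⟨s2, hs2, I, hI, hI'⟩ := h b hopt.1 (fun i => (n : ℤ) * ν i - ∑ i, (ν i : ℤ)) (by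
      rw [Finset.sum_sub_distrib, Finset.sum_const, Finset.card_univ, Fintype.card_fin,
        ← Finset.mul_sum, nsmul_eq_mul, sub_self]) (by
      intro σ hσ t D D' hDD' hD
      have hset : {i | (((n : ℤ) * ν i - ∑ i, (ν i : ℤ) : ℤ) : ℝ) ≤ t} =
          {i | w i ≤ (t + A) / (n * ρ)} := by
        ext i
        change (((n : ℤ) * ν i - ∑ i, (ν i : ℤ) : ℤ) : ℝ) ≤ t ↔ w i ≤ (t + A) / (n * ρ)
        push_cast
        rw [← hA, le_div_iff₀ (mul_pos hn' hρ0), sub_le_iff_le_add, hνw]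
        constructor
        · intro h
          linarith
        · intro h
          linarith
      rw [hset] at hD ⊢
      rw [image_eq hDD']
      exact hinv σ hσ _ D hD)
  -- the weights are constant
  have h1 : 1 ≤ ∑ a, w (I a) := hopt.2.1 I ⟨s2, hs2, hI⟩
  have h2 : (n : ℝ) * (ρ * ∑ a, w (I a)) ≤ m * A := by
    have h31 : ((∑ a, ((n : ℤ) * ν (I a) - ∑ i, (ν i : ℤ)) : ℤ) : ℝ) ≤ 0 := by
      exact_mod_cast hI'
    push_cast at h31
    rw [← hA, Finset.sum_sub_distrib, Finset.sum_const, Finset.card_univ, Fintype.card_fin,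
      nsmul_eq_mul, ← Finset.mul_sum] at h31
    have h32 : ∑ a, (ν (I a) : ℝ) = ρ * ∑ a, w (I a) := by
      rw [Finset.mul_sum]
      exact Finset.sum_congr rfl fun a _ => hνw _
    rw [h32] at h31
    linarith
  have h3 : (n : ℝ) ≤ m ^ 2 * TS.sq w := by
    rw [hAR, hRsq] at h2
    have h4 : (n : ℝ) * ρ ≤ n * (ρ * ∑ a, w (I a)) := by
      have h5 : ρ * 1 ≤ ρ * ∑ a, w (I a) := mul_le_mul_of_nonneg_left h1 hρ0.le
      have h6 := mul_le_mul_of_nonneg_left h5 hn'.le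
      linarith
    have h5 : (n : ℝ) * ρ ≤ (m ^ 2 * TS.sq w) * ρ := by
      refine (h4.trans h2).trans (le_of_eq ?_)
      ring
    exact le_of_mul_le_mul_right h5 hρ0
  have hconst : ∀ i, w i = m * TS.sq w / n := by
    have h5 : ∑ i, (w i - m * TS.sq w / n) ^ 2 =
        TS.sq w * (1 - m ^ 2 * TS.sq w / n) := by
      have h6 : ∀ i, (w i - m * TS.sq w / n) ^ 2 = w i ^ 2 -
          2 * (m * TS.sq w / n) * w i + (m * TS.sq w / n) ^ 2 := fun i => by ring
      rw [Finset.sum_congr rfl fun i _ => h6 i, Finset.sum_add_distrib, Finset.sum_sub_distrib,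
        ← Finset.mul_sum, hsumw, Finset.sum_const, Finset.card_univ, Fintype.card_fin,
        nsmul_eq_mul]
      have h7 : ∑ i, w i ^ 2 = TS.sq w := rfl
      rw [h7]
      field_simp
      ring
    have h6 : ∑ i, (w i - m * TS.sq w / n) ^ 2 = 0 := by
      refine le_antisymm ?_ (Finset.sum_nonneg fun i _ => sq_nonneg _)
      rw [h5]
      have h7 : 1 ≤ m ^ 2 * TS.sq w / n := by
        rw [le_div_iff₀ hn', one_mul]
        exact h3
      exact mul_nonpos_of_nonneg_of_nonpos hsq.le (by linarith)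
    intro i
    have h7 := (Finset.sum_eq_zero_iff_of_nonneg fun i _ => sq_nonneg _).mp h6 i
      (Finset.mem_univ i)
    exact sub_eq_zero.mp (pow_eq_zero_iff (two_ne_zero)|>.mp h7)
  have hνc : ∀ i, (ν i : ℝ) = R * m / n := by
    intro i
    rw [hνw, hconst, hRsq]
    ring
  let i0 : Fin n := ⟨0, hn⟩
  have hνeq : ∀ i, ν i = ν i0 := by
    intro i
    have h4 : (ν i : ℝ) = ν i0 := by rw [hνc, hνc]
    exact_mod_cast h4
  -- the section
  refine section_of_L hn htr hδ hω hω0 hk ?_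
  obtain ⟨y1, hy1, hvt⟩ := vs_top htr hδ hω hω0 hk
  obtain ⟨y2, hy2, hvb⟩ := vs_tuple htr hδ ⊤ hopt.1 hspan
  set r : ℚ := R * (m / n + q) with hr
  have hr0 : 0 < r := mul_pos (by exact_mod_cast hR) (by linarith)
  have hrnum : (0 : ℤ) < r.num := Rat.num_pos.mpr hr0
  have hy3 : y1 * y2 ≠ 0 := mul_ne_zero hy1 hy2
  refine ⟨r.num.toNat, by omega, (c / (y1 * y2) ^ ν i0) ^ r.den,
    pow_ne_zero _ (div_ne_zero hc0 (pow_ne_zero _ hy3)), fun P hPX hP => ?_⟩
  obtain ⟨M, hM⟩ := exists_tri' htr hP hopt.1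
  have h4 := hcore P M (fun i => et P (δ P) (fr M b i)) (γ P) hM.low hM.det (by
    intro s hs J
    have h5 := hs P hPX hP (fun a => fr M b (J a)) fun a => hM.reg _
    rw [neg_add, sum_et, ← sub_eq_add_neg] at h5
    exact h5)
  have hprod : ∏ i, M i i ^ ν i ≠ 0 :=
    Finset.prod_ne_zero_iff.mpr fun i _ => pow_ne_zero _ (hM.diag i)
  have h5 : (ν i0 : ℝ) * vol P (δ P) b - R * γ P ≤ P.ord c := by
    rcases h4 with h4 | h4
    · exact absurd h4 (mul_ne_zero hc0 hprod)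
    rw [P.ord_mul hc0 hprod, ord_prod' _ _ fun i _ => pow_ne_zero _ (hM.diag i)] at h4
    push_cast at h4
    have h6 : ∑ i, (P.ord (M i i ^ ν i) : ℝ) = ν i0 * ∑ i, (P.ord (M i i) : ℝ) := by
      rw [Finset.mul_sum]
      exact Finset.sum_congr rfl fun i _ => by rw [P.ord_pow, hνeq i]; push_cast; ring
    have h7 : ∑ i, (ν i : ℝ) * et P (δ P) (fr M b i) =
        ν i0 * ∑ i, et P (δ P) (fr M b i) := by
      rw [Finset.mul_sum]
      exact Finset.sum_congr rfl fun i _ => by rw [hνeq i]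
    rw [h6, h7] at h4
    rw [vol_eq (hδ P hPX) hM]
    unfold gv
    rw [Finset.sum_sub_distrib]
    linarith
  have hden : (0 : ℝ) < r.den := by exact_mod_cast r.den_pos
  have hnum : ((r.num.toNat : ℕ) : ℝ) = r * r.den := by
    have h6 : ((r.num.toNat : ℕ) : ℤ) = r.num := Int.toNat_of_nonneg hrnum.le
    have h7 : ((r.num.toNat : ℕ) : ℝ) = (r.num : ℝ) := by exact_mod_cast h6
    rw [h7]
    exact_mod_cast (Rat.mul_den_eq_num r).symm
  have hrr : (r : ℝ) = R * (m / n + q) := by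
    rw [hr]
    push_cast
    rfl
  rw [P.ord_pow, P.ord_div hc0 (pow_ne_zero _ hy3), P.ord_pow, P.ord_mul hy1 hy2, hnum]
  push_cast
  have h6 : (r : ℝ) * -(k P + δ P + β P) ≤ P.ord c - ν i0 * (P.ord y1 + P.ord y2) := by
    have h7 := hvb P hPX hP
    rw [hvt P hPX hP] at h7
    rw [h7, hγ] at h5
    beta_reduce at h5
    rw [hrr]
    have h8 := hνc i0
    have h9 : (ν i0 : ℝ) * (-(k P + δ P) + P.ord y1 + P.ord y2) -
        R * ((m : ℝ) / n * β P + q * (k P + δ P + β P)) =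
        R * (m / n + q) * -(k P + δ P + β P) + ν i0 * (P.ord y1 + P.ord y2) := by
      rw [h8]
      ring
    rw [h9] at h5
    linarith
  have h7 := mul_le_mul_of_nonneg_left h6 hden.le
  calc (r : ℝ) * r.den * -(k P + δ P + β P) = r.den * (r * -(k P + δ P + β P)) := by ring
    _ ≤ _ := h7

end

end Pool.Agent.Zk28.TF
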