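import Pool.Agent.Zk28.TF.Prop7

/-!
Statement (module DF): the form which defines a distribution.
-/

set_option autoImplicit false
set_option linter.unusedSectionVars false

open FF Pool.Agent.W602.GT

namespace Pool.Agent.Zk28.TF

open Pool.Agent.Zk28.TS

variable {K : Type} [Field K] [Algebra ℂ K] {n : ℕ}

theorem defining_form_stm [Algebra.EssFiniteType ℂ K] [Module.Finite K (Derivation ℂ K K)]
    (hn : 1 ≤ n) (htr : Algebra.trdeg ℂ K = n) {X : Set (Place ℂ K)} {δ : Place ℂ K → ℝ}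
    (hδ : ∀ P ∈ X, 0 ≤ δ P ∧ δ P ≤ 1)
    {ω : (Fin n → Derivation ℂ K K) → K} (hω : IsPluri 1 ω) (hω0 : ∃ D, ω D ≠ 0)
    {k : Place ℂ K → ℤ} (hk : DivOf n X ω k) {F : Submodule K (Derivation ℂ K K)} (hF : F ≠ ⊤) :
    0 < n - Module.finrank K F ∧ ∃ t : MTensor K (Fin (n - Module.finrank K F)), t ≠ 0 ∧
      MAdapted n X δ (fun P => -(k P + δ P) - vs δ F P) t ∧
      ∀ D : Fin (n - Module.finrank K F) → Derivation ℂ K K, (∃ i, D i ∈ F) → t D = 0 := by
  sorry

end Pool.Agent.Zk28.TF
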