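import Pool.Agent.Zk28.TS.MDefs

/-!
Leafwise tensors, and the divisor of a rational form.
-/

set_option autoImplicit false
set_option linter.unusedSectionVars false

open FF Pool.Agent.W602.GT

namespace Pool.Agent.Zk28.TF

open Pool.Agent.Zk28.TS

variable {K : Type} [Field K] [Algebra ℂ K]

/-- `V` is a distribution on `X`, and `s` is a multivalued leafwise tensor of degree `m`: a
`K`-multilinear function of `m` rational vector fields in `V` with values in the algebraic functions. It
is adapted to the pair `(X, Δ)` and has values in the divisor `B`: for all prime divisors `P` of `X` its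
value on vector fields in `V` which are regular at `P` has order at least `- r δ P - β P` at `P`, where
`δ P` and `β P` are the coefficients of `Δ` and `B` and `r` is the number of those vector fields which are
not tangent to `P` (not logarithmic at `P`). -/
def LeafAdapted (n : ℕ) (X : Set (Place ℂ K)) (δ β : Place ℂ K → ℝ)
    (V : Submodule K (Derivation ℂ K K)) {m : ℕ}
    (s : MultilinearMap K (fun _ : Fin m => V) (AlgebraicClosure K)) : Prop :=
  ∀ P ∈ X, Divisorial n P → ∀ D : Fin m → V, (∀ a, DerReg P (D a : Derivation ℂ K K)) →
    AlgOrd P (-(({a | ¬ DerLog P (D a : Derivation ℂ K K)}.ncard : ℝ) * δ P + β P)) (s D)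

/-- `k` is the divisor on `X` of the rational `n`-form `ω`, a canonical divisor: for all prime divisors
`P` of `X` the values of `ω` on vector fields which are regular at `P` have order at least `k P`, and this
order occurs. -/
def DivOf (n : ℕ) (X : Set (Place ℂ K)) (ω : (Fin n → Derivation ℂ K K) → K)
    (k : Place ℂ K → ℤ) : Prop :=
  ∀ P ∈ X, Divisorial n P →
    (∀ D : Fin n → Derivation ℂ K K, (∀ i, DerReg P (D i)) → ω D = 0 ∨ k P ≤ P.ord (ω D)) ∧
    ∃ D : Fin n → Derivation ℂ K K, (∀ i, DerReg P (D i)) ∧ ω D ≠ 0 ∧ P.ord (ω D) = k P

end Pool.Agent.Zk28.TF
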