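import Pool.Agent.Zk28.TF.Defs

/-!
Degree orders: total preorders on the divisors for which effective divisors are nonnegative.
-/

set_option autoImplicit false
set_option linter.unusedSectionVars false

open FF Pool.Agent.W602.GT

namespace Pool.Agent.Zk28.TF

open Pool.Agent.Zk28.TS

variable {K : Type} [Field K] [Algebra ℂ K]

/-- `Pos` is the set of the divisors `D ≥ 0` for a degree order on `X`: a total preorder on the divisors
on `X` with real coefficients which is compatible with addition and with division by positive integers,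
and for which effective divisors and the divisors of rational functions are `≥ 0`. (The divisors of `z`
and of `1 / z` are both `≥ 0`, so `D` and `D + div z` are equivalent.) A degree order is a total
preorder on the divisor classes of `X`. For instance the degree with respect to a movable class. -/
structure DegreeOrder (n : ℕ) (X : Set (Place ℂ K)) (Pos : Set (Place ℂ K → ℝ)) : Prop where
  add : ∀ D ∈ Pos, ∀ E ∈ Pos, D + E ∈ Pos
  div : ∀ (N : ℕ) (D : Place ℂ K → ℝ), 0 < N → (fun P => N * D P) ∈ Pos → D ∈ Pos
  total : ∀ D : Place ℂ K → ℝ, D ∈ Pos ∨ (fun P => -D P) ∈ Pos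
  effective : ∀ D : Place ℂ K → ℝ, (∀ P ∈ X, Divisorial n P → 0 ≤ D P) → D ∈ Pos
  principal : ∀ z : K, z ≠ 0 → (fun P : Place ℂ K => (P.ord z : ℝ)) ∈ Pos

/-- The class of the divisor `D` is invariant under `G`: for all `σ` in `G` some positive multiple of
`σ* D - D` is the divisor of a rational function `z`. -/
def InvariantClass (n : ℕ) (X : Set (Place ℂ K)) (G : Set (K ≃ₐ[ℂ] K)) (D : Place ℂ K → ℝ) : Prop :=
  ∀ σ ∈ G, ∃ N : ℕ, 0 < N ∧ ∃ z : K, z ≠ 0 ∧ ∀ P ∈ X, Divisorial n P → ∀ Q ∈ X, Divisorial n Q →
    (∀ f, Q.ord (σ f) = P.ord f) → N * (D Q - D P) = P.ord z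

end Pool.Agent.Zk28.TF
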