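import Pool.Agent.Zk28.TF.CDefs

/-!
Effective classes modulo a group of classes.
-/

set_option autoImplicit false
set_option linter.unusedSectionVars false

open FF Pool.Agent.W602.GT

namespace Pool.Agent.Zk28.TF

open Pool.Agent.Zk28.TS

variable {K : Type} [Field K] [Algebra ℂ K]

/-- `D` is effective modulo `A`: the sum of an effective divisor (which may be zero) and an element of
`A`. -/
def EffMod (n : ℕ) (X : Set (Place ℂ K)) (A : Set (Place ℂ K → ℝ)) (D : Place ℂ K → ℝ) : Prop :=
  ∃ E : Place ℂ K → ℝ, (∀ P ∈ X, Divisorial n P → 0 ≤ E P) ∧ (fun P => D P - E P) ∈ A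

end Pool.Agent.Zk28.TF
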