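import Pool.Agent.Zk28.TS.Eff2
import Pool.Agent.Zk28.TF.Can

/-!
Effective nonvanishing for tensors with values in a multiple of the canonical divisor.
-/

set_option autoImplicit false
set_option linter.unusedSectionVars false

open FF Pool.Agent.W602.GT

namespace Pool.Agent.Zk28.TF

open Pool.Agent.Zk28.TS

/-- Effective nonvanishing, with an abstract symmetry. -/
theorem effective_gen (n m : ℕ) (hn : 1 ≤ n) (hm : 0 < m) : ∃ (N : ℕ) (W : ℤ), 0 < N ∧
    ∀ (K : Type) [Field K] [Algebra ℂ K] [Algebra.EssFiniteType ℂ K], Algebra.trdeg ℂ K = n →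
    ∀ (X : Set (Place ℂ K)) (δ β : Place ℂ K → ℝ), (∀ P ∈ X, 0 ≤ δ P) →
    ∀ G : Set (K ≃ₐ[ℂ] K), (∀ σ ∈ G, ∀ s : STensor K (Fin m),
      SAdapted n X δ (fun P => (m : ℝ) / n * β P) s → ∀ u : Fin m → Derivation ℂ K K,
      s (fun a => conj σ (u a)) ≠ 0 →
      ∃ s' : STensor K (Fin m), SAdapted n X δ (fun P => (m : ℝ) / n * β P) s' ∧ s' u ≠ 0) →
    (∀ b : Fin n → Derivation ℂ K K, LinearIndependent K b → ∀ w : Fin n → ℤ,
      (∀ i, |w i| ≤ W) →
      ∑ i, w i = 0 → InvariantFlag G b (fun i => (w i : ℝ)) → ∃ s : STensor K (Fin m),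
        SAdapted n X δ (fun P => (m : ℝ) / n * β P) s ∧
        ∃ I : Fin m → Fin n, s (fun a => b (I a)) ≠ 0 ∧ ∑ a, w (I a) ≤ 0) →
    ∃ ω : (Fin n → Derivation ℂ K K) → K, IsSection n X (fun P => δ P + β P) N ω ∧
      ∃ D, ω D ≠ 0 := by
  classical
  obtain ⟨N0, hN0⟩ := uniform_null n m (Fin m → Fin n)
  obtain ⟨W, hW⟩ := exists_uniform n m
  refine ⟨N0.factorial, W, Nat.factorial_pos _, ?_⟩
  intro K _ _ _ htr X δ β hδ G hG h
  have : CharZero K := charZero_of_injective_algebraMap (algebraMap ℂ K).injective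
  by_contra hno
  push Not at hno
  obtain ⟨y, E, hF⟩ := exists_fr htr
  have := hF.finite
  let P : Set (Tensor K m) := {s | SAdapted n X δ (fun P => (m : ℝ) / n * β P) s}
  obtain ⟨s, hs, hspan⟩ := exists_family (m := m) hF P sadapted_zero
  let v : (Fin m → Fin n) → (Fin m → Fin n) → K := fun i J => s i fun a => E (J a)
  have hvan : ∀ N, 1 ≤ N → ∀ (q : ℕ) (l : Fin q → (Fin m → Fin n) × (Fin m → Fin n)),
      Qv v N q l = 0 := by
    refine hN0 K v fun N hN hNN0 q l => ?_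
    have h1 := section_Qv' hn htr hδ s hs N q l
    obtain ⟨k, hk⟩ : N ∣ N0.factorial := Nat.dvd_factorial hN hNN0
    have h2 := section_pow h1 k
    rw [mul_comm k N, ← hk] at h2
    have h3 := hno _ h2 E
    rcases Nat.eq_zero_or_pos k with h4 | h4
    · exfalso
      rw [h4, mul_zero] at hk
      exact (Nat.factorial_pos N0).ne' hk
    · exact (pow_eq_zero_iff h4.ne').mp h3
  obtain ⟨c, w, hc, hg, hw⟩ := exists_short_rat hm v hvan
  let b : Fin n → Derivation ℂ K K := fun i => ∑ j, c i j • E j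
  have hb : LinearIndependent K b := by
    rw [Fintype.linearIndependent_iff] at hc ⊢
    intro g hg0 i
    refine hc g ?_ i
    funext j
    have h1 : (∑ i, g i • b i) (y j) = 0 := by rw [hg0]; rfl
    rw [der_sum] at h1
    rw [Finset.sum_apply, Pi.zero_apply, ← h1]
    refine Finset.sum_congr rfl fun i _ => ?_
    change g i * c i j = g i * (∑ j, c i j • E j) (y j)
    rw [der_sum]
    simp [hF.1]
  have hgP : Good P b w := by
    rintro I ⟨t, ht, hI⟩
    obtain ⟨d, hd⟩ := hspan t ht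
    rw [hd] at hI
    obtain ⟨i, _, hi⟩ := Finset.exists_ne_zero_of_sum_ne_zero hI
    refine hg I ⟨_, ⟨i, rfl⟩, fun h0 => right_ne_zero_of_mul hi ?_⟩
    have h1 := tensor_frame (s i) c E I
    exact h1.trans h0
  obtain ⟨b', w', hopt⟩ := exists_opt hm P hb
  have hw' : TS.sq w' * m ^ 2 < n :=
    lt_of_le_of_lt (mul_le_mul_of_nonneg_right (hopt.2.2 b w hb hgP) (sq_nonneg _)) hw
  have hn' : (0 : ℝ) < n := by exact_mod_cast hn
  -- integral weights
  obtain ⟨d, z, hd, hz, hb2⟩ := hW _ w' hopt.shortest hopt.rational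
  have hd' : (0 : ℝ) < d := by exact_mod_cast hd
  obtain ⟨t, ht, I, hI, hI'⟩ := h b' hopt.1 (fun i => n * z i - ∑ j, z j) hb2 (by
      rw [Finset.sum_sub_distrib, Finset.sum_const, Finset.card_univ, Fintype.card_fin,
        ← Finset.mul_sum, nsmul_eq_mul, sub_self]) (by
      intro σ hσ t D D' hDD' hD
      have hset : {i | (((n : ℤ) * z i - ∑ j, z j : ℤ) : ℝ) ≤ t} =
          {i | w' i ≤ (t + ∑ j, (z j : ℝ)) / (n * d)} := by
        ext i
        change (((n : ℤ) * z i - ∑ j, z j : ℤ) : ℝ) ≤ t ↔ w' i ≤ (t + ∑ j, (z j : ℝ)) / (n * d)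
        push_cast
        rw [le_div_iff₀ (mul_pos hn' hd'), sub_le_iff_le_add, hz i]
        constructor
        · intro h
          linarith
        · intro h
          linarith
      rw [hset] at hD ⊢
      rw [image_eq hDD']
      refine hopt.invariant hF.finrank σ.toRingEquiv (conj σ) (conj_add σ)
        (fun a x => conj_smul σ a x) (fun x hx => conj_inj hx) ?_ _ hD
      intro s hs u hu
      exact hG σ hσ s hs u hu)
  have h1 := short_destab hn hopt.2.1 hw' I ⟨t, ht, hI⟩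
  have h2 : ((∑ a, ((n : ℤ) * z (I a) - ∑ j, z j) : ℤ) : ℝ) ≤ 0 := by exact_mod_cast hI'
  push_cast at h2
  have h3 : ∀ a, (n : ℝ) * z (I a) - ∑ j, (z j : ℝ) =
      (n * d) * (w' (I a) - (∑ i, w' i) / n) := by
    intro a
    rw [hz, Finset.sum_congr rfl fun j _ => hz j, ← Finset.mul_sum]
    field_simp
  rw [Finset.sum_congr rfl fun a _ => h3 a, ← Finset.mul_sum] at h2
  exact absurd (mul_pos (mul_pos hn' hd') h1) (not_lt.mpr h2)


/-- Effective nonvanishing for tensors with values in `q (K_X + Δ)`. -/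
theorem effective_q (n m : ℕ) (q : ℤ) (hn : 1 ≤ n) (hm : 0 < m) (hq : -(m : ℤ) < n * q) :
    ∃ (N : ℕ) (W : ℤ), 0 < N ∧
    ∀ (K : Type) [Field K] [Algebra ℂ K] [Algebra.EssFiniteType ℂ K], Algebra.trdeg ℂ K = n →
    ∀ (X : Set (Place ℂ K)) (δ : Place ℂ K → ℝ), (∀ P ∈ X, 0 ≤ δ P) →
    ∀ (ω : (Fin n → Derivation ℂ K K) → K), IsPluri 1 ω → (∃ D, ω D ≠ 0) →
    ∀ (k : Place ℂ K → ℤ), DivOf n X ω k →
    ∀ G : Set (K ≃ₐ[ℂ] K), (∀ σ ∈ G, MPreserves X δ (fun _ => 0) σ) →
    (∀ b : Fin n → Derivation ℂ K K, LinearIndependent K b → ∀ w : Fin n → ℤ,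
      (∀ i, |w i| ≤ W) →
      ∑ i, w i = 0 → InvariantFlag G b (fun i => (w i : ℝ)) → ∃ s : STensor K (Fin m),
        SAdapted n X δ (fun P => q * (k P + δ P)) s ∧
        ∃ I : Fin m → Fin n, s (fun a => b (I a)) ≠ 0 ∧ ∑ a, w (I a) ≤ 0) →
    ∃ η : (Fin n → Derivation ℂ K K) → K, IsSection n X δ N η ∧ ∃ D, η D ≠ 0 := by
  classical
  obtain ⟨N0, W, hN0, h⟩ := effective_gen n m hn hm
  have hmq : 0 < (m : ℤ) + n * q := by linarith
  obtain ⟨c, hc⟩ : ∃ c : ℕ, (c : ℤ) = m + n * q := ⟨((m : ℤ) + n * q).toNat,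
    Int.toNat_of_nonneg hmq.le⟩
  have hc0 : 0 < c := by
    have : (0 : ℤ) < c := by rw [hc]; exact hmq
    exact_mod_cast this
  refine ⟨N0 * c, W, Nat.mul_pos hN0 hc0, ?_⟩
  intro K _ _ _ htr X δ hδ ω hω hω0 k hk G hG hb
  have hm' : (0 : ℝ) < m := by exact_mod_cast hm
  have hn' : (0 : ℝ) < n := by exact_mod_cast hn
  have hfun : (fun P => (m : ℝ) / n * ((n : ℝ) * q / m * (k P + δ P))) =
      fun P => (q : ℝ) * (k P + δ P) := by
    funext P
    field_simp
  obtain ⟨η, hη, hη0⟩ := h K htr X δ (fun P => (n : ℝ) * q / m * (k P + δ P)) hδ G (by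
      intro σ hσ s hs u hu
      rw [hfun] at hs ⊢
      obtain ⟨z, hz, hzk⟩ := exists_factor htr hω hω0 hk σ
      refine ⟨z ^ q • pull σ s, ?_, ?_⟩
      · intro P hPX hP D hD
        obtain ⟨Q, hQX, hQd, hδ', -, hQ, hreg, hlog⟩ := place_transport (n := n) (hG σ hσ) hPX hP
        have h1 := hs Q hQX hQd (fun a => conj σ (D a)) fun a => hreg _ (hD a)
        have h3 := hzk P hPX hP Q hQX hQd hQ
        rcases h1 with h1 | h1
        · left
          change z ^ q • (pull σ s) D = 0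
          rw [pull_apply, h1, map_zero, smul_zero]
        · by_cases h0 : (pull σ s) D = 0
          · left
            change z ^ q • (pull σ s) D = 0
            rw [h0, smul_zero]
          right
          change _ ≤ ((P.ord (z ^ q • (pull σ s) D) : ℤ) : ℝ)
          rw [smul_eq_mul, P.ord_mul (zpow_ne_zero _ hz) h0, P.ord_zpow]
          have h5 : P.ord ((pull σ s) D) = Q.ord (s fun a => conj σ (D a)) := by
            rw [pull_apply, ← hQ, AlgEquiv.apply_symm_apply]
          rw [h5]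
          have h6 : {a | ¬ DerLog Q (conj σ (D a))} = {a | ¬ DerLog P (D a)} := by
            ext a
            exact not_congr (hlog _)
          rw [h6, hδ'] at h1
          beta_reduce at h1 ⊢
          rw [hδ', h3] at h1
          push_cast at h1 ⊢
          linarith
      · change z ^ q • (pull σ s) u ≠ 0
        rw [smul_eq_mul, pull_apply]
        exact mul_ne_zero (zpow_ne_zero _ hz) ((map_ne_zero _).mpr hu)) (by
      intro b hb' w hw hsum hinv
      obtain ⟨s, hs, hI⟩ := hb b hb' w hw hsum hinv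
      exact ⟨s, by rw [hfun]; exact hs, hI⟩)
  -- the form
  obtain ⟨x, b, hF⟩ := exists_fr htr
  have hexp : ∀ (N : ℕ) (η : (Fin n → Derivation ℂ K K) → K), IsPluri N η →
      ∀ D : Fin n → Derivation ℂ K K, η D = (Matrix.of fun i j => D i (x j)).det ^ N * η b := by
    intro N η hη D
    have h1 := hη (Matrix.of fun i j => D i (x j)) b
    have h2 : (fun i => ∑ j, (Matrix.of fun i j => D i (x j)) i j • b j) = D := by
      funext i
      exact hF.2 (D i)
    rw [h2] at h1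
    exact h1
  have hωb : ω b ≠ 0 := by
    intro h0
    obtain ⟨D, hD⟩ := hω0
    rw [hexp 1 ω hω D, h0, mul_zero] at hD
    exact hD rfl
  have hηb : η b ≠ 0 := by
    intro h0
    obtain ⟨D, hD⟩ := hη0
    rw [hexp N0 η hη.1 D, h0, mul_zero] at hD
    exact hD rfl
  let f : K := η b / ω b ^ N0
  have hf : f ≠ 0 := div_ne_zero hηb (pow_ne_zero _ hωb)
  have hηf : ∀ D, η D = f * ω D ^ N0 := by
    intro D
    rw [hexp N0 η hη.1 D, hexp 1 ω hω D, pow_one, mul_pow]
    simp only [f]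
    field_simp
  have hford : ∀ P ∈ X, Divisorial n P → -(N0 * (1 + (n : ℝ) * q / m) * (k P + δ P)) ≤ P.ord f := by
    intro P hPX hP
    obtain ⟨D, hD, hD0, hDk⟩ := (hk P hPX hP).2
    rcases hη.2 P hPX hP D hD with h1 | h1
    · rw [hηf] at h1
      exact absurd h1 (mul_ne_zero hf (pow_ne_zero _ hD0))
    · rw [hηf, P.ord_mul hf (pow_ne_zero _ hD0), P.ord_pow, hDk] at h1
      push_cast at h1
      linarith
  refine ⟨fun D => f ^ m * ω D ^ (N0 * c), ⟨?_, ?_⟩, ?_⟩
  · intro A D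
    have h1 := hω A D
    change f ^ m * ω _ ^ (N0 * c) = _
    rw [h1, pow_one, mul_pow]
    change _ = A.det ^ (N0 * c) * (f ^ m * ω D ^ (N0 * c))
    ring
  · intro P hPX hP D hD
    by_cases h0 : ω D = 0
    · left
      change f ^ m * ω D ^ (N0 * c) = 0
      rw [h0, zero_pow (Nat.mul_pos hN0 hc0).ne', mul_zero]
    right
    have h1 : k P ≤ P.ord (ω D) := by
      rcases (hk P hPX hP).1 D hD with h | h
      · exact absurd h h0
      · exact h
    change _ ≤ ((P.ord (f ^ m * ω D ^ (N0 * c)) : ℤ) : ℝ)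
    rw [P.ord_mul (pow_ne_zero _ hf) (pow_ne_zero _ h0), P.ord_pow, P.ord_pow]
    have h2 := hford P hPX hP
    have h3 := mul_le_mul_of_nonneg_left h2 hm'.le
    have h4 : (m : ℝ) * -(N0 * (1 + (n : ℝ) * q / m) * (k P + δ P)) =
        -(N0 * c * (k P + δ P)) := by
      have h5 : (c : ℝ) = m + n * q := by exact_mod_cast hc
      rw [h5]
      field_simp
    rw [h4] at h3
    have h5 : (k P : ℝ) ≤ P.ord (ω D) := by exact_mod_cast h1
    have h6 : (0 : ℝ) ≤ N0 * c := by positivity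
    have h7 := mul_le_mul_of_nonneg_left h5 h6
    push_cast
    nlinarith
  · obtain ⟨D, hD⟩ := hω0
    exact ⟨D, mul_ne_zero (pow_ne_zero _ hf) (pow_ne_zero _ hD)⟩

end Pool.Agent.Zk28.TF
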