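import Pool.Agent.Zk28.TF.Full2
import Pool.Agent.Zk28.TF.NDefs

/-!
Statement (module FR).
-/

set_option autoImplicit false
set_option linter.unusedSectionVars false

open FF Pool.Agent.W602.GT

namespace Pool.Agent.Zk28.TF

open Pool.Agent.Zk28.TS

variable {K : Type} [Field K] [Algebra ℂ K] {n p : ℕ}

/-- module FR: the determinant of `n ^ p` independent tensors is a pluricanonical form, so
`∑ γ j + p n^(p-1) (K_X + Δ)` is (Q-linearly equivalent to) an effective divisor. -/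
theorem full_det_stm [Algebra.EssFiniteType ℂ K] (hn : 1 ≤ n)
    (htr : Algebra.trdeg ℂ K = n) {X : Set (Place ℂ K)} {δ : Place ℂ K → ℝ}
    (hδ : ∀ P ∈ X, 0 ≤ δ P ∧ δ P ≤ 1)
    {ω : (Fin n → Derivation ℂ K K) → K} (hω : IsPluri 1 ω)
    (hω0 : ∃ D, ω D ≠ 0) {k : Place ℂ K → ℤ} (hk : DivOf n X ω k)
    (hp : 0 < p) {N : ℕ} (hN : N = n ^ p) {γ : Fin N → Place ℂ K → ℝ}
    {t : Fin N → MTensor K (Fin p)} (ht : ∀ j, MAdapted n X δ (γ j) (t j))
    (hti : LinearIndependent (AlgebraicClosure K) t) :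
    Eff n X fun P => -(∑ j, γ j P + p * (n : ℝ) ^ (p - 1) * (k P + δ P)) := by
  sorry

end Pool.Agent.Zk28.TF
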