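import Pool.Agent.Zk28.TF.Prim

/-!
Fields of functions which are stable under automorphisms.
-/

set_option autoImplicit false
set_option linter.unusedSectionVars false

open FF Pool.Agent.W602.GT

namespace Pool.Agent.Zk28.TF

open Pool.Agent.Zk28.TS

section fields

variable {K : Type} [Field K] [Algebra ℂ K]

/-- Algebraic elements are mapped to algebraic elements. -/
theorem isAlg_map {S : Subalgebra ℂ K} {E : Subalgebra ℂ K} (τ : K ≃ₐ[ℂ] K)
    (h : ∀ e ∈ S, τ e ∈ E) {f : K} (hf : IsAlgebraic S f) : IsAlgebraic E (τ f) := by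
  obtain ⟨p, hp, hpf⟩ := hf
  let φ : S →+* E :=
    { toFun := fun e => ⟨τ e, h e e.2⟩
      map_one' := Subtype.ext (by simp)
      map_mul' := fun a b => Subtype.ext (by simp)
      map_zero' := Subtype.ext (by simp)
      map_add' := fun a b => Subtype.ext (by simp) }
  have hφ : Function.Injective φ := by
    intro a b hab
    apply Subtype.ext
    exact τ.injective (congrArg Subtype.val hab)
  refine ⟨p.map φ, (Polynomial.map_ne_zero_iff hφ).mpr hp, ?_⟩
  rw [Polynomial.aeval_def, Polynomial.eval₂_map]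
  have h1 : (algebraMap E K).comp φ = (τ : K →+* K).comp (algebraMap S K) := by
    ext e
    rfl
  have h2 := Polynomial.hom_eval₂ p (algebraMap S K) (τ : K →+* K) f
  rw [← Polynomial.aeval_def, hpf, map_zero] at h2
  rw [h1]
  exact h2.symm

theorem isAlg_mono {S : Subalgebra ℂ K} {E : Subalgebra ℂ K} (h : S ≤ E) {f : K}
    (hf : IsAlgebraic S f) : IsAlgebraic E f := by
  have h1 := isAlg_map (E := E) AlgEquiv.refl (fun e he => h he) hf
  exact h1

/-- If a relatively algebraically closed field is stable under the inverse, then it is stable. -/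
theorem stable_symm {n : ℕ} (htr : Algebra.trdeg ℂ K = n) (E : IntermediateField ℂ K)
    (hcl : ∀ g : K, IsAlgebraic E g → g ∈ E) (σ : K ≃ₐ[ℂ] K) (h : ∀ g ∈ E, σ.symm g ∈ E) :
    ∀ g ∈ E, σ g ∈ E := by
  intro g hg
  by_contra hno
  obtain ⟨t, ht⟩ := exists_isTranscendenceBasis ℂ E
  have hfin : Algebra.trdeg ℂ E < Cardinal.aleph0 := by
    have h1 : Algebra.trdeg ℂ E ≤ Algebra.trdeg ℂ K :=
      trdeg_le_of_injective E.val E.val.injective
    rw [htr] at h1
    exact h1.trans_lt (Cardinal.natCast_lt_aleph0)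
  have hx : AlgebraicIndependent ℂ (fun i : t => ((i : E) : K)) :=
    ht.1.map' (f := E.val) E.val.injective
  have htrans : Transcendental (Algebra.adjoin ℂ (Set.range fun i : t => ((i : E) : K))) (σ g) := by
    intro halg
    apply hno
    apply hcl
    have h1 : Algebra.adjoin ℂ (Set.range fun i : t => ((i : E) : K)) ≤ E.toSubalgebra := by
      refine Algebra.adjoin_le ?_
      rintro _ ⟨i, rfl⟩
      exact (i : E).2
    exact isAlg_mono h1 halg
  have h1 := (hx.option_iff_transcendental (σ g)).mpr htrans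
  have h2 := h1.map' (f := (σ.symm : K →ₐ[ℂ] K)) σ.symm.injective
  let w : Option t → E := fun o => o.elim ⟨g, hg⟩ fun i => ⟨σ.symm ((i : E) : K), h _ (i : E).2⟩
  have h3 : AlgebraicIndependent ℂ w := by
    refine AlgebraicIndependent.of_comp E.val ?_
    have h5 : (E.val ∘ w) = ((σ.symm : K →ₐ[ℂ] K) ∘ fun o : Option t => o.elim (σ g)
        fun i : t => ((i : E) : K)) := by
      funext o
      cases o with
      | none => exact (σ.symm_apply_apply g).symm
      | some i => rfl
    rw [h5]
    exact h2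
  have h4 := h3.cardinalMk_le_trdeg
  rw [← ht.cardinalMk_eq_trdeg, Cardinal.mk_option] at h4
  rw [← ht.cardinalMk_eq_trdeg] at hfin
  exact absurd h4 (not_le.mpr (by
    obtain ⟨N, hN⟩ := Cardinal.lt_aleph0.mp hfin
    rw [hN]
    exact_mod_cast Nat.lt_succ_self N))

/-- Derivations which vanish on a ring vanish on the algebraic elements. -/
theorem der_alg {S : Subalgebra ℂ K} {D : Derivation ℂ K K} (hD : ∀ s ∈ S, D s = 0) {f : K}
    (hf : IsAlgebraic S f) : D f = 0 := by
  classical
  let D' : Derivation S K K :=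
    { toFun := fun x => D x
      map_add' := fun x y => map_add D x y
      map_smul' := by
        intro s x
        have h1 : s • x = (s : K) * x := rfl
        rw [h1, Derivation.leibniz, hD _ s.2, smul_zero, add_zero]
        rfl
      map_one_eq_zero' := D.map_one_eq_zero
      leibniz' := fun a b => D.leibniz a b }
  have hex : ∃ d, ∃ p : Polynomial S, p ≠ 0 ∧ Polynomial.aeval f p = 0 ∧ p.natDegree = d := by
    obtain ⟨p, hp, hpf⟩ := hf
    exact ⟨_, p, hp, hpf, rfl⟩
  obtain ⟨p, hp, hpf, hpd⟩ := Nat.find_spec hex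
  have hd : p.natDegree ≠ 0 := by
    intro h0
    rw [Polynomial.eq_C_of_natDegree_eq_zero h0, Polynomial.aeval_C] at hpf
    apply hp
    rw [Polynomial.eq_C_of_natDegree_eq_zero h0]
    have h1 : p.coeff 0 = 0 := Subtype.ext hpf
    rw [h1, Polynomial.C_0]
  have hder0 : Polynomial.derivative p ≠ 0 := by
    intro h0
    have h1 := Polynomial.coeff_derivative p (p.natDegree - 1)
    rw [h0, Polynomial.coeff_zero, Nat.sub_add_cancel (Nat.one_le_iff_ne_zero.mpr hd)] at h1
    have h2 : (p.coeff p.natDegree : K) * (((p.natDegree - 1 : ℕ) : K) + 1) = 0 := by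
      have h3 := congrArg (fun s : S => (s : K)) h1
      simpa using h3.symm
    have : CharZero K := charZero_of_injective_algebraMap (algebraMap ℂ K).injective
    have h3 : (((p.natDegree - 1 : ℕ) : K) + 1) ≠ 0 := Nat.cast_add_one_ne_zero _
    have h4 : p.coeff p.natDegree = 0 := Subtype.ext ((mul_eq_zero.mp h2).resolve_right h3)
    exact hp (Polynomial.leadingCoeff_eq_zero.mp h4)
  have h1 : D' (Polynomial.aeval f p) = Polynomial.aeval f (Polynomial.derivative p) • D' f :=
    D'.map_aeval p f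
  rw [hpf, map_zero] at h1
  rcases smul_eq_zero.mp h1.symm with h2 | h2
  · exfalso
    have h3 := Nat.find_min' hex ⟨_, hder0, h2, rfl⟩
    rw [← hpd] at h3
    exact absurd h3 (not_le.mpr (Polynomial.natDegree_derivative_lt hd))
  · exact h2

/-- The field of the first integrals. -/
def integralField (F : Submodule K (Derivation ℂ K K)) : IntermediateField ℂ K :=
  { firstIntegrals F with
    inv_mem' := by
      intro f hf D hD
      have h1 : D f = 0 := hf D hD
      by_cases h0 : f = 0
      · rw [h0, inv_zero, map_zero]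
      · have h2 : D (f * f⁻¹) = 0 := by
          rw [mul_inv_cancel₀ h0]
          exact D.map_one_eq_zero
        rw [Derivation.leibniz, h1, smul_zero, add_zero, smul_eq_mul] at h2
        exact (mul_eq_zero.mp h2).resolve_left h0 }

theorem mem_integralField {F : Submodule K (Derivation ℂ K K)} {f : K} :
    f ∈ integralField F ↔ ∀ D ∈ F, D f = 0 := Iff.rfl

theorem integralField_closed {F : Submodule K (Derivation ℂ K K)} {g : K}
    (hg : IsAlgebraic (integralField F) g) : g ∈ integralField F := by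
  rw [mem_integralField]
  intro D hD
  exact der_alg (S := (integralField F).toSubalgebra) (fun s hs => hs D hD) hg

end fields

section fibration

variable {K : Type} [Field K] [Algebra ℂ K] {n : ℕ}

/-- The sections of `a e`. -/
def Sec (n : ℕ) (X : Set (Place ℂ K)) (e : Place ℂ K → ℝ) (a : ℕ) (g : K) : Prop :=
  g ≠ 0 ∧ ∀ P ∈ X, Divisorial n P → -(a * e P) ≤ P.ord g

theorem Sec.mul {X : Set (Place ℂ K)} {e : Place ℂ K → ℝ} {a b : ℕ} {g h : K}
    (hg : Sec n X e a g) (hh : Sec n X e b h) : Sec n X e (a + b) (g * h) := by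
  refine ⟨mul_ne_zero hg.1 hh.1, fun P hPX hP => ?_⟩
  rw [P.ord_mul hg.1 hh.1]
  have h1 := hg.2 P hPX hP
  have h2 := hh.2 P hPX hP
  push_cast
  linarith

theorem Sec.pow {X : Set (Place ℂ K)} {e : Place ℂ K → ℝ} {a : ℕ} {g : K}
    (hg : Sec n X e a g) (N : ℕ) : Sec n X e (N * a) (g ^ N) := by
  refine ⟨pow_ne_zero _ hg.1, fun P hPX hP => ?_⟩
  rw [P.ord_pow]
  have h1 := mul_le_mul_of_nonneg_left (hg.2 P hPX hP) (Nat.cast_nonneg (α := ℝ) N)
  push_cast
  linarith

/-- The ratios of sections. -/
def Ratios (n : ℕ) (X : Set (Place ℂ K)) (e : Place ℂ K → ℝ) : Set K :=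
  {z | ∃ a g1 g2, Sec n X e a g1 ∧ Sec n X e a g2 ∧ z = g1 / g2}

/-- Common denominators. -/
theorem common_denominator {X : Set (Place ℂ K)} {e : Place ℂ K → ℝ} {d : ℕ} (z : Fin d → K)
    (hz : ∀ i, z i ∈ Ratios n X e) :
    ∃ (a : ℕ) (x : Fin (d + 1) → K), (∀ i, Sec n X e a (x i)) ∧ ∀ i : Fin d,
      x i.succ / x 0 = z i := by
  classical
  choose a g1 g2 h1 h2 h3 using hz
  have hprod : ∀ S : Finset (Fin d), Sec n X e (∑ i ∈ S, a i) (∏ i ∈ S, g2 i) := by
    intro S
    induction S using Finset.induction_on with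
    | empty =>
      refine ⟨by rw [Finset.prod_empty]; exact one_ne_zero, fun P _ _ => ?_⟩
      rw [Finset.prod_empty, Finset.sum_empty, P.ord_one]
      push_cast
      simp
    | insert i S hi ih =>
      rw [Finset.prod_insert hi, Finset.sum_insert hi]
      exact (h2 i).mul ih
  refine ⟨∑ i, a i, Fin.cons (∏ i, g2 i) fun i => g1 i * ∏ j ∈ Finset.univ.erase i, g2 j,
    fun i => ?_, fun i => ?_⟩
  · refine Fin.cases ?_ (fun j => ?_) i
    · rw [Fin.cons_zero]
      exact hprod _
    · rw [Fin.cons_succ, ← Finset.add_sum_erase _ _ (Finset.mem_univ j)]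
      exact (h1 j).mul (hprod _)
  · rw [Fin.cons_succ, Fin.cons_zero, h3 i, ← Finset.mul_prod_erase _ _ (Finset.mem_univ i)]
    have h4 : ∏ j ∈ Finset.univ.erase i, g2 j ≠ 0 := (hprod _).1
    have h5 := (h2 i).1
    field_simp

/-- The ratios of sections are mapped to functions a power of which is a ratio of sections. -/
theorem ratios_stable {X : Set (Place ℂ K)} {δ β e : Place ℂ K → ℝ} {G : Set (K ≃ₐ[ℂ] K)}
    (he : InvariantClass n X G e) {σ : K ≃ₐ[ℂ] K} (hσG : σ ∈ G) (hσ : MPreserves X δ β σ) :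
    ∃ N : ℕ, 0 < N ∧ ∀ z ∈ Ratios n X e, (σ.symm z) ^ N ∈ Ratios n X e := by
  obtain ⟨N, hN, y, hy, hye⟩ := he σ hσG
  refine ⟨N, hN, ?_⟩
  have hsec : ∀ (a : ℕ) (g : K), Sec n X e a g →
      Sec n X e (N * a) ((σ.symm g) ^ N * y ^ a) := by
    intro a g hg
    have hg0 : σ.symm g ≠ 0 := (map_ne_zero_iff _ σ.symm.injective).mpr hg.1
    refine ⟨mul_ne_zero (pow_ne_zero _ hg0) (pow_ne_zero _ hy), fun P hPX hP => ?_⟩
    obtain ⟨Q, hQX, hQd, -, -, hQ, -, -⟩ := place_transport (n := n) hσ hPX hP
    have h1 := hg.2 Q hQX hQd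
    have h2 := hye P hPX hP Q hQX hQd hQ
    have h3 : P.ord (σ.symm g) = Q.ord g := by
      rw [← hQ, AlgEquiv.apply_symm_apply]
    rw [P.ord_mul (pow_ne_zero _ hg0) (pow_ne_zero _ hy), P.ord_pow, P.ord_pow, h3]
    have h4 := mul_le_mul_of_nonneg_left h1 (Nat.cast_nonneg (α := ℝ) N)
    push_cast
    rw [← h2]
    nlinarith
  rintro z ⟨a, g1, g2, h1, h2, rfl⟩
  refine ⟨N * a, _, _, hsec a g1 h1, hsec a g2 h2, ?_⟩
  rw [map_div₀, div_pow, mul_div_mul_right _ _ (pow_ne_zero _ hy)]

/-- The automorphisms in `G` preserve a non-trivial fibration `X ⇢ Z`, `0 < dim Z < dim X`: the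
relatively algebraically closed subfield `E` is the function field of `Z`. -/
def PreservesFibration (G : Set (K ≃ₐ[ℂ] K)) : Prop :=
  ∃ E : IntermediateField ℂ K, (∃ g ∈ E, Transcendental ℂ g) ∧ ¬ Algebra.IsAlgebraic E K ∧
    (∀ g : K, IsAlgebraic E g → g ∈ E) ∧ ∀ σ ∈ G, ∀ g ∈ E, σ g ∈ E

open scoped IntermediateField.algebraAdjoinAdjoin in
/-- A tensor which vanishes along a moving divisor of an invariant class. -/
theorem moving_fib [Algebra.EssFiniteType ℂ K] (hn : 1 ≤ n) (htr : Algebra.trdeg ℂ K = n)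
    {X : Set (Place ℂ K)} {δ : Place ℂ K → ℝ} (hδ : ∀ P ∈ X, 0 ≤ δ P ∧ δ P ≤ 1)
    {ω : (Fin n → Derivation ℂ K K) → K} (hω : IsPluri 1 ω) (hω0 : ∃ D, ω D ≠ 0)
    {k : Place ℂ K → ℤ} (hk : DivOf n X ω k)
    {G : Set (K ≃ₐ[ℂ] K)} (hG : ∀ σ ∈ G, MPreserves X δ (fun _ => (0 : ℝ)) σ)
    (hno : ¬ ∃ N : ℕ, 0 < N ∧ ∃ η : (Fin n → Derivation ℂ K K) → K,
      IsSection n X δ N η ∧ ∃ D, η D ≠ 0)
    {e : Place ℂ K → ℝ} (he : InvariantClass n X G e)
    (he0 : ∀ P ∈ X, Divisorial n P → 0 ≤ e P)
    {m0 : ℕ} (hm0 : 0 < m0) {Q : ℚ} (hQ : -(m0 / n : ℚ) < Q)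
    {s0 : MultilinearMap K (fun _ : Fin m0 => (⊤ : Submodule K (Derivation ℂ K K)))
      (AlgebraicClosure K)}
    (hs0 : LeafAdapted n X δ (fun P => Q * (k P + δ P) - e P) ⊤ s0) (hs0' : s0 ≠ 0)
    {f : K} (hf : Transcendental ℂ f) {a0 : ℕ} (hfa : Sec n X e a0 f) :
    PreservesFibration G := by
  classical
  let E0 : IntermediateField ℂ K := IntermediateField.adjoin ℂ (Ratios n X e)
  let E : IntermediateField ℂ K := (algebraicClosure E0 K).restrictScalars ℂ
  have hmem : ∀ g : K, g ∈ E ↔ IsAlgebraic E0 g := fun g =>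
    mem_algebraicClosure_iff (F := E0) (E := K)
  have hE0E : ∀ g ∈ E0, g ∈ E := fun g hg => (hmem g).mpr (isAlgebraic_algebraMap (⟨g, hg⟩ : E0))
  have halgE : ∀ g : K, IsAlgebraic E g → g ∈ E := by
    intro g hg
    have h1 : IsAlgebraic (algebraicClosure E0 K) g := hg
    rw [hmem]
    exact h1.restrictScalars E0
  have hfE : f ∈ E := by
    apply hE0E
    refine IntermediateField.subset_adjoin _ _ ⟨a0, f, 1, hfa, ⟨one_ne_zero, fun P hPX hP => ?_⟩,
      (div_one f).symm⟩
    rw [P.ord_one]
    push_cast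
    have := mul_nonneg (Nat.cast_nonneg (α := ℝ) a0) (he0 P hPX hP)
    linarith
  by_cases hK : Algebra.IsAlgebraic E K
  · -- the foliation
    have hK0 : Algebra.IsAlgebraic E0 K := ⟨fun g => (hmem g).mp (halgE g (hK.isAlgebraic g))⟩
    have hK1 : Algebra.IsAlgebraic (Algebra.adjoin ℂ (Ratios n X e)) K :=
      ⟨fun g => (hK0.isAlgebraic g).restrictScalars _⟩
    obtain ⟨t, htR, ht⟩ := exists_isTranscendenceBasis_subset (R := ℂ) (A := K) (Ratios n X e)
    have hcard := ht.cardinalMk_eq_trdeg
    rw [htr] at hcard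
    have htfin : Fintype t := by
      have : Finite t := Cardinal.lt_aleph0_iff_finite.mp (by
        rw [hcard]
        exact Cardinal.natCast_lt_aleph0)
      exact Fintype.ofFinite t
    have hcard' : Fintype.card t = n := by
      have h1 := Cardinal.mk_fintype t
      rw [hcard] at h1
      exact_mod_cast h1.symm
    let ε : Fin n ≃ t := (Fintype.equivFinOfCardEq hcard').symm
    obtain ⟨a, x, hx, hxz⟩ := common_denominator (n := n) (X := X) (e := e)
      (fun i : Fin n => ((ε i : t) : K)) fun i => htR (ε i).2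
    obtain ⟨Pos, hPos, hL⟩ := (exists_degreeOrder hn htr (β := fun _ => (0 : ℝ)) hδ hω hω0
      hk).mp (by
        simpa only [add_zero] using hno)
    simp only [add_zero] at hL
    obtain ⟨F, hF0, hF1, hFb, hFG, hFv⟩ := moving_fol hn htr hδ hω hω0 hk hG hPos hL he
      (hPos.effective _ he0) hm0 hQ hs0 hs0'
    obtain ⟨x', b', hFr⟩ := exists_fr htr
    have hfin := hFr.finite
    refine ⟨integralField F, ?_, ?_, fun g hg => integralField_closed hg, fun σ hσ => ?_⟩
    · by_contra hno'
      push Not at hno'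
      have halg : Algebra.IsAlgebraic ℂ (firstIntegrals F) := by
        refine ⟨fun g => ?_⟩
        have h1 : ¬ Transcendental ℂ (g : K) := hno' _ g.2
        rw [Transcendental, not_not] at h1
        exact (isAlgebraic_algHom_iff (firstIntegrals F).val Subtype.val_injective).mp h1
      have hz : AlgebraicIndependent ℂ fun i : Fin n => x i.succ / x 0 := by
        have h1 : (fun i : Fin n => x i.succ / x 0) = (fun i : t => (i : K)) ∘ ε := funext hxz
        rw [h1]
        exact ht.1.comp _ ε.injective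
      have hz' : AlgebraicIndependent (firstIntegrals F) fun i : Fin n => x i.succ / x 0 :=
        hz.extendScalars (firstIntegrals F)
      have hli := images (δ := δ) (n := n) (X := X) (fun P hPX => (hδ P hPX).1) hFb
        (M := fun P => (a : ℝ) * e P) (a * (n * m0)) (fun e' m hem s hs => by
          refine hFv m (by omega) (fun P => (e' : ℝ) * (a * e P)) ?_ ?_ s hs
          · have h1 := inv_comb he he (e' * a) 0
            convert h1 using 1
            funext P
            push_cast
            ring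
          · refine hPos.effective _ fun P hPX hP => ?_
            have h1 : (0 : ℝ) < n * m0 := by
              have h2 : 0 < n * m0 := Nat.mul_pos hn hm0
              exact_mod_cast h2
            have h2 : (a * (n * m0) * e' : ℝ) ≤ m := by exact_mod_cast hem.le
            have h3 : (e' : ℝ) * a ≤ m / (n * m0) := by
              rw [le_div_iff₀ h1]
              nlinarith
            have h4 := mul_le_mul_of_nonneg_right h3 (he0 P hPX hP)
            linarith) x (hx 0).1 (fun i P hPX hP => Or.inr (by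
          have := (hx i).2 P hPX hP
          exact this)) hz'
      have h1 := hli.fintype_card_le_finrank
      rw [Fintype.card_fin, Subspace.dual_finrank_eq] at h1
      have h2 := Submodule.finrank_lt hF1
      rw [hFr.finrank] at h2
      omega
    · intro halg
      apply hF0
      rw [Submodule.eq_bot_iff]
      intro D hD
      ext g
      exact der_alg (S := (integralField F).toSubalgebra) (fun s hs => hs D hD)
        (halg.isAlgebraic g)
    · refine stable_symm htr (integralField F) (fun g hg => integralField_closed hg) σ ?_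
      intro g hg D hD
      have h1 : conj σ D ∈ F := hFG σ hσ D hD _ fun f => by
        rw [conj_apply, AlgEquiv.symm_apply_apply]
      have h2 : conj σ D g = 0 := hg _ h1
      rw [conj_apply] at h2
      exact (map_eq_zero_iff _ σ.injective).mp h2
  · refine ⟨E, ⟨f, hfE, hf⟩, hK, halgE, fun σ hσ => ?_⟩
    refine stable_symm htr E halgE σ ?_
    obtain ⟨N, hN, hNz⟩ := ratios_stable he hσ (hG σ hσ)
    have h0 : ∀ g ∈ E0, σ.symm g ∈ E := by
      have h1 : E0 ≤ E.comap (σ.symm : K →ₐ[ℂ] K) := by
        refine IntermediateField.adjoin_le_iff.mpr fun z hz => ?_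
        change σ.symm z ∈ E
        rw [hmem]
        refine IsAlgebraic.of_pow hN ?_
        exact isAlgebraic_algebraMap
          (⟨_, IntermediateField.subset_adjoin ℂ _ (hNz z hz)⟩ : E0)
      exact fun g hg => h1 hg
    intro g hg
    apply halgE
    exact isAlg_map (S := E0.toSubalgebra) (E := E.toSubalgebra) σ.symm h0 ((hmem g).mp hg)

end fibration

end Pool.Agent.Zk28.TF
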