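import Pool.Agent.Zk28.TF.Core

/-!
Triangular frames at a prime divisor and the volumes of tuples of vector fields.
-/

set_option autoImplicit false
set_option linter.unusedSectionVars false

open FF Pool.Agent.W602.GT

namespace Pool.Agent.Zk28.TF

open Pool.Agent.Zk28.TS

variable {K : Type} [Field K] [Algebra ℂ K]

open scoped Classical in
/-- The norm of a primitive vector field. -/
noncomputable def et (P : Place ℂ K) (δ : ℝ) (D : Derivation ℂ K K) : ℝ :=
  if DerLog P D then 0 else -δ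

theorem et_log {P : Place ℂ K} {δ : ℝ} {D : Derivation ℂ K K} (h : DerLog P D) :
    et P δ D = 0 := if_pos h

theorem et_nlog {P : Place ℂ K} {δ : ℝ} {D : Derivation ℂ K K} (h : ¬ DerLog P D) :
    et P δ D = -δ := if_neg h

theorem et_ge {P : Place ℂ K} {δ : ℝ} (hδ : 0 ≤ δ) (D : Derivation ℂ K K) :
    -δ ≤ et P δ D := by
  unfold et
  split_ifs <;> linarith

theorem et_le {P : Place ℂ K} {δ : ℝ} (hδ : 0 ≤ δ) (D : Derivation ℂ K K) :
    et P δ D ≤ 0 := by
  unfold et
  split_ifs <;> linarith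

/-- the transformed tuple -/
def fr {r : ℕ} (A : Fin r → Fin r → K) (b : Fin r → Derivation ℂ K K) (i : Fin r) :
    Derivation ℂ K K := ∑ j, A i j • b j

/-- Triangular frames at `P`. -/
structure Tri (P : Place ℂ K) {r : ℕ} (b : Fin r → Derivation ℂ K K)
    (A : Fin r → Fin r → K) : Prop where
  low : ∀ i j, i < j → A i j = 0
  det : (Matrix.of A).det ≠ 0
  reg : ∀ i, DerReg P (fr A b i)
  one : ∀ i j, ¬ DerLog P (fr A b i) → ¬ DerLog P (fr A b j) → i = j
  co : ∀ x : Fin r → K, DerReg P (∑ i, x i • fr A b i) → (∀ i, GR P 0 (x i)) ∧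
    (DerLog P (∑ i, x i • fr A b i) → ∀ i, ¬ DerLog P (fr A b i) → GR P 1 (x i))

theorem Tri.diag {P : Place ℂ K} {r : ℕ} {b : Fin r → Derivation ℂ K K}
    {A : Fin r → Fin r → K} (h : Tri P b A) (i : Fin r) : A i i ≠ 0 := by
  intro h0
  have h1 := h.det
  rw [tri_det_all h.low] at h1
  exact h1 (Finset.prod_eq_zero (Finset.mem_univ i) h0)

section full

variable {n : ℕ} [Algebra.EssFiniteType ℂ K]

theorem exists_tri_full (htr : Algebra.trdeg ℂ K = n) {P : Place ℂ K} (hP : Divisorial n P)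
    {b : Fin n → Derivation ℂ K K} (hb : LinearIndependent K b) :
    ∃ A : Fin n → Fin n → K, Tri P b A := by
  obtain ⟨A, i0, hA, hdet, hreg, hlog, hco⟩ := flag_frame htr hP hb
  refine ⟨A, hA, hdet, hreg, fun i j hi hj => ?_, fun x hx => ?_⟩
  · have h1 : i = i0 := by
      by_contra h
      exact hi (hlog i h)
    have h2 : j = i0 := by
      by_contra h
      exact hj (hlog j h)
    rw [h1, h2]
  · obtain ⟨h1, h2⟩ := hco _ hx x rfl
    refine ⟨h1, fun hl i hi => ?_⟩
    have h3 : i = i0 := by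
      by_contra h
      exact hi (hlog i h)
    rw [h3]
    exact h2 hl

end full

section restrict

theorem sum_initial {M : Type*} [AddCommMonoid M] {r j : ℕ} (h : j ≤ r) (f : Fin r → M)
    (hf : ∀ i : Fin r, j ≤ (i : ℕ) → f i = 0) :
    ∑ i, f i = ∑ i : Fin j, f (Fin.castLE h i) := by
  obtain ⟨k, rfl⟩ := Nat.exists_eq_add_of_le h
  rw [Fin.sum_univ_add]
  have h1 : ∑ i : Fin k, f (Fin.natAdd j i) = 0 :=
    Finset.sum_eq_zero fun i _ => hf _ (by simp)
  rw [h1, add_zero]
  rfl

theorem fr_initial {r j : ℕ} (h : j ≤ r) {A : Fin r → Fin r → K}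
    (hA : ∀ i j, i < j → A i j = 0) (b : Fin r → Derivation ℂ K K) (i : Fin j) :
    fr (fun i i' => A (Fin.castLE h i) (Fin.castLE h i')) (fun i => b (Fin.castLE h i)) i =
      fr A b (Fin.castLE h i) := by
  unfold fr
  rw [sum_initial h (fun i' => A (Fin.castLE h i) i' • b i')]
  intro i' hi'
  rw [hA, zero_smul]
  have := i.2
  rw [Fin.lt_def]
  simp only [Fin.val_castLE]
  omega

theorem Tri.initial {P : Place ℂ K} {r j : ℕ} (h : j ≤ r) {b : Fin r → Derivation ℂ K K}
    {A : Fin r → Fin r → K} (hA : Tri P b A) :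
    Tri P (fun i => b (Fin.castLE h i)) (fun i i' => A (Fin.castLE h i) (Fin.castLE h i')) := by
  classical
  have hlow : ∀ i j' : Fin j, i < j' → A (Fin.castLE h i) (Fin.castLE h j') = 0 := fun i j' hij =>
    hA.low _ _ hij
  refine ⟨hlow, ?_, fun i => ?_, fun i j' hi hj => ?_, fun x hx => ?_⟩
  · rw [tri_det_all hlow]
    exact Finset.prod_ne_zero_iff.mpr fun i _ => hA.diag _
  · rw [fr_initial h hA.low]
    exact hA.reg _
  · rw [fr_initial h hA.low] at hi hj
    exact Fin.castLE_injective h (hA.one _ _ hi hj)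
  · let x' : Fin r → K := fun i => if hi : (i : ℕ) < j then x ⟨i, hi⟩ else 0
    have hx' : ∀ i : Fin j, x' (Fin.castLE h i) = x i := fun i => by
      simp only [x']
      rw [dif_pos (by simp)]
      rfl
    have hsum : ∑ i, x' i • fr A b i = ∑ i, x i •
        fr (fun i i' => A (Fin.castLE h i) (Fin.castLE h i')) (fun i => b (Fin.castLE h i)) i := by
      rw [sum_initial h (fun i => x' i • fr A b i)]
      · exact Finset.sum_congr rfl fun i _ => by rw [hx', fr_initial h hA.low]
      · intro i hi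
        simp only [x']
        rw [dif_neg (not_lt.mpr hi), zero_smul]
    rw [← hsum] at hx ⊢
    obtain ⟨h1, h2⟩ := hA.co x' hx
    refine ⟨fun i => by rw [← hx']; exact h1 _, fun hl i hi => ?_⟩
    rw [fr_initial h hA.low] at hi
    rw [← hx']
    exact h2 hl _ hi

theorem exists_tri {n : ℕ} [Algebra.EssFiniteType ℂ K] (htr : Algebra.trdeg ℂ K = n)
    {P : Place ℂ K} (hP : Divisorial n P) : ∀ (k r : ℕ), r + k = n →
      ∀ b : Fin r → Derivation ℂ K K, LinearIndependent K b →
        ∃ A : Fin r → Fin r → K, Tri P b A := by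
  intro k
  induction k with
  | zero =>
    intro r hr b hb
    rw [add_zero] at hr
    subst hr
    exact exists_tri_full htr hP hb
  | succ k ih =>
    intro r hr b hb
    obtain ⟨y, E, hF⟩ := exists_fr htr
    have hfin := hF.finite
    obtain ⟨v, hv⟩ : ∃ v, v ∉ Submodule.span K (Set.range b) := by
      by_contra hno
      push Not at hno
      have h1 : Submodule.span K (Set.range b) = ⊤ := eq_top_iff.mpr fun v _ => hno v
      have h2 := finrank_span_eq_card hb
      rw [h1, finrank_top, hF.finrank, Fintype.card_fin] at h2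
      omega
    have hb' : LinearIndependent K (Fin.snoc b v : Fin (r + 1) → Derivation ℂ K K) :=
      linearIndependent_finSnoc.mpr ⟨hb, hv⟩
    obtain ⟨A, hA⟩ := ih (r + 1) (by omega) _ hb'
    have h1 := hA.initial (Nat.le_succ r)
    have h2 : (fun i : Fin r => (Fin.snoc b v : Fin (r + 1) → Derivation ℂ K K)
        (Fin.castLE (Nat.le_succ r) i)) = b := by
      funext i
      exact Fin.snoc_castSucc (α := fun _ => Derivation ℂ K K) v b i
    rw [h2] at h1
    exact ⟨_, h1⟩

end restrict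

section volume

/-- The graded volumes. -/
noncomputable def gv (P : Place ℂ K) (δ : ℝ) {r : ℕ} (b : Fin r → Derivation ℂ K K)
    (A : Fin r → Fin r → K) (i : Fin r) : ℝ := et P δ (fr A b i) - P.ord (A i i)

theorem ord_prod' {P : Place ℂ K} {ι : Type*} (s : Finset ι) (f : ι → K)
    (hf : ∀ i ∈ s, f i ≠ 0) : P.ord (∏ i ∈ s, f i) = ∑ i ∈ s, P.ord (f i) := by
  classical
  induction s using Finset.induction_on with
  | empty => simp [P.ord_one]
  | insert a s ha ih =>
    rw [Finset.prod_insert ha, Finset.sum_insert ha, P.ord_mul (hf a (Finset.mem_insert_self a s))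
      (Finset.prod_ne_zero_iff.mpr fun i hi => hf i (Finset.mem_insert_of_mem hi)),
      ih fun i hi => hf i (Finset.mem_insert_of_mem hi)]

/-- The order of the determinant of a dominated change of norms. -/
theorem det_dom {P : Place ℂ K} {r : ℕ} (Z : Matrix (Fin r) (Fin r) K) (e e' : Fin r → ℝ)
    (h : ∀ i j, GR P (e' i - e j) (Z i j)) : GR P (∑ i, e' i - ∑ i, e i) Z.det := by
  classical
  rw [Matrix.det_apply]
  refine GR.sum _ fun σ _ => ?_
  have h1 : GR P (∑ i, e' i - ∑ i, e i) (∏ i, Z (σ i) i) := by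
    have h2 := GR.prod (P := P) Finset.univ (r := fun i => e' (σ i) - e i)
      (f := fun i => Z (σ i) i) fun i _ => h _ _
    rw [Finset.sum_sub_distrib, Equiv.sum_comp σ e'] at h2
    exact h2
  rcases Int.units_eq_one_or (Equiv.Perm.sign σ) with h2 | h2
  · rw [h2, one_smul]; exact h1
  · rw [h2, Units.neg_smul, one_smul]
    exact h1.neg

theorem et_dom {P : Place ℂ K} {δ : ℝ} (hδ : 0 ≤ δ ∧ δ ≤ 1) {D E : Derivation ℂ K K} {x : K}
    (h0 : GR P 0 x) (h1 : DerLog P D → ¬ DerLog P E → GR P 1 x) :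
    GR P (et P δ D - et P δ E) x := by
  by_cases hD : DerLog P D
  · by_cases hE : DerLog P E
    · rw [et_log hD, et_log hE, sub_zero]
      exact h0
    · rw [et_log hD, et_nlog hE]
      exact (h1 hD hE).mono (by linarith)
  · refine h0.mono ?_
    rw [et_nlog hD]
    have := et_ge (P := P) hδ.1 E
    linarith

/-- Comparison of triangular frames. -/
theorem tri_compare {P : Place ℂ K} {δ : ℝ} (hδ : 0 ≤ δ ∧ δ ≤ 1) {r : ℕ}
    {b b' : Fin r → Derivation ℂ K K} {A A' : Fin r → Fin r → K} (hA : Tri P b A)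
    (hA' : Tri P b' A') {Y : Matrix (Fin r) (Fin r) K} (hY : Y.det ≠ 0)
    (hb : ∀ i, b' i = ∑ j, Y i j • b j) :
    ∑ i, gv P δ b' A' i ≤ ∑ i, gv P δ b A i + P.ord Y.det := by
  classical
  let Z : Matrix (Fin r) (Fin r) K := Matrix.of A' * Y * (Matrix.of A)⁻¹
  have hZ : Z * Matrix.of A = Matrix.of A' * Y :=
    Matrix.nonsing_inv_mul_cancel_right _ _ (isUnit_iff_ne_zero.mpr hA.det)
  have hfr : ∀ i, fr A' b' i = ∑ j, Z i j • fr A b j := by
    intro i
    have h1 : ∑ j, Z i j • fr A b j = ∑ j, (Z * Matrix.of A) i j • b j := by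
      unfold fr
      simp only [Finset.smul_sum, smul_smul]
      rw [Finset.sum_comm]
      refine Finset.sum_congr rfl fun j _ => ?_
      rw [Matrix.mul_apply, Finset.sum_smul]
      rfl
    have h2 : fr A' b' i = ∑ j, (Matrix.of A' * Y) i j • b j := by
      unfold fr
      simp only [hb, Finset.smul_sum, smul_smul]
      rw [Finset.sum_comm]
      refine Finset.sum_congr rfl fun j _ => ?_
      rw [Matrix.mul_apply, Finset.sum_smul]
      rfl
    rw [h1, h2, hZ]
  have hord : ∀ i j, GR P (et P δ (fr A' b' i) - et P δ (fr A b j)) (Z i j) := by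
    intro i j
    have h1 := hA.co (Z i) (by rw [← hfr]; exact hA'.reg i)
    refine et_dom hδ (h1.1 j) fun hl hn => ?_
    exact h1.2 (by rw [← hfr]; exact hl) j hn
  have h1 := det_dom Z _ _ hord
  have hdetZ : Z.det * (Matrix.of A).det = (Matrix.of A').det * Y.det := by
    rw [← Matrix.det_mul, hZ, Matrix.det_mul]
  have hZ0 : Z.det ≠ 0 := by
    intro h0
    rw [h0, zero_mul] at hdetZ
    exact mul_ne_zero hA'.det hY hdetZ.symm
  have h2 : (P.ord Z.det : ℝ) + P.ord (Matrix.of A).det = P.ord (Matrix.of A').det +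
      P.ord Y.det := by
    have h3 := congrArg P.ord hdetZ
    rw [P.ord_mul hZ0 hA.det, P.ord_mul hA'.det hY] at h3
    exact_mod_cast h3
  have h3 : ∀ {b : Fin r → Derivation ℂ K K} {A : Fin r → Fin r → K}, Tri P b A →
      ∑ i, gv P δ b A i = ∑ i, et P δ (fr A b i) - P.ord (Matrix.of A).det := by
    intro b A hA
    unfold gv
    rw [Finset.sum_sub_distrib, tri_det_all hA.low, ord_prod' _ _ fun i _ => hA.diag i]
    push_cast
    rfl
  rw [h3 hA, h3 hA']
  rcases h1 with h1 | h1
  · exact absurd h1 hZ0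
  · linarith

theorem tri_eq {P : Place ℂ K} {δ : ℝ} (hδ : 0 ≤ δ ∧ δ ≤ 1) {r : ℕ}
    {b b' : Fin r → Derivation ℂ K K} {A A' : Fin r → Fin r → K} (hA : Tri P b A)
    (hA' : Tri P b' A') {Y : Matrix (Fin r) (Fin r) K} (hY : Y.det ≠ 0)
    (hb : ∀ i, b' i = ∑ j, Y i j • b j) :
    ∑ i, gv P δ b' A' i = ∑ i, gv P δ b A i + P.ord Y.det := by
  classical
  refine le_antisymm (tri_compare hδ hA hA' hY hb) ?_
  have hY' : (Y⁻¹).det ≠ 0 := by
    rw [Matrix.det_nonsing_inv, Ring.inverse_eq_inv']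
    exact inv_ne_zero hY
  have h1 := tri_compare hδ hA' hA hY' (b' := b) (b := b') fun i => by
    have h2 : ∑ j, Y⁻¹ i j • b' j = ∑ j, (Y⁻¹ * Y) i j • b j := by
      simp only [hb, Finset.smul_sum, smul_smul]
      rw [Finset.sum_comm]
      refine Finset.sum_congr rfl fun j _ => ?_
      rw [Matrix.mul_apply, Finset.sum_smul]
    rw [h2, Matrix.nonsing_inv_mul _ (isUnit_iff_ne_zero.mpr hY)]
    rw [Finset.sum_eq_single i]
    · rw [Matrix.one_apply_eq, one_smul]
    · intro j _ hj
      rw [Matrix.one_apply_ne (Ne.symm hj), zero_smul]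
    · intro h
      exact absurd (Finset.mem_univ _) h
  rw [Matrix.det_nonsing_inv, Ring.inverse_eq_inv', P.ord_inv] at h1
  push_cast at h1
  linarith

/-- The volume of a tuple. -/
noncomputable def vol (P : Place ℂ K) (δ : ℝ) {r : ℕ} (b : Fin r → Derivation ℂ K K) : ℝ := by
  classical
  exact if h : ∃ A, Tri P b A then ∑ i, gv P δ b h.choose i else 0

theorem vol_eq {P : Place ℂ K} {δ : ℝ} (hδ : 0 ≤ δ ∧ δ ≤ 1) {r : ℕ}
    {b : Fin r → Derivation ℂ K K} {A : Fin r → Fin r → K} (hA : Tri P b A) :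
    vol P δ b = ∑ i, gv P δ b A i := by
  classical
  have h : ∃ A, Tri P b A := ⟨A, hA⟩
  unfold vol
  rw [dif_pos h]
  have h1 := tri_eq hδ hA h.choose_spec (Y := 1) (by simp) fun i => by
    rw [Finset.sum_eq_single i]
    · rw [Matrix.one_apply_eq, one_smul]
    · intro j _ hj
      rw [Matrix.one_apply_ne (Ne.symm hj), zero_smul]
    · intro h
      exact absurd (Finset.mem_univ _) h
  rw [h1, Matrix.det_one, P.ord_one]
  simp

theorem vol_change {P : Place ℂ K} {δ : ℝ} (hδ : 0 ≤ δ ∧ δ ≤ 1) {r : ℕ}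
    {b b' : Fin r → Derivation ℂ K K} {A A' : Fin r → Fin r → K} (hA : Tri P b A)
    (hA' : Tri P b' A') {Y : Matrix (Fin r) (Fin r) K} (hY : Y.det ≠ 0)
    (hb : ∀ i, b' i = ∑ j, Y i j • b j) : vol P δ b' = vol P δ b + P.ord Y.det := by
  rw [vol_eq hδ hA, vol_eq hδ hA', tri_eq hδ hA hA' hY hb]

theorem gv_initial {P : Place ℂ K} {δ : ℝ} {r j : ℕ} (h : j ≤ r)
    {b : Fin r → Derivation ℂ K K} {A : Fin r → Fin r → K} (hA : Tri P b A) (i : Fin j) :
    gv P δ (fun i => b (Fin.castLE h i)) (fun i i' => A (Fin.castLE h i) (Fin.castLE h i')) i =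
      gv P δ b A (Fin.castLE h i) := by
  unfold gv
  rw [fr_initial h hA.low]

theorem vol_initial {P : Place ℂ K} {δ : ℝ} (hδ : 0 ≤ δ ∧ δ ≤ 1) {r j : ℕ} (h : j ≤ r)
    {b : Fin r → Derivation ℂ K K} {A : Fin r → Fin r → K} (hA : Tri P b A) :
    vol P δ (fun i => b (Fin.castLE h i)) = ∑ i : Fin j, gv P δ b A (Fin.castLE h i) := by
  rw [vol_eq hδ (hA.initial h)]
  exact Finset.sum_congr rfl fun i _ => gv_initial h hA i

/-- Monotonicity of the norms of the quotients. -/
theorem gv_last {P : Place ℂ K} {δ : ℝ} (hδ : 0 ≤ δ ∧ δ ≤ 1) {r r' : ℕ}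
    {b : Fin (r + 1) → Derivation ℂ K K} {b' : Fin (r' + 1) → Derivation ℂ K K}
    {A : Fin (r + 1) → Fin (r + 1) → K} {A' : Fin (r' + 1) → Fin (r' + 1) → K}
    (hA : Tri P b A) (hA' : Tri P b' A')
    (hlast : b' (Fin.last r') = b (Fin.last r))
    (hsub : ∀ i : Fin r', b' i.castSucc ∈ Submodule.span K (Set.range fun i : Fin r =>
      b i.castSucc)) :
    gv P δ b' A' (Fin.last r') ≤ gv P δ b A (Fin.last r) := by
  classical
  -- the last vector of the frame `A'` in terms of `b`
  have h1 : ∑ i : Fin r', A' (Fin.last r') i.castSucc • b' i.castSucc ∈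
      Submodule.span K (Set.range fun i : Fin r => b i.castSucc) :=
    Submodule.sum_mem _ fun i _ => Submodule.smul_mem _ _ (hsub i)
  obtain ⟨d0, hd0⟩ := (Submodule.mem_span_range_iff_exists_fun K).mp h1
  let d : Fin (r + 1) → K := Fin.snoc d0 (A' (Fin.last r') (Fin.last r'))
  have hd : fr A' b' (Fin.last r') = ∑ i, d i • b i := by
    unfold fr
    rw [Fin.sum_univ_castSucc, Fin.sum_univ_castSucc, hlast, ← hd0]
    simp [d]
  let x : Fin (r + 1) → K := Matrix.vecMul d (Matrix.of A)⁻¹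
  have hx : Matrix.vecMul x (Matrix.of A) = d := by
    change Matrix.vecMul (Matrix.vecMul d (Matrix.of A)⁻¹) (Matrix.of A) = d
    rw [Matrix.vecMul_vecMul, Matrix.nonsing_inv_mul _ (isUnit_iff_ne_zero.mpr hA.det),
      Matrix.vecMul_one]
  have hxd : ∀ j, ∑ i, x i * A i j = d j := fun j => congrFun hx j
  have hfx : fr A' b' (Fin.last r') = ∑ i, x i • fr A b i := by
    rw [hd]
    unfold fr
    simp only [Finset.smul_sum, smul_smul]
    rw [Finset.sum_comm]
    exact Finset.sum_congr rfl fun j _ => by rw [← hxd j, Finset.sum_smul]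
  have hlastx : x (Fin.last r) * A (Fin.last r) (Fin.last r) =
      A' (Fin.last r') (Fin.last r') := by
    have h2 := hxd (Fin.last r)
    rw [Fin.sum_univ_castSucc] at h2
    have h3 : ∑ i : Fin r, x i.castSucc * A i.castSucc (Fin.last r) = 0 :=
      Finset.sum_eq_zero fun i _ => by rw [hA.low _ _ (Fin.castSucc_lt_last i), mul_zero]
    rw [h3, zero_add] at h2
    rw [h2]
    simp [d]
  have hx0 : x (Fin.last r) ≠ 0 := by
    intro h0
    rw [h0, zero_mul] at hlastx
    exact hA'.diag _ hlastx.symm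
  have hco := hA.co x (by rw [← hfx]; exact hA'.reg _)
  have hord : GR P (et P δ (fr A' b' (Fin.last r')) - et P δ (fr A b (Fin.last r)))
      (x (Fin.last r)) :=
    et_dom hδ (hco.1 _) fun hl hn => hco.2 (by rw [← hfx]; exact hl) _ hn
  have h4 : (P.ord (x (Fin.last r)) : ℝ) + P.ord (A (Fin.last r) (Fin.last r)) =
      P.ord (A' (Fin.last r') (Fin.last r')) := by
    have h5 := congrArg P.ord hlastx
    rw [P.ord_mul hx0 (hA.diag _)] at h5
    exact_mod_cast h5
  unfold gv
  rcases hord with h | h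
  · exact absurd h hx0
  · linarith

end volume

end Pool.Agent.Zk28.TF
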