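import Pool.Agent.Zk28.TF.Many
import Pool.Agent.Zk28.TF.Crit2

/-!
The determinant of all tensors.
-/

set_option autoImplicit false
set_option linter.unusedSectionVars false

open FF Pool.Agent.W602.GT

namespace Pool.Agent.Zk28.TF

open Pool.Agent.Zk28.TS

section

variable {K : Type} [Field K] [Algebra ℂ K] {n p : ℕ}

/-- A nonzero multilinear function has a nonzero value on a spanning family. -/
theorem exists_basis_value {κ : Type} [Fintype κ] [DecidableEq κ] {s : MTensor K κ} (hs : s ≠ 0)
    {b : Fin n → Derivation ℂ K K} (hb : LinearIndependent K b)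
    (hbs : Submodule.span K (Set.range b) = ⊤) : ∃ J : κ → Fin n, s (fun a => b (J a)) ≠ 0 := by
  by_contra hno
  push Not at hno
  apply hs
  let B : Module.Basis (Fin n) K (Derivation ℂ K K) := Module.Basis.mk hb hbs.ge
  refine Module.Basis.ext_multilinear (fun _ => B) fun J => ?_
  simp only [B, Module.Basis.mk_apply, zero_apply]
  exact hno J

/-- The weights of all the words add up to zero. -/
theorem sum_words {w : Fin n → ℤ} (hw : ∑ i, w i = 0) :
    ∑ f : Fin p → Fin n, ∑ a, w (f a) = 0 := by
  rw [Finset.sum_comm]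
  refine Finset.sum_eq_zero fun a _ => ?_
  rw [← Equiv.sum_comp (Equiv.funSplitAt a (Fin n)).symm, Fintype.sum_prod_type, Finset.sum_comm]
  refine Finset.sum_eq_zero fun g _ => ?_
  rw [← hw]
  refine Finset.sum_congr rfl fun i _ => ?_
  simp [Equiv.funSplitAt]

/-- **The full determinant.** If there are `n ^ p` tensors which are linearly independent over the
algebraic functions then `κ ≥ 0`. -/
theorem full_rank [Algebra.EssFiniteType ℂ K] (hn : 1 ≤ n)
    (htr : Algebra.trdeg ℂ K = n) {X : Set (Place ℂ K)} {δ : Place ℂ K → ℝ}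
    (hδ : ∀ P ∈ X, 0 ≤ δ P ∧ δ P ≤ 1)
    {ω : (Fin n → Derivation ℂ K K) → K} (hω : IsPluri 1 ω)
    (hω0 : ∃ D, ω D ≠ 0) {k : Place ℂ K → ℤ} (hk : DivOf n X ω k)
    (hp : 0 < p) {r : ℚ} (hr : -(p / n : ℚ) < r) {N : ℕ} (hN : N = n ^ p)
    {t : Fin N → MTensor K (Fin p)}
    (ht : ∀ j, MAdapted n X δ (fun P => r * (k P + δ P)) (t j))
    (hti : LinearIndependent (AlgebraicClosure K) t) :
    ∃ N : ℕ, 0 < N ∧ ∃ η : (Fin n → Derivation ℂ K K) → K,
      IsSection n X δ N η ∧ ∃ D, η D ≠ 0 := by
  classical
  have hN0 : 0 < N := by rw [hN]; exact pow_pos (by omega) p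
  have hnq : (0 : ℚ) < n := by exact_mod_cast hn
  obtain ⟨x0, E, hF⟩ := exists_fr htr
  have hfin := hF.finite
  have hNq : (0 : ℚ) < N := by exact_mod_cast hN0
  let e : Fin N × Fin p ≃ Fin (N * p) := finProdFinEquiv
  let s : MTensor K (Fin (N * p)) := (wedge t).domDomCongr e
  have hsD : ∀ D : Fin (N * p) → Derivation ℂ K K, s D = wedge t fun x => D (e x) := fun D => rfl
  have hsa : MAdapted n X δ (fun P => ((N * r : ℚ) : ℝ) * (k P + δ P)) s := by
    intro P hPX hP D hD
    have h1 := wedge_adapted t (fun _ => r) (L := fun P => (k P : ℝ) + δ P) ht P hPX hP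
      (fun x => D (e x)) fun x => hD _
    have h2 : (({x | ¬ DerLog P (D (e x))} : Set (Fin N × Fin p)).ncard : ℝ) =
        (({a | ¬ DerLog P (D a)} : Set (Fin (N * p))).ncard : ℝ) := by
      rw [ncard_eq' (fun a => ¬ DerLog P (D a)), ncard_eq' (fun x => ¬ DerLog P (D (e x)))]
      rw [← Equiv.sum_comp e]
    rw [h2, Finset.sum_const, Finset.card_univ, Fintype.card_fin, nsmul_eq_mul] at h1
    exact h1
  have hw0 : wedge t ≠ 0 := by
    intro h0
    obtain ⟨D, hD⟩ := exists_wedge_ne t hti
    rw [h0] at hD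
    exact hD rfl
  have h := crit2 (β := fun _ => (0 : ℝ)) hn htr hδ hω hω0 hk (G := ∅) (by simp)
    (m := N * p) (Nat.mul_pos hN0 hp) (q := N * r) (by
      push_cast
      rw [mul_div_assoc, ← mul_neg]
      exact mul_lt_mul_of_pos_left hr hNq) (by
    intro b hb w hw _
    have hbs : Submodule.span K (Set.range b) = ⊤ := by
      apply hb.span_eq_top_of_card_eq_finrank'
      rw [hF.finrank, Fintype.card_fin]
    obtain ⟨J, hJ⟩ := exists_basis_value hw0 hb hbs
    refine ⟨s, ?_, fun a => J (e.symm a), ?_, ?_⟩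
    · convert hsa using 2
      ring
    · rw [hsD]
      simpa only [Equiv.symm_apply_apply] using hJ
    · -- the columns are different
      have hinj : Function.Injective fun (j : Fin N) (a : Fin p) => J (j, a) := by
        intro j1 j2 h12
        by_contra hne
        apply hJ
        rw [wedge_apply]
        refine Matrix.det_zero_of_column_eq hne fun i => ?_
        simp only [Matrix.of_apply]
        congr 1
        funext a
        rw [show J (j1, a) = J (j2, a) from congrFun h12 a]
      have hbij : Function.Bijective fun (j : Fin N) (a : Fin p) => J (j, a) := by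
        rw [Fintype.bijective_iff_injective_and_card]
        refine ⟨hinj, ?_⟩
        rw [Fintype.card_fun, Fintype.card_fin, Fintype.card_fin, Fintype.card_fin, hN]
      have h1 : ∑ a, w (J (e.symm a)) = ∑ j, ∑ a, w (J (j, a)) := by
        rw [← Fintype.sum_prod_type', ← Equiv.sum_comp e.symm fun x : Fin N × Fin p => w (J x)]
      have h2 : ∑ j, ∑ a, w (J (j, a)) = ∑ f : Fin p → Fin n, ∑ a, w (f a) :=
        Function.Bijective.sum_comp hbij fun f : Fin p → Fin n => ∑ a, w (f a)
      rw [h1, h2, sum_words hw])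
  simpa only [add_zero] using h

end

end Pool.Agent.Zk28.TF
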