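import Pool.Agent.Zk28.TF.Psef2
import Pool.Agent.Zk28.TF.NDefs

/-!
Statements (module GD).
-/

set_option autoImplicit false
set_option linter.unusedSectionVars false

open FF Pool.Agent.W602.GT

namespace Pool.Agent.Zk28.TF

open Pool.Agent.Zk28.TS

variable {K : Type} [Field K] [Algebra ℂ K] {n p : ℕ}

/-- hypothesis: tensors with values in `γ - E`, `γ` in `A`, `E ≥ 0` with an invariant class, have `E = 0` -/
def NoZeros (n : ℕ) (X : Set (Place ℂ K)) (δ : Place ℂ K → ℝ) (G : Set (K ≃ₐ[ℂ] K))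
    (A : Set (Place ℂ K → ℝ)) : Prop :=
  ∀ (m : ℕ) (γ E : Place ℂ K → ℝ) (t : MTensor K (Fin m)), 0 < m → t ≠ 0 → γ ∈ A →
    InvariantClass n X G E → (∀ P ∈ X, Divisorial n P → 0 ≤ E P) →
    MAdapted n X δ (fun P => γ P - E P) t → ∀ P ∈ X, Divisorial n P → E P = 0

/-- module GD, part 1 (cf. `super_of_vanishing` in Psef2): `E` need not have an invariant class. -/
theorem zero_gen [Algebra.EssFiniteType ℂ K] (hn : 1 ≤ n)
    (htr : Algebra.trdeg ℂ K = n) {X : Set (Place ℂ K)} {δ : Place ℂ K → ℝ}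
    (hδ : ∀ P ∈ X, 0 ≤ δ P ∧ δ P ≤ 1) {G : Set (K ≃ₐ[ℂ] K)} {L : Place ℂ K → ℝ}
    (hG : ∀ g ∈ G, MPreserves X δ (fun _ => (0 : ℝ)) g) {A : Set (Place ℂ K → ℝ)}
    (hA : NullGroup n X G L A) (H : NoZeros n X δ G A) (hp : 0 < p) {γ E : Place ℂ K → ℝ}
    (hγ : γ ∈ A) {t : MTensor K (Fin p)} (ht0 : t ≠ 0)
    (hE : ∀ P ∈ X, Divisorial n P → 0 ≤ E P)
    (ht : MAdapted n X δ (fun P => γ P - E P) t) : ∀ P ∈ X, Divisorial n P → E P = 0 := by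
  sorry

/-- module GD, part 2 (cf. `indep_or_super` in Psef2). -/
theorem indep_gen [Algebra.EssFiniteType ℂ K] (hn : 1 ≤ n)
    (htr : Algebra.trdeg ℂ K = n) {X : Set (Place ℂ K)} {δ : Place ℂ K → ℝ}
    (hδ : ∀ P ∈ X, 0 ≤ δ P ∧ δ P ≤ 1) {G : Set (K ≃ₐ[ℂ] K)} {L : Place ℂ K → ℝ}
    (hG : ∀ g ∈ G, MPreserves X δ (fun _ => (0 : ℝ)) g) {A : Set (Place ℂ K → ℝ)}
    (hA : NullGroup n X G L A) (H : NoZeros n X δ G A)
    (hconst : ∀ z : K, z ≠ 0 → (∀ P ∈ X, Divisorial n P → 0 ≤ P.ord z) →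
      ∃ a : ℂ, algebraMap ℂ K a = z) (hp : 0 < p) {N : ℕ} {γ : Fin N → Place ℂ K → ℝ}
    (hγ : ∀ j, γ j ∈ A) (hdist : ∀ i j, QEquiv n X (γ i) (γ j) → γ i = γ j)
    {t : Fin N → MTensor K (Fin p)} (ht : ∀ j, MAdapted n X δ (γ j) (t j))
    (hti : ∀ ρ : Place ℂ K → ℝ, LinearIndependent ℂ fun j : {j : Fin N // γ j = ρ} => t j) :
    LinearIndependent (AlgebraicClosure K) t := by
  sorry

end Pool.Agent.Zk28.TF
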