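import Pool.Agent.Zk28.TF.Many
import Pool.Agent.Zk28.TF.Crit2

/-!
Tensors with values in infinitely many multiples: effectivity or an invariant fibration.
-/

set_option autoImplicit false
set_option linter.unusedSectionVars false

open FF Pool.Agent.W602.GT

namespace Pool.Agent.Zk28.TF

open Pool.Agent.Zk28.TS

section

variable {K : Type} [Field K] [Algebra ℂ K] {n p : ℕ}

/-- If three effective divisors in a pencil of classes are rigid, then they are in a line. -/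
theorem three_divisors {X : Set (Place ℂ K)} {L v : Place ℂ K → ℝ} {Q1 Q2 Q3 : ℚ}
    (h12 : Q1 < Q2) (h23 : Q2 < Q3) {E1 E2 E3 : Place ℂ K → ℝ}
    (hE1 : ∀ P ∈ X, Divisorial n P → 0 ≤ E1 P) (hE3 : ∀ P ∈ X, Divisorial n P → 0 ≤ E3 P)
    {N1 N2 N3 : ℕ} (hN1 : 0 < N1) (hN2 : 0 < N2) (hN3 : 0 < N3) {y1 y2 y3 : K}
    (hy1 : y1 ≠ 0) (hy2 : y2 ≠ 0) (hy3 : y3 ≠ 0)
    (h1 : ∀ P, E1 P = Q1 * L P + v P + P.ord y1 / N1)
    (h2 : ∀ P, E2 P = Q2 * L P + v P + P.ord y2 / N2)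
    (h3 : ∀ P, E3 P = Q3 * L P + v P + P.ord y3 / N3)
    (hrigid : ∀ (f : K) (a : ℕ), Sec n X E2 a f → ¬ Transcendental ℂ f) :
    ∀ P ∈ X, Divisorial n P → (Q3 - Q2 : ℝ) * E1 P ≤ (Q3 - Q1) * E2 P := by
  have hN1' : (N1 : ℝ) ≠ 0 := by exact_mod_cast hN1.ne'
  have hN2' : (N2 : ℝ) ≠ 0 := by exact_mod_cast hN2.ne'
  have hN3' : (N3 : ℝ) ≠ 0 := by exact_mod_cast hN3.ne'
  -- a common denominator
  obtain ⟨D, a1, a3, hD, ha1, ha3⟩ : ∃ D a1 a3 : ℕ, 0 < D ∧ (a1 : ℚ) = D * (Q3 - Q2) ∧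
      (a3 : ℚ) = D * (Q2 - Q1) := by
    have hu1 : 0 < Q3 - Q2 := sub_pos.mpr h23
    have hu3 : 0 < Q2 - Q1 := sub_pos.mpr h12
    refine ⟨(Q3 - Q2).den * (Q2 - Q1).den, (Q3 - Q2).num.toNat * (Q2 - Q1).den,
      (Q2 - Q1).num.toNat * (Q3 - Q2).den, Nat.mul_pos (Q3 - Q2).den_pos (Q2 - Q1).den_pos, ?_, ?_⟩
    · have h4 : (((Q3 - Q2).num.toNat : ℤ) : ℚ) = (Q3 - Q2).num := by
        rw [Int.toNat_of_nonneg (Rat.num_nonneg.mpr hu1.le)]
      have h5 : (Q3 - Q2) * (Q3 - Q2).den = (Q3 - Q2).num := Rat.mul_den_eq_num _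
      push_cast at h4 ⊢
      rw [h4, ← h5]
      ring
    · have h4 : (((Q2 - Q1).num.toNat : ℤ) : ℚ) = (Q2 - Q1).num := by
        rw [Int.toNat_of_nonneg (Rat.num_nonneg.mpr hu3.le)]
      have h5 : (Q2 - Q1) * (Q2 - Q1).den = (Q2 - Q1).num := Rat.mul_den_eq_num _
      push_cast at h4 ⊢
      rw [h4, ← h5]
      ring
  have hD' : (0 : ℝ) < D := by exact_mod_cast hD
  have ha1' : (a1 : ℝ) = D * (Q3 - Q2) := by
    have : ((a1 : ℚ) : ℝ) = ((D * (Q3 - Q2) : ℚ) : ℝ) := by rw [ha1]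
    push_cast at this
    exact this
  have ha3' : (a3 : ℝ) = D * (Q2 - Q1) := by
    have : ((a3 : ℚ) : ℝ) = ((D * (Q2 - Q1) : ℚ) : ℝ) := by rw [ha3]
    push_cast at this
    exact this
  let f : K := y1 ^ (a1 * N2 * N3) * y3 ^ (a3 * N1 * N2) / y2 ^ ((a1 + a3) * N1 * N3)
  have hf0 : f ≠ 0 := div_ne_zero (mul_ne_zero (pow_ne_zero _ hy1) (pow_ne_zero _ hy3))
    (pow_ne_zero _ hy2)
  have hord : ∀ P : Place ℂ K, (P.ord f : ℝ) =
      N1 * N2 * N3 * (a1 * E1 P + a3 * E3 P - (a1 + a3) * E2 P) := by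
    intro P
    have e1 : (P.ord y1 : ℝ) = N1 * (E1 P - Q1 * L P - v P) := by
      rw [h1]; field_simp; ring
    have e2 : (P.ord y2 : ℝ) = N2 * (E2 P - Q2 * L P - v P) := by
      rw [h2]; field_simp; ring
    have e3 : (P.ord y3 : ℝ) = N3 * (E3 P - Q3 * L P - v P) := by
      rw [h3]; field_simp; ring
    simp only [f]
    rw [P.ord_div (mul_ne_zero (pow_ne_zero _ hy1) (pow_ne_zero _ hy3)) (pow_ne_zero _ hy2),
      P.ord_mul (pow_ne_zero _ hy1) (pow_ne_zero _ hy3), P.ord_pow, P.ord_pow, P.ord_pow]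
    push_cast
    rw [e1, e2, e3, ha1', ha3']
    ring
  have halg := hrigid f (N1 * N2 * N3 * (a1 + a3)) ⟨hf0, fun P hPX hP => by
    rw [hord]
    have h4 := hE1 P hPX hP
    have h5 := hE3 P hPX hP
    have h6 : (0 : ℝ) ≤ N1 * N2 * N3 * (a1 * E1 P + a3 * E3 P) := by positivity
    push_cast
    linarith⟩
  rw [Transcendental, not_not] at halg
  obtain ⟨b, hb⟩ := alg_mem_range halg
  have hb0 : b ≠ 0 := by
    rintro rfl
    rw [map_zero] at hb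
    exact hf0 hb.symm
  intro P hPX hP
  have h4 := hord P
  rw [← hb, P.ord_const hb0] at h4
  have h5 : (0 : ℝ) < N1 * N2 * N3 := by positivity
  have h6 : (a1 : ℝ) * E1 P + a3 * E3 P - (a1 + a3) * E2 P = 0 := by
    push_cast at h4
    rcases mul_eq_zero.mp h4.symm with h7 | h7
    · exact absurd h7 h5.ne'
    · exact h7
  have h7 : (0 : ℝ) ≤ a3 * E3 P := mul_nonneg (Nat.cast_nonneg _) (hE3 P hPX hP)
  rw [ha1', ha3'] at h6
  rw [ha3'] at h7
  have h8 : (D : ℝ) * ((Q3 - Q2) * E1 P) ≤ D * ((Q3 - Q1) * E2 P) := by nlinarith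
  exact le_of_mul_le_mul_left h8 hD'

/-- **Tensors with values in infinitely many multiples.** -/
theorem infinitely_many [Algebra.EssFiniteType ℂ K] (hn : 1 ≤ n)
    (htr : Algebra.trdeg ℂ K = n) {X : Set (Place ℂ K)} {δ : Place ℂ K → ℝ}
    (hδ : ∀ P ∈ X, 0 ≤ δ P ∧ δ P ≤ 1)
    {ω : (Fin n → Derivation ℂ K K) → K} (hω : IsPluri 1 ω)
    (hω0 : ∃ D, ω D ≠ 0) {k : Place ℂ K → ℤ} (hk : DivOf n X ω k) {G : Set (K ≃ₐ[ℂ] K)}
    (hG : ∀ g ∈ G, MPreserves X δ (fun _ => (0 : ℝ)) g)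
    (hno : ¬ ∃ N : ℕ, 0 < N ∧ ∃ η : (Fin n → Derivation ℂ K K) → K,
      IsSection n X δ N η ∧ ∃ D, η D ≠ 0) (hp : 0 < p)
    (hinf : ∀ r0 : ℚ, ∃ r : ℚ, r0 < r ∧ ∃ t : MTensor K (Fin p),
      MAdapted n X δ (fun P => r * (k P + δ P)) t ∧ t ≠ 0) : PreservesFibration G := by
  classical
  by_contra hfib
  have hnq : (0 : ℚ) < n := by exact_mod_cast hn
  have hpq : (0 : ℚ) < p := by exact_mod_cast hp
  have hfinT := (finite_MTensor (K := K) (n := n) (p := p) htr).1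
  let T : ℚ → Set (MTensor K (Fin p)) := fun r0 =>
    {t | ∃ r : ℚ, r0 ≤ r ∧ MAdapted n X δ (fun P => r * (k P + δ P)) t}
  have hTmono : ∀ {a b : ℚ}, a ≤ b → T b ⊆ T a := by
    rintro a b hab t ⟨r, hr, ht⟩
    exact ⟨r, hab.trans hr, ht⟩
  have hex : ∃ d, ∃ r0 : ℚ, 0 ≤ r0 ∧ Module.finrank (AlgebraicClosure K)
      (Submodule.span (AlgebraicClosure K) (T r0)) = d := ⟨_, 0, le_rfl, rfl⟩
  obtain ⟨r0, hr0, hd⟩ := Nat.find_spec hex
  obtain ⟨d, hdd⟩ : ∃ d, d = Nat.find hex := ⟨_, rfl⟩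
  rw [← hdd] at hd
  have hsame : ∀ r1, r0 ≤ r1 → Submodule.span (AlgebraicClosure K) (T r1) =
      Submodule.span (AlgebraicClosure K) (T r0) := by
    intro r1 hr1
    refine Submodule.eq_of_le_of_finrank_le (Submodule.span_mono (hTmono hr1)) ?_
    rw [hd, hdd]
    exact Nat.find_min' hex ⟨r1, hr0.trans hr1, rfl⟩
  have hdpos : 0 < d := by
    rw [Nat.pos_iff_ne_zero]
    intro h0
    rw [h0] at hd
    obtain ⟨r, hr, t, ht, ht0⟩ := hinf r0
    have h1 : t ∈ Submodule.span (AlgebraicClosure K) (T r0) :=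
      Submodule.subset_span ⟨r, hr.le, ht⟩
    rw [Submodule.finrank_eq_zero.mp hd] at h1
    exact ht0 ((Submodule.mem_bot _).mp h1)
  -- the bases
  have hbas : ∀ r1, r0 ≤ r1 → ∃ (s : Fin d → MTensor K (Fin p)) (q : Fin d → ℚ),
      (∀ i, r1 ≤ q i) ∧ (∀ i, MAdapted n X δ (fun P => q i * (k P + δ P)) (s i)) ∧
      LinearIndependent (AlgebraicClosure K) s ∧
      Submodule.span (AlgebraicClosure K) (Set.range s) =
        Submodule.span (AlgebraicClosure K) (T r0) := by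
    intro r1 hr1
    obtain ⟨s, hs, hli, hspan⟩ := exists_basis_of_set htr (T r1) (d := d) (by
      rw [hsame r1 hr1, hd])
    choose q hq hsq using hs
    exact ⟨s, q, hq, hsq, hli, hspan.trans (hsame r1 hr1)⟩
  obtain ⟨s0, q0, hq0, hs0, hli0, hspan0⟩ := hbas r0 le_rfl
  obtain ⟨c0, σ, h0⟩ := exists_datum (n := n) (X := X) (δ := δ) (k := k) G (Qs := {r | r0 ≤ r})
    (s := s0) (q := q0) hq0 hs0 hli0 (by
      intro r hr t ht
      rw [hspan0]
      exact Submodule.subset_span ⟨r, hr, ht⟩)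
  -- the effective divisors
  have hE : ∀ r1, r0 ≤ r1 → ∃ (Q : ℚ) (N : ℕ) (y : K), r1 ≤ Q ∧ 0 < N ∧ y ≠ 0 ∧
      (∀ P ∈ X, Divisorial n P → 0 ≤ Ed δ k σ Q N y P) ∧
      ∀ (f : K) (a : ℕ), Sec n X (Ed δ k σ Q N y) a f → ¬ Transcendental ℂ f := by
    intro r1 hr1
    obtain ⟨s, q, hq, hs, hli, hspan⟩ := hbas r1 hr1
    have hmem : ∀ i, s i ∈ Submodule.span (AlgebraicClosure K) (Set.range s0) := by
      intro i
      rw [hspan0, ← hspan]
      exact Submodule.subset_span ⟨i, rfl⟩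
    choose A hA using fun i => (Submodule.mem_span_range_iff_exists_fun _).mp (hmem i)
    have h := h0.other (fun i => hr1.trans (hq i)) hs hli fun i => (hA i).symm
    obtain ⟨N, y, hN, hy, hNy⟩ := exists_alg_norm h.c_ne
    have hnn := h.nonneg htr hN fun P r hr => (hNy P r hr).1
    refine ⟨∑ i, q i, N, y, ?_, hN, hy, hnn, fun f a hfa hf => ?_⟩
    · have h1 : ∑ i : Fin d, r1 ≤ ∑ i, q i := Finset.sum_le_sum fun i _ => hq i
      rw [Finset.sum_const, Finset.card_univ, Fintype.card_fin, nsmul_eq_mul] at h1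
      refine le_trans ?_ h1
      have h2 : (1 : ℚ) ≤ d := by exact_mod_cast hdpos
      have h3 : 0 ≤ r1 := hr0.trans hr1
      nlinarith
    · refine hfib (h.fib hn htr hδ hω hω0 hk hG hno hp hdpos (fun i => ?_) hN hy hnn hf hfa)
      refine lt_of_lt_of_le ?_ ((hr0.trans hr1).trans (hq i))
      exact neg_neg_of_pos (div_pos hpq hnq)
  obtain ⟨Q1, N1, y1, hQ1, hN1, hy1, hE1, -⟩ := hE r0 le_rfl
  obtain ⟨Q2, N2, y2, hQ2, hN2, hy2, hE2, hrig⟩ := hE (max r0 (Q1 + 1)) (le_max_left _ _)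
  have h12 : Q1 < Q2 := by
    have := (le_max_right r0 (Q1 + 1)).trans hQ2
    linarith
  have hle : ∀ P ∈ X, Divisorial n P → Ed δ k σ Q1 N1 y1 P ≤ Ed δ k σ Q2 N2 y2 P := by
    intro P hPX hP
    by_contra hlt
    push Not at hlt
    -- a large third twist
    set A := Ed δ k σ Q1 N1 y1 P with hA
    set B := Ed δ k σ Q2 N2 y2 P with hB
    obtain ⟨m, hm⟩ := exists_nat_gt ((Q2 * A - Q1 * B) / (A - B))
    obtain ⟨Q3, N3, y3, hQ3, hN3, hy3, hE3, -⟩ := hE (max r0 (max (Q2 + 1) m))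
      (le_max_left _ _)
    have h23 : Q2 < Q3 := by
      have := ((le_max_left (Q2 + 1) (m : ℚ)).trans (le_max_right r0 _)).trans hQ3
      linarith
    have hmQ : (m : ℚ) ≤ Q3 := ((le_max_right (Q2 + 1) (m : ℚ)).trans (le_max_right r0 _)).trans hQ3
    have hmQ' : (m : ℝ) ≤ Q3 := by exact_mod_cast hmQ
    have h1 : ((Q3 : ℝ) - Q2) * A ≤ (Q3 - Q1) * B :=
      three_divisors (n := n) (X := X) (L := fun P => (k P : ℝ) + δ P) (v := vT δ σ)
        h12 h23 hE1 hE3 hN1 hN2 hN3 hy1 hy2 hy3 (fun _ => rfl) (fun _ => rfl) (fun _ => rfl)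
        hrig P hPX hP
    have h2 : 0 < A - B := sub_pos.mpr hlt
    rw [div_lt_iff₀ h2] at hm
    nlinarith
  -- the effectivity of `L`
  apply hno
  have hN1' : (N1 : ℝ) ≠ 0 := by exact_mod_cast hN1.ne'
  have hN2' : (N2 : ℝ) ≠ 0 := by exact_mod_cast hN2.ne'
  have hu : 0 < Q2 - Q1 := sub_pos.mpr h12
  have hnum : 0 < (Q2 - Q1).num := Rat.num_pos.mpr hu
  have h1 := section_of_L (β := fun _ => (0 : ℝ)) hn htr hδ hω hω0 hk
    ⟨N1 * N2 * (Q2 - Q1).num.toNat, by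
      have : 0 < (Q2 - Q1).num.toNat := by omega
      positivity, (y2 ^ N1 / y1 ^ N2) ^ (Q2 - Q1).den,
      pow_ne_zero _ (div_ne_zero (pow_ne_zero _ hy2) (pow_ne_zero _ hy1)), fun P hPX hP => by
      have h2 := hle P hPX hP
      unfold Ed at h2
      rw [P.ord_pow, P.ord_div (pow_ne_zero _ hy2) (pow_ne_zero _ hy1), P.ord_pow, P.ord_pow]
      have h4 : (((Q2 - Q1).num.toNat : ℤ) : ℝ) = (Q2 - Q1).num := by
        rw [Int.toNat_of_nonneg hnum.le]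
      have h5 : ((Q2 - Q1 : ℚ) : ℝ) * (Q2 - Q1).den = (Q2 - Q1).num := by
        exact_mod_cast Rat.mul_den_eq_num (Q2 - Q1)
      push_cast at h4 h5 ⊢
      rw [h4, ← h5]
      have h6 : (0 : ℝ) < N1 * N2 := by positivity
      have h7 : (0 : ℝ) ≤ (N1 * N2 : ℝ) * (((Q2 : ℝ) - Q1) * (k P + δ P) +
          P.ord y2 / N2 - P.ord y1 / N1) := mul_nonneg h6.le (by linarith)
      have h8 : (N1 * N2 : ℝ) * (((Q2 : ℝ) - Q1) * (k P + δ P) +
          P.ord y2 / N2 - P.ord y1 / N1) = N1 * N2 * (((Q2 : ℝ) - Q1) * (k P + δ P)) +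
          N1 * P.ord y2 - N2 * P.ord y1 := by
        field_simp
      rw [h8] at h7
      have h9 := mul_nonneg h7 (Nat.cast_nonneg (α := ℝ) (Q2 - Q1).den)
      nlinarith⟩
  simpa only [add_zero] using h1

end

end Pool.Agent.Zk28.TF
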