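import Pool.Agent.Zk28.TF.Vol
import Pool.Agent.Zk28.TF.LDefs
import Pool.Agent.Zk26.TF.LeafDiv

/-!
The volume of a distribution is the divisor of a leafwise form (proved by helper26).
-/

set_option autoImplicit false
set_option linter.unusedSectionVars false

open FF Pool.Agent.W602.GT

namespace Pool.Agent.Zk28.TF

open Pool.Agent.Zk28.TS

variable {K : Type} [Field K] [Algebra ℂ K]

theorem leafDiv {n : ℕ} [Algebra.EssFiniteType ℂ K] [Module.Finite K (Derivation ℂ K K)]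
    (htr : Algebra.trdeg ℂ K = n) {X : Set (Place ℂ K)} {δ : Place ℂ K → ℝ}
    (hδ : ∀ P ∈ X, 0 ≤ δ P ∧ δ P ≤ 1) (F : Submodule K (Derivation ℂ K K)) :
    ∃ θ : F [⋀^Fin (Module.finrank K F)]→ₗ[K] K, θ ≠ 0 ∧
      LeafDivOf n X δ F θ fun P => -vs δ F P :=
  Pool.Agent.Zk26.TF.leafDiv htr hδ F

end Pool.Agent.Zk28.TF
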