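import Pool.Agent.Zk28.TF.Rel

/-!
The optimal flag of the tensor of a bilinear map `V × V → Q`.
-/

set_option autoImplicit false
set_option linter.unusedSectionVars false

open FF Pool.Agent.W602.GT Filter Topology

namespace Pool.Agent.Zk28.TF

open Pool.Agent.Zk28.TS

section

variable {F : Type*} [Field F] {V : Type*} [AddCommGroup V] [Module F V] {W : Type*}
  [AddCommGroup W] [Module F W] {n m : ℕ} {P : Set (MultilinearMap F (fun _ : Fin m => V) W)}
  {b : Fin n → V} {w : Fin n → ℝ}

theorem Opt.perturb_ge (h : Opt P b w) (d : Fin n → ℝ)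
    (hd : ∀ I ∈ supp P b, ∑ a, w (I a) = 1 → 0 ≤ ∑ a, d (I a)) : 0 ≤ ∑ i, w i * d i := by
  classical
  by_contra hneg
  push Not at hneg
  have e2 : ∀ᶠ ε : ℝ in 𝓝 0, ∀ I : Fin m → Fin n, 1 < ∑ a, w (I a) →
      0 < (∑ a, w (I a) - 1) + ε * ∑ a, d (I a) := by
    rw [Filter.eventually_all]
    intro I
    by_cases hI : 1 < ∑ a, w (I a)
    · have h : ContinuousAt (fun ε : ℝ => (∑ a, w (I a) - 1) + ε * ∑ a, d (I a)) 0 := by
        fun_prop
      filter_upwards [h.eventually (lt_mem_nhds (a := 0) (by simpa using hI))] with ε hε _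
      exact hε
    · exact Filter.Eventually.of_forall fun ε h => absurd h hI
  have e3 : ∀ᶠ ε : ℝ in 𝓝 0, 2 * (∑ i, w i * d i) + ε * TS.sq d < 0 := by
    have h : ContinuousAt (fun ε : ℝ => 2 * (∑ i, w i * d i) + ε * TS.sq d) 0 := by fun_prop
    exact h.eventually (gt_mem_nhds (by
      beta_reduce
      rw [zero_mul, add_zero]
      linarith))
  have e4 : ∀ᶠ ε : ℝ in 𝓝[>] 0, ((∀ I : Fin m → Fin n, 1 < ∑ a, w (I a) →
      0 < (∑ a, w (I a) - 1) + ε * ∑ a, d (I a)) ∧
      2 * (∑ i, w i * d i) + ε * TS.sq d < 0) ∧ ε ∈ Set.Ioi (0 : ℝ) :=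
    ((e2.and e3).filter_mono nhdsWithin_le_nhds).and self_mem_nhdsWithin
  obtain ⟨ε, ⟨h2, h3⟩, hε⟩ := e4.exists
  have hε' : 0 < ε := hε
  have h1 : TS.sq w ≤ TS.sq fun i => w i + ε * d i := by
    refine h.2.2 b _ h.1 fun I hI => ?_
    rw [Finset.sum_add_distrib, ← Finset.mul_sum]
    rcases (h.2.1 I hI).eq_or_lt with h4 | h4
    · have h5 := mul_nonneg hε'.le (hd I hI h4.symm)
      linarith
    · linarith [h2 I h4]
  have h4 : TS.sq (fun i => w i + ε * d i) =
      TS.sq w + ε * (2 * (∑ i, w i * d i) + ε * TS.sq d) := by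
    unfold TS.sq
    have h5 : ∀ i, (w i + ε * d i) ^ 2 =
        w i ^ 2 + ε * (2 * (w i * d i)) + ε * (ε * d i ^ 2) := by
      intro i
      ring
    rw [Finset.sum_congr rfl fun i _ => h5 i, Finset.sum_add_distrib, Finset.sum_add_distrib,
      ← Finset.mul_sum, ← Finset.mul_sum, ← Finset.mul_sum, ← Finset.mul_sum]
    ring
  rw [h4] at h1
  nlinarith [mul_pos hε' (neg_pos.mpr h3)]

end

section pure

variable {F : Type*} [Field F] [CharZero F] {V Q : Type*} [AddCommGroup V] [Module F V]
  [AddCommGroup Q] [Module F Q] [Module.Finite F V] [Module.Finite F Q] {W : Type*}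
  [AddCommGroup W] [Module F W] {n m : ℕ}

/-- An adapted basis of pure vectors. -/
theorem exists_pure {P : Set (MultilinearMap F (fun _ : Fin m => V × Q) W)}
    {b : Fin n → V × Q} {w : Fin n → ℝ} (hn : Module.finrank F (V × Q) = n) (h : Opt P b w)
    (hT : ∀ s ∈ P, ∀ u : Fin m → V × Q, s (fun a => ((2 : F) • (u a).1, (u a).2)) ≠ 0 →
      ∃ s' ∈ P, s' u ≠ 0) :
    ∃ (c : Fin n → V × Q) (χ : Finset (Fin n)), Opt P c w ∧ (∀ i ∈ χ, (c i).2 = 0) ∧
      ∀ i ∉ χ, (c i).1 = 0 := by
  classical
  have hspan : Submodule.span F (Set.range b) = ⊤ :=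
    h.1.span_eq_top_of_card_eq_finrank' (by rw [Fintype.card_fin, hn])
  let Bb : Module.Basis (Fin n) F (V × Q) := Module.Basis.mk h.1 hspan.ge
  have hBb : (Bb : Fin n → V × Q) = b := Module.Basis.coe_mk _ _
  have h1 : ∀ i, ((b i).1, (0 : Q)) ∈ fl F b w (w i) := by
    intro i
    have h2 := h.invariant hn (RingEquiv.refl F) (fun x => ((2 : F) • x.1, x.2))
      (fun x y => by
        ext1
        · simp
        · simp) (fun a x => by
        ext1
        · exact smul_comm _ _ _
        · rfl) (fun x hx => by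
        have h3 := congrArg Prod.fst hx
        have h4 := congrArg Prod.snd hx
        ext1
        · simpa using h3
        · simpa using h4) hT (w i) (mem_fl b w i)
    have h3 := Submodule.sub_mem _ h2 (mem_fl b w i)
    have h4 : ((2 : F) • (b i).1, (b i).2) - b i = ((b i).1, (0 : Q)) := by
      ext1
      · simp [two_smul]
      · simp
    rw [h4] at h3
    exact h3
  have h2 : ∀ i, ((0 : V), (b i).2) ∈ fl F b w (w i) := by
    intro i
    have h3 := Submodule.sub_mem _ (mem_fl b w i) (h1 i)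
    have h4 : b i - ((b i).1, (0 : Q)) = ((0 : V), (b i).2) := by
      ext1
      · simp
      · simp
    rw [h4] at h3
    exact h3
  have h3 : Bb.det ((fun i => ((b i).1, (0 : Q))) + fun i => ((0 : V), (b i).2)) ≠ 0 := by
    have h4 : ((fun i => ((b i).1, (0 : Q))) + fun i => ((0 : V), (b i).2)) = b := by
      funext i
      ext1
      · simp
      · simp
    rw [h4, ← hBb, Module.Basis.det_self]
    exact one_ne_zero
  have h4 := Bb.det.toMultilinearMap.map_add_univ (fun i => ((b i).1, (0 : Q)))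
    fun i => ((0 : V), (b i).2)
  change Bb.det ((fun i => ((b i).1, (0 : Q))) + fun i => ((0 : V), (b i).2)) = _ at h4
  rw [h4] at h3
  obtain ⟨χ, -, hχ⟩ := Finset.exists_ne_zero_of_sum_ne_zero h3
  set c : Fin n → V × Q := χ.piecewise (fun i => ((b i).1, (0 : Q))) fun i => ((0 : V), (b i).2)
    with hc
  have hci : LinearIndependent F c := by
    have h5 : IsUnit (Bb.det c) := isUnit_iff_ne_zero.mpr hχ
    exact ((Module.Basis.is_basis_iff_det Bb).mpr h5).1
  refine ⟨c, χ, ⟨hci, h.2.1.transfer fun i => ?_, h.2.2⟩, fun i hi => ?_, fun i hi => ?_⟩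
  · by_cases hi : i ∈ χ
    · rw [hc, Finset.piecewise_eq_of_mem _ _ _ hi]
      exact h1 i
    · rw [hc, Finset.piecewise_eq_of_notMem _ _ _ hi]
      exact h2 i
  · rw [hc, Finset.piecewise_eq_of_mem _ _ _ hi]
  · rw [hc, Finset.piecewise_eq_of_notMem _ _ _ hi]

end pure

section tensor

variable {K : Type} [Field K] {V Q : Type} [AddCommGroup V] [Module K V]
  [AddCommGroup Q] [Module K Q] {k' : ℕ}

/-- the values of the tensor of a bilinear map -/
noncomputable def kval (κ : V →ₗ[K] V →ₗ[K] Q) (B : Module.Basis (Fin (k' + 1)) K Q)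
    (u : Fin (k' + 2) → V × Q) : K :=
  B.det (Fin.cons (κ (u 0).1 (u 1).1) fun j : Fin k' => (u j.succ.succ).2 : Fin (k' + 1) → Q)

theorem kval_update (κ : V →ₗ[K] V →ₗ[K] Q) (B : Module.Basis (Fin (k' + 1)) K Q)
    (u : Fin (k' + 2) → V × Q) (i : Fin (k' + 2)) :
    ∃ L : (V × Q) →ₗ[K] K, ∀ z, kval κ B (Function.update u i z) = L z := by
  have h10 : (1 : Fin (k' + 2)) = Fin.succ (0 : Fin (k' + 1)) := rfl
  refine Fin.cases ?_ (fun i => Fin.cases ?_ (fun i => ?_) i) i
  · refine ⟨(B.det.toMultilinearMap.toLinearMap (Fin.cons 0 (fun j : Fin k' =>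
      (u j.succ.succ).2) : Fin (k' + 1) → Q) 0).comp ((κ.flip (u 1).1).comp
        (LinearMap.fst K V Q)), fun z => ?_⟩
    unfold kval
    have h1 : Function.update u 0 z 1 = u 1 := Function.update_of_ne (by
      rw [h10]; exact Fin.succ_ne_zero 0) _ _
    have h2 : (fun j : Fin k' => (Function.update u 0 z j.succ.succ).2) =
        fun j => (u j.succ.succ).2 := by
      funext j
      rw [Function.update_of_ne (Fin.succ_ne_zero _)]
    rw [Function.update_self, h1, h2]
    change _ = B.det (Function.update _ 0 (κ z.1 (u 1).1))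
    rw [Fin.update_cons_zero]
  · refine ⟨(B.det.toMultilinearMap.toLinearMap (Fin.cons 0 (fun j : Fin k' =>
      (u j.succ.succ).2) : Fin (k' + 1) → Q) 0).comp ((κ (u 0).1).comp
        (LinearMap.fst K V Q)), fun z => ?_⟩
    unfold kval
    rw [← h10]
    have h1 : Function.update u 1 z 0 = u 0 := Function.update_of_ne (by
      rw [h10]; exact (Fin.succ_ne_zero 0).symm) _ _
    have h2 : (fun j : Fin k' => (Function.update u 1 z j.succ.succ).2) =
        fun j => (u j.succ.succ).2 := by
      funext j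
      rw [Function.update_of_ne]
      rw [h10]
      intro h
      exact Fin.succ_ne_zero _ (Fin.succ_injective _ h)
    rw [Function.update_self, h1, h2]
    change _ = B.det (Function.update _ 0 (κ (u 0).1 z.1))
    rw [Fin.update_cons_zero]
  · refine ⟨(B.det.toMultilinearMap.toLinearMap (Fin.cons (κ (u 0).1 (u 1).1)
      (fun j : Fin k' => (u j.succ.succ).2) : Fin (k' + 1) → Q) i.succ).comp
        (LinearMap.snd K V Q), fun z => ?_⟩
    unfold kval
    have h0 : Function.update u i.succ.succ z 0 = u 0 :=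
      Function.update_of_ne (Fin.succ_ne_zero _).symm _ _
    have h1 : Function.update u i.succ.succ z 1 = u 1 := by
      rw [Function.update_of_ne]
      rw [h10]
      intro h
      exact Fin.succ_ne_zero _ (Fin.succ_injective _ h.symm)
    have h2 : (fun j : Fin k' => (Function.update u i.succ.succ z j.succ.succ).2) =
        Function.update (fun j => (u j.succ.succ).2) i z.2 := by
      funext j
      by_cases hj : j = i
      · subst hj
        simp
      · rw [Function.update_of_ne hj, Function.update_of_ne]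
        intro h
        exact hj (Fin.succ_injective _ (Fin.succ_injective _ h))
    rw [h0, h1, h2, Fin.cons_update]
    rfl

/-- The tensor of a bilinear map. -/
noncomputable def kten0 (κ : V →ₗ[K] V →ₗ[K] Q) (B : Module.Basis (Fin (k' + 1)) K Q) :
    MultilinearMap K (fun _ : Fin (k' + 2) => V × Q) K where
  toFun := kval κ B
  map_update_add' {inst} u i x y := by
    have hinst : inst = instDecidableEqFin (k' + 2) := Subsingleton.elim _ _
    subst hinst
    obtain ⟨L, hL⟩ := kval_update κ B u i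
    rw [hL, hL, hL, map_add]
  map_update_smul' {inst} u i a x := by
    have hinst : inst = instDecidableEqFin (k' + 2) := Subsingleton.elim _ _
    subst hinst
    obtain ⟨L, hL⟩ := kval_update κ B u i
    rw [hL, hL, map_smul]

/-- The tensor of a bilinear map, as a multivalued tensor. -/
noncomputable def kten (F : Type) [Field F] [Algebra K F] (κ : V →ₗ[K] V →ₗ[K] Q)
    (B : Module.Basis (Fin (k' + 1)) K Q) :
    MultilinearMap K (fun _ : Fin (k' + 2) => V × Q) F :=
  (Algebra.linearMap K F).compMultilinearMap (kten0 κ B)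

theorem kten_apply (F : Type) [Field F] [Algebra K F] (κ : V →ₗ[K] V →ₗ[K] Q)
    (B : Module.Basis (Fin (k' + 1)) K Q) (u : Fin (k' + 2) → V × Q) :
    kten F κ B u = algebraMap K F (kval κ B u) := rfl

theorem kten_ne {F : Type} [Field F] [Algebra K F] {κ : V →ₗ[K] V →ₗ[K] Q}
    {B : Module.Basis (Fin (k' + 1)) K Q} {u : Fin (k' + 2) → V × Q} :
    kten F κ B u ≠ 0 ↔ kval κ B u ≠ 0 := by
  rw [kten_apply]
  exact map_ne_zero (algebraMap K F)

end tensor

end Pool.Agent.Zk28.TF
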