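import Pool.Agent.Zk28.TF.Levi

/-!
The optimal flag of the tensor of a bilinear map `V × V → Q`: numerical properties.
-/

set_option autoImplicit false
set_option linter.unusedSectionVars false

open FF Pool.Agent.W602.GT

namespace Pool.Agent.Zk28.TF

open Pool.Agent.Zk28.TS

section

variable {K : Type} [Field K] {V Q : Type} [AddCommGroup V] [Module K V]
  [AddCommGroup Q] [Module K Q] {k' : ℕ}

/-- A nonzero vector is a member of a basis. -/
theorem exists_det_cons (B : Module.Basis (Fin (k' + 1)) K Q) {q : Q} (hq : q ≠ 0) :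
    ∃ z : Fin k' → Q, B.det (Fin.cons q z : Fin (k' + 1) → Q) ≠ 0 := by
  classical
  obtain ⟨j0, hj0⟩ : ∃ j, B.repr q j ≠ 0 := by
    by_contra hno
    push Not at hno
    apply hq
    rw [← B.sum_repr q]
    exact Finset.sum_eq_zero fun j _ => by rw [hno j, zero_smul]
  have h1 : B.det (Function.update B j0 q) = B.repr q j0 := by
    have h2 : B.det (Function.update B j0 q) =
        B.det.toMultilinearMap.toLinearMap B j0 q := rfl
    rw [h2]
    conv_lhs => rw [← B.sum_repr q]
    rw [map_sum, Finset.sum_eq_single j0]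
    · rw [map_smul]
      change _ • B.det (Function.update B j0 (B j0)) = _
      rw [Function.update_eq_self, B.det_self, smul_eq_mul, mul_one]
    · intro j _ hj
      rw [map_smul]
      change _ • B.det (Function.update B j0 (B j)) = _
      rw [B.det.map_eq_zero_of_eq (i := j) (j := j0) _ (by
        rw [Function.update_self, Function.update_of_ne hj]) hj, smul_zero]
    · intro h
      exact absurd (Finset.mem_univ _) h
  let v : Fin (k' + 1) → Q := fun i => Function.update B j0 q (Equiv.swap 0 j0 i)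
  have h2 : B.det v ≠ 0 := by
    have h3 : B.det v = Equiv.Perm.sign (Equiv.swap 0 j0) • B.det (Function.update B j0 q) :=
      AlternatingMap.map_perm B.det (Function.update B j0 q) (Equiv.swap 0 j0)
    rw [h3, h1]
    rcases Int.units_eq_one_or (Equiv.Perm.sign (Equiv.swap 0 j0)) with h | h
    · rw [h, one_smul]; exact hj0
    · rw [h, Units.neg_smul, one_smul]; exact neg_ne_zero.mpr hj0
  refine ⟨Fin.tail v, ?_⟩
  have h3 : q = v 0 := by
    simp only [v]
    rw [Equiv.swap_apply_left, Function.update_self]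
  rw [h3, Fin.cons_self_tail]
  exact h2

theorem kten_ne_zero (F : Type) [Field F] [Algebra K F] {κ : V →ₗ[K] V →ₗ[K] Q}
    (B : Module.Basis (Fin (k' + 1)) K Q) (hκ : κ ≠ 0) : kten F κ B ≠ 0 := by
  obtain ⟨x, hx⟩ : ∃ x, κ x ≠ 0 := by
    by_contra hno
    push Not at hno
    exact hκ (LinearMap.ext fun x => by rw [hno x]; rfl)
  obtain ⟨y, hy⟩ : ∃ y, κ x y ≠ 0 := by
    by_contra hno
    push Not at hno
    exact hx (LinearMap.ext fun y => by rw [hno y]; rfl)
  obtain ⟨z, hz⟩ := exists_det_cons B hy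
  intro h0
  have h1 : kval κ B (Fin.cons (x, 0) (Fin.cons (y, 0) fun j => (0, z j))) ≠ 0 := hz
  rw [← kten_ne (F := F), h0] at h1
  exact h1 rfl

theorem kval_two (κ : V →ₗ[K] V →ₗ[K] Q) (B : Module.Basis (Fin (k' + 1)) K Q)
    (u : Fin (k' + 2) → V × Q) :
    kval κ B (fun a => ((2 : K) • (u a).1, (u a).2)) = 4 * kval κ B u := by
  unfold kval
  have h1 : ∀ z : Q, (Fin.cons z (fun j : Fin k' => (u j.succ.succ).2) : Fin (k' + 1) → Q) =
      Function.update (Fin.cons 0 (fun j : Fin k' => (u j.succ.succ).2) :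
        Fin (k' + 1) → Q) 0 z := fun z => by rw [Fin.update_cons_zero]
  have h2 : κ ((2 : K) • (u 0).1) ((2 : K) • (u 1).1) = (4 : K) • κ (u 0).1 (u 1).1 := by
    rw [map_smul, map_smul, LinearMap.smul_apply, smul_smul]
    norm_num
  change B.det (Fin.cons (κ ((2 : K) • (u 0).1) ((2 : K) • (u 1).1))
    (fun j : Fin k' => (u j.succ.succ).2) : Fin (k' + 1) → Q) = _
  rw [h2, h1, AlternatingMap.map_update_smul, ← h1, smul_eq_mul]

/-- symmetries -/
theorem kval_symm (κ : V →ₗ[K] V →ₗ[K] Q) (B : Module.Basis (Fin (k' + 1)) K Q)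
    (σ : K ≃+* K) (φV : V → V) (φQ : Q → Q) (hadd : ∀ x y, φQ (x + y) = φQ x + φQ y)
    (hsmul : ∀ (a : K) x, φQ (a • x) = σ a • φQ x)
    (hκ : ∀ x y, κ (φV x) (φV y) = φQ (κ x y)) (u : Fin (k' + 2) → V × Q)
    (h : kval κ B (fun a => (φV (u a).1, φQ (u a).2)) ≠ 0) : kval κ B u ≠ 0 := by
  classical
  unfold kval at h ⊢
  set v : Fin (k' + 1) → Q := Fin.cons (κ (u 0).1 (u 1).1) fun j : Fin k' => (u j.succ.succ).2
    with hv
  have h1 : (Fin.cons (κ (φV (u 0).1) (φV (u 1).1)) fun j : Fin k' => φQ (u j.succ.succ).2 :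
      Fin (k' + 1) → Q) = fun i => φQ (v i) := by
    funext i
    refine Fin.cases ?_ (fun i => ?_) i
    · rw [Fin.cons_zero, hκ, hv, Fin.cons_zero]
    · rw [Fin.cons_succ, hv, Fin.cons_succ]
  have h2 : B.det (fun i => φQ (v i)) ≠ 0 := by rw [← h1]; exact h
  have h3 := ((Module.Basis.is_basis_iff_det B).mpr (isUnit_iff_ne_zero.mpr h2)).1
  have h0 : φQ 0 = 0 := by
    have := hsmul 0 0
    rwa [zero_smul, map_zero, zero_smul] at this
  have hsum : ∀ (c : Fin (k' + 1) → K) (A : Finset (Fin (k' + 1))),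
      φQ (∑ i ∈ A, c i • v i) = ∑ i ∈ A, σ (c i) • φQ (v i) := by
    intro c A
    induction A using Finset.induction_on with
    | empty => simpa using h0
    | insert i A hi ih => rw [Finset.sum_insert hi, Finset.sum_insert hi, hadd, hsmul, ih]
  have hfin : Module.Finite K Q := Module.Finite.of_basis B
  have h4 : LinearIndependent K v := by
    rw [Fintype.linearIndependent_iff] at h3 ⊢
    intro g hg i
    have h5 := h3 (fun i => σ (g i)) (by rw [← hsum, hg, h0]) i
    exact (map_eq_zero_iff σ σ.injective).mp h5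
  have h5 : Submodule.span K (Set.range v) = ⊤ :=
    h4.span_eq_top_of_card_eq_finrank' (by
      rw [Fintype.card_fin, Module.finrank_eq_card_basis B, Fintype.card_fin])
  exact ((Module.Basis.is_basis_iff_det B).mp ⟨h4, h5⟩).ne_zero

/-- the nonzero values -/
theorem kval_active {κ : V →ₗ[K] V →ₗ[K] Q} {B : Module.Basis (Fin (k' + 1)) K Q}
    {ι : Type*} {c : ι → V × Q} {χ : Set ι} (h1 : ∀ i ∈ χ, (c i).2 = 0)
    (h2 : ∀ i ∉ χ, (c i).1 = 0) {I : Fin (k' + 2) → ι} (h : kval κ B (fun a => c (I a)) ≠ 0) :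
    I 0 ∈ χ ∧ I 1 ∈ χ ∧ (∀ a : Fin k', I a.succ.succ ∉ χ) ∧
      Function.Injective fun a : Fin k' => I a.succ.succ := by
  unfold kval at h
  refine ⟨?_, ?_, fun a ha => h ?_, fun a a' haa' => ?_⟩
  · by_contra hno
    apply h
    refine B.det.map_coord_zero 0 ?_
    rw [Fin.cons_zero, h2 _ hno, map_zero]
    rfl
  · by_contra hno
    apply h
    refine B.det.map_coord_zero 0 ?_
    rw [Fin.cons_zero, h2 _ hno, map_zero]
  · refine B.det.map_coord_zero a.succ ?_
    rw [Fin.cons_succ]
    exact h1 _ ha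
  · by_contra hne
    apply h
    refine B.det.map_eq_zero_of_eq (i := a.succ) (j := a'.succ) _ ?_ fun h => hne
      (Fin.succ_injective _ h)
    rw [Fin.cons_succ, Fin.cons_succ]
    have : I a.succ.succ = I a'.succ.succ := haa'
    beta_reduce
    rw [this]

end

section numbers

variable {K : Type} [Field K] {V Q : Type} [AddCommGroup V] [Module K V]
  [AddCommGroup Q] [Module K Q] {k' n : ℕ} {F : Type} [Field F] [Algebra K F]

theorem sum_two {M : Type*} [AddCommMonoid M] (f : Fin (k' + 2) → M) :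
    ∑ a, f a = f 0 + (f 1 + ∑ a : Fin k', f a.succ.succ) := by
  rw [Fin.sum_univ_succ, Fin.sum_univ_succ]
  rfl

/-- Numerical properties of the optimal weights. -/
theorem levi_numbers {κ : V →ₗ[K] V →ₗ[K] Q} {B : Module.Basis (Fin (k' + 1)) K Q}
    {c : Fin n → V × Q} {w : Fin n → ℝ} (h : Opt {kten F κ B} c w) {χ : Finset (Fin n)}
    (h1 : ∀ i ∈ χ, (c i).2 = 0) (h2 : ∀ i ∉ χ, (c i).1 = 0) :
    (∑ i ∈ χ, w i = 2 * TS.sq w) ∧ ∀ i ∉ χ, w i ≤ TS.sq w := by
  classical
  have hact : ∀ I ∈ supp {kten F κ B} c, I 0 ∈ χ ∧ I 1 ∈ χ ∧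
      (∀ a : Fin k', I a.succ.succ ∉ χ) ∧ Function.Injective fun a : Fin k' => I a.succ.succ := by
    rintro I ⟨s, hs, hI⟩
    rw [Set.mem_singleton_iff] at hs
    subst hs
    rw [kten_ne] at hI
    exact kval_active (χ := (χ : Set (Fin n))) h1 h2 hI
  constructor
  · have h3 := h.perturb (fun i => (if i ∈ χ then 1 else 0) - 2 * w i) fun I hI hI1 => by
      obtain ⟨a0, a1, a2, -⟩ := hact I hI
      rw [Finset.sum_sub_distrib, ← Finset.mul_sum, hI1, sum_two, if_pos a0, if_pos a1,
        Finset.sum_eq_zero fun a _ => if_neg (a2 a)]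
      norm_num
    have h4 : ∑ i, w i * ((if i ∈ χ then 1 else 0) - 2 * w i) =
        ∑ i ∈ χ, w i - 2 * TS.sq w := by
      unfold TS.sq
      have h5 : ∀ i, w i * ((if i ∈ χ then 1 else 0) - 2 * w i) =
          (if i ∈ χ then w i else 0) - 2 * w i ^ 2 := by
        intro i
        split_ifs <;> ring
      rw [Finset.sum_congr rfl fun i _ => h5 i, Finset.sum_sub_distrib, ← Finset.mul_sum]
      congr 1
      rw [← Finset.sum_filter]
      congr 1
      ext i
      simp
    linarith
  · intro i0 hi0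
    have h3 := Opt.perturb_ge h (fun i => w i - (if i = i0 then 1 else 0)) fun I hI hI1 => by
      obtain ⟨a0, a1, a2, a3⟩ := hact I hI
      rw [Finset.sum_sub_distrib, hI1, sum_two, if_neg (fun h : I 0 = i0 => hi0 (h ▸ a0)),
        if_neg (fun h : I 1 = i0 => hi0 (h ▸ a1)), zero_add, zero_add]
      have h5 : ∑ a : Fin k', (if I a.succ.succ = i0 then (1 : ℝ) else 0) ≤ 1 := by
        rw [Finset.sum_ite, Finset.sum_const_zero, add_zero, Finset.sum_const, nsmul_eq_mul,
          mul_one]
        have h6 : (Finset.univ.filter fun a : Fin k' => I a.succ.succ = i0).card ≤ 1 := by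
          rw [Finset.card_le_one]
          intro a ha a' ha'
          exact a3 ((Finset.mem_filter.mp ha).2.trans (Finset.mem_filter.mp ha').2.symm)
        exact_mod_cast h6
      linarith
    have h4 : ∑ i, w i * (w i - (if i = i0 then 1 else 0)) = TS.sq w - w i0 := by
      unfold TS.sq
      have h5 : ∀ i, w i * (w i - (if i = i0 then 1 else 0)) =
          w i ^ 2 - (if i = i0 then w i else 0) := by
        intro i
        split_ifs <;> ring
      rw [Finset.sum_congr rfl fun i _ => h5 i, Finset.sum_sub_distrib,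
        Finset.sum_ite_eq' Finset.univ i0, if_pos (Finset.mem_univ _)]
    linarith

end numbers

end Pool.Agent.Zk28.TF
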