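import Pool.Agent.Zk28.TF.Levi2

/-!
The optimal flag of the tensor of a bilinear map `V × V → Q`: flag form.
-/

set_option autoImplicit false
set_option linter.unusedSectionVars false

open FF Pool.Agent.W602.GT

namespace Pool.Agent.Zk28.TF

open Pool.Agent.Zk28.TS

/-- the flag of a tuple with integral weights -/
def ifl (K : Type) [Field K] {V : Type} [AddCommGroup V] [Module K V] {r : ℕ} (c : Fin r → V)
    (ν : Fin r → ℕ) (t : ℕ) : Submodule K V := Submodule.span K (c '' {i | ν i ≤ t})

theorem levi_core {K : Type} [Field K] [Algebra ℂ K] {V Q : Type} [AddCommGroup V] [Module K V]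
    [AddCommGroup Q] [Module K Q] [Module.Finite K V] [Module.Finite K Q] {r k' : ℕ}
    (hr : Module.finrank K V = r) (κ : V →ₗ[K] V →ₗ[K] Q) (B : Module.Basis (Fin (k' + 1)) K Q)
    (hκ : κ ≠ 0) :
    ∃ (cV : Fin r → V) (cQ : Fin (k' + 1) → Q) (νV : Fin r → ℕ) (νQ : Fin (k' + 1) → ℕ)
      (R : ℕ) (c : K), LinearIndependent K cV ∧ LinearIndependent K cQ ∧ Monotone νV ∧
      Monotone νQ ∧ 0 < R ∧ c ≠ 0 ∧ ∑ i, νV i = 2 * R ∧ (∀ j, νQ j ≤ R) ∧ ∑ j, νQ j = R * k' ∧
      (∀ (σ : K ≃+* K) (φV : V → V) (φQ : Q → Q), (∀ x y, φV (x + y) = φV x + φV y) →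
        (∀ (a : K) x, φV (a • x) = σ a • φV x) → (∀ x, φV x = 0 → x = 0) →
        (∀ x y, φQ (x + y) = φQ x + φQ y) → (∀ (a : K) x, φQ (a • x) = σ a • φQ x) →
        (∀ x, φQ x = 0 → x = 0) → (∀ x y, κ (φV x) (φV y) = φQ (κ x y)) →
        (∀ (t : ℕ), ∀ x ∈ ifl K cV νV t, φV x ∈ ifl K cV νV t) ∧
        ∀ (t : ℕ), ∀ x ∈ ifl K cQ νQ t, φQ x ∈ ifl K cQ νQ t) ∧
      ∀ (P : Place ℂ K) (AV : Fin r → Fin r → K) (AQ : Fin (k' + 1) → Fin (k' + 1) → K)
        (ηV : Fin r → ℝ) (ηQ : Fin (k' + 1) → ℝ) (β : ℝ),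
        (∀ i j, i < j → AV i j = 0) → (∀ i j, i < j → AQ i j = 0) →
        (Matrix.of AV).det ≠ 0 → (Matrix.of AQ).det ≠ 0 →
        (∀ (i i' : Fin r) (J : Fin k' → Fin (k' + 1)), Function.Injective J →
          GR P (ηV i + (ηV i' + ∑ a, ηQ (J a)) - β)
            (B.det (Fin.cons (κ (∑ j, AV i j • cV j) (∑ j, AV i' j • cV j))
              fun a => ∑ j, AQ (J a) j • cQ j : Fin (k' + 1) → Q))) →
        GR P (∑ i, νV i * ηV i + ∑ j, νQ j * ηQ j - R * β)
          (c * ((∏ i, AV i i ^ νV i) * ∏ j, AQ j j ^ νQ j)) := by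
  classical
  have hcK : CharZero K := charZero_of_injective_algebraMap (algebraMap ℂ K).injective
  set F := AlgebraicClosure K with hFdef
  have hk : Module.finrank K Q = k' + 1 := by
    rw [Module.finrank_eq_card_basis B, Fintype.card_fin]
  obtain ⟨N, hN⟩ : ∃ N, N = Module.finrank K (V × Q) := ⟨_, rfl⟩
  obtain ⟨b', w', hopt'⟩ : ∃ (b' : Fin N → V × Q) (w' : Fin N → ℝ),
      Opt ({kten F κ B} : Set (MultilinearMap K (fun _ : Fin (k' + 2) => V × Q) F)) b' w' := by
    subst hN
    exact exists_opt (by omega) _ (Module.finBasis K (V × Q)).linearIndependent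
  have hN' : N = r + (k' + 1) := by rw [hN, Module.finrank_prod, hr, hk]
  let π : Equiv.Perm (Fin N) := Tuple.sort w'
  set w : Fin N → ℝ := w' ∘ π with hw
  have hmono : Monotone w := Tuple.monotone_sort w'
  obtain ⟨c0, χ, hopt, hχ1, hχ2⟩ := exists_pure (b := b' ∘ π) (w := w) hN.symm
    (Opt.permG hopt' π) (by
      intro s hs u hu
      rw [Set.mem_singleton_iff] at hs
      subst hs
      refine ⟨_, rfl, ?_⟩
      rw [kten_ne, kval_two] at hu
      rw [kten_ne]
      exact right_ne_zero_of_mul hu)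
  have hspan : Submodule.span K (Set.range c0) = ⊤ :=
    hopt.1.span_eq_top_of_card_eq_finrank' (by rw [Fintype.card_fin, hN])
  have hgal : ∀ (σ : F ≃ₐ[K] F), ∀ s ∈ ({kten F κ B} : Set (MultilinearMap K
      (fun _ : Fin (k' + 2) => V × Q) F)), σ.toLinearMap.compMultilinearMap s ∈
        ({kten F κ B} : Set (MultilinearMap K (fun _ : Fin (k' + 2) => V × Q) F)) := by
    intro σ s hs
    rw [Set.mem_singleton_iff] at hs ⊢
    subst hs
    ext u
    exact σ.commutes _
  obtain ⟨ρ, ν, R, c, hρ0, hR, hc0, hνw, hsumν, hcore⟩ := core (by omega) hgal hopt hmono hspan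
    ⟨_, rfl, kten_ne_zero F B hκ⟩
  have hνmono : Monotone ν := by
    intro i j hij
    have h1 : (ν i : ℝ) ≤ ν j := by
      rw [hνw, hνw]
      exact mul_le_mul_of_nonneg_left (hmono hij) hρ0.le
    exact_mod_cast h1
  obtain ⟨hsumχ, hleχ⟩ := levi_numbers hopt hχ1 hχ2
  have hRsq : (R : ℝ) = ρ * TS.sq w := by
    have h1 := hopt.sum
    have h2 : ((∑ i, ν i : ℕ) : ℝ) = ρ * ∑ i, w i := by
      push_cast
      rw [Finset.mul_sum]
      exact Finset.sum_congr rfl fun i _ => hνw i
    rw [h1, hsumν] at h2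
    have h3 : (((k' + 2 : ℕ)) : ℝ) ≠ 0 := by positivity
    have h4 : (R : ℝ) * ((k' + 2 : ℕ) : ℝ) = (ρ * TS.sq w) * ((k' + 2 : ℕ) : ℝ) := by
      rw [h2]
      ring
    exact mul_right_cancel₀ h3 h4
  -- the types
  have hcardV : χ.card ≤ r := by
    have h1 : LinearIndependent K (fun i : χ => (c0 i).1) := by
      refine LinearIndependent.of_comp (LinearMap.inl K V Q) ?_
      have h2 : (LinearMap.inl K V Q : V → V × Q) ∘ (fun i : χ => (c0 i).1) =
          fun i : χ => c0 i := by
        funext i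
        ext1
        · rfl
        · exact (hχ1 i i.2).symm
      rw [h2]
      exact hopt.1.comp _ Subtype.val_injective
    have h2 := h1.fintype_card_le_finrank
    rw [Fintype.card_coe, hr] at h2
    exact h2
  have hcardQ : χᶜ.card ≤ k' + 1 := by
    have h1 : LinearIndependent K (fun i : (χᶜ : Finset (Fin N)) => (c0 i).2) := by
      refine LinearIndependent.of_comp (LinearMap.inr K V Q) ?_
      have h2 : (LinearMap.inr K V Q : Q → V × Q) ∘
          (fun i : (χᶜ : Finset (Fin N)) => (c0 i).2) =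
            fun i : (χᶜ : Finset (Fin N)) => c0 (i : Fin N) := by
        funext i
        ext1
        · exact (hχ2 i (Finset.mem_compl.mp i.2)).symm
        · rfl
      rw [h2]
      exact hopt.1.comp _ Subtype.val_injective
    have h2 := h1.fintype_card_le_finrank
    rw [Fintype.card_coe, hk] at h2
    exact h2
  have hcard : χ.card + χᶜ.card = N := by rw [Finset.card_add_card_compl, Fintype.card_fin]
  have hcV : χ.card = r := by omega
  have hcQ : χᶜ.card = k' + 1 := by omega
  let e : Fin r ⊕ Fin (k' + 1) ≃ Fin N := finSumEquivOfFinset hcV hcQ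
  have heV : ∀ i, e (Sum.inl i) ∈ χ := fun i => by
    change finSumEquivOfFinset hcV hcQ (Sum.inl i) ∈ χ
    rw [finSumEquivOfFinset_inl]
    exact Finset.orderEmbOfFin_mem _ _ _
  have heQ : ∀ i, e (Sum.inr i) ∉ χ := fun i => by
    change finSumEquivOfFinset hcV hcQ (Sum.inr i) ∉ χ
    rw [finSumEquivOfFinset_inr, ← Finset.mem_compl]
    exact Finset.orderEmbOfFin_mem _ _ _
  have hmV : StrictMono fun i => e (Sum.inl i) := by
    intro i j hij
    change finSumEquivOfFinset hcV hcQ (Sum.inl i) < finSumEquivOfFinset hcV hcQ (Sum.inl j)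
    rw [finSumEquivOfFinset_inl, finSumEquivOfFinset_inl]
    exact (Finset.orderEmbOfFin _ _).strictMono hij
  have hmQ : StrictMono fun i => e (Sum.inr i) := by
    intro i j hij
    change finSumEquivOfFinset hcV hcQ (Sum.inr i) < finSumEquivOfFinset hcV hcQ (Sum.inr j)
    rw [finSumEquivOfFinset_inr, finSumEquivOfFinset_inr]
    exact (Finset.orderEmbOfFin _ _).strictMono hij
  let cV : Fin r → V := fun i => (c0 (e (Sum.inl i))).1
  let cQ : Fin (k' + 1) → Q := fun i => (c0 (e (Sum.inr i))).2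
  have hc0V : ∀ i, c0 (e (Sum.inl i)) = (cV i, 0) := fun i => by
    ext1
    · rfl
    · exact hχ1 _ (heV i)
  have hc0Q : ∀ i, c0 (e (Sum.inr i)) = (0, cQ i) := fun i => by
    ext1
    · exact hχ2 _ (heQ i)
    · rfl
  let νV : Fin r → ℕ := fun i => ν (e (Sum.inl i))
  let νQ : Fin (k' + 1) → ℕ := fun i => ν (e (Sum.inr i))
  have hsumV : ∑ i, νV i = 2 * R := by
    have h1 : ((∑ i, νV i : ℕ) : ℝ) = ((2 * R : ℕ) : ℝ) := by
      push_cast
      have h2 : ∑ i, (νV i : ℝ) = ρ * ∑ i ∈ χ, w i := by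
        have h3 : ∑ i ∈ χ, w i = ∑ i, if i ∈ χ then w i else 0 := by
          rw [← Finset.sum_filter]
          congr 1
          ext i
          simp
        rw [h3, ← Equiv.sum_comp e, Fintype.sum_sum_type]
        have h4 : ∑ i, (if e (Sum.inr i) ∈ χ then w (e (Sum.inr i)) else 0) = 0 :=
          Finset.sum_eq_zero fun i _ => if_neg (heQ i)
        rw [h4, add_zero, Finset.mul_sum]
        refine Finset.sum_congr rfl fun i _ => ?_
        rw [if_pos (heV i)]
        exact hνw _
      rw [h2, hsumχ, hRsq]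
      ring
    exact_mod_cast h1
  have hleQ : ∀ j, νQ j ≤ R := by
    intro j
    have h1 : (νQ j : ℝ) ≤ R := by
      rw [hRsq]
      change (ν (e (Sum.inr j)) : ℝ) ≤ _
      rw [hνw]
      exact mul_le_mul_of_nonneg_left (hleχ _ (heQ j)) hρ0.le
    exact_mod_cast h1
  have hsumQ : ∑ j, νQ j = R * k' := by
    have h1 : ∑ i, ν i = ∑ i, νV i + ∑ j, νQ j := by
      rw [← Equiv.sum_comp e, Fintype.sum_sum_type]
    have h2 : ∑ i, ν i = R * (k' + 2) := by exact_mod_cast hsumν
    rw [h1, hsumV] at h2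
    have h3 : R * (k' + 2) = 2 * R + R * k' := by ring
    omega
  refine ⟨cV, cQ, νV, νQ, R, c, ?_, ?_, fun i j hij => hνmono (hmV.monotone hij),
    fun i j hij => hνmono (hmQ.monotone hij), hR, hc0, hsumV, hleQ, hsumQ, ?_, ?_⟩
  · refine LinearIndependent.of_comp (LinearMap.inl K V Q) ?_
    have h2 : (LinearMap.inl K V Q : V → V × Q) ∘ cV = fun i => c0 (e (Sum.inl i)) := by
      funext i
      exact (hc0V i).symm
    rw [h2]
    exact hopt.1.comp _ hmV.injective
  · refine LinearIndependent.of_comp (LinearMap.inr K V Q) ?_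
    have h2 : (LinearMap.inr K V Q : Q → V × Q) ∘ cQ = fun i => c0 (e (Sum.inr i)) := by
      funext i
      exact (hc0Q i).symm
    rw [h2]
    exact hopt.1.comp _ hmQ.injective
  · intro σ φV φQ haV hsV hiV haQ hsQ hiQ hκφ
    have hV0 : φV 0 = 0 := by
      have := hsV 0 0
      rwa [zero_smul, map_zero, zero_smul] at this
    have hQ0 : φQ 0 = 0 := by
      have := hsQ 0 0
      rwa [zero_smul, map_zero, zero_smul] at this
    have hinv : ∀ (t : ℝ) (x : V × Q), x ∈ fl K c0 w t → (φV x.1, φQ x.2) ∈ fl K c0 w t := by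
      intro t x hx
      refine hopt.invariant hN.symm σ (fun x : V × Q => (φV x.1, φQ x.2)) (fun x y => ?_)
        (fun a x => ?_) (fun x hx => ?_) ?_ t hx
      · change (φV (x.1 + y.1), φQ (x.2 + y.2)) = _
        rw [haV, haQ]
        rfl
      · change (φV (a • x.1), φQ (a • x.2)) = _
        rw [hsV, hsQ]
        rfl
      · ext1
        · exact hiV _ (congrArg Prod.fst hx)
        · exact hiQ _ (congrArg Prod.snd hx)
      · intro s hs u hu
        rw [Set.mem_singleton_iff] at hs
        subst hs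
        refine ⟨_, rfl, ?_⟩
        rw [kten_ne] at hu ⊢
        exact kval_symm κ B σ φV φQ haQ hsQ hκφ u hu
    have hwle : ∀ (t : ℕ) i, w i ≤ t / ρ ↔ ν i ≤ t := by
      intro t i
      rw [le_div_iff₀ hρ0, mul_comm, ← hνw]
      exact Nat.cast_le
    constructor
    · intro t x hx
      have h1 : (x, (0 : Q)) ∈ fl K c0 w (t / ρ) := by
        have h2 : (ifl K cV νV t).map (LinearMap.inl K V Q) ≤ fl K c0 w (t / ρ) := by
          unfold ifl
          rw [Submodule.map_span, Submodule.span_le]
          rintro _ ⟨_, ⟨i, hi, rfl⟩, rfl⟩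
          refine Submodule.subset_span ⟨e (Sum.inl i), (hwle t _).mpr hi, ?_⟩
          exact hc0V i
        exact h2 ⟨x, hx, rfl⟩
      have h3 := hinv _ _ h1
      have h4 : (fl K c0 w (t / ρ)).map (LinearMap.fst K V Q) ≤ ifl K cV νV t := by
        unfold fl
        rw [Submodule.map_span, Submodule.span_le]
        rintro _ ⟨_, ⟨i, hi, rfl⟩, rfl⟩
        obtain ⟨y, rfl⟩ := e.surjective i
        rcases y with i | i
        · rw [hc0V]
          exact Submodule.subset_span ⟨i, (hwle t _).mp hi, rfl⟩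
        · rw [hc0Q]
          exact Submodule.zero_mem _
      exact h4 ⟨_, h3, rfl⟩
    · intro t x hx
      have h1 : ((0 : V), x) ∈ fl K c0 w (t / ρ) := by
        have h2 : (ifl K cQ νQ t).map (LinearMap.inr K V Q) ≤ fl K c0 w (t / ρ) := by
          unfold ifl
          rw [Submodule.map_span, Submodule.span_le]
          rintro _ ⟨_, ⟨i, hi, rfl⟩, rfl⟩
          refine Submodule.subset_span ⟨e (Sum.inr i), (hwle t _).mpr hi, ?_⟩
          exact hc0Q i
        exact h2 ⟨x, hx, rfl⟩
      have h3 := hinv _ _ h1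
      have h4 : (fl K c0 w (t / ρ)).map (LinearMap.snd K V Q) ≤ ifl K cQ νQ t := by
        unfold fl
        rw [Submodule.map_span, Submodule.span_le]
        rintro _ ⟨_, ⟨i, hi, rfl⟩, rfl⟩
        obtain ⟨y, rfl⟩ := e.surjective i
        rcases y with i | i
        · rw [hc0V]
          exact Submodule.zero_mem _
        · rw [hc0Q]
          exact Submodule.subset_span ⟨i, (hwle t _).mp hi, rfl⟩
      exact h4 ⟨_, h3, rfl⟩
  · intro P AV AQ ηV ηQ β hAV hAQ hdV hdQ hord
    let A : Fin N → Fin N → K := fun i j =>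
      Matrix.fromBlocks (Matrix.of AV) 0 0 (Matrix.of AQ) (e.symm i) (e.symm j)
    let η : Fin N → ℝ := fun i => Sum.elim ηV ηQ (e.symm i)
    have hAe : ∀ x y, A (e x) (e y) = Matrix.fromBlocks (Matrix.of AV) 0 0 (Matrix.of AQ) x y := by
      intro x y
      simp only [A, Equiv.symm_apply_apply]
    have hηe : ∀ x, η (e x) = Sum.elim ηV ηQ x := fun x => by
      simp only [η, Equiv.symm_apply_apply]
    have hfr : ∀ x, ∑ j, A (e x) j • c0 j =
        Sum.elim (fun i => (∑ j, AV i j • cV j, (0 : Q)))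
          (fun i => ((0 : V), ∑ j, AQ i j • cQ j)) x := by
      intro x
      rw [← Equiv.sum_comp e, Fintype.sum_sum_type]
      simp only [hAe, hc0V, hc0Q]
      rcases x with i | i
      · simp only [Matrix.fromBlocks_apply₁₁, Matrix.fromBlocks_apply₁₂, Matrix.zero_apply,
          zero_smul, Finset.sum_const_zero, add_zero, Sum.elim_inl, Matrix.of_apply]
        ext1
        · rw [Prod.fst_sum]
          rfl
        · rw [Prod.snd_sum]
          simp
      · simp only [Matrix.fromBlocks_apply₂₁, Matrix.fromBlocks_apply₂₂, Matrix.zero_apply,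
          zero_smul, Finset.sum_const_zero, zero_add, Sum.elim_inr, Matrix.of_apply]
        ext1
        · rw [Prod.fst_sum]
          simp
        · rw [Prod.snd_sum]
          rfl
    have h1 := hcore P A η β (by
      intro i j hij
      obtain ⟨x, rfl⟩ := e.surjective i
      obtain ⟨y, rfl⟩ := e.surjective j
      rw [hAe]
      rcases x with i | i <;> rcases y with j | j
      · exact hAV i j (hmV.lt_iff_lt.mp hij)
      · rfl
      · rfl
      · exact hAQ i j (hmQ.lt_iff_lt.mp hij)) (by
      have h2 : Matrix.of A = (Matrix.fromBlocks (Matrix.of AV) 0 0 (Matrix.of AQ)).submatrix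
          e.symm e.symm := rfl
      rw [h2, Matrix.det_submatrix_equiv_self, Matrix.det_fromBlocks_zero₁₂]
      exact mul_ne_zero hdV hdQ) (by
      intro s hs J
      rw [Set.mem_singleton_iff] at hs
      subst hs
      rw [kten_apply]
      refine AlgOrd.of_GR ?_
      by_cases h0 : kval κ B (fun a => ∑ j, A (J a) j • c0 j) = 0
      · rw [h0]
        exact GR.zero
      have h2 : ∀ i, ∑ j, A i j • c0 j = Sum.elim (fun i => (∑ j, AV i j • cV j, (0 : Q)))
          (fun i => ((0 : V), ∑ j, AQ i j • cQ j)) (e.symm i) := by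
        intro i
        rw [← hfr, Equiv.apply_symm_apply]
      obtain ⟨a0, a1, a2, a3⟩ := kval_active (B := B) (κ := κ)
        (c := fun i => ∑ j, A i j • c0 j) (χ := {i | i ∈ χ}) (I := J)
        (fun i hi => by
          rw [h2]
          obtain ⟨x, rfl⟩ := e.surjective i
          rw [Equiv.symm_apply_apply]
          rcases x with i | i
          · rfl
          · exact absurd hi (heQ i)) (fun i hi => by
          rw [h2]
          obtain ⟨x, rfl⟩ := e.surjective i
          rw [Equiv.symm_apply_apply]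
          rcases x with i | i
          · exact absurd (heV i) hi
          · rfl) h0
      have exV : ∀ i ∈ χ, ∃ x, i = e (Sum.inl x) := by
        intro i hi
        obtain ⟨x, rfl⟩ := e.surjective i
        rcases x with i | i
        · exact ⟨i, rfl⟩
        · exact absurd hi (heQ i)
      have exQ : ∀ i ∉ χ, ∃ x, i = e (Sum.inr x) := by
        intro i hi
        obtain ⟨x, rfl⟩ := e.surjective i
        rcases x with i | i
        · exact absurd (heV i) hi
        · exact ⟨i, rfl⟩
      obtain ⟨i0, hi0⟩ := exV _ a0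
      obtain ⟨i1, hi1⟩ := exV _ a1
      choose J' hJ' using fun a => exQ _ (a2 a)
      have hJinj : Function.Injective J' := by
        intro a a' haa
        refine a3 ?_
        change J a.succ.succ = J a'.succ.succ
        rw [hJ', hJ', haa]
      have h3 := hord i0 i1 J' hJinj
      have h4 : ∑ a, η (J a) = ηV i0 + (ηV i1 + ∑ a, ηQ (J' a)) := by
        rw [sum_two, hi0, hi1, hηe, hηe]
        congr 2
        refine Finset.sum_congr rfl fun a _ => ?_
        rw [hJ', hηe]
        rfl
      have h5 : kval κ B (fun a => ∑ j, A (J a) j • c0 j) =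
          B.det (Fin.cons (κ (∑ j, AV i0 j • cV j) (∑ j, AV i1 j • cV j))
              fun a => ∑ j, AQ (J' a) j • cQ j : Fin (k' + 1) → Q) := by
        unfold kval
        beta_reduce
        rw [hi0, hi1, hfr, hfr]
        have h6 : (fun j : Fin k' => (∑ j', A (J j.succ.succ) j' • c0 j').2) =
            fun a => ∑ j, AQ (J' a) j • cQ j := by
          funext a
          rw [hJ', hfr]
          rfl
        rw [h6]
        rfl
      rw [h4, h5]
      exact h3)
    have h2 : ∑ i, (ν i : ℝ) * η i = ∑ i, νV i * ηV i + ∑ j, νQ j * ηQ j := by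
      rw [← Equiv.sum_comp e, Fintype.sum_sum_type]
      simp only [hηe]
      rfl
    have h3 : ∏ i, A i i ^ ν i = (∏ i, AV i i ^ νV i) * ∏ j, AQ j j ^ νQ j := by
      rw [← Equiv.prod_comp e, Fintype.prod_sum_type]
      simp only [hAe]
      rfl
    rw [h2, h3] at h1
    exact h1

end Pool.Agent.Zk28.TF
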