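import Pool.Agent.Zk28.TF.Brk

/-!
The relation between volumes which is given by the curvature of a distribution.
-/

set_option autoImplicit false
set_option linter.unusedSectionVars false

open FF Pool.Agent.W602.GT

namespace Pool.Agent.Zk28.TF

open Pool.Agent.Zk28.TS

section linear

variable {K : Type} [Field K] [Algebra ℂ K] {Q : Type} [AddCommGroup Q] [Module K Q] {k' : ℕ}

/-- The order of a determinant with one foreign column. -/
theorem det_cons_ord {P : Place ℂ K} (B : Module.Basis (Fin (k' + 1)) K Q)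
    (q : Fin (k' + 1) → Q) (η x : Fin (k' + 1) → ℝ) {z : Fin (k' + 1) → K}
    (hz : ∀ j, GR P (x j) (z j)) {γ : ℝ} (hx : ∀ j, γ - η j ≤ x j)
    (J : Fin k' → Fin (k' + 1)) :
    GR P (γ + ∑ a, η (J a) - ∑ j, η j + P.ord (B.det q))
      (B.det (Fin.cons (∑ j, z j • q j) fun a => q (J a) : Fin (k' + 1) → Q)) := by
  classical
  have h1 : B.det (Fin.cons (∑ j, z j • q j) fun a => q (J a) : Fin (k' + 1) → Q) =
      ∑ j, z j * B.det (Fin.cons (q j) fun a => q (J a) : Fin (k' + 1) → Q) := by
    have h2 : ∀ y : Q, (Fin.cons y (fun a => q (J a)) : Fin (k' + 1) → Q) =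
        Function.update (Fin.cons 0 (fun a => q (J a)) : Fin (k' + 1) → Q) 0 y := fun y => by
      rw [Fin.update_cons_zero]
    have h3 : ∀ y : Q, B.det (Fin.cons y (fun a => q (J a)) : Fin (k' + 1) → Q) =
        B.det.toMultilinearMap.toLinearMap (Fin.cons 0 (fun a => q (J a)) : Fin (k' + 1) → Q)
          0 y := fun y => by
      rw [h2]
      rfl
    rw [h3, map_sum]
    refine Finset.sum_congr rfl fun j _ => ?_
    rw [map_smul, ← h3, smul_eq_mul]
  rw [h1]
  refine GR.sum _ fun j _ => ?_
  by_cases hinj : Function.Injective (Fin.cons j J : Fin (k' + 1) → Fin (k' + 1))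
  · have hbij : Function.Bijective (Fin.cons j J : Fin (k' + 1) → Fin (k' + 1)) :=
      Finite.injective_iff_bijective.mp hinj
    let π : Equiv.Perm (Fin (k' + 1)) := Equiv.ofBijective _ hbij
    have h2 : (Fin.cons (q j) (fun a => q (J a)) : Fin (k' + 1) → Q) = q ∘ π := by
      funext i
      refine Fin.cases ?_ (fun i => ?_) i
      · simp [π]
      · simp [π]
    have h3 : GR P (P.ord (B.det q)) (B.det (q ∘ π)) := by
      rw [AlternatingMap.map_perm B.det q π]
      have h4 : GR P (P.ord (B.det q)) (B.det q) := Or.inr le_rfl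
      rcases Int.units_eq_one_or (Equiv.Perm.sign π) with h | h
      · rw [h, one_smul]; exact h4
      · rw [h, Units.neg_smul, one_smul]; exact h4.neg
    have h4 : ∑ i, η i = η j + ∑ a, η (J a) := by
      rw [← Equiv.sum_comp π η, Fin.sum_univ_succ]
      simp [π]
    rw [h2, h4]
    refine ((hz j).mul h3).mono ?_
    linarith [hx j]
  · have h2 : B.det (Fin.cons (q j) (fun a => q (J a)) : Fin (k' + 1) → Q) = 0 := by
      have h3 : (Fin.cons (q j) (fun a => q (J a)) : Fin (k' + 1) → Q) =
          fun i => q ((Fin.cons j J : Fin (k' + 1) → Fin (k' + 1)) i) := by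
        funext i
        refine Fin.cases ?_ (fun i => ?_) i
        · simp
        · simp
      rw [h3]
      unfold Function.Injective at hinj
      push Not at hinj
      obtain ⟨i, i', hii, hne⟩ := hinj
      refine B.det.map_eq_zero_of_eq (i := i) (j := i') _ ?_ hne
      rw [hii]
    rw [h2, mul_zero]
    exact GR.zero

end linear

section tuples

variable {K : Type} [Field K] [Algebra ℂ K] [Module.Finite K (Derivation ℂ K K)]
  {V : Submodule K (Derivation ℂ K K)} {r k : ℕ}

/-- the combined tuple -/
def app (cV : Fin r → V) (L : Fin k → Derivation ℂ K K) : Fin (r + k) → Derivation ℂ K K :=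
  Fin.append (fun i => (cV i : Derivation ℂ K K)) L

theorem app_indep {cV : Fin r → V} {L : Fin k → Derivation ℂ K K} (h1 : LinearIndependent K cV)
    (h2 : LinearIndependent K fun j => V.mkQ (L j)) : LinearIndependent K (app cV L) := by
  have h3 := LinearIndependent.sumElim_of_quotient h1 L h2
  have h4 : app cV L = Sum.elim (fun i => (cV i : Derivation ℂ K K)) L ∘ finSumFinEquiv.symm := by
    funext i
    unfold app
    refine Fin.addCases (fun i => ?_) (fun i => ?_) i
    · simp
    · simp
  rw [h4]
  exact h3.comp _ (Equiv.injective _)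

theorem app_left (cV : Fin r → V) (L : Fin k → Derivation ℂ K K) (i : Fin r) :
    app cV L (Fin.castAdd k i) = cV i := Fin.append_left _ _ _

theorem app_right (cV : Fin r → V) (L : Fin k → Derivation ℂ K K) (j : Fin k) :
    app cV L (Fin.natAdd r j) = L j := Fin.append_right _ _ _

theorem castLE_left {j : ℕ} (h : j ≤ r) (i : Fin j) :
    Fin.castLE (h.trans (Nat.le_add_right r k)) i = Fin.castAdd k (Fin.castLE h i) := Fin.ext rfl

theorem castLE_add_left {j : ℕ} (h : j ≤ k) (i : Fin r) :
    Fin.castLE (Nat.add_le_add_left h r) (Fin.castAdd j i) = Fin.castAdd k i := Fin.ext rfl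

theorem castLE_add_right {j : ℕ} (h : j ≤ k) (i : Fin j) :
    Fin.castLE (Nat.add_le_add_left h r) (Fin.natAdd r i) = Fin.natAdd r (Fin.castLE h i) :=
  Fin.ext rfl

/-- the initial parts of the first type -/
theorem span_left (cV : Fin r → V) (L : Fin k → Derivation ℂ K K) {ν : Fin r → ℕ}
    (hν : Monotone ν) (t : ℕ) :
    Submodule.span K (Set.range fun i : Fin (jt ν t) =>
      app cV L (Fin.castLE ((jt_le ν t).trans (Nat.le_add_right r k)) i)) =
      (ifl K cV ν t).map V.subtype := by
  unfold ifl
  rw [Submodule.map_span]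
  congr 1
  ext x
  constructor
  · rintro ⟨i, rfl⟩
    refine ⟨cV (Fin.castLE (jt_le ν t) i), ⟨_, ?_, rfl⟩, ?_⟩
    · exact (lt_jt hν t _).mp i.2
    · beta_reduce
      rw [castLE_left (jt_le ν t), app_left]
      rfl
  · rintro ⟨_, ⟨i, hi, rfl⟩, rfl⟩
    refine ⟨⟨i, (lt_jt hν t i).mpr hi⟩, ?_⟩
    beta_reduce
    rw [castLE_left (jt_le ν t), app_left]
    rfl

/-- the initial parts of the second type -/
theorem span_right (cV : Fin r → V) (hV : Submodule.span K (Set.range cV) = ⊤)
    (L : Fin k → Derivation ℂ K K) {ν : Fin k → ℕ} (hν : Monotone ν) (t : ℕ) :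
    Submodule.span K (Set.range fun i : Fin (r + jt ν t) =>
      app cV L (Fin.castLE (Nat.add_le_add_left (jt_le ν t) r) i)) =
      (ifl K (fun j => V.mkQ (L j)) ν t).comap V.mkQ := by
  have h1 : (ifl K (fun j => V.mkQ (L j)) ν t) =
      (Submodule.span K (L '' {j | ν j ≤ t})).map V.mkQ := by
    unfold ifl
    rw [Submodule.map_span, ← Set.image_comp]
    rfl
  have h2 : V = Submodule.span K (Set.range fun i => (cV i : Derivation ℂ K K)) := by
    have h3 : Set.range (fun i => (cV i : Derivation ℂ K K)) = V.subtype '' Set.range cV := by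
      rw [← Set.range_comp]
      rfl
    rw [h3, Submodule.span_image, hV, Submodule.map_top, Submodule.range_subtype]
  rw [h1, Submodule.comap_map_mkQ]
  conv_rhs => rw [h2]
  rw [← Submodule.span_union]
  congr 1
  ext x
  constructor
  · rintro ⟨i, rfl⟩
    refine Fin.addCases (fun i => ?_) (fun i => ?_) i
    · left
      exact ⟨i, by beta_reduce; rw [castLE_add_left (jt_le ν t), app_left]⟩
    · right
      refine ⟨Fin.castLE (jt_le ν t) i, ?_, ?_⟩
      · exact (lt_jt hν t _).mp i.2
      · beta_reduce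
        rw [castLE_add_right (jt_le ν t), app_right]
  · rintro (⟨i, rfl⟩ | ⟨j, hj, rfl⟩)
    · refine ⟨Fin.castAdd _ i, ?_⟩
      beta_reduce
      rw [castLE_add_left (jt_le ν t), app_left]
    · refine ⟨Fin.natAdd r ⟨j, (lt_jt hν t j).mpr hj⟩, ?_⟩
      beta_reduce
      rw [castLE_add_right (jt_le ν t), app_right]
      rfl

end tuples

end Pool.Agent.Zk28.TF
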