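import Pool.Agent.Zk28.TF.Levi4

/-!
The relation between volumes which is given by the curvature of a distribution.
-/

set_option autoImplicit false
set_option linter.unusedSectionVars false

open FF Pool.Agent.W602.GT

namespace Pool.Agent.Zk28.TF

open Pool.Agent.Zk28.TS

variable {K : Type} [Field K] [Algebra ℂ K]

theorem det_lincomb {Q : Type} [AddCommGroup Q] [Module K Q] {k : ℕ}
    (B C : Module.Basis (Fin k) K Q) (A : Fin k → Fin k → K) :
    B.det (fun i => ∑ j, A i j • C j) = (Matrix.of A).det * B.det C := by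
  classical
  let f : Q →ₗ[K] Q := Matrix.toLin C C (Matrix.of A).transpose
  have h1 : (fun i => ∑ j, A i j • C j) = f ∘ C := by
    funext i
    simp only [f, Function.comp_apply, Matrix.toLin_self, Matrix.transpose_apply, Matrix.of_apply]
  rw [h1, Module.Basis.det_comp]
  congr 1
  simp only [f, LinearMap.det_toLin, Matrix.det_transpose]

section local_

variable {n : ℕ} [Algebra.EssFiniteType ℂ K] [Module.Finite K (Derivation ℂ K K)]
  {V : Submodule K (Derivation ℂ K K)} {r k' : ℕ}

/-- The orders of the coordinates of the brackets. -/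
theorem bracket_ord {P : Place ℂ K} {δ : ℝ} (hδ : 0 ≤ δ ∧ δ ≤ 1)
    (B : Module.Basis (Fin (k' + 1)) K (Derivation ℂ K K ⧸ V)) {cV : Fin r → V}
    {L : Fin (k' + 1) → Derivation ℂ K K}
    (hspan : Submodule.span K (Set.range (app cV L)) = ⊤)
    {A : Fin (r + (k' + 1)) → Fin (r + (k' + 1)) → K} (hA : Tri P (app cV L) A)
    {q : Fin (k' + 1) → Derivation ℂ K K ⧸ V}
    (hq : ∀ j, V.mkQ (fr A (app cV L) (Fin.natAdd r j)) = q j)
    (hv : ∀ i, fr A (app cV L) (Fin.castAdd (k' + 1) i) ∈ V)
    (i i' : Fin r) (J : Fin k' → Fin (k' + 1)) :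
    GR P ((et P δ (fr A (app cV L) (Fin.castAdd (k' + 1) i)) +
        et P δ (fr A (app cV L) (Fin.castAdd (k' + 1) i'))) +
        ∑ a, et P δ (fr A (app cV L) (Fin.natAdd r (J a))) -
        ∑ j, et P δ (fr A (app cV L) (Fin.natAdd r j)) + P.ord (B.det q))
      (B.det (Fin.cons (V.mkQ ⁅fr A (app cV L) (Fin.castAdd (k' + 1) i),
        fr A (app cV L) (Fin.castAdd (k' + 1) i')⁆) fun a => q (J a) :
          Fin (k' + 1) → Derivation ℂ K K ⧸ V)) := by
  classical
  set bT := app cV L with hbT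
  by_cases hii : i = i'
  · have h0 : B.det (Fin.cons (0 : Derivation ℂ K K ⧸ V) fun a => q (J a) :
        Fin (k' + 1) → Derivation ℂ K K ⧸ V) = 0 :=
      B.det.map_coord_zero 0 (by rw [Fin.cons_zero])
    rw [hii, lie_self, map_zero, h0]
    exact GR.zero
  set E := ⁅fr A bT (Fin.castAdd (k' + 1) i), fr A bT (Fin.castAdd (k' + 1) i')⁆ with hE
  have hEreg : DerReg P E := DerReg.lie (hA.reg _) (hA.reg _)
  -- coordinates
  obtain ⟨d, hd⟩ := (Submodule.mem_span_range_iff_exists_fun K).mp
    (show E ∈ Submodule.span K (Set.range bT) by rw [hspan]; exact Submodule.mem_top)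
  let x : Fin (r + (k' + 1)) → K := Matrix.vecMul d (Matrix.of A)⁻¹
  have hx : Matrix.vecMul x (Matrix.of A) = d := by
    change Matrix.vecMul (Matrix.vecMul d (Matrix.of A)⁻¹) (Matrix.of A) = d
    rw [Matrix.vecMul_vecMul, Matrix.nonsing_inv_mul _ (isUnit_iff_ne_zero.mpr hA.det),
      Matrix.vecMul_one]
  have hxd : ∀ j, ∑ i, x i * A i j = d j := fun j => congrFun hx j
  have hfx : E = ∑ i, x i • fr A bT i := by
    rw [← hd]
    unfold fr
    simp only [Finset.smul_sum, smul_smul]
    rw [Finset.sum_comm]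
    exact Finset.sum_congr rfl fun j _ => by rw [← hxd j, Finset.sum_smul]
  obtain ⟨hco0, hco1⟩ := hA.co x (by rw [← hfx]; exact hEreg)
  have hmk : V.mkQ E = ∑ j, x (Fin.natAdd r j) • q j := by
    rw [hfx, map_sum, Fin.sum_univ_add]
    have h1 : ∑ i : Fin r, V.mkQ (x (Fin.castAdd (k' + 1) i) •
        fr A bT (Fin.castAdd (k' + 1) i)) = 0 := by
      refine Finset.sum_eq_zero fun i _ => ?_
      rw [Submodule.mkQ_apply, Submodule.Quotient.mk_eq_zero]
      exact Submodule.smul_mem _ _ (hv i)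
    rw [h1, zero_add]
    exact Finset.sum_congr rfl fun j _ => by rw [map_smul, hq]
  rw [hmk]
  refine det_cons_ord B q (fun j => et P δ (fr A bT (Fin.natAdd r j)))
    (fun j => (et P δ (fr A bT (Fin.castAdd (k' + 1) i)) +
        et P δ (fr A bT (Fin.castAdd (k' + 1) i'))) - et P δ (fr A bT (Fin.natAdd r j)))
    (fun j => ?_) (fun j => le_rfl) J
  have hne : ∀ i : Fin r, Fin.castAdd (k' + 1) i ≠ Fin.natAdd r j := by
    intro i h
    have h1 := congrArg Fin.val h
    simp only [Fin.val_castAdd, Fin.val_natAdd] at h1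
    have := i.2
    omega
  by_cases hl : DerLog P (fr A bT (Fin.castAdd (k' + 1) i)) ∧
      DerLog P (fr A bT (Fin.castAdd (k' + 1) i'))
  · have hElog : DerLog P E := DerLog.lie hl.1 hl.2 (hA.reg _) (hA.reg _)
    rw [et_log hl.1, et_log hl.2]
    by_cases hj : DerLog P (fr A bT (Fin.natAdd r j))
    · rw [et_log hj]
      exact (hco0 _).mono (by norm_num)
    · rw [et_nlog hj]
      refine (hco1 (by rw [← hfx]; exact hElog) _ hj).mono ?_
      linarith [hδ.2]
  · have hj : DerLog P (fr A bT (Fin.natAdd r j)) := by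
      by_contra hj
      rw [not_and_or] at hl
      rcases hl with h | h
      · exact hne i (hA.one _ _ h hj)
      · exact hne i' (hA.one _ _ h hj)
    rw [et_log hj]
    refine (hco0 _).mono ?_
    have h1 := et_le (P := P) hδ.1 (fr A bT (Fin.castAdd (k' + 1) i))
    have h2 := et_le (P := P) hδ.1 (fr A bT (Fin.castAdd (k' + 1) i'))
    linarith

end local_

end Pool.Agent.Zk28.TF
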