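import Pool.Agent.Zk28.TF.Levi5

/-!
The relation between volumes which is given by the curvature of a distribution.
-/

set_option autoImplicit false
set_option linter.unusedSectionVars false

open FF Pool.Agent.W602.GT

namespace Pool.Agent.Zk28.TF

open Pool.Agent.Zk28.TS

variable {K : Type} [Field K] [Algebra ℂ K]

theorem rel_levi {n : ℕ} [Algebra.EssFiniteType ℂ K] [Module.Finite K (Derivation ℂ K K)]
    (htr : Algebra.trdeg ℂ K = n) {X : Set (Place ℂ K)} {δ β : Place ℂ K → ℝ}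
    (hδ : ∀ P ∈ X, 0 ≤ δ P ∧ δ P ≤ 1) {G : Set (K ≃ₐ[ℂ] K)}
    {V : Submodule K (Derivation ℂ K K)} (hV : InvSub G V)
    (hbr : ∃ D ∈ V, ∃ E ∈ V, ⁅D, E⁆ ∉ V) :
    ∃ (M R : ℕ) (Vt Wt : ℕ → Submodule K (Derivation ℂ K K)), 0 < M ∧
      (∀ t, InvSub G (Vt t)) ∧ (∀ t, InvSub G (Wt t)) ∧ (∀ t, Vt t ≤ V) ∧ Vt 0 ≠ V ∧
      Eff n X (∑ t ∈ Finset.range M, (hh n δ β V - hh n δ β (Vt t)) -
        ∑ s ∈ Finset.range R, (hh n δ β (Wt s) - hh n δ β V) +
          fun P => (R : ℝ) / n * β P) := by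
  classical
  obtain ⟨D, hD, E, hE, hDE⟩ := hbr
  have hκ : kap V ≠ 0 := by
    intro h0
    have h1 : kap V ⟨D, hD⟩ ⟨E, hE⟩ = 0 := by rw [h0]; rfl
    rw [kap_apply, Submodule.mkQ_apply, Submodule.Quotient.mk_eq_zero] at h1
    exact hDE h1
  have hQ0 : (V.mkQ ⁅D, E⁆ : Derivation ℂ K K ⧸ V) ≠ 0 := by
    rw [Submodule.mkQ_apply, Ne, Submodule.Quotient.mk_eq_zero]
    exact hDE
  have hnt : Nontrivial (Derivation ℂ K K ⧸ V) := ⟨⟨_, _, hQ0⟩⟩
  obtain ⟨k', hk⟩ : ∃ k', Module.finrank K (Derivation ℂ K K ⧸ V) = k' + 1 :=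
    Nat.exists_eq_succ_of_ne_zero Module.finrank_pos.ne'
  obtain ⟨r, hr⟩ : ∃ r, Module.finrank K V = r := ⟨_, rfl⟩
  let B : Module.Basis (Fin (k' + 1)) K (Derivation ℂ K K ⧸ V) :=
    Module.finBasisOfFinrankEq K _ hk
  obtain ⟨cV, cQ, νV, νQ, R, c, hcV, hcQ, hmV, hmQ, hR, hc, hsV, hle, hsQ, hsymm, hmain⟩ :=
    levi_core hr (kap V) B hκ
  choose L hL using fun j => V.mkQ_surjective (cQ j)
  have hcQ' : cQ = fun j => V.mkQ (L j) := by
    funext j
    exact (hL j).symm
  have hspanV : Submodule.span K (Set.range cV) = ⊤ :=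
    hcV.span_eq_top_of_card_eq_finrank' (by rw [Fintype.card_fin, hr])
  have hspanQ : Submodule.span K (Set.range cQ) = ⊤ :=
    hcQ.span_eq_top_of_card_eq_finrank' (by rw [Fintype.card_fin, hk])
  let C : Module.Basis (Fin (k' + 1)) K (Derivation ℂ K K ⧸ V) := Module.Basis.mk hcQ hspanQ.ge
  have hC : (C : Fin (k' + 1) → Derivation ℂ K K ⧸ V) = cQ := Module.Basis.coe_mk _ _
  set y0 : K := B.det cQ with hy0
  have hy00 : y0 ≠ 0 := by
    have h1 := (Module.Basis.is_basis_iff_det B).mp ⟨hcQ, hspanQ⟩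
    exact h1.ne_zero
  obtain ⟨bT, hbT⟩ : ∃ bT, bT = app cV L := ⟨_, rfl⟩
  have hbTi : LinearIndependent K bT := by
    rw [hbT]
    refine app_indep hcV ?_
    rw [← hcQ']
    exact hcQ
  have hdim : Module.finrank K (Derivation ℂ K K) = r + (k' + 1) := by
    have h1 := Submodule.finrank_quotient_add_finrank V
    omega
  have hbTs : Submodule.span K (Set.range bT) = ⊤ :=
    hbTi.span_eq_top_of_card_eq_finrank' (by rw [Fintype.card_fin, hdim])
  -- the distributions
  let Vt : ℕ → Submodule K (Derivation ℂ K K) := fun t => (ifl K cV νV t).map V.subtype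
  let Wt : ℕ → Submodule K (Derivation ℂ K K) := fun s => (ifl K cQ νQ s).comap V.mkQ
  have hjV : ∀ t, jt νV t ≤ r + (k' + 1) := fun t => (jt_le νV t).trans (Nat.le_add_right _ _)
  have hjQ : ∀ s, r + jt νQ s ≤ r + (k' + 1) := fun s => Nat.add_le_add_left (jt_le νQ s) r
  have hVt : ∀ t, Submodule.span K (Set.range fun i : Fin (jt νV t) =>
      bT (Fin.castLE (hjV t) i)) = Vt t := fun t => by
    rw [hbT]
    exact span_left cV L hmV t
  have hWt : ∀ s, Submodule.span K (Set.range fun i : Fin (r + jt νQ s) =>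
      bT (Fin.castLE (hjQ s) i)) = Wt s := fun s => by
    rw [hbT]
    have h1 := span_right cV hspanV L hmQ s
    rw [← hcQ'] at h1
    exact h1
  have hVr : Submodule.span K (Set.range fun i : Fin r =>
      bT (Fin.castLE (Nat.le_add_right r (k' + 1)) i)) = V := by
    have h1 : (Set.range fun i : Fin r => bT (Fin.castLE (Nat.le_add_right r (k' + 1)) i)) =
        V.subtype '' Set.range cV := by
      rw [← Set.range_comp]
      congr 1
      funext i
      rw [hbT]
      exact app_left cV L i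
    rw [h1, Submodule.span_image, hspanV, Submodule.map_top, Submodule.range_subtype]
  have hVti : ∀ t, LinearIndependent K fun i : Fin (jt νV t) => bT (Fin.castLE (hjV t) i) :=
    fun t => hbTi.comp _ (Fin.castLE_injective _)
  have hWti : ∀ s, LinearIndependent K fun i : Fin (r + jt νQ s) => bT (Fin.castLE (hjQ s) i) :=
    fun s => hbTi.comp _ (Fin.castLE_injective _)
  have hVri : LinearIndependent K fun i : Fin r =>
      bT (Fin.castLE (Nat.le_add_right r (k' + 1)) i) := hbTi.comp _ (Fin.castLE_injective _)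
  have hdV : ∀ t, Module.finrank K (Vt t) = jt νV t := fun t => by
    rw [← hVt, finrank_span_eq_card (hVti t), Fintype.card_fin]
  have hdW : ∀ s, Module.finrank K (Wt s) = r + jt νQ s := fun s => by
    rw [← hWt, finrank_span_eq_card (hWti s), Fintype.card_fin]
  have hνM : ∀ i, νV i ≤ 2 * R := fun i => by
    rw [← hsV]
    exact Finset.single_le_sum (f := νV) (fun j _ => Nat.zero_le _) (Finset.mem_univ i)
  -- invariance
  have hinv : ∀ (σ : K ≃ₐ[ℂ] K) (hσ : σ ∈ G),
      (∀ (t : ℕ), ∀ x ∈ ifl K cV νV t, vconj σ (hV σ hσ) x ∈ ifl K cV νV t) ∧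
      ∀ (t : ℕ), ∀ x ∈ ifl K cQ νQ t, qconj σ x ∈ ifl K cQ νQ t := by
    intro σ hσ
    have hc := hV σ hσ
    refine hsymm σ.toRingEquiv (vconj σ hc) (qconj σ) (vconj_add σ hc)
      (fun a x => vconj_smul σ hc a x) (fun x hx => Subtype.ext (conj_inj
        (congrArg Subtype.val hx))) (fun q q' => ?_) (fun a q => ?_) (fun q hq => ?_)
      fun x y => ?_
    · obtain ⟨D, rfl⟩ := V.mkQ_surjective q
      obtain ⟨D', rfl⟩ := V.mkQ_surjective q'
      rw [← map_add, qconj_mk σ hc, qconj_mk σ hc, qconj_mk σ hc, conj_add, map_add]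
    · obtain ⟨D, rfl⟩ := V.mkQ_surjective q
      rw [← map_smul, qconj_mk σ hc, qconj_mk σ hc, conj_smul, map_smul]
      rfl
    · obtain ⟨D, rfl⟩ := V.mkQ_surjective q
      rw [qconj_mk σ hc, Submodule.mkQ_apply, Submodule.Quotient.mk_eq_zero] at hq
      rw [Submodule.mkQ_apply, Submodule.Quotient.mk_eq_zero]
      exact mem_of_conj_mem σ hc hq
    · rw [kap_apply, kap_apply, qconj_mk σ hc, conj_lie]
      rfl
  refine ⟨2 * R, R, Vt, Wt, by omega, ?_, ?_, ?_, ?_, ?_⟩
  · rintro t σ hσ D ⟨x, hx, rfl⟩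
    exact ⟨_, (hinv σ hσ).1 t x hx, rfl⟩
  · intro t σ hσ D hD
    have h1 := (hinv σ hσ).2 t _ hD
    rw [qconj_mk σ (hV σ hσ)] at h1
    exact h1
  · rintro t D ⟨x, -, rfl⟩
    exact x.2
  · intro h0
    have h1 := hdV 0
    rw [h0, hr] at h1
    have h2 : ∀ i, νV i = 0 := fun i => by
      have h3 := (lt_jt hmV 0 i).mp (by rw [← h1]; exact i.2)
      omega
    rw [Finset.sum_eq_zero fun i _ => h2 i] at hsV
    omega
  · obtain ⟨yV, hyV, h1⟩ := vs_tuple htr hδ V hVri hVr
    choose y hy h2 using fun t => vs_tuple htr hδ (Vt t) (hVti t) (hVt t)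
    choose z hz h3 using fun s => vs_tuple htr hδ (Wt s) (hWti s) (hWt s)
    have hy1 : ∏ t ∈ Finset.range (2 * R), (y t / yV) ≠ 0 :=
      Finset.prod_ne_zero_iff.mpr fun t _ => div_ne_zero (hy t) hyV
    have hz1 : ∏ s ∈ Finset.range R, (z s / yV) ≠ 0 :=
      Finset.prod_ne_zero_iff.mpr fun s _ => div_ne_zero (hz s) hyV
    refine ⟨1, Nat.one_pos, (c / y0 ^ R) * ((∏ t ∈ Finset.range (2 * R), (y t / yV)) *
      ∏ s ∈ Finset.range R, (z s / yV)), mul_ne_zero (div_ne_zero hc (pow_ne_zero _ hy00))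
      (mul_ne_zero hy1 hz1), fun P hPX hP => ?_⟩
    obtain ⟨A, hA⟩ := exists_tri' htr hP hbTi
    -- the frames of the two types
    let AV : Fin r → Fin r → K := fun i j => A (Fin.castAdd (k' + 1) i) (Fin.castAdd (k' + 1) j)
    let AQ : Fin (k' + 1) → Fin (k' + 1) → K := fun i j => A (Fin.natAdd r i) (Fin.natAdd r j)
    have hAV : ∀ i j, i < j → AV i j = 0 := fun i j hij => hA.low _ _ hij
    have hAQ : ∀ i j, i < j → AQ i j = 0 := fun i j hij => hA.low _ _ (by
      rw [Fin.lt_def] at hij ⊢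
      simp only [Fin.val_natAdd]
      omega)
    have hAVd : ∀ i, AV i i ≠ 0 := fun i => hA.diag _
    have hAQd : ∀ i, AQ i i ≠ 0 := fun i => hA.diag _
    have hfrV : ∀ i, fr A bT (Fin.castAdd (k' + 1) i) = ((∑ j, AV i j • cV j : V) :
        Derivation ℂ K K) := by
      intro i
      unfold fr
      rw [Fin.sum_univ_add, Submodule.coe_sum]
      have h4 : ∑ j : Fin (k' + 1), A (Fin.castAdd (k' + 1) i) (Fin.natAdd r j) •
          bT (Fin.natAdd r j) = 0 := by
        refine Finset.sum_eq_zero fun j _ => ?_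
        rw [hA.low _ _ (by
          rw [Fin.lt_def]
          simp only [Fin.val_castAdd, Fin.val_natAdd]
          have := i.2
          omega), zero_smul]
      rw [h4, add_zero]
      refine Finset.sum_congr rfl fun j _ => ?_
      rw [hbT, app_left]
      rfl
    have hfrQ : ∀ j, V.mkQ (fr A bT (Fin.natAdd r j)) = ∑ j', AQ j j' • cQ j' := by
      intro j
      unfold fr
      rw [Fin.sum_univ_add, map_add, map_sum, map_sum]
      have h4 : ∑ i : Fin r, V.mkQ (A (Fin.natAdd r j) (Fin.castAdd (k' + 1) i) •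
          bT (Fin.castAdd (k' + 1) i)) = 0 := by
        refine Finset.sum_eq_zero fun i _ => ?_
        rw [Submodule.mkQ_apply, Submodule.Quotient.mk_eq_zero]
        refine Submodule.smul_mem _ _ ?_
        rw [hbT, app_left]
        exact (cV i).2
      rw [h4, zero_add]
      refine Finset.sum_congr rfl fun j' _ => ?_
      rw [map_smul, hbT, app_right, hL]
    have hdetq : B.det (fun j => ∑ j', AQ j j' • cQ j') = (∏ j, AQ j j) * y0 := by
      rw [← hC, det_lincomb B C AQ, tri_det_all hAQ, hC]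
    have hprodQ : ∏ j, AQ j j ≠ 0 := Finset.prod_ne_zero_iff.mpr fun j _ => hAQd j
    have hordq : (P.ord (B.det (fun j => ∑ j', AQ j j' • cQ j')) : ℝ) =
        ∑ j, (P.ord (AQ j j) : ℝ) + P.ord y0 := by
      rw [hdetq, P.ord_mul hprodQ hy00, ord_prod' _ _ fun j _ => hAQd j]
      push_cast
      rfl
    -- the main inequality
    have h4 := hmain P AV AQ (fun i => et P (δ P) (fr A bT (Fin.castAdd (k' + 1) i)))
      (fun j => et P (δ P) (fr A bT (Fin.natAdd r j)))
      (∑ j, et P (δ P) (fr A bT (Fin.natAdd r j)) -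
        P.ord (B.det (fun j => ∑ j', AQ j j' • cQ j'))) hAV hAQ (by
        rw [tri_det_all hAV]
        exact Finset.prod_ne_zero_iff.mpr fun i _ => hAVd i) (by
        rw [tri_det_all hAQ]
        exact hprodQ) (by
        intro i i' J hJ
        have h5 := bracket_ord (hδ P hPX) B (cV := cV) (L := L) (by rw [← hbT]; exact hbTs)
          (A := A) (by rw [← hbT]; exact hA) (q := fun j => ∑ j', AQ j j' • cQ j')
          (by rw [← hbT]; exact hfrQ) (by
            rw [← hbT]
            intro i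
            rw [hfrV]
            exact Subtype.prop _) i i' J
        rw [← hbT] at h5
        have h6 : kap V (∑ j, AV i j • cV j) (∑ j, AV i' j • cV j) =
            V.mkQ ⁅fr A bT (Fin.castAdd (k' + 1) i), fr A bT (Fin.castAdd (k' + 1) i')⁆ := by
          rw [hfrV, hfrV]
          rfl
        rw [h6]
        convert h5 using 1
        ring)
    -- the graded volumes
    obtain ⟨gV, hgV⟩ : ∃ gV : Fin r → ℝ, gV = fun i =>
      gv P (δ P) bT A (Fin.castAdd (k' + 1) i) := ⟨_, rfl⟩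
    obtain ⟨gQ, hgQ⟩ : ∃ gQ : Fin (k' + 1) → ℝ, gQ = fun j =>
      gv P (δ P) bT A (Fin.natAdd r j) := ⟨_, rfl⟩
    have hprodV' : ∏ i, AV i i ^ νV i ≠ 0 :=
      Finset.prod_ne_zero_iff.mpr fun i _ => pow_ne_zero _ (hAVd i)
    have hprodQ' : ∏ j, AQ j j ^ νQ j ≠ 0 :=
      Finset.prod_ne_zero_iff.mpr fun i _ => pow_ne_zero _ (hAQd i)
    have h5 : ∑ i, (νV i : ℝ) * gV i + ∑ j, (νQ j : ℝ) * gQ j - R * ∑ j, gQ j ≤
        P.ord c - R * P.ord y0 := by
      rcases h4 with h4 | h4
      · exact absurd h4 (mul_ne_zero hc (mul_ne_zero hprodV' hprodQ'))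
      rw [P.ord_mul hc (mul_ne_zero hprodV' hprodQ'), P.ord_mul hprodV' hprodQ',
        ord_prod' _ _ fun i _ => pow_ne_zero _ (hAVd i),
        ord_prod' _ _ fun i _ => pow_ne_zero _ (hAQd i), hordq] at h4
      push_cast at h4
      have h6 : ∑ i, (P.ord (AV i i ^ νV i) : ℝ) = ∑ i, (νV i : ℝ) * P.ord (AV i i) :=
        Finset.sum_congr rfl fun i _ => by rw [P.ord_pow]; push_cast; ring
      have h6' : ∑ i, (P.ord (AQ i i ^ νQ i) : ℝ) = ∑ i, (νQ i : ℝ) * P.ord (AQ i i) :=
        Finset.sum_congr rfl fun i _ => by rw [P.ord_pow]; push_cast; ring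
      rw [h6, h6'] at h4
      have h7 : ∑ i, (νV i : ℝ) * gV i =
          ∑ i, (νV i : ℝ) * et P (δ P) (fr A bT (Fin.castAdd (k' + 1) i)) -
            ∑ i, (νV i : ℝ) * P.ord (AV i i) := by
        rw [← Finset.sum_sub_distrib]
        exact Finset.sum_congr rfl fun i _ => by rw [hgV]; unfold gv; simp only [AV]; ring
      have h8 : ∑ i, (νQ i : ℝ) * gQ i =
          ∑ i, (νQ i : ℝ) * et P (δ P) (fr A bT (Fin.natAdd r i)) -
            ∑ i, (νQ i : ℝ) * P.ord (AQ i i) := by
        rw [← Finset.sum_sub_distrib]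
        exact Finset.sum_congr rfl fun i _ => by rw [hgQ]; unfold gv; simp only [AQ]; ring
      have h9 : ∑ j, gQ j = ∑ j, et P (δ P) (fr A bT (Fin.natAdd r j)) -
          ∑ j, (P.ord (AQ j j) : ℝ) := by
        rw [← Finset.sum_sub_distrib]
        exact Finset.sum_congr rfl fun i _ => by rw [hgQ]; rfl
      rw [h7, h8, h9]
      linarith
    have hvolV : vs δ V P = ∑ i, gV i - P.ord yV := by
      have h6 := h1 P hPX hP
      rw [vol_initial (hδ P hPX) (Nat.le_add_right r (k' + 1)) hA] at h6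
      have h7 : ∑ i : Fin r, gv P (δ P) bT A (Fin.castLE (Nat.le_add_right r (k' + 1)) i) =
          ∑ i, gV i := by
        rw [hgV]
        rfl
      rw [h7] at h6
      linarith
    have hvolVt : ∀ t, vs δ (Vt t) P = (∑ i, gV i - ∑ i, if t < νV i then gV i else 0) -
        P.ord (y t) := by
      intro t
      have h6 := h2 t P hPX hP
      rw [vol_initial (hδ P hPX) (hjV t) hA] at h6
      rw [sum_initial_jt hmV]
      have h7 : ∑ i : Fin (jt νV t), gv P (δ P) bT A (Fin.castLE (hjV t) i) =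
          ∑ i : Fin (jt νV t), gV (Fin.castLE (jt_le νV t) i) := by
        rw [hgV]
        rfl
      rw [h7] at h6
      linarith
    have hvolWt : ∀ s, vs δ (Wt s) P = ∑ i, gV i +
        (∑ j, gQ j - ∑ j, if s < νQ j then gQ j else 0) - P.ord (z s) := by
      intro s
      have h6 := h3 s P hPX hP
      rw [vol_initial (hδ P hPX) (hjQ s) hA, Fin.sum_univ_add] at h6
      rw [sum_initial_jt hmQ]
      have h7 : ∑ i : Fin r, gv P (δ P) bT A (Fin.castLE (hjQ s) (Fin.castAdd (jt νQ s) i)) =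
          ∑ i, gV i := by
        rw [hgV]
        rfl
      have h8 : ∑ i : Fin (jt νQ s), gv P (δ P) bT A (Fin.castLE (hjQ s) (Fin.natAdd r i)) =
          ∑ i : Fin (jt νQ s), gQ (Fin.castLE (jt_le νQ s) i) := by
        rw [hgQ]
        rfl
      rw [h7, h8] at h6
      linarith
    have hdV' : ∀ t, (Module.finrank K (Vt t) : ℝ) = r - ∑ i, if t < νV i then (1 : ℝ) else 0 := by
      intro t
      rw [hdV, sum_initial_jt hmV]
      simp
    have hdW' : ∀ s, (Module.finrank K (Wt s) : ℝ) =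
        r + ((k' + 1 : ℕ) - ∑ j, if s < νQ j then (1 : ℝ) else 0) := by
      intro s
      rw [hdW, sum_initial_jt hmQ]
      simp
    have ha : ∀ t, hh n δ β V P - hh n δ β (Vt t) P =
        (∑ i, if t < νV i then gV i else 0) + (P.ord (y t) - P.ord yV) -
          (∑ i, if t < νV i then (1 : ℝ) else 0) / n * β P := by
      intro t
      unfold hh
      rw [hvolV, hvolVt, hdV', hr]
      ring
    have hb : ∀ s, hh n δ β (Wt s) P - hh n δ β V P =
        (∑ j, gQ j - ∑ j, if s < νQ j then gQ j else 0) - (P.ord (z s) - P.ord yV) -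
          ((k' + 1 : ℕ) - ∑ j, if s < νQ j then (1 : ℝ) else 0) / n * β P := by
      intro s
      unfold hh
      rw [hvolV, hvolWt, hdW', hr]
      ring
    rw [Pi.add_apply, Pi.sub_apply, Finset.sum_apply, Finset.sum_apply, Nat.cast_one, one_mul,
      P.ord_mul (div_ne_zero hc (pow_ne_zero _ hy00)) (mul_ne_zero hy1 hz1),
      P.ord_mul hy1 hz1, P.ord_div hc (pow_ne_zero _ hy00), P.ord_pow,
      ord_prod' _ _ fun t _ => div_ne_zero (hy t) hyV,
      ord_prod' _ _ fun s _ => div_ne_zero (hz s) hyV]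
    simp only [Pi.sub_apply]
    rw [Finset.sum_congr rfl fun t _ => ha t, Finset.sum_congr rfl fun s _ => hb s]
    simp only [Finset.sum_sub_distrib, Finset.sum_add_distrib]
    have hsum1 : ∑ t ∈ Finset.range (2 * R), ∑ i, (if t < νV i then gV i else 0) =
        ∑ i, (νV i : ℝ) * gV i := (sum_layers νV gV hνM).symm
    have hsum2 : ∑ t ∈ Finset.range (2 * R), (∑ i, if t < νV i then (1 : ℝ) else 0) / n * β P =
        2 * R / n * β P := by
      rw [← Finset.sum_mul, ← Finset.sum_div, ← sum_layers νV (fun _ => (1 : ℝ)) hνM]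
      simp only [mul_one]
      have h6 : ∑ i, (νV i : ℝ) = 2 * R := by exact_mod_cast hsV
      rw [h6]
    have hsum3 : ∑ s ∈ Finset.range R, ∑ j, (if s < νQ j then gQ j else 0) =
        ∑ j, (νQ j : ℝ) * gQ j := (sum_layers νQ gQ hle).symm
    have hsum4 : ∑ s ∈ Finset.range R,
        ((k' + 1 : ℕ) - ∑ j, if s < νQ j then (1 : ℝ) else 0) / n * β P = R / n * β P := by
      rw [← Finset.sum_mul, ← Finset.sum_div, Finset.sum_sub_distrib,
        ← sum_layers νQ (fun _ => (1 : ℝ)) hle]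
      simp only [mul_one]
      have h6 : ∑ i, (νQ i : ℝ) = R * k' := by exact_mod_cast hsQ
      rw [h6, Finset.sum_const, Finset.card_range, nsmul_eq_mul]
      push_cast
      ring
    rw [hsum1, hsum2, hsum3, hsum4]
    have hdivy : ∑ t ∈ Finset.range (2 * R), (P.ord (y t / yV) : ℝ) =
        ∑ t ∈ Finset.range (2 * R), (P.ord (y t) : ℝ) -
          ∑ t ∈ Finset.range (2 * R), (P.ord yV : ℝ) := by
      rw [← Finset.sum_sub_distrib]
      refine Finset.sum_congr rfl fun t _ => ?_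
      rw [P.ord_div (hy t) hyV]
      push_cast
      rfl
    have hdivz : ∑ t ∈ Finset.range R, (P.ord (z t / yV) : ℝ) =
        ∑ t ∈ Finset.range R, (P.ord (z t) : ℝ) -
          ∑ t ∈ Finset.range R, (P.ord yV : ℝ) := by
      rw [← Finset.sum_sub_distrib]
      refine Finset.sum_congr rfl fun t _ => ?_
      rw [P.ord_div (hz t) hyV]
      push_cast
      rfl
    push_cast
    rw [hdivy, hdivz]
    have h7 : ∑ s ∈ Finset.range R, ∑ j, gQ j = R * ∑ j, gQ j := by
      rw [Finset.sum_const, Finset.card_range, nsmul_eq_mul]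
    rw [h7]
    have h8 : (2 * (R : ℝ)) / n * β P = R / n * β P + R / n * β P := by ring
    rw [h8]
    linarith

end Pool.Agent.Zk28.TF
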