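import Pool.Agent.Zk28.TF.Can

/-!
The invariant foliation of a pair without pluricanonical sections.
-/

set_option autoImplicit false
set_option linter.unusedSectionVars false

open FF Pool.Agent.W602.GT

namespace Pool.Agent.Zk28.TF

open Pool.Agent.Zk28.TS

section

variable {K : Type} [Field K] [Algebra ℂ K] {n : ℕ}

/-- If `det T` is not effective then there are sections. -/
theorem section_of_eff [Algebra.EssFiniteType ℂ K] (hn : 1 ≤ n)
    [Module.Finite K (Derivation ℂ K K)] (htr : Algebra.trdeg ℂ K = n)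
    {X : Set (Place ℂ K)} {δ β : Place ℂ K → ℝ} (hδ : ∀ P ∈ X, 0 ≤ δ P ∧ δ P ≤ 1)
    (h : Eff n X (hh n δ β ⊤)) :
    ∃ N : ℕ, 0 < N ∧ ∃ ω : (Fin n → Derivation ℂ K K) → K,
      IsSection n X (fun P => δ P + β P) N ω ∧ ∃ D, ω D ≠ 0 := by
  classical
  obtain ⟨N, hN, y, hy, h⟩ := h
  obtain ⟨x, b, hF⟩ := exists_fr htr
  have hb := hF.indep
  obtain ⟨y', hy', hvol⟩ := vs_tuple htr hδ ⊤ hb hF.span
  let B : Module.Basis (Fin n) K (Derivation ℂ K K) := Module.Basis.mk hb hF.span.ge
  have hB : ∀ i, B i = b i := fun i => by rw [Module.Basis.mk_apply]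
  let c : K := y * y' ^ N
  have hc : c ≠ 0 := mul_ne_zero hy (pow_ne_zero _ hy')
  let ω : (Fin n → Derivation ℂ K K) → K := fun D =>
    c * (Matrix.of fun i j => B.repr (D i) j).det ^ N
  have hωp : IsPluri N ω := by
    intro A D
    have h1 : (Matrix.of fun i j => B.repr (∑ l, A i l • D l) j) =
        A * Matrix.of fun i j => B.repr (D i) j := by
      ext i j
      rw [Matrix.mul_apply]
      change B.repr (∑ l, A i l • D l) j = ∑ l, A i l * B.repr (D l) j
      rw [map_sum, Finsupp.finsetSum_apply]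
      exact Finset.sum_congr rfl fun l _ => by rw [map_smul]; rfl
    change c * (Matrix.of fun i j => B.repr (∑ l, A i l • D l) j).det ^ N = _
    rw [h1, Matrix.det_mul, mul_pow]
    change _ = A.det ^ N * (c * (Matrix.of fun i j => B.repr (D i) j).det ^ N)
    ring
  have hωb : ω b = c := by
    have h1 : (Matrix.of fun i j => B.repr (b i) j) = 1 := by
      ext i j
      change B.repr (b i) j = _
      rw [← hB i, B.repr_self, Matrix.one_apply, Finsupp.single_apply]
    change c * (Matrix.of fun i j => B.repr (b i) j).det ^ N = c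
    rw [h1, Matrix.det_one, one_pow, mul_one]
  refine ⟨N, hN, ω, ⟨hωp, fun P hPX hP D hD => ?_⟩, b, by rw [hωb]; exact hc⟩
  obtain ⟨A, hA⟩ := exists_tri' htr hP hb
  have hn' : (n : ℝ) ≠ 0 := by
    have : (0 : ℝ) < n := by exact_mod_cast hn
    exact this.ne'
  have h3 : GR P (-(N * (δ P + β P))) (ω fun i => ∑ j, A i j • b j) := by
    rw [pluri_change hωp, hωb]
    refine Or.inr ?_
    rw [P.ord_mul (pow_ne_zero _ hA.det) hc, P.ord_pow, P.ord_mul hy (pow_ne_zero _ hy'),
      P.ord_pow, tri_det_all hA.low, ord_prod' _ _ fun i _ => hA.diag i]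
    have h4 := h P hPX hP
    have h5 := hvol P hPX hP
    rw [vol_eq (hδ P hPX) hA] at h5
    unfold hh at h4
    rw [finrank_top, hF.finrank, div_self hn', one_mul] at h4
    unfold gv at h5
    rw [Finset.sum_sub_distrib] at h5
    have h6 : -(δ P) ≤ ∑ i, et P (δ P) (fr A b i) := by
      by_cases hex : ∃ i, ¬ DerLog P (fr A b i)
      · obtain ⟨i0, hi0⟩ := hex
        rw [Finset.sum_eq_single i0]
        · exact et_ge (hδ P hPX).1 _
        · intro i _ hi
          refine et_log ?_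
          by_contra hno
          exact hi (hA.one i i0 hno hi0)
        · intro hno
          exact absurd (Finset.mem_univ _) hno
      · push Not at hex
        rw [Finset.sum_eq_zero fun i _ => et_log (hex i)]
        linarith [(hδ P hPX).1]
    have h7 : vs δ ⊤ P = ∑ i, et P (δ P) (fr A b i) - ∑ i, (P.ord (A i i) : ℝ) - P.ord y' := by
      linarith
    rw [h7] at h4
    push_cast
    have h8 : (0 : ℝ) < N := by exact_mod_cast hN
    nlinarith
  -- general fields
  have hfin := hF.finite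
  have hbP : LinearIndependent K fun i => ∑ j, A i j • b j := by
    have hci : LinearIndependent K A := indep_iff_det.mpr hA.det
    rw [Fintype.linearIndependent_iff] at hci ⊢
    intro g hg0 i
    refine hci g ?_ i
    have h1 : ∑ j, (∑ i, g i * A i j) • b j = 0 := by
      rw [← hg0]
      simp only [Finset.sum_smul, Finset.smul_sum, mul_smul]
      exact Finset.sum_comm
    have h2 := Fintype.linearIndependent_iff.mp hb _ h1
    funext j
    rw [Finset.sum_apply]
    exact h2 j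
  have hspan := hbP.span_eq_top_of_card_eq_finrank' (by rw [Fintype.card_fin, hF.finrank])
  have hex : ∀ i, ∃ z : Fin n → K, ∑ l, z l • (∑ j, A l j • b j) = D i := fun i =>
    (Submodule.mem_span_range_iff_exists_fun K).mp (by rw [hspan]; exact Submodule.mem_top)
  choose z hz using hex
  have h4 : ω D = (Matrix.of z).det ^ N * ω fun i => ∑ j, A i j • b j := by
    rw [← pluri_change hωp z]
    congr 1
    funext i
    exact (hz i).symm
  have h5 : GR P 0 (Matrix.of z).det :=
    GR.det fun i l => (hA.co (z i) (by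
      have h6 : ∑ l, z i l • fr A b l = D i := hz i
      rw [h6]
      exact hD i)).1 l
  have h6 := (h5.pow N).mul h3
  rw [mul_zero, zero_add, ← h4] at h6
  exact h6

theorem invSub_bot {G : Set (K ≃ₐ[ℂ] K)} : InvSub G (⊥ : Submodule K (Derivation ℂ K K)) := by
  intro σ _ D hD
  rw [Submodule.mem_bot] at hD ⊢
  rw [hD]
  ext f
  simp [conj_apply]

theorem invSub_sup {G : Set (K ≃ₐ[ℂ] K)} {V W : Submodule K (Derivation ℂ K K)}
    (hV : InvSub G V) (hW : InvSub G W) : InvSub G (V ⊔ W) := by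
  intro σ hσ D hD
  obtain ⟨D1, h1, D2, h2, rfl⟩ := Submodule.mem_sup.mp hD
  rw [conj_add]
  exact Submodule.add_mem_sup (hV σ hσ _ h1) (hW σ hσ _ h2)

theorem invSub_inf {G : Set (K ≃ₐ[ℂ] K)} {V W : Submodule K (Derivation ℂ K K)}
    (hV : InvSub G V) (hW : InvSub G W) : InvSub G (V ⊓ W) :=
  fun σ hσ _ hD => ⟨hV σ hσ _ hD.1, hW σ hσ _ hD.2⟩

/-- A sum of differences. -/
theorem first_mem {M : Type*} [AddCommGroup M] {C : Set M} (hC : IsCone C) {α : Type*}
    (H : α → M) {V : α} {W : ℕ → α} {m : ℕ} (hm : 0 < m)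
    (h1 : ∀ t, H (W t) - H V ∈ C) (h2 : ∑ t ∈ Finset.range m, (H V - H (W t)) ∈ C) :
    H V - H (W 0) ∈ C := by
  obtain ⟨m, rfl⟩ := Nat.exists_eq_succ_of_ne_zero hm.ne'
  rw [Finset.sum_range_succ'] at h2
  have h3 := hC.sum (Finset.range m) (f := fun t => H (W (t + 1)) - H V) fun t _ => h1 _
  have h4 := hC.add _ h2 _ h3
  have h5 : ∑ t ∈ Finset.range m, (H V - H (W (t + 1))) + (H V - H (W 0)) +
      ∑ t ∈ Finset.range m, (H (W (t + 1)) - H V) = H V - H (W 0) := by
    rw [add_right_comm, ← Finset.sum_add_distrib, Finset.sum_eq_zero, zero_add]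
    intro t _
    abel
  rw [h5] at h4
  exact h4

/-- Rational multiples. -/
theorem IsCone.rat {α : Type*} {C : Set (α → ℝ)} (hC : IsCone C) {x : α → ℝ} (hx : x ∈ C)
    {q : ℚ} (hq : 0 ≤ q) : (fun P => (q : ℝ) * x P) ∈ C := by
  refine hC.root q.den _ q.den_pos ?_
  have h1 := hC.nsmul q.num.toNat hx
  have h2 : q.den • (fun P => (q : ℝ) * x P) = q.num.toNat • x := by
    funext P
    rw [Pi.smul_apply, Pi.smul_apply, nsmul_eq_mul, nsmul_eq_mul, ← mul_assoc]
    congr 1
    have h3 : ((q.den : ℚ) : ℝ) * q = ((q.num.toNat : ℚ) : ℝ) := by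
      rw [← Rat.cast_mul]
      congr 1
      have h4 : ((q.num.toNat : ℕ) : ℤ) = q.num := Int.toNat_of_nonneg (Rat.num_nonneg.mpr hq)
      have h5 : ((q.num.toNat : ℕ) : ℚ) = (q.num : ℚ) := by exact_mod_cast h4
      rw [h5, mul_comm]
      exact Rat.mul_den_eq_num q
    push_cast at h3
    exact_mod_cast h3
  rw [h2]
  exact h1

/-- Supermodularity. -/
theorem hh_super [Algebra.EssFiniteType ℂ K] [Module.Finite K (Derivation ℂ K K)]
    (htr : Algebra.trdeg ℂ K = n) {X : Set (Place ℂ K)} {δ β : Place ℂ K → ℝ}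
    (hδ : ∀ P ∈ X, 0 ≤ δ P ∧ δ P ≤ 1) (a c : Submodule K (Derivation ℂ K K)) :
    Eff n X (hh n δ β a + hh n δ β c - (hh n δ β (a ⊔ c) + hh n δ β (a ⊓ c))) := by
  have h1 := vs_super htr hδ (Module.finrank K a - Module.finrank K (a ⊓ c : Submodule K _))
    (a ⊓ c) c a inf_le_right inf_le_left rfl (by
      have := Submodule.finrank_mono (inf_le_left : a ⊓ c ≤ a)
      omega)
  have h2 := h1.eff
  have h3 : hh n δ β a + hh n δ β c - (hh n δ β (a ⊔ c) + hh n δ β (a ⊓ c)) =
      vs δ a + vs δ c - (vs δ (c ⊔ a) + vs δ (a ⊓ c)) := by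
    funext P
    have h4 := Submodule.finrank_sup_add_finrank_inf_eq a c
    have h5 : (Module.finrank K (a ⊔ c : Submodule K _) : ℝ) +
        Module.finrank K (a ⊓ c : Submodule K _) = Module.finrank K a +
          Module.finrank K c := by exact_mod_cast h4
    simp only [Pi.sub_apply, Pi.add_apply]
    unfold hh
    rw [sup_comm c a]
    have h6 : (Module.finrank K (a ⊔ c : Submodule K _) : ℝ) = Module.finrank K a +
          Module.finrank K c - Module.finrank K (a ⊓ c : Submodule K _) := by linarith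
    rw [h6]
    ring
  rw [h3]
  exact h2

/-- The zero distribution. -/
theorem hh_bot [Algebra.EssFiniteType ℂ K] [Module.Finite K (Derivation ℂ K K)]
    (htr : Algebra.trdeg ℂ K = n) {X : Set (Place ℂ K)} {δ β : Place ℂ K → ℝ}
    (hδ : ∀ P ∈ X, 0 ≤ δ P ∧ δ P ≤ 1) :
    Eff n X (hh n δ β (⊥ : Submodule K (Derivation ℂ K K))) := by
  obtain ⟨y, hy, h3⟩ := vs_tuple htr hδ (⊥ : Submodule K (Derivation ℂ K K))
    (b := (fun i => i.elim0 : Fin 0 → Derivation ℂ K K)) linearIndependent_empty_type (by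
      rw [Set.range_eq_empty, Submodule.span_empty])
  refine ⟨1, Nat.one_pos, y⁻¹, inv_ne_zero hy, fun P hPX hP => ?_⟩
  have h4 := h3 P hPX hP
  obtain ⟨A, hA⟩ := exists_tri' htr hP
    (b := (fun i => i.elim0 : Fin 0 → Derivation ℂ K K)) linearIndependent_empty_type
  rw [vol_eq (hδ P hPX) hA, Finset.univ_eq_empty, Finset.sum_empty] at h4
  unfold hh
  rw [finrank_bot, P.ord_inv]
  push_cast
  rw [zero_div, zero_mul, sub_zero, one_mul]
  linarith

/-- The conjugates of leafwise tensors with values in a multiple of a canonical divisor. -/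
theorem pull_ex (htr : Algebra.trdeg ℂ K = n) {X : Set (Place ℂ K)}
    {δ β : Place ℂ K → ℝ} {ω : (Fin n → Derivation ℂ K K) → K} (hω : IsPluri 1 ω)
    (hω0 : ∃ D, ω D ≠ 0) {k : Place ℂ K → ℤ} (hk : DivOf n X ω k) {σ : K ≃ₐ[ℂ] K}
    (hσ : MPreserves X δ β σ) {V : Submodule K (Derivation ℂ K K)}
    (hV : ∀ D ∈ V, conj σ D ∈ V) {m : ℕ} (p : ℝ) (q : ℚ)
    {s : MultilinearMap K (fun _ : Fin m => V) (AlgebraicClosure K)}
    (hs : LeafAdapted n X δ (fun P => p * β P + q * (k P + δ P + β P)) V s) {u : Fin m → V}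
    (hu : s (fun a => vconj σ hV (u a)) ≠ 0) :
    ∃ s', LeafAdapted n X δ (fun P => p * β P + q * (k P + δ P + β P)) V s' ∧ s' u ≠ 0 := by
  obtain ⟨z, hz, hzk⟩ := exists_factor htr hω hω0 hk σ
  obtain ⟨τ, hτ⟩ := exists_lift σ
  have hz' : z ^ q.num ≠ 0 := zpow_ne_zero _ hz
  obtain ⟨ζ, hζ⟩ := IsAlgClosed.exists_pow_nat_eq
    (algebraMap K (AlgebraicClosure K) (z ^ q.num)) q.den_pos
  have hζ0 : ζ ≠ 0 := by
    intro h0
    rw [h0, zero_pow q.den_pos.ne'] at hζ
    exact hz' ((map_eq_zero _).mp hζ.symm)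
  refine ⟨ζ • lpull σ hV τ hτ s, ?_, ?_⟩
  · intro P hPX hP D hD
    obtain ⟨Q, hQX, hQd, hδ, hβ, hQ, hreg, hlog⟩ := place_transport (n := n) hσ hPX hP
    have h1 := hs Q hQX hQd (fun a => vconj σ hV (D a)) fun a => hreg _ (hD a)
    have h2 : {a | ¬ DerLog Q ((vconj σ hV (D a) : V) : Derivation ℂ K K)} =
        {a | ¬ DerLog P (D a : Derivation ℂ K K)} := by
      ext a
      exact not_congr (hlog _)
    have h3 := hzk P hPX hP Q hQX hQd hQ
    have h4 : (k Q : ℝ) = k P + P.ord z := by rw [h3]; push_cast; rfl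
    rw [h2, hδ] at h1
    beta_reduce at h1 ⊢
    rw [hβ, h4, hδ] at h1
    have h5 : AlgOrd P _ (lpull σ hV τ hτ s D) := h1.image σ τ hτ hQ
      (RingEquiv.apply_symm_apply _ _)
    have h6 := AlgOrd.mul_root h5 q.den_pos hz' hζ
    have h7 : (P.ord (z ^ q.num) : ℝ) / q.den = q * P.ord z := by
      rw [P.ord_zpow]
      have h8 : (q : ℝ) = q.num / q.den := by
        exact_mod_cast (Rat.num_div_den q).symm
      rw [h8]
      push_cast
      ring
    rw [h7] at h6
    change AlgOrd P _ (ζ * lpull σ hV τ hτ s D)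
    convert h6 using 1
    ring
  · change ζ • τ.symm (s fun a => vconj σ hV (u a)) ≠ 0
    rw [smul_eq_mul]
    exact mul_ne_zero hζ0 ((map_ne_zero_iff _ τ.symm.injective).mpr hu)

/-- The twisted volumes for two twists. -/
theorem hh_twist [Algebra.EssFiniteType ℂ K] [Module.Finite K (Derivation ℂ K K)]
    (δ β l : Place ℂ K → ℝ) (V : Submodule K (Derivation ℂ K K)) (t t' : ℝ) :
    hh n δ (fun P => β P + t * l P) V = hh n δ (fun P => β P + t' * l P) V +
      fun P => ((Module.finrank K V : ℝ) / n * (t' - t)) * l P := by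
  funext P
  rw [Pi.add_apply]
  unfold hh
  ring

theorem main [Algebra.EssFiniteType ℂ K] (hn : 1 ≤ n) (htr : Algebra.trdeg ℂ K = n)
    {X : Set (Place ℂ K)} {δ β : Place ℂ K → ℝ} (hδ : ∀ P ∈ X, 0 ≤ δ P ∧ δ P ≤ 1)
    {ω : (Fin n → Derivation ℂ K K) → K} (hω : IsPluri 1 ω) (hω0 : ∃ D, ω D ≠ 0)
    {k : Place ℂ K → ℤ} (hk : DivOf n X ω k)
    {G : Set (K ≃ₐ[ℂ] K)} (hG : ∀ σ ∈ G, MPreserves X δ β σ)
    (hno : ∀ N : ℕ, 0 < N → ∀ ω : (Fin n → Derivation ℂ K K) → K,
      IsSection n X (fun P => δ P + β P) N ω → ∀ D, ω D = 0) :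
    ∃ F : Submodule K (Derivation ℂ K K), F ≠ ⊥ ∧
      ((∀ P ∈ X, 0 ≤ β P) → ∀ D ∈ F, ∀ E ∈ F, ⁅D, E⁆ ∈ F) ∧
      (∀ σ ∈ G, ∀ D ∈ F, ∀ E, Image σ D E → E ∈ F) ∧
      ∀ m : ℕ, 0 < m → ∀ q : ℚ, -(m / n : ℚ) < q →
        ∀ s : MultilinearMap K (fun _ : Fin m => F) (AlgebraicClosure K),
        LeafAdapted n X δ (fun P => (m : ℝ) / n * β P + q * (k P + δ P + β P)) F s → s = 0 := by
  classical
  obtain ⟨x, b, hF⟩ := exists_fr htr
  have hfin := hF.finite
  have hn' : (0 : ℝ) < n := by exact_mod_cast hn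
  have hnq : (0 : ℚ) < n := by exact_mod_cast hn
  obtain ⟨y, hy, hvt⟩ := vs_top htr hδ hω hω0 hk
  obtain ⟨l, hl⟩ : ∃ l : Place ℂ K → ℝ, l = fun P => k P + δ P + β P := ⟨_, rfl⟩
  -- the volume of the tangent bundle
  have htopv : ∀ t : ℝ, ∀ P ∈ X, Divisorial n P →
      hh n δ (fun P => β P + t * l P) ⊤ P = -((1 + t) * l P) + P.ord y := by
    intro t P hPX hP
    unfold hh
    rw [finrank_top, hF.finrank, div_self hn'.ne', hvt P hPX hP, hl]
    ring
  have hle : ¬ Eff n X fun P => -(l P) := by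
    intro h
    have h1 : Eff n X (hh n δ β ⊤) := by
      obtain ⟨N, hN, z, hz, h⟩ := h
      refine ⟨N, hN, z * y ^ N, mul_ne_zero hz (pow_ne_zero _ hy), fun P hPX hP => ?_⟩
      have h2 := htopv 0 P hPX hP
      have h3 : (fun P => β P + (0 : ℝ) * l P) = β := by funext P; ring
      rw [h3] at h2
      rw [h2, P.ord_mul hz (pow_ne_zero _ hy), P.ord_pow]
      push_cast
      linarith [h P hPX hP]
    obtain ⟨N, hN, ω, hω, D, hD⟩ := section_of_eff hn htr hδ h1
    exact hD (hno N hN ω hω D)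
  obtain ⟨C, hEC, hC, htot, hxC⟩ := exists_total (E := {f | Eff n X f}) isCone_eff
    (x0 := fun P => -(l P)) hle
  have hlC : l ∈ C := by
    rcases htot l with h | h
    · exact h
    · exact absurd h hxC
  -- principal divisors
  have hpr : ∀ z : K, z ≠ 0 → ∀ f g : Place ℂ K → ℝ,
      (∀ P ∈ X, Divisorial n P → f P = g P + P.ord z) → g ∈ C → f ∈ C := by
    intro z hz f g hfg hg
    have h1 : f - g ∈ C := by
      refine hEC ⟨1, Nat.one_pos, z, hz, fun P hPX hP => ?_⟩
      rw [Pi.sub_apply, hfg P hPX hP]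
      push_cast
      linarith
    have h2 := hC.add _ h1 _ hg
    rwa [sub_add_cancel] at h2
  -- the volume of the tangent bundle is not in the cone
  have htopC : ∀ t : ℚ, -1 < t → ¬ hh n δ (fun P => β P + (t : ℝ) * l P) ⊤ ∈ C := by
    intro t ht h
    have h1 : (fun P => -((1 + (t : ℝ)) * l P)) ∈ C :=
      hpr y⁻¹ (inv_ne_zero hy) _ _ (fun P hPX hP => by
        rw [htopv t P hPX hP, P.ord_inv]
        push_cast
        ring) h
    have ht' : (0 : ℚ) < 1 + t := by linarith
    have h2 := hC.rat h1 (q := (1 + t)⁻¹) (inv_nonneg.mpr ht'.le)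
    apply hxC
    have h3 : (fun P => (((1 + t)⁻¹ : ℚ) : ℝ) * -((1 + (t : ℝ)) * l P)) = fun P => -(l P) := by
      funext P
      have h4 : (1 + (t : ℝ)) ≠ 0 := by
        have : ((1 + t : ℚ) : ℝ) ≠ 0 := by exact_mod_cast ht'.ne'
        push_cast at this
        exact this
      push_cast
      field_simp
    rw [h3] at h2
    exact h2
  let H : ℚ → Submodule K (Derivation ℂ K K) → Place ℂ K → ℝ := fun t V =>
    hh n δ (fun P => β P + (t : ℝ) * l P) V
  have hsuper : ∀ (t : ℚ) a c, H t a + H t c - (H t (a ⊔ c) + H t (a ⊓ c)) ∈ C :=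
    fun t a c => hEC (hh_super htr hδ a c)
  -- comparison of the twists
  have hcomp : ∀ (t t' : ℚ) (V W : Submodule K (Derivation ℂ K K)), t ≤ t' →
      Module.finrank K V ≤ Module.finrank K W → H t V - H t W ∈ C → H t' V - H t' W ∈ C := by
    intro t t' V W htt hVW h
    have hq : (0 : ℚ) ≤ ((Module.finrank K W : ℚ) - Module.finrank K V) / n * (t' - t) := by
      have h1 : (Module.finrank K V : ℚ) ≤ Module.finrank K W := by exact_mod_cast hVW
      exact mul_nonneg (div_nonneg (by linarith) hnq.le) (by linarith)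
    have h1 := hC.add _ h _ (hC.rat hlC hq)
    have h2 : H t V - H t W + (fun P => ((((Module.finrank K W : ℚ) - Module.finrank K V) / n *
        (t' - t) : ℚ) : ℝ) * l P) = H t' V - H t' W := by
      simp only [H]
      rw [hh_twist (n := n) δ β l V t' t, hh_twist (n := n) δ β l W t' t]
      funext P
      simp only [Pi.add_apply, Pi.sub_apply]
      push_cast
      ring
    rw [h2] at h1
    exact h1
  have hcomp' : ∀ (t t' : ℚ) (V W : Submodule K (Derivation ℂ K K)), t ≤ t' →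
      Module.finrank K V ≤ Module.finrank K W → H t' W - H t' V ∈ C → H t W - H t V ∈ C := by
    intro t t' V W htt hVW h
    have hq : (0 : ℚ) ≤ ((Module.finrank K W : ℚ) - Module.finrank K V) / n * (t' - t) := by
      have h1 : (Module.finrank K V : ℚ) ≤ Module.finrank K W := by exact_mod_cast hVW
      exact mul_nonneg (div_nonneg (by linarith) hnq.le) (by linarith)
    have h1 := hC.add _ h _ (hC.rat hlC hq)
    have h2 : H t' W - H t' V + (fun P => ((((Module.finrank K W : ℚ) - Module.finrank K V) / n *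
        (t' - t) : ℚ) : ℝ) * l P) = H t W - H t V := by
      simp only [H]
      rw [hh_twist (n := n) δ β l V t' t, hh_twist (n := n) δ β l W t' t]
      funext P
      simp only [Pi.add_apply, Pi.sub_apply]
      push_cast
      ring
    rw [h2] at h1
    exact h1
  -- strict minima
  let Good : ℚ → Submodule K (Derivation ℂ K K) → Prop := fun t V => InvSub G V ∧
    (∀ W, InvSub G W → H t W - H t V ∈ C) ∧ ∀ W, InvSub G W → W < V → ¬ H t V - H t W ∈ C
  have hgood : ∀ t : ℚ, ∃ V, Good t V := fun t =>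
    exists_strict_min hC htot
      (L := fun W : Submodule K (Derivation ℂ K K) => InvSub G W) invSub_bot
      (fun _ _ _ _ => Submodule.mem_top) (fun _ _ => invSub_sup) (fun _ _ => invSub_inf)
      (fun W => Module.finrank K W) (fun _ _ h => Submodule.finrank_lt_finrank_of_lt h)
      (H t) fun a c _ _ => hsuper t a c
  have hex : ∃ d, ∃ t : ℚ, -1 < t ∧ t ≤ 0 ∧ ∃ V, Good t V ∧ Module.finrank K V = d := by
    obtain ⟨V, hV⟩ := hgood 0
    exact ⟨_, 0, by norm_num, le_rfl, V, hV, rfl⟩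
  obtain ⟨t0, ht0, ht0', V, hVgood, hVd⟩ := Nat.find_spec hex
  have hminimal : ∀ (t : ℚ) (V' : Submodule K (Derivation ℂ K K)), -1 < t → t ≤ 0 →
      Good t V' → Module.finrank K V ≤ Module.finrank K V' := by
    intro t V' h1 h2 h3
    rw [hVd]
    exact Nat.find_min' hex ⟨t, h1, h2, V', h3, rfl⟩
  have hV := hVgood.1
  -- the properties of the distribution for all twists
  have hall : ∀ t : ℚ, -1 < t → (∀ W, InvSub G W → W ≤ V → H t W - H t V ∈ C) ∧
      ∀ W, InvSub G W → W < V → ¬ H t V - H t W ∈ C := by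
    intro t ht
    by_cases htt : t0 ≤ t
    · refine ⟨fun W hW hWV => hcomp t0 t W V htt (Submodule.finrank_mono hWV)
        (hVgood.2.1 W hW), fun W hW hWV h => ?_⟩
      exact hVgood.2.2 W hW hWV (hcomp' t0 t W V htt (Submodule.finrank_mono hWV.le) h)
    · push Not at htt
      obtain ⟨V', hV'⟩ := hgood t
      have hle' : V' ≤ V := by
        by_contra hno'
        have hlt : V' ⊓ V < V' := lt_of_le_of_ne inf_le_left fun h => hno' (by
          rw [← h]
          exact inf_le_right)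
        refine hV'.2.2 _ (invSub_inf hV'.1 hV) hlt ?_
        have h1 := hVgood.2.1 _ (invSub_sup hV'.1 hV)
        have h2 : H t (V' ⊔ V) - H t V ∈ C :=
          hcomp' t t0 V (V' ⊔ V) htt.le (Submodule.finrank_mono le_sup_right) h1
        have h3 := hC.add _ (hsuper t V' V) _ h2
        have h4 : H t V' + H t V - (H t (V' ⊔ V) + H t (V' ⊓ V)) + (H t (V' ⊔ V) - H t V) =
            H t V' - H t (V' ⊓ V) := by abel
        rw [h4] at h3
        exact h3
      have heq : V' = V := Submodule.eq_of_le_of_finrank_le hle'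
        (hminimal t V' ht (htt.le.trans ht0') hV')
      rw [heq] at hV'
      exact ⟨fun W hW _ => hV'.2.1 W hW, hV'.2.2⟩
  -- the contradiction
  have key : ∀ t : ℚ, -1 < t → ∀ (M : ℕ) (W : ℕ → Submodule K (Derivation ℂ K K)), 0 < M →
      (∀ i, InvSub G (W i)) → (∀ i, W i ≤ V) → W 0 ≠ V →
      ∑ i ∈ Finset.range M, (H t V - H t (W i)) ∈ C → False := by
    intro t ht M W hM hW hWV h0 hsum
    exact (hall t ht).2 (W 0) (hW 0) (lt_of_le_of_ne (hWV 0) h0)
      (first_mem hC (H t) hM (fun i => (hall t ht).1 _ (hW i) (hWV i)) hsum)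
  refine ⟨V, ?_, ?_, ?_, ?_⟩
  · rintro rfl
    apply htopC t0 ht0
    have h1 := hVgood.2.1 ⊤ fun _ _ _ _ => Submodule.mem_top
    have h3 := hC.add _ h1 _ (hEC (hh_bot (β := fun P => β P + (t0 : ℝ) * l P) htr hδ))
    rwa [sub_add_cancel] at h3
  · intro hβ
    by_contra hno'
    push Not at hno'
    obtain ⟨D, hD, E, hE, hDE⟩ := hno'
    obtain ⟨M, R, Vt, Wt, hM, hVt, hWt, hVtV, hVt0, hrel⟩ :=
      rel_levi htr hδ (β := fun P => β P + (t0 : ℝ) * l P) hV ⟨D, hD, E, hE, hDE⟩
    refine key t0 ht0 M Vt hM hVt hVtV hVt0 ?_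
    have h1 := hC.sum (Finset.range R) (f := fun s => H t0 (Wt s) - H t0 V)
      fun s _ => hVgood.2.1 _ (hWt s)
    have h2 := hC.add _ (hEC hrel) _ h1
    have h3 : (fun P => -((R : ℝ) / n * β P)) ∈ C := by
      refine hEC ⟨1, Nat.one_pos, 1, one_ne_zero, fun P hPX hP => ?_⟩
      rw [P.ord_one]
      have h4 : 0 ≤ (R : ℝ) / n * β P :=
        mul_nonneg (div_nonneg (Nat.cast_nonneg _) (Nat.cast_nonneg _)) (hβ P hPX)
      push_cast
      linarith
    have h4 := hC.rat hlC (q := (R : ℚ) / n * (-t0))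
      (mul_nonneg (div_nonneg (Nat.cast_nonneg _) hnq.le) (by linarith))
    have h5 := hC.add _ (hC.add _ h2 _ h3) _ h4
    have h6 : ∑ t ∈ Finset.range M, (hh n δ (fun P => β P + (t0 : ℝ) * l P) V -
          hh n δ (fun P => β P + (t0 : ℝ) * l P) (Vt t)) -
        ∑ s ∈ Finset.range R, (hh n δ (fun P => β P + (t0 : ℝ) * l P) (Wt s) -
          hh n δ (fun P => β P + (t0 : ℝ) * l P) V) +
        (fun P => (R : ℝ) / n * (β P + (t0 : ℝ) * l P)) +
        ∑ s ∈ Finset.range R, (H t0 (Wt s) - H t0 V) + (fun P => -((R : ℝ) / n * β P)) +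
        (fun P => (((R : ℚ) / n * (-t0) : ℚ) : ℝ) * l P) =
        ∑ i ∈ Finset.range M, (H t0 V - H t0 (Vt i)) := by
      funext P
      simp only [H, Pi.add_apply, Pi.sub_apply, Finset.sum_apply]
      push_cast
      ring
    rw [h6] at h5
    exact h5
  · intro σ hσ D hD E hDE
    rw [image_eq hDE]
    exact hV σ hσ D hD
  · intro m hm q hq s hs
    by_contra hs0
    have hmq : (0 : ℚ) < m := by exact_mod_cast hm
    have ht : -1 < q * n / m := by
      rw [lt_div_iff₀ hmq]
      have h1 : -(m / n : ℚ) * n < q * n := mul_lt_mul_of_pos_right hq hnq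
      have h2 : -(m / n : ℚ) * n = -1 * m := by
        field_simp
      rw [← h2]
      exact h1
    have hfun : (fun P => (m : ℝ) / n * (β P + ((q * n / m : ℚ) : ℝ) * l P)) =
        fun P => (m : ℝ) / n * β P + q * (k P + δ P + β P) := by
      funext P
      rw [hl]
      have hm' : (0 : ℝ) < m := by exact_mod_cast hm
      push_cast
      field_simp
    obtain ⟨M, W, hM, hW, hWV, hW0, hrel⟩ := rel_tensor htr hδ
      (β := fun P => β P + ((q * n / m : ℚ) : ℝ) * l P) hV hm (by
        intro σ hσ s' hs' u hu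
        rw [hfun] at hs' ⊢
        exact pull_ex htr hω hω0 hk (hG σ hσ) (hV σ hσ) _ _ hs' hu)
      (s1 := s) (by rw [hfun]; exact hs) hs0
    exact key _ ht M W hM hW hWV hW0 (hEC hrel)

end

end Pool.Agent.Zk28.TF
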