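import Pool.Agent.Zk28.TF.WT

/-!
Many tensors: effectivity or an invariant fibration.
-/

set_option autoImplicit false
set_option linter.unusedSectionVars false

open FF Pool.Agent.W602.GT

namespace Pool.Agent.Zk28.TF

open Pool.Agent.Zk28.TS

section

variable {K : Type} [Field K] [Algebra ℂ K] {n p d : ℕ}

theorem inv_principal {X : Set (Place ℂ K)} {δ β : Place ℂ K → ℝ} {G : Set (K ≃ₐ[ℂ] K)}
    (_hG : ∀ g ∈ G, MPreserves X δ β g) {N : ℕ} (hN : 0 < N) {y : K} (hy : y ≠ 0) :
    InvariantClass n X G fun P => (P.ord y : ℝ) / N := by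
  intro g hg
  have hy' : g.symm y ≠ 0 := (map_ne_zero_iff _ g.symm.injective).mpr hy
  refine ⟨N, hN, g.symm y / y, div_ne_zero hy' hy, fun P hPX hP Q hQX hQ hPQ => ?_⟩
  have h1 : Q.ord y = P.ord (g.symm y) := by
    rw [← hPQ, AlgEquiv.apply_symm_apply]
  have hN' : (N : ℝ) ≠ 0 := by exact_mod_cast hN.ne'
  beta_reduce
  rw [P.ord_div hy' hy, h1]
  push_cast
  field_simp

variable {X : Set (Place ℂ K)} {δ : Place ℂ K → ℝ} {k : Place ℂ K → ℤ}
  {G : Set (K ≃ₐ[ℂ] K)} {Qs : Set ℚ} {s : Fin d → MTensor K (Fin p)} {q : Fin d → ℚ}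
  {c : AlgebraicClosure K} {σ : STensor K (Fin d × Fin p)}

/-- The effective divisor of a basis. -/
noncomputable def Ed (δ : Place ℂ K → ℝ) (k : Place ℂ K → ℤ) (σ : STensor K (Fin d × Fin p))
    (Q : ℚ) (N : ℕ) (y : K) : Place ℂ K → ℝ :=
  fun P => (Q : ℝ) * (k P + δ P) + vT δ σ P + P.ord y / N

theorem Datum.fib (h : Datum n X δ k G Qs s q c σ) [Algebra.EssFiniteType ℂ K] (hn : 1 ≤ n)
    (htr : Algebra.trdeg ℂ K = n) (hδ : ∀ P ∈ X, 0 ≤ δ P ∧ δ P ≤ 1)
    {ω : (Fin n → Derivation ℂ K K) → K} (hω : IsPluri 1 ω)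
    (hω0 : ∃ D, ω D ≠ 0) (hk : DivOf n X ω k)
    (hG : ∀ g ∈ G, MPreserves X δ (fun _ => (0 : ℝ)) g)
    (hno : ¬ ∃ N : ℕ, 0 < N ∧ ∃ η : (Fin n → Derivation ℂ K K) → K,
      IsSection n X δ N η ∧ ∃ D, η D ≠ 0)
    (hp : 0 < p) (hd : 0 < d) (hq : ∀ i, -(p / n : ℚ) < q i)
    {N : ℕ} (hN : 0 < N) {y : K} (hy : y ≠ 0)
    (he0 : ∀ P ∈ X, Divisorial n P → 0 ≤ Ed δ k σ (∑ i, q i) N y P)
    {f : K} (hf : Transcendental ℂ f) {a : ℕ} (hfa : Sec n X (Ed δ k σ (∑ i, q i) N y) a f) :
    PreservesFibration G := by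
  classical
  have hN' : (N : ℝ) ≠ 0 := by exact_mod_cast hN.ne'
  obtain ⟨ζ, hζ⟩ := IsAlgClosed.exists_pow_nat_eq (algebraMap K (AlgebraicClosure K) y) hN
  have hζ0 : ζ ≠ 0 := by
    intro h0
    rw [h0, zero_pow hN.ne'] at hζ
    exact hy ((map_eq_zero _).mp hζ.symm)
  let ε : Fin d × Fin p ≃ Fin (d * p) := finProdFinEquiv
  let s0 : MultilinearMap K (fun _ : Fin (d * p) => (⊤ : Submodule K (Derivation ℂ K K)))
      (AlgebraicClosure K) :=
    ζ • ((Algebra.linearMap K (AlgebraicClosure K)).compMultilinearMap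
      (σ.domDomCongr ε)).compLinearMap fun _ => (⊤ : Submodule K (Derivation ℂ K K)).subtype
  have hs0v : ∀ D, s0 D = ζ * algebraMap K _ (σ fun x => (D (ε x) : Derivation ℂ K K)) :=
    fun D => rfl
  have hinvE : InvariantClass n X G (Ed δ k σ (∑ i, q i) N y) := by
    have h1 := inv_comb (inv_comb (inv_L htr hω hω0 hk hG) (h.inv htr hω hω0 hk hG)
      (∑ i, q i) 1) (inv_principal (n := n) hG hN hy) 1 1
    convert h1 using 1
    funext P
    unfold Ed
    push_cast
    ring
  refine moving_fib hn htr hδ hω hω0 hk hG hno hinvE he0 (m0 := d * p) (Nat.mul_pos hd hp)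
    (Q := ∑ i, q i) ?_ (s0 := s0) ?_ ?_ hf hfa
  · have h1 : ∑ i : Fin d, -(p / n : ℚ) < ∑ i, q i := by
      refine Finset.sum_lt_sum_of_nonempty ?_ fun i _ => hq i
      exact ⟨⟨0, hd⟩, Finset.mem_univ _⟩
    rw [Finset.sum_const, Finset.card_univ, Fintype.card_fin, nsmul_eq_mul] at h1
    refine lt_of_le_of_lt (le_of_eq ?_) h1
    push_cast
    ring
  · intro P hPX hP D hD
    rw [hs0v]
    have h1 := vT_le (h.bdd hPX hP) (D := fun x => (D (ε x) : Derivation ℂ K K))
      fun x => hD _
    have h2 := AlgOrd.mul_root (AlgOrd.of_GR h1) hN hy hζ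
    have h3 : ({x | ¬ DerLog P (D (ε x) : Derivation ℂ K K)}.ncard : ℝ) =
        ({a | ¬ DerLog P (D a : Derivation ℂ K K)}.ncard : ℝ) := by
      rw [ncard_eq' fun x => ¬ DerLog P (D (ε x) : Derivation ℂ K K),
        ncard_eq' fun a => ¬ DerLog P (D a : Derivation ℂ K K)]
      convert Equiv.sum_comp ε fun a => if ¬ DerLog P (D a : Derivation ℂ K K) then (1 : ℝ) else 0
    rw [h3] at h2
    convert h2 using 1
    unfold Ed
    ring
  · intro h0
    apply h.sigma_ne
    ext D
    have h1 := congrArg (fun t => t fun a => (⟨D (ε.symm a), Submodule.mem_top⟩ :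
      (⊤ : Submodule K (Derivation ℂ K K)))) h0
    rw [hs0v] at h1
    change _ = (0 : AlgebraicClosure K) at h1
    have h2 := (map_eq_zero _).mp ((mul_eq_zero.mp h1).resolve_left hζ0)
    have h3 : (fun x => D (ε.symm (ε x))) = D := funext fun x => by rw [Equiv.symm_apply_apply]
    change σ (fun x => D (ε.symm (ε x))) = 0 at h2
    rw [h3] at h2
    exact h2

/-- The divisors are effective. -/
theorem Datum.nonneg (h : Datum n X δ k G Qs s q c σ) [Algebra.EssFiniteType ℂ K]
    (htr : Algebra.trdeg ℂ K = n) {N : ℕ} (hN : 0 < N) {y : K}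
    (hNy : ∀ (P : Place ℂ K) (r : ℝ), AlgOrd P r c → N * r ≤ P.ord y) :
    ∀ P ∈ X, Divisorial n P → 0 ≤ Ed δ k σ (∑ i, q i) N y P := by
  intro P hPX hP
  have h1 := hNy P _ (h.order htr hPX hP)
  have hN' : (0 : ℝ) < N := by exact_mod_cast hN
  unfold Ed
  have h2 : -(((∑ i, q i : ℚ) : ℝ) * (k P + δ P) + vT δ σ P) ≤ P.ord y / N := by
    rw [le_div_iff₀ hN', mul_comm]
    exact h1
  linarith

end

section final

variable {K : Type} [Field K] [Algebra ℂ K] {n p d : ℕ}

theorem alg_mem_range {F : Type} [Field F] [Algebra ℂ F] {x : F} (hx : IsAlgebraic ℂ x) :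
    ∃ b : ℂ, algebraMap ℂ F b = x := by
  have h1 : IsIntegral ℂ x := isAlgebraic_iff_isIntegral.mp hx
  exact minpoly.mem_range_of_degree_eq_one ℂ x
    (IsAlgClosed.degree_eq_one_of_irreducible ℂ (minpoly.irreducible h1))

/-- Vectors with constant coordinates. -/
theorem indep_of_const {N : ℕ} {W : Type} [AddCommGroup W] [Module (AlgebraicClosure K) W]
    {s : Fin d → W} (hs : LinearIndependent (AlgebraicClosure K) s) {t : Fin N → W}
    {B : Fin N → Fin d → ℂ}
    (hB : ∀ j, t j = ∑ i, algebraMap ℂ (AlgebraicClosure K) (B j i) • s i)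
    (ht : ∀ g : Fin N → ℂ, ∑ j, algebraMap ℂ (AlgebraicClosure K) (g j) • t j = 0 → g = 0) :
    LinearIndependent (AlgebraicClosure K) t := by
  classical
  obtain ⟨u, hu⟩ := exists_det_ne (fun (i : Fin d) (j : Fin N) => B j i) (by
    intro c hc
    apply ht
    rw [Finset.sum_congr rfl fun j _ => by rw [hB j, Finset.smul_sum]]
    rw [Finset.sum_comm]
    refine Finset.sum_eq_zero fun i _ => ?_
    simp only [smul_smul, ← map_mul]
    rw [← Finset.sum_smul, ← map_sum, hc i, map_zero, zero_smul])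
  rw [Fintype.linearIndependent_iff]
  intro g hg
  have h1 : ∀ i, ∑ j, g j * algebraMap ℂ (AlgebraicClosure K) (B j i) = 0 := by
    rw [Fintype.linearIndependent_iff] at hs
    refine hs _ ?_
    rw [← hg]
    simp only [Finset.sum_smul]
    rw [Finset.sum_comm]
    refine Finset.sum_congr rfl fun j _ => ?_
    rw [hB j, Finset.smul_sum]
    exact Finset.sum_congr rfl fun i _ => by rw [smul_smul]
  have h2 : Matrix.vecMul g ((Matrix.of fun j l => B j (u l)).map
      (algebraMap ℂ (AlgebraicClosure K))) = 0 := by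
    funext l
    exact h1 (u l)
  have h3 : ((Matrix.of fun j l => B j (u l)).map (algebraMap ℂ (AlgebraicClosure K))).det ≠ 0 := by
    have h4 := (algebraMap ℂ (AlgebraicClosure K)).map_det (Matrix.of fun j l => B j (u l))
    change _ = ((Matrix.of fun j l => B j (u l)).map (algebraMap ℂ (AlgebraicClosure K))).det at h4
    rw [← h4]
    exact (map_ne_zero _).mpr hu
  have h4 := Matrix.eq_zero_of_vecMul_eq_zero h3 h2
  intro j
  exact congrFun h4 j

theorem finite_MTensor (htr : Algebra.trdeg ℂ K = n) :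
    FiniteDimensional (AlgebraicClosure K) (MTensor K (Fin p)) ∧
      Module.finrank (AlgebraicClosure K) (MTensor K (Fin p)) ≤ n ^ p := by
  classical
  obtain ⟨x, b, hF⟩ := exists_fr htr
  let B : Module.Basis (Fin n) K (Derivation ℂ K K) := Module.Basis.mk hF.indep hF.span.ge
  let φ : MTensor K (Fin p) →ₗ[AlgebraicClosure K] ((Fin p → Fin n) → AlgebraicClosure K) :=
    { toFun := fun s J => s fun a => B (J a)
      map_add' := fun s t => rfl
      map_smul' := fun c s => rfl }
  have hφ : Function.Injective φ := by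
    intro s t h
    exact Module.Basis.ext_multilinear (fun _ => B) fun J => congrFun h J
  have h1 : FiniteDimensional (AlgebraicClosure K) (MTensor K (Fin p)) :=
    FiniteDimensional.of_injective φ hφ
  refine ⟨h1, ?_⟩
  have h2 := LinearMap.finrank_le_finrank_of_injective hφ
  rw [Module.finrank_fintype_fun_eq_card, Fintype.card_fun, Fintype.card_fin,
    Fintype.card_fin] at h2
  exact h2

/-- A basis of the span of a set. -/
theorem exists_basis_of_set (htr : Algebra.trdeg ℂ K = n) (T : Set (MTensor K (Fin p))) {d : ℕ}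
    (hd : Module.finrank (AlgebraicClosure K) (Submodule.span (AlgebraicClosure K) T) = d) :
    ∃ s : Fin d → MTensor K (Fin p), (∀ i, s i ∈ T) ∧ LinearIndependent (AlgebraicClosure K) s ∧
      Submodule.span (AlgebraicClosure K) (Set.range s) =
        Submodule.span (AlgebraicClosure K) T := by
  classical
  have hfin := (finite_MTensor (K := K) (n := n) (p := p) htr).1
  obtain ⟨B, hB, hBspan, hBli⟩ := exists_linearIndependent (AlgebraicClosure K) T
  have hBfin : Finite B := hBli.setFinite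
  have hBft : Fintype B := Fintype.ofFinite B
  have hcard : Fintype.card (Fin d) = Fintype.card B := by
    rw [Fintype.card_fin, ← hd, ← hBspan]
    have h1 := finrank_span_eq_card hBli
    rwa [Subtype.range_coe] at h1
  let e := Fintype.equivOfCardEq hcard
  refine ⟨fun i => (e i : MTensor K (Fin p)), fun i => hB (e i).2, hBli.comp _ e.injective, ?_⟩
  have h1 : Set.range (fun i => (e i : MTensor K (Fin p))) = B := by
    have h2 : (fun i => (e i : MTensor K (Fin p))) = Subtype.val ∘ e := rfl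
    rw [h2, Set.range_comp, e.surjective.range_eq, Set.image_univ, Subtype.range_coe]
  rw [h1, hBspan]

/-- **The numerical criterion.** -/
theorem numeric [Algebra.EssFiniteType ℂ K] (hn : 1 ≤ n)
    (htr : Algebra.trdeg ℂ K = n) {X : Set (Place ℂ K)} {δ : Place ℂ K → ℝ}
    (hδ : ∀ P ∈ X, 0 ≤ δ P ∧ δ P ≤ 1)
    {ω : (Fin n → Derivation ℂ K K) → K} (hω : IsPluri 1 ω)
    (hω0 : ∃ D, ω D ≠ 0) {k : Place ℂ K → ℤ} (hk : DivOf n X ω k) {G : Set (K ≃ₐ[ℂ] K)}
    (hG : ∀ g ∈ G, MPreserves X δ (fun _ => (0 : ℝ)) g)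
    (hno : ¬ ∃ N : ℕ, 0 < N ∧ ∃ η : (Fin n → Derivation ℂ K K) → K,
      IsSection n X δ N η ∧ ∃ D, η D ≠ 0) (hfib : ¬ PreservesFibration G)
    (hp : 0 < p) {r : ℚ} (hr : -(p / n : ℚ) < r) {N : ℕ} {t : Fin N → MTensor K (Fin p)}
    (ht : ∀ j, MAdapted n X δ (fun P => r * (k P + δ P)) (t j))
    (hti : LinearIndependent ℂ t) : LinearIndependent (AlgebraicClosure K) t := by
  classical
  by_contra hdep
  apply hfib
  obtain ⟨d, hdd⟩ : ∃ d, Module.finrank (AlgebraicClosure K) (Submodule.span (AlgebraicClosure K)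
    {t : MTensor K (Fin p) | MAdapted n X δ (fun P => r * (k P + δ P)) t}) = d := ⟨_, rfl⟩
  obtain ⟨s, hsT, hsli, hsspan⟩ := exists_basis_of_set htr
    {t : MTensor K (Fin p) | MAdapted n X δ (fun P => r * (k P + δ P)) t} hdd
  obtain ⟨c, σ, h⟩ := exists_datum (n := n) (X := X) (δ := δ) (k := k) G (Qs := {r}) (s := s)
    (q := fun _ => r) (fun _ => rfl) hsT hsli (by
      rintro _ rfl t ht
      rw [hsspan]
      exact Submodule.subset_span ht)
  choose B hB using fun j => (Submodule.mem_span_range_iff_exists_fun _).mp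
    (h.span r rfl (t j) (ht j))
  obtain ⟨j0, i0, htr0⟩ : ∃ j i, Transcendental ℂ (B j i) := by
    by_contra hno'
    push Not at hno'
    apply hdep
    have h1 : ∀ j i, ∃ b : ℂ, algebraMap ℂ (AlgebraicClosure K) b = B j i := by
      intro j i
      have h2 := hno' j i
      rw [Transcendental, not_not] at h2
      exact alg_mem_range h2
    choose b hb using h1
    refine indep_of_const hsli (B := b) (fun j => ?_) fun g hg => ?_
    · rw [← hB j]
      exact Finset.sum_congr rfl fun i _ => by rw [hb]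
    · rw [Fintype.linearIndependent_iff] at hti
      funext j
      refine hti g ?_ j
      rw [← hg]
      refine Finset.sum_congr rfl fun j _ => ?_
      ext D
      change g j • t j D = algebraMap ℂ (AlgebraicClosure K) (g j) * t j D
      rw [Algebra.smul_def]
  have hd : 0 < d := lt_of_le_of_lt (Nat.zero_le _) i0.2
  have hB0 : B j0 i0 ≠ 0 := by
    intro h0
    rw [h0] at htr0
    exact htr0 isAlgebraic_zero
  let A : Fin d → Fin d → AlgebraicClosure K := fun i j =>
    if i = i0 then B j0 j else if i = j then 1 else 0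
  have hdet : (Matrix.of A).det = B j0 i0 := by
    have h1 : Matrix.of A = (1 : Matrix (Fin d) (Fin d) (AlgebraicClosure K)).updateRow i0
        (B j0) := by
      ext i j
      by_cases hi : i = i0
      · subst hi
        rw [Matrix.updateRow_self]
        simp [A]
      · rw [Matrix.updateRow_ne hi]
        simp [A, hi, Matrix.one_apply]
    rw [h1, ← Matrix.det_transpose, ← Matrix.updateCol_transpose, Matrix.transpose_one,
      ← Matrix.cramer_apply, Matrix.cramer_one]
    rfl
  let s' : Fin d → MTensor K (Fin p) := Function.update s i0 (t j0)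
  have hs' : ∀ i, s' i = ∑ j, A i j • s j := by
    intro i
    by_cases hi : i = i0
    · subst hi
      simp only [s', A, Function.update_self, if_true]
      exact (hB j0).symm
    · simp only [s', A, Function.update_of_ne hi, if_neg hi]
      simp
  have hli' : LinearIndependent (AlgebraicClosure K) s' := by
    rw [Fintype.linearIndependent_iff] at hsli ⊢
    intro g hg
    have h1 : ∀ j, ∑ i, g i * A i j = 0 := by
      refine hsli _ ?_
      rw [← hg]
      simp only [Finset.sum_smul]
      rw [Finset.sum_comm]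
      refine Finset.sum_congr rfl fun i _ => ?_
      rw [hs' i, Finset.smul_sum]
      exact Finset.sum_congr rfl fun j _ => by rw [smul_smul]
    have h2 : Matrix.vecMul g (Matrix.of A) = 0 := funext h1
    have h3 := Matrix.eq_zero_of_vecMul_eq_zero (by rw [hdet]; exact hB0) h2
    intro i
    exact congrFun h3 i
  have h' := h.other (s' := s') (q' := fun _ => r) (fun _ => rfl) (fun i => by
    by_cases hi : i = i0
    · subst hi
      simp only [s', Function.update_self]
      exact ht j0
    · simp only [s', Function.update_of_ne hi]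
      exact hsT i) hli' hs'
  rw [hdet] at h'
  obtain ⟨N1, y, hN1, hy, hNy⟩ := exists_alg_norm h.c_ne
  obtain ⟨a, y', ha, hy', hay⟩ := exists_nonconst_coeff htr0
  have hN1' : (0 : ℝ) < N1 := by exact_mod_cast hN1
  refine h.fib hn htr hδ hω hω0 hk hG hno hp hd (fun _ => hr) hN1 hy
    (h.nonneg htr hN1 fun P r hr => (hNy P r hr).1) hy' (a := a * N1) ⟨?_, fun P hPX hP => ?_⟩
  · rintro rfl
    exact hy' isAlgebraic_zero
  · have h1 := h'.order htr hPX hP
    have h2 := (hNy P _ (h.order htr hPX hP)).2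
    have h3 := (h1.mul h2).mul (AlgOrd.of_GR (P := P) (r := -(P.ord y : ℝ)) (f := y⁻¹)
      (Or.inr (by rw [P.ord_inv]; push_cast; exact le_rfl)))
    have h4 : B j0 i0 * c * (algebraMap K (AlgebraicClosure K) y / c) *
        algebraMap K (AlgebraicClosure K) y⁻¹ = B j0 i0 := by
      have h5 := h.c_ne
      have h6 : algebraMap K (AlgebraicClosure K) y ≠ 0 := (map_ne_zero _).mpr hy
      rw [map_inv₀]
      field_simp
    rw [h4] at h3
    have h5 := hay P _ h3
    refine le_trans (le_of_eq ?_) h5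
    unfold Ed
    push_cast
    field_simp
    ring

end final

end Pool.Agent.Zk28.TF
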