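import Pool.Agent.Zk28.TF.NDefs
import Pool.Agent.Zk28.TF.LeafDiv

set_option autoImplicit false
open FF Pool.Agent.W602.GT
namespace Pool.Agent.Zk28.TF
open Pool.Agent.Zk28.TS

variable {K : Type} [Field K] [Algebra ℂ K] {n : ℕ}

/-- module ZN -/
theorem exists_maxNull_stm {X : Set (Place ℂ K)} {G : Set (K ≃ₐ[ℂ] K)} {L : Place ℂ K → ℝ}
    (hG : ∀ σ ∈ G, ∀ P ∈ X, ∃ Q ∈ X, ∀ f, Q.ord (σ f) = P.ord f)
    (hinv : InvariantClass n X G L) (hL : NotAntiEffective n X L)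
    (hno : ¬ Eff n X fun P => -L P) : ∃ A, MaxNullGroup n X G L A := by
  sorry

/-- module IV -/
theorem inv_vs_stm [Algebra.EssFiniteType ℂ K] [Module.Finite K (Derivation ℂ K K)]
    (htr : Algebra.trdeg ℂ K = n) {X : Set (Place ℂ K)} {δ β : Place ℂ K → ℝ}
    (hδ : ∀ P ∈ X, 0 ≤ δ P ∧ δ P ≤ 1) {G : Set (K ≃ₐ[ℂ] K)}
    (hG : ∀ σ ∈ G, MPreserves X δ β σ) {W : Submodule K (Derivation ℂ K K)}
    (hW : InvSub G W) : InvariantClass n X G (vs δ W) := by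
  sorry

/-- module TC -/
theorem exists_total_avoid_stm {M : Type*} [AddCommGroup M] {E S : Set M} (hE : IsCone E)
    (hadd : ∀ x ∈ S, ∀ y ∈ S, x + y ∈ S) (hES : ∀ x ∈ S, x ∉ E) :
    ∃ C, E ⊆ C ∧ IsCone C ∧ (∀ x, x ∈ C ∨ -x ∈ C) ∧ ∀ x ∈ S, x ∉ C := by
  sorry

end Pool.Agent.Zk28.TF
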