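import Pool.Agent.Zk28.TS.Nrm

/-!
Orders of relative invariants with respect to general norms.
-/

set_option autoImplicit false
set_option linter.unusedSectionVars false

open MvPolynomial Pool.Agent.Helper819.Apolar FF Pool.Agent.W602.GT

namespace Pool.Agent.Zk28.TF

open Pool.Agent.Zk28.TS

theorem sum_count {ι : Type*} [Fintype ι] {n : ℕ} (f : ι → Fin n) (η : Fin n → ℝ) :
    ∑ p, η (f p) = ∑ i, ((Finset.univ.filter fun p => f p = i).card : ℝ) * η i := by
  classical
  have h1 : ∀ p, η (f p) = ∑ i, if f p = i then η i else 0 := fun p => by simp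
  rw [Finset.sum_congr rfl fun p _ => h1 p, Finset.sum_comm]
  refine Finset.sum_congr rfl fun i _ => ?_
  rw [← Finset.sum_filter, Finset.sum_const, nsmul_eq_mul]

section

variable {K : Type} [Field K] [CharZero K] {n m : ℕ} {S : Type}
variable {k : Type} [Field k] [CharZero k] [Algebra k K]

/-- The order of the relative invariants. -/
theorem Qv_ordG (P : Place k K) (η : Fin n → ℝ) {γ : ℝ} (v : S → (Fin m → Fin n) → K)
    (hv : ∀ s J, GR P ((∑ a, η (J a)) + γ) (v s J))
    (N q : ℕ) (l : Fin q → S × (Fin m → Fin n)) : GR P (N * (∑ i, η i) + q * γ) (Qv v N q l) := by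
  classical
  unfold Qv
  have h1 : ∏ i, PP v (l i) = ∑ L : Fin q → (Fin m → Fin n),
      C (∏ i, v (l i).1 (L i)) * ∏ p : Fin q × Fin m, X (L p.1 p.2, (l p.1).2 p.2) := by
    unfold PP ta
    rw [Finset.prod_univ_sum, Fintype.piFinset_univ]
    refine Finset.sum_congr rfl fun L _ => ?_
    rw [Finset.prod_mul_distrib, map_prod, mul_comm, Fintype.prod_prod_type]
    rfl
  rw [h1, rho_sum]
  refine GR.sum _ fun L _ => ?_
  rw [rho_smul]
  by_cases h0 : rho N (∏ p : Fin q × Fin m,
      (X (L p.1 p.2, (l p.1).2 p.2) : MvPolynomial (Fin n × Fin n) K)) = 0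
  · rw [h0, mul_zero]; exact GR.zero
  have h2 : ∀ i0, (Finset.univ.filter fun p : Fin q × Fin m => L p.1 p.2 = i0).card = N :=
    fun i0 => rho_row Finset.univ (fun p : Fin q × Fin m => L p.1 p.2)
      (fun p => (l p.1).2 p.2) N i0 h0
  have h3 : GR P 0 (rho N (∏ p : Fin q × Fin m,
      (X (L p.1 p.2, (l p.1).2 p.2) : MvPolynomial (Fin n × Fin n) K))) := by
    have h4 : (∏ p : Fin q × Fin m,
        (X (L p.1 p.2, (l p.1).2 p.2) : MvPolynomial (Fin n × Fin n) K)) =
        map (algebraMap k K) (∏ p : Fin q × Fin m, X (L p.1 p.2, (l p.1).2 p.2)) := by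
      rw [map_prod]
      exact Finset.prod_congr rfl fun p _ => (map_X _ _).symm
    rw [h4, rho_map]
    refine Or.inr ?_
    rw [P.ord_const]
    · simp
    · intro h5
      rw [h4, rho_map, h5, map_zero] at h0
      exact h0 rfl
  have h4 : GR P (∑ i, ((∑ a, η (L i a)) + γ)) (∏ i, v (l i).1 (L i)) :=
    GR.prod _ fun i _ => hv _ _
  have h5 : ∑ i, ((∑ a, η (L i a)) + γ) = N * (∑ i, η i) + q * γ := by
    rw [Finset.sum_add_distrib, Finset.sum_const, Finset.card_univ, Fintype.card_fin,
      nsmul_eq_mul]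
    congr 1
    have h6 := sum_count (fun p : Fin q × Fin m => L p.1 p.2) η
    rw [Fintype.sum_prod_type] at h6
    rw [h6, Finset.mul_sum]
    exact Finset.sum_congr rfl fun i _ => by rw [h2]
  rw [h5] at h4
  have h6 := h4.mul h3
  rwa [add_zero] at h6

variable {Q T M : ℕ}

/-- The order of the auxiliary tensors. -/
theorem aux_ordG (P : Place k K) (η : Fin n → ℝ) {γ : ℝ} {a : Fin n → ℕ} (haT : ∀ i, a i ≤ T)
    (w : Fin n → ℝ) (e : (Σ j : Fin Q ⊕ Fin T, kap m Q T a j) ≃ Fin M)
    (v : S → (Fin m → Fin n) → K)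
    (hv : ∀ s J, GR P ((∑ a, η (J a)) + γ) (v s J))
    (s : Fin Q → S) (J : Fin M → Fin n) :
    GR P ((∑ p, η (J p)) + (-(∑ i, a i * η i) + Q * γ)) (aux a w e v s J) := by
  classical
  rw [aux_eq]
  by_cases hdet : ∃ t : Fin T, (Matrix.of fun i i' : {i : Fin n // (t : ℕ) < a i} =>
        (Pi.single (J (e ⟨Sum.inr t, i⟩)) (1 : K) : Fin n → K) i').det = 0
  · obtain ⟨t, ht⟩ := hdet
    rw [Finset.prod_eq_zero (Finset.mem_univ t) ht, mul_zero]
    exact GR.zero
  push Not at hdet
  -- the number of indices equal to `i0`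
  have hcount : ∀ (t : Fin T) (i0 : Fin n), (∑ i : {i : Fin n // (t : ℕ) < a i},
      if J (e ⟨Sum.inr t, i⟩) = i0 then (1 : ℕ) else 0) =
      ∑ i : {i : Fin n // (t : ℕ) < a i}, if (i : Fin n) = i0 then 1 else 0 := by
    intro t i0
    by_cases hi0 : (t : ℕ) < a i0
    · have h1 : (∑ i : {i : Fin n // (t : ℕ) < a i}, if (i : Fin n) = i0 then 1 else 0) = 1 := by
        rw [Finset.sum_eq_single (⟨i0, hi0⟩ : {i : Fin n // (t : ℕ) < a i})]
        · simp
        · intro i _ hi
          exact if_neg fun h => hi (Subtype.ext h)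
        · intro h
          exact absurd (Finset.mem_univ _) h
      rw [h1]
      obtain ⟨i1, hi1⟩ : ∃ i1 : {i : Fin n // (t : ℕ) < a i},
          J (e ⟨Sum.inr t, i1⟩) = i0 := by
        by_contra hno
        push Not at hno
        refine hdet t (Matrix.det_eq_zero_of_column_eq_zero (⟨i0, hi0⟩ :
          {i : Fin n // (t : ℕ) < a i}) fun i => ?_)
        exact Pi.single_eq_of_ne (fun h => hno i h.symm) _
      rw [Finset.sum_eq_single i1]
      · rw [if_pos hi1]
      · intro i _ hi
        refine if_neg fun h => hdet t (Matrix.det_zero_of_row_eq hi ?_)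
        funext i'
        change (Pi.single (J (e ⟨Sum.inr t, i⟩)) (1 : K) : Fin n → K) i' =
          (Pi.single (J (e ⟨Sum.inr t, i1⟩)) (1 : K) : Fin n → K) i'
        rw [h, hi1]
      · intro h
        exact absurd (Finset.mem_univ _) h
    · have hz1 : (∑ i : {i : Fin n // (t : ℕ) < a i},
          if J (e ⟨Sum.inr t, i⟩) = i0 then (1 : ℕ) else 0) = 0 := by
        refine Finset.sum_eq_zero fun i _ => ?_
        refine if_neg fun h => hdet t (Matrix.det_eq_zero_of_row_eq_zero i fun i' => ?_)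
        refine Pi.single_eq_of_ne (fun h' => hi0 ?_) _
        rw [← h, ← h']
        exact i'.2
      have hz2 : (∑ i : {i : Fin n // (t : ℕ) < a i},
          if (i : Fin n) = i0 then (1 : ℕ) else 0) = 0 := by
        refine Finset.sum_eq_zero fun i _ => if_neg fun h => hi0 ?_
        rw [← h]
        exact i.2
      rw [hz1, hz2]
  have hlev : ∀ t : Fin T, ∑ i : {i : Fin n // (t : ℕ) < a i}, η (J (e ⟨Sum.inr t, i⟩)) =
      ∑ i : {i : Fin n // (t : ℕ) < a i}, η i := by
    intro t
    rw [sum_count (fun i : {i : Fin n // (t : ℕ) < a i} => J (e ⟨Sum.inr t, i⟩)) η,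
      sum_count (fun i : {i : Fin n // (t : ℕ) < a i} => (i : Fin n)) η]
    refine Finset.sum_congr rfl fun i0 _ => ?_
    have h1 := hcount t i0
    rw [← Finset.card_filter, ← Finset.card_filter] at h1
    rw [h1]
  have hcard : ∑ p, η (J p) = ∑ k : Fin Q, ∑ x : Fin m, η (J (e ⟨Sum.inl k, x⟩)) +
        ∑ i, a i * η i := by
    have h1 : ∑ p, η (J p) = ∑ p : (Σ j : Fin Q ⊕ Fin T, kap m Q T a j), η (J (e p)) :=
      (e.sum_comp fun p => η (J p)).symm
    rw [h1, sum_pos]
    congr 1
    rw [Finset.sum_congr rfl fun t _ => hlev t]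
    have h2 := sum_level (T := T) a haT η
    rw [h2]
    exact Finset.sum_congr rfl fun i _ => by rw [nsmul_eq_mul]
  have h1 : GR P (∑ k : Fin Q, ((∑ x : Fin m, η (J (e ⟨Sum.inl k, x⟩))) + γ))
      (∏ k, lead w (v (s k)) fun x : Fin m => J (e ⟨Sum.inl k, x⟩)) := by
    refine GR.prod _ fun k _ => ?_
    unfold lead
    split_ifs
    · exact hv _ _
    · exact GR.zero
  have h2 : GR P 0 (∏ t : Fin T, (Matrix.of fun i i' : {i : Fin n // (t : ℕ) < a i} =>
      (Pi.single (J (e ⟨Sum.inr t, i⟩)) (1 : K) : Fin n → K) i').det) := by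
    have h3 := GR.prod (P := P) Finset.univ (r := fun _ : Fin T => (0 : ℝ))
      (f := fun t : Fin T => (Matrix.of fun i i' : {i : Fin n // (t : ℕ) < a i} =>
        (Pi.single (J (e ⟨Sum.inr t, i⟩)) (1 : K) : Fin n → K) i').det) fun t _ => by
      rw [Matrix.det_apply]
      refine GR.sum _ fun σ _ => ?_
      have h4 : GR P 0 (∏ i : {i : Fin n // (t : ℕ) < a i},
          (Matrix.of fun i i' : {i : Fin n // (t : ℕ) < a i} =>
            (Pi.single (J (e ⟨Sum.inr t, i⟩)) (1 : K) : Fin n → K) i') (σ i) i) := by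
        have h5 := GR.prod (P := P) Finset.univ
          (r := fun _ : {i : Fin n // (t : ℕ) < a i} => (0 : ℝ))
          (f := fun i => (Matrix.of fun i i' : {i : Fin n // (t : ℕ) < a i} =>
            (Pi.single (J (e ⟨Sum.inr t, i⟩)) (1 : K) : Fin n → K) i') (σ i) i) fun i _ => by
          change GR P 0 ((Pi.single (J (e ⟨Sum.inr t, σ i⟩)) (1 : K) : Fin n → K) i)
          by_cases h6 : (i : Fin n) = J (e ⟨Sum.inr t, σ i⟩)
          · rw [← h6, Pi.single_eq_same]
            exact GR.one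
          · rw [Pi.single_eq_of_ne h6]
            exact GR.zero
        simpa using h5
      rcases Int.units_eq_one_or (Equiv.Perm.sign σ) with h2 | h2
      · rw [h2, one_smul]; exact h4
      · rw [h2, Units.neg_smul, one_smul]
        rcases h4 with h4 | h4
        · rw [h4, neg_zero]; exact GR.zero
        · refine Or.inr ?_
          rw [P.ord_neg]
          exact h4
    simpa using h3
  have h3 := h1.mul h2
  refine h3.mono (le_of_eq ?_)
  rw [hcard, Finset.sum_add_distrib, Finset.sum_const, Finset.card_univ, Fintype.card_fin,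
    nsmul_eq_mul]
  ring

end

section

variable {K : Type} [Field K] [Algebra ℂ K] {n m : ℕ} {S : Type}

/-- The order of the norm of a relative invariant. -/
theorem norm_orderG [CharZero K] {L : Type} [Field L] [Algebra K L] [Algebra ℂ L]
    [IsScalarTower ℂ K L]
    [FiniteDimensional K L] [IsGalois K L] [CharZero L] {P : Place ℂ K} {w : Fin n → ℝ}
    (hw : Monotone w)
    {A : Fin n → Fin n → K} (hA : ∀ i j, i < j → A i j = 0) (hdet : (Matrix.of A).det ≠ 0)
    {v : S → (Fin m → Fin n) → L} (hv : ∀ s I, v s I ≠ 0 → 1 ≤ ∑ x, w (I x))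
    {η : Fin n → ℝ} {β : ℝ}
    (hord : ∀ (Ω : Place ℂ L) (e : ℕ), Over Ω P e → ∀ (σ : L ≃ₐ[K] L) s J,
      GR Ω (e * ((∑ a, η (J a)) - β))
        (σ (ta (Matrix.of fun i j => algebraMap K L (A i j)).transpose (v s) J)))
    {Q N : ℕ} {a : Fin n → ℕ} (ha : ∀ i j, w i = w j → a i = a j) (haN : ∀ i, a i ≤ N)
    (e : (Σ j : Fin Q ⊕ Fin N, kap m Q N a j) ≃ Fin (n * N)) (q : ℕ)
    (l : Fin q → (Fin Q → S) × (Fin (n * N) → Fin n)) :
    GR P ((∑ i, ((Fintype.card (L ≃ₐ[K] L) * q * (N - a i) : ℕ) : ℝ) * η i) -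
        ((Fintype.card (L ≃ₐ[K] L) * q * Q : ℕ) : ℝ) * β)
      (Algebra.norm K (Qv (aux a w e v) (q * N) q l) *
        ∏ i, A i i ^ (Fintype.card (L ≃ₐ[K] L) * q * (N - a i))) := by
  classical
  set d := Fintype.card (L ≃ₐ[K] L) with hd
  set AL : Fin n → Fin n → L := fun i j => algebraMap K L (A i j) with hAL
  have hAL0 : ∀ i j, i < j → AL i j = 0 := fun i j h => by
    simp only [hAL, hA i j h, map_zero]
  have hALw : ∀ j i, AL j i ≠ 0 → w i ≤ w j := by
    intro j i h
    refine hw ?_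
    by_contra hlt
    exact h (hAL0 j i (not_le.mp hlt))
  have hdiag : ∀ i, A i i ≠ 0 := by
    intro i h0
    rw [tri_det_all hA] at hdet
    exact hdet (Finset.prod_eq_zero (Finset.mem_univ i) h0)
  set D : K := ∏ i, A i i with hD
  set κ : K := ∏ i, A i i ^ a i with hκ
  have hκ0 : κ ≠ 0 := Finset.prod_ne_zero_iff.mpr fun i _ => pow_ne_zero _ (hdiag i)
  -- the transformed family
  set v' : S → (Fin m → Fin n) → L := fun s => ta (Matrix.of AL).transpose (v s) with hv'
  have hb0 : ∀ i j, i < j → bpart w AL i j = 0 := by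
    intro i j h
    unfold bpart
    split_ifs
    · exact hAL0 i j h
    · rfl
  have hbdiag : ∀ i, bpart w AL i i = algebraMap K L (A i i) := fun i => bpart_eq rfl
  have hκL : (∏ t : Fin N, (Matrix.of fun i i' : {i : Fin n // (t : ℕ) < a i} =>
        bpart w AL i i').det) = algebraMap K L κ := by
    have h1 : ∀ t : Fin N, (Matrix.of fun i i' : {i : Fin n // (t : ℕ) < a i} =>
        bpart w AL i i').det = ∏ i : {i : Fin n // (t : ℕ) < a i}, algebraMap K L (A i i) := by
      intro t
      rw [tri_det hb0]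
      exact Finset.prod_congr rfl fun i _ => hbdiag i
    rw [Finset.prod_congr rfl fun t _ => h1 t,
      prod_level haN fun i => algebraMap K L (A i i), hκ, map_prod]
    exact Finset.prod_congr rfl fun i _ => by rw [map_pow]
  have hrel : algebraMap K L D ^ (q * N) * Qv (aux a w e v) (q * N) q l =
      algebraMap K L κ ^ q * Qv (aux a w e v') (q * N) q l := by
    have h1 := Qv_act (Matrix.of (bpart w AL)).transpose (aux a w e v) (q * N) q l
    rw [Matrix.det_transpose, tri_det_all hb0] at h1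
    have h2 : (∏ i, bpart w AL i i) = algebraMap K L D := by
      rw [hD, map_prod]
      exact Finset.prod_congr rfl fun i _ => hbdiag i
    rw [h2] at h1
    rw [← h1, ← Qv_smul]
    congr 1
    funext s J
    rw [aux_change hALw ha e hv s J, hκL]
  -- the norm
  have hnorm : algebraMap K L (Algebra.norm K (Qv (aux a w e v) (q * N) q l) *
        ∏ i, A i i ^ (d * q * (N - a i))) =
      ∏ σ : L ≃ₐ[K] L, σ (Qv (aux a w e v') (q * N) q l) := by
    have h1 : algebraMap K L (κ ^ (d * q)) ≠ 0 := (map_ne_zero _).mpr (pow_ne_zero _ hκ0)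
    refine mul_left_cancel₀ h1 ?_
    have h2 : κ ^ (d * q) * (Algebra.norm K (Qv (aux a w e v) (q * N) q l) *
        ∏ i, A i i ^ (d * q * (N - a i))) =
        D ^ (q * N * d) * Algebra.norm K (Qv (aux a w e v) (q * N) q l) := by
      have h3 : κ ^ (d * q) * ∏ i, A i i ^ (d * q * (N - a i)) = D ^ (q * N * d) := by
        rw [hκ, hD, ← Finset.prod_pow, ← Finset.prod_pow, ← Finset.prod_mul_distrib]
        refine Finset.prod_congr rfl fun i _ => ?_
        rw [← pow_mul, ← pow_add]
        congr 1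
        have h4 : a i + (N - a i) = N := Nat.add_sub_cancel' (haN i)
        calc a i * (d * q) + d * q * (N - a i) = d * q * (a i + (N - a i)) := by ring
          _ = q * N * d := by rw [h4]; ring
      rw [← h3]
      ring
    rw [← map_mul, h2, map_mul, Algebra.norm_eq_prod_automorphisms]
    have h3 : ∏ σ : L ≃ₐ[K] L, σ (algebraMap K L D ^ (q * N) *
        Qv (aux a w e v) (q * N) q l) = ∏ σ : L ≃ₐ[K] L, σ (algebraMap K L κ ^ q *
        Qv (aux a w e v') (q * N) q l) := by rw [hrel]
    simp only [map_mul, map_pow, AlgEquiv.commutes, Finset.prod_mul_distrib,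
      Finset.prod_const, Finset.card_univ] at h3
    rw [map_pow, map_pow, pow_mul, h3, ← pow_mul, mul_comm q d]
  -- a place of `L`
  obtain ⟨Ω, eΩ, hΩ⟩ := exists_place (P := P) L
  have he : (0 : ℝ) < eΩ := by exact_mod_cast hΩ.1
  have h1 : ∀ σ : L ≃ₐ[K] L, GR Ω (((q * N : ℕ) : ℝ) * (∑ i, eΩ * η i) +
      q * (-(∑ i, a i * (eΩ * η i)) + Q * (-(eΩ * β))))
      (σ (Qv (aux a w e v') (q * N) q l)) := by
    intro σ
    have h2 := map_Qv (σ : L →+* L) (aux a w e v') (q * N) q l
    change GR Ω _ ((σ : L →+* L) (Qv (aux a w e v') (q * N) q l))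
    rw [h2]
    refine Qv_ordG Ω (fun i => eΩ * η i) _ (fun s J => ?_) (q * N) q l
    have h3 := map_aux (σ : L →+* L) a w e v' s J
    rw [h3]
    refine aux_ordG Ω (fun i => eΩ * η i) haN w e _ (fun s J => ?_) s J
    refine (hord Ω eΩ hΩ σ s J).mono (le_of_eq ?_)
    rw [← Finset.mul_sum]
    ring
  have h2 := GR.prod (P := Ω) Finset.univ fun σ _ => h1 σ
  rw [← hnorm, Finset.sum_const, Finset.card_univ, nsmul_eq_mul, ← hd] at h2
  rcases h2 with h2 | h2
  · left
    exact (map_eq_zero _).mp h2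
  · right
    rw [hΩ.2] at h2
    push_cast at h2
    have h4 : ∀ i, ((d * q * (N - a i) : ℕ) : ℝ) = d * q * (N - a i) := by
      intro i
      push_cast [Nat.cast_sub (haN i)]
      ring
    have h3 : (eΩ : ℝ) * ((∑ i, ((d * q * (N - a i) : ℕ) : ℝ) * η i) -
        ((d * q * Q : ℕ) : ℝ) * β) =
        (d : ℝ) * ((q * N) * (∑ i, eΩ * η i) +
          q * (-(∑ i, a i * (eΩ * η i)) + Q * (-(eΩ * β)))) := by
      rw [Finset.sum_congr rfl fun i _ => by rw [h4 i]]
      have h5 : ∑ i, (d : ℝ) * q * (N - a i) * η i =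
          d * q * N * ∑ i, η i - d * q * ∑ i, a i * η i := by
        rw [Finset.mul_sum, Finset.mul_sum, ← Finset.sum_sub_distrib]
        exact Finset.sum_congr rfl fun i _ => by ring
      have h6 : ∑ i, (a i : ℝ) * (eΩ * η i) = eΩ * ∑ i, a i * η i := by
        rw [Finset.mul_sum]
        exact Finset.sum_congr rfl fun i _ => by ring
      rw [h5, h6, ← Finset.mul_sum]
      push_cast
      ring
    rw [← h3] at h2
    exact le_of_mul_le_mul_left h2 he

end

end Pool.Agent.Zk28.TF
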