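import Pool.Agent.Zk28.TF.Alg

/-!
The foliation of a tensor which vanishes along a moving divisor.
-/

set_option autoImplicit false
set_option linter.unusedSectionVars false

open FF Pool.Agent.W602.GT

namespace Pool.Agent.Zk28.TF

open Pool.Agent.Zk28.TS

section classes

variable {K : Type} [Field K] [Algebra ℂ K] {n : ℕ}

/-- Combinations of invariant classes. -/
theorem inv_comb {X : Set (Place ℂ K)} {G : Set (K ≃ₐ[ℂ] K)} {D1 D2 : Place ℂ K → ℝ}
    (h1 : InvariantClass n X G D1) (h2 : InvariantClass n X G D2) (q e : ℚ) :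
    InvariantClass n X G fun P => q * D1 P + e * D2 P := by
  intro σ hσ
  obtain ⟨N1, hN1, z1, hz1, hD1⟩ := h1 σ hσ
  obtain ⟨N2, hN2, z2, hz2, hD2⟩ := h2 σ hσ
  refine ⟨q.den * N1 * (e.den * N2), Nat.mul_pos (Nat.mul_pos q.den_pos hN1)
    (Nat.mul_pos e.den_pos hN2),
    z1 ^ (q.num * (e.den * N2 : ℕ)) * z2 ^ (e.num * (q.den * N1 : ℕ)),
    mul_ne_zero (zpow_ne_zero _ hz1) (zpow_ne_zero _ hz2), fun P hPX hP Q hQX hQ hPQ => ?_⟩
  have h3 := hD1 P hPX hP Q hQX hQ hPQ
  have h4 := hD2 P hPX hP Q hQX hQ hPQ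
  beta_reduce
  rw [P.ord_mul (zpow_ne_zero _ hz1) (zpow_ne_zero _ hz2), P.ord_zpow, P.ord_zpow]
  have h6 : (q.den : ℝ) * q = q.num := by
    have h7 : (q : ℝ) = q.num / q.den := by exact_mod_cast (Rat.num_div_den q).symm
    have h8 : (q.den : ℝ) ≠ 0 := by exact_mod_cast q.den_pos.ne'
    rw [h7]
    field_simp
  have h7 : (e.den : ℝ) * e = e.num := by
    have h7 : (e : ℝ) = e.num / e.den := by exact_mod_cast (Rat.num_div_den e).symm
    have h8 : (e.den : ℝ) ≠ 0 := by exact_mod_cast e.den_pos.ne'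
    rw [h7]
    field_simp
  push_cast
  rw [← h6, ← h7, ← h3, ← h4]
  ring

/-- The class of `K_X + Δ` is invariant. -/
theorem inv_L [Algebra.EssFiniteType ℂ K] (htr : Algebra.trdeg ℂ K = n) {X : Set (Place ℂ K)}
    {δ β : Place ℂ K → ℝ} {ω : (Fin n → Derivation ℂ K K) → K} (hω : IsPluri 1 ω)
    (hω0 : ∃ D, ω D ≠ 0) {k : Place ℂ K → ℤ} (hk : DivOf n X ω k)
    {G : Set (K ≃ₐ[ℂ] K)} (hG : ∀ σ ∈ G, MPreserves X δ β σ) :
    InvariantClass n X G fun P => k P + δ P := by
  intro σ hσ
  obtain ⟨z, hz, hzk⟩ := exists_factor htr hω hω0 hk σ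
  refine ⟨1, Nat.one_pos, z, hz, fun P hPX hP Q hQX hQ hPQ => ?_⟩
  obtain ⟨Q', hQ'X, hδ', -, hQ'⟩ := hG σ hσ P hPX
  have hQQ : Q' = Q := by
    apply Place.ext
    funext f
    have h4 := hQ' (σ.symm f)
    have h5 := hPQ (σ.symm f)
    rw [AlgEquiv.apply_symm_apply] at h4 h5
    rw [h4, h5]
  subst hQQ
  beta_reduce
  rw [hδ', hzk P hPX hP Q' hQX hQ hPQ]
  push_cast
  ring

end classes

section core

variable {K : Type} [Field K] [Algebra ℂ K] {n : ℕ}

/-- The foliation of a tensor which vanishes along a divisor of an invariant class. -/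
theorem moving_fol [Algebra.EssFiniteType ℂ K] (hn : 1 ≤ n) (htr : Algebra.trdeg ℂ K = n)
    {X : Set (Place ℂ K)} {δ : Place ℂ K → ℝ} (hδ : ∀ P ∈ X, 0 ≤ δ P ∧ δ P ≤ 1)
    {ω : (Fin n → Derivation ℂ K K) → K} (hω : IsPluri 1 ω) (hω0 : ∃ D, ω D ≠ 0)
    {k : Place ℂ K → ℤ} (hk : DivOf n X ω k)
    {G : Set (K ≃ₐ[ℂ] K)} (hG : ∀ σ ∈ G, MPreserves X δ (fun _ => (0 : ℝ)) σ)
    {Pos : Set (Place ℂ K → ℝ)} (hPos : DegreeOrder n X Pos)
    (hL : (fun P => k P + δ P) ∉ Pos)
    {e : Place ℂ K → ℝ} (he : InvariantClass n X G e) (he0 : e ∈ Pos)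
    {m0 : ℕ} (hm0 : 0 < m0) {Q : ℚ} (hQ : -(m0 / n : ℚ) < Q)
    {s0 : MultilinearMap K (fun _ : Fin m0 => (⊤ : Submodule K (Derivation ℂ K K)))
      (AlgebraicClosure K)}
    (hs0 : LeafAdapted n X δ (fun P => Q * (k P + δ P) - e P) ⊤ s0) (hs0' : s0 ≠ 0) :
    ∃ F : Submodule K (Derivation ℂ K K), F ≠ ⊥ ∧ F ≠ ⊤ ∧
      (∀ D ∈ F, ∀ E ∈ F, ⁅D, E⁆ ∈ F) ∧
      (∀ σ ∈ G, ∀ D ∈ F, ∀ E, Image σ D E → E ∈ F) ∧
      ∀ m : ℕ, 0 < m → ∀ γ : Place ℂ K → ℝ, InvariantClass n X G γ →
        (fun P => (m : ℝ) / (n * m0) * e P - γ P) ∈ Pos →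
        ∀ s : MultilinearMap K (fun _ : Fin m => F) (AlgebraicClosure K),
        LeafAdapted n X δ γ F s → s = 0 := by
  classical
  obtain ⟨x, b, hF⟩ := exists_fr htr
  have hfin := hF.finite
  have hn' : (0 : ℝ) < n := by exact_mod_cast hn
  have hnq : (0 : ℚ) < n := by exact_mod_cast hn
  have hmq : (0 : ℚ) < m0 := by exact_mod_cast hm0
  have hmR : (0 : ℝ) < m0 := by exact_mod_cast hm0
  obtain ⟨y, hy, htop⟩ := htopv (β := fun _ => (0 : ℝ)) hn htr hδ hω hω0 hk
  obtain ⟨L, hLdef⟩ : ∃ L : Place ℂ K → ℝ, L = fun P => k P + δ P := ⟨_, rfl⟩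
  have hLP : ∀ P, (k P : ℝ) + δ P = L P := fun P => by rw [hLdef]
  have hLinv : InvariantClass n X G L := by
    rw [hLdef]
    exact inv_L htr hω hω0 hk hG
  simp only [hLP] at hL hs0 htop
  have hEC := hPos.eff_subset
  have hC := hPos.isCone
  have htot := hPos.tot
  set C := opp Pos with hCdef
  have hnL : (fun P => -L P) ∉ C := by
    intro h
    apply hL
    change (fun P => -(-(L P))) ∈ Pos at h
    simpa only [neg_neg] using h
  have hLC : L ∈ C := by
    rcases htot L with h | h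
    · exact h
    · exact absurd h hnL
  have heC : (fun P => -e P) ∈ C := by
    change (fun P => -(-(e P))) ∈ Pos
    simpa only [neg_neg] using he0
  -- the twist
  obtain ⟨v, hv0, hv1, hQv⟩ : ∃ v : ℚ, 0 ≤ v ∧ v < 1 ∧ -Q ≤ m0 / n * v := by
    refine ⟨max 0 (-Q * (n / m0)), le_max_left _ _, max_lt one_pos ?_, ?_⟩
    · have h1 := mul_lt_mul_of_pos_right hQ (div_pos hnq hmq)
      have h2 : -(m0 / n : ℚ) * (n / m0) = -1 := by field_simp
      rw [h2] at h1
      linarith
    · have h1 := mul_le_mul_of_nonneg_left (le_max_right 0 (-Q * (n / m0)))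
        (div_pos hmq hnq).le
      have h2 : (m0 / n : ℚ) * (-Q * (n / m0)) = -Q := by field_simp
      rw [h2] at h1
      exact h1
  let l : Place ℂ K → ℝ := fun P => ((m0 * v : ℚ) : ℝ) * L P - e P
  have hlC : l ∈ C := by
    have h1 := hC.add _ (hC.rat hLC (q := m0 * v) (mul_nonneg hmq.le hv0)) _ heC
    convert h1 using 1
    funext P
    simp only [l, Pi.add_apply]
    ring
  have hpr : ∀ z : K, z ≠ 0 → ∀ f g : Place ℂ K → ℝ,
      (∀ P ∈ X, Divisorial n P → f P = g P + P.ord z) → g ∈ C → f ∈ C := by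
    intro z hz f g hfg hg
    have h1 : f - g ∈ C := by
      refine hEC ⟨1, Nat.one_pos, z, hz, fun P hPX hP => ?_⟩
      rw [Pi.sub_apply, hfg P hPX hP]
      push_cast
      linarith
    have h2 := hC.add _ h1 _ hg
    rwa [sub_add_cancel] at h2
  have hneg : ∀ c : ℚ, 0 < c → ∀ z : K, z ≠ 0 → ∀ f : Place ℂ K → ℝ, f ∈ C →
      (∀ P ∈ X, Divisorial n P → f P = -(c * L P) + P.ord z) → False := by
    intro c hc z hz f hf hfz
    have h1 : (fun P => -((c : ℝ) * L P)) ∈ C :=
      hpr z⁻¹ (inv_ne_zero hz) _ _ (fun P hPX hP => by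
        rw [hfz P hPX hP, P.ord_inv]
        push_cast
        ring) hf
    have h2 := hC.rat h1 (q := c⁻¹) (inv_nonneg.mpr hc.le)
    apply hnL
    have h3 : (fun P => ((c⁻¹ : ℚ) : ℝ) * -((c : ℝ) * L P)) = fun P => -(L P) := by
      funext P
      have h4 : (c : ℝ) ≠ 0 := by exact_mod_cast hc.ne'
      push_cast
      field_simp
    rw [h3] at h2
    exact h2
  have hγinv : InvariantClass n X G fun P => Q * L P - e P := by
    have h1 := inv_comb hLinv he Q (-1)
    convert h1 using 1
    funext P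
    push_cast
    ring
  obtain ⟨F, hF0, hFb, hFG, hFv⟩ := slope_main hn htr (β := fun _ => (0 : ℝ)) (l := l) hδ hG hEC
    hC htot hlC (fun t => t = 0 ∨ t = -(1 / m0 : ℚ)) (Or.inl rfl) (by
      rintro t (rfl | rfl)
      · refine ⟨⊤, fun _ _ _ _ => Submodule.mem_top, fun h => ?_⟩
        refine hneg 1 one_pos y hy _ h fun P hPX hP => ?_
        have h1 := htop 0 P hPX hP
        have h2 : (fun P => (0 : ℝ) + (0 : ℝ) * (L P + 0)) =
            fun P => (0 : ℝ) + ((0 : ℚ) : ℝ) * l P := by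
          funext P
          push_cast
          ring
        rw [h2] at h1
        rw [h1]
        push_cast
        ring
      · by_contra hno
        push Not at hno
        have hfun : (fun P => (m0 : ℝ) / n * ((n : ℝ) / m0 * (Q * L P - e P))) =
            fun P => Q * L P - e P := by
          funext P
          field_simp
        obtain ⟨M, W, hM, hW, -, hW0, hrel⟩ := rel_tensor htr hδ
          (β := fun P => (n : ℝ) / m0 * (Q * L P - e P)) (V := ⊤) (G := G)
          (fun _ _ _ _ => Submodule.mem_top) hm0 (by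
            intro σ hσ s' hs' u hu
            rw [hfun] at hs' ⊢
            exact pull_inv hγinv hσ (hG σ hσ) (fun _ _ => Submodule.mem_top) hs' hu)
          (s1 := s0) (by rw [hfun]; exact hs0) hs0'
        let S : Finset ℕ := (Finset.range M).filter fun i => W i ≠ ⊤
        have h0S : 0 ∈ S := Finset.mem_filter.mpr ⟨Finset.mem_range.mpr hM, hW0⟩
        have hrel' : ∑ i ∈ S, (hh n δ (fun P => (n : ℝ) / m0 * (Q * L P - e P)) ⊤ -
            hh n δ (fun P => (n : ℝ) / m0 * (Q * L P - e P)) (W i)) ∈ C := by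
          have h1 := hEC hrel
          have h2 : ∑ i ∈ S, (hh n δ (fun P => (n : ℝ) / m0 * (Q * L P - e P)) ⊤ -
              hh n δ (fun P => (n : ℝ) / m0 * (Q * L P - e P)) (W i)) =
              ∑ i ∈ Finset.range M, (hh n δ (fun P => (n : ℝ) / m0 * (Q * L P - e P)) ⊤ -
              hh n δ (fun P => (n : ℝ) / m0 * (Q * L P - e P)) (W i)) := by
            refine Finset.sum_subset (Finset.filter_subset _ _) fun i hi hiS => ?_
            have h3 : W i = ⊤ := by
              by_contra h4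
              exact hiS (Finset.mem_filter.mpr ⟨hi, h4⟩)
            rw [h3, sub_self]
          rw [h2]
          exact h1
        have h1 := hC.sum S (f := fun i => hh n δ (fun P => (0 : ℝ) +
          ((-(1 / m0 : ℚ) : ℚ) : ℝ) * l P) (W i)) fun i _ => hno (W i) (hW i)
        have h2 := hC.add _ hrel' _ h1
        have hfr : ∀ i ∈ S, (Module.finrank K (W i) : ℚ) + 1 ≤ n := by
          intro i hi
          have h3 : W i ≠ ⊤ := (Finset.mem_filter.mp hi).2
          have h5 := Submodule.finrank_lt h3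
          rw [hF.finrank] at h5
          exact_mod_cast h5
        -- the coefficients of `L` and `e`
        let r : ℕ → ℚ := fun i => Module.finrank K (W i)
        let c : ℕ → ℚ := fun i => 1 + ((n : ℚ) - r i) / m0 * Q - r i / n * v
        let a : ℕ → ℚ := fun i => ((n : ℚ) - r i) / m0 - r i / n * (1 / m0)
        have hr : ∀ i, 0 ≤ r i := fun i => Nat.cast_nonneg _
        have hc : ∀ i ∈ S, 0 < c i := by
          intro i hi
          have h3 := hfr i hi
          change 0 < 1 + ((n : ℚ) - r i) / m0 * Q - r i / n * v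
          have h4 : ((n : ℚ) - r i) / m0 * -Q ≤ ((n : ℚ) - r i) / m0 * (m0 / n * v) :=
            mul_le_mul_of_nonneg_left hQv (div_nonneg (by simp only [r]; linarith) hmq.le)
          have h5 : ((n : ℚ) - r i) / m0 * (m0 / n * v) = v - r i / n * v := by
            field_simp
          rw [h5] at h4
          linarith
        have ha : ∀ i ∈ S, 0 ≤ a i := by
          intro i hi
          have h3 := hfr i hi
          change 0 ≤ ((n : ℚ) - r i) / m0 - r i / n * (1 / m0)
          have h4 : ((n : ℚ) - r i) / m0 - r i / n * (1 / m0) =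
              (((n : ℚ) - r i) - r i / n) / m0 := by
            field_simp
          rw [h4]
          refine div_nonneg ?_ hmq.le
          have h5 : r i / n ≤ 1 := by
            rw [div_le_one hnq]
            simp only [r]
            linarith
          simp only [r] at h5 ⊢
          linarith
        have h3 : (fun P => -(((∑ i ∈ S, a i : ℚ) : ℝ) * e P)) ∈ C := by
          have h4 := hC.rat heC (q := ∑ i ∈ S, a i) (Finset.sum_nonneg ha)
          convert h4 using 1
          funext P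
          ring
        have h4 := hC.add _ h2 _ h3
        refine hneg (∑ i ∈ S, c i) (Finset.sum_pos hc ⟨0, h0S⟩) (y ^ S.card)
          (pow_ne_zero _ hy) _ h4 fun P hPX hP => ?_
        have htP := htop 0 P hPX hP
        have h5 : ∀ β' : Place ℂ K → ℝ, hh n δ β' ⊤ P = -(L P) + P.ord y - β' P := by
          intro β'
          have h6 : hh n δ β' ⊤ P = hh n δ (fun P => (0 : ℝ) + (0 : ℝ) * (L P + 0)) ⊤ P - β' P := by
            unfold hh
            rw [finrank_top, hF.finrank, div_self hn'.ne']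
            ring
          rw [h6, htP]
          ring
        rw [Pi.add_apply, Pi.add_apply, Finset.sum_apply, Finset.sum_apply,
          ← Finset.sum_add_distrib, P.ord_pow]
        have h6 : ∀ i ∈ S, (hh n δ (fun P => (n : ℝ) / m0 * (Q * L P - e P)) ⊤ -
            hh n δ (fun P => (n : ℝ) / m0 * (Q * L P - e P)) (W i)) P +
            hh n δ (fun P => (0 : ℝ) + ((-(1 / m0 : ℚ) : ℚ) : ℝ) * l P) (W i) P =
            -(c i * L P) + a i * e P + P.ord y := by
          intro i _
          rw [Pi.sub_apply, h5]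
          simp only [c, a, r, l]
          unfold hh
          push_cast
          field_simp
          ring
        rw [Finset.sum_congr rfl h6, Finset.sum_add_distrib, Finset.sum_add_distrib,
          Finset.sum_const, nsmul_eq_mul, Finset.sum_neg_distrib, ← Finset.sum_mul,
          ← Finset.sum_mul]
        push_cast
        ring)
  have hvan : ∀ m : ℕ, 0 < m → ∀ γ : Place ℂ K → ℝ, InvariantClass n X G γ →
      (fun P => (m : ℝ) / (n * m0) * e P - m / n * v * L P - γ P) ∈ Pos →
      ∀ s : MultilinearMap K (fun _ : Fin m => F) (AlgebraicClosure K),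
        LeafAdapted n X δ γ F s → s = 0 := by
    intro m hm γ hγ hγP s hs
    refine hFv m hm (-(1 / m0 : ℚ)) (Or.inr rfl) γ hγ ?_ s hs
    change (fun P => -(γ P - (m : ℝ) / n * (0 + ((-(1 / m0 : ℚ) : ℚ) : ℝ) * l P))) ∈ Pos
    convert hγP using 1
    funext P
    simp only [l]
    push_cast
    field_simp
    ring
  refine ⟨F, hF0, ?_, hFb ?_, hFG, fun m hm γ hγ hγP s hs => hvan m hm γ hγ ?_ s hs⟩
  · rintro rfl
    refine hs0' (hvan m0 hm0 _ hγinv ?_ s0 hs0)
    have h1 := hC.add _ (hC.rat hLC (q := m0 / n * v + Q) (by linarith)) _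
      (hC.rat heC (q := 1 / n + 1) (by positivity))
    change (fun P => -(_ + _ : Place ℂ K → ℝ) P) ∈ Pos at h1
    convert h1 using 1
    funext P
    rw [Pi.add_apply]
    push_cast
    field_simp
    ring
  · change (fun P => -(-(0 : ℝ))) ∈ Pos
    refine hPos.effective _ fun P _ _ => ?_
    simp
  · have h1 := hPos.add _ hγP (fun P => -(((m / n * v : ℚ) : ℝ) * L P)) (by
      have h2 := hC.rat hLC (q := m / n * v) (mul_nonneg (div_nonneg (Nat.cast_nonneg _) hnq.le)
        hv0)
      exact h2)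
    convert h1 using 1
    funext P
    rw [Pi.add_apply]
    push_cast
    ring

end core

end Pool.Agent.Zk28.TF
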