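import Pool.Agent.Zk28.TF.Psef
import Pool.Agent.Zk28.TF.LeafDiv

/-!
Orders which are adapted to a divisor, and foliations without tensors.
-/

set_option autoImplicit false
set_option linter.unusedSectionVars false

open FF Pool.Agent.W602.GT

namespace Pool.Agent.Zk28.TF

open Pool.Agent.Zk28.TS

section order

variable {K : Type} [Field K] [Algebra ℂ K] {n : ℕ}

/-- An order for which `L` is negative and infinitely small compared to a divisor `D`. -/
theorem exists_order_gen {X : Set (Place ℂ K)} {L D : Place ℂ K → ℝ}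
    (hno : ¬ Eff n X fun P => -L P)
    (hD : ∀ a b : ℚ, 0 < a → ¬ Eff n X fun P => a * D P + b * L P) :
    ∃ Pos, DegreeOrder n X Pos ∧ L ∉ Pos ∧ ∀ c : ℚ, (fun P => D P + c * L P) ∈ Pos := by
  classical
  have h0 : Eff n X fun _ => (0 : ℝ) :=
    ⟨1, Nat.one_pos, 1, one_ne_zero, fun P _ _ => by rw [P.ord_one]; simp⟩
  let M : Set (Place ℂ K → ℝ) := {f | ∃ a b : ℚ, 0 ≤ a ∧ (a = 0 → b = 0) ∧
    Eff n X fun P => f P + a * D P + b * L P}
  have hEM : {f | Eff n X f} ⊆ M := by
    intro f hf
    refine ⟨0, 0, le_rfl, fun _ => rfl, ?_⟩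
    convert hf using 2
    simp
  have hM : IsCone M := by
    refine ⟨⟨0, 0, le_rfl, fun _ => rfl, ?_⟩, ?_, ?_⟩
    · convert h0 using 2
      simp
    · rintro f ⟨a, b, ha, hab, hf⟩ g ⟨a', b', ha', hab', hg⟩
      refine ⟨a + a', b + b', add_nonneg ha ha', fun h => ?_, ?_⟩
      · have h1 : a = 0 := by linarith
        have h2 : a' = 0 := by linarith
        rw [hab h1, hab' h2, add_zero]
      · have h1 := isCone_eff.add _ hf _ hg
        change Eff n X _ at h1
        convert h1 using 1
        funext P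
        rw [Pi.add_apply, Pi.add_apply]
        push_cast
        ring
    · rintro N f hN ⟨a, b, ha, hab, hf⟩
      have hN' : (N : ℝ) ≠ 0 := by exact_mod_cast hN.ne'
      have hNq : (N : ℚ) ≠ 0 := by exact_mod_cast hN.ne'
      refine ⟨a / N, b / N, div_nonneg ha (Nat.cast_nonneg _), fun h => ?_, ?_⟩
      · have h1 : a = 0 := by
          rcases div_eq_zero_iff.mp h with h | h
          · exact h
          · exact absurd h hNq
        rw [hab h1, zero_div]
      · refine isCone_eff.root N _ hN ?_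
        change Eff n X _
        convert hf using 1
        funext P
        rw [Pi.smul_apply, Pi.smul_apply, nsmul_eq_mul, nsmul_eq_mul]
        push_cast
        field_simp
  have hx0 : (fun P => -L P) ∉ M := by
    rintro ⟨a, b, ha, hab, h⟩
    rcases ha.lt_or_eq with ha' | ha'
    · refine hD a (b - 1) ha' ?_
      convert h using 2
      push_cast
      ring
    · rw [hab ha'.symm, ← ha'] at h
      apply hno
      convert h using 2
      push_cast
      ring
  obtain ⟨C, hMC, hC, htot, hxC⟩ := exists_total hM hx0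
  refine ⟨opp C, degreeOrder_of_cone (fun f hf => hMC (hEM hf)) hC htot, hxC, fun c => ?_⟩
  refine hMC ⟨1, c, zero_le_one, fun h => absurd h one_ne_zero, ?_⟩
  convert h0 using 2
  push_cast
  ring

end order

section free

variable {K : Type} [Field K] [Algebra ℂ K] {n : ℕ}
  {X : Set (Place ℂ K)} {δ : Place ℂ K → ℝ} {k : Place ℂ K → ℤ} {G : Set (K ≃ₐ[ℂ] K)}

/-- `F` is a proper invariant foliation without leafwise tensors. -/
def TFree (n : ℕ) (X : Set (Place ℂ K)) (δ L : Place ℂ K → ℝ) (G : Set (K ≃ₐ[ℂ] K))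
    (F : Submodule K (Derivation ℂ K K)) : Prop :=
  F ≠ ⊥ ∧ F ≠ ⊤ ∧ (∀ D ∈ F, ∀ E ∈ F, ⁅D, E⁆ ∈ F) ∧
    (∀ σ ∈ G, ∀ D ∈ F, ∀ E, Image σ D E → E ∈ F) ∧
    ∀ m : ℕ, 0 < m → ∀ q : ℚ, ∀ s : MultilinearMap K (fun _ : Fin m => F) (AlgebraicClosure K),
      LeafAdapted n X δ (fun P => q * L P) F s → s = 0

/-- The canonical form is a tensor. -/
theorem omega_tensor [Algebra.EssFiniteType ℂ K] [Module.Finite K (Derivation ℂ K K)]
    (hn : 1 ≤ n) (htr : Algebra.trdeg ℂ K = n) (hδ : ∀ P ∈ X, 0 ≤ δ P ∧ δ P ≤ 1)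
    {ω : (Fin n → Derivation ℂ K K) → K} (hω : IsPluri 1 ω) (hω0 : ∃ D, ω D ≠ 0)
    (hk : DivOf n X ω k) :
    ∃ (m : ℕ) (s : MultilinearMap K (fun _ : Fin m => (⊤ : Submodule K (Derivation ℂ K K)))
      (AlgebraicClosure K)), 0 < m ∧
        LeafAdapted n X δ (fun P => ((-1 : ℚ) : ℝ) * (k P + δ P)) ⊤ s ∧ s ≠ 0 := by
  classical
  obtain ⟨θ, hθ0, hθ⟩ := leafDiv htr hδ (⊤ : Submodule K (Derivation ℂ K K))
  obtain ⟨y, hy, hvt⟩ := vs_top htr hδ hω hω0 hk
  refine ⟨_, (Algebra.linearMap K (AlgebraicClosure K)).compMultilinearMap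
    (y • θ).toMultilinearMap, ?_, ?_, ?_⟩
  · obtain ⟨x, b, hF⟩ := exists_fr htr
    rw [finrank_top, hF.finrank]
    exact hn
  · intro P hPX hP D hD
    change AlgOrd P _ (algebraMap K (AlgebraicClosure K) (y * θ D))
    refine AlgOrd.of_GR ?_
    rcases (hθ P hPX hP).1 D hD with h1 | h1
    · left
      rw [h1, mul_zero]
    · by_cases h2 : θ D = 0
      · left
        rw [h2, mul_zero]
      right
      rw [P.ord_mul hy h2]
      beta_reduce at h1
      rw [hvt P hPX hP] at h1
      push_cast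
      linarith
  · intro h0
    apply hθ0
    ext D
    have h1 : algebraMap K (AlgebraicClosure K) (y * θ D) = 0 :=
      congrArg (fun s : MultilinearMap K _ (AlgebraicClosure K) => s D) h0
    have h2 := (map_eq_zero _).mp h1
    exact (mul_eq_zero.mp h2).resolve_left hy

/-- The determinants of the invariant distributions are bounded. -/
theorem bounded_or_free [Algebra.EssFiniteType ℂ K] [Module.Finite K (Derivation ℂ K K)]
    (hn : 1 ≤ n) (htr : Algebra.trdeg ℂ K = n) (hδ : ∀ P ∈ X, 0 ≤ δ P ∧ δ P ≤ 1)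
    {ω : (Fin n → Derivation ℂ K K) → K} (hω : IsPluri 1 ω) (hω0 : ∃ D, ω D ≠ 0)
    (hk : DivOf n X ω k) (hG : ∀ g ∈ G, MPreserves X δ (fun _ => (0 : ℝ)) g)
    (hfree : ¬ ∃ F, TFree n X δ (fun P => k P + δ P) G F)
    {Pos : Set (Place ℂ K → ℝ)} (hPos : DegreeOrder n X Pos)
    (hL : (fun P => k P + δ P) ∉ Pos) :
    ∃ c : ℚ, ∀ W, InvSub G W → (fun P => vs δ W P + c * (k P + δ P)) ∈ opp Pos := by
  classical
  by_contra hno
  push Not at hno
  have hnq : (0 : ℚ) < n := by exact_mod_cast hn
  have hEC := hPos.eff_subset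
  have hC := hPos.isCone
  have htot := hPos.tot
  have hLC : (fun P => (k P : ℝ) + δ P) ∈ opp Pos := by
    rcases htot (fun P => (k P : ℝ) + δ P) with h | h
    · exact h
    · exfalso
      apply hL
      have h2 : (fun P => -((-(fun P => (k P : ℝ) + δ P) : Place ℂ K → ℝ) P)) =
          fun P => (k P : ℝ) + δ P := by
        funext P
        rw [Pi.neg_apply, neg_neg]
      rw [← h2]
      exact h
  obtain ⟨F, hF0, hFb, hFG, hFv⟩ := slope_main hn htr (β := fun _ => (0 : ℝ))
    (l := fun P => (k P : ℝ) + δ P) hδ hG hEC hC htot hLC (fun _ => True) trivial (by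
      intro t _
      obtain ⟨W, hW, hWC⟩ := hno |t|
      refine ⟨W, hW, fun h => hWC ?_⟩
      have hr : (Module.finrank K W : ℚ) ≤ n := by
        obtain ⟨x, b, hF⟩ := exists_fr htr
        have h1 := Submodule.finrank_le W
        rw [hF.finrank] at h1
        exact_mod_cast h1
      have hq : (0 : ℚ) ≤ |t| + Module.finrank K W / n * t := by
        have h1 : (0 : ℚ) ≤ (Module.finrank K W : ℚ) / n :=
          div_nonneg (Nat.cast_nonneg _) hnq.le
        have h2 : (Module.finrank K W : ℚ) / n ≤ 1 := by rwa [div_le_one hnq]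
        have h3 : -|t| ≤ t := neg_abs_le t
        have h4 : (Module.finrank K W : ℚ) / n * -|t| ≤ Module.finrank K W / n * t :=
          mul_le_mul_of_nonneg_left h3 h1
        have h5 : (Module.finrank K W : ℚ) / n * |t| ≤ 1 * |t| :=
          mul_le_mul_of_nonneg_right h2 (abs_nonneg t)
        linarith
      have h1 := hC.add _ h _ (hC.rat hLC hq)
      convert h1 using 1
      funext P
      rw [Pi.add_apply]
      unfold hh
      push_cast
      ring)
  apply hfree
  have hzero : ∀ m : ℕ, 0 < m → ∀ q : ℚ,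
      ∀ s : MultilinearMap K (fun _ : Fin m => F) (AlgebraicClosure K),
      LeafAdapted n X δ (fun P => q * (k P + δ P)) F s → s = 0 := by
    intro m hm q s hs
    have hmq : (0 : ℚ) < m := by exact_mod_cast hm
    have hinvL := inv_L htr hω hω0 hk hG
    refine hFv m hm (q * n / m) trivial _ ?_ ?_ s hs
    · have h1 := inv_comb hinvL hinvL q 0
      convert h1 using 1
      funext P
      push_cast
      ring
    · have h1 := hC.zero
      convert h1 using 1
      funext P
      have h2 : (m : ℝ) ≠ 0 := by exact_mod_cast hm.ne'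
      have h3 : (n : ℝ) ≠ 0 := by
        have : (0 : ℝ) < n := by exact_mod_cast hn
        exact this.ne'
      rw [Pi.zero_apply]
      push_cast
      field_simp
      ring
  refine ⟨F, hF0, ?_, hFb ?_, hFG, hzero⟩
  · rintro rfl
    obtain ⟨m, s, hm, hs, hs0⟩ := omega_tensor hn htr hδ hω hω0 hk
    exact hs0 (hzero m hm (-1) s hs)
  · have h1 := hC.zero
    convert h1 using 1
    funext P
    rw [Pi.zero_apply, neg_zero]

end free

end Pool.Agent.Zk28.TF
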