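import Pool.Agent.Zk28.TF.Prop1

/-!
Distributions whose canonical class is a multiple of `L`.
-/

set_option autoImplicit false
set_option linter.unusedSectionVars false

open FF Pool.Agent.W602.GT

namespace Pool.Agent.Zk28.TF

open Pool.Agent.Zk28.TS

section

variable {K : Type} [Field K] [Algebra ℂ K] {n : ℕ}
  {X : Set (Place ℂ K)} {δ L : Place ℂ K → ℝ} {k : Place ℂ K → ℤ} {G : Set (K ≃ₐ[ℂ] K)}

/-- `D` is linearly equivalent to `c L`, up to a positive multiple. -/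
def Prp (n : ℕ) (X : Set (Place ℂ K)) (L D : Place ℂ K → ℝ) (c : ℚ) : Prop :=
  ∃ (N : ℕ) (z : K), 0 < N ∧ z ≠ 0 ∧ ∀ P ∈ X, Divisorial n P → N * (D P - c * L P) = P.ord z

theorem Prp.add {D D' : Place ℂ K → ℝ} {c c' : ℚ} (h : Prp n X L D c) (h' : Prp n X L D' c') :
    Prp n X L (D + D') (c + c') := by
  obtain ⟨N, z, hN, hz, h⟩ := h
  obtain ⟨N', z', hN', hz', h'⟩ := h'
  refine ⟨N * N', z ^ N' * z' ^ N, Nat.mul_pos hN hN', mul_ne_zero (pow_ne_zero _ hz)
    (pow_ne_zero _ hz'), fun P hPX hP => ?_⟩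
  rw [P.ord_mul (pow_ne_zero _ hz) (pow_ne_zero _ hz'), P.ord_pow, P.ord_pow, Pi.add_apply]
  push_cast
  rw [← h P hPX hP, ← h' P hPX hP]
  ring

theorem Prp.rat {D : Place ℂ K → ℝ} {c : ℚ} (h : Prp n X L D c) (q : ℚ) :
    Prp n X L (fun P => q * D P) (q * c) := by
  obtain ⟨N, z, hN, hz, h⟩ := h
  refine ⟨q.den * N, z ^ q.num, Nat.mul_pos q.den_pos hN, zpow_ne_zero _ hz, fun P hPX hP => ?_⟩
  rw [P.ord_zpow]
  have h7 : (q : ℝ) * q.den = q.num := by exact_mod_cast Rat.mul_den_eq_num q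
  push_cast
  rw [← h P hPX hP, ← h7]
  ring

theorem Prp.congr {D D' : Place ℂ K → ℝ} {c : ℚ} (h : Prp n X L D c) {N : ℕ} (hN : 0 < N) {z : K}
    (hz : z ≠ 0) (hD : ∀ P ∈ X, Divisorial n P → D' P = D P + P.ord z / N) : Prp n X L D' c := by
  obtain ⟨N', z', hN', hz', h⟩ := h
  have hNR : (N : ℝ) ≠ 0 := by exact_mod_cast hN.ne'
  refine ⟨N * N', z' ^ N * z ^ N', Nat.mul_pos hN hN', mul_ne_zero (pow_ne_zero _ hz')
    (pow_ne_zero _ hz), fun P hPX hP => ?_⟩
  rw [P.ord_mul (pow_ne_zero _ hz') (pow_ne_zero _ hz), P.ord_pow, P.ord_pow, hD P hPX hP]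
  push_cast
  rw [← h P hPX hP]
  field_simp
  ring

/-- The coefficient is unique. -/
theorem Prp.unique (hno : ¬ Eff n X fun P => -L P) {D : Place ℂ K → ℝ} {c c' : ℚ}
    (h : Prp n X L D c) (h' : Prp n X L D c') : c = c' := by
  by_contra hne
  apply hno
  obtain ⟨N, z, hN, hz, h1⟩ := h.add (h'.rat (-1))
  obtain ⟨u, hu⟩ : ∃ u : ℚ, u = c - c' := ⟨_, rfl⟩
  have hu0 : u ≠ 0 := by
    rw [hu]
    exact sub_ne_zero.mpr hne
  refine ⟨u.num.natAbs * N, Nat.mul_pos (Int.natAbs_pos.mpr (Rat.num_ne_zero.mpr hu0)) hN,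
    z ^ (u.num.sign * (u.den : ℤ)), zpow_ne_zero _ hz, fun P hPX hP => ?_⟩
  have h2 := h1 P hPX hP
  rw [P.ord_zpow]
  have h3 : (P.ord z : ℝ) = -(N * (u * L P)) := by
    rw [← h2, hu, Pi.add_apply]
    push_cast
    ring
  have h6 : ((u.num.natAbs : ℤ) : ℝ) = u.num * u.num.sign := by
    exact_mod_cast (Int.mul_sign_self u.num).symm
  have h7 : (u : ℝ) * u.den = u.num := by exact_mod_cast Rat.mul_den_eq_num u
  have h8 : ((u.num.natAbs : ℕ) : ℝ) = u.num * u.num.sign := by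
    rw [← h6]
    simp
  push_cast
  rw [h3, h8, ← h7]
  refine le_of_eq ?_
  ring

/-- **Rigidity.** If there is no foliation without tensors, then the determinants of invariant
distributions with a sum `q L + E`, `E ≥ 0`, are multiples of `L`, and `E = 0`. -/
theorem rigid [Algebra.EssFiniteType ℂ K] [Module.Finite K (Derivation ℂ K K)]
    (hn : 1 ≤ n) (htr : Algebra.trdeg ℂ K = n) (hδ : ∀ P ∈ X, 0 ≤ δ P ∧ δ P ≤ 1)
    {ω : (Fin n → Derivation ℂ K K) → K} (hω : IsPluri 1 ω) (hω0 : ∃ D, ω D ≠ 0)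
    (hk : DivOf n X ω k) (hG : ∀ g ∈ G, MPreserves X δ (fun _ => (0 : ℝ)) g)
    (hL : NotAntiEffective n X fun P => k P + δ P)
    (hno : ¬ Eff n X fun P => -(k P + δ P))
    (hfree : ¬ ∃ F, TFree n X δ (fun P => k P + δ P) G F) {ι : Type} (S : Finset ι)
    {W : ι → Submodule K (Derivation ℂ K K)} (hW : ∀ i, InvSub G (W i)) {q : ℚ}
    {E : Place ℂ K → ℝ} (hE : ∀ P ∈ X, Divisorial n P → 0 ≤ E P)
    (h : Eff n X fun P => q * (k P + δ P) + E P - ∑ i ∈ S, vs δ (W i) P) :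
    (∀ P ∈ X, Divisorial n P → E P = 0) ∧
    (∀ i ∈ S, ∃ c : ℚ, Prp n X (fun P => k P + δ P) (vs δ (W i)) c) ∧
    Prp n X (fun P => k P + δ P) (fun P => ∑ i ∈ S, vs δ (W i) P) q := by
  classical
  obtain ⟨Ld, hLd⟩ : ∃ Ld : Place ℂ K → ℝ, Ld = fun P => k P + δ P := ⟨_, rfl⟩
  have hLP : ∀ P, (k P : ℝ) + δ P = Ld P := fun P => by rw [hLd]
  have hb := fun {Pos : Set (Place ℂ K → ℝ)} (h1 : DegreeOrder n X Pos) h2 =>
    bounded_or_free (k := k) hn htr hδ hω hω0 hk hG hfree h1 h2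
  simp only [hLP] at hL hno h hb ⊢
  -- the contradiction
  have key : ∀ (e : Place ℂ K → ℝ), (∀ P ∈ X, Divisorial n P → 0 ≤ e P) → ∀ P0 ∈ X,
      Divisorial n P0 → 0 < e P0 →
      (∀ Pos, DegreeOrder n X Pos → Ld ∉ Pos → (∀ W, InvSub G W → ∀ c : ℚ, True) →
        (∃ c : ℚ, ∀ W, InvSub G W → (fun P => vs δ W P + c * Ld P) ∈ opp Pos) →
        ∃ b : ℚ, (fun P => e P + b * Ld P) ∈ opp Pos) → False := by
    intro e he P0 hP0X hP0 heP0 hbd
    obtain ⟨Pos, hPos, hLP', hinf⟩ := exists_order_psef hL hno he hP0X hP0 heP0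
    obtain ⟨b, hb'⟩ := hbd Pos hPos hLP' (fun _ _ _ => trivial) (hb hPos hLP')
    apply hLP'
    have h1 := hPos.add _ (hinf (b + 1)) _ hb'
    convert h1 using 1
    funext P
    rw [Pi.add_apply]
    push_cast
    ring
  -- principal divisors are harmless
  have hprin : ∀ {Pos : Set (Place ℂ K → ℝ)}, DegreeOrder n X Pos → ∀ {N : ℕ}, 0 < N →
      ∀ {z : K}, z ≠ 0 → ∀ {f g : Place ℂ K → ℝ}, g ∈ opp Pos →
      (∀ P ∈ X, Divisorial n P → f P ≤ g P + P.ord z / N) → f ∈ opp Pos := by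
    intro Pos hPos N hN z hz f g hg hfg
    have hNR : (0 : ℝ) < N := by exact_mod_cast hN
    have h1 : f - g ∈ opp Pos := hPos.eff_subset ⟨N, hN, z, hz, fun P hPX hP => by
      have h2 := hfg P hPX hP
      rw [Pi.sub_apply]
      have h3 := mul_le_mul_of_nonneg_left h2 hNR.le
      have h4 : (N : ℝ) * (g P + P.ord z / N) = N * g P + P.ord z := by field_simp
      rw [h4] at h3
      linarith⟩
    have h2 := hPos.isCone.add _ h1 _ hg
    rwa [sub_add_cancel] at h2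
  obtain ⟨N, hN, y, hy, hNy⟩ := h
  have hNR : (0 : ℝ) < N := by exact_mod_cast hN
  obtain ⟨E', hE'⟩ : ∃ E' : Place ℂ K → ℝ, E' = fun P =>
    ∑ i ∈ S, vs δ (W i) P - q * Ld P + P.ord y / N := ⟨_, rfl⟩
  have hEE' : ∀ P ∈ X, Divisorial n P → E P ≤ E' P := by
    intro P hPX hP
    have h1 := hNy P hPX hP
    have h2 : q * Ld P + E P - ∑ i ∈ S, vs δ (W i) P ≤ P.ord y / N := by
      rw [le_div_iff₀ hNR, mul_comm]
      exact h1
    rw [hE']
    beta_reduce
    linarith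
  have hE'0 : ∀ P ∈ X, Divisorial n P → E' P = 0 := by
    intro P0 hP0X hP0
    by_contra hne
    have hpos : 0 < E' P0 := lt_of_le_of_ne ((hE P0 hP0X hP0).trans (hEE' P0 hP0X hP0))
      (Ne.symm hne)
    refine key E' (fun P hPX hP => (hE P hPX hP).trans (hEE' P hPX hP)) P0 hP0X hP0 hpos ?_
    rintro Pos hPos hLP' - ⟨c, hc⟩
    refine ⟨q + S.card * c, hprin hPos hN hy (g := fun P => ∑ i ∈ S, (vs δ (W i) P + c * Ld P))
      ?_ fun P hPX hP => ?_⟩
    · have h1 := hPos.isCone.sum S (f := fun i P => vs δ (W i) P + c * Ld P) fun i _ => hc _ (hW i)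
      convert h1 using 1
      funext P
      rw [Finset.sum_apply]
    · rw [hE', Finset.sum_add_distrib, Finset.sum_const, nsmul_eq_mul]
      push_cast
      refine le_of_eq ?_
      ring
  have hsum : ∀ P ∈ X, Divisorial n P → ∑ i ∈ S, vs δ (W i) P = q * Ld P - P.ord y / N := by
    intro P hPX hP
    have h1 := hE'0 P hPX hP
    rw [hE'] at h1
    beta_reduce at h1
    linarith
  have hPsum : Prp n X Ld (fun P => ∑ i ∈ S, vs δ (W i) P) q :=
    ⟨N, y⁻¹, hN, inv_ne_zero hy, fun P hPX hP => by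
      beta_reduce
      rw [hsum P hPX hP, P.ord_inv]
      push_cast
      field_simp
      ring⟩
  refine ⟨fun P hPX hP => le_antisymm ((hEE' P hPX hP).trans (hE'0 P hPX hP).le)
    (hE P hPX hP), fun i hi => ?_, hPsum⟩
  by_contra hnc
  -- an order for which the determinant is large
  by_cases hobs : ∃ a b : ℚ, 0 < a ∧ Eff n X fun P => a * vs δ (W i) P + b * Ld P
  · obtain ⟨a, b, ha, N1, hN1, y1, hy1, h1⟩ := hobs
    have hN1R : (0 : ℝ) < N1 := by exact_mod_cast hN1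
    have haR : (0 : ℝ) < a := by exact_mod_cast ha
    obtain ⟨E1, hE1⟩ : ∃ E1 : Place ℂ K → ℝ, E1 = fun P =>
      P.ord y1 / N1 - (a * vs δ (W i) P + b * Ld P) := ⟨_, rfl⟩
    have hE1n : ∀ P ∈ X, Divisorial n P → 0 ≤ E1 P := by
      intro P hPX hP
      have h2 := h1 P hPX hP
      have h3 : a * vs δ (W i) P + b * Ld P ≤ P.ord y1 / N1 := by
        rw [le_div_iff₀ hN1R, mul_comm]
        exact h2
      rw [hE1]
      beta_reduce
      linarith
    have hE10 : ∀ P ∈ X, Divisorial n P → E1 P = 0 := by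
      intro P0 hP0X hP0
      by_contra hne
      refine key E1 hE1n P0 hP0X hP0 (lt_of_le_of_ne (hE1n P0 hP0X hP0) (Ne.symm hne)) ?_
      rintro Pos hPos hLP' - ⟨c, hc⟩
      refine ⟨b + a * (q + (S.erase i).card * c), ?_⟩
      have h2 := hPos.isCone.sum (S.erase i) (f := fun j P => vs δ (W j) P + c * Ld P)
        fun j _ => hc _ (hW j)
      have h3 := hPos.isCone.rat h2 ha.le
      refine hprin hPos (Nat.mul_pos hN1 (Nat.mul_pos hN a.den_pos))
        (z := y1 ^ (N * a.den) * y ^ (a.num * (N1 : ℤ)))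
        (mul_ne_zero (pow_ne_zero _ hy1) (zpow_ne_zero _ hy)) h3 fun P hPX hP => ?_
      have h4 := hsum P hPX hP
      rw [← Finset.add_sum_erase S _ hi] at h4
      have h5 : vs δ (W i) P = q * Ld P - P.ord y / N - ∑ j ∈ S.erase i, vs δ (W j) P := by
        linarith
      rw [hE1]
      beta_reduce
      rw [h5, Finset.sum_apply, Finset.sum_add_distrib, Finset.sum_const, nsmul_eq_mul,
        P.ord_mul (pow_ne_zero _ hy1) (zpow_ne_zero _ hy), P.ord_pow, P.ord_zpow]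
      have h7 : (a.num : ℝ) = a * a.den := by exact_mod_cast (Rat.mul_den_eq_num a).symm
      have h8 : (a.den : ℝ) ≠ 0 := by exact_mod_cast a.den_pos.ne'
      push_cast
      rw [h7]
      refine le_of_eq ?_
      field_simp
      ring
    apply hnc
    have h2 : Prp n X Ld (fun P => a * vs δ (W i) P) (-b) := by
      refine ⟨N1, y1, hN1, hy1, fun P hPX hP => ?_⟩
      have h3 := hE10 P hPX hP
      rw [hE1] at h3
      beta_reduce at h3
      have h4 : (P.ord y1 : ℝ) = N1 * (P.ord y1 / N1) := by field_simp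
      rw [h4]
      push_cast
      have h5 : (P.ord y1 : ℝ) / N1 = a * vs δ (W i) P + b * Ld P := by linarith
      rw [h5]
      ring
    have h3 := h2.rat a⁻¹
    refine ⟨a⁻¹ * -b, ?_⟩
    convert h3 using 1
    funext P
    push_cast
    field_simp
  · push Not at hobs
    obtain ⟨Pos, hPos, hLP', hinf⟩ := exists_order_gen (L := Ld) (D := vs δ (W i)) hno hobs
    obtain ⟨c, hc⟩ := hb hPos hLP'
    apply hLP'
    have h1 := hPos.add _ (hinf (c + 1)) _ (hc _ (hW i))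
    convert h1 using 1
    funext P
    rw [Pi.add_apply]
    push_cast
    ring

end

end Pool.Agent.Zk28.TF
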