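import Pool.Agent.Zk28.TF.Prop2

/-!
The lattice of the distributions whose canonical class is a multiple of `L`, and its largest slope.
-/

set_option autoImplicit false
set_option linter.unusedSectionVars false

open FF Pool.Agent.W602.GT

namespace Pool.Agent.Zk28.TF

open Pool.Agent.Zk28.TS

section

variable {K : Type} [Field K] [Algebra ℂ K] {n : ℕ}
  {X : Set (Place ℂ K)} {δ : Place ℂ K → ℝ} {k : Place ℂ K → ℤ} {G : Set (K ≃ₐ[ℂ] K)}

/-- the invariant distributions with the canonical class `c L` -/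
def LL (n : ℕ) (X : Set (Place ℂ K)) (δ : Place ℂ K → ℝ) (k : Place ℂ K → ℤ)
    (G : Set (K ≃ₐ[ℂ] K)) [Module.Finite K (Derivation ℂ K K)]
    (W : Submodule K (Derivation ℂ K K)) (c : ℚ) : Prop :=
  InvSub G W ∧ Prp n X (fun P => k P + δ P) (vs δ W) (-c)

/-- a relation with a larger function -/
theorem Eff.mono {f g : Place ℂ K → ℝ} (h : Eff n X g) {N : ℕ} (hN : 0 < N) {z : K} (hz : z ≠ 0)
    (hfg : ∀ P ∈ X, Divisorial n P → f P ≤ g P + P.ord z / N) : Eff n X f := by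
  obtain ⟨N', hN', y, hy, h⟩ := h
  have hNR : (0 : ℝ) < N := by exact_mod_cast hN
  have hNR' : (0 : ℝ) < N' := by exact_mod_cast hN'
  refine ⟨N * N', Nat.mul_pos hN hN', y ^ N * z ^ N', mul_ne_zero (pow_ne_zero _ hy)
    (pow_ne_zero _ hz), fun P hPX hP => ?_⟩
  rw [P.ord_mul (pow_ne_zero _ hy) (pow_ne_zero _ hz), P.ord_pow, P.ord_pow]
  have h1 := mul_le_mul_of_nonneg_left (hfg P hPX hP) (mul_pos hNR hNR').le
  have h2 := mul_le_mul_of_nonneg_left (h P hPX hP) hNR.le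
  have h3 : (N : ℝ) * N' * (g P + P.ord z / N) = N * (N' * g P) + N' * P.ord z := by
    field_simp
  rw [h3] at h1
  push_cast
  linarith

/-- Replacing a multiple of `L` by an equivalent divisor. -/
theorem Eff.replace {L f g D : Place ℂ K → ℝ} {c : ℚ} (h : Eff n X g) (hD : Prp n X L D c) (a : ℚ)
    (hfg : ∀ P ∈ X, Divisorial n P → f P ≤ g P + a * (c * L P - D P)) : Eff n X f := by
  obtain ⟨N, z, hN, hz, h1⟩ := hD.rat (-a)
  refine h.mono hN hz fun P hPX hP => (hfg P hPX hP).trans (le_of_eq ?_)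
  have h2 := h1 P hPX hP
  have hNR : (N : ℝ) ≠ 0 := by exact_mod_cast hN.ne'
  rw [← h2]
  push_cast
  field_simp
  ring

section ctx

variable [Algebra.EssFiniteType ℂ K] [Module.Finite K (Derivation ℂ K K)]

/-- The standing assumptions. -/
structure Ctx (n : ℕ) (X : Set (Place ℂ K)) (δ : Place ℂ K → ℝ) (k : Place ℂ K → ℤ)
    (G : Set (K ≃ₐ[ℂ] K)) (ω : (Fin n → Derivation ℂ K K) → K) : Prop where
  hn : 1 ≤ n
  htr : Algebra.trdeg ℂ K = n
  hδ : ∀ P ∈ X, 0 ≤ δ P ∧ δ P ≤ 1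
  hω : IsPluri 1 ω
  hω0 : ∃ D, ω D ≠ 0
  hk : DivOf n X ω k
  hG : ∀ g ∈ G, MPreserves X δ (fun _ => (0 : ℝ)) g
  hL : NotAntiEffective n X fun P => k P + δ P
  hno : ¬ Eff n X fun P => -(k P + δ P)
  hfree : ¬ ∃ F, TFree n X δ (fun P => k P + δ P) G F

variable {ω : (Fin n → Derivation ℂ K K) → K} (H : Ctx n X δ k G ω)

include H

theorem Ctx.rigid' {ι : Type} (S : Finset ι)
    {W : ι → Submodule K (Derivation ℂ K K)} (hW : ∀ i, InvSub G (W i)) {q : ℚ}
    {E : Place ℂ K → ℝ} (hE : ∀ P ∈ X, Divisorial n P → 0 ≤ E P)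
    (h : Eff n X fun P => q * (k P + δ P) + E P - ∑ i ∈ S, vs δ (W i) P) :
    (∀ P ∈ X, Divisorial n P → E P = 0) ∧ ∃ c : ι → ℚ, (∀ i ∈ S, LL n X δ k G (W i) (c i)) ∧
      ∑ i ∈ S, c i = -q := by
  classical
  obtain ⟨h1, h2, h3⟩ := rigid H.hn H.htr H.hδ H.hω H.hω0 H.hk H.hG H.hL H.hno H.hfree S hW hE h
  choose! c hc using h2
  refine ⟨h1, fun i => -c i, fun i hi => ⟨hW i, by rw [neg_neg]; exact hc i hi⟩, ?_⟩
  have h4 : ∀ T : Finset ι, T ⊆ S → Prp n X (fun P => (k P : ℝ) + δ P)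
      (fun P => ∑ i ∈ T, vs δ (W i) P) (∑ i ∈ T, c i) := by
    intro T
    induction T using Finset.induction_on with
    | empty =>
      intro _
      refine ⟨1, 1, Nat.one_pos, one_ne_zero, fun P _ _ => ?_⟩
      rw [P.ord_one]
      simp
    | insert a T ha ih =>
      intro hT
      have h5 := (hc a (hT (Finset.mem_insert_self a T))).add
        (ih ((Finset.subset_insert a T).trans hT))
      rw [Finset.sum_insert ha]
      convert h5 using 1
      funext P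
      rw [Finset.sum_insert ha, Pi.add_apply]
  have h5 := (h4 S subset_rfl).unique H.hno h3
  rw [Finset.sum_neg_distrib, h5]

omit H in
theorem ll_unique (hno : ¬ Eff n X fun P => -(k P + δ P)) {W : Submodule K (Derivation ℂ K K)}
    {c c' : ℚ} (h : LL n X δ k G W c) (h' : LL n X δ k G W c') : c = c' := by
  have h1 := h.2.unique hno h'.2
  linarith

theorem Ctx.bot : LL n X δ k G (⊥ : Submodule K (Derivation ℂ K K)) 0 := by
  refine ⟨invSub_bot, ?_⟩
  obtain ⟨y, hy, h3⟩ := vs_tuple H.htr H.hδ (⊥ : Submodule K (Derivation ℂ K K))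
    (b := (fun i => i.elim0 : Fin 0 → Derivation ℂ K K)) linearIndependent_empty_type (by
      rw [Set.range_eq_empty, Submodule.span_empty])
  refine ⟨1, y⁻¹, Nat.one_pos, inv_ne_zero hy, fun P hPX hP => ?_⟩
  have h4 := h3 P hPX hP
  obtain ⟨A, hA⟩ := exists_tri' H.htr hP
    (b := (fun i => i.elim0 : Fin 0 → Derivation ℂ K K)) linearIndependent_empty_type
  rw [vol_eq (H.hδ P hPX) hA, Finset.univ_eq_empty, Finset.sum_empty] at h4
  rw [P.ord_inv]
  push_cast
  linarith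

theorem Ctx.top : LL n X δ k G (⊤ : Submodule K (Derivation ℂ K K)) 1 := by
  refine ⟨fun _ _ _ _ => Submodule.mem_top, ?_⟩
  obtain ⟨y, hy, hvt⟩ := vs_top H.htr H.hδ H.hω H.hω0 H.hk
  refine ⟨1, y, Nat.one_pos, hy, fun P hPX hP => ?_⟩
  rw [hvt P hPX hP]
  push_cast
  ring

/-- The lattice. -/
theorem Ctx.lattice {a b : Submodule K (Derivation ℂ K K)} {c c' : ℚ}
    (ha : LL n X δ k G a c) (hb : LL n X δ k G b c') :
    ∃ e e' : ℚ, LL n X δ k G (a ⊔ b) e ∧ LL n X δ k G (a ⊓ b) e' ∧ e + e' = c + c' := by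
  classical
  let W : Fin 2 → Submodule K (Derivation ℂ K K) := ![a ⊔ b, a ⊓ b]
  have h1 := hh_super (n := n) (X := X) (δ := δ) (β := fun _ => (0 : ℝ)) H.htr H.hδ a b
  obtain ⟨-, e, he, hsum⟩ := H.rigid' (Finset.univ : Finset (Fin 2)) (W := W) (by
      intro i
      fin_cases i
      · exact invSub_sup ha.1 hb.1
      · exact invSub_inf ha.1 hb.1) (q := -c + -c') (E := fun _ => 0) (fun _ _ _ => le_rfl) (by
    refine h1.replace (ha.2.add hb.2) 1 fun P hPX hP => le_of_eq ?_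
    rw [Fin.sum_univ_two]
    change _ + 0 - (vs δ (a ⊔ b) P + vs δ (a ⊓ b) P) = _
    simp only [Pi.sub_apply, Pi.add_apply]
    unfold hh
    push_cast
    ring)
  refine ⟨e 0, e 1, he 0 (Finset.mem_univ _), he 1 (Finset.mem_univ _), ?_⟩
  rw [Fin.sum_univ_two] at hsum
  rw [hsum]
  ring

/-- The degrees are bounded. -/
theorem Ctx.bounded : ∃ C : ℚ, ∀ W c, LL n X δ k G W c → c ≤ C := by
  classical
  obtain ⟨C, hEC, hC, htot, hxC⟩ := exists_total (isCone_eff (n := n) (X := X)) H.hno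
  have hord := degreeOrder_of_cone (n := n) (X := X) hEC hC htot
  have hLn : (fun P => (k P : ℝ) + δ P) ∉ opp C := hxC
  obtain ⟨c0, hc0⟩ := bounded_or_free H.hn H.htr H.hδ H.hω H.hω0 H.hk H.hG H.hfree hord hLn
  refine ⟨c0, fun W c hW => ?_⟩
  by_contra hlt
  push Not at hlt
  obtain ⟨N, z, hN, hz, h1⟩ := hW.2
  have hNR : (0 : ℝ) < N := by exact_mod_cast hN
  have h2 := hc0 W hW.1
  have h3 : (fun P => vs δ W P + c0 * (k P + δ P)) ∈ C := by
    change (fun P => -(fun P => -(vs δ W P + c0 * (k P + δ P))) P) ∈ C at h2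
    simpa only [neg_neg] using h2
  have h4 : (fun P => -(vs δ W P + c * (k P + δ P))) ∈ C := by
    refine hEC ⟨N, hN, z⁻¹, inv_ne_zero hz, fun P hPX hP => ?_⟩
    have h5 := h1 P hPX hP
    rw [P.ord_inv]
    push_cast at h5 ⊢
    rw [← h5]
    refine le_of_eq ?_
    ring
  have h5 := hC.rat (hC.add _ h3 _ h4) (q := (c - c0)⁻¹) (inv_nonneg.mpr (sub_pos.mpr hlt).le)
  apply hxC
  convert h5 using 1
  funext P
  have h6 : ((c : ℝ) - c0) ≠ 0 := by
    have : (0 : ℝ) < c - c0 := by exact_mod_cast sub_pos.mpr hlt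
    exact this.ne'
  rw [Pi.add_apply]
  push_cast
  field_simp
  ring

end ctx

end

end Pool.Agent.Zk28.TF
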