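import Pool.Agent.Zk28.TF.Prop3

/-!
The foliation of the largest slope.
-/

set_option autoImplicit false
set_option linter.unusedSectionVars false

open FF Pool.Agent.W602.GT

namespace Pool.Agent.Zk28.TF

open Pool.Agent.Zk28.TS

section

variable {K : Type} [Field K] [Algebra ℂ K] {n : ℕ}
  {X : Set (Place ℂ K)} {δ : Place ℂ K → ℝ} {k : Place ℂ K → ℤ} {G : Set (K ≃ₐ[ℂ] K)}
  [Algebra.EssFiniteType ℂ K] [Module.Finite K (Derivation ℂ K K)]
  {ω : (Fin n → Derivation ℂ K K) → K}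

open scoped Classical in
/-- the degree -/
noncomputable def dg (n : ℕ) (X : Set (Place ℂ K)) (δ : Place ℂ K → ℝ) (k : Place ℂ K → ℤ)
    (G : Set (K ≃ₐ[ℂ] K)) (W : Submodule K (Derivation ℂ K K)) : ℚ :=
  if h : ∃ c, LL n X δ k G W c then h.choose else 0

theorem Ctx.dg_eq (H : Ctx n X δ k G ω) {W : Submodule K (Derivation ℂ K K)} {c : ℚ}
    (h : LL n X δ k G W c) : dg n X δ k G W = c := by
  classical
  have h1 : ∃ c, LL n X δ k G W c := ⟨c, h⟩
  unfold dg
  rw [dif_pos h1]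
  exact ll_unique H.hno h1.choose_spec h

theorem Ctx.dg_spec (H : Ctx n X δ k G ω) {W : Submodule K (Derivation ℂ K K)}
    (h : ∃ c, LL n X δ k G W c) : LL n X δ k G W (dg n X δ k G W) := by
  obtain ⟨c, hc⟩ := h
  rw [H.dg_eq hc]
  exact hc

/-- **The largest slope.** -/
theorem Ctx.max_slope (H : Ctx n X δ k G ω) :
    ∃ (F : Submodule K (Derivation ℂ K K)) (s t : ℚ), F ≠ ⊥ ∧
      LL n X δ k G F (s * Module.finrank K F) ∧ 1 / n ≤ s ∧ 0 ≤ t ∧ t < s ∧
      (∀ W c, LL n X δ k G W c → c ≤ s * Module.finrank K W) ∧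
      (∀ W c, LL n X δ k G W c → c - t * Module.finrank K W ≤ (s - t) * Module.finrank K F) ∧
      ∀ W c, LL n X δ k G W c → W < F →
        c - t * Module.finrank K W < (s - t) * Module.finrank K F := by
  classical
  obtain ⟨x, b, hFr⟩ := exists_fr H.htr
  have hnq : (0 : ℚ) < n := by exact_mod_cast H.hn
  let rk : Submodule K (Derivation ℂ K K) → ℚ := fun W => Module.finrank K W
  have hrk : ∀ W, rk W = Module.finrank K W := fun _ => rfl
  let L : Submodule K (Derivation ℂ K K) → Prop := fun W => ∃ c, LL n X δ k G W c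
  let d : Submodule K (Derivation ℂ K K) → ℚ := dg n X δ k G
  have hd : ∀ {W c}, LL n X δ k G W c → d W = c := fun h => H.dg_eq h
  let C : Set ℚ := {x | x ≤ 0}
  have hC : IsCone C := by
    refine ⟨?_, fun x hx y hy => ?_, fun N x hN hx => ?_⟩
    · change (0 : ℚ) ≤ 0
      exact le_rfl
    · change x + y ≤ 0
      exact add_nonpos hx hy
    change x ≤ 0
    have h1 : (N : ℚ) * x ≤ 0 := by
      have h2 : N • x ≤ 0 := hx
      rwa [nsmul_eq_mul] at h2
    have hN' : (0 : ℚ) < N := by exact_mod_cast hN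
    by_contra hx0
    have h3 : 0 < x := lt_of_not_ge hx0
    have h4 := mul_pos hN' h3
    linarith
  have htot : ∀ x : ℚ, x ∈ C ∨ -x ∈ C := by
    intro x
    rcases le_total x 0 with h | h
    · exact Or.inl h
    · exact Or.inr (by change -x ≤ 0; linarith)
  have hadd : ∀ a c, L a → L c → d (a ⊔ c) + d (a ⊓ c) = d a + d c := by
    rintro a c ⟨u, hu⟩ ⟨v, hv⟩
    obtain ⟨e, e', h1, h2, h3⟩ := H.lattice hu hv
    rw [hd h1, hd h2, hd hu, hd hv, h3]
  have hrkadd : ∀ a c, rk (a ⊔ c) + rk (a ⊓ c) = rk a + rk c := by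
    intro a c
    simp only [hrk]
    exact_mod_cast Submodule.finrank_sup_add_finrank_inf_eq a c
  let Good : ℚ → Submodule K (Derivation ℂ K K) → Prop := fun t V => L V ∧
    (∀ W, L W → (d W - t * rk W) - (d V - t * rk V) ∈ C) ∧
    ∀ W, L W → W < V → ¬ (d V - t * rk V) - (d W - t * rk W) ∈ C
  have hgood : ∀ t : ℚ, ∃ V, Good t V := fun t =>
    exists_strict_min hC htot L ⟨0, H.bot⟩ ⟨1, H.top⟩
      (fun a c ⟨u, hu⟩ ⟨v, hv⟩ => by
        obtain ⟨e, e', h1, h2, h3⟩ := H.lattice hu hv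
        exact ⟨e, h1⟩)
      (fun a c ⟨u, hu⟩ ⟨v, hv⟩ => by
        obtain ⟨e, e', h1, h2, h3⟩ := H.lattice hu hv
        exact ⟨e', h2⟩)
      (fun W => Module.finrank K W) (fun _ _ h => Submodule.finrank_lt_finrank_of_lt h)
      (fun W => d W - t * rk W) fun a c ha hc => by
        have h1 := hadd a c ha hc
        have h2 := hrkadd a c
        change _ ≤ (0 : ℚ)
        have h3 : d a - t * rk a + (d c - t * rk c) -
            (d (a ⊔ c) - t * rk (a ⊔ c) + (d (a ⊓ c) - t * rk (a ⊓ c))) =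
            (d a + d c - (d (a ⊔ c) + d (a ⊓ c))) +
              t * (rk (a ⊔ c) + rk (a ⊓ c) - (rk a + rk c)) := by ring
        rw [h3, h1, h2]
        simp
  let Adm : ℚ → Prop := fun t => ∃ W, L W ∧ 0 < d W - t * rk W
  have hbot0 : ∀ t : ℚ, d ⊥ - t * rk ⊥ = 0 := by
    intro t
    rw [hd H.bot, hrk, finrank_bot]
    simp
  have hAdm0 : Adm 0 := ⟨⊤, ⟨1, H.top⟩, by rw [hd H.top]; norm_num⟩
  have hex : ∃ e, ∃ t : ℚ, Adm t ∧ ∃ V, Good t V ∧ Module.finrank K V = e := by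
    obtain ⟨V, hV⟩ := hgood 0
    exact ⟨_, 0, hAdm0, V, hV, rfl⟩
  obtain ⟨t0, ht0, V, hV, hVd⟩ := Nat.find_spec hex
  have hminimal : ∀ (t : ℚ) (V' : Submodule K (Derivation ℂ K K)), Adm t → Good t V' →
      Module.finrank K V ≤ Module.finrank K V' := by
    intro t V' h1 h2
    rw [hVd]
    exact Nat.find_min' hex ⟨t, h1, V', h2, rfl⟩
  have hall : ∀ t : ℚ, t0 ≤ t → Adm t → Good t V := by
    intro t htt ht
    obtain ⟨V', hV'⟩ := hgood t
    have hle' : V' ≤ V := by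
      by_contra hno'
      have hlt : V' ⊓ V < V' := lt_of_le_of_ne inf_le_left fun h => hno' (by
        rw [← h]
        exact inf_le_right)
      obtain ⟨u, hu⟩ := hV'.1
      obtain ⟨v, hv⟩ := hV.1
      obtain ⟨e, e', h1, h2, h3⟩ := H.lattice hu hv
      refine hV'.2.2 _ ⟨e', h2⟩ hlt ?_
      have h4 : (d (V' ⊔ V) - t0 * rk (V' ⊔ V)) - (d V - t0 * rk V) ≤ 0 := hV.2.1 _ ⟨e, h1⟩
      have h5 := hadd V' V hV'.1 hV.1
      have h6 := hrkadd V' V
      have h7 : rk V ≤ rk (V' ⊔ V) := by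
        simp only [hrk]
        exact_mod_cast Submodule.finrank_mono le_sup_right
      change (d V' - t * rk V') - (d (V' ⊓ V) - t * rk (V' ⊓ V)) ≤ 0
      have h8 : (d V' - t * rk V') - (d (V' ⊓ V) - t * rk (V' ⊓ V)) =
          (d (V' ⊔ V) - t0 * rk (V' ⊔ V)) - (d V - t0 * rk V) +
            (t0 - t) * (rk (V' ⊔ V) - rk V) +
            (d V' + d V - (d (V' ⊔ V) + d (V' ⊓ V))) +
            t * ((rk (V' ⊔ V) + rk (V' ⊓ V)) - (rk V' + rk V)) := by ring
      rw [h8, h5, h6]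
      have h9 : (t0 - t) * (rk (V' ⊔ V) - rk V) ≤ 0 :=
        mul_nonpos_of_nonpos_of_nonneg (by linarith) (by linarith)
      linarith
    have heq : V' = V := Submodule.eq_of_le_of_finrank_le hle' (hminimal t V' ht hV')
    rwa [heq] at hV'
  have hpos : ∀ t : ℚ, Adm t → Good t V → 0 < d V - t * rk V := by
    rintro t ⟨W, hW, hW0⟩ hg
    have h1 : (d W - t * rk W) - (d V - t * rk V) ≤ 0 := hg.2.1 W hW
    linarith
  have hV0 : V ≠ ⊥ := by
    rintro rfl
    have h1 := hpos t0 ht0 hV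
    rw [hbot0] at h1
    exact lt_irrefl _ h1
  have hrkV : 0 < rk V := by
    have : Nontrivial V := Submodule.nontrivial_iff_ne_bot.mpr hV0
    have h1 : 0 < Module.finrank K V := Module.finrank_pos
    simp only [hrk]
    exact_mod_cast h1
  obtain ⟨s, hs⟩ : ∃ s, s = d V / rk V := ⟨_, rfl⟩
  have hsV : s * rk V = d V := by
    rw [hs]
    field_simp
  have ht0s : t0 < s := by
    have h1 := hpos t0 ht0 hV
    by_contra hlt
    push Not at hlt
    have h2 := mul_le_mul_of_nonneg_right hlt hrkV.le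
    linarith
  have hmax : ∀ W, L W → d W ≤ s * rk W := by
    intro W hW
    by_contra hlt
    push Not at hlt
    have hA : Adm s := ⟨W, hW, by linarith⟩
    have h1 := hpos s hA (hall s ht0s.le hA)
    linarith
  have hs1 : 1 / (n : ℚ) ≤ s := by
    have h1 := hmax ⊤ ⟨1, H.top⟩
    rw [hd H.top, hrk, finrank_top, hFr.finrank] at h1
    rwa [div_le_iff₀ hnq]
  have hspos : 0 < s := lt_of_lt_of_le (one_div_pos.mpr hnq) hs1
  obtain ⟨t, ht⟩ : ∃ t, t = max t0 0 := ⟨_, rfl⟩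
  have hts : t < s := by
    rw [ht]
    exact max_lt ht0s hspos
  have hAt : Adm t := ⟨V, hV.1, by
    have h2 := mul_lt_mul_of_pos_right hts hrkV
    linarith⟩
  have hGt := hall t (by rw [ht]; exact le_max_left _ _) hAt
  refine ⟨V, s, t, hV0, ?_, hs1, by rw [ht]; exact le_max_right _ _, hts, fun W c hW => ?_,
    fun W c hW => ?_, fun W c hW hWV => ?_⟩
  · have h1 := H.dg_spec hV.1
    change LL n X δ k G V (s * rk V)
    rw [hsV]
    exact h1
  · have h1 := hmax W ⟨c, hW⟩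
    rwa [hd hW] at h1
  · have h1 : (d W - t * rk W) - (d V - t * rk V) ≤ 0 := hGt.2.1 W ⟨c, hW⟩
    rw [hd hW, ← hsV] at h1
    simp only [hrk] at h1
    linarith
  · have h1 : ¬ (d V - t * rk V) - (d W - t * rk W) ≤ 0 := hGt.2.2 W ⟨c, hW⟩ hWV
    rw [hd hW, ← hsV] at h1
    simp only [hrk] at h1
    push Not at h1
    linarith

end

end Pool.Agent.Zk28.TF
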