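import Pool.Agent.Zk28.TF.Prop4

/-!
The relations which are given by tensors and by brackets.
-/

set_option autoImplicit false
set_option linter.unusedSectionVars false

open FF Pool.Agent.W602.GT

namespace Pool.Agent.Zk28.TF

open Pool.Agent.Zk28.TS

section

variable {K : Type} [Field K] [Algebra ℂ K] {n : ℕ}
  {X : Set (Place ℂ K)} {δ : Place ℂ K → ℝ} {k : Place ℂ K → ℤ} {G : Set (K ≃ₐ[ℂ] K)}
  [Algebra.EssFiniteType ℂ K] [Module.Finite K (Derivation ℂ K K)]
  {ω : (Fin n → Derivation ℂ K K) → K}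

/-- The relation of a leafwise tensor. -/
theorem Ctx.tensor_rel (H : Ctx n X δ k G ω) {V : Submodule K (Derivation ℂ K K)} {cV : ℚ}
    (hV : LL n X δ k G V cV) {m : ℕ} (hm : 0 < m) {q : ℚ} {E : Place ℂ K → ℝ}
    (hE : ∀ P ∈ X, Divisorial n P → 0 ≤ E P) (hEG : InvariantClass n X G E)
    {s : MultilinearMap K (fun _ : Fin m => V) (AlgebraicClosure K)}
    (hs : LeafAdapted n X δ (fun P => q * (k P + δ P) - E P) V s) (hs0 : s ≠ 0) :
    (∀ P ∈ X, Divisorial n P → E P = 0) ∧
      ∃ (M : ℕ) (W : ℕ → Submodule K (Derivation ℂ K K)) (c : ℕ → ℚ), 0 < M ∧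
        (∀ t, W t ≤ V) ∧ W 0 ≠ V ∧ (∀ t < M, LL n X δ k G (W t) (c t)) ∧
        ∑ t ∈ Finset.range M, (cV - c t) =
          -(q / m * ∑ t ∈ Finset.range M,
            ((Module.finrank K V : ℚ) - Module.finrank K (W t))) := by
  classical
  have hmR : (0 : ℝ) < m := by exact_mod_cast hm
  have hmq : (0 : ℚ) < m := by exact_mod_cast hm
  have hnR : (0 : ℝ) < n := by exact_mod_cast H.hn
  have hγ : InvariantClass n X G fun P => q * (k P + δ P) - E P := by
    have h1 := inv_comb (inv_L H.htr H.hω H.hω0 H.hk H.hG) hEG q (-1)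
    convert h1 using 1
    funext P
    push_cast
    ring
  have hfun : (fun P => (m : ℝ) / n * ((n : ℝ) / m * (q * (k P + δ P) - E P))) =
      fun P => q * (k P + δ P) - E P := by
    funext P
    field_simp
  obtain ⟨M, W, hM, hW, hWV, hW0, hrel⟩ := rel_tensor H.htr H.hδ
    (β := fun P => (n : ℝ) / m * (q * (k P + δ P) - E P)) hV.1 hm (by
      intro σ hσ s' hs' u hu
      rw [hfun] at hs' ⊢
      exact pull_inv hγ hσ (H.hG σ hσ) (hV.1 σ hσ) hs' hu)
    (s1 := s) (by rw [hfun]; exact hs) hs0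
  obtain ⟨A, hA⟩ : ∃ A : ℚ, A = ∑ t ∈ Finset.range M,
    ((Module.finrank K V : ℚ) - Module.finrank K (W t)) := ⟨_, rfl⟩
  have hApos : 0 < A := by
    rw [hA]
    refine Finset.sum_pos' (fun t _ => ?_) ⟨0, Finset.mem_range.mpr hM, ?_⟩
    · have h1 : (Module.finrank K (W t) : ℚ) ≤ Module.finrank K V := by
        exact_mod_cast Submodule.finrank_mono (hWV t)
      linarith
    · have h1 : (Module.finrank K (W 0) : ℚ) < Module.finrank K V := by
        exact_mod_cast Submodule.finrank_lt_finrank_of_lt (lt_of_le_of_ne (hWV 0) hW0)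
      linarith
  have hAR : (A : ℝ) = ∑ t ∈ Finset.range M,
      ((Module.finrank K V : ℝ) - Module.finrank K (W t)) := by
    rw [hA]
    push_cast
    rfl
  have hAm : (0 : ℝ) < A / m := div_pos (by exact_mod_cast hApos) hmR
  obtain ⟨hE0, c, hc, hsum⟩ := H.rigid' (Finset.range M) (W := W) hW
    (q := -(M * cV) - A / m * q) (E := fun P => (A : ℝ) / m * E P)
    (fun P hPX hP => mul_nonneg hAm.le (hE P hPX hP)) (by
      refine hrel.replace hV.2 M fun P hPX hP => le_of_eq ?_
      rw [Finset.sum_apply]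
      have h1 : ∀ t, (hh n δ (fun P => (n : ℝ) / m * (q * (k P + δ P) - E P)) V -
          hh n δ (fun P => (n : ℝ) / m * (q * (k P + δ P) - E P)) (W t)) P =
          vs δ V P - vs δ (W t) P - ((Module.finrank K V : ℝ) - Module.finrank K (W t)) *
            ((q * (k P + δ P) - E P) / m) := by
        intro t
        rw [Pi.sub_apply]
        unfold hh
        field_simp
        ring
      rw [Finset.sum_congr rfl fun t _ => h1 t, Finset.sum_sub_distrib, Finset.sum_sub_distrib,
        ← Finset.sum_mul, ← hAR, Finset.sum_const, Finset.card_range, nsmul_eq_mul]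
      push_cast
      ring)
  refine ⟨fun P hPX hP => ?_, M, W, c, hM, hWV, hW0, fun t ht => hc t (Finset.mem_range.mpr ht),
    ?_⟩
  · rcases mul_eq_zero.mp (hE0 P hPX hP) with h1 | h1
    · exact absurd h1 hAm.ne'
    · exact h1
  · rw [Finset.sum_sub_distrib, hsum, Finset.sum_const, Finset.card_range, nsmul_eq_mul, ← hA]
    ring

/-- The distribution of the largest slope is closed under brackets. -/
theorem Ctx.bracket (H : Ctx n X δ k G ω) {V : Submodule K (Derivation ℂ K K)} {cV t : ℚ}
    (hV : LL n X δ k G V cV) (ht : 0 ≤ t)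
    (h1 : ∀ W c, LL n X δ k G W c →
      c - t * Module.finrank K W ≤ cV - t * Module.finrank K V)
    (h2 : ∀ W c, LL n X δ k G W c → W < V →
      c - t * Module.finrank K W < cV - t * Module.finrank K V) :
    ∀ D ∈ V, ∀ E ∈ V, ⁅D, E⁆ ∈ V := by
  classical
  by_contra hno'
  push Not at hno'
  obtain ⟨D, hD, E, hE, hDE⟩ := hno'
  have hnR : (0 : ℝ) < n := by exact_mod_cast H.hn
  obtain ⟨M, R, Vt, Wt, hM, hVt, hWt, hVtV, hVt0, hrel⟩ :=
    rel_levi H.htr H.hδ (β := fun P => -(n * t) * ((k P : ℝ) + δ P)) hV.1 ⟨D, hD, E, hE, hDE⟩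
  obtain ⟨A, hA⟩ : ∃ A : ℚ, A = ∑ i ∈ Finset.range M,
    ((Module.finrank K V : ℚ) - Module.finrank K (Vt i)) := ⟨_, rfl⟩
  obtain ⟨B, hB⟩ : ∃ B : ℚ, B = ∑ i ∈ Finset.range R,
    ((Module.finrank K (Wt i) : ℚ) - Module.finrank K V) := ⟨_, rfl⟩
  have hAR : (A : ℝ) = ∑ i ∈ Finset.range M,
      ((Module.finrank K V : ℝ) - Module.finrank K (Vt i)) := by
    rw [hA]
    push_cast
    rfl
  have hBR : (B : ℝ) = ∑ i ∈ Finset.range R,
      ((Module.finrank K (Wt i) : ℝ) - Module.finrank K V) := by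
    rw [hB]
    push_cast
    rfl
  obtain ⟨-, c, hc, hsum⟩ := H.rigid' ((Finset.range M).disjSum (Finset.range R))
    (W := Sum.elim Vt Wt) (by
      rintro (i | i)
      · exact hVt i
      · exact hWt i)
    (q := -((M + R) * cV) + t * (A - B - R)) (E := fun _ => 0) (fun _ _ _ => le_rfl) (by
      refine hrel.replace hV.2 (M + R) fun P hPX hP => le_of_eq ?_
      rw [Finset.sum_disjSum, Pi.add_apply, Pi.sub_apply, Finset.sum_apply, Finset.sum_apply]
      have h3 : ∀ i, (hh n δ (fun P => -(n * t) * ((k P : ℝ) + δ P)) V -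
          hh n δ (fun P => -(n * t) * ((k P : ℝ) + δ P)) (Vt i)) P =
          vs δ V P - vs δ (Vt i) P + ((Module.finrank K V : ℝ) - Module.finrank K (Vt i)) *
            (t * (k P + δ P)) := by
        intro i
        rw [Pi.sub_apply]
        unfold hh
        field_simp
        ring
      have h4 : ∀ i, (hh n δ (fun P => -(n * t) * ((k P : ℝ) + δ P)) (Wt i) -
          hh n δ (fun P => -(n * t) * ((k P : ℝ) + δ P)) V) P =
          vs δ (Wt i) P - vs δ V P + ((Module.finrank K (Wt i) : ℝ) - Module.finrank K V) *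
            (t * (k P + δ P)) := by
        intro i
        rw [Pi.sub_apply]
        unfold hh
        field_simp
        ring
      rw [Finset.sum_congr rfl fun i _ => h3 i, Finset.sum_congr rfl fun i _ => h4 i,
        Finset.sum_add_distrib, Finset.sum_add_distrib, Finset.sum_sub_distrib,
        Finset.sum_sub_distrib, ← Finset.sum_mul, ← Finset.sum_mul, ← hAR, ← hBR,
        Finset.sum_const, Finset.sum_const, Finset.card_range, Finset.card_range, nsmul_eq_mul,
        nsmul_eq_mul]
      simp only [Sum.elim_inl, Sum.elim_inr]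
      push_cast
      field_simp
      ring)
  rw [Finset.sum_disjSum] at hsum
  have ha : 0 < ∑ i ∈ Finset.range M, ((cV - t * Module.finrank K V) -
      (c (Sum.inl i) - t * Module.finrank K (Vt i))) := by
    have hcl : ∀ i ∈ Finset.range M, LL n X δ k G (Vt i) (c (Sum.inl i)) := fun i hi =>
      hc (Sum.inl i) (Finset.inl_mem_disjSum.mpr hi)
    refine Finset.sum_pos' (fun i hi => ?_) ⟨0, Finset.mem_range.mpr hM, ?_⟩
    · have := h1 _ _ (hcl i hi)
      linarith
    · have := h2 _ _ (hcl 0 (Finset.mem_range.mpr hM)) (lt_of_le_of_ne (hVtV 0) hVt0)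
      linarith
  have hb : ∑ i ∈ Finset.range R, ((c (Sum.inr i) - t * Module.finrank K (Wt i)) -
      (cV - t * Module.finrank K V)) ≤ 0 := by
    refine Finset.sum_nonpos fun i hi => ?_
    have hcr : LL n X δ k G (Wt i) (c (Sum.inr i)) :=
      hc (Sum.inr i) (Finset.inr_mem_disjSum.mpr hi)
    have := h1 _ _ hcr
    linarith
  have h5 : ∑ i ∈ Finset.range M, ((cV - t * Module.finrank K V) -
      (c (Sum.inl i) - t * Module.finrank K (Vt i))) =
      M * cV - t * A - ∑ i ∈ Finset.range M, c (Sum.inl i) := by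
    rw [hA, Finset.mul_sum]
    have h6 : ∀ i ∈ Finset.range M, (cV - t * Module.finrank K V) -
      (c (Sum.inl i) - t * Module.finrank K (Vt i)) = cV -
        t * ((Module.finrank K V : ℚ) - Module.finrank K (Vt i)) - c (Sum.inl i) := by
      intro i _
      ring
    rw [Finset.sum_congr rfl h6, Finset.sum_sub_distrib, Finset.sum_sub_distrib,
      Finset.sum_const, Finset.card_range, nsmul_eq_mul]
  have h6 : ∑ i ∈ Finset.range R, ((c (Sum.inr i) - t * Module.finrank K (Wt i)) -
      (cV - t * Module.finrank K V)) =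
      ∑ i ∈ Finset.range R, c (Sum.inr i) - t * B - R * cV := by
    rw [hB, Finset.mul_sum]
    have h6 : ∀ i ∈ Finset.range R, (c (Sum.inr i) - t * Module.finrank K (Wt i)) -
      (cV - t * Module.finrank K V) = c (Sum.inr i) -
        t * ((Module.finrank K (Wt i) : ℚ) - Module.finrank K V) - cV := by
      intro i _
      ring
    rw [Finset.sum_congr rfl h6, Finset.sum_sub_distrib, Finset.sum_sub_distrib,
      Finset.sum_const, Finset.card_range, nsmul_eq_mul]
  have h7 : (0 : ℚ) ≤ t * R := mul_nonneg ht (Nat.cast_nonneg _)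
  rw [h5] at ha
  rw [h6] at hb
  linarith

end

end Pool.Agent.Zk28.TF
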