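import Pool.Agent.Zk28.TF.Prop5

/-!
The slope filtration.
-/

set_option autoImplicit false
set_option linter.unusedSectionVars false

open FF Pool.Agent.W602.GT

namespace Pool.Agent.Zk28.TF

open Pool.Agent.Zk28.TS

section

variable {K : Type} [Field K] [Algebra ℂ K] {n : ℕ}
  {X : Set (Place ℂ K)} {δ : Place ℂ K → ℝ} {k : Place ℂ K → ℤ} {G : Set (K ≃ₐ[ℂ] K)}
  [Algebra.EssFiniteType ℂ K] [Module.Finite K (Derivation ℂ K K)]
  {ω : (Fin n → Derivation ℂ K K) → K}

/-- `V` is the smallest distribution in the lattice for which the degree minus `t` times the rank is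
maximal. -/
structure Good (n : ℕ) (X : Set (Place ℂ K)) (δ : Place ℂ K → ℝ) (k : Place ℂ K → ℤ)
    (G : Set (K ≃ₐ[ℂ] K)) (t : ℚ) (V : Submodule K (Derivation ℂ K K)) (cV : ℚ) : Prop where
  mem : LL n X δ k G V cV
  max : ∀ W c, LL n X δ k G W c → c - t * Module.finrank K W ≤ cV - t * Module.finrank K V
  strict : ∀ W c, LL n X δ k G W c → W < V →
    c - t * Module.finrank K W < cV - t * Module.finrank K V

theorem Ctx.exists_good (H : Ctx n X δ k G ω) (t : ℚ) :
    ∃ (V : Submodule K (Derivation ℂ K K)) (c : ℚ), Good n X δ k G t V c := by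
  classical
  let rk : Submodule K (Derivation ℂ K K) → ℚ := fun W => Module.finrank K W
  have hrk : ∀ W, rk W = Module.finrank K W := fun _ => rfl
  let L : Submodule K (Derivation ℂ K K) → Prop := fun W => ∃ c, LL n X δ k G W c
  let d : Submodule K (Derivation ℂ K K) → ℚ := dg n X δ k G
  have hd : ∀ {W c}, LL n X δ k G W c → d W = c := fun h => H.dg_eq h
  let C : Set ℚ := {x | x ≤ 0}
  have hC : IsCone C := by
    refine ⟨?_, fun x hx y hy => ?_, fun N x hN hx => ?_⟩
    · change (0 : ℚ) ≤ 0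
      exact le_rfl
    · change x + y ≤ 0
      exact add_nonpos hx hy
    change x ≤ 0
    have h1 : (N : ℚ) * x ≤ 0 := by
      have h2 : N • x ≤ 0 := hx
      rwa [nsmul_eq_mul] at h2
    have hN' : (0 : ℚ) < N := by exact_mod_cast hN
    by_contra hx0
    have h3 : 0 < x := lt_of_not_ge hx0
    have h4 := mul_pos hN' h3
    linarith
  have htot : ∀ x : ℚ, x ∈ C ∨ -x ∈ C := by
    intro x
    rcases le_total x 0 with h | h
    · exact Or.inl h
    · exact Or.inr (by change -x ≤ 0; linarith)
  obtain ⟨V, hV, h1, h2⟩ := exists_strict_min hC htot L ⟨0, H.bot⟩ ⟨1, H.top⟩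
      (fun a c ⟨u, hu⟩ ⟨v, hv⟩ => by
        obtain ⟨e, e', h1, h2, h3⟩ := H.lattice hu hv
        exact ⟨e, h1⟩)
      (fun a c ⟨u, hu⟩ ⟨v, hv⟩ => by
        obtain ⟨e, e', h1, h2, h3⟩ := H.lattice hu hv
        exact ⟨e', h2⟩)
      (fun W => Module.finrank K W) (fun _ _ h => Submodule.finrank_lt_finrank_of_lt h)
      (fun W => d W - t * rk W) fun a c ha hc => by
        obtain ⟨u, hu⟩ := ha
        obtain ⟨v, hv⟩ := hc
        obtain ⟨e, e', h1, h2, h3⟩ := H.lattice hu hv
        have h4 : rk (a ⊔ c) + rk (a ⊓ c) = rk a + rk c := by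
          simp only [hrk]
          exact_mod_cast Submodule.finrank_sup_add_finrank_inf_eq a c
        change _ ≤ (0 : ℚ)
        rw [hd h1, hd h2, hd hu, hd hv]
        have h5 : u - t * rk a + (v - t * rk c) - (e - t * rk (a ⊔ c) + (e' - t * rk (a ⊓ c))) =
            (u + v - (e + e')) + t * (rk (a ⊔ c) + rk (a ⊓ c) - (rk a + rk c)) := by ring
        rw [h5, h3, h4]
        simp
  refine ⟨V, d V, H.dg_spec hV, fun W c hW => ?_, fun W c hW hWV => ?_⟩
  · have h3 : (d W - t * rk W) - (d V - t * rk V) ≤ 0 := h1 W ⟨c, hW⟩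
    rw [hd hW] at h3
    simp only [hrk] at h3
    linarith
  · have h3 : ¬ (d V - t * rk V) - (d W - t * rk W) ≤ 0 := h2 W ⟨c, hW⟩ hWV
    rw [hd hW] at h3
    simp only [hrk] at h3
    push Not at h3
    linarith

theorem Ctx.good_mono (H : Ctx n X δ k G ω) {t t' : ℚ} (htt : t ≤ t')
    {V V' : Submodule K (Derivation ℂ K K)} {c c' : ℚ} (h : Good n X δ k G t V c)
    (h' : Good n X δ k G t' V' c') : V' ≤ V := by
  classical
  by_contra hno'
  have hlt : V' ⊓ V < V' := lt_of_le_of_ne inf_le_left fun h => hno' (by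
    rw [← h]
    exact inf_le_right)
  obtain ⟨e, e', h1, h2, h3⟩ := H.lattice h'.mem h.mem
  have h4 := h'.strict _ _ h2 hlt
  have h5 := h.max _ _ h1
  have h6 : (Module.finrank K (V' ⊔ V : Submodule K _) : ℚ) +
      Module.finrank K (V' ⊓ V : Submodule K _) = Module.finrank K V' + Module.finrank K V := by
    exact_mod_cast Submodule.finrank_sup_add_finrank_inf_eq V' V
  have h7 : (Module.finrank K V : ℚ) ≤ Module.finrank K (V' ⊔ V : Submodule K _) := by
    exact_mod_cast Submodule.finrank_mono le_sup_right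
  have h8 : (t' - t) * Module.finrank K V ≤
      (t' - t) * Module.finrank K (V' ⊔ V : Submodule K _) :=
    mul_le_mul_of_nonneg_left h7 (by linarith)
  have h9 : t' * ((Module.finrank K (V' ⊔ V : Submodule K _) : ℚ) +
      Module.finrank K (V' ⊓ V : Submodule K _)) =
      t' * (Module.finrank K V' + Module.finrank K V) := by rw [h6]
  linarith

/-- **The slope filtration.** -/
theorem Ctx.filtration (H : Ctx n X δ k G ω) :
    ∃ (V : ℚ → Submodule K (Derivation ℂ K K)) (c : ℚ → ℚ),
      (∀ t, Good n X δ k G t (V t) (c t)) ∧ (∀ t t', t ≤ t' → V t' ≤ V t) ∧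
      (∃ t, V t = ⊤) ∧ (∃ t, V t = ⊥) ∧ (∀ t < 1 / (n : ℚ), V t ≠ ⊥) ∧
      (∀ t, 0 ≤ t → ∀ D ∈ V t, ∀ E ∈ V t, ⁅D, E⁆ ∈ V t) ∧
      (∀ (t : ℚ) (m : ℕ), 0 < m → ∀ (q : ℚ) (E : Place ℂ K → ℝ),
        (∀ P ∈ X, Divisorial n P → 0 ≤ E P) → InvariantClass n X G E →
        ∀ s : MultilinearMap K (fun _ : Fin m => V t) (AlgebraicClosure K), s ≠ 0 →
        LeafAdapted n X δ (fun P => q * (k P + δ P) - E P) (V t) s →
        (∀ P ∈ X, Divisorial n P → E P = 0) ∧ q < -(m * t)) ∧
      (∀ (p : ℕ), 0 < p → ∀ (r : ℚ) (t : MTensor K (Fin p)), t ≠ 0 →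
        MAdapted n X δ (fun P => r * (k P + δ P)) t →
        (-(p / n : ℚ) < r → V (1 / n) ≠ ⊥ ∧ V (1 / n) ≠ ⊤) ∧
        (r ≠ -(p / n : ℚ) → ∃ W c, LL n X δ k G W c ∧ W ≠ ⊥ ∧ W ≠ ⊤)) := by
  classical
  obtain ⟨x, b, hFr⟩ := exists_fr H.htr
  have hnq : (0 : ℚ) < n := by exact_mod_cast H.hn
  have hrktop : (Module.finrank K (⊤ : Submodule K (Derivation ℂ K K)) : ℚ) = n := by
    rw [finrank_top, hFr.finrank]
  choose V c hV using fun t => H.exists_good t
  obtain ⟨C, hC⟩ := H.bounded
  have hsm : ∀ t, ∀ (m : ℕ), 0 < m → ∀ (q : ℚ) (E : Place ℂ K → ℝ),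
        (∀ P ∈ X, Divisorial n P → 0 ≤ E P) → InvariantClass n X G E →
        ∀ s : MultilinearMap K (fun _ : Fin m => V t) (AlgebraicClosure K), s ≠ 0 →
        LeafAdapted n X δ (fun P => q * (k P + δ P) - E P) (V t) s →
        (∀ P ∈ X, Divisorial n P → E P = 0) ∧ q < -(m * t) := by
    intro t m hm q E hE hEG s hs0 hs
    have hmq : (0 : ℚ) < m := by exact_mod_cast hm
    obtain ⟨hE0, M, W, e, hM, hWV, hW0, he, hsum⟩ := H.tensor_rel (hV t).mem hm hE hEG hs hs0
    refine ⟨hE0, ?_⟩
    have h1 : ∑ i ∈ Finset.range M, t * ((Module.finrank K (V t) : ℚ) -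
        Module.finrank K (W i)) < ∑ i ∈ Finset.range M, (c t - e i) := by
      refine Finset.sum_lt_sum (fun i hi => ?_) ⟨0, Finset.mem_range.mpr hM, ?_⟩
      · have := (hV t).max _ _ (he i (Finset.mem_range.mp hi))
        linarith
      · have := (hV t).strict _ _ (he 0 hM) (lt_of_le_of_ne (hWV 0) hW0)
        linarith
    rw [hsum, ← Finset.mul_sum] at h1
    have hA : 0 < ∑ i ∈ Finset.range M, ((Module.finrank K (V t) : ℚ) -
        Module.finrank K (W i)) := by
      refine Finset.sum_pos' (fun i _ => ?_) ⟨0, Finset.mem_range.mpr hM, ?_⟩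
      · have h1 : (Module.finrank K (W i) : ℚ) ≤ Module.finrank K (V t) := by
          exact_mod_cast Submodule.finrank_mono (hWV i)
        linarith
      · have h1 : (Module.finrank K (W 0) : ℚ) < Module.finrank K (V t) := by
          exact_mod_cast Submodule.finrank_lt_finrank_of_lt (lt_of_le_of_ne (hWV 0) hW0)
        linarith
    have h2 : t < -(q / m) := by
      by_contra hlt
      push Not at hlt
      have := mul_le_mul_of_nonneg_right hlt hA.le
      linarith
    have h3 : t * m < -(q / m) * m := mul_lt_mul_of_pos_right h2 hmq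
    have h4 : -(q / m) * m = -q := by field_simp
    linarith
  refine ⟨V, c, hV, fun t t' h => H.good_mono h (hV t) (hV t'), ?_, ?_, ?_, ?_, hsm, ?_⟩
  · refine ⟨-(|C| + 1), ?_⟩
    by_contra hne
    have h1 := (hV (-(|C| + 1))).max _ _ H.top
    have h2 := hC _ _ (hV (-(|C| + 1))).mem
    have h3 : (Module.finrank K (V (-(|C| + 1))) : ℚ) + 1 ≤ n := by
      have h4 := Submodule.finrank_lt hne
      rw [hFr.finrank] at h4
      exact_mod_cast h4
    rw [hrktop] at h1
    have h5 := le_abs_self C
    have h6 := abs_nonneg C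
    nlinarith
  · refine ⟨|C| + 1, ?_⟩
    by_contra hne
    have h1 := (hV (|C| + 1)).max _ _ H.bot
    have h2 := hC _ _ (hV (|C| + 1)).mem
    have h3 : (1 : ℚ) ≤ Module.finrank K (V (|C| + 1)) := by
      have : Nontrivial (V (|C| + 1)) := Submodule.nontrivial_iff_ne_bot.mpr hne
      have h1 : 0 < Module.finrank K (V (|C| + 1)) := Module.finrank_pos
      exact_mod_cast h1
    rw [finrank_bot] at h1
    push_cast at h1
    have h5 := le_abs_self C
    have h6 := abs_nonneg C
    nlinarith
  · intro t ht hbot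
    have h1 := (hV t).max _ _ H.top
    have h2 := (hV t).mem
    rw [hbot] at h2
    have h3 := ll_unique H.hno h2 H.bot
    rw [hrktop, hbot, finrank_bot, h3] at h1
    rw [lt_div_iff₀ hnq] at ht
    push_cast at h1
    linarith
  · intro t ht
    exact H.bracket (hV t).mem ht (hV t).max (hV t).strict
  · intro p hp r t ht0 ht
    have hpq : (0 : ℚ) < p := by exact_mod_cast hp
    obtain ⟨s0, hs0d⟩ : ∃ s0 : MultilinearMap K (fun _ : Fin p =>
        (⊤ : Submodule K (Derivation ℂ K K))) (AlgebraicClosure K),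
        s0 = t.compLinearMap fun _ => (⊤ : Submodule K (Derivation ℂ K K)).subtype := ⟨_, rfl⟩
    have hs0 : LeafAdapted n X δ (fun P => r * (k P + δ P) - 0) ⊤ s0 := by
      intro P hPX hP D hD
      rw [hs0d]
      beta_reduce
      rw [sub_zero]
      exact ht P hPX hP (fun a => (D a : Derivation ℂ K K)) hD
    have hs0' : s0 ≠ 0 := by
      intro h0
      apply ht0
      ext D
      have h1 := congrArg (fun t => t fun a => (⟨D a, Submodule.mem_top⟩ :
        (⊤ : Submodule K (Derivation ℂ K K)))) h0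
      rw [hs0d] at h1
      exact h1
    obtain ⟨-, M, W, e, hM, hWV, hW0, he, hsum⟩ := H.tensor_rel H.top hp
      (E := fun _ => 0) (fun _ _ _ => le_rfl) (fun σ _ => ⟨1, Nat.one_pos, 1, one_ne_zero,
        fun P _ _ Q _ _ _ => by rw [P.ord_one]; simp⟩) hs0 hs0'
    rw [hrktop] at hsum
    have hA : 0 < ∑ i ∈ Finset.range M, ((n : ℚ) - Module.finrank K (W i)) := by
      refine Finset.sum_pos' (fun i _ => ?_) ⟨0, Finset.mem_range.mpr hM, ?_⟩
      · have h1 : (Module.finrank K (W i) : ℚ) ≤ n := by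
          rw [← hrktop]
          exact_mod_cast Submodule.finrank_mono (hWV i)
        linarith
      · have h1 : (Module.finrank K (W 0) : ℚ) < n := by
          rw [← hrktop]
          exact_mod_cast Submodule.finrank_lt_finrank_of_lt (lt_of_le_of_ne (hWV 0) hW0)
        linarith
    have hmain : ∑ i ∈ Finset.range M, (e i - Module.finrank K (W i) / n) =
        (r / p + 1 / n) * ∑ i ∈ Finset.range M, ((n : ℚ) - Module.finrank K (W i)) := by
      have h1 : ∑ i ∈ Finset.range M, (e i - Module.finrank K (W i) / n) =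
          -∑ i ∈ Finset.range M, (1 - e i) +
            1 / n * ∑ i ∈ Finset.range M, ((n : ℚ) - Module.finrank K (W i)) := by
        rw [Finset.mul_sum, ← Finset.sum_neg_distrib, ← Finset.sum_add_distrib]
        refine Finset.sum_congr rfl fun i _ => ?_
        field_simp
        ring
      rw [h1, hsum]
      ring
    have hprop : ∀ i < M, e i - Module.finrank K (W i) / n ≠ 0 → W i ≠ ⊥ ∧ W i ≠ ⊤ := by
      intro i hi hne
      refine ⟨fun h => hne ?_, fun h => hne ?_⟩
      · have h1 := he i hi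
        rw [h] at h1
        rw [ll_unique H.hno h1 H.bot, h, finrank_bot]
        simp
      · have h1 := he i hi
        rw [h] at h1
        rw [ll_unique H.hno h1 H.top, h, hrktop, div_self hnq.ne', sub_self]
    constructor
    · intro hr
      have hpos : 0 < r / p + 1 / n := by
        have h1 : -(p / n : ℚ) / p < r / p := div_lt_div_of_pos_right hr hpq
        have h2 : -(p / n : ℚ) / p = -(1 / n) := by field_simp
        linarith
      have h1 : 0 < ∑ i ∈ Finset.range M, (e i - Module.finrank K (W i) / n) := by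
        rw [hmain]
        exact mul_pos hpos hA
      obtain ⟨i, hi, hi0⟩ : ∃ i ∈ Finset.range M, 0 < e i - Module.finrank K (W i) / n := by
        by_contra hcon
        push Not at hcon
        exact absurd (Finset.sum_nonpos hcon) (not_le.mpr h1)
      have h2 := (hV (1 / n)).max _ _ (he i (Finset.mem_range.mp hi))
      have h3 : 0 < c (1 / n) - 1 / n * Module.finrank K (V (1 / n)) := by
        have h4 : (Module.finrank K (W i) : ℚ) / n = 1 / n * Module.finrank K (W i) := by ring
        rw [h4] at hi0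
        linarith
      refine ⟨fun h => ?_, fun h => ?_⟩
      · have h4 := (hV (1 / n)).mem
        rw [h] at h4
        rw [ll_unique H.hno h4 H.bot, h, finrank_bot] at h3
        simp at h3
      · have h4 := (hV (1 / n)).mem
        rw [h] at h4
        rw [ll_unique H.hno h4 H.top, h, hrktop, one_div, inv_mul_cancel₀ hnq.ne'] at h3
        simp at h3
    · intro hr
      have hne : r / p + 1 / n ≠ 0 := by
        intro h1
        apply hr
        have h2 : r / p = -(1 / n) := by linarith
        rw [div_eq_iff hpq.ne'] at h2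
        rw [h2]
        field_simp
      obtain ⟨i, hi, hi0⟩ : ∃ i ∈ Finset.range M, e i - Module.finrank K (W i) / n ≠ 0 := by
        by_contra hcon
        push Not at hcon
        rw [Finset.sum_eq_zero hcon] at hmain
        rcases mul_eq_zero.mp hmain.symm with h1 | h1
        · exact hne h1
        · exact hA.ne' h1
      have h1 := hprop i (Finset.mem_range.mp hi) hi0
      exact ⟨W i, e i, he i (Finset.mem_range.mp hi), h1.1, h1.2⟩

end

end Pool.Agent.Zk28.TF
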