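import Pool.Agent.Zk28.TF.Prop6
import Pool.Agent.Zk28.TF.CDefs

/-!
The canonical divisors of distributions and their determinants.
-/

set_option autoImplicit false
set_option linter.unusedSectionVars false

open FF Pool.Agent.W602.GT

namespace Pool.Agent.Zk28.TF

open Pool.Agent.Zk28.TS

section

variable {K : Type} [Field K] [Algebra ℂ K] {n : ℕ}
  {X : Set (Place ℂ K)} {δ : Place ℂ K → ℝ} {G : Set (K ≃ₐ[ℂ] K)}

theorem invariant_iff {V : Submodule K (Derivation ℂ K K)} : Invariant G V ↔ InvSub G V := by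
  constructor
  · intro h σ hσ D hD
    exact h σ hσ D hD _ (conj_image σ D)
  · intro h σ hσ D hD E hE
    rw [image_eq hE]
    exact h σ hσ D hD

theorem LeafDivOf.smul {V : Submodule K (Derivation ℂ K K)} {r : ℕ} {θ : V [⋀^Fin r]→ₗ[K] K}
    {κ : Place ℂ K → ℝ} (h : LeafDivOf n X δ V θ κ) {y : K} (hy : y ≠ 0) :
    LeafDivOf n X δ V (y • θ) fun P => κ P + P.ord y := by
  intro P hPX hP
  obtain ⟨h1, D, hD, hD0, hDe⟩ := h P hPX hP
  refine ⟨fun D hD => ?_, D, hD, ?_, ?_⟩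
  · change y * θ D = 0 ∨ _ ≤ (P.ord (y * θ D) : ℝ) + _
    by_cases h2 : θ D = 0
    · left
      rw [h2, mul_zero]
    · right
      rcases h1 D hD with h3 | h3
      · exact absurd h3 h2
      rw [P.ord_mul hy h2]
      push_cast
      linarith
  · change y * θ D ≠ 0
    exact mul_ne_zero hy hD0
  · change (P.ord (y * θ D) : ℝ) + _ = _
    rw [P.ord_mul hy hD0]
    push_cast
    linarith

theorem LeafDivOf.unique {V : Submodule K (Derivation ℂ K K)} {r : ℕ} {θ : V [⋀^Fin r]→ₗ[K] K}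
    {κ κ' : Place ℂ K → ℝ} (h : LeafDivOf n X δ V θ κ) (h' : LeafDivOf n X δ V θ κ')
    {P : Place ℂ K} (hPX : P ∈ X) (hP : Divisorial n P) : κ P = κ' P := by
  obtain ⟨h1, D, hD, hD0, hDe⟩ := h P hPX hP
  obtain ⟨h1', D', hD', hD0', hDe'⟩ := h' P hPX hP
  apply le_antisymm
  · rcases h1 D' hD' with h3 | h3
    · exact absurd h3 hD0'
    · linarith
  · rcases h1' D hD with h3 | h3
    · exact absurd h3 hD0
    · linarith

theorem LeafDivOf.congr {V : Submodule K (Derivation ℂ K K)} {r : ℕ} {θ : V [⋀^Fin r]→ₗ[K] K}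
    {κ κ' : Place ℂ K → ℝ} (h : LeafDivOf n X δ V θ κ)
    (hκ : ∀ P ∈ X, Divisorial n P → κ P = κ' P) : LeafDivOf n X δ V θ κ' := by
  intro P hPX hP
  rw [← hκ P hPX hP]
  exact h P hPX hP

/-- The canonical divisors. -/
theorem canonicalDivisor_iff [Algebra.EssFiniteType ℂ K] [Module.Finite K (Derivation ℂ K K)]
    (htr : Algebra.trdeg ℂ K = n) (hδ : ∀ P ∈ X, 0 ≤ δ P ∧ δ P ≤ 1)
    {V : Submodule K (Derivation ℂ K K)} {κ : Place ℂ K → ℝ} :
    CanonicalDivisor n X δ V κ ↔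
      ∃ y : K, y ≠ 0 ∧ ∀ P ∈ X, Divisorial n P → κ P = -vs δ V P + P.ord y := by
  classical
  obtain ⟨θ0, hθ0, h0⟩ := leafDiv htr hδ V
  constructor
  · rintro ⟨θ, hθ, h⟩
    have e := Module.finBasis K V
    have h1 := AlternatingMap.eq_smul_basis_det e θ
    have h2 := AlternatingMap.eq_smul_basis_det e θ0
    have h3 : θ0 e ≠ 0 := by
      intro h4
      rw [h4, zero_smul] at h2
      exact hθ0 h2
    have h4 : θ e ≠ 0 := by
      intro h5
      rw [h5, zero_smul] at h1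
      exact hθ h1
    have h5 : θ = (θ e / θ0 e) • θ0 := by
      have h6 : (θ e / θ0 e) • (θ0 e • e.det) = θ e • e.det := by
        rw [smul_smul, div_mul_cancel₀ _ h3]
      rw [← h2, ← h1] at h6
      exact h6.symm
    refine ⟨θ e / θ0 e, div_ne_zero h4 h3, fun P hPX hP => ?_⟩
    have h6 := h0.smul (y := θ e / θ0 e) (div_ne_zero h4 h3)
    rw [← h5] at h6
    exact h.unique h6 hPX hP
  · rintro ⟨y, hy, h⟩
    refine ⟨y • θ0, smul_ne_zero hy hθ0, (h0.smul hy).congr fun P hPX hP => (h P hPX hP).symm⟩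

variable {k : Place ℂ K → ℤ} [Algebra.EssFiniteType ℂ K] [Module.Finite K (Derivation ℂ K K)]

/-- The class of a canonical divisor. -/
theorem prp_of_can (htr : Algebra.trdeg ℂ K = n) (hδ : ∀ P ∈ X, 0 ≤ δ P ∧ δ P ≤ 1)
    {L : Place ℂ K → ℝ} {V : Submodule K (Derivation ℂ K K)} {κ : Place ℂ K → ℝ} {c : ℚ}
    (h : CanonicalDivisor n X δ V κ) : QEquiv n X κ (fun P => c * L P) ↔
      Prp n X L (vs δ V) (-c) := by
  obtain ⟨y, hy, h⟩ := (canonicalDivisor_iff htr hδ).mp h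
  constructor
  · rintro ⟨N, z, hN, hz, h1⟩
    have hNR : (N : ℝ) ≠ 0 := by exact_mod_cast hN.ne'
    refine ⟨N, y ^ N / z, hN, div_ne_zero (pow_ne_zero _ hy) hz, fun P hPX hP => ?_⟩
    have h2 := h1 P hPX hP
    rw [h P hPX hP] at h2
    rw [P.ord_div (pow_ne_zero _ hy) hz, P.ord_pow]
    push_cast
    rw [← h2]
    ring
  · rintro ⟨N, z, hN, hz, h1⟩
    refine ⟨N, y ^ N / z, hN, div_ne_zero (pow_ne_zero _ hy) hz, fun P hPX hP => ?_⟩
    have h2 := h1 P hPX hP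
    rw [P.ord_div (pow_ne_zero _ hy) hz, P.ord_pow, h P hPX hP]
    push_cast at h2 ⊢
    rw [← h2]
    ring

theorem ll_iff (htr : Algebra.trdeg ℂ K = n) (hδ : ∀ P ∈ X, 0 ≤ δ P ∧ δ P ≤ 1)
    {V : Submodule K (Derivation ℂ K K)} {c : ℚ} :
    InvariantMultiple n X δ (fun P => k P + δ P) G V c ↔ LL n X δ k G V c := by
  unfold InvariantMultiple LL
  rw [invariant_iff]
  constructor
  · rintro ⟨h1, κ, h2, h3⟩
    exact ⟨h1, (prp_of_can htr hδ h2).mp h3⟩
  · rintro ⟨h1, h2⟩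
    obtain ⟨θ0, hθ0, h0⟩ := leafDiv htr hδ V
    have h3 : CanonicalDivisor n X δ V fun P => -vs δ V P := ⟨θ0, hθ0, h0⟩
    exact ⟨h1, _, h3, (prp_of_can htr hδ h3).mpr h2⟩

variable {ω : (Fin n → Derivation ℂ K K) → K}

/-- Rigidity for canonical divisors. -/
theorem Ctx.rigid_can (H : Ctx n X δ k G ω) {N : ℕ} {W : Fin N → Submodule K (Derivation ℂ K K)}
    {κ : Fin N → Place ℂ K → ℝ} (hW : ∀ i, Invariant G (W i))
    (hκ : ∀ i, CanonicalDivisor n X δ (W i) (κ i)) {q : ℚ} {E : Place ℂ K → ℝ}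
    (hE : ∀ P ∈ X, Divisorial n P → 0 ≤ E P)
    (h : QEquiv n X (fun P => ∑ i, κ i P + E P) fun P => q * (k P + δ P)) :
    (∀ P ∈ X, Divisorial n P → E P = 0) ∧
      ∀ i, ∃ c : ℚ, QEquiv n X (κ i) fun P => c * (k P + δ P) := by
  classical
  choose y hy hκy using fun i => (canonicalDivisor_iff H.htr H.hδ).mp (hκ i)
  obtain ⟨M, z, hM, hz, h1⟩ := h
  obtain ⟨h2, c, h3, -⟩ := H.rigid' (Finset.univ : Finset (Fin N)) (W := W)
    (fun i => invariant_iff.mp (hW i)) (q := -q) (E := E) hE (by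
      refine ⟨M, hM, z / (∏ i, y i) ^ M, div_ne_zero hz (pow_ne_zero _
        (Finset.prod_ne_zero_iff.mpr fun i _ => hy i)), fun P hPX hP => ?_⟩
      have h4 := h1 P hPX hP
      have h5 : ∑ i, κ i P = -∑ i, vs δ (W i) P + ∑ i, (P.ord (y i) : ℝ) := by
        rw [← Finset.sum_neg_distrib, ← Finset.sum_add_distrib]
        exact Finset.sum_congr rfl fun i _ => hκy i P hPX hP
      have h6 : P.ord (∏ i, y i) = ∑ i, P.ord (y i) := ord_prod' _ _ fun i _ => hy i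
      rw [P.ord_div hz (pow_ne_zero _ (Finset.prod_ne_zero_iff.mpr fun i _ => hy i)), P.ord_pow,
        h6]
      beta_reduce at h4 ⊢
      rw [h5] at h4
      push_cast
      rw [← h4]
      refine le_of_eq ?_
      ring)
  refine ⟨h2, fun i => ⟨c i, ?_⟩⟩
  exact (prp_of_can H.htr H.hδ (hκ i)).mpr (h3 i (Finset.mem_univ _)).2

end

end Pool.Agent.Zk28.TF
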