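import Pool.Agent.Zk28.TF.Many
import Pool.Agent.Zk28.TF.Crit2

/-!
The pseudo-effective case: degree orders for which `L` is negative and infinitely small.
-/

set_option autoImplicit false
set_option linter.unusedSectionVars false

open FF Pool.Agent.W602.GT

namespace Pool.Agent.Zk28.TF

open Pool.Agent.Zk28.TS

section defs

variable {K : Type} [Field K] [Algebra ℂ K]

/-- The regular functions on `X` are constant, and if a positive multiple of `- L` is linearly
equivalent to an effective divisor then this divisor is zero. This is true if `X` is projective and `L`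
is pseudo-effective. -/
structure NotAntiEffective (n : ℕ) (X : Set (Place ℂ K)) (L : Place ℂ K → ℝ) : Prop where
  const : ∀ z : K, z ≠ 0 → (∀ P ∈ X, Divisorial n P → 0 ≤ P.ord z) → ∃ a : ℂ, algebraMap ℂ K a = z
  anti : ∀ (M : ℕ) (z : K), 0 < M → z ≠ 0 →
    (∀ P ∈ X, Divisorial n P → M * L P ≤ P.ord z) → ∀ P ∈ X, Divisorial n P → M * L P = P.ord z

end defs

section order

variable {K : Type} [Field K] [Algebra ℂ K] {n : ℕ}

/-- An order for which `L` is negative and infinitely small compared to an effective divisor. -/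
theorem exists_order_psef {X : Set (Place ℂ K)} {L : Place ℂ K → ℝ} (hL : NotAntiEffective n X L)
    (hno : ¬ Eff n X fun P => -L P) {e : Place ℂ K → ℝ} (he : ∀ P ∈ X, Divisorial n P → 0 ≤ e P)
    {P0 : Place ℂ K} (hP0X : P0 ∈ X) (hP0 : Divisorial n P0) (heP0 : 0 < e P0) :
    ∃ Pos, DegreeOrder n X Pos ∧ L ∉ Pos ∧ ∀ c : ℚ, (fun P => e P + c * L P) ∈ Pos := by
  classical
  have h0 : Eff n X fun _ => (0 : ℝ) :=
    ⟨1, Nat.one_pos, 1, one_ne_zero, fun P _ _ => by rw [P.ord_one]; simp⟩
  let M : Set (Place ℂ K → ℝ) := {f | ∃ a b : ℚ, 0 ≤ a ∧ (a = 0 → b = 0) ∧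
    Eff n X fun P => f P + a * e P + b * L P}
  have hEM : {f | Eff n X f} ⊆ M := by
    intro f hf
    refine ⟨0, 0, le_rfl, fun _ => rfl, ?_⟩
    convert hf using 2
    simp
  have hM : IsCone M := by
    refine ⟨⟨0, 0, le_rfl, fun _ => rfl, ?_⟩, ?_, ?_⟩
    · convert h0 using 2
      simp
    · rintro f ⟨a, b, ha, hab, hf⟩ g ⟨a', b', ha', hab', hg⟩
      refine ⟨a + a', b + b', add_nonneg ha ha', fun h => ?_, ?_⟩
      · have h1 : a = 0 := by linarith
        have h2 : a' = 0 := by linarith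
        rw [hab h1, hab' h2, add_zero]
      · have h1 := isCone_eff.add _ hf _ hg
        change Eff n X _ at h1
        convert h1 using 1
        funext P
        rw [Pi.add_apply, Pi.add_apply]
        push_cast
        ring
    · rintro N f hN ⟨a, b, ha, hab, hf⟩
      have hN' : (N : ℝ) ≠ 0 := by exact_mod_cast hN.ne'
      have hNq : (N : ℚ) ≠ 0 := by exact_mod_cast hN.ne'
      refine ⟨a / N, b / N, div_nonneg ha (Nat.cast_nonneg _), fun h => ?_, ?_⟩
      · have h1 : a = 0 := by
          rcases div_eq_zero_iff.mp h with h | h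
          · exact h
          · exact absurd h hNq
        rw [hab h1, zero_div]
      · refine isCone_eff.root N _ hN ?_
        change Eff n X _
        convert hf using 1
        funext P
        rw [Pi.smul_apply, Pi.smul_apply, nsmul_eq_mul, nsmul_eq_mul]
        push_cast
        field_simp
  have hx0 : (fun P => -L P) ∉ M := by
    rintro ⟨a, b, ha, hab, N, hN, z, hz, h⟩
    have hN' : (0 : ℝ) < N := by exact_mod_cast hN
    have haR : (0 : ℝ) ≤ a := by exact_mod_cast ha
    rcases lt_trichotomy b 1 with hb | hb | hb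
    · -- `L` is effective
      apply hno
      have hb' : 0 < 1 - b := sub_pos.mpr hb
      refine ⟨(1 - b).num.toNat * N, ?_, z ^ (1 - b).den, pow_ne_zero _ hz, fun P hPX hP => ?_⟩
      · have : 0 < (1 - b).num := Rat.num_pos.mpr hb'
        exact Nat.mul_pos (by omega) hN
      · have h1 := h P hPX hP
        have h2 : (((1 - b).num.toNat : ℤ) : ℝ) = (1 - b).num := by
          rw [Int.toNat_of_nonneg (Rat.num_pos.mpr hb').le]
        have h3 : ((1 - b : ℚ) : ℝ) * (1 - b).den = (1 - b).num := by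
          exact_mod_cast Rat.mul_den_eq_num (1 - b)
        rw [P.ord_pow]
        push_cast at h2 h3 ⊢
        rw [h2, ← h3]
        have h4 : (0 : ℝ) ≤ (1 - b).den := Nat.cast_nonneg _
        have h5 := mul_nonneg haR (he P hPX hP)
        have h6 : (N : ℝ) * (-L P + b * L P) ≤ P.ord z := by nlinarith
        have h7 := mul_le_mul_of_nonneg_left h6 h4
        nlinarith
    · -- an effective principal divisor
      subst hb
      have ha' : 0 < a := by
        rcases ha.lt_or_eq with h1 | h1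
        · exact h1
        · exact absurd (hab h1.symm) one_ne_zero
      have haR' : (0 : ℝ) < a := by exact_mod_cast ha'
      obtain ⟨w, hw⟩ := hL.const z hz fun P hPX hP => by
        have h1 := h P hPX hP
        have h2 := mul_nonneg hN'.le (mul_nonneg haR (he P hPX hP))
        have h3 : (0 : ℝ) ≤ P.ord z := by
          push_cast at h1
          nlinarith
        exact_mod_cast h3
      have hw0 : w ≠ 0 := by
        rintro rfl
        rw [map_zero] at hw
        exact hz hw.symm
      have h1 := h P0 hP0X hP0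
      rw [← hw, P0.ord_const hw0] at h1
      have h2 := mul_pos hN' (mul_pos haR' heP0)
      push_cast at h1
      nlinarith
    · -- a multiple of `- L` is effective
      have ha' : 0 < a := by
        rcases ha.lt_or_eq with h1 | h1
        · exact h1
        · have := hab h1.symm
          linarith
      have haR' : (0 : ℝ) < a := by exact_mod_cast ha'
      have hb' : 0 < b - 1 := sub_pos.mpr hb
      have hnum : 0 < (b - 1).num := Rat.num_pos.mpr hb'
      have h2 : (((b - 1).num.toNat : ℤ) : ℝ) = (b - 1).num := by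
        rw [Int.toNat_of_nonneg hnum.le]
      have h3 : ((b - 1 : ℚ) : ℝ) * (b - 1).den = (b - 1).num := by
        exact_mod_cast Rat.mul_den_eq_num (b - 1)
      have hden : (0 : ℝ) < (b - 1).den := by exact_mod_cast (b - 1).den_pos
      have key : ∀ P ∈ X, Divisorial n P → (((b - 1).num.toNat * N : ℕ) : ℝ) * L P +
          (b - 1).den * (N * (a * e P)) ≤ P.ord (z ^ (b - 1).den) := by
        intro P hPX hP
        have h1 := h P hPX hP
        rw [P.ord_pow]
        push_cast at h2 h3 ⊢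
        rw [h2, ← h3]
        have h7 := mul_le_mul_of_nonneg_left h1 hden.le
        nlinarith
      have h4 := hL.anti ((b - 1).num.toNat * N) (z ^ (b - 1).den)
        (Nat.mul_pos (by omega) hN) (pow_ne_zero _ hz) (fun P hPX hP => by
          have h5 := key P hPX hP
          have h6 : (0 : ℝ) ≤ (b - 1).den * (N * (a * e P)) :=
            mul_nonneg hden.le (mul_nonneg hN'.le (mul_nonneg haR (he P hPX hP)))
          linarith) P0 hP0X hP0
      have h5 := key P0 hP0X hP0
      have h6 := mul_pos hden (mul_pos hN' (mul_pos haR' heP0))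
      linarith
  obtain ⟨C, hMC, hC, htot, hxC⟩ := exists_total hM hx0
  refine ⟨opp C, degreeOrder_of_cone (fun f hf => hMC (hEM hf)) hC htot, hxC, fun c => ?_⟩
  refine hMC ⟨1, c, zero_le_one, fun h => absurd h one_ne_zero, ?_⟩
  convert h0 using 2
  push_cast
  ring

end order

section fol

variable {K : Type} [Field K] [Algebra ℂ K] {n p d : ℕ}
  {X : Set (Place ℂ K)} {δ : Place ℂ K → ℝ} {k : Place ℂ K → ℤ}
  {G : Set (K ≃ₐ[ℂ] K)} {Qs : Set ℚ} {s : Fin d → MTensor K (Fin p)} {q : Fin d → ℚ}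
  {c : AlgebraicClosure K} {σ : STensor K (Fin d × Fin p)}

/-- The tensor of a datum. -/
theorem Datum.tensor (h : Datum n X δ k G Qs s q c σ)
    {N : ℕ} (hN : 0 < N) {y : K} (hy : y ≠ 0) :
    ∃ t : MTensor K (Fin (d * p)), t ≠ 0 ∧ MAdapted n X δ
        (fun P => ((∑ i, q i : ℚ) : ℝ) * (k P + δ P) - Ed δ k σ (∑ i, q i) N y P) t := by
  classical
  have hN' : (N : ℝ) ≠ 0 := by exact_mod_cast hN.ne'
  obtain ⟨ζ, hζ⟩ := IsAlgClosed.exists_pow_nat_eq (algebraMap K (AlgebraicClosure K) y) hN
  have hζ0 : ζ ≠ 0 := by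
    intro h0
    rw [h0, zero_pow hN.ne'] at hζ
    exact hy ((map_eq_zero _).mp hζ.symm)
  let ε : Fin d × Fin p ≃ Fin (d * p) := finProdFinEquiv
  let t : MTensor K (Fin (d * p)) :=
    ζ • (Algebra.linearMap K (AlgebraicClosure K)).compMultilinearMap (σ.domDomCongr ε)
  have htv : ∀ D, t D = ζ * algebraMap K _ (σ fun x => D (ε x)) := fun D => rfl
  refine ⟨t, ?_, ?_⟩
  · intro h0
    apply h.sigma_ne
    ext D
    have h1 := congrArg (fun t => t fun a => D (ε.symm a)) h0
    change t _ = (0 : AlgebraicClosure K) at h1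
    rw [htv] at h1
    have h2 := (map_eq_zero _).mp ((mul_eq_zero.mp h1).resolve_left hζ0)
    have h3 : (fun x => D (ε.symm (ε x))) = D := funext fun x => by rw [Equiv.symm_apply_apply]
    change σ (fun x => D (ε.symm (ε x))) = 0 at h2
    rw [h3] at h2
    exact h2
  · intro P hPX hP D hD
    rw [htv]
    have h1 := vT_le (h.bdd hPX hP) (D := fun x => D (ε x)) fun x => hD _
    have h2 := AlgOrd.mul_root (AlgOrd.of_GR h1) hN hy hζ
    have h3 : ({x | ¬ DerLog P (D (ε x))}.ncard : ℝ) = ({a | ¬ DerLog P (D a)}.ncard : ℝ) := by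
      rw [ncard_eq' fun x => ¬ DerLog P (D (ε x)), ncard_eq' fun a => ¬ DerLog P (D a)]
      convert Equiv.sum_comp ε fun a => if ¬ DerLog P (D a) then (1 : ℝ) else 0
    rw [h3] at h2
    convert h2 using 1
    unfold Ed
    ring

/-- The class of the divisor is invariant. -/
theorem Datum.invE (h : Datum n X δ k G Qs s q c σ) [Algebra.EssFiniteType ℂ K]
    (htr : Algebra.trdeg ℂ K = n) {ω : (Fin n → Derivation ℂ K K) → K} (hω : IsPluri 1 ω)
    (hω0 : ∃ D, ω D ≠ 0) (hk : DivOf n X ω k)
    (hG : ∀ g ∈ G, MPreserves X δ (fun _ => (0 : ℝ)) g) {N : ℕ} (hN : 0 < N) {y : K}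
    (hy : y ≠ 0) : InvariantClass n X G (Ed δ k σ (∑ i, q i) N y) := by
  have h1 := inv_comb (inv_comb (inv_L htr hω hω0 hk hG) (h.inv htr hω hω0 hk hG)
    (∑ i, q i) 1) (inv_principal (n := n) hG hN hy) 1 1
  convert h1 using 1
  funext P
  unfold Ed
  push_cast
  ring

/-- `F` is a proper invariant foliation, and for some nonzero effective divisor `E` with an invariant
class, along which a tensor with values in a multiple of `L` vanishes, and some `ε > 0` there are no
leafwise tensors on `F` of degree `m` with values in `q L + a E`, for all rational numbers `q` and all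
`a < ε m`. -/
def Super (n : ℕ) (X : Set (Place ℂ K)) (δ L : Place ℂ K → ℝ) (G : Set (K ≃ₐ[ℂ] K))
    (F : Submodule K (Derivation ℂ K K)) : Prop :=
  F ≠ ⊥ ∧ F ≠ ⊤ ∧ (∀ D ∈ F, ∀ E ∈ F, ⁅D, E⁆ ∈ F) ∧
    (∀ σ ∈ G, ∀ D ∈ F, ∀ E, Image σ D E → E ∈ F) ∧
    ∃ (E : Place ℂ K → ℝ) (ε : ℚ), (∀ P ∈ X, Divisorial n P → 0 ≤ E P) ∧
      (∃ P ∈ X, Divisorial n P ∧ 0 < E P) ∧ InvariantClass n X G E ∧
      (∃ (p : ℕ) (r : ℚ) (t : MTensor K (Fin p)), 0 < p ∧ t ≠ 0 ∧
        MAdapted n X δ (fun P => r * L P - E P) t) ∧ 0 < ε ∧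
      ∀ m : ℕ, 0 < m → ∀ q a : ℚ, a < ε * m →
        ∀ s : MultilinearMap K (fun _ : Fin m => F) (AlgebraicClosure K),
          LeafAdapted n X δ (fun P => q * L P + a * E P) F s → s = 0

/-- A tensor which vanishes along a divisor of an invariant class. -/
theorem super_of_zero [Algebra.EssFiniteType ℂ K] (hn : 1 ≤ n)
    (htr : Algebra.trdeg ℂ K = n) (hδ : ∀ P ∈ X, 0 ≤ δ P ∧ δ P ≤ 1)
    {ω : (Fin n → Derivation ℂ K K) → K} (hω : IsPluri 1 ω) (hω0 : ∃ D, ω D ≠ 0)
    (hk : DivOf n X ω k) (hG : ∀ g ∈ G, MPreserves X δ (fun _ => (0 : ℝ)) g)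
    (hL : NotAntiEffective n X fun P => k P + δ P)
    (hno : ¬ Eff n X fun P => -(k P + δ P)) {e : Place ℂ K → ℝ} (heG : InvariantClass n X G e)
    (he : ∀ P ∈ X, Divisorial n P → 0 ≤ e P) {P0 : Place ℂ K} (hP0X : P0 ∈ X)
    (hP0 : Divisorial n P0) (heP0 : 0 < e P0) {m0 : ℕ} (hm0 : 0 < m0) {Q : ℚ}
    {t : MTensor K (Fin m0)}
    (ht : MAdapted n X δ (fun P => Q * (k P + δ P) - e P) t) (ht' : t ≠ 0) :
    ∃ F, Super n X δ (fun P => k P + δ P) G F := by
  obtain ⟨s0, hs0d⟩ : ∃ s0 : MultilinearMap K (fun _ : Fin m0 =>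
      (⊤ : Submodule K (Derivation ℂ K K))) (AlgebraicClosure K),
      s0 = t.compLinearMap fun _ => (⊤ : Submodule K (Derivation ℂ K K)).subtype := ⟨_, rfl⟩
  have hs0 : LeafAdapted n X δ (fun P => Q * (k P + δ P) - e P) ⊤ s0 := by
    intro P hPX hP D hD
    rw [hs0d]
    exact ht P hPX hP (fun a => (D a : Derivation ℂ K K)) hD
  have hs0' : s0 ≠ 0 := by
    intro h0
    apply ht'
    ext D
    have h1 := congrArg (fun t => t fun a => (⟨D a, Submodule.mem_top⟩ :
      (⊤ : Submodule K (Derivation ℂ K K)))) h0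
    rw [hs0d] at h1
    exact h1
  obtain ⟨Pos, hPos, hLP, hinf⟩ := exists_order_psef hL hno he hP0X hP0 heP0
  have hnq : (0 : ℚ) < n := by exact_mod_cast hn
  have hmq : (0 : ℚ) < m0 := by exact_mod_cast hm0
  obtain ⟨c, hc⟩ : ∃ c : ℚ, -(m0 / n : ℚ) < Q + c := ⟨-Q, by
    rw [add_neg_cancel]
    exact neg_neg_of_pos (div_pos hmq hnq)⟩
  have hinvL := inv_L htr hω hω0 hk hG
  have heG' : InvariantClass n X G fun P => e P + c * (k P + δ P) := by
    have h1 := inv_comb heG hinvL 1 c
    convert h1 using 1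
    funext P
    push_cast
    ring
  obtain ⟨F, h0, h1, h2, h3, h4⟩ := moving_fol hn htr hδ hω hω0 hk hG hPos hLP heG' (hinf c) hm0 hc
    (s0 := s0) (by
      convert hs0 using 2
      push_cast
      ring) hs0'
  refine ⟨F, h0, h1, h2, h3, e, 1 / (n * m0), he, ⟨P0, hP0X, hP0, heP0⟩, heG,
    ⟨m0, Q, t, hm0, ht', ht⟩, by positivity, fun m hm r a ha s hs => h4 m hm _ ?_ ?_ s hs⟩
  · exact inv_comb hinvL heG r a
  · -- the order
    have hmm : (0 : ℚ) < m := by exact_mod_cast hm
    have hrat : ∀ (a : ℚ), 0 ≤ a → ∀ D : Place ℂ K → ℝ, D ∈ Pos →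
        (fun P => (a : ℝ) * D P) ∈ Pos := by
      intro a ha D hD
      have h1 : (fun P => -D P) ∈ opp Pos := by
        change (fun P => -(-D P)) ∈ Pos
        simpa only [neg_neg] using hD
      have h2 := hPos.isCone.rat h1 ha
      change (fun P => -((a : ℝ) * -D P)) ∈ Pos at h2
      simpa only [mul_neg, neg_neg] using h2
    obtain ⟨α, hα⟩ : ∃ α : ℚ, α = m / (n * m0) - a := ⟨_, rfl⟩
    have hα0 : 0 < α := by
      rw [hα]
      have : 1 / (n * m0) * m = (m : ℚ) / (n * m0) := by ring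
      rw [this] at ha
      linarith
    have h5 := hrat α hα0.le _ (hinf ((m / (n * m0) * c - r) / α))
    convert h5 using 1
    funext P
    have h6 : (α : ℝ) ≠ 0 := by exact_mod_cast hα0.ne'
    have h7 : (α : ℝ) = m / (n * m0) - a := by
      rw [hα]
      push_cast
      ring
    have h8 : (α : ℝ) * (e P + (((m / (n * m0) * c - r) / α : ℚ) : ℝ) * (k P + δ P)) =
        α * e P + (m / (n * m0) * c - r) * (k P + δ P) := by
      push_cast
      field_simp
    rw [h8, h7]
    ring

end fol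

end Pool.Agent.Zk28.TF
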