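import Pool.Agent.Zk28.TF.Psef

/-!
The pseudo-effective case: tensors which vanish along divisors, and tensors with different twists.
-/

set_option autoImplicit false
set_option linter.unusedSectionVars false

open FF Pool.Agent.W602.GT

namespace Pool.Agent.Zk28.TF

open Pool.Agent.Zk28.TS

section

variable {K : Type} [Field K] [Algebra ℂ K] {n p d : ℕ}

/-- The determinant of adapted tensors, with values in different divisors. -/
theorem wedge_adapted' {X : Set (Place ℂ K)} {δ : Place ℂ K → ℝ}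
    (s : Fin d → MTensor K (Fin p)) (β : Fin d → Place ℂ K → ℝ)
    (hs : ∀ i, MAdapted n X δ (β i) (s i)) :
    MAdapted n X δ (fun P => ∑ i, β i P) (wedge s) := by
  classical
  intro P hPX hP D hD
  rw [wedge_apply, Matrix.det_apply]
  refine AlgOrd.sum _ fun π _ => ?_
  have h1 : AlgOrd P (∑ j, -(({a | ¬ DerLog P (D (j, a))}.ncard : ℝ) * δ P + β (π j) P))
      (∏ j, (Matrix.of fun i j => s i fun a => D (j, a)) (π j) j) :=
    AlgOrd.prod Finset.univ fun j _ => hs (π j) P hPX hP (fun a => D (j, a)) fun a => hD _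
  have h2 : ∑ j, -(({a | ¬ DerLog P (D (j, a))}.ncard : ℝ) * δ P + β (π j) P) =
      -(({a | ¬ DerLog P (D a)}.ncard : ℝ) * δ P + ∑ i, β i P) := by
    rw [Finset.sum_neg_distrib, Finset.sum_add_distrib, ← Finset.sum_mul,
      Equiv.sum_comp π (fun i => β i P), ncard_eq' (fun a => ¬ DerLog P (D a)),
      Fintype.sum_prod_type]
    rw [Finset.sum_congr rfl fun j _ => ncard_eq' (fun a => ¬ DerLog P (D (j, a)))]
  rw [h2] at h1
  rcases Int.units_eq_one_or (Equiv.Perm.sign π) with h | h
  · rw [h, one_smul]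
    exact h1
  · rw [h, Units.neg_smul, one_smul]
    exact h1.neg

variable {X : Set (Place ℂ K)} {δ : Place ℂ K → ℝ} {k : Place ℂ K → ℤ}
  {G : Set (K ≃ₐ[ℂ] K)} {Qs : Set ℚ} {s : Fin d → MTensor K (Fin p)} {q : Fin d → ℚ}
  {c : AlgebraicClosure K} {σ : STensor K (Fin d × Fin p)}

/-- The order of the coefficient if one of the tensors vanishes along a divisor. -/
theorem Datum.order_zero (h : Datum n X δ k G Qs s q c σ) [Algebra.EssFiniteType ℂ K]
    (htr : Algebra.trdeg ℂ K = n) {i0 : Fin d} {E : Place ℂ K → ℝ}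
    (hE : MAdapted n X δ (fun P => q i0 * (k P + δ P) - E P) (s i0))
    {P : Place ℂ K} (hPX : P ∈ X) (hP : Divisorial n P) :
    AlgOrd P (-(((∑ i, q i : ℚ) : ℝ) * (k P + δ P) + vT δ σ P) + E P) c := by
  classical
  have hw := wedge_adapted' s (fun i P => q i * (k P + δ P) - if i = i0 then E P else 0)
    (fun i => by
      by_cases hi : i = i0
      · subst hi
        simpa using hE
      · simpa [hi] using h.adapted i)
  refine AlgOrd.limit fun ε hε => ?_
  obtain ⟨x, ⟨D, hD, hσD, rfl⟩, hxε⟩ := exists_lt_of_csInf_lt (vals_nonempty htr δ h.sigma_ne hP)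
    (show sInf (vals δ σ P) < vT δ σ P + ε from lt_add_of_pos_right _ hε)
  have h1 := hw P hPX hP D hD
  rw [h.wedge_eq] at h1
  have h2 := h1.mul (AlgOrd.of_GR (P := P) (r := -(P.ord (σ D) : ℝ)) (f := (σ D)⁻¹)
    (Or.inr (by rw [P.ord_inv]; push_cast; exact le_rfl)))
  have h3 : c * algebraMap K (AlgebraicClosure K) (σ D) *
      algebraMap K (AlgebraicClosure K) (σ D)⁻¹ = c := by
    rw [mul_assoc, ← map_mul, mul_inv_cancel₀ hσD, map_one, mul_one]
  rw [h3] at h2
  refine h2.mono ?_
  beta_reduce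
  rw [Finset.sum_sub_distrib, ← Finset.sum_mul]
  simp only [Finset.sum_ite_eq', Finset.mem_univ, if_true]
  push_cast
  linarith

/-- The exchange of a tensor of a basis. -/
theorem Datum.exchange (h : Datum n X δ k G Qs s q c σ) {t : MTensor K (Fin p)} {r : ℚ}
    (hr : r ∈ Qs) (ht : MAdapted n X δ (fun P => r * (k P + δ P)) t)
    {B : Fin d → AlgebraicClosure K} (hB : ∑ i, B i • s i = t) {i0 : Fin d} (hB0 : B i0 ≠ 0) :
    Datum n X δ k G Qs (Function.update s i0 t) (Function.update q i0 r) (B i0 * c) σ := by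
  classical
  let A : Fin d → Fin d → AlgebraicClosure K := fun i j =>
    if i = i0 then B j else if i = j then 1 else 0
  have hdet : (Matrix.of A).det = B i0 := by
    have h1 : Matrix.of A = (1 : Matrix (Fin d) (Fin d) (AlgebraicClosure K)).updateRow i0
        B := by
      ext i j
      by_cases hi : i = i0
      · subst hi
        rw [Matrix.updateRow_self]
        simp [A]
      · rw [Matrix.updateRow_ne hi]
        simp [A, hi, Matrix.one_apply]
    rw [h1, ← Matrix.det_transpose, ← Matrix.updateCol_transpose, Matrix.transpose_one,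
      ← Matrix.cramer_apply, Matrix.cramer_one]
    rfl
  have hs' : ∀ i, Function.update s i0 t i = ∑ j, A i j • s j := by
    intro i
    by_cases hi : i = i0
    · subst hi
      simp only [A, Function.update_self, if_true]
      exact hB.symm
    · simp only [A, Function.update_of_ne hi, if_neg hi]
      simp
  have hli' : LinearIndependent (AlgebraicClosure K) (Function.update s i0 t) := by
    have hsli := h.indep
    rw [Fintype.linearIndependent_iff] at hsli ⊢
    intro g hg
    have h1 : ∀ j, ∑ i, g i * A i j = 0 := by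
      refine hsli _ ?_
      rw [← hg]
      simp only [Finset.sum_smul]
      rw [Finset.sum_comm]
      refine Finset.sum_congr rfl fun i _ => ?_
      rw [hs' i, Finset.smul_sum]
      exact Finset.sum_congr rfl fun j _ => by rw [smul_smul]
    have h2 : Matrix.vecMul g (Matrix.of A) = 0 := funext h1
    have h3 := Matrix.eq_zero_of_vecMul_eq_zero (by rw [hdet]; exact hB0) h2
    intro i
    exact congrFun h3 i
  have h' := h.other (s' := Function.update s i0 t) (q' := Function.update q i0 r)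
    (fun i => by
      by_cases hi : i = i0
      · subst hi
        rw [Function.update_self]
        exact hr
      · rw [Function.update_of_ne hi]
        exact h.mem i)
    (fun i => by
      by_cases hi : i = i0
      · subst hi
        rw [Function.update_self, Function.update_self]
        exact ht
      · rw [Function.update_of_ne hi, Function.update_of_ne hi]
        exact h.adapted i) hli' hs'
  rw [hdet] at h'
  exact h'

/-- A datum with a nonzero effective divisor. -/
theorem Datum.super (h : Datum n X δ k G Qs s q c σ) [Algebra.EssFiniteType ℂ K] (hn : 1 ≤ n)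
    (htr : Algebra.trdeg ℂ K = n) (hδ : ∀ P ∈ X, 0 ≤ δ P ∧ δ P ≤ 1)
    {ω : (Fin n → Derivation ℂ K K) → K} (hω : IsPluri 1 ω) (hω0 : ∃ D, ω D ≠ 0)
    (hk : DivOf n X ω k) (hG : ∀ g ∈ G, MPreserves X δ (fun _ => (0 : ℝ)) g)
    (hL : NotAntiEffective n X fun P => k P + δ P)
    (hno : ¬ Eff n X fun P => -(k P + δ P)) (hp : 0 < p) (hd : 0 < d)
    {N : ℕ} (hN : 0 < N) {y : K} (hy : y ≠ 0)
    (hNy : ∀ (P : Place ℂ K) (r : ℝ), AlgOrd P r c → N * r ≤ P.ord y) {P0 : Place ℂ K}
    (hP0X : P0 ∈ X) (hP0 : Divisorial n P0) (h0 : 0 < Ed δ k σ (∑ i, q i) N y P0) :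
    ∃ F, Super n X δ (fun P => k P + δ P) G F := by
  obtain ⟨t, ht, ht'⟩ := h.tensor hN hy
  exact super_of_zero hn htr hδ hω hω0 hk hG hL hno (h.invE htr hω hω0 hk hG hN hy)
    (h.nonneg htr hN hNy) hP0X hP0 h0 (Nat.mul_pos hd hp) ht' ht

/-- **Zeros.** A tensor which vanishes along a divisor gives a foliation without leafwise tensors. -/
theorem super_of_vanishing [Algebra.EssFiniteType ℂ K] (hn : 1 ≤ n)
    (htr : Algebra.trdeg ℂ K = n) (hδ : ∀ P ∈ X, 0 ≤ δ P ∧ δ P ≤ 1)
    {ω : (Fin n → Derivation ℂ K K) → K} (hω : IsPluri 1 ω) (hω0 : ∃ D, ω D ≠ 0)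
    (hk : DivOf n X ω k) (hG : ∀ g ∈ G, MPreserves X δ (fun _ => (0 : ℝ)) g)
    (hL : NotAntiEffective n X fun P => k P + δ P)
    (hno : ¬ Eff n X fun P => -(k P + δ P)) (hp : 0 < p) {r : ℚ} {t : MTensor K (Fin p)}
    (ht0 : t ≠ 0) {E : Place ℂ K → ℝ} (hE : ∀ P ∈ X, Divisorial n P → 0 ≤ E P)
    (ht : MAdapted n X δ (fun P => r * (k P + δ P) - E P) t) {P0 : Place ℂ K} (hP0X : P0 ∈ X)
    (hP0 : Divisorial n P0) (hEP0 : 0 < E P0) :
    ∃ F, Super n X δ (fun P => k P + δ P) G F := by
  classical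
  have htr' : MAdapted n X δ (fun P => r * (k P + δ P)) t := fun P hPX hP D hD =>
    (ht P hPX hP D hD).mono (by linarith [hE P hPX hP])
  obtain ⟨d, hdd⟩ : ∃ d, Module.finrank (AlgebraicClosure K) (Submodule.span (AlgebraicClosure K)
    {t : MTensor K (Fin p) | MAdapted n X δ (fun P => r * (k P + δ P)) t}) = d := ⟨_, rfl⟩
  obtain ⟨s, hsT, hsli, hsspan⟩ := exists_basis_of_set htr
    {t : MTensor K (Fin p) | MAdapted n X δ (fun P => r * (k P + δ P)) t} hdd
  obtain ⟨c, σ, h⟩ := exists_datum (n := n) (X := X) (δ := δ) (k := k) G (Qs := {r}) (s := s)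
    (q := fun _ => r) (fun _ => rfl) hsT hsli (by
      rintro _ rfl t ht
      rw [hsspan]
      exact Submodule.subset_span ht)
  obtain ⟨B, hB⟩ := (Submodule.mem_span_range_iff_exists_fun _).mp (h.span r rfl t htr')
  obtain ⟨i0, hi0⟩ : ∃ i, B i ≠ 0 := by
    by_contra hno'
    push Not at hno'
    apply ht0
    rw [← hB]
    exact Finset.sum_eq_zero fun i _ => by rw [hno' i, zero_smul]
  have hd : 0 < d := lt_of_le_of_lt (Nat.zero_le _) i0.2
  have h' := h.exchange rfl htr' hB hi0
  obtain ⟨N, y, hN, hy, hNy⟩ := exists_alg_norm h'.c_ne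
  have hN' : (0 : ℝ) < N := by exact_mod_cast hN
  refine h'.super hn htr hδ hω hω0 hk hG hL hno hp hd hN hy (fun P r hr => (hNy P r hr).1) hP0X
    hP0 (lt_of_lt_of_le hEP0 ?_)
  have h1 := h'.order_zero htr (i0 := i0) (E := E) (by
    rw [Function.update_self, Function.update_self]
    exact ht) hP0X hP0
  have h2 := (hNy P0 _ h1).1
  unfold Ed
  have h3 : -(((∑ i, Function.update (fun _ => r) i0 r i : ℚ) : ℝ) * (k P0 + δ P0) +
      vT δ σ P0) + E P0 ≤ P0.ord y / N := by
    rw [le_div_iff₀ hN', mul_comm]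
    exact h2
  linarith

/-- A relation of tensors gives a foliation, or has constant coefficients. -/
theorem const_or_super (h : Datum n X δ k G Qs s q c σ) [Algebra.EssFiniteType ℂ K] (hn : 1 ≤ n)
    (htr : Algebra.trdeg ℂ K = n) (hδ : ∀ P ∈ X, 0 ≤ δ P ∧ δ P ≤ 1)
    {ω : (Fin n → Derivation ℂ K K) → K} (hω : IsPluri 1 ω) (hω0 : ∃ D, ω D ≠ 0)
    (hk : DivOf n X ω k) (hG : ∀ g ∈ G, MPreserves X δ (fun _ => (0 : ℝ)) g)
    (hL : NotAntiEffective n X fun P => k P + δ P)
    (hno : ¬ Eff n X fun P => -(k P + δ P)) (hp : 0 < p)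
    (hsuper : ¬ ∃ F, Super n X δ (fun P => k P + δ P) G F) {t : MTensor K (Fin p)} {r : ℚ}
    (hr : r ∈ Qs) (ht : MAdapted n X δ (fun P => r * (k P + δ P)) t)
    {B : Fin d → AlgebraicClosure K} (hB : ∑ i, B i • s i = t) (i0 : Fin d) :
    ∃ b : ℂ, algebraMap ℂ (AlgebraicClosure K) b = B i0 ∧ (b ≠ 0 → q i0 = r) := by
  classical
  by_cases hB0 : B i0 = 0
  · exact ⟨0, by rw [map_zero, hB0], fun h => absurd rfl h⟩
  have hd : 0 < d := lt_of_le_of_lt (Nat.zero_le _) i0.2
  have h' := h.exchange hr ht hB hB0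
  obtain ⟨N, y, hN, hy, hNy⟩ := exists_alg_norm h.c_ne
  obtain ⟨N', y', hN', hy', hNy'⟩ := exists_alg_norm h'.c_ne
  have hNR : (0 : ℝ) < N := by exact_mod_cast hN
  have hNR' : (0 : ℝ) < N' := by exact_mod_cast hN'
  have hz : ∀ P ∈ X, Divisorial n P → Ed δ k σ (∑ i, q i) N y P = 0 := by
    intro P hPX hP
    have h1 := h.nonneg htr hN (fun P r hr => (hNy P r hr).1) P hPX hP
    rcases h1.lt_or_eq with h2 | h2
    · exact absurd (h.super hn htr hδ hω hω0 hk hG hL hno hp hd hN hy
        (fun P r hr => (hNy P r hr).1) hPX hP h2) hsuper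
    · exact h2.symm
  have hz' : ∀ P ∈ X, Divisorial n P →
      Ed δ k σ (∑ i, Function.update q i0 r i) N' y' P = 0 := by
    intro P hPX hP
    have h1 := h'.nonneg htr hN' (fun P r hr => (hNy' P r hr).1) P hPX hP
    rcases h1.lt_or_eq with h2 | h2
    · exact absurd (h'.super hn htr hδ hω hω0 hk hG hL hno hp hd hN' hy'
        (fun P r hr => (hNy' P r hr).1) hPX hP h2) hsuper
    · exact h2.symm
  have hsum : (∑ i, Function.update q i0 r i) = (∑ i, q i) + (r - q i0) := by
    rw [Finset.sum_update_of_mem (Finset.mem_univ _), ← Finset.add_sum_erase _ q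
      (Finset.mem_univ i0), Finset.sdiff_singleton_eq_erase]
    ring
  -- the twists
  have hqr : q i0 = r := by
    by_contra hne
    apply hno
    obtain ⟨u, hu⟩ : ∃ u : ℚ, u = r - q i0 := ⟨_, rfl⟩
    have hu0 : u ≠ 0 := by
      rw [hu]
      exact sub_ne_zero.mpr fun h => hne h.symm
    rw [← hu] at hsum
    have hw : y' ^ N / y ^ N' ≠ 0 := div_ne_zero (pow_ne_zero _ hy') (pow_ne_zero _ hy)
    refine ⟨u.num.natAbs * (N * N'), Nat.mul_pos (Int.natAbs_pos.mpr (Rat.num_ne_zero.mpr hu0))
      (Nat.mul_pos hN hN'), (y' ^ N / y ^ N') ^ (u.num.sign * (u.den : ℤ)),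
      zpow_ne_zero _ hw, fun P hPX hP => ?_⟩
    have h1 := hz P hPX hP
    have h2 := hz' P hPX hP
    unfold Ed at h1 h2
    rw [hsum] at h2
    have h3 : (u : ℝ) * (k P + δ P) = P.ord y / N - P.ord y' / N' := by
      push_cast at h1 h2
      linarith
    have h4 : (N : ℝ) * P.ord y' - N' * P.ord y = -(u * (N * N') * (k P + δ P)) := by
      have h5 : (u : ℝ) * (N * N') * (k P + δ P) = N * N' * (u * (k P + δ P)) := by ring
      rw [h5, h3]
      field_simp
      ring
    rw [P.ord_zpow, P.ord_div (pow_ne_zero _ hy') (pow_ne_zero _ hy), P.ord_pow, P.ord_pow]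
    have h6 : ((u.num.natAbs : ℤ) : ℝ) = u.num * u.num.sign := by
      exact_mod_cast (Int.mul_sign_self u.num).symm
    have h7 : (u : ℝ) * u.den = u.num := by exact_mod_cast Rat.mul_den_eq_num u
    push_cast at h6 ⊢
    rw [h4]
    have h8 : ((u.num.natAbs : ℕ) : ℝ) = u.num * u.num.sign := by
      rw [← h6]
      simp
    rw [h8, ← h7]
    refine le_of_eq ?_
    ring
  rw [hqr, sub_self, add_zero] at hsum
  rw [hsum] at hz'
  -- the coefficient is constant
  have hconst : ∃ b : ℂ, algebraMap ℂ (AlgebraicClosure K) b = B i0 := by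
    by_contra hnc
    have htrans : Transcendental ℂ (B i0) := by
      rw [Transcendental]
      exact fun hal => hnc (alg_mem_range hal)
    obtain ⟨a, f, ha, hf, hay⟩ := exists_nonconst_coeff htrans
    have hf0 : f ≠ 0 := by
      rintro rfl
      exact hf isAlgebraic_zero
    obtain ⟨w, hw⟩ := hL.const f hf0 fun P hPX hP => by
      have h1 := h'.order htr hPX hP
      rw [hsum] at h1
      have h2 := (hNy P _ (h.order htr hPX hP)).2
      have h3 := (h1.mul h2).mul (AlgOrd.of_GR (P := P) (r := -(P.ord y : ℝ)) (f := y⁻¹)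
        (Or.inr (by rw [P.ord_inv]; push_cast; exact le_rfl)))
      have h4 : B i0 * c * (algebraMap K (AlgebraicClosure K) y / c) *
          algebraMap K (AlgebraicClosure K) y⁻¹ = B i0 := by
        have h5 := h.c_ne
        have h6 : algebraMap K (AlgebraicClosure K) y ≠ 0 := (map_ne_zero _).mpr hy
        rw [map_inv₀]
        field_simp
      rw [h4] at h3
      have h5 := hay P _ h3
      have h6 := hz P hPX hP
      unfold Ed at h6
      have h7 : (P.ord y : ℝ) = -(N * (((∑ i, q i : ℚ) : ℝ) * (k P + δ P) + vT δ σ P)) := by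
        have h8 : (P.ord y : ℝ) = N * (P.ord y / N) := by field_simp
        rw [h8]
        have h9 : (P.ord y : ℝ) / N = -(((∑ i, q i : ℚ) : ℝ) * (k P + δ P) + vT δ σ P) := by
          linarith
        rw [h9]
        ring
      rw [h7] at h5
      have h8 : (0 : ℝ) ≤ P.ord f := by
        refine le_trans (le_of_eq ?_) h5
        ring
      exact_mod_cast h8
    rw [← hw] at hf
    exact hf (isAlgebraic_algebraMap w)
  obtain ⟨b, hb⟩ := hconst
  exact ⟨b, hb, fun _ => hqr⟩

/-- **All twists together.** -/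
theorem indep_or_super [Algebra.EssFiniteType ℂ K] (hn : 1 ≤ n)
    (htr : Algebra.trdeg ℂ K = n) (hδ : ∀ P ∈ X, 0 ≤ δ P ∧ δ P ≤ 1)
    {ω : (Fin n → Derivation ℂ K K) → K} (hω : IsPluri 1 ω) (hω0 : ∃ D, ω D ≠ 0)
    (hk : DivOf n X ω k) (hG : ∀ g ∈ G, MPreserves X δ (fun _ => (0 : ℝ)) g)
    (hL : NotAntiEffective n X fun P => k P + δ P)
    (hno : ¬ Eff n X fun P => -(k P + δ P)) (hp : 0 < p)
    (hsuper : ¬ ∃ F, Super n X δ (fun P => k P + δ P) G F) {N : ℕ} {r : Fin N → ℚ}
    {t : Fin N → MTensor K (Fin p)}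
    (ht : ∀ j, MAdapted n X δ (fun P => r j * (k P + δ P)) (t j))
    (hti : ∀ ρ : ℚ, LinearIndependent ℂ fun j : {j : Fin N // r j = ρ} => t j) :
    LinearIndependent (AlgebraicClosure K) t := by
  classical
  let T : Set (MTensor K (Fin p)) := {t | ∃ ρ ∈ Set.range r,
    MAdapted n X δ (fun P => ρ * (k P + δ P)) t}
  obtain ⟨d, hdd⟩ : ∃ d, Module.finrank (AlgebraicClosure K)
    (Submodule.span (AlgebraicClosure K) T) = d := ⟨_, rfl⟩
  obtain ⟨s, hsT, hsli, hsspan⟩ := exists_basis_of_set htr T hdd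
  choose q hq hsq using hsT
  obtain ⟨c, σ, h⟩ := exists_datum (n := n) (X := X) (δ := δ) (k := k) G (Qs := Set.range r)
    (s := s) (q := q) hq hsq hsli (by
      intro ρ hρ t ht
      rw [hsspan]
      exact Submodule.subset_span ⟨ρ, hρ, ht⟩)
  choose B hB using fun j => (Submodule.mem_span_range_iff_exists_fun _).mp
    (h.span (r j) ⟨j, rfl⟩ (t j) (ht j))
  have hc := fun j i => const_or_super h hn htr hδ hω hω0 hk hG hL hno hp hsuper
    (⟨j, rfl⟩ : r j ∈ Set.range r) (ht j) (hB j) i
  choose b hb hbq using hc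
  refine indep_of_const hsli (B := b) (fun j => ?_) fun g hg => ?_
  · rw [← hB j]
    exact Finset.sum_congr rfl fun i _ => by rw [hb]
  · -- the relation for each twist
    have h1 : ∀ i, ∑ j, algebraMap ℂ (AlgebraicClosure K) (g j * b j i) = 0 := by
      have hsli' := hsli
      rw [Fintype.linearIndependent_iff] at hsli'
      refine hsli' _ ?_
      rw [← hg]
      simp only [Finset.sum_smul]
      rw [Finset.sum_comm]
      refine Finset.sum_congr rfl fun j _ => ?_
      rw [← hB j, Finset.smul_sum]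
      exact Finset.sum_congr rfl fun i _ => by rw [smul_smul, map_mul, hb]
    funext j0
    have h2 := hti (r j0)
    rw [Fintype.linearIndependent_iff] at h2
    refine h2 (fun j => g j) ?_ ⟨j0, rfl⟩
    have h3 : ∀ j, g j • t j = ∑ i, algebraMap ℂ (AlgebraicClosure K) (g j * b j i) • s i := by
      intro j
      have h4 : g j • t j = algebraMap ℂ (AlgebraicClosure K) (g j) • t j := by
        ext D
        change g j • t j D = algebraMap ℂ (AlgebraicClosure K) (g j) * t j D
        rw [Algebra.smul_def]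
      rw [h4, ← hB j, Finset.smul_sum]
      exact Finset.sum_congr rfl fun i _ => by rw [smul_smul, map_mul, hb]
    change ∑ j : {j : Fin N // r j = r j0}, g j • t j = 0
    have h7 : ∑ j : {j : Fin N // r j = r j0}, g j • t j = ∑ j : {j : Fin N // r j = r j0},
        ∑ i, algebraMap ℂ (AlgebraicClosure K) (g j * b j i) • s i :=
      Finset.sum_congr rfl fun j _ => h3 j
    rw [h7, Finset.sum_comm]
    refine Finset.sum_eq_zero fun i _ => ?_
    rw [← Finset.sum_smul]
    by_cases hi : q i = r j0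
    · have h5 : ∑ j : {j : Fin N // r j = r j0},
          algebraMap ℂ (AlgebraicClosure K) (g j * b j i) =
          ∑ j, algebraMap ℂ (AlgebraicClosure K) (g j * b j i) := by
        rw [← Finset.sum_subtype (Finset.univ.filter fun j => r j = r j0) (by simp)
          fun j => algebraMap ℂ (AlgebraicClosure K) (g j * b j i)]
        refine Finset.sum_subset (Finset.subset_univ _) fun j _ hj => ?_
        rw [Finset.mem_filter, not_and] at hj
        have h6 : b j i = 0 := by
          by_contra hne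
          exact hj (Finset.mem_univ _) ((hbq j i hne).symm.trans hi)
        rw [h6, mul_zero, map_zero]
      rw [h5, h1 i, zero_smul]
    · have h5 : ∀ j : {j : Fin N // r j = r j0}, b j i = 0 := by
        intro j
        by_contra hne
        exact hi ((hbq j i hne).trans j.2)
      rw [Finset.sum_eq_zero fun j _ => by rw [h5 j, mul_zero, map_zero], zero_smul]

end

end Pool.Agent.Zk28.TF
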