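import Pool.Agent.Zk28.TF.Vol
import Pool.Agent.Zk28.TF.Defs

/-!
The relation between volumes which is given by a leafwise adapted tensor.
-/

set_option autoImplicit false
set_option linter.unusedSectionVars false

open FF Pool.Agent.W602.GT

namespace Pool.Agent.Zk28.TF

open Pool.Agent.Zk28.TS

section sums

theorem sum_layers {r : ℕ} (ν : Fin r → ℕ) (g : Fin r → ℝ) {M : ℕ} (hM : ∀ i, ν i ≤ M) :
    ∑ i, (ν i : ℝ) * g i = ∑ t ∈ Finset.range M, ∑ i, if t < ν i then g i else 0 := by
  rw [Finset.sum_comm]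
  refine Finset.sum_congr rfl fun i _ => ?_
  rw [← Finset.sum_filter, Finset.sum_const, nsmul_eq_mul]
  congr 2
  have h1 : (Finset.range M).filter (fun t => t < ν i) = Finset.range (ν i) := by
    ext t
    simp only [Finset.mem_filter, Finset.mem_range]
    have := hM i
    omega
  rw [h1, Finset.card_range]

/-- the number of small weights -/
def jt {r : ℕ} (ν : Fin r → ℕ) (t : ℕ) : ℕ := (Finset.univ.filter fun i => ν i ≤ t).card

theorem jt_le {r : ℕ} (ν : Fin r → ℕ) (t : ℕ) : jt ν t ≤ r := by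
  unfold jt
  refine (Finset.card_filter_le _ _).trans ?_
  simp

theorem lt_jt {r : ℕ} {ν : Fin r → ℕ} (hν : Monotone ν) (t : ℕ) (i : Fin r) :
    (i : ℕ) < jt ν t ↔ ν i ≤ t := by
  unfold jt
  constructor
  · intro h
    by_contra hlt
    push Not at hlt
    have h1 : (Finset.univ.filter fun i' => ν i' ≤ t) ⊆ Finset.univ.filter fun i' => i' < i := by
      intro i' hi'
      rw [Finset.mem_filter] at hi' ⊢
      refine ⟨Finset.mem_univ _, ?_⟩
      by_contra hge
      push Not at hge
      have := hν hge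
      omega
    have h2 := Finset.card_le_card h1
    have h3 : (Finset.univ.filter fun i' : Fin r => i' < i).card = i := by
      have h4 : (Finset.univ.filter fun i' : Fin r => i' < i) = Finset.Iio i := by
        ext x
        simp
      rw [h4, Fin.card_Iio]
    omega
  · intro h
    have h1 : (Finset.univ.filter fun i' => i' ≤ i) ⊆ Finset.univ.filter fun i' => ν i' ≤ t := by
      intro i' hi'
      rw [Finset.mem_filter] at hi' ⊢
      exact ⟨Finset.mem_univ _, (hν hi'.2).trans h⟩
    have h2 := Finset.card_le_card h1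
    have h3 : (Finset.univ.filter fun i' : Fin r => i' ≤ i).card = i + 1 := by
      have h4 : (Finset.univ.filter fun i' : Fin r => i' ≤ i) = Finset.Iic i := by
        ext x
        simp
      rw [h4, Fin.card_Iic]
    omega

theorem sum_initial_jt {r : ℕ} {ν : Fin r → ℕ} (hν : Monotone ν) (g : Fin r → ℝ) (t : ℕ) :
    (∑ i, if t < ν i then g i else 0) =
      ∑ i, g i - ∑ i : Fin (jt ν t), g (Fin.castLE (jt_le ν t) i) := by
  have h1 : ∀ i, (if t < ν i then g i else 0) = g i - (if ν i ≤ t then g i else 0) := by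
    intro i
    by_cases h : ν i ≤ t
    · rw [if_neg (not_lt.mpr h), if_pos h, sub_self]
    · rw [if_pos (not_le.mp h), if_neg h, sub_zero]
  rw [Finset.sum_congr rfl fun i _ => h1 i, Finset.sum_sub_distrib]
  congr 1
  rw [sum_initial (jt_le ν t) (fun i => if ν i ≤ t then g i else 0)]
  · refine Finset.sum_congr rfl fun i _ => ?_
    rw [if_pos]
    rw [← lt_jt hν]
    exact i.2
  · intro i hi
    rw [if_neg]
    rw [← lt_jt hν]
    omega

end sums

variable {K : Type} [Field K] [Algebra ℂ K]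

section transport

/-- Transport of places. -/
theorem place_transport {n : ℕ} {X : Set (Place ℂ K)} {δ β : Place ℂ K → ℝ} {σ : K ≃ₐ[ℂ] K}
    (hσ : MPreserves X δ β σ) {P : Place ℂ K} (hPX : P ∈ X) (hP : Divisorial n P) :
    ∃ Q ∈ X, Divisorial n Q ∧ δ Q = δ P ∧ β Q = β P ∧ (∀ f, Q.ord (σ f) = P.ord f) ∧
      (∀ D, DerReg P D → DerReg Q (conj σ D)) ∧
      ∀ D, DerLog Q (conj σ D) ↔ DerLog P D := by
  obtain ⟨Q, hQX, hδ, hβ, hQ⟩ := hσ P hPX
  have hreg : ∀ f, Q.Reg (σ f) ↔ P.Reg f := by
    intro f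
    unfold Place.Reg
    rw [hQ f]
    constructor
    · rintro (h | h)
      · exact Or.inl ((map_eq_zero σ).mp h)
      · exact Or.inr h
    · rintro (h | h)
      · exact Or.inl (by rw [h, map_zero])
      · exact Or.inr h
  refine ⟨Q, hQX, ?_, hδ, hβ, hQ, ?_, ?_⟩
  · obtain ⟨u, hu⟩ := hP
    refine ⟨fun i => σ (u i), fun F hF => ?_⟩
    have h1 : MvPolynomial.aeval (fun i => σ (u i)) F = σ (MvPolynomial.aeval u F) := by
      have h2 := MvPolynomial.comp_aeval_apply u σ.toAlgHom F
      exact h2.symm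
    rw [h1, hQ]
    exact ⟨(map_ne_zero σ).mpr (hu F hF).1, (hu F hF).2⟩
  · intro D hD f hf
    rw [conj_apply, hreg]
    apply hD
    rw [← hreg, AlgEquiv.apply_symm_apply]
    exact hf
  · intro D
    constructor
    · intro h f
      rw [← hreg]
      have h1 := h (σ f)
      rw [conj_apply, AlgEquiv.symm_apply_apply, ← map_div₀] at h1
      exact h1
    · intro h f
      have h1 := h (σ.symm f)
      rw [← hreg, map_div₀, AlgEquiv.apply_symm_apply] at h1
      exact h1

end transport

/-- invariant distributions -/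
def InvSub (G : Set (K ≃ₐ[ℂ] K)) (V : Submodule K (Derivation ℂ K K)) : Prop :=
  ∀ σ ∈ G, ∀ D ∈ V, conj σ D ∈ V

section action

variable {V : Submodule K (Derivation ℂ K K)}

/-- The action on a distribution. -/
noncomputable def vconj (σ : K ≃ₐ[ℂ] K) (h : ∀ D ∈ V, conj σ D ∈ V) (x : V) : V :=
  ⟨conj σ x, h x x.2⟩

theorem vconj_add (σ : K ≃ₐ[ℂ] K) (h : ∀ D ∈ V, conj σ D ∈ V) (x y : V) :
    vconj σ h (x + y) = vconj σ h x + vconj σ h y := Subtype.ext (conj_add σ _ _)

theorem vconj_smul (σ : K ≃ₐ[ℂ] K) (h : ∀ D ∈ V, conj σ D ∈ V) (a : K) (x : V) :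
    vconj σ h (a • x) = σ a • vconj σ h x := Subtype.ext (conj_smul σ _ _)

/-- The conjugate of a leafwise tensor. -/
noncomputable def lpull (σ : K ≃ₐ[ℂ] K) (h : ∀ D ∈ V, conj σ D ∈ V)
    (τ : AlgebraicClosure K ≃+* AlgebraicClosure K)
    (hτ : ∀ x : K, τ (algebraMap K _ x) = algebraMap K _ (σ x)) {m : ℕ}
    (s : MultilinearMap K (fun _ : Fin m => V) (AlgebraicClosure K)) :
    MultilinearMap K (fun _ : Fin m => V) (AlgebraicClosure K) where
  toFun D := τ.symm (s fun a => vconj σ h (D a))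
  map_update_add' D i x y := by
    have h : ∀ z, (fun a => vconj σ h (Function.update D i z a)) =
        Function.update (fun a => vconj σ h (D a)) i (vconj σ h z) := by
      intro z
      funext a
      by_cases ha : a = i
      · subst ha; simp
      · simp [Function.update_of_ne ha]
    rw [h, h, h, vconj_add, MultilinearMap.map_update_add, map_add]
  map_update_smul' D i c x := by
    have h : ∀ z, (fun a => vconj σ h (Function.update D i z a)) =
        Function.update (fun a => vconj σ h (D a)) i (vconj σ h z) := by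
      intro z
      funext a
      by_cases ha : a = i
      · subst ha; simp
      · simp [Function.update_of_ne ha]
    rw [h, h, vconj_smul, MultilinearMap.map_update_smul, Algebra.smul_def, Algebra.smul_def,
      map_mul, ← hτ, RingEquiv.symm_apply_apply]

theorem lpull_adapted {n : ℕ} {X : Set (Place ℂ K)} {δ β : Place ℂ K → ℝ} {σ : K ≃ₐ[ℂ] K}
    (hσ : MPreserves X δ β σ) (h : ∀ D ∈ V, conj σ D ∈ V)
    (τ : AlgebraicClosure K ≃+* AlgebraicClosure K)
    (hτ : ∀ x : K, τ (algebraMap K _ x) = algebraMap K _ (σ x)) {m : ℕ} {q : ℝ}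
    {s : MultilinearMap K (fun _ : Fin m => V) (AlgebraicClosure K)}
    (hs : LeafAdapted n X δ (fun P => q * β P) V s) :
    LeafAdapted n X δ (fun P => q * β P) V (lpull σ h τ hτ s) := by
  intro P hPX hP D hD
  obtain ⟨Q, hQX, hQd, hδ, hβ, hQ, hreg, hlog⟩ := place_transport (n := n) hσ hPX hP
  have h1 := hs Q hQX hQd (fun a => vconj σ h (D a)) fun a => hreg _ (hD a)
  have h2 : {a | ¬ DerLog Q ((vconj σ h (D a) : V) : Derivation ℂ K K)} =
      {a | ¬ DerLog P (D a : Derivation ℂ K K)} := by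
    ext a
    exact not_congr (hlog _)
  rw [h2, hδ] at h1
  beta_reduce at h1 ⊢
  rw [hβ] at h1
  refine h1.image σ τ hτ hQ ?_
  exact RingEquiv.apply_symm_apply _ _

end action

section rel

variable {n : ℕ} [Algebra.EssFiniteType ℂ K] [Module.Finite K (Derivation ℂ K K)]

/-- The twisted volume. -/
noncomputable def hh (n : ℕ) (δ β : Place ℂ K → ℝ) (V : Submodule K (Derivation ℂ K K)) :
    Place ℂ K → ℝ := fun P => vs δ V P - (Module.finrank K V : ℝ) / n * β P

theorem sum_et {P : Place ℂ K} {δ : ℝ} {m : ℕ} (D : Fin m → Derivation ℂ K K) :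
    -(({a | ¬ DerLog P (D a)}.ncard : ℝ) * δ) = ∑ a, et P δ (D a) := by
  classical
  rw [ncard_eq, Finset.sum_mul, ← Finset.sum_neg_distrib]
  refine Finset.sum_congr rfl fun a _ => ?_
  by_cases h : DerLog P (D a)
  · rw [et_log h, if_neg (not_not.mpr h)]
    ring
  · rw [et_nlog h, if_pos h]
    ring

/-- The relation which is given by a leafwise adapted tensor. -/
theorem rel_tensor (htr : Algebra.trdeg ℂ K = n) {X : Set (Place ℂ K)} {δ β : Place ℂ K → ℝ}
    (hδ : ∀ P ∈ X, 0 ≤ δ P ∧ δ P ≤ 1) {G : Set (K ≃ₐ[ℂ] K)}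
    {V : Submodule K (Derivation ℂ K K)} (hV : InvSub G V) {m : ℕ} (hm : 1 ≤ m)
    (hG : ∀ (σ : K ≃ₐ[ℂ] K) (hσ : σ ∈ G),
      ∀ s : MultilinearMap K (fun _ : Fin m => V) (AlgebraicClosure K),
      LeafAdapted n X δ (fun P => (m : ℝ) / n * β P) V s → ∀ u : Fin m → V,
      s (fun a => vconj σ (hV σ hσ) (u a)) ≠ 0 →
      ∃ s', LeafAdapted n X δ (fun P => (m : ℝ) / n * β P) V s' ∧ s' u ≠ 0)
    {s1 : MultilinearMap K (fun _ : Fin m => V) (AlgebraicClosure K)}
    (hs1 : LeafAdapted n X δ (fun P => (m : ℝ) / n * β P) V s1) (hs1' : s1 ≠ 0) :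
    ∃ (M : ℕ) (W : ℕ → Submodule K (Derivation ℂ K K)), 0 < M ∧ (∀ t, InvSub G (W t)) ∧
      (∀ t, W t ≤ V) ∧ W 0 ≠ V ∧
      Eff n X (∑ t ∈ Finset.range M, (hh n δ β V - hh n δ β (W t))) := by
  classical
  have hm' : (0 : ℝ) < m := by exact_mod_cast hm
  set r := Module.finrank K V with hr
  let P0 : Set (MultilinearMap K (fun _ : Fin m => V) (AlgebraicClosure K)) :=
    {s | LeafAdapted n X δ (fun P => (m : ℝ) / n * β P) V s}
  obtain ⟨b', w', hopt'⟩ := exists_opt hm P0 (Module.finBasis K V).linearIndependent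
  let π : Equiv.Perm (Fin r) := Tuple.sort w'
  set w : Fin r → ℝ := w' ∘ π with hw
  set b : Fin r → V := b' ∘ π with hb
  have hopt : Opt P0 b w := Opt.permG hopt' π
  have hmono : Monotone w := Tuple.monotone_sort w'
  have hspan : Submodule.span K (Set.range b) = ⊤ :=
    hopt.1.span_eq_top_of_card_eq_finrank' (by rw [Fintype.card_fin])
  have hgal : ∀ (σ : AlgebraicClosure K ≃ₐ[K] AlgebraicClosure K), ∀ s ∈ P0,
      σ.toLinearMap.compMultilinearMap s ∈ P0 := by
    intro σ s hs P hPX hP D hD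
    obtain ⟨p, hmon, hroot, hcoef⟩ := hs P hPX hP D hD
    refine ⟨p, hmon, ?_, hcoef⟩
    change Polynomial.aeval (σ (s D)) p = 0
    have h1 := Polynomial.aeval_algHom_apply σ.toAlgHom (s D) p
    rw [hroot, map_zero] at h1
    exact h1
  obtain ⟨ρ, ν, R, c, hρ0, hR, hc0, hνw, hsumν, hcore⟩ := core hm hgal hopt hmono hspan
    ⟨s1, hs1, hs1'⟩
  have hνmono : Monotone ν := by
    intro i j hij
    have h1 : (ν i : ℝ) ≤ ν j := by
      rw [hνw, hνw]
      exact mul_le_mul_of_nonneg_left (hmono hij) hρ0.le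
    exact_mod_cast h1
  -- the tuple of derivations
  set bT : Fin r → Derivation ℂ K K := fun i => (b i : Derivation ℂ K K) with hbT
  have hbTi : LinearIndependent K bT := hopt.1.map' V.subtype (Submodule.ker_subtype V)
  have hbTs : Submodule.span K (Set.range bT) = V := by
    have h1 : Set.range bT = V.subtype '' Set.range b := by
      rw [← Set.range_comp]
      rfl
    rw [h1, Submodule.span_image, hspan, Submodule.map_top, Submodule.range_subtype]
  set M : ℕ := ∑ i, ν i with hM
  have hM0 : 0 < M := by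
    have h1 : (0 : ℝ) < (M : ℝ) := by
      rw [hsumν]
      have h2 : (0 : ℝ) < R := by exact_mod_cast hR
      positivity
    exact_mod_cast h1
  have hνM : ∀ i, ν i ≤ M := fun i =>
    Finset.single_le_sum (f := ν) (fun j _ => Nat.zero_le _) (Finset.mem_univ i)
  let W : ℕ → Submodule K (Derivation ℂ K K) := fun t =>
    Submodule.span K (Set.range fun i : Fin (jt ν t) => bT (Fin.castLE (jt_le ν t) i))
  have hWi : ∀ t, LinearIndependent K fun i : Fin (jt ν t) => bT (Fin.castLE (jt_le ν t) i) :=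
    fun t => hbTi.comp _ (Fin.castLE_injective _)
  have hWV : ∀ t, W t ≤ V := by
    intro t
    refine Submodule.span_le.mpr ?_
    rintro _ ⟨i, rfl⟩
    exact (b _).2
  have hWdim : ∀ t, Module.finrank K (W t) = jt ν t := fun t => by
    rw [finrank_span_eq_card (hWi t), Fintype.card_fin]
  refine ⟨M, W, hM0, ?_, hWV, ?_, ?_⟩
  · -- invariance
    intro t σ hσ D hD
    have hconj : ∀ D ∈ V, conj σ D ∈ V := hV σ hσ
    have h1 : ∀ x : V, x ∈ fl K b w (t / ρ) → vconj σ hconj x ∈ fl K b w (t / ρ) := by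
      intro x hx
      refine hopt.invariant rfl σ.toRingEquiv (vconj σ hconj) (vconj_add σ hconj)
        (fun a x => vconj_smul σ hconj a x) (fun x hx => ?_) ?_ (t / ρ) hx
      · exact Subtype.ext (conj_inj (congrArg Subtype.val hx))
      · intro s hs u hu
        exact hG σ hσ s hs u hu
    have h2 : W t = (fl K b w (t / ρ)).map V.subtype := by
      have h3 : (Set.range fun i : Fin (jt ν t) => bT (Fin.castLE (jt_le ν t) i)) =
          V.subtype '' (b '' {i | w i ≤ t / ρ}) := by
        ext x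
        constructor
        · rintro ⟨i, rfl⟩
          refine ⟨b (Fin.castLE (jt_le ν t) i), ⟨_, ?_, rfl⟩, rfl⟩
          have h4 : ν (Fin.castLE (jt_le ν t) i) ≤ t := (lt_jt hνmono t _).mp i.2
          have h5 : (ν (Fin.castLE (jt_le ν t) i) : ℝ) ≤ t := by exact_mod_cast h4
          rw [hνw] at h5
          change w _ ≤ t / ρ
          rw [le_div_iff₀ hρ0, mul_comm]
          exact h5
        · rintro ⟨_, ⟨i, hi, rfl⟩, rfl⟩
          have h4 : ν i ≤ t := by
            have h5 : w i ≤ t / ρ := hi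
            rw [le_div_iff₀ hρ0, mul_comm, ← hνw] at h5
            exact_mod_cast h5
          exact ⟨⟨i, (lt_jt hνmono t i).mpr h4⟩, rfl⟩
      change Submodule.span K _ = _
      rw [h3, Submodule.span_image]
      rfl
    rw [h2] at hD ⊢
    obtain ⟨x, hx, rfl⟩ := hD
    exact ⟨vconj σ hconj x, h1 x hx, rfl⟩
  · -- the first member is proper
    intro h0
    have h1 := hWdim 0
    rw [h0, ← hr] at h1
    have h2 : ∀ i, ν i = 0 := fun i => by
      have h3 := (lt_jt hνmono 0 i).mp (by rw [← h1]; exact i.2)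
      omega
    rw [hM, Finset.sum_eq_zero fun i _ => h2 i] at hM0
    exact lt_irrefl 0 hM0
  · -- the relation
    obtain ⟨yV, hyV, h1⟩ := vs_tuple htr hδ V hbTi hbTs
    choose y hy h2 using fun t => vs_tuple htr hδ (W t) (hWi t) rfl
    refine ⟨1, Nat.one_pos, c * ∏ t ∈ Finset.range M, (y t / yV), mul_ne_zero hc0
      (Finset.prod_ne_zero_iff.mpr fun t _ => div_ne_zero (hy t) hyV), fun P hPX hP => ?_⟩
    obtain ⟨A, hA⟩ := exists_tri' htr hP hbTi
    have h3 := hcore P A (fun i => et P (δ P) (fr A bT i)) ((m : ℝ) / n * β P) hA.low hA.det (by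
      intro s hs J
      have h4 : ∀ i, ((∑ j, A i j • b j : V) : Derivation ℂ K K) = fr A bT i := by
        intro i
        unfold fr
        rw [Submodule.coe_sum]
        rfl
      have h5 := hs P hPX hP (fun a => ∑ j, A (J a) j • b j) fun a => by
        rw [h4]
        exact hA.reg _
      have h6 : {a | ¬ DerLog P ((∑ j, A (J a) j • b j : V) : Derivation ℂ K K)} =
          {a | ¬ DerLog P (fr A bT (J a))} := by
        ext a
        change ¬ DerLog P ((∑ j, A (J a) j • b j : V) : Derivation ℂ K K) ↔ _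
        rw [h4]
        rfl
      rw [h6, neg_add, sum_et, ← sub_eq_add_neg] at h5
      exact h5)
    have h4 : c * ∏ i, A i i ^ ν i ≠ 0 :=
      mul_ne_zero hc0 (Finset.prod_ne_zero_iff.mpr fun i _ => pow_ne_zero _ (hA.diag i))
    have h5 : ∑ i, (ν i : ℝ) * gv P (δ P) bT A i - (∑ i, (ν i : ℝ)) / n * β P ≤ P.ord c := by
      rcases h3 with h3 | h3
      · exact absurd h3 h4
      rw [P.ord_mul hc0 (right_ne_zero_of_mul h4), ord_prod' _ _ fun i _ =>
        pow_ne_zero _ (hA.diag i)] at h3
      push_cast at h3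
      have h6 : ∑ i, (P.ord (A i i ^ ν i) : ℝ) = ∑ i, (ν i : ℝ) * P.ord (A i i) :=
        Finset.sum_congr rfl fun i _ => by rw [P.ord_pow]; push_cast; ring
      have h7 : ∑ i, (ν i : ℝ) * gv P (δ P) bT A i =
          ∑ i, (ν i : ℝ) * et P (δ P) (fr A bT i) - ∑ i, (ν i : ℝ) * P.ord (A i i) := by
        rw [← Finset.sum_sub_distrib]
        exact Finset.sum_congr rfl fun i _ => by unfold gv; ring
      have h8 : (∑ i, (ν i : ℝ)) / n * β P = R * ((m : ℝ) / n * β P) := by
        have h9 : ∑ i, (ν i : ℝ) = R * m := by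
          rw [← hsumν, hM]
          push_cast
          rfl
        rw [h9]
        ring
      rw [h7, h8]
      rw [h6] at h3
      linarith
    have h6 : ∀ t, vs δ V P - vs δ (W t) P = (∑ i, if t < ν i then gv P (δ P) bT A i else 0) +
        (P.ord (y t) - P.ord yV) := by
      intro t
      have h7 := h1 P hPX hP
      have h8 := h2 t P hPX hP
      rw [vol_eq (hδ P hPX) hA] at h7
      rw [vol_initial (hδ P hPX) (jt_le ν t) hA] at h8
      rw [sum_initial_jt hνmono]
      linarith
    have h7 : ∀ t, hh n δ β V P - hh n δ β (W t) P =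
        (∑ i, if t < ν i then gv P (δ P) bT A i else 0) + (P.ord (y t) - P.ord yV) -
          (∑ i, if t < ν i then (1 : ℝ) else 0) / n * β P := by
      intro t
      rw [← h6, sum_initial_jt hνmono]
      unfold hh
      rw [hWdim]
      simp only [Finset.sum_const, Finset.card_univ, Fintype.card_fin, nsmul_eq_mul, mul_one]
      ring
    rw [Finset.sum_apply, Nat.cast_one, one_mul, P.ord_mul hc0
      (Finset.prod_ne_zero_iff.mpr fun t _ => div_ne_zero (hy t) hyV),
      ord_prod' _ _ fun t _ => div_ne_zero (hy t) hyV]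
    simp only [Pi.sub_apply]
    rw [Finset.sum_congr rfl fun t _ => h7 t, Finset.sum_sub_distrib, Finset.sum_add_distrib,
      ← sum_layers ν _ hνM, ← Finset.sum_mul, ← Finset.sum_div, ← sum_layers ν _ hνM]
    simp only [mul_one]
    push_cast
    have h8 : ∑ t ∈ Finset.range M, (P.ord (y t / yV) : ℝ) =
        ∑ t ∈ Finset.range M, ((P.ord (y t) : ℝ) - P.ord yV) := by
      refine Finset.sum_congr rfl fun t _ => ?_
      rw [P.ord_div (hy t) hyV]
      push_cast
      rfl
    rw [h8]
    linarith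

end rel

end Pool.Agent.Zk28.TF
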