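import Pool.Agent.Zk28.TF.TC
import Pool.Agent.Zk28.TF.NDefs
import Pool.Agent.Zk28.TF.Prop1

/-!
The order of a group of classes without effective classes, and its largest slope.
-/

set_option autoImplicit false
set_option linter.unusedSectionVars false

open FF Pool.Agent.W602.GT

namespace Pool.Agent.Zk28.TF

open Pool.Agent.Zk28.TS

section order

variable {K : Type} [Field K] [Algebra ℂ K] {n : ℕ}
  {X : Set (Place ℂ K)} {G : Set (K ≃ₐ[ℂ] K)} {L : Place ℂ K → ℝ} {A : Set (Place ℂ K → ℝ)}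

theorem NullGroup.zero_mem (hA : NullGroup n X G L A) : (fun _ => (0 : ℝ)) ∈ A := by
  have h1 := hA.rat L hA.mem 0
  convert h1 using 1
  funext P
  push_cast
  ring

theorem NullGroup.sub_mem (hA : NullGroup n X G L A) {D E : Place ℂ K → ℝ} (hD : D ∈ A)
    (hE : E ∈ A) : (fun P => D P - E P) ∈ A := by
  have h1 := hA.add D hD _ (hA.rat E hE (-1))
  convert h1 using 1
  funext P
  push_cast
  ring

/-- The properties of the order. -/
structure StrictCone (n : ℕ) (X : Set (Place ℂ K)) (A C : Set (Place ℂ K → ℝ)) : Prop where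
  cone : IsCone C
  tot : ∀ x, x ∈ C ∨ -x ∈ C
  eff : {f | Eff n X f} ⊆ C
  sub : A ⊆ C
  strict : ∀ E, PosDiv n X E → E ∉ C

/-- There is an order for which the classes in the group are zero and the nonzero effective classes
are positive. -/
theorem NullGroup.exists_cone (hA : NullGroup n X G L A) :
    ∃ C : Set (Place ℂ K → ℝ), StrictCone n X A C := by
  classical
  let E0 : Set (Place ℂ K → ℝ) := {f | ∃ a ∈ A, Eff n X fun P => f P - a P}
  have h0 : Eff n X fun _ => (0 : ℝ) :=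
    ⟨1, Nat.one_pos, 1, one_ne_zero, fun P _ _ => by rw [P.ord_one]; simp⟩
  have hE0 : IsCone E0 := by
    refine ⟨⟨_, hA.zero_mem, ?_⟩, ?_, ?_⟩
    · convert h0 using 2
      simp
    · rintro f ⟨a, ha, hf⟩ g ⟨b, hb, hg⟩
      refine ⟨_, hA.add a ha b hb, ?_⟩
      have h1 := isCone_eff.add _ hf _ hg
      change Eff n X _ at h1
      convert h1 using 1
      funext P
      rw [Pi.add_apply, Pi.add_apply]
      ring
    · rintro N f hN ⟨a, ha, hf⟩
      have hN' : (N : ℝ) ≠ 0 := by exact_mod_cast hN.ne'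
      refine ⟨_, hA.rat a ha (1 / N), ?_⟩
      refine isCone_eff.root N _ hN ?_
      change Eff n X _
      convert hf using 1
      funext P
      rw [Pi.smul_apply, Pi.smul_apply, nsmul_eq_mul, nsmul_eq_mul]
      push_cast
      field_simp
  obtain ⟨C, hEC, hC, htot, hS⟩ := exists_total_avoid (S := {E | PosDiv n X E}) hE0 (by
      rintro x ⟨hx, P0, hP0X, hP0, hx0⟩ y ⟨hy, -⟩
      exact ⟨fun P hPX hP => add_nonneg (hx P hPX hP) (hy P hPX hP), P0, hP0X, hP0,
        add_pos_of_pos_of_nonneg hx0 (hy P0 hP0X hP0)⟩) (by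
      rintro E ⟨hE, P0, hP0X, hP0, hE0'⟩ ⟨a, ha, N, hN, z, hz, h⟩
      have hNR : (0 : ℝ) < N := by exact_mod_cast hN
      have h1 : ∀ P ∈ X, Divisorial n P → E P ≤ a P + P.ord z / N := by
        intro P hPX hP
        have h2 := h P hPX hP
        have h3 : E P - a P ≤ P.ord z / N := by
          rw [le_div_iff₀ hNR, mul_comm]
          exact h2
        linarith
      refine hA.null (fun P => a P + P.ord z / N) (hA.equiv a ha _ ⟨N, z⁻¹, hN, inv_ne_zero hz,
        fun P _ _ => ?_⟩) ⟨fun P hPX hP => (hE P hPX hP).trans (h1 P hPX hP), P0, hP0X, hP0,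
          lt_of_lt_of_le hE0' (h1 P0 hP0X hP0)⟩
      rw [P.ord_inv]
      push_cast
      field_simp
      ring)
  refine ⟨C, hC, htot, fun f hf => hEC ⟨_, hA.zero_mem, ?_⟩, fun a ha => hEC ⟨a, ha, ?_⟩,
    fun E hE => hS E hE⟩
  · have h1 : (fun P => f P - 0) = f := by
      funext P
      ring
    rw [h1]
    exact hf
  · have h1 : (fun P => a P - a P) = fun _ => (0 : ℝ) := by
      funext P
      ring
    rw [h1]
    exact h0

variable {C : Set (Place ℂ K → ℝ)}

theorem NullGroup.neg_mem_cone (hA : NullGroup n X G L A) (hC : StrictCone n X A C)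
    {a : Place ℂ K → ℝ} (ha : a ∈ A) : -a ∈ C := by
  refine hC.sub ?_
  have h1 := hA.rat a ha (-1)
  convert h1 using 1
  funext P
  rw [Pi.neg_apply]
  push_cast
  ring

/-- Positive classes are effective modulo `A`. -/
theorem MaxNullGroup.of_not_mem (hA : MaxNullGroup n X G L A) (hC : StrictCone n X A C)
    {D : Place ℂ K → ℝ} (hD : InvariantClass n X G D) (h : D ∉ C) :
    ∃ E, PosDiv n X E ∧ (fun P => D P - E P) ∈ A := by
  rcases hA.total D hD with h1 | h1 | ⟨E, hE, h1⟩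
  · exact absurd (hC.sub h1) h
  · exact h1
  · exfalso
    apply h
    have h2 : -E ∈ C := by
      refine hC.eff ⟨1, Nat.one_pos, 1, one_ne_zero, fun P hPX hP => ?_⟩
      rw [P.ord_one, Pi.neg_apply]
      push_cast
      linarith [hE.1 P hPX hP]
    have h3 := hC.cone.add _ (hC.sub h1) _ h2
    convert h3 using 1
    funext P
    rw [Pi.add_apply, Pi.neg_apply]
    ring

/-- Nonpositive classes are anti-effective modulo `A`. -/
theorem MaxNullGroup.of_mem (hA : MaxNullGroup n X G L A) (hC : StrictCone n X A C)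
    {D : Place ℂ K → ℝ} (hD : InvariantClass n X G D) (h : D ∈ C) :
    D ∈ A ∨ ∃ E, PosDiv n X E ∧ (fun P => D P + E P) ∈ A := by
  rcases hA.total D hD with h1 | ⟨E, hE, h1⟩ | h1
  · exact Or.inl h1
  · exfalso
    apply hC.strict E hE
    have h3 := hC.cone.add _ h _ (hA.neg_mem_cone hC h1)
    convert h3 using 1
    funext P
    rw [Pi.add_apply, Pi.neg_apply]
    ring
  · exact Or.inr h1

end order

section slope

variable {K : Type} [Field K] [Algebra ℂ K] {n : ℕ}
  {X : Set (Place ℂ K)} {δ : Place ℂ K → ℝ} {G : Set (K ≃ₐ[ℂ] K)}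
  [Algebra.EssFiniteType ℂ K] [Module.Finite K (Derivation ℂ K K)]
  {C : Set (Place ℂ K → ℝ)}

/-- the twisted determinant -/
noncomputable def ht (δ : Place ℂ K → ℝ) (θ : Place ℂ K → ℝ)
    (V : Submodule K (Derivation ℂ K K)) : Place ℂ K → ℝ :=
  fun P => vs δ V P - Module.finrank K V * θ P

theorem ht_eq (hn : 1 ≤ n) (δ θ : Place ℂ K → ℝ) (V : Submodule K (Derivation ℂ K K)) :
    hh n δ (fun P => n * θ P) V = ht δ θ V := by
  have hn' : (n : ℝ) ≠ 0 := by
    have : (0 : ℝ) < n := by exact_mod_cast hn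
    exact this.ne'
  funext P
  unfold hh ht
  field_simp

/-- **The largest slope.** -/
theorem exists_max_slope (hn : 1 ≤ n) (htr : Algebra.trdeg ℂ K = n)
    (hδ : ∀ P ∈ X, 0 ≤ δ P ∧ δ P ≤ 1) (hC : IsCone C) (htot : ∀ x, x ∈ C ∨ -x ∈ C)
    (hEC : {f | Eff n X f} ⊆ C) (hpos : ∃ W, InvSub G W ∧ vs δ W ∉ C) :
    ∃ (F : Submodule K (Derivation ℂ K K)) (s : Place ℂ K → ℝ), F ≠ ⊥ ∧ InvSub G F ∧
      (∀ P, vs δ F P = Module.finrank K F * s P) ∧ s ∉ C ∧
      (∀ W, InvSub G W → (fun P => vs δ W P - Module.finrank K W * s P) ∈ C) ∧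
      ∀ D ∈ F, ∀ E ∈ F, ⁅D, E⁆ ∈ F := by
  classical
  have hself : ∀ x : Place ℂ K → ℝ, x ∉ C → -x ∈ C := fun x hx => (htot x).resolve_left hx
  have hsuper : ∀ (θ : Place ℂ K → ℝ) a c, ht δ θ a + ht δ θ c -
      (ht δ θ (a ⊔ c) + ht δ θ (a ⊓ c)) ∈ C := by
    intro θ a c
    have h1 := hEC (hh_super (n := n) (X := X) (δ := δ) (β := fun P => n * θ P) htr hδ a c)
    simpa only [ht_eq hn] using h1
  -- strict minima
  let Good : (Place ℂ K → ℝ) → Submodule K (Derivation ℂ K K) → Prop := fun θ V => InvSub G V ∧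
    (∀ W, InvSub G W → ht δ θ W - ht δ θ V ∈ C) ∧
    ∀ W, InvSub G W → W < V → ¬ ht δ θ V - ht δ θ W ∈ C
  have hgood : ∀ θ, ∃ V, Good θ V := fun θ =>
    exists_strict_min hC htot
      (L := fun W : Submodule K (Derivation ℂ K K) => InvSub G W) invSub_bot
      (fun _ _ _ _ => Submodule.mem_top) (fun _ _ => invSub_sup) (fun _ _ => invSub_inf)
      (fun W => Module.finrank K W) (fun _ _ h => Submodule.finrank_lt_finrank_of_lt h)
      (ht δ θ) fun a c _ _ => hsuper θ a c
  let Adm : (Place ℂ K → ℝ) → Prop := fun θ => -θ ∈ C ∧ ∃ W, InvSub G W ∧ ht δ θ W ∉ C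
  have hA0 : Adm 0 := by
    obtain ⟨W, hW, hWC⟩ := hpos
    refine ⟨by rw [neg_zero]; exact hC.zero, W, hW, fun h => hWC ?_⟩
    convert h using 1
    funext P
    unfold ht
    simp
  have hex : ∃ d, ∃ θ, Adm θ ∧ ∃ V, Good θ V ∧ Module.finrank K V = d := by
    obtain ⟨V, hV⟩ := hgood 0
    exact ⟨_, 0, hA0, V, hV, rfl⟩
  obtain ⟨θ0, hθ0, V, hV, hVd⟩ := Nat.find_spec hex
  have hminimal : ∀ θ V', Adm θ → Good θ V' → Module.finrank K V ≤ Module.finrank K V' := by
    intro θ V' h1 h2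
    rw [hVd]
    exact Nat.find_min' hex ⟨θ, h1, V', h2, rfl⟩
  have hall : ∀ θ, θ0 - θ ∈ C → Adm θ → Good θ V := by
    intro θ hθ hAθ
    obtain ⟨V', hV'⟩ := hgood θ
    have hle' : V' ≤ V := by
      by_contra hno'
      have hlt : V' ⊓ V < V' := lt_of_le_of_ne inf_le_left fun h => hno' (by
        rw [← h]
        exact inf_le_right)
      refine hV'.2.2 _ (invSub_inf hV'.1 hV.1) hlt ?_
      have h1 := hV.2.1 _ (invSub_sup hV'.1 hV.1)
      have h7 : Module.finrank K V ≤ Module.finrank K (V' ⊔ V : Submodule K _) :=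
        Submodule.finrank_mono le_sup_right
      have h2 : ht δ θ (V' ⊔ V) - ht δ θ V ∈ C := by
        have h3 := hC.add _ h1 _ (hC.nsmul (Module.finrank K (V' ⊔ V : Submodule K _) -
          Module.finrank K V) hθ)
        convert h3 using 1
        funext P
        rw [Pi.add_apply, Pi.sub_apply, Pi.sub_apply, Pi.smul_apply, Pi.sub_apply, nsmul_eq_mul]
        unfold ht
        push_cast [h7]
        ring
      have h3 := hC.add _ (hsuper θ V' V) _ h2
      have h4 : ht δ θ V' + ht δ θ V - (ht δ θ (V' ⊔ V) + ht δ θ (V' ⊓ V)) +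
          (ht δ θ (V' ⊔ V) - ht δ θ V) = ht δ θ V' - ht δ θ (V' ⊓ V) := by abel
      rw [h4] at h3
      exact h3
    have heq : V' = V := Submodule.eq_of_le_of_finrank_le hle' (hminimal θ V' hAθ hV')
    rwa [heq] at hV'
  have hpos' : ∀ θ, Adm θ → Good θ V → ht δ θ V ∉ C := by
    rintro θ ⟨-, W, hW, hWC⟩ hg h
    apply hWC
    have h1 := hC.add _ (hg.2.1 W hW) _ h
    rwa [sub_add_cancel] at h1
  have hVne : V ≠ ⊥ := by
    rintro rfl
    refine hpos' θ0 hθ0 hV ?_
    have h1 := hEC (hh_bot (n := n) (X := X) (δ := δ) (β := fun P => n * θ0 P) htr hδ)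
    rwa [ht_eq hn] at h1
  have hr : 0 < Module.finrank K V := by
    have : Nontrivial V := Submodule.nontrivial_iff_ne_bot.mpr hVne
    exact Module.finrank_pos
  have hrR : (Module.finrank K V : ℝ) ≠ 0 := by exact_mod_cast hr.ne'
  obtain ⟨s, hs⟩ : ∃ s : Place ℂ K → ℝ, s = fun P => vs δ V P / Module.finrank K V := ⟨_, rfl⟩
  have hsV : ∀ P, vs δ V P = Module.finrank K V * s P := by
    intro P
    rw [hs]
    field_simp
  have hs0 : s - θ0 ∉ C := by
    intro h
    apply hpos' θ0 hθ0 hV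
    have h1 := hC.nsmul (Module.finrank K V) h
    convert h1 using 1
    funext P
    rw [Pi.smul_apply, Pi.sub_apply, nsmul_eq_mul]
    unfold ht
    rw [hsV]
    ring
  have hs1 : θ0 - s ∈ C := by
    have h1 := hself _ hs0
    rwa [neg_sub] at h1
  have hsn : -s ∈ C := by
    have h1 := hC.add _ hs1 _ hθ0.1
    have h2 : θ0 - s + -θ0 = -s := by abel
    rwa [h2] at h1
  refine ⟨V, s, hVne, hV.1, hsV, fun h => hs0 ?_, fun W hW => ?_, ?_⟩
  · have h1 := hC.add _ h _ hθ0.1
    rwa [← sub_eq_add_neg] at h1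
  · by_contra hWC
    have hAs : Adm s := ⟨hsn, W, hW, hWC⟩
    apply hWC
    have h1 := (hall s hs1 hAs).2.1 W hW
    convert h1 using 1
    funext P
    rw [Pi.sub_apply]
    unfold ht
    rw [hsV]
    ring
  · by_contra hno'
    push Not at hno'
    obtain ⟨D, hD, E, hE, hDE⟩ := hno'
    obtain ⟨M, R, Vt, Wt, hM, hVt, hWt, hVtV, hVt0, hrel⟩ :=
      rel_levi htr hδ (β := fun P => n * θ0 P) hV.1 ⟨D, hD, E, hE, hDE⟩
    refine hV.2.2 (Vt 0) (hVt 0) (lt_of_le_of_ne (hVtV 0) hVt0)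
      (first_mem hC (ht δ θ0) hM (fun i => hV.2.1 _ (hVt i)) ?_)
    have h1 := hC.sum (Finset.range R) (f := fun s => ht δ θ0 (Wt s) - ht δ θ0 V)
      fun s _ => hV.2.1 _ (hWt s)
    have h2 := hC.add _ (hC.add _ (hEC hrel) _ h1) _ (hC.nsmul R hθ0.1)
    simp only [ht_eq hn] at h2
    have hn' : (n : ℝ) ≠ 0 := by
      have : (0 : ℝ) < n := by exact_mod_cast hn
      exact this.ne'
    convert h2 using 1
    funext P
    rw [Pi.add_apply, Pi.add_apply, Pi.add_apply, Pi.sub_apply, Finset.sum_apply,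
      Finset.sum_apply, Pi.smul_apply, Pi.neg_apply, nsmul_eq_mul]
    field_simp
    ring

/-- Leafwise tensors on the distribution of the largest slope. -/
theorem tensor_slope (hn : 1 ≤ n) (htr : Algebra.trdeg ℂ K = n)
    (hδ : ∀ P ∈ X, 0 ≤ δ P ∧ δ P ≤ 1)
    (hG : ∀ g ∈ G, MPreserves X δ (fun _ => (0 : ℝ)) g) (hC : IsCone C)
    (hEC : {f | Eff n X f} ⊆ C) {V : Submodule K (Derivation ℂ K K)} (hV : InvSub G V)
    {s : Place ℂ K → ℝ} (hsV : ∀ P, vs δ V P = Module.finrank K V * s P)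
    (hs : ∀ W, InvSub G W → W ≤ V → (fun P => vs δ W P - Module.finrank K W * s P) ∈ C)
    {m : ℕ} (hm : 0 < m) {γ : Place ℂ K → ℝ} (hγ : InvariantClass n X G γ)
    {u : MultilinearMap K (fun _ : Fin m => V) (AlgebraicClosure K)}
    (hu : LeafAdapted n X δ γ V u) (hu0 : u ≠ 0) :
    (fun P => m * s P - γ P) ∈ C ∧ ∃ (M : ℕ) (W : ℕ → Submodule K (Derivation ℂ K K)) (a : ℚ),
      0 < M ∧ 0 < a ∧ (∀ t, InvSub G (W t)) ∧ (∀ t, W t ≤ V) ∧ W 0 ≠ V ∧
      Eff n X fun P => ∑ t ∈ Finset.range M, (vs δ V P - vs δ (W t) P) - a * γ P := by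
  classical
  have hmR : (0 : ℝ) < m := by exact_mod_cast hm
  have hmq : (0 : ℚ) < m := by exact_mod_cast hm
  have hnR : (0 : ℝ) < n := by exact_mod_cast hn
  have hfun : (fun P => (m : ℝ) / n * ((n : ℝ) / m * γ P)) = γ := by
    funext P
    field_simp
  obtain ⟨M, W, hM, hW, hWV, hW0, hrel⟩ := rel_tensor htr hδ
    (β := fun P => (n : ℝ) / m * γ P) hV hm (by
      intro σ hσ s' hs' u hu
      rw [hfun] at hs' ⊢
      exact pull_inv hγ hσ (hG σ hσ) (hV σ hσ) hs' hu)
    (s1 := u) (by rw [hfun]; exact hu) hu0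
  obtain ⟨A, hA⟩ : ∃ A : ℕ, A = ∑ t ∈ Finset.range M,
    (Module.finrank K V - Module.finrank K (W t)) := ⟨_, rfl⟩
  have hApos : 0 < A := by
    rw [hA]
    refine Finset.sum_pos' (fun t _ => Nat.zero_le _) ⟨0, Finset.mem_range.mpr hM, ?_⟩
    have h1 := Submodule.finrank_lt_finrank_of_lt (lt_of_le_of_ne (hWV 0) hW0)
    omega
  have hAR : (A : ℝ) = ∑ t ∈ Finset.range M,
      ((Module.finrank K V : ℝ) - Module.finrank K (W t)) := by
    rw [hA, Nat.cast_sum]
    refine Finset.sum_congr rfl fun t _ => ?_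
    rw [Nat.cast_sub (Submodule.finrank_mono (hWV t))]
  have hrel' : Eff n X fun P => ∑ t ∈ Finset.range M, (vs δ V P - vs δ (W t) P) -
      ((A / m : ℚ) : ℝ) * γ P := by
    convert hrel using 1
    funext P
    rw [Finset.sum_apply]
    have h1 : ∀ t, (hh n δ (fun P => (n : ℝ) / m * γ P) V -
        hh n δ (fun P => (n : ℝ) / m * γ P) (W t)) P =
        vs δ V P - vs δ (W t) P - ((Module.finrank K V : ℝ) - Module.finrank K (W t)) *
          (γ P / m) := by
      intro t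
      rw [Pi.sub_apply]
      unfold hh
      field_simp
      ring
    rw [Finset.sum_congr rfl fun t _ => h1 t, Finset.sum_sub_distrib (f := fun t =>
      vs δ V P - vs δ (W t) P), ← Finset.sum_mul, ← hAR]
    push_cast
    ring
  refine ⟨?_, M, W, A / m, hM, div_pos (by exact_mod_cast hApos) hmq, hW, hWV, hW0, hrel'⟩
  have h1 := hC.sum (Finset.range M)
    (f := fun t P => vs δ (W t) P - Module.finrank K (W t) * s P) fun t _ =>
      hs (W t) (hW t) (hWV t)
  have h2 := hC.rat (hC.add _ (hEC hrel') _ h1) (q := m / A) (by positivity)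
  convert h2 using 1
  funext P
  have hA' : (A : ℝ) ≠ 0 := by exact_mod_cast hApos.ne'
  rw [Pi.add_apply, Finset.sum_apply]
  have h3 : ∑ t ∈ Finset.range M, (vs δ V P - vs δ (W t) P) +
      ∑ t ∈ Finset.range M, (vs δ (W t) P - Module.finrank K (W t) * s P) = A * s P := by
    rw [← Finset.sum_add_distrib, hAR, Finset.sum_mul]
    refine Finset.sum_congr rfl fun t _ => ?_
    rw [hsV]
    ring
  have h4 : ((m / A : ℚ) : ℝ) * (∑ t ∈ Finset.range M, (vs δ V P - vs δ (W t) P) -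
      ((A / m : ℚ) : ℝ) * γ P + ∑ t ∈ Finset.range M,
        (vs δ (W t) P - Module.finrank K (W t) * s P)) =
      ((m / A : ℚ) : ℝ) * (∑ t ∈ Finset.range M, (vs δ V P - vs δ (W t) P) +
      ∑ t ∈ Finset.range M, (vs δ (W t) P - Module.finrank K (W t) * s P) -
        ((A / m : ℚ) : ℝ) * γ P) := by ring
  rw [h4, h3]
  push_cast
  field_simp

end slope

end Pool.Agent.Zk28.TF
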