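import Pool.Agent.Zk28.TF.SP9

/-!
Foliations with algebraic images along a divisor: the Iitaka fibration and algebraic leaves.
-/

set_option autoImplicit false
set_option linter.unusedSectionVars false

open FF Pool.Agent.W602.GT

namespace Pool.Agent.Zk28.TF

open Pool.Agent.Zk28.TS

section

variable {K : Type} [Field K] [Algebra ℂ K] {n : ℕ}

/-- The subfield `Z` of `K` is the function field of the base of a non-trivial fibration `X ⇢ Z`,
`0 < dim Z < dim X`, which is preserved by the automorphisms in `G`: `Z` is relatively algebraically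
closed in `K`, not algebraic over `ℂ`, `K` is not algebraic over `Z`, and `Z` is stable under `G`. -/
def FibInv (G : Set (K ≃ₐ[ℂ] K)) (Z : IntermediateField ℂ K) : Prop :=
  (∃ g ∈ Z, Transcendental ℂ g) ∧ ¬ Algebra.IsAlgebraic Z K ∧
    (∀ g : K, IsAlgebraic Z g → g ∈ Z) ∧ ∀ σ ∈ G, ∀ g ∈ Z, σ g ∈ Z

theorem ai_first {F : Submodule K (Derivation ℂ K K)} {d : ℕ} {z : Fin d → K}
    (h : AlgebraicIndependent (integralField F) z) :
    AlgebraicIndependent (firstIntegrals F) z := by
  let ψ : firstIntegrals F →+* integralField F :=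
    { toFun := fun u => ⟨u.1, u.2⟩
      map_one' := rfl
      map_mul' := fun _ _ => rfl
      map_zero' := rfl
      map_add' := fun _ _ => rfl }
  let _ : Algebra (firstIntegrals F) (integralField F) := ψ.toAlgebra
  have _ : IsScalarTower (firstIntegrals F) (integralField F) K :=
    IsScalarTower.of_algebraMap_eq fun _ => rfl
  refine AlgebraicIndependent.restrictScalars (K := integralField F) ?_ h
  intro u v huv
  have h1 : (ψ u : K) = (ψ v : K) := congrArg Subtype.val huv
  exact Subtype.ext h1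

theorem isAlg_of_inj {A B : Type} [CommRing A] [CommRing B] [Algebra A K] [Algebra B K]
    (φ : A →+* B) (hA : Function.Injective (algebraMap A K))
    (hcomp : ∀ a, algebraMap B K (φ a) = algebraMap A K a)
    {g : K} (h : IsAlgebraic A g) : IsAlgebraic B g := by
  have hφ : Function.Injective φ := fun u v huv => hA (by rw [← hcomp, ← hcomp, huv])
  obtain ⟨p, hp0, hp⟩ := h
  refine ⟨p.map φ, (Polynomial.map_ne_zero_iff hφ).mpr hp0, ?_⟩
  have h1 : (algebraMap B K).comp φ = algebraMap A K := RingHom.ext hcomp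
  rw [Polynomial.aeval_def, Polynomial.eval₂_map, h1]
  rw [Polynomial.aeval_def] at hp
  exact hp

theorem alg_ext_gen {R : Type} [CommRing R] [Algebra ℂ R] [Algebra R K] [IsScalarTower ℂ R K]
    {S : Set K} {g : K} (h : IsAlgebraic (Algebra.adjoin ℂ S) g) :
    IsAlgebraic (Algebra.adjoin R S) g := by
  have hle : ∀ u ∈ Algebra.adjoin ℂ S, u ∈ Algebra.adjoin R S := by
    intro u hu
    have h1 : Algebra.adjoin ℂ S ≤ (Algebra.adjoin R S).restrictScalars ℂ := by
      rw [Algebra.adjoin_le_iff]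
      intro s hs
      rw [SetLike.mem_coe, Subalgebra.mem_restrictScalars]
      exact Algebra.subset_adjoin hs
    exact (Subalgebra.mem_restrictScalars ℂ).mp (h1 hu)
  refine isAlg_of_inj (A := Algebra.adjoin ℂ S) (B := Algebra.adjoin R S)
    ((algebraMap (Algebra.adjoin ℂ S) K).codRestrict (Algebra.adjoin R S) fun u => hle u.1 u.2)
    ?_ ?_ h
  · exact FaithfulSMul.algebraMap_injective _ _
  · intro u
    rw [Subalgebra.algebraMap_def]
    rfl

theorem alg_extend {F : Submodule K (Derivation ℂ K K)} {S : Set K} {g : K}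
    (h : IsAlgebraic (Algebra.adjoin ℂ S) g) :
    IsAlgebraic (Algebra.adjoin (firstIntegrals F) S) g := alg_ext_gen h

theorem exists_basis_in {R : Type} [CommRing R] [IsDomain R] [Algebra R K] [FaithfulSMul R K]
    {S : Set K} (hK2 : Algebra.IsAlgebraic (Algebra.adjoin R S) K)
    (d : ℕ) (z : Fin d → K) (hz : AlgebraicIndependent R z) :
    ∃ w : Fin d → K, (∀ i, w i ∈ S) ∧ AlgebraicIndependent R w := by
  classical
  obtain ⟨t, htR, ht⟩ := exists_isTranscendenceBasis_subset (R := R) (A := K) S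
  have h1 : Cardinal.mk (Fin d) ≤ Cardinal.mk t := by
    rw [ht.cardinalMk_eq_trdeg]
    exact hz.cardinalMk_le_trdeg
  obtain ⟨ε⟩ := (Cardinal.le_def _ _).mp h1
  exact ⟨fun i => ((ε i : t) : K), fun i => htR (ε i).2, ht.1.comp _ ε.injective⟩

/-- The transcendence degree over the first integrals. -/
theorem leaves_algebraic {X : Set (Place ℂ K)} {e : Place ℂ K → ℝ}
    {F : Submodule K (Derivation ℂ K K)} [Module.Finite K (Derivation ℂ K K)]
    (himg : ∀ (a d : ℕ) (x : Fin (d + 1) → K), x 0 ≠ 0 →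
      (∀ i, ∀ P ∈ X, Divisorial n P → x i = 0 ∨ -(a * e P) ≤ P.ord (x i)) →
      AlgebraicIndependent (firstIntegrals F) (fun a : Fin d => x a.succ / x 0) →
      LinearIndependent K fun a : Fin d => dd F (x a.succ / x 0))
    (hK1 : Algebra.IsAlgebraic (Algebra.adjoin ℂ (Ratios n X e)) K)
    (d : ℕ) (z : Fin d → K) (hz : AlgebraicIndependent (firstIntegrals F) z) :
    d ≤ Module.finrank K F := by
  classical
  have hK2 : Algebra.IsAlgebraic (Algebra.adjoin (firstIntegrals F) (Ratios n X e)) K :=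
    ⟨fun g => alg_extend (hK1.isAlgebraic g)⟩
  obtain ⟨w, hwR, hwi⟩ := exists_basis_in hK2 d z hz
  obtain ⟨a, x, hx, hxz⟩ := common_denominator (n := n) (X := X) (e := e) w hwR
  have hw : AlgebraicIndependent (firstIntegrals F) fun i : Fin d => x i.succ / x 0 := by
    have h2 : (fun i : Fin d => x i.succ / x 0) = w := funext hxz
    rw [h2]
    exact hwi
  have hli := himg a d x (hx 0).1 (fun i P hPX hP => Or.inr ((hx i).2 P hPX hP)) hw
  have h3 := hli.fintype_card_le_finrank
  rwa [Fintype.card_fin, Subspace.dual_finrank_eq] at h3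

open scoped IntermediateField.algebraAdjoinAdjoin in
/-- If a divisor of an invariant class moves then its Iitaka fibration is invariant, or the leaves are
algebraic. -/
theorem moving_fib2 [Algebra.EssFiniteType ℂ K] (htr : Algebra.trdeg ℂ K = n)
    {X : Set (Place ℂ K)} {δ : Place ℂ K → ℝ}
    {G : Set (K ≃ₐ[ℂ] K)} (hG : ∀ σ ∈ G, MPreserves X δ (fun _ => (0 : ℝ)) σ)
    {e : Place ℂ K → ℝ} (he : InvariantClass n X G e)
    (he0 : ∀ P ∈ X, Divisorial n P → 0 ≤ e P)
    {F : Submodule K (Derivation ℂ K K)} (hF0 : F ≠ ⊥) (hF1 : F ≠ ⊤) (hFG : Invariant G F)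
    (himg : ∀ (a d : ℕ) (x : Fin (d + 1) → K), x 0 ≠ 0 →
      (∀ i, ∀ P ∈ X, Divisorial n P → x i = 0 ∨ -(a * e P) ≤ P.ord (x i)) →
      AlgebraicIndependent (firstIntegrals F) (fun a : Fin d => x a.succ / x 0) →
      LinearIndependent K fun a : Fin d => dd F (x a.succ / x 0))
    {f : K} (hf : Transcendental ℂ f) {a0 : ℕ} (hfa : Sec n X e a0 f) :
    ∃ Z : IntermediateField ℂ K, FibInv G Z ∧
      ((∀ g, g ∈ Z ↔ IsAlgebraic (IntermediateField.adjoin ℂ (Ratios n X e)) g) ∨
        (∀ g, g ∈ Z ↔ ∀ D ∈ F, D g = 0) ∧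
        ∀ (d : ℕ) (z : Fin d → K), AlgebraicIndependent Z z → d ≤ Module.finrank K F) := by
  classical
  let E0 : IntermediateField ℂ K := IntermediateField.adjoin ℂ (Ratios n X e)
  let E : IntermediateField ℂ K := (algebraicClosure E0 K).restrictScalars ℂ
  have hmem : ∀ g : K, g ∈ E ↔ IsAlgebraic E0 g := fun g =>
    mem_algebraicClosure_iff (F := E0) (E := K)
  have hE0E : ∀ g ∈ E0, g ∈ E := fun g hg => (hmem g).mpr (isAlgebraic_algebraMap (⟨g, hg⟩ : E0))
  have halgE : ∀ g : K, IsAlgebraic E g → g ∈ E := by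
    intro g hg
    have h1 : IsAlgebraic (algebraicClosure E0 K) g := hg
    rw [hmem]
    exact h1.restrictScalars E0
  have hfE : f ∈ E := by
    apply hE0E
    refine IntermediateField.subset_adjoin _ _ ⟨a0, f, 1, hfa, ⟨one_ne_zero, fun P hPX hP => ?_⟩,
      (div_one f).symm⟩
    rw [P.ord_one]
    push_cast
    have := mul_nonneg (Nat.cast_nonneg (α := ℝ) a0) (he0 P hPX hP)
    linarith
  by_cases hK : Algebra.IsAlgebraic E K
  · -- the foliation
    have hK0 : Algebra.IsAlgebraic E0 K := ⟨fun g => (hmem g).mp (halgE g (hK.isAlgebraic g))⟩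
    have hK1 : Algebra.IsAlgebraic (Algebra.adjoin ℂ (Ratios n X e)) K :=
      ⟨fun g => (hK0.isAlgebraic g).restrictScalars _⟩
    obtain ⟨x', b', hFr⟩ := exists_fr htr
    have hfin := hFr.finite
    have hbound := leaves_algebraic himg hK1
    refine ⟨integralField F, ⟨?_, ?_, fun g hg => integralField_closed hg, fun σ hσ => ?_⟩,
      Or.inr ⟨fun g => Iff.rfl, fun d z hz => hbound d z (ai_first hz)⟩⟩
    · by_contra hno'
      push Not at hno'
      have halg : Algebra.IsAlgebraic ℂ (firstIntegrals F) := by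
        refine ⟨fun g => ?_⟩
        have h1 : ¬ Transcendental ℂ (g : K) := hno' _ g.2
        rw [Transcendental, not_not] at h1
        exact (isAlgebraic_algHom_iff (firstIntegrals F).val Subtype.val_injective).mp h1
      obtain ⟨s, hs⟩ := exists_isTranscendenceBasis ℂ K
      have hcard := hs.cardinalMk_eq_trdeg
      rw [htr] at hcard
      have h2 : Nonempty (s ≃ Fin n) := by
        rw [← Cardinal.lift_mk_eq'.{0, 0}]
        simpa using hcard
      obtain ⟨ε⟩ := h2
      have hz : AlgebraicIndependent ℂ fun i : Fin n => ((ε.symm i : s) : K) :=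
        hs.1.comp _ ε.symm.injective
      have h3 := hbound n _ (hz.extendScalars (firstIntegrals F))
      have h4 := Submodule.finrank_lt hF1
      rw [hFr.finrank] at h4
      omega
    · intro halg
      apply hF0
      rw [Submodule.eq_bot_iff]
      intro D hD
      ext g
      exact der_alg (S := (integralField F).toSubalgebra) (fun s hs => hs D hD)
        (halg.isAlgebraic g)
    · refine stable_symm htr (integralField F) (fun g hg => integralField_closed hg) σ ?_
      intro g hg D hD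
      have h1 : conj σ D ∈ F := hFG σ hσ D hD _ fun f => by
        rw [conj_apply, AlgEquiv.symm_apply_apply]
      have h2 : conj σ D g = 0 := hg _ h1
      rw [conj_apply] at h2
      exact (map_eq_zero_iff _ σ.injective).mp h2
  · refine ⟨E, ⟨⟨f, hfE, hf⟩, hK, halgE, fun σ hσ => ?_⟩, Or.inl hmem⟩
    refine stable_symm htr E halgE σ ?_
    obtain ⟨N, hN, hNz⟩ := ratios_stable he hσ (hG σ hσ)
    have h0 : ∀ g ∈ E0, σ.symm g ∈ E := by
      have h1 : E0 ≤ E.comap (σ.symm : K →ₐ[ℂ] K) := by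
        refine IntermediateField.adjoin_le_iff.mpr fun z hz => ?_
        change σ.symm z ∈ E
        rw [hmem]
        refine IsAlgebraic.of_pow hN ?_
        exact isAlgebraic_algebraMap
          (⟨_, IntermediateField.subset_adjoin ℂ _ (hNz z hz)⟩ : E0)
      exact fun g hg => h1 hg
    intro g hg
    apply halgE
    exact isAlg_map (S := E0.toSubalgebra) (E := E.toSubalgebra) σ.symm h0 ((hmem g).mp hg)

/-- A rigid invariant divisor, the Iitaka fibration, or algebraic leaves. -/
theorem three_types [Algebra.EssFiniteType ℂ K] (htr : Algebra.trdeg ℂ K = n)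
    {X : Set (Place ℂ K)} {δ : Place ℂ K → ℝ} {G : Set (K ≃ₐ[ℂ] K)}
    (hG : ∀ σ ∈ G, MPreserves X δ (fun _ => (0 : ℝ)) σ) {L : Place ℂ K → ℝ}
    {A : Set (Place ℂ K → ℝ)} (hA : NullGroup n X G L A)
    {e : Place ℂ K → ℝ} (he : InvariantClass n X G e)
    (he0 : ∀ P ∈ X, Divisorial n P → 0 ≤ e P)
    {F : Submodule K (Derivation ℂ K K)} (hF0 : F ≠ ⊥) (hF1 : F ≠ ⊤) (hFG : Invariant G F)
    (himg : ∀ M : Place ℂ K → ℝ, InvariantClass n X G M →
      (∃ c : ℚ, EffMod n X A fun P => c * e P - M P) →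
      ∀ (d : ℕ) (x : Fin (d + 1) → K), x 0 ≠ 0 →
      (∀ i, ∀ P ∈ X, Divisorial n P → x i = 0 ∨ -M P ≤ P.ord (x i)) →
      AlgebraicIndependent (firstIntegrals F) (fun a : Fin d => x a.succ / x 0) →
      LinearIndependent K fun a : Fin d => dd F (x a.succ / x 0)) :
    ((∀ (a : ℕ) (f : K), (∀ P ∈ X, Divisorial n P → -(a * e P) ≤ P.ord f) →
        ∃ c : ℂ, algebraMap ℂ K c = f) ∧
      ∀ σ ∈ G, ∀ P ∈ X, Divisorial n P → ∀ Q ∈ X, Divisorial n Q →
        (∀ f, Q.ord (σ f) = P.ord f) → e Q = e P) ∨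
    ∃ Z : IntermediateField ℂ K, FibInv G Z ∧
      ((∀ g, g ∈ Z ↔ IsAlgebraic (IntermediateField.adjoin ℂ (Ratios n X e)) g) ∨
        (∀ g, g ∈ Z ↔ ∀ D ∈ F, D g = 0) ∧
        ∀ (d : ℕ) (z : Fin d → K), AlgebraicIndependent Z z → d ≤ Module.finrank K F) := by
  by_cases h : ∃ Z : IntermediateField ℂ K, FibInv G Z ∧
      ((∀ g, g ∈ Z ↔ IsAlgebraic (IntermediateField.adjoin ℂ (Ratios n X e)) g) ∨
        (∀ g, g ∈ Z ↔ ∀ D ∈ F, D g = 0) ∧
        ∀ (d : ℕ) (z : Fin d → K), AlgebraicIndependent Z z → d ≤ Module.finrank K F)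
  · exact Or.inr h
  left
  have hrig : ∀ (a : ℕ) (f : K), (∀ P ∈ X, Divisorial n P → -(a * e P) ≤ P.ord f) →
      ∃ c : ℂ, algebraMap ℂ K c = f := by
    intro a f hfa
    by_cases hf0 : f = 0
    · exact ⟨0, by rw [hf0, map_zero]⟩
    have h1 : ¬ Transcendental ℂ f := by
      intro hf
      refine h (moving_fib2 htr hG he he0 hF0 hF1 hFG (fun a d x hx0 hx => ?_) hf
        (a0 := a) ⟨hf0, hfa⟩)
      refine himg (fun P => a * e P) ?_ ⟨a, fun _ => 0, fun _ _ _ => le_rfl, ?_⟩ d x hx0 hx
      · have h2 := inv_comb he he a 0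
        convert h2 using 1
        funext P
        push_cast
        ring
      · have h2 := hA.zero_mem
        convert h2 using 1
        funext P
        push_cast
        ring
    rw [Transcendental, not_not] at h1
    exact minpoly.mem_range_of_degree_eq_one ℂ f
      (IsAlgClosed.degree_eq_one_of_irreducible ℂ (minpoly.irreducible h1.isIntegral))
  exact ⟨hrig, invariant_of_rigid he he0 hrig hG⟩

end

end Pool.Agent.Zk28.TF
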