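import Pool.Agent.Zk28.TF.SP1
import Pool.Agent.Zk28.TF.Prop7
import Pool.Agent.Zk28.TF.EDefs

/-!
Bounds for tensors by the largest slope.
-/

set_option autoImplicit false
set_option linter.unusedSectionVars false

open FF Pool.Agent.W602.GT

namespace Pool.Agent.Zk28.TF

open Pool.Agent.Zk28.TS

section order

variable {K : Type} [Field K] [Algebra ℂ K] {n : ℕ}
  {X : Set (Place ℂ K)} {G : Set (K ≃ₐ[ℂ] K)} {L : Place ℂ K → ℝ} {A C : Set (Place ℂ K → ℝ)}

theorem MaxNullGroup.effMod (hA : MaxNullGroup n X G L A) (hC : StrictCone n X A C)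
    {D : Place ℂ K → ℝ} (hD : InvariantClass n X G D) (h : (fun P => -D P) ∈ C) :
    EffMod n X A D := by
  rcases hA.total D hD with h1 | ⟨E, hE, h1⟩ | ⟨E, hE, h1⟩
  · refine ⟨fun _ => 0, fun _ _ _ => le_rfl, ?_⟩
    convert h1 using 1
    funext P
    ring
  · exact ⟨E, hE.1, h1⟩
  · exfalso
    apply hC.strict E hE
    have h3 := hC.cone.add _ h _ (hC.sub h1)
    convert h3 using 1
    funext P
    rw [Pi.add_apply]
    ring

theorem EffMod.neg_mem (hA : NullGroup n X G L A) (hC : StrictCone n X A C)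
    {D : Place ℂ K → ℝ} (h : EffMod n X A D) : (fun P => -D P) ∈ C := by
  obtain ⟨E, hE, h⟩ := h
  have h1 : -E ∈ C := by
    refine hC.eff ⟨1, Nat.one_pos, 1, one_ne_zero, fun P hPX hP => ?_⟩
    rw [P.ord_one, Pi.neg_apply]
    push_cast
    linarith [hE P hPX hP]
  have h2 := hC.cone.add _ h1 _ (hA.neg_mem_cone hC h)
  convert h2 using 1
  funext P
  rw [Pi.add_apply, Pi.neg_apply, Pi.neg_apply]
  ring

end order

section bound

variable {K : Type} [Field K] [Algebra ℂ K] {n : ℕ}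
  {X : Set (Place ℂ K)} {δ : Place ℂ K → ℝ} {G : Set (K ≃ₐ[ℂ] K)}
  [Algebra.EssFiniteType ℂ K] [Module.Finite K (Derivation ℂ K K)]
  {C : Set (Place ℂ K → ℝ)}

/-- The relation of a leafwise tensor with values in an invariant class. -/
theorem tensor_rel0 (hn : 1 ≤ n) (htr : Algebra.trdeg ℂ K = n)
    (hδ : ∀ P ∈ X, 0 ≤ δ P ∧ δ P ≤ 1)
    (hG : ∀ g ∈ G, MPreserves X δ (fun _ => (0 : ℝ)) g)
    {V : Submodule K (Derivation ℂ K K)} (hV : InvSub G V)
    {m : ℕ} (hm : 0 < m) {γ : Place ℂ K → ℝ} (hγ : InvariantClass n X G γ)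
    {u : MultilinearMap K (fun _ : Fin m => V) (AlgebraicClosure K)}
    (hu : LeafAdapted n X δ γ V u) (hu0 : u ≠ 0) :
    ∃ (M : ℕ) (W : ℕ → Submodule K (Derivation ℂ K K)),
      0 < M ∧ (∀ t, InvSub G (W t)) ∧ (∀ t, W t ≤ V) ∧ W 0 ≠ V ∧
      Eff n X fun P => m * ∑ t ∈ Finset.range M, (vs δ V P - vs δ (W t) P) -
        (∑ t ∈ Finset.range M, ((Module.finrank K V : ℝ) - Module.finrank K (W t))) * γ P := by
  classical
  have hmR : (0 : ℝ) < m := by exact_mod_cast hm
  have hnR : (0 : ℝ) < n := by exact_mod_cast hn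
  have hfun : (fun P => (m : ℝ) / n * ((n : ℝ) / m * γ P)) = γ := by
    funext P
    field_simp
  obtain ⟨M, W, hM, hW, hWV, hW0, hrel⟩ := rel_tensor htr hδ
    (β := fun P => (n : ℝ) / m * γ P) hV hm (by
      intro σ hσ s' hs' u hu
      rw [hfun] at hs' ⊢
      exact pull_inv hγ hσ (hG σ hσ) (hV σ hσ) hs' hu)
    (s1 := u) (by rw [hfun]; exact hu) hu0
  refine ⟨M, W, hM, hW, hWV, hW0, ?_⟩
  have h2 := isCone_eff.nsmul m hrel
  change Eff n X _ at h2
  convert h2 using 1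
  funext P
  rw [Pi.smul_apply, nsmul_eq_mul, Finset.sum_apply]
  have h1 : ∀ t, (hh n δ (fun P => (n : ℝ) / m * γ P) V -
      hh n δ (fun P => (n : ℝ) / m * γ P) (W t)) P =
      vs δ V P - vs δ (W t) P - ((Module.finrank K V : ℝ) - Module.finrank K (W t)) *
        (γ P / m) := by
    intro t
    rw [Pi.sub_apply]
    unfold hh
    field_simp
    ring
  rw [Finset.sum_congr rfl fun t _ => h1 t, Finset.sum_sub_distrib (f := fun t =>
    vs δ V P - vs δ (W t) P), ← Finset.sum_mul]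
  field_simp

/-- The classes of the values of tensors are bounded below by the largest slope. -/
theorem tensor_bound (hn : 1 ≤ n) (htr : Algebra.trdeg ℂ K = n)
    (hδ : ∀ P ∈ X, 0 ≤ δ P ∧ δ P ≤ 1)
    (hG : ∀ g ∈ G, MPreserves X δ (fun _ => (0 : ℝ)) g) (hC : IsCone C)
    (hEC : {f | Eff n X f} ⊆ C) {s : Place ℂ K → ℝ} (hsn : -s ∈ C)
    (hs : ∀ W, InvSub G W → (fun P => vs δ W P - Module.finrank K W * s P) ∈ C)
    (htop : (fun P => -vs δ ⊤ P) ∈ C)
    {p : ℕ} (hp : 0 < p) {γ : Place ℂ K → ℝ} (hγ : InvariantClass n X G γ)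
    {t : MTensor K (Fin p)} (ht : MAdapted n X δ γ t) (ht0 : t ≠ 0) :
    (fun P => -(γ P + p * (n - 1) * s P)) ∈ C := by
  classical
  obtain ⟨x, b, hF⟩ := exists_fr htr
  obtain ⟨s0, hs0d⟩ : ∃ s0 : MultilinearMap K (fun _ : Fin p =>
      (⊤ : Submodule K (Derivation ℂ K K))) (AlgebraicClosure K),
      s0 = t.compLinearMap fun _ => (⊤ : Submodule K (Derivation ℂ K K)).subtype := ⟨_, rfl⟩
  have hs0 : LeafAdapted n X δ γ ⊤ s0 := by
    intro P hPX hP D hD
    rw [hs0d]
    exact ht P hPX hP (fun a => (D a : Derivation ℂ K K)) hD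
  have hs0' : s0 ≠ 0 := by
    intro h0
    apply ht0
    ext D
    have h1 := congrArg (fun t => t fun a => (⟨D a, Submodule.mem_top⟩ :
      (⊤ : Submodule K (Derivation ℂ K K)))) h0
    rw [hs0d] at h1
    exact h1
  obtain ⟨M, W, hM, hW, -, hW0, hrel⟩ := tensor_rel0 hn htr hδ hG
    (V := ⊤) (fun _ _ _ _ => Submodule.mem_top) hp hγ hs0 hs0'
  have hrk : Module.finrank K (⊤ : Submodule K (Derivation ℂ K K)) = n := by
    rw [finrank_top, hF.finrank]
  rw [hrk] at hrel
  obtain ⟨a, ha⟩ : ∃ a : ℕ → ℕ, a = fun i => n - Module.finrank K (W i) := ⟨_, rfl⟩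
  have hle : ∀ i, Module.finrank K (W i) ≤ n := fun i => by
    have h1 := Submodule.finrank_le (W i)
    rwa [hF.finrank] at h1
  have haR : ∀ i, (a i : ℝ) = (n : ℝ) - Module.finrank K (W i) := by
    intro i
    rw [ha, Nat.cast_sub (hle i)]
  have hone : ∀ i, (fun P => vs δ (W i) P - vs δ ⊤ P - a i * (n - 1) * s P) ∈ C := by
    intro i
    by_cases hi : W i = ⊤
    · have h1 : a i = 0 := by
        rw [ha]
        beta_reduce
        rw [hi, hrk, Nat.sub_self]
      convert hC.zero using 1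
      funext P
      rw [h1, hi, Pi.zero_apply]
      push_cast
      ring
    · have h1 : Module.finrank K (W i) < n := by
        have h2 := Submodule.finrank_lt hi
        rwa [hF.finrank] at h2
      have h2 : 1 ≤ a i := by
        rw [ha]
        beta_reduce
        omega
      have h3 : Module.finrank K (W i) ≤ a i * (n - 1) := by
        have h4 : 1 * (n - 1) ≤ a i * (n - 1) := Nat.mul_le_mul_right _ h2
        omega
      have h4 := hC.add _ (hC.add _ (hs (W i) (hW i)) _ htop) _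
        (hC.nsmul (a i * (n - 1) - Module.finrank K (W i)) hsn)
      convert h4 using 1
      funext P
      rw [Pi.add_apply, Pi.add_apply, Pi.smul_apply, Pi.neg_apply, nsmul_eq_mul,
        Nat.cast_sub h3, Nat.cast_mul, Nat.cast_sub hn]
      push_cast
      ring
  have hA : 0 < ∑ i ∈ Finset.range M, a i := by
    refine Finset.sum_pos' (fun i _ => Nat.zero_le _) ⟨0, Finset.mem_range.mpr hM, ?_⟩
    have h2 := Submodule.finrank_lt hW0
    rw [hF.finrank] at h2
    rw [ha]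
    beta_reduce
    omega
  have hAR : (0 : ℝ) < ∑ i ∈ Finset.range M, (a i : ℝ) := by exact_mod_cast hA
  have h1 := hC.nsmul p (hC.sum (Finset.range M) (f := fun i P => vs δ (W i) P - vs δ ⊤ P -
    a i * (n - 1) * s P) fun i _ => hone i)
  have h2 := hC.rat (hC.add _ (hEC hrel) _ h1) (q := ((∑ i ∈ Finset.range M, a i : ℕ) : ℚ)⁻¹)
    (by positivity)
  convert h2 using 1
  funext P
  rw [Pi.add_apply, Pi.smul_apply, Finset.sum_apply, nsmul_eq_mul]
  simp only [← haR]
  have h3 : ∑ i ∈ Finset.range M, (vs δ (W i) P - vs δ ⊤ P - a i * (n - 1) * s P) =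
      -∑ i ∈ Finset.range M, (vs δ ⊤ P - vs δ (W i) P) -
        (∑ i ∈ Finset.range M, (a i : ℝ)) * ((n - 1) * s P) := by
    rw [Finset.sum_mul, ← Finset.sum_neg_distrib, ← Finset.sum_sub_distrib]
    refine Finset.sum_congr rfl fun i _ => ?_
    ring
  rw [h3]
  push_cast
  field_simp
  ring

/-- The classes of the values of leafwise tensors on a semistable distribution of slope zero. -/
theorem tensor_nonneg (hn : 1 ≤ n) (htr : Algebra.trdeg ℂ K = n)
    (hδ : ∀ P ∈ X, 0 ≤ δ P ∧ δ P ≤ 1)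
    (hG : ∀ g ∈ G, MPreserves X δ (fun _ => (0 : ℝ)) g) (hC : IsCone C)
    (hEC : {f | Eff n X f} ⊆ C) (hs : ∀ W, InvSub G W → vs δ W ∈ C)
    {V : Submodule K (Derivation ℂ K K)} (hV : InvSub G V) (hVC : -vs δ V ∈ C)
    {m : ℕ} (hm : 0 < m) {γ : Place ℂ K → ℝ} (hγ : InvariantClass n X G γ)
    {u : MultilinearMap K (fun _ : Fin m => V) (AlgebraicClosure K)}
    (hu : LeafAdapted n X δ γ V u) (hu0 : u ≠ 0) :
    (fun P => -γ P) ∈ C := by
  classical
  obtain ⟨M, W, hM, hW, hWV, hW0, hrel⟩ := tensor_rel0 hn htr hδ hG hV hm hγ hu hu0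
  obtain ⟨a, ha⟩ : ∃ a : ℕ, a = ∑ t ∈ Finset.range M,
    (Module.finrank K V - Module.finrank K (W t)) := ⟨_, rfl⟩
  have hapos : 0 < a := by
    rw [ha]
    refine Finset.sum_pos' (fun t _ => Nat.zero_le _) ⟨0, Finset.mem_range.mpr hM, ?_⟩
    have h1 := Submodule.finrank_lt_finrank_of_lt (lt_of_le_of_ne (hWV 0) hW0)
    omega
  have haR : (a : ℝ) = ∑ t ∈ Finset.range M,
      ((Module.finrank K V : ℝ) - Module.finrank K (W t)) := by
    rw [ha, Nat.cast_sum]
    refine Finset.sum_congr rfl fun t _ => ?_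
    rw [Nat.cast_sub (Submodule.finrank_mono (hWV t))]
  have haq : (0 : ℚ) < a := by exact_mod_cast hapos
  have ha0 : (a : ℝ) ≠ 0 := by exact_mod_cast hapos.ne'
  rw [← haR] at hrel
  have h1 := hC.nsmul m (hC.sum (Finset.range M) (f := fun t => vs δ (W t)) fun t _ => hs _ (hW t))
  have h2 := hC.nsmul (m * M) hVC
  have h3 := hC.rat (hC.add _ (hC.add _ (hEC hrel) _ h1) _ h2) (q := (a : ℚ)⁻¹)
    (inv_nonneg.mpr haq.le)
  convert h3 using 1
  funext P
  rw [Pi.add_apply, Pi.add_apply, Pi.smul_apply, Pi.smul_apply, Finset.sum_apply, Pi.neg_apply,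
    nsmul_eq_mul, nsmul_eq_mul, Finset.sum_sub_distrib, Finset.sum_const, Finset.card_range,
    nsmul_eq_mul]
  push_cast
  field_simp
  ring

end bound

end Pool.Agent.Zk28.TF
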