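import Pool.Agent.Zk25.TF.ZN

/-!
Extension of a group of classes to a maximal one (after helper25's file ZN).
-/

set_option autoImplicit false
set_option linter.unusedSectionVars false

open FF Pool.Agent.W602.GT

namespace Pool.Agent.Zk28.TF

open Pool.Agent.Zk28.TS Pool.Agent.Zk25.TF

section

variable {K : Type} [Field K] [Algebra ℂ K] {n : ℕ}

/-- Every group of classes without effective classes is contained in a maximal one. -/
theorem NullGroup.exists_max {X : Set (Place ℂ K)} {G : Set (K ≃ₐ[ℂ] K)} {L : Place ℂ K → ℝ}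
    {A₀ : Set (Place ℂ K → ℝ)} (hA₀ : NullGroup n X G L A₀) :
    ∃ A, A₀ ⊆ A ∧ MaxNullGroup n X G L A := by
  obtain ⟨A, hA₀A, hmax⟩ := zorn_subset_nonempty {A : Set (Place ℂ K → ℝ) | NullGroup n X G L A} (by
    intro c hc hchain hne
    refine ⟨⋃₀ c, ⟨?_, ?_, ?_, ?_, ?_, ?_⟩, fun s hs => Set.subset_sUnion_of_mem hs⟩
    · obtain ⟨s, hs⟩ := hne
      exact ⟨s, hs, (hc hs).mem⟩
    · rintro x ⟨s, hs, hxs⟩ y ⟨t, ht, hyt⟩
      rcases hchain.total hs ht with h | h
      · exact ⟨t, ht, (hc ht).add x (h hxs) y hyt⟩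
      · exact ⟨s, hs, (hc hs).add x hxs y (h hyt)⟩
    · rintro x ⟨s, hs, hxs⟩ q
      exact ⟨s, hs, (hc hs).rat x hxs q⟩
    · rintro x ⟨s, hs, hxs⟩ y hxy
      exact ⟨s, hs, (hc hs).equiv x hxs y hxy⟩
    · rintro x ⟨s, hs, hxs⟩
      exact (hc hs).inv x hxs
    · rintro x ⟨s, hs, hxs⟩
      exact (hc hs).null x hxs) _ hA₀
  obtain ⟨hA, hmax'⟩ := hmax
  replace hA : NullGroup n X G L A := hA
  refine ⟨A, hA₀A, hA, fun D hD => ?_⟩
  by_cases hDA : D ∈ A
  · exact Or.inl hDA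
  right
  by_contra hno'
  rw [not_or] at hno'
  obtain ⟨hno1, hno2⟩ := hno'
  have hnull : ∀ F, (∃ a ∈ A, ∃ q : ℚ, QEquiv n X F (fun P => a P + q * D P)) →
      ¬ PosDiv n X F := by
    rintro F ⟨a, ha, q, hF⟩ ⟨hpos, P0, hP0X, hP0, hF0⟩
    rcases lt_trichotomy q 0 with hq | hq | hq
    · apply hno2
      have hqR : (q : ℝ) < 0 := by exact_mod_cast hq
      have hqq : (q : ℝ) * (q : ℝ)⁻¹ = 1 := mul_inv_cancel₀ hqR.ne
      have hq' : (0 : ℝ) < ((-q⁻¹ : ℚ) : ℝ) := by
        push_cast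
        have := inv_lt_zero.mpr hqR
        linarith
      refine ⟨fun P => ((-q⁻¹ : ℚ) : ℝ) * F P, ⟨fun P hPX hP => mul_nonneg hq'.le (hpos P hPX hP),
        P0, hP0X, hP0, mul_pos hq' hF0⟩, ?_⟩
      refine hA.equiv (fun P => ((-q⁻¹ : ℚ) : ℝ) * a P) (hA.rat a ha _) _ ?_
      have h1 := qe_add (qe_rat (qe_symm hF) (-q⁻¹)) (qe_refl (n := n) (X := X) D)
      convert h1 using 1
      · funext P
        push_cast
        linear_combination (D P) * hqq
      · funext P
        push_cast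
        ring
    · subst hq
      refine hA.null F ?_ ⟨hpos, P0, hP0X, hP0, hF0⟩
      refine hA.equiv a ha F (qe_symm ?_)
      convert hF using 1
      funext P
      push_cast
      ring
    · apply hno1
      have hqR : (0 : ℝ) < (q : ℝ) := by exact_mod_cast hq
      have hqq : (q : ℝ) * (q : ℝ)⁻¹ = 1 := mul_inv_cancel₀ hqR.ne'
      have hq' : (0 : ℝ) < ((q⁻¹ : ℚ) : ℝ) := by
        push_cast
        exact inv_pos.mpr hqR
      refine ⟨fun P => ((q⁻¹ : ℚ) : ℝ) * F P, ⟨fun P hPX hP => mul_nonneg hq'.le (hpos P hPX hP),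
        P0, hP0X, hP0, mul_pos hq' hF0⟩, ?_⟩
      refine hA.equiv (fun P => ((-q⁻¹ : ℚ) : ℝ) * a P) (hA.rat a ha _) _ ?_
      have h1 := qe_add (qe_rat (qe_symm hF) (-q⁻¹)) (qe_refl (n := n) (X := X) D)
      convert h1 using 1
      · funext P
        push_cast
        linear_combination (D P) * hqq
      · funext P
        push_cast
        ring
  have hB := span_group hA hD hnull
  have h1 : A ⊆ {F | ∃ a ∈ A, ∃ q : ℚ, QEquiv n X F (fun P => a P + q * D P)} := by
    intro F hF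
    refine ⟨F, hF, 0, ?_⟩
    convert qe_refl (n := n) (X := X) F using 1
    funext P
    push_cast
    ring
  have h2 := hmax' hB h1
  apply hDA
  apply h2
  refine ⟨fun P => ((0 : ℚ) : ℝ) * L P, hA.rat L hA.mem 0, 1, ?_⟩
  convert qe_refl (n := n) (X := X) D using 1
  funext P
  push_cast
  ring

end

end Pool.Agent.Zk28.TF
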