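import Pool.Agent.Zk28.TF.SP2
import Pool.Agent.Zk25.TF.InvVs
import Pool.Agent.Zk28.TF.ZX
import Pool.Agent.Zk28.TF.Alg

/-!
The dichotomy for a maximal group of classes.
-/

set_option autoImplicit false
set_option linter.unusedSectionVars false

open FF Pool.Agent.W602.GT

namespace Pool.Agent.Zk28.TF

open Pool.Agent.Zk28.TS

section

variable {K : Type} [Field K] [Algebra ℂ K] {n : ℕ}
  {X : Set (Place ℂ K)} {δ : Place ℂ K → ℝ} {k : Place ℂ K → ℤ} {G : Set (K ≃ₐ[ℂ] K)}
  {A C : Set (Place ℂ K → ℝ)}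

theorem InvariantClass.congr' {D D' : Place ℂ K → ℝ} (h : InvariantClass n X G D)
    (hD : ∀ P ∈ X, Divisorial n P → D P = D' P) : InvariantClass n X G D' := by
  intro σ hσ
  obtain ⟨N, hN, z, hz, h1⟩ := h σ hσ
  refine ⟨N, hN, z, hz, fun P hPX hP Q hQX hQ hPQ => ?_⟩
  rw [← hD P hPX hP, ← hD Q hQX hQ]
  exact h1 P hPX hP Q hQX hQ hPQ

theorem NullGroup.congr {L : Place ℂ K → ℝ} (hA : NullGroup n X G L A) {D D' : Place ℂ K → ℝ}
    (h : D ∈ A) {z : K} (hz : z ≠ 0)
    (hD : ∀ P ∈ X, Divisorial n P → D' P = D P + P.ord z) : D' ∈ A := by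
  refine hA.equiv D h D' ⟨1, z⁻¹, Nat.one_pos, inv_ne_zero hz, fun P hPX hP => ?_⟩
  rw [hD P hPX hP, P.ord_inv]
  push_cast
  ring

theorem cone_congr (hC : IsCone C) (hEC : {f | Eff n X f} ⊆ C) {D D' : Place ℂ K → ℝ}
    (h : D ∈ C) {z : K} (hz : z ≠ 0)
    (hD : ∀ P ∈ X, Divisorial n P → D' P = D P + P.ord z) : D' ∈ C := by
  have h1 : D' - D ∈ C := hEC ⟨1, Nat.one_pos, z, hz, fun P hPX hP => by
    rw [Pi.sub_apply, hD P hPX hP]
    push_cast
    refine le_of_eq ?_
    ring⟩
  have h2 := hC.add _ h1 _ h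
  rwa [sub_add_cancel] at h2

/-- a class which is effective and anti-effective modulo `A` -/
theorem NullGroup.equiv_of_eff {L : Place ℂ K → ℝ} (hA : NullGroup n X G L A)
    {D : Place ℂ K → ℝ} (hD : D ∈ A) (h : Eff n X D) : QEquiv n X D fun _ => 0 := by
  obtain ⟨N, hN, z, hz, h⟩ := h
  have hNR : (0 : ℝ) < N := by exact_mod_cast hN
  have hle : ∀ P ∈ X, Divisorial n P → 0 ≤ P.ord z / N - D P := by
    intro P hPX hP
    have h5 := h P hPX hP
    have h6 : D P ≤ P.ord z / N := by
      rw [le_div_iff₀ hNR, mul_comm]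
      exact h5
    linarith
  refine ⟨N, z, hN, hz, fun P hPX hP => ?_⟩
  by_contra hne
  have h5 : (fun P => P.ord z / N - D P) ∈ A := by
    refine hA.equiv _ (hA.rat _ hD (-1)) _ ⟨N, z⁻¹, hN, inv_ne_zero hz, fun P hPX hP => ?_⟩
    rw [P.ord_inv]
    push_cast
    field_simp
    ring
  refine hA.null _ h5 ⟨hle, P, hPX, hP, lt_of_le_of_ne (hle P hPX hP) fun h0 => hne ?_⟩
  rw [sub_zero]
  have h6 : D P = P.ord z / N := by linarith
  rw [h6]
  field_simp

/-- **Stability.** Tensors with values in `A`. -/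
theorem stable_or [Algebra.EssFiniteType ℂ K] [Module.Finite K (Derivation ℂ K K)]
    (hn : 1 ≤ n) (htr : Algebra.trdeg ℂ K = n) (hδ : ∀ P ∈ X, 0 ≤ δ P ∧ δ P ≤ 1)
    {ω : (Fin n → Derivation ℂ K K) → K} (hω : IsPluri 1 ω) (hω0 : ∃ D, ω D ≠ 0)
    (hk : DivOf n X ω k) (hG : ∀ g ∈ G, MPreserves X δ (fun _ => (0 : ℝ)) g)
    (hA : NullGroup n X G (fun P => k P + δ P) A) (hC : StrictCone n X A C)
    (hpos : ∀ W : Submodule K (Derivation ℂ K K), InvSub G W → vs δ W ∈ C)
    (hinv : ∀ W : Submodule K (Derivation ℂ K K), InvSub G W → InvariantClass n X G (vs δ W))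
    (hof : ∀ {D : Place ℂ K → ℝ}, InvariantClass n X G D → D ∈ C →
      D ∈ A ∨ ∃ E, PosDiv n X E ∧ (fun P => D P + E P) ∈ A)
    {p : ℕ} (hp : 0 < p) {γ : Place ℂ K → ℝ} (hγA : γ ∈ A) {t : MTensor K (Fin p)}
    (ht : MAdapted n X δ γ t) (ht0 : t ≠ 0) :
      QEquiv n X (fun P => n * γ P) (fun P => -(p * (k P + δ P))) ∨
      ∃ (W : Submodule K (Derivation ℂ K K)) (κ : Place ℂ K → ℝ), W ≠ ⊥ ∧ W ≠ ⊤ ∧
        Invariant G W ∧ CanonicalDivisor n X δ W κ ∧ κ ∈ A := by
  classical
  obtain ⟨x, b, hF⟩ := exists_fr htr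
  have hcone := hC.cone
  have hEC := hC.eff
  obtain ⟨ytop, hytop, hvt⟩ := vs_top htr hδ hω hω0 hk
  have htopA : vs δ (⊤ : Submodule K (Derivation ℂ K K)) ∈ A := by
    refine hA.congr (hA.rat _ hA.mem (-1)) hytop fun P hPX hP => ?_
    rw [hvt P hPX hP]
    push_cast
    ring
  obtain ⟨s0, hs0d⟩ : ∃ s0 : MultilinearMap K (fun _ : Fin p =>
      (⊤ : Submodule K (Derivation ℂ K K))) (AlgebraicClosure K),
      s0 = t.compLinearMap fun _ => (⊤ : Submodule K (Derivation ℂ K K)).subtype := ⟨_, rfl⟩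
  have hs0 : LeafAdapted n X δ γ ⊤ s0 := by
    intro P hPX hP D hD
    rw [hs0d]
    exact ht P hPX hP (fun a => (D a : Derivation ℂ K K)) hD
  have hs0' : s0 ≠ 0 := by
    intro h0
    apply ht0
    ext D
    have h1 := congrArg (fun t => t fun a => (⟨D a, Submodule.mem_top⟩ :
      (⊤ : Submodule K (Derivation ℂ K K)))) h0
    rw [hs0d] at h1
    exact h1
  obtain ⟨M, W, hM, hW, -, hW0, hrel⟩ := tensor_rel0 hn htr hδ hG
    (V := ⊤) (fun _ _ _ _ => Submodule.mem_top) hp (hA.inv _ hγA) hs0 hs0'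
  have hrk : Module.finrank K (⊤ : Submodule K (Derivation ℂ K K)) = n := by
    rw [finrank_top, hF.finrank]
  rw [hrk] at hrel
  obtain ⟨c, hc⟩ : ∃ c : ℚ, c = ∑ i ∈ Finset.range M, ((n : ℚ) - Module.finrank K (W i)) :=
    ⟨_, rfl⟩
  have hcR : (c : ℝ) = ∑ i ∈ Finset.range M, ((n : ℝ) - Module.finrank K (W i)) := by
    rw [hc]
    push_cast
    rfl
  rw [← hcR] at hrel
  -- the determinants of the distributions in the relation are in `A`
  have hWA : ∀ i < M, vs δ (W i) ∈ A := by
    intro i hi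
    rcases hof (hinv _ (hW i)) (hpos _ (hW i)) with h3 | ⟨E, hE, h3⟩
    · exact h3
    · exfalso
      have hpq : (0 : ℚ) < p := by exact_mod_cast hp
      have hpR : (p : ℝ) ≠ 0 := by exact_mod_cast hp.ne'
      apply hC.strict E hE
      have h4 := hcone.nsmul p (hcone.sum ((Finset.range M).erase i) (f := fun t => vs δ (W t))
        fun t _ => hpos _ (hW t))
      have h5 := hA.neg_mem_cone hC (hA.rat _ htopA (p * M))
      have h6 := hC.sub (hA.rat _ hγA c)
      have h7 := hcone.add _ (hcone.add _ (hcone.add _ (hEC hrel) _ h4) _ h5) _ h6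
      have h8 := hcone.add _ (hcone.rat h7 (q := (p : ℚ)⁻¹) (inv_nonneg.mpr hpq.le)) _
        (hC.sub h3)
      convert h8 using 1
      funext P
      have h9 : ∑ t ∈ Finset.range M, vs δ (W t) P =
          vs δ (W i) P + ∑ t ∈ (Finset.range M).erase i, vs δ (W t) P :=
        (Finset.add_sum_erase _ _ (Finset.mem_range.mpr hi)).symm
      rw [Pi.add_apply, Pi.add_apply, Pi.add_apply, Pi.add_apply, Pi.smul_apply, Finset.sum_apply,
        Pi.neg_apply, nsmul_eq_mul, Finset.sum_sub_distrib, Finset.sum_const, Finset.card_range,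
        nsmul_eq_mul, h9]
      push_cast
      field_simp
      ring
  by_cases hprop : ∃ i < M, W i ≠ ⊥ ∧ W i ≠ ⊤
  · right
    obtain ⟨i, hi, h1, h2⟩ := hprop
    obtain ⟨θ0, hθ0, hθd⟩ := leafDiv htr hδ (W i)
    refine ⟨W i, fun P => -vs δ (W i) P, h1, h2, invariant_iff.mpr (hW i), ⟨θ0, hθ0, hθd⟩, ?_⟩
    have h3 := hA.rat _ (hWA i hi) (-1)
    convert h3 using 1
    funext P
    push_cast
    ring
  · left
    push Not at hprop
    obtain ⟨b0, hb0⟩ : ∃ b0 : ℕ, b0 = ((Finset.range M).filter fun i => W i = ⊥).card :=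
      ⟨_, rfl⟩
    have hb0pos : 0 < b0 := by
      rw [hb0, Finset.card_pos]
      refine ⟨0, Finset.mem_filter.mpr ⟨Finset.mem_range.mpr hM, ?_⟩⟩
      by_contra hne
      exact hW0 (hprop 0 hM hne)
    -- the determinant of the zero distribution
    obtain ⟨ybot, hybot, hvb⟩ : ∃ y : K, y ≠ 0 ∧ ∀ P ∈ X, Divisorial n P →
        vs δ (⊥ : Submodule K (Derivation ℂ K K)) P = P.ord y := by
      obtain ⟨y, hy, h3⟩ := vs_tuple htr hδ (⊥ : Submodule K (Derivation ℂ K K))
        (b := (fun i => i.elim0 : Fin 0 → Derivation ℂ K K)) linearIndependent_empty_type (by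
          rw [Set.range_eq_empty, Submodule.span_empty])
      refine ⟨y⁻¹, inv_ne_zero hy, fun P hPX hP => ?_⟩
      have h4 := h3 P hPX hP
      obtain ⟨A', hA'⟩ := exists_tri' htr hP
        (b := (fun i => i.elim0 : Fin 0 → Derivation ℂ K K)) linearIndependent_empty_type
      rw [vol_eq (hδ P hPX) hA', Finset.univ_eq_empty, Finset.sum_empty] at h4
      rw [P.ord_inv]
      push_cast
      linarith
    have hterm : ∀ i ∈ Finset.range M, (vs δ (⊤ : Submodule K (Derivation ℂ K K)) - vs δ (W i) :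
        Place ℂ K → ℝ) = if W i = ⊥ then (vs δ (⊤ : Submodule K (Derivation ℂ K K)) -
          vs δ (⊥ : Submodule K (Derivation ℂ K K)) : Place ℂ K → ℝ) else 0 := by
      intro i hi
      split_ifs with h1
      · rw [h1]
      · rw [hprop i (Finset.mem_range.mp hi) h1, sub_self]
    have hsum : ∀ P, ∑ i ∈ Finset.range M, (vs δ ⊤ P - vs δ (W i) P) =
        b0 * (vs δ ⊤ P - vs δ ⊥ P) := by
      intro P
      have h1 : ∀ i ∈ Finset.range M, vs δ ⊤ P - vs δ (W i) P =
          if W i = ⊥ then vs δ ⊤ P - vs δ ⊥ P else 0 := by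
        intro i hi
        have h2 := congrFun (hterm i hi) P
        rw [Pi.sub_apply] at h2
        rw [h2]
        split_ifs
        · rfl
        · rfl
      rw [Finset.sum_congr rfl h1, ← Finset.sum_filter, Finset.sum_const, ← hb0, nsmul_eq_mul]
    have hcb : (c : ℝ) = b0 * n := by
      have h1 : ∀ i ∈ Finset.range M, (n : ℝ) - Module.finrank K (W i) =
          if W i = ⊥ then (n : ℝ) else 0 := by
        intro i hi
        split_ifs with h1
        · rw [h1, finrank_bot]
          push_cast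
          ring
        · rw [hprop i (Finset.mem_range.mp hi) h1, hrk, sub_self]
      rw [hcR, Finset.sum_congr rfl h1, ← Finset.sum_filter, Finset.sum_const, ← hb0, nsmul_eq_mul]
    have hDA : (fun P => p * (b0 * (vs δ ⊤ P - P.ord ybot)) - c * γ P) ∈ A := by
      have h1 := hA.add _ (hA.rat _ htopA (p * b0)) _ (hA.rat _ hγA (-c))
      refine hA.congr h1 (z := ybot ^ (-(p * b0 : ℤ))) (zpow_ne_zero _ hybot) fun P hPX hP => ?_
      rw [P.ord_zpow]
      push_cast
      ring
    have hDE : Eff n X fun P => p * (b0 * (vs δ ⊤ P - P.ord ybot)) - c * γ P := by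
      obtain ⟨N, hN, z, hz, h⟩ := hrel
      refine ⟨N, hN, z, hz, fun P hPX hP => ?_⟩
      have h1 := h P hPX hP
      beta_reduce at h1
      rw [hsum P, hvb P hPX hP] at h1
      exact h1
    obtain ⟨N, z, hN, hz, h⟩ := hA.equiv_of_eff hDA hDE
    -- conclusion
    refine ⟨N * b0, z⁻¹ * (ytop / ybot) ^ (N * p * b0), Nat.mul_pos hN hb0pos,
      mul_ne_zero (inv_ne_zero hz) (pow_ne_zero _ (div_ne_zero hytop hybot)),
      fun P hPX hP => ?_⟩
    have h1 := h P hPX hP
    beta_reduce at h1 ⊢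
    rw [P.ord_mul (inv_ne_zero hz) (pow_ne_zero _ (div_ne_zero hytop hybot)), P.ord_inv,
      P.ord_pow, P.ord_div hytop hybot]
    rw [hvt P hPX hP, hcb] at h1
    push_cast
    rw [← h1]
    ring

variable [Algebra.EssFiniteType ℂ K] [Module.Finite K (Derivation ℂ K K)]

/-- **The dichotomy.** -/
theorem dichotomy (hn : 1 ≤ n) (htr : Algebra.trdeg ℂ K = n) (hδ : ∀ P ∈ X, 0 ≤ δ P ∧ δ P ≤ 1)
    {ω : (Fin n → Derivation ℂ K K) → K} (hω : IsPluri 1 ω) (hω0 : ∃ D, ω D ≠ 0)
    (hk : DivOf n X ω k) (hG : ∀ g ∈ G, MPreserves X δ (fun _ => (0 : ℝ)) g)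
    (hA : MaxNullGroup n X G (fun P => k P + δ P) A) :
    (∃ (F : Submodule K (Derivation ℂ K K)) (κ E : Place ℂ K → ℝ), F ≠ ⊥ ∧ F ≠ ⊤ ∧
      (∀ D ∈ F, ∀ E ∈ F, ⁅D, E⁆ ∈ F) ∧ Invariant G F ∧ CanonicalDivisor n X δ F κ ∧
      PosDiv n X E ∧ InvariantClass n X G E ∧ (fun P => κ P + E P) ∈ A ∧
      (∀ (W : Submodule K (Derivation ℂ K K)) (κ' : Place ℂ K → ℝ), Invariant G W →
        CanonicalDivisor n X δ W κ' →
        EffMod n X A fun P => κ' P + Module.finrank K W / Module.finrank K F * E P) ∧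
      (∀ m : ℕ, 0 < m → ∀ γ : Place ℂ K → ℝ, InvariantClass n X G γ →
        ∀ s : MultilinearMap K (fun _ : Fin m => F) (AlgebraicClosure K), s ≠ 0 →
          LeafAdapted n X δ γ F s →
          EffMod n X A fun P => γ P - m / Module.finrank K F * E P) ∧
      (∀ p : ℕ, 0 < p → ∀ γ : Place ℂ K → ℝ, InvariantClass n X G γ →
        ∀ t : MTensor K (Fin p), t ≠ 0 → MAdapted n X δ γ t →
        EffMod n X A fun P => γ P + p * (n - 1) / Module.finrank K F * E P) ∧
      ∀ M : Place ℂ K → ℝ, InvariantClass n X G M →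
        (∃ c : ℚ, EffMod n X A fun P => c * E P - M P) →
        ∀ (d : ℕ) (x : Fin (d + 1) → K), x 0 ≠ 0 →
        (∀ i, ∀ P ∈ X, Divisorial n P → x i = 0 ∨ -M P ≤ P.ord (x i)) →
        AlgebraicIndependent (firstIntegrals F) (fun a : Fin d => x a.succ / x 0) →
        LinearIndependent K fun a : Fin d => dd F (x a.succ / x 0)) ∨
    (∀ (W : Submodule K (Derivation ℂ K K)) (κ : Place ℂ K → ℝ), Invariant G W →
      CanonicalDivisor n X δ W κ → EffMod n X A κ) ∧
    (∀ (W : Submodule K (Derivation ℂ K K)) (κ : Place ℂ K → ℝ), Invariant G W →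
      CanonicalDivisor n X δ W κ → κ ∈ A → ∀ m : ℕ, 0 < m → ∀ γ : Place ℂ K → ℝ,
      InvariantClass n X G γ →
      ∀ s : MultilinearMap K (fun _ : Fin m => W) (AlgebraicClosure K), s ≠ 0 →
      LeafAdapted n X δ γ W s → EffMod n X A γ) ∧
    (∀ p : ℕ, 0 < p → ∀ γ : Place ℂ K → ℝ, InvariantClass n X G γ →
      ∀ t : MTensor K (Fin p), t ≠ 0 → MAdapted n X δ γ t → EffMod n X A γ) ∧
    (∀ p : ℕ, 0 < p → ∀ γ ∈ A, ∀ t : MTensor K (Fin p), t ≠ 0 → MAdapted n X δ γ t →
      QEquiv n X (fun P => n * γ P) (fun P => -(p * (k P + δ P))) ∨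
      ∃ (W : Submodule K (Derivation ℂ K K)) (κ : Place ℂ K → ℝ), W ≠ ⊥ ∧ W ≠ ⊤ ∧
        Invariant G W ∧ CanonicalDivisor n X δ W κ ∧ κ ∈ A) ∧
    ∀ (V W : Submodule K (Derivation ℂ K K)) (κ κ' κ₁ κ₂ : Place ℂ K → ℝ), Invariant G V →
      Invariant G W → CanonicalDivisor n X δ V κ → CanonicalDivisor n X δ W κ' →
      CanonicalDivisor n X δ (V ⊔ W) κ₁ → CanonicalDivisor n X δ (V ⊓ W) κ₂ → κ ∈ A → κ' ∈ A →
      κ₁ ∈ A ∧ κ₂ ∈ A ∧ QEquiv n X (fun P => κ₁ P + κ₂ P) fun P => κ P + κ' P := by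
  classical
  obtain ⟨C, hC⟩ := hA.toNullGroup.exists_cone
  have hcone := hC.cone
  have hEC := hC.eff
  obtain ⟨ytop, hytop, hvt⟩ := vs_top htr hδ hω hω0 hk
  have htopA : vs δ (⊤ : Submodule K (Derivation ℂ K K)) ∈ A := by
    refine hA.toNullGroup.congr (hA.rat _ hA.mem (-1)) hytop fun P hPX hP => ?_
    rw [hvt P hPX hP]
    push_cast
    ring
  have htopC : (fun P => -vs δ (⊤ : Submodule K (Derivation ℂ K K)) P) ∈ C :=
    hA.toNullGroup.neg_mem_cone hC htopA
  have hinv : ∀ W, InvSub G W → InvariantClass n X G (vs δ W) := fun W hW =>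
    Pool.Agent.Zk25.TF.inv_vs htr hδ hG hW
  have hinvκ : ∀ W κ, InvSub G W → CanonicalDivisor n X δ W κ → InvariantClass n X G κ := by
    intro W κ hW hκ
    obtain ⟨y, hy, h1⟩ := (canonicalDivisor_iff htr hδ).mp hκ
    have h2 := inv_comb (hinv W hW) (inv_principal (n := n) (X := X) hG Nat.one_pos hy) (-1) 1
    refine InvariantClass.congr' h2 fun P hPX hP => ?_
    rw [h1 P hPX hP]
    push_cast
    ring
  by_cases hpos : ∃ W, InvSub G W ∧ vs δ W ∉ C
  · left
    obtain ⟨F, s, hF0, hFG, hFs, hsC, hmax, hbr⟩ :=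
      exists_max_slope hn htr hδ hcone hC.tot hEC hpos
    have hr : 0 < Module.finrank K F := by
      have : Nontrivial F := Submodule.nontrivial_iff_ne_bot.mpr hF0
      exact Module.finrank_pos
    have hrR : (0 : ℝ) < Module.finrank K F := by exact_mod_cast hr
    have hrq : (0 : ℚ) < Module.finrank K F := by exact_mod_cast hr
    have hFC : vs δ F ∉ C := by
      intro h
      apply hsC
      have h1 := hcone.rat h (q := ((Module.finrank K F : ℕ) : ℚ)⁻¹) (by positivity)
      convert h1 using 1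
      funext P
      rw [hFs]
      push_cast
      field_simp
    have hsn : -s ∈ C := (hC.tot s).resolve_left hsC
    obtain ⟨E, hE, hEA⟩ := hA.of_not_mem hC (hinv F hFG) hFC
    have hEinv : InvariantClass n X G E := by
      have h1 := inv_comb (hinv F hFG) (hA.inv _ hEA) 1 (-1)
      convert h1 using 1
      funext P
      push_cast
      ring
    obtain ⟨θ0, hθ0, hθd⟩ := leafDiv htr hδ F
    -- multiples of `E` compared with multiples of the slope
    have hcomp : ∀ q : ℚ, (fun P => q * E P - q * (Module.finrank K F * s P)) ∈ C := by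
      intro q
      have h1 := hC.sub (hA.rat _ hEA (-q))
      convert h1 using 1
      funext P
      rw [hFs]
      push_cast
      ring
    refine ⟨F, fun P => -vs δ F P, E, hF0, ?_, hbr, invariant_iff.mpr hFG, ⟨θ0, hθ0, hθd⟩, hE,
      hEinv, ?_, ?_, ?_, ?_, ?_⟩
    · rintro rfl
      exact hFC (hC.sub htopA)
    · have h1 := hA.rat _ hEA (-1)
      convert h1 using 1
      funext P
      push_cast
      ring
    · intro W κ' hW hκ'
      have hW' := invariant_iff.mp hW
      obtain ⟨y, hy, h1⟩ := (canonicalDivisor_iff htr hδ).mp hκ'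
      refine hA.effMod hC ?_ ?_
      · have h2 := inv_comb (hinvκ W κ' hW' hκ') hEinv 1
          (Module.finrank K W / Module.finrank K F : ℚ)
        convert h2 using 1
        funext P
        push_cast
        ring
      · have h2 := hcone.add _ (hmax W hW') _
          (hcomp (-(Module.finrank K W / Module.finrank K F : ℚ)))
        refine cone_congr hcone hEC h2 (inv_ne_zero hy) fun P hPX hP => ?_
        rw [h1 P hPX hP, Pi.add_apply, P.ord_inv]
        push_cast
        field_simp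
        ring
    · intro m hm γ hγ u hu0 hu
      have h1 := (tensor_slope hn htr hδ hG hcone hEC hFG hFs (fun W hW _ => hmax W hW) hm hγ hu
        hu0).1
      refine hA.effMod hC ?_ ?_
      · have h2 := inv_comb hγ hEinv 1 (-(m / Module.finrank K F : ℚ))
        convert h2 using 1
        funext P
        push_cast
        ring
      · have h2 := hcone.add _ h1 _ (hcomp (m / Module.finrank K F : ℚ))
        convert h2 using 1
        funext P
        rw [Pi.add_apply]
        push_cast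
        field_simp
        ring
    · intro p hp γ hγ t ht0 ht
      have h1 := tensor_bound hn htr hδ hG hcone hEC hsn hmax htopC hp hγ ht ht0
      refine hA.effMod hC ?_ ?_
      · have h2 := inv_comb hγ hEinv 1 (p * (n - 1) / Module.finrank K F : ℚ)
        convert h2 using 1
        funext P
        push_cast
        ring
      · have h2 := hcone.add _ h1 _ (hcomp (-(p * (n - 1) / Module.finrank K F : ℚ)))
        convert h2 using 1
        funext P
        rw [Pi.add_apply]
        push_cast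
        field_simp
        ring
    · rintro M hM ⟨c, hc⟩ d x hx0 hx hz
      obtain ⟨N, hN⟩ := exists_nat_ge (c * Module.finrank K F)
      have hcC := hc.neg_mem hA.toNullGroup hC
      refine images (δ := δ) (fun P hPX => (hδ P hPX).1) hbr (M := M) N (fun e m hem u hu => ?_) x
        hx0 hx hz
      by_contra hu0
      have hm : 0 < m := by omega
      have heM : InvariantClass n X G fun P => (e : ℝ) * M P := by
        have h2 := inv_comb hM hM e 0
        convert h2 using 1
        funext P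
        push_cast
        ring
      have h1 := (tensor_slope hn htr hδ hG hcone hEC hFG hFs (fun W hW _ => hmax W hW) hm heM hu
        hu0).1
      have h2 := hcone.nsmul e hcC
      have h3 := hcone.add _ (hcone.add _ h1 _ h2) _ (hcomp (e * c))
      have h4 : (0 : ℚ) < m - e * c * Module.finrank K F := by
        have h5 : (e : ℚ) * (c * Module.finrank K F) ≤ e * N :=
          mul_le_mul_of_nonneg_left hN (Nat.cast_nonneg _)
        have h6 : (N : ℚ) * e < m := by exact_mod_cast hem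
        nlinarith
      apply hsC
      have h5 := hcone.rat h3 (q := (m - e * c * Module.finrank K F)⁻¹)
        (inv_nonneg.mpr h4.le)
      convert h5 using 1
      funext P
      have h6 : ((m : ℝ) - e * c * Module.finrank K F) ≠ 0 := by
        have : (0 : ℝ) < m - e * c * Module.finrank K F := by exact_mod_cast h4
        exact this.ne'
      rw [Pi.add_apply, Pi.add_apply, Pi.smul_apply, nsmul_eq_mul]
      push_cast
      field_simp
      ring
  · right
    push Not at hpos
    have hvA : ∀ W κ, CanonicalDivisor n X δ W κ → κ ∈ A → vs δ W ∈ A := by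
      intro W κ hκ hκA
      obtain ⟨y, hy, h1⟩ := (canonicalDivisor_iff htr hδ).mp hκ
      refine hA.toNullGroup.congr (hA.rat _ hκA (-1)) hy fun P hPX hP => ?_
      rw [h1 P hPX hP]
      push_cast
      ring
    have hAv : ∀ W κ, CanonicalDivisor n X δ W κ → vs δ W ∈ A → κ ∈ A := by
      intro W κ hκ hκA
      obtain ⟨y, hy, h1⟩ := (canonicalDivisor_iff htr hδ).mp hκ
      refine hA.toNullGroup.congr (hA.rat _ hκA (-1)) hy fun P hPX hP => ?_
      rw [h1 P hPX hP]
      push_cast
      ring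
    refine ⟨fun W κ hW hκ => ?_, fun W κ hW hκ hκA m hm γ hγ u hu0 hu => ?_,
      fun p hp γ hγ t ht0 ht => ?_, fun p hp γ hγA t ht0 ht => ?_, ?_⟩
    · have hW' := invariant_iff.mp hW
      obtain ⟨y, hy, h1⟩ := (canonicalDivisor_iff htr hδ).mp hκ
      refine hA.effMod hC (hinvκ W κ hW' hκ) ?_
      refine cone_congr hcone hEC (hpos W hW') (inv_ne_zero hy) fun P hPX hP => ?_
      rw [h1 P hPX hP, P.ord_inv]
      push_cast
      ring
    · exact hA.effMod hC hγ (tensor_nonneg hn htr hδ hG hcone hEC hpos (invariant_iff.mp hW)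
        (hA.toNullGroup.neg_mem_cone hC (hvA W κ hκ hκA)) hm hγ hu hu0)
    · have h1 := tensor_bound hn htr hδ hG hcone hEC (s := 0) (by
          rw [neg_zero]
          exact hcone.zero) (fun W hW => by
          convert hpos W hW using 1
          funext P
          rw [Pi.zero_apply]
          ring) htopC hp hγ ht ht0
      refine hA.effMod hC hγ ?_
      convert h1 using 1
      funext P
      rw [Pi.zero_apply]
      ring
    · exact stable_or hn htr hδ hω hω0 hk hG hA.toNullGroup hC hpos hinv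
        (fun hD hDC => hA.of_mem hC hD hDC) hp hγA ht ht0
    · intro V W κ κ' κ₁ κ₂ hV hW hκ hκ' hκ₁ hκ₂ hκA hκ'A
      have hV' := invariant_iff.mp hV
      have hW' := invariant_iff.mp hW
      have h1 := hvA V κ hκ hκA
      have h2 := hvA W κ' hκ' hκ'A
      have hsup := invSub_sup hV' hW'
      have hinf := invSub_inf hV' hW'
      have hR := hh_super (n := n) (X := X) (δ := δ) (β := fun _ => (0 : ℝ)) htr hδ V W
      have hR' : Eff n X fun P => vs δ V P + vs δ W P - (vs δ (V ⊔ W) P + vs δ (V ⊓ W) P) := by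
        convert hR using 1
        funext P
        simp only [Pi.sub_apply, Pi.add_apply]
        unfold hh
        ring
      have hsum : ∀ a b : Place ℂ K → ℝ, a ∈ C → InvariantClass n X G a → b ∈ C →
          (fun P => vs δ V P + vs δ W P - (a P + b P)) ∈ C → a ∈ A := by
        intro a b ha hai hb hab
        rcases hA.of_mem hC hai ha with h3 | ⟨E, hE, h3⟩
        · exact h3
        · exfalso
          apply hC.strict E hE
          have h4 := hcone.add _ (hcone.add _ (hcone.add _ hab _ hb) _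
            (hA.toNullGroup.neg_mem_cone hC (hA.add _ h1 _ h2))) _ (hC.sub h3)
          convert h4 using 1
          funext P
          rw [Pi.add_apply, Pi.add_apply, Pi.add_apply, Pi.neg_apply]
          ring
      have h3 := hsum _ _ (hpos _ hsup) (hinv _ hsup) (hpos _ hinf) (hEC hR')
      have h4 := hsum _ _ (hpos _ hinf) (hinv _ hinf) (hpos _ hsup) (by
        have h5 := hEC hR'
        convert h5 using 1
        funext P
        ring)
      refine ⟨hAv _ _ hκ₁ h3, hAv _ _ hκ₂ h4, ?_⟩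
      -- the equality
      obtain ⟨N, hN, z, hz, hz'⟩ := hR'
      have hNR : (0 : ℝ) < N := by exact_mod_cast hN
      have hle : ∀ P ∈ X, Divisorial n P →
          0 ≤ P.ord z / N - (vs δ V P + vs δ W P - (vs δ (V ⊔ W) P + vs δ (V ⊓ W) P)) := by
        intro P hPX hP
        have h5 := hz' P hPX hP
        have h6 : vs δ V P + vs δ W P - (vs δ (V ⊔ W) P + vs δ (V ⊓ W) P) ≤ P.ord z / N := by
          rw [le_div_iff₀ hNR, mul_comm]
          exact h5
        linarith
      have heq : ∀ P ∈ X, Divisorial n P →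
          P.ord z / N - (vs δ V P + vs δ W P - (vs δ (V ⊔ W) P + vs δ (V ⊓ W) P)) = 0 := by
        intro P hPX hP
        by_contra hne
        have h5 : (fun P => P.ord z / N - (vs δ V P + vs δ W P -
            (vs δ (V ⊔ W) P + vs δ (V ⊓ W) P))) ∈ A := by
          have h6 := hA.toNullGroup.sub_mem (hA.add _ h3 _ h4) (hA.add _ h1 _ h2)
          refine hA.equiv _ h6 _ ⟨N, z⁻¹, hN, inv_ne_zero hz, fun P hPX hP => ?_⟩
          rw [P.ord_inv]
          push_cast
          field_simp
          ring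
        exact hA.null _ h5 ⟨hle, P, hPX, hP, lt_of_le_of_ne (hle P hPX hP) (Ne.symm hne)⟩
      obtain ⟨y, hy, e1⟩ := (canonicalDivisor_iff htr hδ).mp hκ
      obtain ⟨y', hy', e2⟩ := (canonicalDivisor_iff htr hδ).mp hκ'
      obtain ⟨y₁, hy₁, e3⟩ := (canonicalDivisor_iff htr hδ).mp hκ₁
      obtain ⟨y₂, hy₂, e4⟩ := (canonicalDivisor_iff htr hδ).mp hκ₂
      refine ⟨N, z * (y₁ * y₂ / (y * y')) ^ N, hN, mul_ne_zero hz (pow_ne_zero _
        (div_ne_zero (mul_ne_zero hy₁ hy₂) (mul_ne_zero hy hy'))), fun P hPX hP => ?_⟩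
      beta_reduce
      rw [e1 P hPX hP, e2 P hPX hP, e3 P hPX hP, e4 P hPX hP, P.ord_mul hz (pow_ne_zero _
        (div_ne_zero (mul_ne_zero hy₁ hy₂) (mul_ne_zero hy hy'))), P.ord_pow,
        P.ord_div (mul_ne_zero hy₁ hy₂) (mul_ne_zero hy hy'), P.ord_mul hy₁ hy₂, P.ord_mul hy hy']
      have h5 := heq P hPX hP
      have h6 : (P.ord z : ℝ) = N * (vs δ V P + vs δ W P -
          (vs δ (V ⊔ W) P + vs δ (V ⊓ W) P)) := by
        have h7 : (P.ord z : ℝ) / N = vs δ V P + vs δ W P -
          (vs δ (V ⊔ W) P + vs δ (V ⊓ W) P) := by linarith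
        rw [← h7]
        field_simp
      push_cast
      rw [h6]
      ring

end

end Pool.Agent.Zk28.TF
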