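import Pool.Agent.Zk28.TF.SP3
import Pool.Agent.Zk28.TF.FStm
import Pool.Agent.Zk17.TF.GD

/-!
The Bochner principle for a group of classes.
-/

set_option autoImplicit false
set_option linter.unusedSectionVars false

open FF Pool.Agent.W602.GT

namespace Pool.Agent.Zk28.TF

open Pool.Agent.Zk28.TS

section

variable {K : Type} [Field K] [Algebra ℂ K] {n : ℕ}
  {X : Set (Place ℂ K)} {δ : Place ℂ K → ℝ} {k : Place ℂ K → ℤ} {G : Set (K ≃ₐ[ℂ] K)}
  {A C : Set (Place ℂ K → ℝ)} [Algebra.EssFiniteType ℂ K] [Module.Finite K (Derivation ℂ K K)]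

/-- a tensor with a zero divisor gives a foliation -/
theorem fol_of_zero (hn : 1 ≤ n) (htr : Algebra.trdeg ℂ K = n)
    (hδ : ∀ P ∈ X, 0 ≤ δ P ∧ δ P ≤ 1)
    {ω : (Fin n → Derivation ℂ K K) → K} (hω : IsPluri 1 ω) (hω0 : ∃ D, ω D ≠ 0)
    (hk : DivOf n X ω k) (hG : ∀ g ∈ G, MPreserves X δ (fun _ => (0 : ℝ)) g)
    (hA : NullGroup n X G (fun P => k P + δ P) A)
    (hmax : ∃ A', A ⊆ A' ∧ MaxNullGroup n X G (fun P => k P + δ P) A')
    {p : ℕ} (hp : 0 < p) {γ E : Place ℂ K → ℝ} (hγ : γ ∈ A) (hEinv : InvariantClass n X G E)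
    (hE : PosDiv n X E) {t : MTensor K (Fin p)} (ht0 : t ≠ 0)
    (ht : MAdapted n X δ (fun P => γ P - E P) t) :
    ∃ (F : Submodule K (Derivation ℂ K K)) (ε : ℚ), F ≠ ⊥ ∧ F ≠ ⊤ ∧
      (∀ D ∈ F, ∀ E ∈ F, ⁅D, E⁆ ∈ F) ∧ Invariant G F ∧ 0 < ε ∧
      ∀ m : ℕ, 0 < m → ∀ b ∈ A, ∀ x : ℚ, x < ε * m →
        ∀ s : MultilinearMap K (fun _ : Fin m => F) (AlgebraicClosure K),
          LeafAdapted n X δ (fun P => b P + x * E P) F s → s = 0 := by
  classical
  obtain ⟨A', hAA', hA'⟩ := hmax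
  obtain ⟨C, hC⟩ := hA'.toNullGroup.exists_cone
  have hcone := hC.cone
  have hEC := hC.eff
  obtain ⟨ytop, hytop, hvt⟩ := vs_top htr hδ hω hω0 hk
  have htopA : vs δ (⊤ : Submodule K (Derivation ℂ K K)) ∈ A' := by
    refine hA'.toNullGroup.congr (hA'.rat _ hA'.mem (-1)) hytop fun P hPX hP => ?_
    rw [hvt P hPX hP]
    push_cast
    ring
  have htopC : (fun P => -vs δ (⊤ : Submodule K (Derivation ℂ K K)) P) ∈ C :=
    hA'.toNullGroup.neg_mem_cone hC htopA
  have hEnC : E ∉ C := hC.strict E hE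
  have hγE : InvariantClass n X G fun P => γ P - E P := by
    have h1 := inv_comb (hA.inv _ hγ) hEinv 1 (-1)
    convert h1 using 1
    funext P
    push_cast
    ring
  have hpos : ∃ W, InvSub G W ∧ vs δ W ∉ C := by
    by_contra hno
    push Not at hno
    have h1 := tensor_bound hn htr hδ hG hcone hEC (s := 0) (by
        rw [neg_zero]
        exact hcone.zero) (fun W hW => by
        convert hno W hW using 1
        funext P
        rw [Pi.zero_apply]
        ring) htopC hp hγE ht ht0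
    apply hEnC
    have h2 := hcone.add _ h1 _ (hC.sub (hAA' hγ))
    convert h2 using 1
    funext P
    rw [Pi.add_apply, Pi.zero_apply]
    ring
  obtain ⟨F, s, hF0, hFG, hFs, hsC, hmax, hbr⟩ :=
    exists_max_slope hn htr hδ hcone hC.tot hEC hpos
  have hsn : -s ∈ C := (hC.tot s).resolve_left hsC
  have hr : 0 < Module.finrank K F := by
    have : Nontrivial F := Submodule.nontrivial_iff_ne_bot.mpr hF0
    exact Module.finrank_pos
  have hrR : (0 : ℝ) < Module.finrank K F := by exact_mod_cast hr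
  have h1 := tensor_bound hn htr hδ hG hcone hEC hsn hmax htopC hp hγE ht ht0
  have hEs : (fun P => E P - p * (n - 1) * s P) ∈ C := by
    have h2 := hcone.add _ h1 _ (hC.sub (hAA' hγ))
    convert h2 using 1
    funext P
    rw [Pi.add_apply]
    ring
  have hn2 : 2 ≤ n := by
    by_contra hlt
    apply hEnC
    have h2 : n = 1 := by omega
    convert hEs using 1
    funext P
    rw [h2]
    push_cast
    ring
  have hpq : (0 : ℚ) < p := by exact_mod_cast hp
  have hn2q : (0 : ℚ) < n - 1 := by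
    have : (2 : ℚ) ≤ n := by exact_mod_cast hn2
    linarith
  -- the slope is positive
  have hsneg : ∀ c : ℚ, 0 < c → (fun P => c * s P) ∉ C := by
    intro c hc h
    apply hsC
    have h2 := hcone.rat h (q := c⁻¹) (inv_nonneg.mpr hc.le)
    convert h2 using 1
    funext P
    have h3 : (c : ℝ) ≠ 0 := by exact_mod_cast hc.ne'
    push_cast
    field_simp
  refine ⟨F, 1 / (p * (n - 1)), hF0, ?_, hbr, invariant_iff.mpr hFG, by positivity,
    fun m hm b hb x hx u hu => ?_⟩
  · rintro rfl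
    refine hsneg (Module.finrank K (⊤ : Submodule K (Derivation ℂ K K))) (by exact_mod_cast hr) ?_
    have h2 := hC.sub htopA
    convert h2 using 1
    funext P
    rw [hFs]
    push_cast
    rfl
  · by_contra hu0
    have hmq : (0 : ℚ) < m := by exact_mod_cast hm
    have hbx : InvariantClass n X G fun P => b P + x * E P := by
      have h1 := inv_comb (hA.inv _ hb) hEinv 1 x
      convert h1 using 1
      funext P
      push_cast
      ring
    have h2 := (tensor_slope hn htr hδ hG hcone hEC hFG hFs (fun W hW _ => hmax W hW) hm hbx hu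
      hu0).1
    have h3 := hcone.add _ h2 _ (hC.sub (hAA' hb))
    rcases le_or_gt x 0 with hx0 | hx0
    · refine hsneg m hmq ?_
      have h4 : (fun P => ((-x : ℚ) : ℝ) * (-E) P) ∈ C :=
        hcone.rat ((hC.tot E).resolve_left hEnC) (by linarith)
      have h5 := hcone.add _ h3 _ h4
      convert h5 using 1
      funext P
      rw [Pi.add_apply, Pi.add_apply, Pi.neg_apply]
      push_cast
      ring
    · refine hsneg (m - x * (p * (n - 1))) ?_ ?_
      · have h4 : x * (p * (n - 1)) < m := by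
          rw [one_div, inv_mul_eq_div, lt_div_iff₀ (mul_pos hpq hn2q)] at hx
          exact hx
        linarith
      · have h4 := hcone.rat hEs hx0.le
        have h5 := hcone.add _ h3 _ h4
        convert h5 using 1
        funext P
        rw [Pi.add_apply, Pi.add_apply]
        push_cast
        ring

/-- **The Bochner principle for a group of classes.** -/
theorem bochnerA (hn : 1 ≤ n) (htr : Algebra.trdeg ℂ K = n)
    (hδ : ∀ P ∈ X, 0 ≤ δ P ∧ δ P ≤ 1)
    {ω : (Fin n → Derivation ℂ K K) → K} (hω : IsPluri 1 ω) (hω0 : ∃ D, ω D ≠ 0)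
    (hk : DivOf n X ω k) (hG : ∀ g ∈ G, MPreserves X δ (fun _ => (0 : ℝ)) g)
    (hconst : ∀ z : K, z ≠ 0 → (∀ P ∈ X, Divisorial n P → 0 ≤ P.ord z) →
      ∃ a : ℂ, algebraMap ℂ K a = z)
    (hA : NullGroup n X G (fun P => k P + δ P) A)
    (hmax : ∃ A', A ⊆ A' ∧ MaxNullGroup n X G (fun P => k P + δ P) A') :
    (∃ (F : Submodule K (Derivation ℂ K K)) (E : Place ℂ K → ℝ) (ε : ℚ), F ≠ ⊥ ∧ F ≠ ⊤ ∧
      (∀ D ∈ F, ∀ E ∈ F, ⁅D, E⁆ ∈ F) ∧ Invariant G F ∧ PosDiv n X E ∧ InvariantClass n X G E ∧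
      (∃ (p : ℕ) (a : Place ℂ K → ℝ) (t : MTensor K (Fin p)), 0 < p ∧ a ∈ A ∧ t ≠ 0 ∧
        MAdapted n X δ (fun P => a P - E P) t) ∧ 0 < ε ∧
      ∀ m : ℕ, 0 < m → ∀ b ∈ A, ∀ x : ℚ, x < ε * m →
        ∀ s : MultilinearMap K (fun _ : Fin m => F) (AlgebraicClosure K),
          LeafAdapted n X δ (fun P => b P + x * E P) F s → s = 0) ∨
    ∀ p : ℕ, 0 < p →
      (∀ γ ∈ A, ∀ (t : MTensor K (Fin p)) (E : Place ℂ K → ℝ), t ≠ 0 →
        (∀ P ∈ X, Divisorial n P → 0 ≤ E P) → MAdapted n X δ (fun P => γ P - E P) t →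
        ∀ P ∈ X, Divisorial n P → E P = 0) ∧
      ∀ (N : ℕ) (γ : Fin N → Place ℂ K → ℝ) (t : Fin N → MTensor K (Fin p)),
        (∀ j, γ j ∈ A) → (∀ j, MAdapted n X δ (γ j) (t j)) →
        (∀ i j, QEquiv n X (γ i) (γ j) → γ i = γ j) →
        (∀ ρ, LinearIndependent ℂ fun j : {j : Fin N // γ j = ρ} => t j) →
        LinearIndependent (AlgebraicClosure K) t ∧ N ≤ n ^ p ∧
          (N = n ^ p → QEquiv n X (fun P => ∑ j, γ j P)
            fun P => -(p * (n : ℝ) ^ (p - 1) * (k P + δ P))) := by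
  classical
  by_cases hNZ : Pool.Agent.Zk17.TF.NoZeros n X δ G A
  · refine Or.inr fun p hp => ⟨fun γ hγ t E ht0 hE ht => ?_, fun N γ t hγ ht hdist hti => ?_⟩
    · exact Pool.Agent.Zk17.TF.zero_gen hn htr hδ hG hA hNZ hp hγ ht0 hE ht
    · have h1 := Pool.Agent.Zk17.TF.indep_gen hn htr hδ hG hA hNZ hconst hp hγ hdist ht hti
      have h2 := finite_MTensor (K := K) (n := n) (p := p) htr
      have := h2.1
      have h3 := h1.fintype_card_le_finrank
      rw [Fintype.card_fin] at h3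
      refine ⟨h1, h3.trans h2.2, fun hN => ?_⟩
      obtain ⟨M, hM, z, hz, hz'⟩ := full_det_stm hn htr hδ hω hω0 hk hp hN ht h1
      have hMR : (0 : ℝ) < M := by exact_mod_cast hM
      have hsumA : (fun P => ∑ j, γ j P) ∈ A := by
        have h4 : ∀ S : Finset (Fin N), (fun P => ∑ j ∈ S, γ j P) ∈ A := by
          intro S
          induction S using Finset.induction_on with
          | empty => simpa using hA.zero_mem
          | insert a S ha ih =>
            have h5 := hA.add _ (hγ a) _ ih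
            convert h5 using 1
            funext P
            rw [Finset.sum_insert ha]
        exact h4 Finset.univ
      have hDA : (fun P => ∑ j, γ j P + p * (n : ℝ) ^ (p - 1) * (k P + δ P)) ∈ A := by
        have h4 := hA.add _ hsumA _ (hA.rat _ hA.mem (p * (n : ℚ) ^ (p - 1)))
        convert h4 using 1
        funext P
        push_cast
        ring
      have hle : ∀ P ∈ X, Divisorial n P →
          0 ≤ (∑ j, γ j P + p * (n : ℝ) ^ (p - 1) * (k P + δ P)) + P.ord z / M := by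
        intro P hPX hP
        have h5 := hz' P hPX hP
        have h6 : -(∑ j, γ j P + p * (n : ℝ) ^ (p - 1) * (k P + δ P)) ≤ P.ord z / M := by
          rw [le_div_iff₀ hMR, mul_comm]
          exact h5
        linarith
      have heq : ∀ P ∈ X, Divisorial n P →
          (∑ j, γ j P + p * (n : ℝ) ^ (p - 1) * (k P + δ P)) + P.ord z / M = 0 := by
        intro P hPX hP
        by_contra hne
        have h5 : (fun P : Place ℂ K => (∑ j, γ j P + p * (n : ℝ) ^ (p - 1) * (k P + δ P)) +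
            P.ord z / M) ∈ A := by
          refine hA.equiv _ hDA _ ⟨M, z⁻¹, hM, inv_ne_zero hz, fun P hPX hP => ?_⟩
          rw [P.ord_inv]
          push_cast
          field_simp
          ring
        exact hA.null _ h5 ⟨hle, P, hPX, hP, lt_of_le_of_ne (hle P hPX hP) (Ne.symm hne)⟩
      refine ⟨M, z⁻¹, hM, inv_ne_zero hz, fun P hPX hP => ?_⟩
      have h5 := heq P hPX hP
      have h6 : (P.ord z : ℝ) = -(M * (∑ j, γ j P + p * (n : ℝ) ^ (p - 1) * (k P + δ P))) := by
        have h7 : (P.ord z : ℝ) / M = -(∑ j, γ j P + p * (n : ℝ) ^ (p - 1) * (k P + δ P)) := by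
          linarith
        have h8 : (P.ord z : ℝ) = M * (P.ord z / M) := by field_simp
        rw [h8, h7]
        ring
      rw [P.ord_inv]
      push_cast
      rw [h6]
      ring
  · left
    unfold Pool.Agent.Zk17.TF.NoZeros at hNZ
    push Not at hNZ
    obtain ⟨p, γ, E, t, hp, ht0, hγ, hEinv, hE, ht, P0, hP0X, hP0, hne⟩ := hNZ
    have hEpos : PosDiv n X E :=
      ⟨hE, P0, hP0X, hP0, lt_of_le_of_ne (hE P0 hP0X hP0) (Ne.symm hne)⟩
    obtain ⟨F, ε, h1, h2, h3, h4, h5, h6⟩ := fol_of_zero hn htr hδ hω hω0 hk hG hA hmax hp hγ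
      hEinv hEpos ht0 ht
    exact ⟨F, E, ε, h1, h2, h3, h4, hEpos, hEinv, ⟨p, γ, t, hp, hγ, ht0, ht⟩, h5, h6⟩

end

end Pool.Agent.Zk28.TF
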