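import Pool.Agent.Zk28.TF.SP3
import Pool.Agent.Zk28.TF.OrderA

/-!
The foliation of the largest slope for a degree order.
-/

set_option autoImplicit false
set_option linter.unusedSectionVars false

open FF Pool.Agent.W602.GT

namespace Pool.Agent.Zk28.TF

open Pool.Agent.Zk28.TS

section

variable {K : Type} [Field K] [Algebra ℂ K] {n : ℕ}
  {X : Set (Place ℂ K)} {δ : Place ℂ K → ℝ} {k : Place ℂ K → ℤ} {G : Set (K ≃ₐ[ℂ] K)}
  [Algebra.EssFiniteType ℂ K] [Module.Finite K (Derivation ℂ K K)]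

/-- **The foliation of the largest slope.** -/
theorem order_fol (hn : 1 ≤ n) (htr : Algebra.trdeg ℂ K = n) (hδ : ∀ P ∈ X, 0 ≤ δ P ∧ δ P ≤ 1)
    {ω : (Fin n → Derivation ℂ K K) → K} (hω : IsPluri 1 ω) (hω0 : ∃ D, ω D ≠ 0)
    (hk : DivOf n X ω k) (hG : ∀ g ∈ G, MPreserves X δ (fun _ => (0 : ℝ)) g)
    {Pos : Set (Place ℂ K → ℝ)} (hPos : DegreeOrder n X Pos)
    (hL : (fun P => k P + δ P) ∉ Pos) :
    ∃ (F : Submodule K (Derivation ℂ K K)) (κ : Place ℂ K → ℝ), F ≠ ⊥ ∧
      (∀ D ∈ F, ∀ E ∈ F, ⁅D, E⁆ ∈ F) ∧ Invariant G F ∧ CanonicalDivisor n X δ F κ ∧ κ ∉ Pos ∧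
      (∀ (W : Submodule K (Derivation ℂ K K)) (κ' : Place ℂ K → ℝ), Invariant G W →
        CanonicalDivisor n X δ W κ' →
        (fun P => κ' P - Module.finrank K W / Module.finrank K F * κ P) ∈ Pos) ∧
      (∀ m : ℕ, 0 < m → ∀ γ : Place ℂ K → ℝ, InvariantClass n X G γ →
        ∀ s : MultilinearMap K (fun _ : Fin m => F) (AlgebraicClosure K), s ≠ 0 →
          LeafAdapted n X δ γ F s →
          (fun P => γ P + m / Module.finrank K F * κ P) ∈ Pos) ∧
      (∀ p : ℕ, 0 < p → ∀ γ : Place ℂ K → ℝ, InvariantClass n X G γ →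
        ∀ t : MTensor K (Fin p), t ≠ 0 → MAdapted n X δ γ t →
        (fun P => γ P - p * (n - 1) / Module.finrank K F * κ P) ∈ Pos) ∧
      ∀ M : Place ℂ K → ℝ, InvariantClass n X G M →
        (∃ c : ℚ, (fun P => -(c * κ P) - M P) ∈ Pos) →
        ∀ (d : ℕ) (x : Fin (d + 1) → K), x 0 ≠ 0 →
        (∀ i, ∀ P ∈ X, Divisorial n P → x i = 0 ∨ -M P ≤ P.ord (x i)) →
        AlgebraicIndependent (firstIntegrals F) (fun a : Fin d => x a.succ / x 0) →
        LinearIndependent K fun a : Fin d => dd F (x a.succ / x 0) := by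
  classical
  have hC := hPos.isCone
  have htot := hPos.tot
  have hEC := hPos.eff_subset
  have hmem : ∀ {f g : Place ℂ K → ℝ}, f ∈ opp Pos → (∀ P, g P = -f P) → g ∈ Pos := by
    intro f g hf hfg
    have h1 : g = fun P => -f P := funext hfg
    rw [h1]
    exact hf
  have hmem' : ∀ {f g : Place ℂ K → ℝ}, g ∈ Pos → (∀ P, g P = -f P) → f ∈ opp Pos := by
    intro f g hg hfg
    change (fun P => -f P) ∈ Pos
    have h1 : g = fun P => -f P := funext hfg
    rwa [← h1]
  obtain ⟨ytop, hytop, hvt⟩ := vs_top htr hδ hω hω0 hk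
  have htopn : vs δ (⊤ : Submodule K (Derivation ℂ K K)) ∉ opp Pos := by
    intro h
    apply hL
    have h1 := cone_congr hC hEC h (inv_ne_zero hytop) (D' := fun P => -((k P : ℝ) + δ P))
      fun P hPX hP => by
        rw [hvt P hPX hP, P.ord_inv]
        push_cast
        ring
    exact hmem h1 fun P => by rw [neg_neg]
  have htopC : (fun P => -vs δ (⊤ : Submodule K (Derivation ℂ K K)) P) ∈ opp Pos :=
    (htot (vs δ (⊤ : Submodule K (Derivation ℂ K K)))).resolve_left htopn
  obtain ⟨F, s, hF0, hFG, hFs, hsC, hmax, hbr⟩ :=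
    exists_max_slope hn htr hδ hC htot hEC ⟨⊤, fun _ _ _ _ => Submodule.mem_top, htopn⟩
  have hr : 0 < Module.finrank K F := by
    have : Nontrivial F := Submodule.nontrivial_iff_ne_bot.mpr hF0
    exact Module.finrank_pos
  have hrR : (0 : ℝ) < Module.finrank K F := by exact_mod_cast hr
  have hrq : (0 : ℚ) < Module.finrank K F := by exact_mod_cast hr
  have hFC : vs δ F ∉ opp Pos := by
    intro h
    apply hsC
    have h1 := hC.rat h (q := ((Module.finrank K F : ℕ) : ℚ)⁻¹) (by positivity)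
    convert h1 using 1
    funext P
    rw [hFs]
    push_cast
    field_simp
  have hsn : -s ∈ opp Pos := (htot s).resolve_left hsC
  obtain ⟨θ0, hθ0, hθd⟩ := leafDiv htr hδ F
  refine ⟨F, fun P => -vs δ F P, hF0, hbr, invariant_iff.mpr hFG, ⟨θ0, hθ0, hθd⟩, ?_, ?_, ?_, ?_,
    ?_⟩
  · intro h
    exact hFC (hmem' h fun P => rfl)
  · intro W κ' hW hκ'
    have hW' := invariant_iff.mp hW
    obtain ⟨y, hy, h1⟩ := (canonicalDivisor_iff htr hδ).mp hκ'
    have h2 := cone_congr hC hEC (hmax W hW') (inv_ne_zero hy)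
      (D' := fun P => -(κ' P + Module.finrank K W * s P)) fun P hPX hP => by
        rw [h1 P hPX hP, P.ord_inv]
        push_cast
        ring
    refine hmem h2 fun P => ?_
    beta_reduce
    rw [hFs]
    field_simp
    ring
  · intro m hm γ hγ u hu0 hu
    have h1 := (tensor_slope hn htr hδ hG hC hEC hFG hFs (fun W hW _ => hmax W hW) hm hγ hu
      hu0).1
    refine hmem h1 fun P => ?_
    beta_reduce
    rw [hFs]
    field_simp
    ring
  · intro p hp γ hγ t ht0 ht
    have h1 := tensor_bound hn htr hδ hG hC hEC hsn hmax htopC hp hγ ht ht0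
    refine hmem h1 fun P => ?_
    beta_reduce
    rw [hFs]
    field_simp
    ring
  · rintro M hM ⟨c, hc⟩ d x hx0 hx hz
    obtain ⟨N, hN⟩ := exists_nat_ge (c * Module.finrank K F)
    refine images (δ := δ) (fun P hPX => (hδ P hPX).1) hbr (M := M) N (fun e m hem u hu => ?_) x
      hx0 hx hz
    by_contra hu0
    have hm : 0 < m := by omega
    have heM : InvariantClass n X G fun P => (e : ℝ) * M P := by
      have h2 := inv_comb hM hM e 0
      convert h2 using 1
      funext P
      push_cast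
      ring
    have h1 := (tensor_slope hn htr hδ hG hC hEC hFG hFs (fun W hW _ => hmax W hW) hm heM hu
      hu0).1
    have hcC : (fun P => M P - c * vs δ F P) ∈ opp Pos := hmem' hc fun P => by ring
    have h2 := hC.nsmul e hcC
    have h3 := hC.add _ h1 _ h2
    have h4 : (0 : ℚ) < m - e * c * Module.finrank K F := by
      have h5 : (e : ℚ) * (c * Module.finrank K F) ≤ e * N :=
        mul_le_mul_of_nonneg_left hN (Nat.cast_nonneg _)
      have h6 : (N : ℚ) * e < m := by exact_mod_cast hem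
      nlinarith
    apply hsC
    have h5 := hC.rat h3 (q := (m - e * c * Module.finrank K F)⁻¹) (inv_nonneg.mpr h4.le)
    convert h5 using 1
    funext P
    have h6 : ((m : ℝ) - e * c * Module.finrank K F) ≠ 0 := by
      have : (0 : ℝ) < m - e * c * Module.finrank K F := by exact_mod_cast h4
      exact this.ne'
    rw [Pi.add_apply, Pi.smul_apply, nsmul_eq_mul, hFs]
    push_cast
    field_simp
    ring

end

end Pool.Agent.Zk28.TF
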