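import Pool.Agent.Zk28.TF.SP3

/-!
Foliations with canonical classes in a null group.
-/

set_option autoImplicit false
set_option linter.unusedSectionVars false

open FF Pool.Agent.W602.GT

namespace Pool.Agent.Zk28.TF

open Pool.Agent.Zk28.TS

section

variable {K : Type} [Field K] [Algebra ℂ K] {n : ℕ}
  {X : Set (Place ℂ K)} {δ : Place ℂ K → ℝ} {k : Place ℂ K → ℤ} {G : Set (K ≃ₐ[ℂ] K)}
  {A C : Set (Place ℂ K → ℝ)}

/-- an anti-effective element of a null group is trivial -/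
theorem NullGroup.posdiv_not_eff {L : Place ℂ K → ℝ} (hA : NullGroup n X G L A)
    {E a : Place ℂ K → ℝ} (hE : PosDiv n X E) (ha : a ∈ A) :
    ¬ Eff n X fun P => E P + a P := by
  rintro ⟨N, hN, z, hz, h⟩
  have hNR : (0 : ℝ) < N := by exact_mod_cast hN
  have h1 : (fun P => P.ord z / N - a P) ∈ A := by
    refine hA.equiv _ (hA.rat _ ha (-1)) _ ⟨N, z⁻¹, hN, inv_ne_zero hz, fun P hPX hP => ?_⟩
    rw [P.ord_inv]
    push_cast
    field_simp
    ring
  have h2 : ∀ P ∈ X, Divisorial n P → E P ≤ P.ord z / N - a P := by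
    intro P hPX hP
    have h3 := h P hPX hP
    have h4 : E P + a P ≤ P.ord z / N := by
      rw [le_div_iff₀ hNR, mul_comm]
      exact h3
    linarith
  obtain ⟨P0, hP0X, hP0, hE0⟩ := hE.2
  exact hA.null _ h1 ⟨fun P hPX hP => (hE.1 P hPX hP).trans (h2 P hPX hP), P0, hP0X, hP0,
    lt_of_lt_of_le hE0 (h2 P0 hP0X hP0)⟩

/-- An order for which the nonzero effective classes are larger than all elements of `A`, and two
elements of `A` are negative. -/
theorem NullGroup.exists_cone2 {L : Place ℂ K → ℝ} (hA : NullGroup n X G L A)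
    {D : Place ℂ K → ℝ} (hD : D ∈ A)
    (hLD : ∀ x y : ℚ, 0 ≤ x → 0 ≤ y → (x = 0 → y ≠ 0) →
      ¬ QEquiv n X (fun P => x * L P + y * D P) fun _ => 0) :
    ∃ C : Set (Place ℂ K → ℝ), IsCone C ∧ (∀ x, x ∈ C ∨ -x ∈ C) ∧ {f | Eff n X f} ⊆ C ∧
      (∀ E, PosDiv n X E → ∀ a ∈ A, (fun P => E P + a P) ∉ C) ∧
      (fun P => -L P) ∉ C ∧ (fun P => -D P) ∉ C := by
  classical
  obtain ⟨C, hEC, hC, htot, hS⟩ := exists_total_avoid (E := {f | Eff n X f})
    (S := {f | (∃ E, PosDiv n X E ∧ ∃ a ∈ A, f = fun P => E P + a P) ∨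
      ∃ x y : ℚ, 0 ≤ x ∧ 0 ≤ y ∧ (x = 0 → y ≠ 0) ∧ f = fun P => -(x * L P + y * D P)})
    isCone_eff (by
      have key : ∀ E, PosDiv n X E → ∀ a ∈ A, ∀ x y : ℚ, ∃ E', PosDiv n X E' ∧ ∃ a' ∈ A,
          (fun P => E P + a P) + (fun P => -(x * L P + y * D P)) = fun P => E' P + a' P := by
        intro E hE a ha x y
        refine ⟨E, hE, _, hA.add _ ha _ (hA.add _ (hA.rat _ hA.mem (-x)) _ (hA.rat _ hD (-y))), ?_⟩
        funext P
        rw [Pi.add_apply]
        push_cast
        ring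
      rintro f (⟨E, hE, a, ha, rfl⟩ | ⟨x, y, hx, hy, hxy, rfl⟩) g
        (⟨E', hE', a', ha', rfl⟩ | ⟨x', y', hx', hy', hxy', rfl⟩)
      · refine Or.inl ⟨fun P => E P + E' P, ⟨fun P hPX hP => add_nonneg (hE.1 P hPX hP)
          (hE'.1 P hPX hP), ?_⟩, _, hA.add _ ha _ ha', ?_⟩
        · obtain ⟨P0, hP0X, hP0, h0⟩ := hE.2
          exact ⟨P0, hP0X, hP0, add_pos_of_pos_of_nonneg h0 (hE'.1 P0 hP0X hP0)⟩
        · funext P
          rw [Pi.add_apply]
          ring
      · exact Or.inl (key E hE a ha x' y')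
      · rw [add_comm]
        exact Or.inl (key E' hE' a' ha' x y)
      · refine Or.inr ⟨x + x', y + y', add_nonneg hx hx', add_nonneg hy hy', fun h => ?_, ?_⟩
        · have h1 : x = 0 := by linarith
          have h2 := hxy h1
          have h3 : 0 < y := lt_of_le_of_ne hy (Ne.symm h2)
          intro h4
          linarith
        · funext P
          rw [Pi.add_apply]
          push_cast
          ring) (by
      rintro f (⟨E, hE, a, ha, rfl⟩ | ⟨x, y, hx, hy, hxy, rfl⟩) hf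
      · exact hA.posdiv_not_eff hE ha hf
      · have h1 : (fun P => -(x * L P + y * D P)) ∈ A := by
          have h2 := hA.add _ (hA.rat _ hA.mem (-x)) _ (hA.rat _ hD (-y))
          convert h2 using 1
          funext P
          push_cast
          ring
        obtain ⟨N, z, hN, hz, h2⟩ := hA.equiv_of_eff h1 hf
        refine hLD x y hx hy hxy ⟨N, z⁻¹, hN, inv_ne_zero hz, fun P hPX hP => ?_⟩
        have h3 := h2 P hPX hP
        rw [P.ord_inv]
        push_cast
        rw [← h3]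
        ring)
  refine ⟨C, hC, htot, hEC, fun E hE a ha => hS _ (Or.inl ⟨E, hE, a, ha, rfl⟩),
    hS _ (Or.inr ⟨1, 0, zero_le_one, le_rfl, fun h => absurd h one_ne_zero, ?_⟩),
    hS _ (Or.inr ⟨0, 1, le_rfl, zero_le_one, fun _ => one_ne_zero, ?_⟩)⟩
  · funext P
    push_cast
    ring
  · funext P
    push_cast
    ring

/-- **Tensors and foliations.** -/
theorem fol_of_tensor [Algebra.EssFiniteType ℂ K] [Module.Finite K (Derivation ℂ K K)]
    (hn : 1 ≤ n) (htr : Algebra.trdeg ℂ K = n) (hδ : ∀ P ∈ X, 0 ≤ δ P ∧ δ P ≤ 1)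
    {ω : (Fin n → Derivation ℂ K K) → K} (hω : IsPluri 1 ω) (hω0 : ∃ D, ω D ≠ 0)
    (hk : DivOf n X ω k) (hG : ∀ g ∈ G, MPreserves X δ (fun _ => (0 : ℝ)) g)
    (hno : ¬ Eff n X fun P => -(k P + δ P))
    (hA : NullGroup n X G (fun P => k P + δ P) A)
    (hpos : ∀ W : Submodule K (Derivation ℂ K K), InvSub G W →
      vs δ W ∈ A ∨ ∃ E, PosDiv n X E ∧ (fun P => vs δ W P + E P) ∈ A)
    {p : ℕ} (hp : 0 < p) {γ : Place ℂ K → ℝ} (hγA : γ ∈ A)
    (hγ : ∀ r : ℚ, r ≤ -(p / n : ℚ) → ¬ QEquiv n X γ fun P => r * (k P + δ P))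
    {t : MTensor K (Fin p)} (ht : MAdapted n X δ γ t) (ht0 : t ≠ 0) :
    ∃ (W : Submodule K (Derivation ℂ K K)) (κ : Place ℂ K → ℝ), W ≠ ⊥ ∧ W ≠ ⊤ ∧
      (∀ D ∈ W, ∀ E ∈ W, ⁅D, E⁆ ∈ W) ∧ Invariant G W ∧ CanonicalDivisor n X δ W κ ∧ κ ∈ A := by
  classical
  obtain ⟨x0, b0, hF⟩ := exists_fr htr
  have hpq : (0 : ℚ) < p := by exact_mod_cast hp
  have hnq : (0 : ℚ) < n := by exact_mod_cast hn
  have hnR : (0 : ℝ) < n := by exact_mod_cast hn
  obtain ⟨D, hDd⟩ : ∃ D : Place ℂ K → ℝ, D = fun P => γ P + (p : ℝ) / n * (k P + δ P) := ⟨_, rfl⟩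
  have hDA : D ∈ A := by
    have h1 := hA.add _ hγA _ (hA.rat _ hA.mem (p / n))
    convert h1 using 1
    rw [hDd]
    funext P
    push_cast
    ring
  obtain ⟨C, hC, htot, hEC, hEpos, hLC, hDC⟩ := hA.exists_cone2 hDA (by
    intro x y hx hy hxy h
    rcases hy.lt_or_eq with hy' | hy'
    · refine hγ (-(p / n : ℚ) - x / y) ?_ ?_
      · have h1 := div_nonneg hx hy
        linarith
      · obtain ⟨N, z, hN, hz, h1⟩ := h
        have hyR : (0 : ℝ) < y := by exact_mod_cast hy'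
        have hnum : 0 < y.num := Rat.num_pos.mpr hy'
        refine ⟨y.num.toNat * N, z ^ y.den, Nat.mul_pos (by omega) hN, pow_ne_zero _ hz,
          fun P hPX hP => ?_⟩
        have h2 := h1 P hPX hP
        have h3 : ((y.num.toNat : ℤ) : ℝ) = y.num := by rw [Int.toNat_of_nonneg hnum.le]
        have h4 : (y : ℝ) * y.den = y.num := by exact_mod_cast Rat.mul_den_eq_num y
        rw [P.ord_pow]
        push_cast at h3 ⊢
        rw [← h2, h3, ← h4, hDd]
        field_simp
        ring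
    · have hx' : 0 < x := lt_of_le_of_ne hx fun h0 => hxy h0.symm hy'.symm
      apply hno
      obtain ⟨N, z, hN, hz, h1⟩ := h
      have hnum : 0 < x.num := Rat.num_pos.mpr hx'
      refine ⟨x.num.toNat * N, Nat.mul_pos (by omega) hN, (z ^ x.den)⁻¹,
        inv_ne_zero (pow_ne_zero _ hz), fun P hPX hP => ?_⟩
      have h2 := h1 P hPX hP
      have h3 : ((x.num.toNat : ℤ) : ℝ) = x.num := by rw [Int.toNat_of_nonneg hnum.le]
      have h4 : (x : ℝ) * x.den = x.num := by exact_mod_cast Rat.mul_den_eq_num x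
      rw [← hy'] at h2
      rw [P.ord_inv, P.ord_pow]
      push_cast at h2 h3 ⊢
      rw [← h2, h3, ← h4]
      refine le_of_eq ?_
      ring)
  obtain ⟨ytop, hytop, hvt⟩ := vs_top htr hδ hω hω0 hk
  have htopn : vs δ (⊤ : Submodule K (Derivation ℂ K K)) ∉ C := by
    intro h
    apply hLC
    exact cone_congr hC hEC h (inv_ne_zero hytop) fun P hPX hP => by
      rw [hvt P hPX hP, P.ord_inv]
      push_cast
      ring
  obtain ⟨F, s, hF0, hFG, hFs, hsC, hmax, hbr⟩ :=
    exists_max_slope hn htr hδ hC htot hEC ⟨⊤, fun _ _ _ _ => Submodule.mem_top, htopn⟩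
  have hr : 0 < Module.finrank K F := by
    have : Nontrivial F := Submodule.nontrivial_iff_ne_bot.mpr hF0
    exact Module.finrank_pos
  have hFC : vs δ F ∉ C := by
    intro h
    apply hsC
    have h1 := hC.rat h (q := ((Module.finrank K F : ℕ) : ℚ)⁻¹) (by positivity)
    convert h1 using 1
    funext P
    have hrR : (0 : ℝ) < Module.finrank K F := by exact_mod_cast hr
    rw [hFs]
    push_cast
    field_simp
  have hFA : vs δ F ∈ A := by
    rcases hpos F hFG with h1 | ⟨E, hE, h1⟩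
    · exact h1
    · exfalso
      apply hFC
      have h2 := hEpos E hE _ (hA.rat _ h1 (-1))
      have h3 := (htot _).resolve_left h2
      convert h3 using 1
      funext P
      rw [Pi.neg_apply]
      push_cast
      ring
  obtain ⟨θ0, hθ0, hθd⟩ := leafDiv htr hδ F
  refine ⟨F, fun P => -vs δ F P, hF0, ?_, hbr, invariant_iff.mpr hFG, ⟨θ0, hθ0, hθd⟩, ?_⟩
  · rintro rfl
    obtain ⟨s0, hs0d⟩ : ∃ s0 : MultilinearMap K (fun _ : Fin p =>
        (⊤ : Submodule K (Derivation ℂ K K))) (AlgebraicClosure K),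
        s0 = t.compLinearMap fun _ => (⊤ : Submodule K (Derivation ℂ K K)).subtype := ⟨_, rfl⟩
    have hs0 : LeafAdapted n X δ γ ⊤ s0 := by
      intro P hPX hP D hD
      rw [hs0d]
      exact ht P hPX hP (fun a => (D a : Derivation ℂ K K)) hD
    have hs0' : s0 ≠ 0 := by
      intro h0
      apply ht0
      ext D
      have h1 := congrArg (fun t => t fun a => (⟨D a, Submodule.mem_top⟩ :
        (⊤ : Submodule K (Derivation ℂ K K)))) h0
      rw [hs0d] at h1
      exact h1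
    have h1 := (tensor_slope hn htr hδ hG hC hEC hFG hFs (fun W hW _ => hmax W hW) hp
      (hA.inv _ hγA) hs0 hs0').1
    apply hDC
    have h2 : ∀ P ∈ X, Divisorial n P → s P = -(k P + δ P) / n + P.ord ytop / n := by
      intro P hPX hP
      have h3 := hFs P
      rw [hvt P hPX hP, finrank_top, hF.finrank] at h3
      field_simp
      linarith
    have h3 : (fun P => (-D P : ℝ)) - (fun P => (p : ℝ) * s P - γ P) ∈ C := by
      refine hEC ⟨n, hn, ytop ^ (-(p : ℤ)), zpow_ne_zero _ hytop, fun P hPX hP => ?_⟩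
      rw [Pi.sub_apply, h2 P hPX hP, hDd, P.ord_zpow]
      push_cast
      refine le_of_eq ?_
      field_simp
      ring
    have h4 := hC.add _ h3 _ h1
    rwa [sub_add_cancel] at h4
  · have h1 := hA.rat _ hFA (-1)
    convert h1 using 1
    funext P
    push_cast
    ring

end

end Pool.Agent.Zk28.TF
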