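import Pool.Agent.Zk28.TF.SP3
import Pool.Agent.Zk28.TF.Fib

/-!
Foliations with algebraic images along a divisor: invariant fibrations and rigid divisors.
-/

set_option autoImplicit false
set_option linter.unusedSectionVars false

open FF Pool.Agent.W602.GT

namespace Pool.Agent.Zk28.TF

open Pool.Agent.Zk28.TS

section

variable {K : Type} [Field K] [Algebra ℂ K] {n : ℕ}

open scoped IntermediateField.algebraAdjoinAdjoin in
/-- If a divisor of an invariant class moves then there is an invariant fibration. -/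
theorem moving_fib' [Algebra.EssFiniteType ℂ K] (htr : Algebra.trdeg ℂ K = n)
    {X : Set (Place ℂ K)} {δ : Place ℂ K → ℝ}
    {G : Set (K ≃ₐ[ℂ] K)} (hG : ∀ σ ∈ G, MPreserves X δ (fun _ => (0 : ℝ)) σ)
    {e : Place ℂ K → ℝ} (he : InvariantClass n X G e)
    (he0 : ∀ P ∈ X, Divisorial n P → 0 ≤ e P)
    {F : Submodule K (Derivation ℂ K K)} (hF0 : F ≠ ⊥) (hF1 : F ≠ ⊤) (hFG : Invariant G F)
    (himg : ∀ (a d : ℕ) (x : Fin (d + 1) → K), x 0 ≠ 0 →
      (∀ i, ∀ P ∈ X, Divisorial n P → x i = 0 ∨ -(a * e P) ≤ P.ord (x i)) →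
      AlgebraicIndependent (firstIntegrals F) (fun a : Fin d => x a.succ / x 0) →
      LinearIndependent K fun a : Fin d => dd F (x a.succ / x 0))
    {f : K} (hf : Transcendental ℂ f) {a0 : ℕ} (hfa : Sec n X e a0 f) :
    PreservesFibration G := by
  classical
  let E0 : IntermediateField ℂ K := IntermediateField.adjoin ℂ (Ratios n X e)
  let E : IntermediateField ℂ K := (algebraicClosure E0 K).restrictScalars ℂ
  have hmem : ∀ g : K, g ∈ E ↔ IsAlgebraic E0 g := fun g =>
    mem_algebraicClosure_iff (F := E0) (E := K)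
  have hE0E : ∀ g ∈ E0, g ∈ E := fun g hg => (hmem g).mpr (isAlgebraic_algebraMap (⟨g, hg⟩ : E0))
  have halgE : ∀ g : K, IsAlgebraic E g → g ∈ E := by
    intro g hg
    have h1 : IsAlgebraic (algebraicClosure E0 K) g := hg
    rw [hmem]
    exact h1.restrictScalars E0
  have hfE : f ∈ E := by
    apply hE0E
    refine IntermediateField.subset_adjoin _ _ ⟨a0, f, 1, hfa, ⟨one_ne_zero, fun P hPX hP => ?_⟩,
      (div_one f).symm⟩
    rw [P.ord_one]
    push_cast
    have := mul_nonneg (Nat.cast_nonneg (α := ℝ) a0) (he0 P hPX hP)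
    linarith
  by_cases hK : Algebra.IsAlgebraic E K
  · -- the foliation
    have hK0 : Algebra.IsAlgebraic E0 K := ⟨fun g => (hmem g).mp (halgE g (hK.isAlgebraic g))⟩
    have hK1 : Algebra.IsAlgebraic (Algebra.adjoin ℂ (Ratios n X e)) K :=
      ⟨fun g => (hK0.isAlgebraic g).restrictScalars _⟩
    obtain ⟨t, htR, ht⟩ := exists_isTranscendenceBasis_subset (R := ℂ) (A := K) (Ratios n X e)
    have hcard := ht.cardinalMk_eq_trdeg
    rw [htr] at hcard
    have htfin : Fintype t := by
      have : Finite t := Cardinal.lt_aleph0_iff_finite.mp (by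
        rw [hcard]
        exact Cardinal.natCast_lt_aleph0)
      exact Fintype.ofFinite t
    have hcard' : Fintype.card t = n := by
      have h1 := Cardinal.mk_fintype t
      rw [hcard] at h1
      exact_mod_cast h1.symm
    let ε : Fin n ≃ t := (Fintype.equivFinOfCardEq hcard').symm
    obtain ⟨a, x, hx, hxz⟩ := common_denominator (n := n) (X := X) (e := e)
      (fun i : Fin n => ((ε i : t) : K)) fun i => htR (ε i).2
    obtain ⟨x', b', hFr⟩ := exists_fr htr
    have hfin := hFr.finite
    refine ⟨integralField F, ?_, ?_, fun g hg => integralField_closed hg, fun σ hσ => ?_⟩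
    · by_contra hno'
      push Not at hno'
      have halg : Algebra.IsAlgebraic ℂ (firstIntegrals F) := by
        refine ⟨fun g => ?_⟩
        have h1 : ¬ Transcendental ℂ (g : K) := hno' _ g.2
        rw [Transcendental, not_not] at h1
        exact (isAlgebraic_algHom_iff (firstIntegrals F).val Subtype.val_injective).mp h1
      have hz : AlgebraicIndependent ℂ fun i : Fin n => x i.succ / x 0 := by
        have h1 : (fun i : Fin n => x i.succ / x 0) = (fun i : t => (i : K)) ∘ ε := funext hxz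
        rw [h1]
        exact ht.1.comp _ ε.injective
      have hz' : AlgebraicIndependent (firstIntegrals F) fun i : Fin n => x i.succ / x 0 :=
        hz.extendScalars (firstIntegrals F)
      have hli := himg a n x (hx 0).1 (fun i P hPX hP => Or.inr ((hx i).2 P hPX hP)) hz'
      have h1 := hli.fintype_card_le_finrank
      rw [Fintype.card_fin, Subspace.dual_finrank_eq] at h1
      have h2 := Submodule.finrank_lt hF1
      rw [hFr.finrank] at h2
      omega
    · intro halg
      apply hF0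
      rw [Submodule.eq_bot_iff]
      intro D hD
      ext g
      exact der_alg (S := (integralField F).toSubalgebra) (fun s hs => hs D hD)
        (halg.isAlgebraic g)
    · refine stable_symm htr (integralField F) (fun g hg => integralField_closed hg) σ ?_
      intro g hg D hD
      have h1 : conj σ D ∈ F := hFG σ hσ D hD _ fun f => by
        rw [conj_apply, AlgEquiv.symm_apply_apply]
      have h2 : conj σ D g = 0 := hg _ h1
      rw [conj_apply] at h2
      exact (map_eq_zero_iff _ σ.injective).mp h2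
  · refine ⟨E, ⟨f, hfE, hf⟩, hK, halgE, fun σ hσ => ?_⟩
    refine stable_symm htr E halgE σ ?_
    obtain ⟨N, hN, hNz⟩ := ratios_stable he hσ (hG σ hσ)
    have h0 : ∀ g ∈ E0, σ.symm g ∈ E := by
      have h1 : E0 ≤ E.comap (σ.symm : K →ₐ[ℂ] K) := by
        refine IntermediateField.adjoin_le_iff.mpr fun z hz => ?_
        change σ.symm z ∈ E
        rw [hmem]
        refine IsAlgebraic.of_pow hN ?_
        exact isAlgebraic_algebraMap
          (⟨_, IntermediateField.subset_adjoin ℂ _ (hNz z hz)⟩ : E0)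
      exact fun g hg => h1 hg
    intro g hg
    apply halgE
    exact isAlg_map (S := E0.toSubalgebra) (E := E.toSubalgebra) σ.symm h0 ((hmem g).mp hg)

/-- A divisor of an invariant class no multiple of which moves is invariant. -/
theorem invariant_of_rigid {X : Set (Place ℂ K)} {G : Set (K ≃ₐ[ℂ] K)} {e : Place ℂ K → ℝ}
    (he : InvariantClass n X G e) (he0 : ∀ P ∈ X, Divisorial n P → 0 ≤ e P)
    (hrig : ∀ (a : ℕ) (f : K), (∀ P ∈ X, Divisorial n P → -(a * e P) ≤ P.ord f) →
      ∃ c : ℂ, algebraMap ℂ K c = f)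
    {δ β : Place ℂ K → ℝ} (hG : ∀ σ ∈ G, MPreserves X δ β σ) :
    ∀ σ ∈ G, ∀ P ∈ X, Divisorial n P → ∀ Q ∈ X, Divisorial n Q →
      (∀ f, Q.ord (σ f) = P.ord f) → e Q = e P := by
  intro σ hσ P hPX hP Q hQX hQ hQP
  obtain ⟨N, hN, z, hz, h1⟩ := he σ hσ
  have h2 : ∃ c : ℂ, algebraMap ℂ K c = z := by
    refine hrig N z fun P' hP'X hP' => ?_
    obtain ⟨Q', hQ'X, hQ'd, -, -, hQ', -, -⟩ := place_transport (n := n) (hG σ hσ) hP'X hP'
    have h3 := h1 P' hP'X hP' Q' hQ'X hQ'd hQ'
    have h4 := mul_nonneg (Nat.cast_nonneg (α := ℝ) N) (he0 Q' hQ'X hQ'd)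
    rw [← h3]
    linarith
  obtain ⟨c, rfl⟩ := h2
  have h3 := h1 P hPX hP Q hQX hQ hQP
  have hc : c ≠ 0 := by
    rintro rfl
    exact hz (map_zero _)
  rw [P.ord_const hc] at h3
  have h4 : (0 : ℝ) < N := Nat.cast_pos.mpr hN
  have h5 : (N : ℝ) * (e Q - e P) = 0 := by simpa using h3
  rcases mul_eq_zero.mp h5 with h6 | h6
  · exact absurd h6 h4.ne'
  · linarith

/-- An invariant fibration, or a rigid invariant divisor. -/
theorem fib_or_rigid [Algebra.EssFiniteType ℂ K] (htr : Algebra.trdeg ℂ K = n)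
    {X : Set (Place ℂ K)} {δ : Place ℂ K → ℝ} {G : Set (K ≃ₐ[ℂ] K)}
    (hG : ∀ σ ∈ G, MPreserves X δ (fun _ => (0 : ℝ)) σ) {L : Place ℂ K → ℝ}
    {A : Set (Place ℂ K → ℝ)} (hA : NullGroup n X G L A)
    {e : Place ℂ K → ℝ} (he : InvariantClass n X G e)
    (he0 : ∀ P ∈ X, Divisorial n P → 0 ≤ e P)
    {F : Submodule K (Derivation ℂ K K)} (hF0 : F ≠ ⊥) (hF1 : F ≠ ⊤) (hFG : Invariant G F)
    (himg : ∀ M : Place ℂ K → ℝ, InvariantClass n X G M →
      (∃ c : ℚ, EffMod n X A fun P => c * e P - M P) →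
      ∀ (d : ℕ) (x : Fin (d + 1) → K), x 0 ≠ 0 →
      (∀ i, ∀ P ∈ X, Divisorial n P → x i = 0 ∨ -M P ≤ P.ord (x i)) →
      AlgebraicIndependent (firstIntegrals F) (fun a : Fin d => x a.succ / x 0) →
      LinearIndependent K fun a : Fin d => dd F (x a.succ / x 0)) :
    PreservesFibration G ∨
      (∀ (a : ℕ) (f : K), (∀ P ∈ X, Divisorial n P → -(a * e P) ≤ P.ord f) →
        ∃ c : ℂ, algebraMap ℂ K c = f) ∧
      ∀ σ ∈ G, ∀ P ∈ X, Divisorial n P → ∀ Q ∈ X, Divisorial n Q →
        (∀ f, Q.ord (σ f) = P.ord f) → e Q = e P := by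
  by_cases h : PreservesFibration G
  · exact Or.inl h
  right
  have hrig : ∀ (a : ℕ) (f : K), (∀ P ∈ X, Divisorial n P → -(a * e P) ≤ P.ord f) →
      ∃ c : ℂ, algebraMap ℂ K c = f := by
    intro a f hfa
    by_cases hf0 : f = 0
    · exact ⟨0, by rw [hf0, map_zero]⟩
    have h1 : ¬ Transcendental ℂ f := by
      intro hf
      refine h (moving_fib' htr hG he he0 hF0 hF1 hFG (fun a d x hx0 hx => ?_) hf
        (a0 := a) ⟨hf0, hfa⟩)
      refine himg (fun P => a * e P) ?_ ⟨a, fun _ => 0, fun _ _ _ => le_rfl, ?_⟩ d x hx0 hx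
      · have h2 := inv_comb he he a 0
        convert h2 using 1
        funext P
        push_cast
        ring
      · have h2 := hA.zero_mem
        convert h2 using 1
        funext P
        push_cast
        ring
    rw [Transcendental, not_not] at h1
    exact minpoly.mem_range_of_degree_eq_one ℂ f
      (IsAlgClosed.degree_eq_one_of_irreducible ℂ (minpoly.irreducible h1.isIntegral))
  exact ⟨hrig, invariant_of_rigid he he0 hrig hG⟩

end

end Pool.Agent.Zk28.TF
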