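import Pool.Agent.Zk28.TF.Main
import Pool.Agent.Zk28.TF.Defs2

/-!
The slope theory of the tangent bundle for a degree order.
-/

set_option autoImplicit false
set_option linter.unusedSectionVars false

open FF Pool.Agent.W602.GT

namespace Pool.Agent.Zk28.TF

open Pool.Agent.Zk28.TS

section

variable {K : Type} [Field K] [Algebra ℂ K] {n : ℕ}

/-- the opposite cone -/
def opp (Pos : Set (Place ℂ K → ℝ)) : Set (Place ℂ K → ℝ) := {f | (fun P => -f P) ∈ Pos}

theorem DegreeOrder.isCone {X : Set (Place ℂ K)} {Pos : Set (Place ℂ K → ℝ)}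
    (h : DegreeOrder n X Pos) : IsCone (opp Pos) := by
  refine ⟨?_, ?_, ?_⟩
  · refine h.effective _ fun P _ _ => ?_
    simp
  · intro x hx y hy
    have h1 := h.add _ hx _ hy
    have h2 : (fun P => -x P) + (fun P => -y P) = fun P => -(x + y) P := by
      funext P
      simp only [Pi.add_apply]
      ring
    rw [h2] at h1
    exact h1
  · intro N x hN hx
    refine h.div N _ hN ?_
    have h2 : (fun P => (N : ℝ) * -x P) = fun P => -(N • x) P := by
      funext P
      rw [Pi.smul_apply, nsmul_eq_mul]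
      ring
    rw [h2]
    exact hx

theorem DegreeOrder.tot {X : Set (Place ℂ K)} {Pos : Set (Place ℂ K → ℝ)}
    (h : DegreeOrder n X Pos) (x : Place ℂ K → ℝ) : x ∈ opp Pos ∨ -x ∈ opp Pos := by
  rcases h.total x with h1 | h1
  · right
    have h2 : (fun P => -(-x) P) = x := by
      funext P
      rw [Pi.neg_apply, neg_neg]
    change (fun P => -(-x) P) ∈ Pos
    rw [h2]
    exact h1
  · left
    exact h1

theorem DegreeOrder.eff_subset {X : Set (Place ℂ K)} {Pos : Set (Place ℂ K → ℝ)}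
    (h : DegreeOrder n X Pos) : {f | Eff n X f} ⊆ opp Pos := by
  rintro f ⟨N, hN, y, hy, hf⟩
  refine h.div N _ hN ?_
  have h1 := h.add (fun P => (N : ℝ) * -f P + P.ord y) (h.effective _ fun P hPX hP => by
    linarith [hf P hPX hP]) _ (h.principal y⁻¹ (inv_ne_zero hy))
  have h2 : ((fun P => (N : ℝ) * -f P + P.ord y) + fun P : Place ℂ K => (P.ord y⁻¹ : ℝ)) =
      fun P => (N : ℝ) * -f P := by
    funext P
    rw [Pi.add_apply, P.ord_inv]
    push_cast
    ring
  rw [h2] at h1
  exact h1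

/-- The cones are degree orders. -/
theorem degreeOrder_of_cone {X : Set (Place ℂ K)} {C : Set (Place ℂ K → ℝ)}
    (hEC : {f | Eff n X f} ⊆ C) (hC : IsCone C) (htot : ∀ x, x ∈ C ∨ -x ∈ C) :
    DegreeOrder n X (opp C) := by
  refine ⟨?_, ?_, ?_, ?_, ?_⟩
  · intro x hx y hy
    have h1 := hC.add _ hx _ hy
    have h2 : (fun P => -x P) + (fun P => -y P) = fun P => -(x + y) P := by
      funext P
      simp only [Pi.add_apply]
      ring
    rw [h2] at h1
    exact h1
  · intro N x hN hx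
    refine hC.root N _ hN ?_
    have h2 : (N • fun P => -x P) = fun P => -((N : ℝ) * x P) := by
      funext P
      rw [Pi.smul_apply, nsmul_eq_mul]
      ring
    rw [h2]
    exact hx
  · intro x
    rcases htot x with h1 | h1
    · right
      have h2 : (fun P => -(fun P => -x P) P) = x := by
        funext P
        rw [neg_neg]
      change (fun P => -(fun P => -x P) P) ∈ C
      rw [h2]
      exact h1
    · left
      exact h1
  · intro D hD
    refine hEC ⟨1, Nat.one_pos, 1, one_ne_zero, fun P hPX hP => ?_⟩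
    rw [P.ord_one]
    push_cast
    linarith [hD P hPX hP]
  · intro z hz
    refine hEC ⟨1, Nat.one_pos, z⁻¹, inv_ne_zero hz, fun P hPX hP => ?_⟩
    rw [P.ord_inv]
    push_cast
    linarith

/-- The conjugates of leafwise tensors with values in an invariant class. -/
theorem pull_inv {X : Set (Place ℂ K)}
    {δ β : Place ℂ K → ℝ} {G : Set (K ≃ₐ[ℂ] K)} {γ : Place ℂ K → ℝ}
    (hγ : InvariantClass n X G γ) {σ : K ≃ₐ[ℂ] K} (hσG : σ ∈ G)
    (hσ : MPreserves X δ β σ) {V : Submodule K (Derivation ℂ K K)}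
    (hV : ∀ D ∈ V, conj σ D ∈ V) {m : ℕ}
    {s : MultilinearMap K (fun _ : Fin m => V) (AlgebraicClosure K)}
    (hs : LeafAdapted n X δ γ V s) {u : Fin m → V}
    (hu : s (fun a => vconj σ hV (u a)) ≠ 0) :
    ∃ s', LeafAdapted n X δ γ V s' ∧ s' u ≠ 0 := by
  obtain ⟨N, hN, z, hz, hzk⟩ := hγ σ hσG
  obtain ⟨τ, hτ⟩ := exists_lift σ
  obtain ⟨ζ, hζ⟩ := IsAlgClosed.exists_pow_nat_eq
    (algebraMap K (AlgebraicClosure K) z) hN
  have hζ0 : ζ ≠ 0 := by
    intro h0
    rw [h0, zero_pow hN.ne'] at hζ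
    exact hz ((map_eq_zero _).mp hζ.symm)
  refine ⟨ζ • lpull σ hV τ hτ s, ?_, ?_⟩
  · intro P hPX hP D hD
    obtain ⟨Q, hQX, hQd, hδ, hβ, hQ, hreg, hlog⟩ := place_transport (n := n) hσ hPX hP
    have h1 := hs Q hQX hQd (fun a => vconj σ hV (D a)) fun a => hreg _ (hD a)
    have h2 : {a | ¬ DerLog Q ((vconj σ hV (D a) : V) : Derivation ℂ K K)} =
        {a | ¬ DerLog P (D a : Derivation ℂ K K)} := by
      ext a
      exact not_congr (hlog _)
    have h3 := hzk P hPX hP Q hQX hQd hQ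
    rw [h2, hδ] at h1
    have h5 : AlgOrd P _ (lpull σ hV τ hτ s D) := h1.image σ τ hτ hQ
      (RingEquiv.apply_symm_apply _ _)
    have h6 := AlgOrd.mul_root h5 hN hz hζ
    have h7 : (P.ord z : ℝ) / N = γ Q - γ P := by
      rw [← h3]
      have h8 : (N : ℝ) ≠ 0 := by exact_mod_cast hN.ne'
      field_simp
    rw [h7] at h6
    change AlgOrd P _ (ζ * lpull σ hV τ hτ s D)
    convert h6 using 1
    ring
  · change ζ • τ.symm (s fun a => vconj σ hV (u a)) ≠ 0
    rw [smul_eq_mul]
    exact mul_ne_zero hζ0 ((map_ne_zero_iff _ τ.symm.injective).mpr hu)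

/-- The minimum of the slope filtration over a set of twists. -/
theorem slope_main [Algebra.EssFiniteType ℂ K] [Module.Finite K (Derivation ℂ K K)]
    (hn : 1 ≤ n) (htr : Algebra.trdeg ℂ K = n)
    {X : Set (Place ℂ K)} {δ β l : Place ℂ K → ℝ} (hδ : ∀ P ∈ X, 0 ≤ δ P ∧ δ P ≤ 1)
    {G : Set (K ≃ₐ[ℂ] K)} (hG : ∀ σ ∈ G, MPreserves X δ β σ)
    {C : Set (Place ℂ K → ℝ)} (hEC : {f | Eff n X f} ⊆ C) (hC : IsCone C)
    (htot : ∀ x, x ∈ C ∨ -x ∈ C) (hlC : l ∈ C)
    (Adm : ℚ → Prop) (h0 : Adm 0)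
    (hne : ∀ t, Adm t → ∃ W : Submodule K (Derivation ℂ K K), InvSub G W ∧
      ¬ hh n δ (fun P => β P + (t : ℝ) * l P) W ∈ C) :
    ∃ F : Submodule K (Derivation ℂ K K), F ≠ ⊥ ∧
      ((fun P => -β P) ∈ C → ∀ D ∈ F, ∀ E ∈ F, ⁅D, E⁆ ∈ F) ∧
      (∀ σ ∈ G, ∀ D ∈ F, ∀ E, Image σ D E → E ∈ F) ∧
      ∀ m : ℕ, 0 < m → ∀ t : ℚ, Adm t → ∀ γ : Place ℂ K → ℝ, InvariantClass n X G γ →
        (fun P => γ P - (m : ℝ) / n * (β P + t * l P)) ∈ C →
        ∀ s : MultilinearMap K (fun _ : Fin m => F) (AlgebraicClosure K),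
        LeafAdapted n X δ γ F s → s = 0 := by
  classical
  have hn' : (0 : ℝ) < n := by exact_mod_cast hn
  have hnq : (0 : ℚ) < n := by exact_mod_cast hn
  let H : ℚ → Submodule K (Derivation ℂ K K) → Place ℂ K → ℝ := fun t V =>
    hh n δ (fun P => β P + (t : ℝ) * l P) V
  have hsuper : ∀ (t : ℚ) a c, H t a + H t c - (H t (a ⊔ c) + H t (a ⊓ c)) ∈ C :=
    fun t a c => hEC (hh_super htr hδ a c)
  -- comparison of the twists
  have hcomp : ∀ (t t' : ℚ) (V W : Submodule K (Derivation ℂ K K)), t ≤ t' →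
      Module.finrank K V ≤ Module.finrank K W → H t V - H t W ∈ C → H t' V - H t' W ∈ C := by
    intro t t' V W htt hVW h
    have hq : (0 : ℚ) ≤ ((Module.finrank K W : ℚ) - Module.finrank K V) / n * (t' - t) := by
      have h1 : (Module.finrank K V : ℚ) ≤ Module.finrank K W := by exact_mod_cast hVW
      exact mul_nonneg (div_nonneg (by linarith) hnq.le) (by linarith)
    have h1 := hC.add _ h _ (hC.rat hlC hq)
    have h2 : H t V - H t W + (fun P => ((((Module.finrank K W : ℚ) - Module.finrank K V) / n *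
        (t' - t) : ℚ) : ℝ) * l P) = H t' V - H t' W := by
      simp only [H]
      rw [hh_twist (n := n) δ β l V t' t, hh_twist (n := n) δ β l W t' t]
      funext P
      simp only [Pi.add_apply, Pi.sub_apply]
      push_cast
      ring
    rw [h2] at h1
    exact h1
  have hcomp' : ∀ (t t' : ℚ) (V W : Submodule K (Derivation ℂ K K)), t ≤ t' →
      Module.finrank K V ≤ Module.finrank K W → H t' W - H t' V ∈ C → H t W - H t V ∈ C := by
    intro t t' V W htt hVW h
    have hq : (0 : ℚ) ≤ ((Module.finrank K W : ℚ) - Module.finrank K V) / n * (t' - t) := by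
      have h1 : (Module.finrank K V : ℚ) ≤ Module.finrank K W := by exact_mod_cast hVW
      exact mul_nonneg (div_nonneg (by linarith) hnq.le) (by linarith)
    have h1 := hC.add _ h _ (hC.rat hlC hq)
    have h2 : H t' W - H t' V + (fun P => ((((Module.finrank K W : ℚ) - Module.finrank K V) / n *
        (t' - t) : ℚ) : ℝ) * l P) = H t W - H t V := by
      simp only [H]
      rw [hh_twist (n := n) δ β l V t' t, hh_twist (n := n) δ β l W t' t]
      funext P
      simp only [Pi.add_apply, Pi.sub_apply]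
      push_cast
      ring
    rw [h2] at h1
    exact h1
  -- strict minima
  let Good : ℚ → Submodule K (Derivation ℂ K K) → Prop := fun t V => InvSub G V ∧
    (∀ W, InvSub G W → H t W - H t V ∈ C) ∧ ∀ W, InvSub G W → W < V → ¬ H t V - H t W ∈ C
  have hgood : ∀ t : ℚ, ∃ V, Good t V := fun t =>
    exists_strict_min hC htot
      (L := fun W : Submodule K (Derivation ℂ K K) => InvSub G W) invSub_bot
      (fun _ _ _ _ => Submodule.mem_top) (fun _ _ => invSub_sup) (fun _ _ => invSub_inf)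
      (fun W => Module.finrank K W) (fun _ _ h => Submodule.finrank_lt_finrank_of_lt h)
      (H t) fun a c _ _ => hsuper t a c
  have hex : ∃ d, ∃ t : ℚ, Adm t ∧ t ≤ 0 ∧ ∃ V, Good t V ∧ Module.finrank K V = d := by
    obtain ⟨V, hV⟩ := hgood 0
    exact ⟨_, 0, h0, le_rfl, V, hV, rfl⟩
  obtain ⟨t0, ht0, ht0', V, hVgood, hVd⟩ := Nat.find_spec hex
  have hminimal : ∀ (t : ℚ) (V' : Submodule K (Derivation ℂ K K)), Adm t → t ≤ 0 →
      Good t V' → Module.finrank K V ≤ Module.finrank K V' := by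
    intro t V' h1 h2 h3
    rw [hVd]
    exact Nat.find_min' hex ⟨t, h1, h2, V', h3, rfl⟩
  have hV := hVgood.1
  -- the properties of the distribution for all twists
  have hall : ∀ t : ℚ, Adm t → (∀ W, InvSub G W → W ≤ V → H t W - H t V ∈ C) ∧
      ∀ W, InvSub G W → W < V → ¬ H t V - H t W ∈ C := by
    intro t ht
    by_cases htt : t0 ≤ t
    · refine ⟨fun W hW hWV => hcomp t0 t W V htt (Submodule.finrank_mono hWV)
        (hVgood.2.1 W hW), fun W hW hWV h => ?_⟩
      exact hVgood.2.2 W hW hWV (hcomp' t0 t W V htt (Submodule.finrank_mono hWV.le) h)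
    · push Not at htt
      obtain ⟨V', hV'⟩ := hgood t
      have hle' : V' ≤ V := by
        by_contra hno'
        have hlt : V' ⊓ V < V' := lt_of_le_of_ne inf_le_left fun h => hno' (by
          rw [← h]
          exact inf_le_right)
        refine hV'.2.2 _ (invSub_inf hV'.1 hV) hlt ?_
        have h1 := hVgood.2.1 _ (invSub_sup hV'.1 hV)
        have h2 : H t (V' ⊔ V) - H t V ∈ C :=
          hcomp' t t0 V (V' ⊔ V) htt.le (Submodule.finrank_mono le_sup_right) h1
        have h3 := hC.add _ (hsuper t V' V) _ h2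
        have h4 : H t V' + H t V - (H t (V' ⊔ V) + H t (V' ⊓ V)) + (H t (V' ⊔ V) - H t V) =
            H t V' - H t (V' ⊓ V) := by abel
        rw [h4] at h3
        exact h3
      have heq : V' = V := Submodule.eq_of_le_of_finrank_le hle'
        (hminimal t V' ht (htt.le.trans ht0') hV')
      rw [heq] at hV'
      exact ⟨fun W hW _ => hV'.2.1 W hW, hV'.2.2⟩
  -- the contradiction
  have key : ∀ t : ℚ, Adm t → ∀ (M : ℕ) (W : ℕ → Submodule K (Derivation ℂ K K)), 0 < M →
      (∀ i, InvSub G (W i)) → (∀ i, W i ≤ V) → W 0 ≠ V →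
      ∑ i ∈ Finset.range M, (H t V - H t (W i)) ∈ C → False := by
    intro t ht M W hM hW hWV h0 hsum
    exact (hall t ht).2 (W 0) (hW 0) (lt_of_le_of_ne (hWV 0) h0)
      (first_mem hC (H t) hM (fun i => (hall t ht).1 _ (hW i) (hWV i)) hsum)
  refine ⟨V, ?_, ?_, ?_, ?_⟩
  · rintro rfl
    obtain ⟨W, hW, hWC⟩ := hne t0 ht0
    apply hWC
    have h1 := hVgood.2.1 W hW
    have h3 := hC.add _ h1 _ (hEC (hh_bot (β := fun P => β P + (t0 : ℝ) * l P) htr hδ))
    rwa [sub_add_cancel] at h3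
  · intro hβ
    by_contra hno'
    push Not at hno'
    obtain ⟨D, hD, E, hE, hDE⟩ := hno'
    obtain ⟨M, R, Vt, Wt, hM, hVt, hWt, hVtV, hVt0, hrel⟩ :=
      rel_levi htr hδ (β := fun P => β P + (t0 : ℝ) * l P) hV ⟨D, hD, E, hE, hDE⟩
    refine key t0 ht0 M Vt hM hVt hVtV hVt0 ?_
    have h1 := hC.sum (Finset.range R) (f := fun s => H t0 (Wt s) - H t0 V)
      fun s _ => hVgood.2.1 _ (hWt s)
    have h2 := hC.add _ (hEC hrel) _ h1
    have h3 : (fun P => -((R : ℝ) / n * β P)) ∈ C := by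
      have h4 := hC.rat hβ (q := (R : ℚ) / n)
        (div_nonneg (Nat.cast_nonneg _) (Nat.cast_nonneg _))
      convert h4 using 1
      funext P
      push_cast
      ring
    have h4 := hC.rat hlC (q := (R : ℚ) / n * (-t0))
      (mul_nonneg (div_nonneg (Nat.cast_nonneg _) hnq.le) (by linarith))
    have h5 := hC.add _ (hC.add _ h2 _ h3) _ h4
    have h6 : ∑ t ∈ Finset.range M, (hh n δ (fun P => β P + (t0 : ℝ) * l P) V -
          hh n δ (fun P => β P + (t0 : ℝ) * l P) (Vt t)) -
        ∑ s ∈ Finset.range R, (hh n δ (fun P => β P + (t0 : ℝ) * l P) (Wt s) -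
          hh n δ (fun P => β P + (t0 : ℝ) * l P) V) +
        (fun P => (R : ℝ) / n * (β P + (t0 : ℝ) * l P)) +
        ∑ s ∈ Finset.range R, (H t0 (Wt s) - H t0 V) + (fun P => -((R : ℝ) / n * β P)) +
        (fun P => (((R : ℚ) / n * (-t0) : ℚ) : ℝ) * l P) =
        ∑ i ∈ Finset.range M, (H t0 V - H t0 (Vt i)) := by
      funext P
      simp only [H, Pi.add_apply, Pi.sub_apply, Finset.sum_apply]
      push_cast
      ring
    rw [h6] at h5
    exact h5
  · intro σ hσ D hD E hDE
    rw [image_eq hDE]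
    exact hV σ hσ D hD
  · intro m hm t ht γ hγ hγC s hs
    by_contra hs0
    have hm' : (0 : ℝ) < m := by exact_mod_cast hm
    have hfun : (fun P => (m : ℝ) / n * ((n : ℝ) / m * γ P)) = γ := by
      funext P
      field_simp
    obtain ⟨M, W, hM, hW, hWV, hW0, hrel⟩ := rel_tensor htr hδ
      (β := fun P => (n : ℝ) / m * γ P) hV hm (by
        intro σ hσ s' hs' u hu
        rw [hfun] at hs' ⊢
        exact pull_inv hγ hσ (hG σ hσ) (hV σ hσ) hs' hu)
      (s1 := s) (by rw [hfun]; exact hs) hs0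
    refine key t ht M W hM hW hWV hW0 ?_
    -- the comparison of the values
    have h1 : (fun P => ((∑ i ∈ Finset.range M, ((Module.finrank K V : ℚ) -
        Module.finrank K (W i)) / m : ℚ) : ℝ) *
        (γ P - (m : ℝ) / n * (β P + t * l P))) ∈ C := by
      refine hC.rat hγC (Finset.sum_nonneg fun i _ => ?_)
      have h2 : (Module.finrank K (W i) : ℚ) ≤ Module.finrank K V := by
        exact_mod_cast Submodule.finrank_mono (hWV i)
      exact div_nonneg (by linarith) (by exact_mod_cast hm.le)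
    have h2 := hC.add _ (hEC hrel) _ h1
    convert h2 using 1
    funext P
    simp only [H, Pi.add_apply, Pi.sub_apply, Finset.sum_apply]
    unfold hh
    push_cast
    rw [Finset.sum_mul, ← Finset.sum_add_distrib]
    refine Finset.sum_congr rfl fun i _ => ?_
    field_simp
    ring

end

end Pool.Agent.Zk28.TF
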