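import Pool.Agent.Zk28.TF.Cone

/-!
Total preorders which are strict on a semigroup.
-/

set_option autoImplicit false
set_option linter.unusedSectionVars false

namespace Pool.Agent.Zk28.TF

variable {M : Type*} [AddCommGroup M]

/-- A cone which does not meet a semigroup is contained in a total one. -/
theorem exists_total_avoid {E S : Set M} (hE : IsCone E)
    (hadd : ∀ x ∈ S, ∀ y ∈ S, x + y ∈ S) (hES : ∀ x ∈ S, x ∉ E) :
    ∃ C, E ⊆ C ∧ IsCone C ∧ (∀ x, x ∈ C ∨ -x ∈ C) ∧ ∀ x ∈ S, x ∉ C := by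
  have hns : ∀ N : ℕ, 0 < N → ∀ x ∈ S, N • x ∈ S := by
    intro N hN x hx
    induction N with
    | zero => exact absurd hN (lt_irrefl 0)
    | succ N ih =>
      rcases Nat.eq_zero_or_pos N with h | h
      · rw [h, zero_add, one_smul]
        exact hx
      · rw [succ_nsmul]
        exact hadd _ (ih h) _ hx
  obtain ⟨C, hEC, hmax⟩ := zorn_subset_nonempty {C : Set M | IsCone C ∧ ∀ x ∈ S, x ∉ C} (by
    intro c hc hchain hne
    refine ⟨⋃₀ c, ⟨⟨?_, ?_, ?_⟩, ?_⟩, fun s hs => Set.subset_sUnion_of_mem hs⟩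
    · obtain ⟨s, hs⟩ := hne
      exact ⟨s, hs, (hc hs).1.zero⟩
    · rintro x ⟨s, hs, hxs⟩ y ⟨t, ht, hyt⟩
      rcases hchain.total hs ht with h | h
      · exact ⟨t, ht, (hc ht).1.add x (h hxs) y hyt⟩
      · exact ⟨s, hs, (hc hs).1.add x hxs y (h hyt)⟩
    · rintro N x hN ⟨s, hs, hxs⟩
      exact ⟨s, hs, (hc hs).1.root N x hN hxs⟩
    · rintro x hx ⟨s, hs, hxs⟩
      exact (hc hs).2 x hx hxs) E ⟨hE, hES⟩
  obtain ⟨⟨hC, hSC⟩, hmax'⟩ := hmax
  refine ⟨C, hEC, hC, ?_, hSC⟩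
  -- the cone generated by `C` and `f`
  have key : ∀ f : M, f ∉ C → ∃ x ∈ S, ∃ (N k : ℕ), 0 < N ∧ N • x - k • f ∈ C := by
    intro f hf
    by_contra hno
    push Not at hno
    let D : Set M := {g | ∃ (N k : ℕ), 0 < N ∧ N • g - k • f ∈ C}
    have hD : IsCone D := by
      refine ⟨⟨1, 0, Nat.one_pos, by simpa using hC.zero⟩, ?_, ?_⟩
      · rintro x ⟨N, k, hN, hx⟩ y ⟨N', k', hN', hy⟩
        refine ⟨N * N', N' * k + N * k', Nat.mul_pos hN hN', ?_⟩
        have h1 := hC.add _ (hC.nsmul N' hx) _ (hC.nsmul N hy)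
        have h2 : N' • (N • x - k • f) + N • (N' • y - k' • f) =
            (N * N') • (x + y) - (N' * k + N * k') • f := by
          module
        rw [← h2]
        exact h1
      · rintro N x hN ⟨N', k', hN', hx⟩
        refine ⟨N' * N, k', Nat.mul_pos hN' hN, ?_⟩
        rw [mul_smul]
        exact hx
    have hCD : C ⊆ D := fun g hg => ⟨1, 0, Nat.one_pos, by simpa using hg⟩
    have hxD : ∀ x ∈ S, x ∉ D := by
      rintro x hx ⟨N, k, hN, h⟩
      exact hno x hx N k hN h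
    have h1 := hmax' ⟨hD, hxD⟩ hCD
    exact hf (h1 ⟨1, 1, Nat.one_pos, by simpa using hC.zero⟩)
  intro f
  by_contra hno
  push Not at hno
  obtain ⟨x, hx, N, k, hN, h1⟩ := key f hno.1
  obtain ⟨x', hx', N', k', hN', h2⟩ := key (-f) hno.2
  rcases Nat.eq_zero_or_pos k with hk | hk
  · rw [hk, zero_smul, sub_zero] at h1
    exact hSC x hx (hC.root N x hN h1)
  · have h3 := hC.add _ (hC.nsmul k' h1) _ (hC.nsmul k h2)
    have h4 : k' • (N • x - k • f) + k • (N' • x' - k' • -f) =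
        (k' * N) • x + (k * N') • x' := by
      module
    rw [h4] at h3
    refine hSC _ ?_ h3
    have h5 := hns _ (Nat.mul_pos hk hN') x' hx'
    rcases Nat.eq_zero_or_pos k' with h | h
    · rw [h, zero_mul, zero_smul, zero_add]
      exact h5
    · exact hadd _ (hns _ (Nat.mul_pos h hN) x hx) _ h5

end Pool.Agent.Zk28.TF
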