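import Pool.Agent.Zk28.TF.VDefs
import Pool.Agent.Zk28.TF.SP2

/-!
Divisors with finite support.
-/

set_option autoImplicit false
set_option linter.unusedSectionVars false

open FF Pool.Agent.W602.GT

namespace Pool.Agent.Zk28.TF

open Pool.Agent.Zk28.TS

variable {K : Type} [Field K] [Algebra ℂ K] {n : ℕ} {X : Set (Place ℂ K)}

section aa

/-- for all but finitely many prime divisors -/
def AA (n : ℕ) (X : Set (Place ℂ K)) (p : Place ℂ K → Prop) : Prop :=
  {P | P ∈ X ∧ Divisorial n P ∧ ¬ p P}.Finite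

theorem AA.and {p q : Place ℂ K → Prop} (hp : AA n X p) (hq : AA n X q) :
    AA n X fun P => p P ∧ q P := by
  refine (hp.union hq).subset ?_
  rintro P ⟨hPX, hP, h⟩
  by_cases h1 : p P
  · exact Or.inr ⟨hPX, hP, fun h2 => h ⟨h1, h2⟩⟩
  · exact Or.inl ⟨hPX, hP, h1⟩

theorem AA.mono {p q : Place ℂ K → Prop} (hp : AA n X p)
    (h : ∀ P ∈ X, Divisorial n P → p P → q P) : AA n X q := by
  refine hp.subset ?_
  rintro P ⟨hPX, hP, h1⟩
  exact ⟨hPX, hP, fun h2 => h1 (h P hPX hP h2)⟩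

theorem AA.all {ι : Type*} [Finite ι] {p : ι → Place ℂ K → Prop} (hp : ∀ i, AA n X (p i)) :
    AA n X fun P => ∀ i, p i P := by
  refine (Set.finite_iUnion hp).subset ?_
  rintro P ⟨hPX, hP, h⟩
  push Not at h
  obtain ⟨i, hi⟩ := h
  exact Set.mem_iUnion.mpr ⟨i, hPX, hP, hi⟩

theorem finDiv_iff {D : Place ℂ K → ℝ} : FinDiv n X D ↔ AA n X fun P => D P = 0 := Iff.rfl

theorem FinDiv.congr {D D' : Place ℂ K → ℝ} (h : FinDiv n X D)
    (hD : ∀ P ∈ X, Divisorial n P → D' P = D P) : FinDiv n X D' := by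
  rw [finDiv_iff] at h ⊢
  refine h.mono fun P hPX hP h1 => ?_
  rw [hD P hPX hP, h1]

theorem FinDiv.comb {D E : Place ℂ K → ℝ} (hD : FinDiv n X D) (hE : FinDiv n X E) (a b : ℝ) :
    FinDiv n X fun P => a * D P + b * E P := by
  rw [finDiv_iff] at hD hE ⊢
  refine (hD.and hE).mono fun P _ _ h => ?_
  rw [h.1, h.2]
  ring

theorem FinDiv.equiv {δ D E : Place ℂ K → ℝ} (hX : LocFin n X δ) (hD : FinDiv n X D)
    (h : QEquiv n X D E) : FinDiv n X E := by
  obtain ⟨N, z, hN, hz, h⟩ := h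
  have hNR : (N : ℝ) ≠ 0 := by exact_mod_cast hN.ne'
  refine (hD.comb (hX.functions z hz) 1 (-(1 / N))).congr fun P hPX hP => ?_
  rw [← h P hPX hP]
  field_simp
  ring

end aa

section vs

variable [Algebra.EssFiniteType ℂ K] [Module.Finite K (Derivation ℂ K K)] {δ : Place ℂ K → ℝ}

/-- The volume of a tuple of regular fields. -/
theorem vol_nonneg {P : Place ℂ K} {r : ℕ} {b : Fin r → Derivation ℂ K K}
    {A : Fin r → Fin r → K} (hA : Tri P b A) (hb : ∀ i, DerReg P (b i)) :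
    0 ≤ vol P 0 b := by
  classical
  have h0 : (0 : ℝ) ≤ 0 ∧ (0 : ℝ) ≤ 1 := ⟨le_rfl, zero_le_one⟩
  rw [vol_eq h0 hA]
  have hinv : (Matrix.of A)⁻¹ * Matrix.of A = 1 :=
    Matrix.nonsing_inv_mul _ (isUnit_iff_ne_zero.mpr hA.det)
  have hexp : ∀ i, b i = ∑ j, (Matrix.of A)⁻¹ i j • fr A b j := by
    intro i
    have h1 : ∑ j, (Matrix.of A)⁻¹ i j • fr A b j =
        ∑ j, ((Matrix.of A)⁻¹ * Matrix.of A) i j • b j := by
      unfold fr
      simp only [Finset.smul_sum, smul_smul]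
      rw [Finset.sum_comm]
      refine Finset.sum_congr rfl fun j _ => ?_
      rw [Matrix.mul_apply, Finset.sum_smul]
      rfl
    rw [h1, hinv, Finset.sum_eq_single i]
    · rw [Matrix.one_apply_eq, one_smul]
    · intro j _ hj
      rw [Matrix.one_apply_ne (Ne.symm hj), zero_smul]
    · intro h
      exact absurd (Finset.mem_univ _) h
  have hG : GR P 0 ((Matrix.of A)⁻¹).det := by
    refine GR.det fun i j => ?_
    have h1 := hA.co ((Matrix.of A)⁻¹ i) (by rw [← hexp]; exact hb i)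
    exact h1.1 j
  have hdet0 : ((Matrix.of A)⁻¹).det ≠ 0 := by
    rw [Matrix.det_nonsing_inv, Ring.inverse_eq_inv']
    exact inv_ne_zero hA.det
  have h2 : (0 : ℝ) ≤ P.ord ((Matrix.of A)⁻¹).det := hG.resolve_left hdet0
  rw [Matrix.det_nonsing_inv, Ring.inverse_eq_inv', P.ord_inv, tri_det_all hA.low,
    ord_prod' _ _ fun i _ => hA.diag i] at h2
  unfold gv
  rw [Finset.sum_sub_distrib]
  have h3 : ∑ i, et P 0 (fr A b i) = 0 := by
    refine Finset.sum_eq_zero fun i _ => ?_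
    unfold et
    split_ifs <;> simp
  rw [h3]
  push_cast at h2
  linarith

/-- The volume of a frame with regular coordinates. -/
theorem vol_nonpos {P : Place ℂ K} {y : Fin n → K} {b : Fin n → Derivation ℂ K K} (hF : Fr y b)
    {A : Fin n → Fin n → K} (hA : Tri P b A) (hy : ∀ i, P.Reg (y i)) :
    vol P 0 b ≤ 0 := by
  classical
  have h0 : (0 : ℝ) ≤ 0 ∧ (0 : ℝ) ≤ 1 := ⟨le_rfl, zero_le_one⟩
  rw [vol_eq h0 hA]
  have hG : ∀ i j, GR P 0 (A i j) := by
    intro i j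
    have h1 := GR_of_reg (hA.reg i (y j) (hy j))
    have h2 : fr A b i (y j) = A i j := by
      unfold fr
      rw [der_sum]
      simp [hF.1]
    rwa [h2] at h1
  unfold gv
  rw [Finset.sum_sub_distrib]
  have h3 : ∑ i, et P 0 (fr A b i) = 0 := by
    refine Finset.sum_eq_zero fun i _ => ?_
    unfold et
    split_ifs <;> simp
  rw [h3]
  have h4 : (0 : ℝ) ≤ ∑ i, (P.ord (A i i) : ℝ) :=
    Finset.sum_nonneg fun i _ => (hG i i).resolve_left (hA.diag i)
  linarith

theorem vs_aa_nonneg (htr : Algebra.trdeg ℂ K = n) (hX : LocFin n X δ)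
    (W : Submodule K (Derivation ℂ K K)) : AA n X fun P => 0 ≤ vs δ W P := by
  have h1 : AA n X fun P => ∀ i, DerReg P (bas W i) := AA.all fun i => hX.fields _
  have h2 : AA n X fun P => δ P = 0 := hX.boundary
  refine (h1.and h2).mono fun P hPX hP h => ?_
  obtain ⟨A, hA⟩ := exists_tri' htr hP (bas_indep W)
  unfold vs
  rw [h.2]
  exact vol_nonneg hA h.1

/-- The volumes of distributions have finite support. -/
theorem fin_vs (htr : Algebra.trdeg ℂ K = n) (hδ : ∀ P ∈ X, 0 ≤ δ P ∧ δ P ≤ 1)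
    (hX : LocFin n X δ) (W : Submodule K (Derivation ℂ K K)) : FinDiv n X (vs δ W) := by
  classical
  obtain ⟨x, b, hF⟩ := exists_fr htr
  obtain ⟨B, hB⟩ := Submodule.exists_isCompl W
  obtain ⟨y, hy, h1⟩ := vs_super (X := X) htr hδ (Module.finrank K W) ⊥ B W bot_le bot_le
    hB.inf_eq_bot (by rw [finrank_bot, zero_add])
  obtain ⟨y', hy', h2⟩ := vs_tuple (X := X) htr hδ ⊤ hF.indep hF.span
  have hreg : AA n X fun P => ∀ i, P.Reg (x i) := by
    refine AA.all fun i => ?_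
    by_cases hi : x i = 0
    · have h3 : {P : Place ℂ K | P ∈ X ∧ Divisorial n P ∧ ¬ P.Reg (x i)} = ∅ := by
        ext P
        simp only [Set.mem_setOf_eq, Set.mem_empty_iff_false, iff_false]
        rintro ⟨-, -, h4⟩
        apply h4
        rw [hi]
        exact P.reg_zero
      unfold AA
      rw [h3]
      exact Set.finite_empty
    · have h3 : AA n X fun P => (P.ord (x i) : ℝ) = 0 := hX.functions _ hi
      refine h3.mono fun P _ _ h4 => Or.inr ?_
      have h5 : P.ord (x i) = 0 := by exact_mod_cast h4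
      rw [h5]
  have hd : AA n X fun P => δ P = 0 := hX.boundary
  have ha : AA n X fun P => (P.ord y : ℝ) = 0 := hX.functions _ hy
  have ha' : AA n X fun P => (P.ord y' : ℝ) = 0 := hX.functions _ hy'
  rw [finDiv_iff]
  refine (((vs_aa_nonneg htr hX W).and (vs_aa_nonneg htr hX B)).and
    ((hreg.and hd).and (ha.and ha'))).mono fun P hPX hP h => ?_
  obtain ⟨⟨hW, hBn⟩, ⟨hr, hd0⟩, hy0, hy0'⟩ := h
  have h3 := h1 P hPX hP
  have h4 := h2 P hPX hP
  obtain ⟨A, hA⟩ := exists_tri' htr hP hF.indep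
  have h5 := vol_nonpos hF hA hr
  have h6 : vs δ (⊥ : Submodule K (Derivation ℂ K K)) P = 0 := by
    obtain ⟨A', hA'⟩ := exists_tri' htr hP (bas_indep (⊥ : Submodule K (Derivation ℂ K K)))
    unfold vs
    rw [vol_eq (hδ P hPX) hA']
    have h7 : IsEmpty (Fin (Module.finrank K (⊥ : Submodule K (Derivation ℂ K K)))) := by
      rw [finrank_bot]
      infer_instance
    rw [Finset.univ_eq_empty, Finset.sum_empty]
  have h8 : B ⊔ W = ⊤ := by
    rw [sup_comm]
    exact hB.sup_eq_top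
  rw [Pi.add_apply, Pi.add_apply, h8, h6, hy0] at h3
  rw [hd0, hy0'] at h4
  linarith

/-- The canonical divisor has finite support. -/
theorem fin_L (htr : Algebra.trdeg ℂ K = n) (hδ : ∀ P ∈ X, 0 ≤ δ P ∧ δ P ≤ 1)
    (hX : LocFin n X δ) {ω : (Fin n → Derivation ℂ K K) → K} (hω : IsPluri 1 ω)
    (hω0 : ∃ D, ω D ≠ 0) {k : Place ℂ K → ℤ} (hk : DivOf n X ω k) :
    FinDiv n X fun P => k P + δ P := by
  obtain ⟨y, hy, h1⟩ := vs_top htr hδ hω hω0 hk
  refine ((fin_vs htr hδ hX ⊤).comb (hX.functions y hy) (-1) 1).congr fun P hPX hP => ?_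
  rw [h1 P hPX hP]
  ring

theorem fin_can (htr : Algebra.trdeg ℂ K = n) (hδ : ∀ P ∈ X, 0 ≤ δ P ∧ δ P ≤ 1)
    (hX : LocFin n X δ) {W : Submodule K (Derivation ℂ K K)} {κ : Place ℂ K → ℝ}
    (hκ : CanonicalDivisor n X δ W κ) : FinDiv n X κ := by
  obtain ⟨y, hy, h1⟩ := (canonicalDivisor_iff htr hδ).mp hκ
  refine ((fin_vs htr hδ hX W).comb (hX.functions y hy) (-1) 1).congr fun P hPX hP => ?_
  rw [h1 P hPX hP]
  ring

end vs

end Pool.Agent.Zk28.TF
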