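import Pool.Agent.Zk28.TF.V1
import Pool.Agent.Zk25.TF.ZN

/-!
Maximal null groups of divisors with finite support.
-/

set_option autoImplicit false
set_option linter.unusedSectionVars false

open FF Pool.Agent.W602.GT

namespace Pool.Agent.Zk28.TF

open Pool.Agent.Zk28.TS Pool.Agent.Zk25.TF

section exist

variable {K : Type} [Field K] [Algebra ℂ K] {n : ℕ}

/-- Every null group is contained in a maximal one. -/
theorem exists_maxF {X : Set (Place ℂ K)} {G : Set (K ≃ₐ[ℂ] K)} {L δ : Place ℂ K → ℝ}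
    (hX : LocFin n X δ) {A0 : Set (Place ℂ K → ℝ)} (hA0 : FinNull n X G L A0) :
    ∃ A, A0 ⊆ A ∧ MaxFinNull n X G L A := by
  obtain ⟨A, hA0A, hmax⟩ := zorn_subset_nonempty {A : Set (Place ℂ K → ℝ) | FinNull n X G L A} (by
    intro c hc hchain hne
    refine ⟨⋃₀ c, ⟨⟨?_, ?_, ?_, ?_, ?_, ?_⟩, ?_⟩, fun s hs => Set.subset_sUnion_of_mem hs⟩
    · obtain ⟨s, hs⟩ := hne
      exact ⟨s, hs, (hc hs).mem⟩
    · rintro x ⟨s, hs, hxs⟩ y ⟨t, ht, hyt⟩
      rcases hchain.total hs ht with h | h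
      · exact ⟨t, ht, (hc ht).add x (h hxs) y hyt⟩
      · exact ⟨s, hs, (hc hs).add x hxs y (h hyt)⟩
    · rintro x ⟨s, hs, hxs⟩ q
      exact ⟨s, hs, (hc hs).rat x hxs q⟩
    · rintro x ⟨s, hs, hxs⟩ y hxy
      exact ⟨s, hs, (hc hs).equiv x hxs y hxy⟩
    · rintro x ⟨s, hs, hxs⟩
      exact (hc hs).inv x hxs
    · rintro x ⟨s, hs, hxs⟩
      exact (hc hs).null x hxs
    · rintro x ⟨s, hs, hxs⟩
      exact (hc hs).fin x hxs) _ hA0
  obtain ⟨hA, hmax'⟩ := hmax
  replace hA : FinNull n X G L A := hA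
  refine ⟨A, hA0A, hA, fun D hDf hD => ?_⟩
  by_cases hDA : D ∈ A
  · exact Or.inl hDA
  right
  by_contra hno'
  rw [not_or] at hno'
  obtain ⟨hno1, hno2⟩ := hno'
  have hnull : ∀ F, (∃ a ∈ A, ∃ q : ℚ, QEquiv n X F (fun P => a P + q * D P)) →
      ¬ PosDiv n X F := by
    rintro F ⟨a, ha, q, hF⟩ ⟨hpos, P0, hP0X, hP0, hF0⟩
    rcases lt_trichotomy q 0 with hq | hq | hq
    · apply hno2
      have hqR : (q : ℝ) < 0 := by exact_mod_cast hq
      have hqq : (q : ℝ) * (q : ℝ)⁻¹ = 1 := mul_inv_cancel₀ hqR.ne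
      have hq' : (0 : ℝ) < ((-q⁻¹ : ℚ) : ℝ) := by
        push_cast
        have := inv_lt_zero.mpr hqR
        linarith
      refine ⟨fun P => ((-q⁻¹ : ℚ) : ℝ) * F P, ⟨fun P hPX hP => mul_nonneg hq'.le (hpos P hPX hP),
        P0, hP0X, hP0, mul_pos hq' hF0⟩, ?_⟩
      refine hA.equiv (fun P => ((-q⁻¹ : ℚ) : ℝ) * a P) (hA.rat a ha _) _ ?_
      have h1 := qe_add (qe_rat (qe_symm hF) (-q⁻¹)) (qe_refl (n := n) (X := X) D)
      convert h1 using 1
      · funext P
        push_cast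
        linear_combination (D P) * hqq
      · funext P
        push_cast
        ring
    · subst hq
      refine hA.null F ?_ ⟨hpos, P0, hP0X, hP0, hF0⟩
      refine hA.equiv a ha F (qe_symm ?_)
      convert hF using 1
      funext P
      push_cast
      ring
    · apply hno1
      have hqR : (0 : ℝ) < (q : ℝ) := by exact_mod_cast hq
      have hqq : (q : ℝ) * (q : ℝ)⁻¹ = 1 := mul_inv_cancel₀ hqR.ne'
      have hq' : (0 : ℝ) < ((q⁻¹ : ℚ) : ℝ) := by
        push_cast
        exact inv_pos.mpr hqR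
      refine ⟨fun P => ((q⁻¹ : ℚ) : ℝ) * F P, ⟨fun P hPX hP => mul_nonneg hq'.le (hpos P hPX hP),
        P0, hP0X, hP0, mul_pos hq' hF0⟩, ?_⟩
      refine hA.equiv (fun P => ((-q⁻¹ : ℚ) : ℝ) * a P) (hA.rat a ha _) _ ?_
      have h1 := qe_add (qe_rat (qe_symm hF) (-q⁻¹)) (qe_refl (n := n) (X := X) D)
      convert h1 using 1
      · funext P
        push_cast
        linear_combination (D P) * hqq
      · funext P
        push_cast
        ring
  have hB : FinNull n X G L {F | ∃ a ∈ A, ∃ q : ℚ, QEquiv n X F (fun P => a P + q * D P)} := by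
    refine ⟨span_group hA.toNullGroup hD hnull, ?_⟩
    rintro F ⟨a, ha, q, hF⟩
    refine FinDiv.equiv hX ?_ (qe_symm hF)
    refine ((hA.fin a ha).comb hDf 1 q).congr fun P _ _ => ?_
    ring
  have h1 : A ⊆ {F | ∃ a ∈ A, ∃ q : ℚ, QEquiv n X F (fun P => a P + q * D P)} := by
    intro F hF
    refine ⟨F, hF, 0, ?_⟩
    convert qe_refl (n := n) (X := X) F using 1
    funext P
    push_cast
    ring
  have h2 := hmax' hB h1
  apply hDA
  apply h2
  refine ⟨fun P => ((0 : ℚ) : ℝ) * L P, hA.rat L hA.mem 0, 1, ?_⟩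
  convert qe_refl (n := n) (X := X) D using 1
  funext P
  push_cast
  ring


/-- The multiples of `L`. -/
theorem base_groupF {X : Set (Place ℂ K)} {G : Set (K ≃ₐ[ℂ] K)} {L δ : Place ℂ K → ℝ}
    (hX : LocFin n X δ) (hLf : FinDiv n X L) (hinv : InvariantClass n X G L)
    (hL : NotAntiEffective n X L) (hno : ¬ Eff n X fun P => -L P) :
    FinNull n X G L {F | ∃ q : ℚ, QEquiv n X F (fun P => q * L P)} := by
  refine ⟨base_group hinv hL hno, ?_⟩
  rintro F ⟨q, hF⟩
  refine FinDiv.equiv hX ?_ (qe_symm hF)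
  refine (hLf.comb hLf q 0).congr fun P _ _ => ?_
  ring

end exist

section order

variable {K : Type} [Field K] [Algebra ℂ K] {n : ℕ}
  {X : Set (Place ℂ K)} {G : Set (K ≃ₐ[ℂ] K)} {L : Place ℂ K → ℝ} {A C : Set (Place ℂ K → ℝ)}

/-- Positive classes are effective modulo `A`. -/
theorem MaxFinNull.of_not_mem (hA : MaxFinNull n X G L A) (hC : StrictCone n X A C)
    {D : Place ℂ K → ℝ} (hf : FinDiv n X D) (hD : InvariantClass n X G D) (h : D ∉ C) :
    ∃ E, PosDiv n X E ∧ (fun P => D P - E P) ∈ A := by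
  rcases hA.total D hf hD with h1 | h1 | ⟨E, hE, h1⟩
  · exact absurd (hC.sub h1) h
  · exact h1
  · exfalso
    apply h
    have h2 : -E ∈ C := by
      refine hC.eff ⟨1, Nat.one_pos, 1, one_ne_zero, fun P hPX hP => ?_⟩
      rw [P.ord_one, Pi.neg_apply]
      push_cast
      linarith [hE.1 P hPX hP]
    have h3 := hC.cone.add _ (hC.sub h1) _ h2
    convert h3 using 1
    funext P
    rw [Pi.add_apply, Pi.neg_apply]
    ring

/-- Nonpositive classes are anti-effective modulo `A`. -/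
theorem MaxFinNull.of_mem (hA : MaxFinNull n X G L A) (hC : StrictCone n X A C)
    {D : Place ℂ K → ℝ} (hf : FinDiv n X D) (hD : InvariantClass n X G D) (h : D ∈ C) :
    D ∈ A ∨ ∃ E, PosDiv n X E ∧ (fun P => D P + E P) ∈ A := by
  rcases hA.total D hf hD with h1 | ⟨E, hE, h1⟩ | h1
  · exact Or.inl h1
  · exfalso
    apply hC.strict E hE
    have h3 := hC.cone.add _ h _ (hA.toNullGroup.neg_mem_cone hC h1)
    convert h3 using 1
    funext P
    rw [Pi.add_apply, Pi.neg_apply]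
    ring
  · exact Or.inr h1

theorem MaxFinNull.effMod (hA : MaxFinNull n X G L A) (hC : StrictCone n X A C)
    {D : Place ℂ K → ℝ} (hf : FinDiv n X D) (hD : InvariantClass n X G D)
    (h : (fun P => -D P) ∈ C) : EffMod n X A D := by
  rcases hA.total D hf hD with h1 | ⟨E, hE, h1⟩ | ⟨E, hE, h1⟩
  · refine ⟨fun _ => 0, fun _ _ _ => le_rfl, ?_⟩
    convert h1 using 1
    funext P
    ring
  · exact ⟨E, hE.1, h1⟩
  · exfalso
    apply hC.strict E hE
    have h3 := hC.cone.add _ h _ (hC.sub h1)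
    convert h3 using 1
    funext P
    rw [Pi.add_apply]
    ring

end order

end Pool.Agent.Zk28.TF
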