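import Pool.Agent.Zk28.TF.NDefs

/-!
Groups of classes of divisors with finite support.
-/

set_option autoImplicit false
set_option linter.unusedSectionVars false

open FF Pool.Agent.W602.GT

namespace Pool.Agent.Zk28.TF

open Pool.Agent.Zk28.TS

variable {K : Type} [Field K] [Algebra ℂ K]

/-- The divisor `D` on `X` has finite support. -/
def FinDiv (n : ℕ) (X : Set (Place ℂ K)) (D : Place ℂ K → ℝ) : Prop :=
  {P | P ∈ X ∧ Divisorial n P ∧ D P ≠ 0}.Finite

/-- `X` is locally finite, like the set of the prime divisors of a variety: the rational functions have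
only finitely many zeros and poles on `X`, the rational vector fields have only finitely many poles, and
`Δ` has finite support. -/
structure LocFin (n : ℕ) (X : Set (Place ℂ K)) (δ : Place ℂ K → ℝ) : Prop where
  functions : ∀ f : K, f ≠ 0 → FinDiv n X fun P => P.ord f
  fields : ∀ D : Derivation ℂ K K, {P | P ∈ X ∧ Divisorial n P ∧ ¬ DerReg P D}.Finite
  boundary : FinDiv n X δ

/-- `A` is a null group: a group of `G`-invariant divisor classes on `X` with the coefficients in `ℚ`,
which contains the class of `L` and no class of a nonzero effective divisor, and it is given by a set of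
divisors with finite support. -/
structure FinNull (n : ℕ) (X : Set (Place ℂ K)) (G : Set (K ≃ₐ[ℂ] K)) (L : Place ℂ K → ℝ)
    (A : Set (Place ℂ K → ℝ)) : Prop extends NullGroup n X G L A where
  fin : ∀ D ∈ A, FinDiv n X D

/-- `A` is maximal: all `G`-invariant classes `D` of divisors with finite support which do not belong to
`A` are, modulo `A`, classes of nonzero effective divisors, or negatives of such. -/
structure MaxFinNull (n : ℕ) (X : Set (Place ℂ K)) (G : Set (K ≃ₐ[ℂ] K)) (L : Place ℂ K → ℝ)
    (A : Set (Place ℂ K → ℝ)) : Prop extends FinNull n X G L A where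
  total : ∀ D, FinDiv n X D → InvariantClass n X G D → D ∈ A ∨
    (∃ E, PosDiv n X E ∧ (fun P => D P - E P) ∈ A) ∨ ∃ E, PosDiv n X E ∧ (fun P => D P + E P) ∈ A

end Pool.Agent.Zk28.TF
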