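import Pool.Agent.Zk28.TF.Frame
import Pool.Agent.Zk28.TF.Cone

/-!
The volumes of distributions, and their supermodularity.
-/

set_option autoImplicit false
set_option linter.unusedSectionVars false

open FF Pool.Agent.W602.GT

namespace Pool.Agent.Zk28.TF

open Pool.Agent.Zk28.TS

variable {K : Type} [Field K] [Algebra ℂ K]

/-- `f` is the class of minus an effective divisor, up to a positive multiple. -/
def Eff (n : ℕ) (X : Set (Place ℂ K)) (f : Place ℂ K → ℝ) : Prop :=
  ∃ N : ℕ, 0 < N ∧ ∃ y : K, y ≠ 0 ∧ ∀ P ∈ X, Divisorial n P → N * f P ≤ P.ord y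

/-- `f ≤ g` up to a principal divisor. -/
def Ls (n : ℕ) (X : Set (Place ℂ K)) (f g : Place ℂ K → ℝ) : Prop :=
  ∃ y : K, y ≠ 0 ∧ ∀ P ∈ X, Divisorial n P → f P ≤ g P + P.ord y

section basics

variable {n : ℕ} {X : Set (Place ℂ K)}

theorem Ls.refl (f : Place ℂ K → ℝ) : Ls n X f f :=
  ⟨1, one_ne_zero, fun P _ _ => by rw [P.ord_one]; simp⟩

theorem Ls.trans {f g h : Place ℂ K → ℝ} (h1 : Ls n X f g) (h2 : Ls n X g h) : Ls n X f h := by
  obtain ⟨y, hy, h1⟩ := h1
  obtain ⟨z, hz, h2⟩ := h2
  refine ⟨y * z, mul_ne_zero hy hz, fun P hPX hP => ?_⟩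
  rw [P.ord_mul hy hz]
  push_cast
  linarith [h1 P hPX hP, h2 P hPX hP]

theorem Ls.add {f g f' g' : Place ℂ K → ℝ} (h1 : Ls n X f g) (h2 : Ls n X f' g') :
    Ls n X (f + f') (g + g') := by
  obtain ⟨y, hy, h1⟩ := h1
  obtain ⟨z, hz, h2⟩ := h2
  refine ⟨y * z, mul_ne_zero hy hz, fun P hPX hP => ?_⟩
  rw [P.ord_mul hy hz, Pi.add_apply, Pi.add_apply]
  push_cast
  linarith [h1 P hPX hP, h2 P hPX hP]

theorem Ls.cancel {f g h : Place ℂ K → ℝ} (h1 : Ls n X (f + h) (g + h)) : Ls n X f g := by
  obtain ⟨y, hy, h1⟩ := h1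
  refine ⟨y, hy, fun P hPX hP => ?_⟩
  have := h1 P hPX hP
  rw [Pi.add_apply, Pi.add_apply] at this
  linarith

theorem Ls.eff {f g : Place ℂ K → ℝ} (h : Ls n X f g) : Eff n X (f - g) := by
  obtain ⟨y, hy, h⟩ := h
  refine ⟨1, Nat.one_pos, y, hy, fun P hPX hP => ?_⟩
  rw [Pi.sub_apply]
  push_cast
  linarith [h P hPX hP]

theorem isCone_eff : IsCone {f : Place ℂ K → ℝ | Eff n X f} := by
  refine ⟨⟨1, Nat.one_pos, 1, one_ne_zero, fun P _ _ => by rw [P.ord_one]; simp⟩, ?_, ?_⟩
  · rintro f ⟨N, hN, y, hy, h⟩ g ⟨N', hN', y', hy', h'⟩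
    refine ⟨N * N', Nat.mul_pos hN hN', y ^ N' * y' ^ N, mul_ne_zero (pow_ne_zero _ hy)
      (pow_ne_zero _ hy'), fun P hPX hP => ?_⟩
    rw [P.ord_mul (pow_ne_zero _ hy) (pow_ne_zero _ hy'), P.ord_pow, P.ord_pow, Pi.add_apply]
    have h1 := mul_le_mul_of_nonneg_left (h P hPX hP) (Nat.cast_nonneg (α := ℝ) N')
    have h2 := mul_le_mul_of_nonneg_left (h' P hPX hP) (Nat.cast_nonneg (α := ℝ) N)
    push_cast
    nlinarith
  · rintro N f hN ⟨N', hN', y, hy, h⟩
    refine ⟨N' * N, Nat.mul_pos hN' hN, y, hy, fun P hPX hP => ?_⟩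
    have h1 := h P hPX hP
    rw [Pi.smul_apply, nsmul_eq_mul] at h1
    push_cast
    linarith

end basics

section change

/-- Two independent tuples with the same span. -/
theorem exists_change {V : Type*} [AddCommGroup V] [Module K V] {r : ℕ} {b b' : Fin r → V}
    (hb' : LinearIndependent K b')
    (h : ∀ i, b' i ∈ Submodule.span K (Set.range b)) :
    ∃ Y : Matrix (Fin r) (Fin r) K, Y.det ≠ 0 ∧ ∀ i, b' i = ∑ j, Y i j • b j := by
  classical
  have hex : ∀ i, ∃ z : Fin r → K, ∑ j, z j • b j = b' i := fun i =>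
    (Submodule.mem_span_range_iff_exists_fun K).mp (h i)
  choose z hz using hex
  refine ⟨Matrix.of z, ?_, fun i => (hz i).symm⟩
  have h1 : LinearIndependent K z := by
    rw [Fintype.linearIndependent_iff] at hb' ⊢
    intro g hg i
    refine hb' g ?_ i
    have h2 : ∑ i, g i • b' i = ∑ j, (∑ i, g i * z i j) • b j := by
      simp only [← hz, Finset.smul_sum, smul_smul, Finset.sum_smul]
      exact Finset.sum_comm
    rw [h2]
    refine Finset.sum_eq_zero fun j _ => ?_
    have h3 := congrFun hg j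
    rw [Finset.sum_apply] at h3
    have h4 : ∑ i, g i * z i j = 0 := h3
    rw [h4, zero_smul]
  exact indep_iff_det.mp h1

end change

section vs

variable {n : ℕ} [Algebra.EssFiniteType ℂ K] [Module.Finite K (Derivation ℂ K K)]

/-- a basis of a distribution -/
noncomputable def bas (W : Submodule K (Derivation ℂ K K)) :
    Fin (Module.finrank K W) → Derivation ℂ K K := fun i => (Module.finBasis K W i : Derivation ℂ K K)

theorem bas_indep (W : Submodule K (Derivation ℂ K K)) :
    LinearIndependent K (bas W) :=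
  (Module.finBasis K W).linearIndependent.map' W.subtype (Submodule.ker_subtype W)

theorem bas_mem (W : Submodule K (Derivation ℂ K K))
    (i : Fin (Module.finrank K W)) : bas W i ∈ W := (Module.finBasis K W i).2

theorem bas_span (W : Submodule K (Derivation ℂ K K)) :
    Submodule.span K (Set.range (bas W)) = W := by
  have h1 : Set.range (bas W) = W.subtype '' Set.range (Module.finBasis K W) := by
    rw [← Set.range_comp]
    rfl
  rw [h1, Submodule.span_image, Module.Basis.span_eq, Submodule.map_top, Submodule.range_subtype]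

/-- The volume of a distribution. -/
noncomputable def vs (δ : Place ℂ K → ℝ) (W : Submodule K (Derivation ℂ K K))
    (P : Place ℂ K) : ℝ := vol P (δ P) (bas W)

variable (htr : Algebra.trdeg ℂ K = n) {X : Set (Place ℂ K)} {δ : Place ℂ K → ℝ}
  (hδ : ∀ P ∈ X, 0 ≤ δ P ∧ δ P ≤ 1)

include htr in
theorem exists_tri' {P : Place ℂ K} (hP : Divisorial n P) {r : ℕ}
    {b : Fin r → Derivation ℂ K K} (hb : LinearIndependent K b) :
    ∃ A : Fin r → Fin r → K, Tri P b A := by
  obtain ⟨y, E, hF⟩ := exists_fr htr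
  have hfin := hF.finite
  have h1 := hb.fintype_card_le_finrank
  rw [Fintype.card_fin, hF.finrank] at h1
  exact exists_tri htr hP (n - r) r (by omega) b hb

include htr hδ in
/-- The volumes of two bases. -/
theorem vol_two {r : ℕ} {b b' : Fin r → Derivation ℂ K K} (hb : LinearIndependent K b)
    (hb' : LinearIndependent K b') (h : ∀ i, b' i ∈ Submodule.span K (Set.range b)) :
    ∃ y : K, y ≠ 0 ∧ ∀ P ∈ X, Divisorial n P →
      vol P (δ P) b' = vol P (δ P) b + P.ord y := by
  obtain ⟨Y, hY, hYb⟩ := exists_change hb' h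
  refine ⟨Y.det, hY, fun P hPX hP => ?_⟩
  obtain ⟨A, hA⟩ := exists_tri' htr hP hb
  obtain ⟨A', hA'⟩ := exists_tri' htr hP hb'
  exact vol_change (hδ P hPX) hA hA' hY hYb

include htr hδ in
/-- The volume of a distribution in an arbitrary basis. -/
theorem vs_tuple (W : Submodule K (Derivation ℂ K K)) {r : ℕ}
    {b : Fin r → Derivation ℂ K K} (hb : LinearIndependent K b)
    (hspan : Submodule.span K (Set.range b) = W) :
    ∃ y : K, y ≠ 0 ∧ ∀ P ∈ X, Divisorial n P → vol P (δ P) b = vs δ W P + P.ord y := by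
  have hr : r = Module.finrank K W := by
    have h1 := finrank_span_eq_card hb
    rw [hspan, Fintype.card_fin] at h1
    exact h1.symm
  subst hr
  exact vol_two htr hδ (bas_indep W) hb fun i => by
    rw [bas_span, ← hspan]
    exact Submodule.subset_span ⟨i, rfl⟩

include htr hδ in
/-- One step. -/
theorem vs_step {A B : Submodule K (Derivation ℂ K K)} (hAB : A ≤ B)
    {f : Derivation ℂ K K} (hf : f ∉ B) :
    Ls n X (vs δ (A ⊔ Submodule.span K {f}) + vs δ B) (vs δ (B ⊔ Submodule.span K {f}) + vs δ A) := by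
  have key : ∀ C : Submodule K (Derivation ℂ K K), f ∉ C →
      LinearIndependent K (Fin.snoc (bas C) f : Fin (Module.finrank K C + 1) →
        Derivation ℂ K K) ∧
      Submodule.span K (Set.range (Fin.snoc (bas C) f : Fin (Module.finrank K C + 1) →
        Derivation ℂ K K)) = C ⊔ Submodule.span K {f} := by
    intro C hfC
    constructor
    · exact linearIndependent_finSnoc.mpr ⟨bas_indep C, by rwa [bas_span]⟩
    · have h1 : Set.range (Fin.snoc (bas C) f : Fin (Module.finrank K C + 1) →
          Derivation ℂ K K) = Set.range (bas C) ∪ {f} := by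
        ext x
        constructor
        · rintro ⟨i, rfl⟩
          induction i using Fin.lastCases with
          | last => right; simp
          | cast i => left; exact ⟨i, by simp⟩
        · rintro (⟨i, rfl⟩ | rfl)
          · exact ⟨i.castSucc, by simp⟩
          · exact ⟨Fin.last _, by simp⟩
      rw [h1, Submodule.span_union, bas_span]
  have hfA : f ∉ A := fun h => hf (hAB h)
  obtain ⟨hA1, hA2⟩ := key A hfA
  obtain ⟨hB1, hB2⟩ := key B hf
  obtain ⟨y, hy, h1⟩ := vs_tuple htr hδ _ hA1 hA2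
  obtain ⟨z, hz, h2⟩ := vs_tuple htr hδ _ hB1 hB2
  refine ⟨z / y, div_ne_zero hz hy, fun P hPX hP => ?_⟩
  obtain ⟨TA, hTA⟩ := exists_tri' htr hP hA1
  obtain ⟨TB, hTB⟩ := exists_tri' htr hP hB1
  have h3 := gv_last (hδ P hPX) hTB hTA (by simp) (fun i => by
    have h4 : (fun i : Fin (Module.finrank K B) => (Fin.snoc (bas B) f :
        Fin (Module.finrank K B + 1) → Derivation ℂ K K) i.castSucc) = bas B := by
      funext i
      simp
    rw [h4, bas_span, Fin.snoc_castSucc]
    exact hAB (bas_mem A i))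
  have h4 : ∀ (C : Submodule K (Derivation ℂ K K))
      (T : Fin (Module.finrank K C + 1) → Fin (Module.finrank K C + 1) → K),
      Tri P (Fin.snoc (bas C) f : Fin (Module.finrank K C + 1) → Derivation ℂ K K) T →
      vol P (δ P) (Fin.snoc (bas C) f : Fin (Module.finrank K C + 1) → Derivation ℂ K K) =
        vs δ C P + gv P (δ P) (Fin.snoc (bas C) f) T (Fin.last _) := by
    intro C T hT
    have h5 := vol_initial (hδ P hPX) (Nat.le_succ _) hT
    have h6 : (fun i : Fin (Module.finrank K C) => (Fin.snoc (bas C) f :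
        Fin (Module.finrank K C + 1) → Derivation ℂ K K) (Fin.castLE (Nat.le_succ _) i)) =
        bas C := by
      funext i
      exact Fin.snoc_castSucc (α := fun _ => Derivation ℂ K K) f (bas C) i
    rw [h6] at h5
    unfold vs
    rw [h5, vol_eq (hδ P hPX) hT, Fin.sum_univ_castSucc]
    rfl
  have h5 := h1 P hPX hP
  have h6 := h2 P hPX hP
  rw [h4 A TA hTA] at h5
  rw [h4 B TB hTB] at h6
  rw [Pi.add_apply, Pi.add_apply, P.ord_div hz hy]
  push_cast
  linarith

include htr hδ in
/-- Supermodularity. -/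
theorem vs_super : ∀ (k : ℕ)
    (A B V : Submodule K (Derivation ℂ K K)), A ≤ B → A ≤ V → V ⊓ B = A →
    Module.finrank K V = Module.finrank K A + k →
    Ls n X (vs δ V + vs δ B) (vs δ (B ⊔ V) + vs δ A) := by
  intro k
  induction k with
  | zero =>
    intro A B V hAB hAV hVB hdim
    have h1 : A = V := Submodule.eq_of_le_of_finrank_eq hAV (by omega)
    subst h1
    have h2 : B ⊔ A = B := sup_eq_left.mpr hAB
    rw [h2, add_comm]
    exact Ls.refl _
  | succ k ih =>
    intro A B V hAB hAV hVB hdim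
    obtain ⟨f, hfV, hfA⟩ : ∃ f ∈ V, f ∉ A := by
      by_contra hno
      push Not at hno
      have h1 : V = A := le_antisymm hno hAV
      rw [h1] at hdim
      omega
    have hfB : f ∉ B := fun h => hfA (by rw [← hVB]; exact ⟨hfV, h⟩)
    have hsp : Submodule.span K {f} ≤ V := by
      rw [Submodule.span_singleton_le_iff_mem]
      exact hfV
    have h1 := vs_step htr hδ hAB hfB
    have h2 := ih (A ⊔ Submodule.span K {f}) (B ⊔ Submodule.span K {f}) V
      (sup_le_sup_right hAB _) (sup_le hAV hsp) (by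
        rw [inf_comm, sup_comm B, sup_inf_assoc_of_le B hsp, inf_comm, hVB, sup_comm]) (by
        have h3 := Submodule.finrank_sup_add_finrank_inf_eq A (Submodule.span K {f})
        have h4 : A ⊓ Submodule.span K {f} = ⊥ := by
          rw [Submodule.eq_bot_iff]
          rintro x ⟨hx1, hx2⟩
          obtain ⟨c, rfl⟩ := Submodule.mem_span_singleton.mp hx2
          by_contra hne
          have hc : c ≠ 0 := by
            rintro rfl
            exact hne (zero_smul _ _)
          exact hfA ((Submodule.smul_mem_iff A hc).mp hx1)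
        rw [h4, finrank_bot, add_zero, finrank_span_singleton (fun h0 => hfA (by
          rw [h0]; exact A.zero_mem))] at h3
        omega)
    have h3 : B ⊔ Submodule.span K {f} ⊔ V = B ⊔ V := by
      rw [sup_assoc, sup_eq_right.mpr hsp]
    rw [h3] at h2
    have h4 := h1.add h2
    refine Ls.cancel (h := vs δ (A ⊔ Submodule.span K {f}) + vs δ (B ⊔ Submodule.span K {f})) ?_
    have h5 : vs δ V + vs δ B + (vs δ (A ⊔ Submodule.span K {f}) +
        vs δ (B ⊔ Submodule.span K {f})) = vs δ (A ⊔ Submodule.span K {f}) + vs δ B +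
        (vs δ V + vs δ (B ⊔ Submodule.span K {f})) := by abel
    have h6 : vs δ (B ⊔ V) + vs δ A + (vs δ (A ⊔ Submodule.span K {f}) +
        vs δ (B ⊔ Submodule.span K {f})) = vs δ (B ⊔ Submodule.span K {f}) + vs δ A +
        (vs δ (B ⊔ V) + vs δ (A ⊔ Submodule.span K {f})) := by abel
    rw [h5, h6]
    exact h4

end vs

end Pool.Agent.Zk28.TF
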