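import Pool.Agent.Zk28.TF.Wedge

/-!
The divisor of the determinant of a space of multivalued tensors.
-/

set_option autoImplicit false
set_option linter.unusedSectionVars false

open FF Pool.Agent.W602.GT

namespace Pool.Agent.Zk28.TF

open Pool.Agent.Zk28.TS

section transport

variable {K : Type} [Field K] [Algebra ℂ K] {n : ℕ}

theorem conj_conj_symm (g : K ≃ₐ[ℂ] K) (D : Derivation ℂ K K) :
    conj g (conj g.symm D) = D := by
  ext f
  rw [conj_apply, conj_apply]
  simp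

theorem derReg_symm {P Q : Place ℂ K} {g : K ≃ₐ[ℂ] K} (hQ : ∀ f, Q.ord (g f) = P.ord f)
    {D : Derivation ℂ K K} (hD : DerReg Q D) : DerReg P (conj g.symm D) := by
  have hreg : ∀ f, Q.Reg (g f) ↔ P.Reg f := by
    intro f
    unfold Place.Reg
    rw [hQ f, map_eq_zero_iff _ g.injective]
  intro f hf
  rw [conj_apply, AlgEquiv.symm_symm, ← hreg, AlgEquiv.apply_symm_apply]
  exact hD _ ((hreg f).mpr hf)

/-- The pull-back of tensors with values in a multiple of `K_X + Δ`. -/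
theorem pull_mem (htr : Algebra.trdeg ℂ K = n) {X : Set (Place ℂ K)}
    {δ : Place ℂ K → ℝ} {ω : (Fin n → Derivation ℂ K K) → K} (hω : IsPluri 1 ω)
    (hω0 : ∃ D, ω D ≠ 0) {k : Place ℂ K → ℤ} (hk : DivOf n X ω k) {σ : K ≃ₐ[ℂ] K}
    (hσ : MPreserves X δ (fun _ => (0 : ℝ)) σ)
    (τ : AlgebraicClosure K ≃+* AlgebraicClosure K)
    (hτ : ∀ x : K, τ (algebraMap K _ x) = algebraMap K _ (σ x)) {m : ℕ} (q : ℚ)
    {s : MTensor K (Fin m)} (hs : MAdapted n X δ (fun P => q * (k P + δ P)) s) :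
    ∃ ζ : AlgebraicClosure K, ζ ≠ 0 ∧
      MAdapted n X δ (fun P => q * (k P + δ P)) (ζ • mpull σ τ hτ s) := by
  obtain ⟨z, hz, hzk⟩ := exists_factor htr hω hω0 hk σ
  have hz' : z ^ q.num ≠ 0 := zpow_ne_zero _ hz
  obtain ⟨ζ, hζ⟩ := IsAlgClosed.exists_pow_nat_eq
    (algebraMap K (AlgebraicClosure K) (z ^ q.num)) q.den_pos
  have hζ0 : ζ ≠ 0 := by
    intro h0
    rw [h0, zero_pow q.den_pos.ne'] at hζ
    exact hz' ((map_eq_zero _).mp hζ.symm)
  refine ⟨ζ, hζ0, ?_⟩
  intro P hPX hP D hD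
  obtain ⟨Q, hQX, hQd, hδ, -, hQ, hreg, hlog⟩ := place_transport (n := n) hσ hPX hP
  have h1 := hs Q hQX hQd (fun a => conj σ (D a)) fun a => hreg _ (hD a)
  have h2 : {a | ¬ DerLog Q (conj σ (D a))} = {a | ¬ DerLog P (D a)} := by
    ext a
    exact not_congr (hlog _)
  have h3 := hzk P hPX hP Q hQX hQd hQ
  have h4 : (k Q : ℝ) = k P + P.ord z := by rw [h3]; push_cast; rfl
  rw [h2, hδ] at h1
  beta_reduce at h1 ⊢
  rw [h4, hδ] at h1
  have h5 : AlgOrd P _ (mpull σ τ hτ s D) := h1.image σ τ hτ hQ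
    (RingEquiv.apply_symm_apply _ _)
  have h6 := AlgOrd.mul_root h5 q.den_pos hz' hζ
  have h7 : (P.ord (z ^ q.num) : ℝ) / q.den = q * P.ord z := by
    rw [P.ord_zpow]
    have h8 : (q : ℝ) = q.num / q.den := by
      exact_mod_cast (Rat.num_div_den q).symm
    rw [h8]
    push_cast
    ring
  rw [h7] at h6
  change AlgOrd P _ (ζ * mpull σ τ hτ s D)
  convert h6 using 1
  ring

end transport

section datum

variable {K : Type} [Field K] [Algebra ℂ K] {n p d : ℕ}

/-- The data of a Galois stable and `G`-stable space of tensors. -/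
structure Datum (n : ℕ) (X : Set (Place ℂ K)) (δ : Place ℂ K → ℝ) (k : Place ℂ K → ℤ)
    (G : Set (K ≃ₐ[ℂ] K)) (Qs : Set ℚ) (s : Fin d → MTensor K (Fin p)) (q : Fin d → ℚ)
    (c : AlgebraicClosure K) (σ : STensor K (Fin d × Fin p)) : Prop where
  mem : ∀ i, q i ∈ Qs
  adapted : ∀ i, MAdapted n X δ (fun P => q i * (k P + δ P)) (s i)
  indep : LinearIndependent (AlgebraicClosure K) s
  span : ∀ r ∈ Qs, ∀ t : MTensor K (Fin p), MAdapted n X δ (fun P => r * (k P + δ P)) t →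
    t ∈ Submodule.span (AlgebraicClosure K) (Set.range s)
  c_ne : c ≠ 0
  sigma_ne : σ ≠ 0
  wedge_eq : ∀ D, wedge s D = c * algebraMap K _ (σ D)

theorem MAdapted.gal {X : Set (Place ℂ K)} {δ β : Place ℂ K → ℝ} {κ : Type} {s : MTensor K κ}
    (hs : MAdapted n X δ β s) (τ : AlgebraicClosure K ≃ₐ[K] AlgebraicClosure K) :
    MAdapted n X δ β (τ.toLinearMap.compMultilinearMap s) :=
  fun P hPX hP D hD => (hs P hPX hP D hD).gal τ

/-- Existence. -/
theorem exists_datum {X : Set (Place ℂ K)} {δ : Place ℂ K → ℝ} {k : Place ℂ K → ℤ}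
    (G : Set (K ≃ₐ[ℂ] K)) {Qs : Set ℚ} {s : Fin d → MTensor K (Fin p)} {q : Fin d → ℚ}
    (h1 : ∀ i, q i ∈ Qs) (h2 : ∀ i, MAdapted n X δ (fun P => q i * (k P + δ P)) (s i))
    (h3 : LinearIndependent (AlgebraicClosure K) s)
    (h4 : ∀ r ∈ Qs, ∀ t : MTensor K (Fin p), MAdapted n X δ (fun P => r * (k P + δ P)) t →
      t ∈ Submodule.span (AlgebraicClosure K) (Set.range s)) :
    ∃ c σ, Datum n X δ k G Qs s q c σ := by
  obtain ⟨c, σ, h5, h6, h7⟩ := exists_rational s h3 fun τ i =>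
    h4 _ (h1 i) _ (MAdapted.gal (h2 i) τ)
  exact ⟨c, σ, h1, h2, h3, h4, h5, h6, h7⟩

variable {X : Set (Place ℂ K)} {δ : Place ℂ K → ℝ} {k : Place ℂ K → ℤ}
  {G : Set (K ≃ₐ[ℂ] K)} {Qs : Set ℚ} {s : Fin d → MTensor K (Fin p)} {q : Fin d → ℚ}
  {c : AlgebraicClosure K} {σ : STensor K (Fin d × Fin p)}

/-- The orders. -/
theorem Datum.bound (h : Datum n X δ k G Qs s q c σ) {P : Place ℂ K} (hPX : P ∈ X)
    (hP : Divisorial n P) {x : ℝ} (hx : x ∈ vals δ σ P) :
    AlgOrd P (-(((∑ i, q i : ℚ) : ℝ) * (k P + δ P) + x)) c := by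
  obtain ⟨D, hD, hσD, rfl⟩ := hx
  have h1 := wedge_adapted s q (L := fun P => (k P : ℝ) + δ P) h.adapted P hPX hP D hD
  rw [h.wedge_eq] at h1
  have h2 := h1.mul (AlgOrd.of_GR (P := P) (r := -(P.ord (σ D) : ℝ)) (f := (σ D)⁻¹)
    (Or.inr (by rw [P.ord_inv]; push_cast; exact le_rfl)))
  have h3 : c * algebraMap K (AlgebraicClosure K) (σ D) *
      algebraMap K (AlgebraicClosure K) (σ D)⁻¹ = c := by
    rw [mul_assoc, ← map_mul, mul_inv_cancel₀ hσD, map_one, mul_one]
  rw [h3] at h2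
  convert h2 using 1
  ring

theorem Datum.bdd (h : Datum n X δ k G Qs s q c σ) {P : Place ℂ K} (hPX : P ∈ X)
    (hP : Divisorial n P) : BddBelow (vals δ σ P) := by
  obtain ⟨N, y, hN, hy, hb⟩ := exists_alg_norm h.c_ne
  have hN' : (0 : ℝ) < N := by exact_mod_cast hN
  refine ⟨-(P.ord y : ℝ) / N - ((∑ i, q i : ℚ) : ℝ) * (k P + δ P), fun x hx => ?_⟩
  have h1 := (hb P _ (h.bound hPX hP hx)).1
  rw [sub_le_iff_le_add, div_le_iff₀ hN']
  nlinarith

theorem Datum.order (h : Datum n X δ k G Qs s q c σ) [Algebra.EssFiniteType ℂ K]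
    (htr : Algebra.trdeg ℂ K = n) {P : Place ℂ K} (hPX : P ∈ X) (hP : Divisorial n P) :
    AlgOrd P (-(((∑ i, q i : ℚ) : ℝ) * (k P + δ P) + vT δ σ P)) c := by
  refine AlgOrd.limit fun ε hε => ?_
  obtain ⟨x, hx, hxε⟩ := exists_lt_of_csInf_lt (vals_nonempty htr δ h.sigma_ne hP)
    (show sInf (vals δ σ P) < vT δ σ P + ε from lt_add_of_pos_right _ hε)
  exact (h.bound hPX hP hx).mono (by linarith)

/-- The transport. -/
theorem Datum.transport (h : Datum n X δ k G Qs s q c σ) (htr : Algebra.trdeg ℂ K = n)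
    {ω : (Fin n → Derivation ℂ K K) → K} (hω : IsPluri 1 ω)
    (hω0 : ∃ D, ω D ≠ 0) (hk : DivOf n X ω k) {g : K ≃ₐ[ℂ] K}
    (hg : MPreserves X δ (fun _ => (0 : ℝ)) g) :
    ∃ κ : K, κ ≠ 0 ∧ ∀ D, σ (fun x => conj g (D x)) = g (κ * σ D) := by
  classical
  obtain ⟨τ, hτ⟩ := exists_lift g
  choose ζ hζ hζs using fun i => pull_mem htr hω hω0 hk hg τ hτ (q i) (h.adapted i)
  choose A hA using fun i => (Submodule.mem_span_range_iff_exists_fun _).mp
    (h.span _ (h.mem i) _ (hζs i))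
  have h1 := wedge_lin s (fun i => ζ i • mpull g τ hτ (s i)) (Matrix.of A) fun i => (hA i).symm
  have h2 : ∀ D, wedge (fun i => ζ i • mpull g τ hτ (s i)) D =
      (∏ i, ζ i) * τ.symm (wedge s fun x => conj g (D x)) := by
    intro D
    rw [wedge_apply, wedge_apply]
    have h3 := (τ.symm : AlgebraicClosure K →+* AlgebraicClosure K).map_det
      (Matrix.of fun i j => s i fun a => conj g (D (j, a)))
    change _ = (∏ i, ζ i) * (τ.symm : AlgebraicClosure K →+* AlgebraicClosure K) _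
    rw [h3, ← Matrix.det_mul_column]
    rfl
  have hτs : ∀ x : K, τ.symm (algebraMap K _ x) = algebraMap K _ (g.symm x) := by
    intro x
    rw [RingEquiv.symm_apply_eq, hτ, AlgEquiv.apply_symm_apply]
  have h3 : ∀ D, (∏ i, ζ i) * (τ.symm c * algebraMap K _ (g.symm (σ fun x => conj g (D x)))) =
      (Matrix.of A).det * (c * algebraMap K _ (σ D)) := by
    intro D
    have h4 := h2 D
    rw [h1, h.wedge_eq, map_mul, hτs] at h4
    rw [← h4, ← h.wedge_eq]
    rfl
  have hZ : (∏ i, ζ i) ≠ 0 := Finset.prod_ne_zero_iff.mpr fun i _ => hζ i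
  have hτc : τ.symm c ≠ 0 := (map_ne_zero_iff _ τ.symm.injective).mpr h.c_ne
  obtain ⟨D1, hD1⟩ : ∃ D, σ D ≠ 0 := by
    by_contra hno
    push Not at hno
    exact h.sigma_ne (MultilinearMap.ext hno)
  have hinj := (algebraMap K (AlgebraicClosure K)).injective
  let κ : K := g.symm (σ fun x => conj g (D1 x)) / σ D1
  have hκ : ∀ D, g.symm (σ fun x => conj g (D x)) = κ * σ D := by
    intro D
    apply hinj
    have h4 := h3 D
    have h5 := h3 D1
    have h6 : algebraMap K (AlgebraicClosure K) (σ D1) ≠ 0 := (map_ne_zero _).mpr hD1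
    simp only [κ]
    rw [map_mul, map_div₀]
    have h7 : (∏ i, ζ i) * τ.symm c ≠ 0 := mul_ne_zero hZ hτc
    apply mul_left_cancel₀ h7
    rw [mul_assoc, h4]
    have h8 : (∏ i, ζ i) * τ.symm c * (algebraMap K (AlgebraicClosure K)
        (g.symm (σ fun x => conj g (D1 x))) / algebraMap K (AlgebraicClosure K) (σ D1) *
          algebraMap K (AlgebraicClosure K) (σ D)) = (∏ i, ζ i) * (τ.symm c *
          algebraMap K (AlgebraicClosure K) (g.symm (σ fun x => conj g (D1 x)))) /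
          algebraMap K (AlgebraicClosure K) (σ D1) *
          algebraMap K (AlgebraicClosure K) (σ D) := by ring
    rw [h8, h5]
    field_simp
  have hκ' : ∀ D, σ (fun x => conj g (D x)) = g (κ * σ D) := by
    intro D
    rw [← hκ, AlgEquiv.apply_symm_apply]
  refine ⟨κ, ?_, hκ'⟩
  intro h0
  apply hD1
  have h4 := hκ' fun x => conj g.symm (D1 x)
  simp only [conj_conj_symm] at h4
  rw [h4, h0, zero_mul, map_zero]

/-- The class of the divisor is invariant. -/
theorem Datum.inv (h : Datum n X δ k G Qs s q c σ) [Algebra.EssFiniteType ℂ K]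
    (htr : Algebra.trdeg ℂ K = n) {ω : (Fin n → Derivation ℂ K K) → K} (hω : IsPluri 1 ω)
    (hω0 : ∃ D, ω D ≠ 0) (hk : DivOf n X ω k)
    (hG : ∀ g ∈ G, MPreserves X δ (fun _ => (0 : ℝ)) g) : InvariantClass n X G (vT δ σ) := by
  classical
  intro g hg
  obtain ⟨κ, hκ, htrans⟩ := h.transport htr hω hω0 hk (hG g hg)
  refine ⟨1, Nat.one_pos, κ, hκ, fun P hPX hP Q hQX hQ hPQ => ?_⟩
  obtain ⟨Q', hQ'X, hQ'd, hδ', -, hQ', hreg, hlog⟩ := place_transport (n := n) (hG g hg) hPX hP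
  have hQQ : Q' = Q := by
    apply Place.ext
    funext f
    have h4 := hQ' (g.symm f)
    have h5 := hPQ (g.symm f)
    rw [AlgEquiv.apply_symm_apply] at h4 h5
    rw [h4, h5]
  subst hQQ
  have hncard : ∀ D : Fin d × Fin p → Derivation ℂ K K,
      {a | ¬ DerLog Q' (conj g (D a))} = {a | ¬ DerLog P (D a)} := by
    intro D
    ext a
    exact not_congr (hlog _)
  have hval : ∀ D : Fin d × Fin p → Derivation ℂ K K, σ D ≠ 0 →
      (Q'.ord (σ fun x => conj g (D x)) : ℝ) = P.ord κ + P.ord (σ D) := by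
    intro D hD
    rw [htrans, hQ', P.ord_mul hκ hD]
    push_cast
    rfl
  have hne1 := vals_nonempty htr δ h.sigma_ne hP
  have hne2 := vals_nonempty htr δ h.sigma_ne hQ'd
  have hb1 := h.bdd hPX hP
  have hb2 := h.bdd hQ'X hQ'd
  have h1 : vT δ σ Q' ≤ vT δ σ P + P.ord κ := by
    rw [← sub_le_iff_le_add]
    refine le_csInf hne1 ?_
    rintro x ⟨D, hD, hσD, rfl⟩
    have hne : σ (fun x => conj g (D x)) ≠ 0 := by
      rw [htrans]
      exact (map_ne_zero_iff _ g.injective).mpr (mul_ne_zero hκ hσD)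
    have h2 := csInf_le hb2 ⟨fun x => conj g (D x), fun a => hreg _ (hD a), hne, rfl⟩
    rw [hval D hσD, hncard, hδ'] at h2
    change vT δ σ Q' ≤ _ at h2
    linarith
  have h2 : vT δ σ P + P.ord κ ≤ vT δ σ Q' := by
    refine le_csInf hne2 ?_
    rintro x ⟨D', hD', hσD', rfl⟩
    let D : Fin d × Fin p → Derivation ℂ K K := fun x => conj g.symm (D' x)
    have hDD : (fun x => conj g (D x)) = D' := funext fun x => conj_conj_symm g _
    have hσD : σ D ≠ 0 := by
      intro h0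
      apply hσD'
      rw [← hDD, htrans, h0, mul_zero, map_zero]
    have h3 := csInf_le hb1 ⟨D, fun a => derReg_symm hQ' (hD' a), hσD, rfl⟩
    have h4 := hval D hσD
    have h5 := hncard D
    rw [hDD] at h4
    simp only [D, conj_conj_symm] at h5
    change vT δ σ P ≤ _ at h3
    rw [h4, h5, hδ']
    linarith
  rw [Nat.cast_one, one_mul]
  linarith

/-- Other bases. -/
theorem Datum.other (h : Datum n X δ k G Qs s q c σ) {s' : Fin d → MTensor K (Fin p)}
    {q' : Fin d → ℚ} (h1 : ∀ i, q' i ∈ Qs)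
    (h2 : ∀ i, MAdapted n X δ (fun P => q' i * (k P + δ P)) (s' i))
    (h3 : LinearIndependent (AlgebraicClosure K) s') {A : Fin d → Fin d → AlgebraicClosure K}
    (hA : ∀ i, s' i = ∑ j, A i j • s j) :
    Datum n X δ k G Qs s' q' ((Matrix.of A).det * c) σ := by
  classical
  have h4 := wedge_lin s s' (Matrix.of A) hA
  have h5 : ∀ D, wedge s' D = (Matrix.of A).det * c * algebraMap K _ (σ D) := by
    intro D
    rw [h4, mul_assoc, ← h.wedge_eq]
    rfl
  have hdet : (Matrix.of A).det ≠ 0 := by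
    intro h0
    obtain ⟨D, hD⟩ := exists_wedge_ne s' h3
    apply hD
    rw [h5, h0, zero_mul, zero_mul]
  refine ⟨h1, h2, h3, fun r hr t ht => ?_, mul_ne_zero hdet h.c_ne, h.sigma_ne, h5⟩
  have h6 : Submodule.span (AlgebraicClosure K) (Set.range s') =
      Submodule.span (AlgebraicClosure K) (Set.range s) := by
    have : FiniteDimensional (AlgebraicClosure K)
        (Submodule.span (AlgebraicClosure K) (Set.range s)) :=
      FiniteDimensional.span_of_finite _ (Set.finite_range s)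
    refine Submodule.eq_of_le_of_finrank_eq (Submodule.span_le.mpr ?_) ?_
    · rintro _ ⟨i, rfl⟩
      exact h.span _ (h1 i) _ (h2 i)
    · rw [finrank_span_eq_card h3, finrank_span_eq_card h.indep]
  rw [h6]
  exact h.span r hr t ht

end datum

end Pool.Agent.Zk28.TF
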