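import Pool.Agent.Zk28.TF.Fib
import Pool.Agent.Zk28.TF.AOrd

/-!
The determinant of a basis of a space of multivalued tensors.
-/

set_option autoImplicit false
set_option linter.unusedSectionVars false

open FF Pool.Agent.W602.GT

namespace Pool.Agent.Zk28.TF

open Pool.Agent.Zk28.TS

section select

/-- A family of vectors which spans contains a basis. -/
theorem exists_det_ne {F : Type} [Field F] {U : Type} {d : ℕ} (v : U → Fin d → F)
    (h : ∀ c : Fin d → F, (∀ u, ∑ i, c i * v u i = 0) → c = 0) :
    ∃ u : Fin d → U, (Matrix.of fun i j => v (u j) i).det ≠ 0 := by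
  classical
  have hspan : Submodule.span F (Set.range v) = ⊤ := by
    by_contra hne
    obtain ⟨f, hf0, hf⟩ := Submodule.exists_le_ker_of_lt_top _ (lt_top_iff_ne_top.mpr hne)
    apply hf0
    have h1 : (fun i => f fun j => if i = j then 1 else 0) = (0 : Fin d → F) := by
      apply h
      intro u
      have h2 : v u ∈ LinearMap.ker f := hf (Submodule.subset_span ⟨u, rfl⟩)
      rw [LinearMap.mem_ker, LinearMap.pi_apply_eq_sum_univ f] at h2
      refine Eq.trans (Finset.sum_congr rfl fun i _ => ?_) h2
      rw [smul_eq_mul]
      exact mul_comm (f fun j => if i = j then 1 else 0 : F) (v u i)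
    ext r
    rw [LinearMap.comp_apply, LinearMap.single_apply, LinearMap.pi_apply_eq_sum_univ f]
    have h2 : ∀ i, f (fun j => if i = j then 1 else 0) = 0 := fun i => congrFun h1 i
    simp [h2]
  obtain ⟨B, hB, hBspan, hBli⟩ := exists_linearIndependent F (Set.range v)
  have hfin : Finite B := hBli.setFinite
  have hfin' : Fintype B := Fintype.ofFinite B
  let bas := Module.Basis.mk hBli (by
    rw [Subtype.range_coe, hBspan, hspan])
  have hcard : Fintype.card (Fin d) = Fintype.card B := by
    have h1 := Module.finrank_eq_card_basis bas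
    rw [Module.finrank_fintype_fun_eq_card] at h1
    exact h1
  let e : Fin d ≃ B := Fintype.equivOfCardEq hcard
  have hrow : ∀ j, ∃ u, v u = (e j : B) := fun j => hB (e j).2
  choose u hu using hrow
  refine ⟨u, ?_⟩
  have h1 : LinearIndependent F (Matrix.of fun j i => v (u j) i).row := by
    have h2 : (Matrix.of fun j i => v (u j) i).row = (Subtype.val : B → Fin d → F) ∘ e := by
      funext j
      exact hu j
    rw [h2]
    exact hBli.comp _ e.injective
  rw [Matrix.linearIndependent_rows_iff_isUnit, Matrix.isUnit_iff_isUnit_det] at h1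
  have h2 : (Matrix.of fun i j => v (u j) i) = (Matrix.of fun j i => v (u j) i).transpose := rfl
  rw [h2, Matrix.det_transpose]
  exact h1.ne_zero

end select

section wedge

variable {K : Type} [Field K] [Algebra ℂ K] {p d : ℕ}

/-- The determinant of a family of multivalued tensors. -/
noncomputable def wedge (s : Fin d → MTensor K (Fin p)) : MTensor K (Fin d × Fin p) where
  toFun D := (Matrix.of fun i j => s i fun a => D (j, a)).det
  map_update_add' := by
    intro inst D q x y
    obtain ⟨j0, a0⟩ := q
    have hupd : ∀ z, (Matrix.of fun i j => s i fun a => Function.update D (j0, a0) z (j, a)) =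
        (Matrix.of fun i j => s i fun a => D (j, a)).updateCol j0
          fun i => s i (Function.update (fun a => D (j0, a)) a0 z) := by
      intro z
      ext i j
      by_cases hj : j = j0
      · subst hj
        rw [Matrix.updateCol_self]
        change s i _ = s i _
        congr 1
        funext a
        by_cases ha : a = a0
        · subst ha
          rw [Function.update_self, Function.update_self]
        · rw [Function.update_of_ne ha, Function.update_of_ne fun h => ha (congrArg Prod.snd h)]
      · rw [Matrix.updateCol_ne hj]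
        change s i _ = s i _
        congr 1
        funext a
        rw [Function.update_of_ne fun h => hj (congrArg Prod.fst h)]
    rw [hupd, hupd, hupd, ← Matrix.det_updateCol_add]
    congr 2
    funext i
    rw [Pi.add_apply, MultilinearMap.map_update_add]
  map_update_smul' := by
    intro inst D q c x
    obtain ⟨j0, a0⟩ := q
    have hupd : ∀ z, (Matrix.of fun i j => s i fun a => Function.update D (j0, a0) z (j, a)) =
        (Matrix.of fun i j => s i fun a => D (j, a)).updateCol j0
          fun i => s i (Function.update (fun a => D (j0, a)) a0 z) := by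
      intro z
      ext i j
      by_cases hj : j = j0
      · subst hj
        rw [Matrix.updateCol_self]
        change s i _ = s i _
        congr 1
        funext a
        by_cases ha : a = a0
        · subst ha
          rw [Function.update_self, Function.update_self]
        · rw [Function.update_of_ne ha, Function.update_of_ne fun h => ha (congrArg Prod.snd h)]
      · rw [Matrix.updateCol_ne hj]
        change s i _ = s i _
        congr 1
        funext a
        rw [Function.update_of_ne fun h => hj (congrArg Prod.fst h)]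
    rw [hupd, hupd, Algebra.smul_def, ← Matrix.det_updateCol_smul]
    congr 2
    funext i
    rw [Pi.smul_apply, MultilinearMap.map_update_smul, algebraMap_smul]

theorem wedge_apply (s : Fin d → MTensor K (Fin p)) (D : Fin d × Fin p → Derivation ℂ K K) :
    wedge s D = (Matrix.of fun i j => s i fun a => D (j, a)).det := rfl

theorem wedge_lin (s s' : Fin d → MTensor K (Fin p)) (A : Matrix (Fin d) (Fin d) (AlgebraicClosure K))
    (h : ∀ i, s' i = ∑ j, A i j • s j) : wedge s' = A.det • wedge s := by
  ext D
  rw [MultilinearMap.smul_apply, wedge_apply, wedge_apply, smul_eq_mul, ← Matrix.det_mul]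
  congr 1
  ext i j
  rw [Matrix.mul_apply]
  change s' i (fun a => D (j, a)) = ∑ l, A i l * s l fun a => D (j, a)
  rw [h, MultilinearMap.sum_apply]
  exact Finset.sum_congr rfl fun l _ => by rw [MultilinearMap.smul_apply, smul_eq_mul]

theorem exists_wedge_ne (s : Fin d → MTensor K (Fin p))
    (hs : LinearIndependent (AlgebraicClosure K) s) : ∃ D, wedge s D ≠ 0 := by
  obtain ⟨u, hu⟩ := exists_det_ne (fun (u : Fin p → Derivation ℂ K K) (i : Fin d) => s i u) (by
    intro c hc
    rw [Fintype.linearIndependent_iff] at hs
    funext i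
    refine hs c ?_ i
    ext u
    rw [MultilinearMap.sum_apply]
    exact hc u)
  exact ⟨fun q => u q.1 q.2, hu⟩

/-- The determinant of adapted tensors. -/
theorem wedge_adapted {n : ℕ} {X : Set (Place ℂ K)} {δ L : Place ℂ K → ℝ}
    (s : Fin d → MTensor K (Fin p)) (q : Fin d → ℚ)
    (hs : ∀ i, MAdapted n X δ (fun P => (q i : ℝ) * L P) (s i)) :
    MAdapted n X δ (fun P => ((∑ i, q i : ℚ) : ℝ) * L P) (wedge s) := by
  classical
  intro P hPX hP D hD
  rw [wedge_apply, Matrix.det_apply]
  refine AlgOrd.sum _ fun π _ => ?_
  have h1 : AlgOrd P (∑ j, -(({a | ¬ DerLog P (D (j, a))}.ncard : ℝ) * δ P + q (π j) * L P))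
      (∏ j, (Matrix.of fun i j => s i fun a => D (j, a)) (π j) j) :=
    AlgOrd.prod Finset.univ fun j _ => hs (π j) P hPX hP (fun a => D (j, a)) fun a => hD _
  have h2 : ∑ j, -(({a | ¬ DerLog P (D (j, a))}.ncard : ℝ) * δ P + q (π j) * L P) =
      -(({a | ¬ DerLog P (D a)}.ncard : ℝ) * δ P + ((∑ i, q i : ℚ) : ℝ) * L P) := by
    rw [Finset.sum_neg_distrib, Finset.sum_add_distrib, ← Finset.sum_mul, ← Finset.sum_mul,
      Equiv.sum_comp π (fun i => (q i : ℝ)), ncard_eq' (fun a => ¬ DerLog P (D a)),
      Fintype.sum_prod_type]
    rw [Finset.sum_congr rfl fun j _ => ncard_eq' (fun a => ¬ DerLog P (D (j, a)))]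
    push_cast
    rfl
  rw [h2] at h1
  rcases Int.units_eq_one_or (Equiv.Perm.sign π) with h | h
  · rw [h, one_smul]
    exact h1
  · rw [h, Units.neg_smul, one_smul]
    exact h1.neg

/-- The conjugates of a determinant. -/
theorem wedge_gal (s : Fin d → MTensor K (Fin p))
    (τ : AlgebraicClosure K ≃ₐ[K] AlgebraicClosure K) (D : Fin d × Fin p → Derivation ℂ K K) :
    wedge (fun i => τ.toLinearMap.compMultilinearMap (s i)) D = τ (wedge s D) := by
  rw [wedge_apply, wedge_apply]
  exact ((τ : AlgebraicClosure K →+* AlgebraicClosure K).map_det _).symm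

end wedge

section rational

variable {K : Type} [Field K] [Algebra ℂ K] {p d : ℕ}

/-- A Galois invariant space of multivalued tensors has a rational determinant. -/
theorem exists_rational (s : Fin d → MTensor K (Fin p))
    (hs : LinearIndependent (AlgebraicClosure K) s)
    (hgal : ∀ (τ : AlgebraicClosure K ≃ₐ[K] AlgebraicClosure K) (i : Fin d),
      τ.toLinearMap.compMultilinearMap (s i) ∈
        Submodule.span (AlgebraicClosure K) (Set.range s)) :
    ∃ (c : AlgebraicClosure K) (σ : STensor K (Fin d × Fin p)), c ≠ 0 ∧ σ ≠ 0 ∧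
      ∀ D, wedge s D = c * algebraMap K _ (σ D) := by
  classical
  have hcK : CharZero K := charZero_of_injective_algebraMap (algebraMap ℂ K).injective
  obtain ⟨D0, hD0⟩ := exists_wedge_ne s hs
  have hA : ∀ τ : AlgebraicClosure K ≃ₐ[K] AlgebraicClosure K, ∃ a : AlgebraicClosure K,
      ∀ D, τ (wedge s D) = a * wedge s D := by
    intro τ
    choose A hA using fun i => (Submodule.mem_span_range_iff_exists_fun _).mp (hgal τ i)
    refine ⟨(Matrix.of A).det, fun D => ?_⟩
    have h1 := wedge_lin s (fun i => τ.toLinearMap.compMultilinearMap (s i)) (Matrix.of A)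
      fun i => (hA i).symm
    rw [← wedge_gal, h1]
    rfl
  have hrat : ∀ D, wedge s D / wedge s D0 ∈ Set.range (algebraMap K (AlgebraicClosure K)) := by
    intro D
    rw [InfiniteGalois.mem_range_algebraMap_iff_fixed]
    intro τ
    obtain ⟨a, ha⟩ := hA τ
    have ha0 : a ≠ 0 := by
      rintro rfl
      have h1 := ha D0
      rw [zero_mul] at h1
      exact hD0 ((map_eq_zero_iff _ τ.injective).mp h1)
    rw [map_div₀, ha, ha, mul_div_mul_left _ _ ha0]
  choose r hr using hrat
  have hinj := (algebraMap K (AlgebraicClosure K)).injective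
  let σ : STensor K (Fin d × Fin p) :=
    { toFun := r
      map_update_add' := by
        intro inst D q x y
        apply hinj
        rw [map_add, hr, hr, hr, MultilinearMap.map_update_add, add_div]
      map_update_smul' := by
        intro inst D q c x
        apply hinj
        rw [smul_eq_mul, map_mul, hr, hr, MultilinearMap.map_update_smul, Algebra.smul_def,
          mul_div_assoc] }
  have hσ : ∀ D, wedge s D = wedge s D0 * algebraMap K _ (σ D) := by
    intro D
    change _ = _ * algebraMap K _ (r D)
    rw [hr]
    field_simp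
  refine ⟨wedge s D0, σ, hD0, ?_, hσ⟩
  intro h0
  apply hD0
  rw [hσ D0, h0]
  change _ * algebraMap K _ (0 : K) = 0
  rw [map_zero, mul_zero]

end rational

section orders

variable {K : Type} [Field K] [Algebra ℂ K] {κ : Type} [Fintype κ]

/-- The values of the orders of a tensor on regular vector fields. -/
def vals (δ : Place ℂ K → ℝ) (σ : STensor K κ) (P : Place ℂ K) : Set ℝ :=
  {x | ∃ D : κ → Derivation ℂ K K, (∀ a, DerReg P (D a)) ∧ σ D ≠ 0 ∧
    x = P.ord (σ D) + ({a | ¬ DerLog P (D a)}.ncard : ℝ) * δ P}

/-- The order of a rational tensor. -/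
noncomputable def vT (δ : Place ℂ K → ℝ) (σ : STensor K κ) (P : Place ℂ K) : ℝ :=
  sInf (vals δ σ P)

theorem vals_nonempty [Algebra.EssFiniteType ℂ K] {n : ℕ} (htr : Algebra.trdeg ℂ K = n)
    (δ : Place ℂ K → ℝ) {σ : STensor K κ} (hσ : σ ≠ 0) {P : Place ℂ K} (hP : Divisorial n P) :
    (vals δ σ P).Nonempty := by
  classical
  obtain ⟨y, E, i0, hF, -, -, hreg, -⟩ := frame_at htr hP
  let B : Module.Basis (Fin n) K (Derivation ℂ K K) := Module.Basis.mk hF.indep hF.span.ge
  have hB : ∀ i, B i = E i := fun i => by rw [Module.Basis.mk_apply]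
  by_contra hno
  apply hσ
  refine Module.Basis.ext_multilinear (fun _ => B) fun J => ?_
  by_contra hne
  apply hno
  have h1 : (fun i => B (J i)) = fun i => E (J i) := funext fun i => hB _
  refine ⟨_, fun i => E (J i), fun a => hreg _, ?_, rfl⟩
  rw [← h1]
  exact hne

theorem vT_le {δ : Place ℂ K → ℝ} {σ : STensor K κ} {P : Place ℂ K} (hb : BddBelow (vals δ σ P))
    {D : κ → Derivation ℂ K K} (hD : ∀ a, DerReg P (D a)) :
    GR P (vT δ σ P - ({a | ¬ DerLog P (D a)}.ncard : ℝ) * δ P) (σ D) := by
  by_cases h0 : σ D = 0
  · exact Or.inl h0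
  right
  have h1 := csInf_le hb ⟨D, hD, h0, rfl⟩
  change vT δ σ P ≤ _ at h1
  linarith

end orders

end Pool.Agent.Zk28.TF
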