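import Pool.Agent.Zk28.TF.Slope

/-!
Words of vector fields, and the determinants of the values of words of minimal total length.
-/

set_option autoImplicit false
set_option linter.unusedSectionVars false

open FF Pool.Agent.W602.GT

namespace Pool.Agent.Zk28.TF

open Pool.Agent.Zk28.TS

section words

variable {K : Type} [Field K] [Algebra ℂ K]

/-- The value of a word of vector fields at a function. -/
noncomputable def ev : (ℓ : ℕ) → (Fin ℓ → Derivation ℂ K K) → K → K
  | 0, _, g => g
  | ℓ + 1, D, g => D 0 (ev ℓ (fun i => D i.succ) g)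

theorem ev_zero (D : Fin 0 → Derivation ℂ K K) (g : K) : ev 0 D g = g := rfl

theorem ev_succ (ℓ : ℕ) (D : Fin (ℓ + 1) → Derivation ℂ K K) (g : K) :
    ev (ℓ + 1) D g = D 0 (ev ℓ (fun i => D i.succ) g) := rfl

variable {I : Type} {V : Submodule K (Derivation ℂ K K)} {g : I → K}

/-- The rows of the values of words of length less than `T`. -/
def Rw (V : Submodule K (Derivation ℂ K K)) (g : I → K) (T : ℕ) : Set (I → K) :=
  {r | ∃ ℓ, ℓ < T ∧ ∃ D : Fin ℓ → Derivation ℂ K K, (∀ i, D i ∈ V) ∧
    r = fun b => ev ℓ D (g b)}

/-- Their span. -/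
def Us (V : Submodule K (Derivation ℂ K K)) (g : I → K) (T : ℕ) : Submodule K (I → K) :=
  Submodule.span K (Rw V g T)

theorem Us_mono {T T' : ℕ} (h : T ≤ T') : Us V g T ≤ Us V g T' := by
  refine Submodule.span_mono ?_
  rintro r ⟨ℓ, hℓ, D, hD, rfl⟩
  exact ⟨ℓ, by omega, D, hD, rfl⟩

theorem row_mem {ℓ : ℕ} {D : Fin ℓ → Derivation ℂ K K} (hD : ∀ i, D i ∈ V) :
    (fun b => ev ℓ D (g b)) ∈ Us V g (ℓ + 1) :=
  Submodule.subset_span ⟨ℓ, Nat.lt_succ_self _, D, hD, rfl⟩

theorem der_Us {T : ℕ} {E : Derivation ℂ K K} (hE : E ∈ V) {r : I → K} (hr : r ∈ Us V g T) :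
    (fun b => E (r b)) ∈ Us V g (T + 1) := by
  induction hr using Submodule.span_induction with
  | mem r hr =>
    obtain ⟨ℓ, hℓ, D, hD, rfl⟩ := hr
    refine Submodule.subset_span ⟨ℓ + 1, by omega, Fin.cons E D, ?_, ?_⟩
    · intro i
      refine Fin.cases ?_ (fun j => ?_) i
      · simpa using hE
      · simpa using hD j
    · funext b
      rw [ev_succ]
      simp
  | zero =>
    have h1 : (fun b => E ((0 : I → K) b)) = 0 := by
      funext b
      simp
    rw [h1]
    exact Submodule.zero_mem _
  | add x y _ _ hx hy =>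
    have h1 : (fun b => E ((x + y) b)) = (fun b => E (x b)) + fun b => E (y b) := by
      funext b
      simp
    rw [h1]
    exact Submodule.add_mem _ hx hy
  | smul c x hx' hx =>
    have h1 : (fun b => E ((c • x) b)) = E c • x + c • fun b => E (x b) := by
      funext b
      simp only [Pi.smul_apply, Pi.add_apply, smul_eq_mul, Derivation.leibniz]
      ring
    rw [h1]
    exact Submodule.add_mem _ (Submodule.smul_mem _ _ (Us_mono (Nat.le_succ _) hx'))
      (Submodule.smul_mem _ _ hx)

theorem ev_update_zero {ℓ : ℕ} (D : Fin (ℓ + 1) → Derivation ℂ K K) (z : Derivation ℂ K K)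
    (f : K) : ev (ℓ + 1) (Function.update D 0 z) f = z (ev ℓ (fun i => D i.succ) f) := by
  rw [ev_succ, Function.update_self]
  congr 2

theorem ev_update_succ {ℓ : ℕ} (D : Fin (ℓ + 1) → Derivation ℂ K K) (i : Fin ℓ)
    (z : Derivation ℂ K K) (f : K) : ev (ℓ + 1) (Function.update D i.succ z) f =
      D 0 (ev ℓ (Function.update (fun i => D i.succ) i z) f) := by
  rw [ev_succ, Function.update_of_ne (Fin.succ_ne_zero i).symm]
  congr 2
  funext j
  by_cases h : j = i
  · subst h; simp
  · rw [Function.update_of_ne h, Function.update_of_ne fun h' => h (Fin.succ_injective _ h')]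

theorem ev_update_add : ∀ (ℓ : ℕ) (D : Fin ℓ → Derivation ℂ K K) (i : Fin ℓ)
    (x y : Derivation ℂ K K) (f : K), ev ℓ (Function.update D i (x + y)) f =
      ev ℓ (Function.update D i x) f + ev ℓ (Function.update D i y) f := by
  intro ℓ
  induction ℓ with
  | zero => intro D i; exact i.elim0
  | succ ℓ ih =>
    intro D i x y f
    refine Fin.cases ?_ (fun j => ?_) i
    · rw [ev_update_zero, ev_update_zero, ev_update_zero]
      rfl
    · rw [ev_update_succ, ev_update_succ, ev_update_succ, ih, map_add]

theorem ev_update_smul : ∀ (ℓ : ℕ) (D : Fin ℓ → Derivation ℂ K K), (∀ i, D i ∈ V) →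
    ∀ (i : Fin ℓ) (c : K) (x : Derivation ℂ K K), x ∈ V →
      (fun b => ev ℓ (Function.update D i (c • x)) (g b) -
        c * ev ℓ (Function.update D i x) (g b)) ∈ Us V g ℓ := by
  intro ℓ
  induction ℓ with
  | zero => intro D _ i; exact i.elim0
  | succ ℓ ih =>
    intro D hD i c x hx
    refine Fin.cases ?_ (fun j => ?_) i
    · have h1 : (fun b => ev (ℓ + 1) (Function.update D 0 (c • x)) (g b) -
          c * ev (ℓ + 1) (Function.update D 0 x) (g b)) = 0 := by
        funext b
        rw [ev_update_zero, ev_update_zero]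
        simp
      rw [h1]
      exact Submodule.zero_mem _
    · have h1 := ih (fun i => D i.succ) (fun i => hD _) j c x hx
      have h2 := der_Us (hD 0) h1
      have hD' : ∀ i, Function.update (fun i : Fin ℓ => D i.succ) j x i ∈ V := by
        intro i
        by_cases h : i = j
        · subst h; simpa using hx
        · rw [Function.update_of_ne h]
          exact hD _
      have h3 := Submodule.smul_mem _ (D 0 c) (row_mem (g := g) hD')
      have h4 := Submodule.add_mem _ h2 h3
      convert h4 using 1
      funext b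
      rw [ev_update_succ, ev_update_succ]
      simp only [Pi.add_apply, Pi.smul_apply, smul_eq_mul, map_sub, Derivation.leibniz]
      ring

theorem ev_mul : ∀ (ℓ : ℕ) (D : Fin ℓ → Derivation ℂ K K), (∀ i, D i ∈ V) → ∀ h : K,
    (fun b => ev ℓ D (h * g b) - h * ev ℓ D (g b)) ∈ Us V g ℓ := by
  intro ℓ
  induction ℓ with
  | zero =>
    intro D _ h
    have h1 : (fun b => ev 0 D (h * g b) - h * ev 0 D (g b)) = 0 := by
      funext b
      simp [ev_zero]
    rw [h1]
    exact Submodule.zero_mem _
  | succ ℓ ih =>
    intro D hD h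
    have h1 := ih (fun i => D i.succ) (fun i => hD _) h
    have h2 := der_Us (hD 0) h1
    have h3 := Submodule.smul_mem _ (D 0 h)
      (row_mem (g := g) (D := fun i : Fin ℓ => D i.succ) fun i => hD _)
    have h4 := Submodule.add_mem _ h2 h3
    convert h4 using 1
    funext b
    rw [ev_succ, ev_succ]
    simp only [Pi.add_apply, Pi.smul_apply, smul_eq_mul, map_sub, Derivation.leibniz]
    ring

theorem ev_reg {P : Place ℂ K} : ∀ (ℓ : ℕ) (D : Fin ℓ → Derivation ℂ K K), (∀ i, DerReg P (D i)) →
    ∀ f, P.Reg f → P.Reg (ev ℓ D f) := by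
  intro ℓ
  induction ℓ with
  | zero => intro D _ f hf; exact hf
  | succ ℓ ih =>
    intro D hD f hf
    exact hD 0 _ (ih _ (fun i => hD _) f hf)

end words

section dets

variable {K : Type} [Field K] {I : Type} [Fintype I] [DecidableEq I]

/-- If determinants vanish for all choices of rows in given sets, then for all rows in their spans. -/
theorem det_span_zero {S : I → Set (I → K)}
    (h : ∀ v : I → I → K, (∀ a, v a ∈ S a) → (Matrix.of v).det = 0) (r : I → I → K)
    (hr : ∀ a, r a ∈ Submodule.span K (S a)) : (Matrix.of r).det = 0 := by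
  have key : ∀ T : Finset I, ∀ r : I → I → K, (∀ a ∈ T, r a ∈ Submodule.span K (S a)) →
      (∀ a ∉ T, r a ∈ S a) → (Matrix.of r).det = 0 := by
    intro T
    induction T using Finset.induction_on with
    | empty =>
      intro r _ hr
      exact h r fun a => hr a (Finset.notMem_empty a)
    | insert a T ha ih =>
      intro r hr hr'
      have h1 : ∀ x ∈ Submodule.span K (S a), ((Matrix.of r).updateRow a x).det = 0 := by
        intro x hx
        induction hx using Submodule.span_induction with
        | mem x hx =>
          refine ih (Function.update r a x) (fun b hb => ?_) fun b hb => ?_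
          · have hne : b ≠ a := fun h => ha (h ▸ hb)
            rw [Function.update_of_ne hne]
            exact hr b (Finset.mem_insert_of_mem hb)
          · by_cases hne : b = a
            · subst hne
              simpa using hx
            · rw [Function.update_of_ne hne]
              exact hr' b fun hb' => by
                rcases Finset.mem_insert.mp hb' with h | h
                · exact hne h
                · exact hb h
        | zero => exact Matrix.det_eq_zero_of_row_eq_zero a fun j => by simp
        | add x y _ _ hx hy => rw [Matrix.det_updateRow_add, hx, hy, add_zero]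
        | smul c x _ hx => rw [Matrix.det_updateRow_smul, hx, mul_zero]
      have h2 := h1 (r a) (hr a (Finset.mem_insert_self a T))
      have h3 : (Matrix.of r).updateRow a (r a) = Matrix.of r := by
        exact Matrix.updateRow_eq_self _ _
      rw [h3] at h2
      exact h2
  exact key Finset.univ r (fun a _ => hr a) fun a ha => absurd (Finset.mem_univ a) ha

end dets

section wron

variable {K : Type} [Field K] [Algebra ℂ K] {I : Type} [Fintype I] [DecidableEq I]
  {V : Submodule K (Derivation ℂ K K)} {g : I → K}

/-- The determinants of words with smaller total length vanish. -/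
def MinLen (V : Submodule K (Derivation ℂ K K)) (g : I → K) (m : ℕ) : Prop :=
  ∀ (ℓ : I → ℕ) (D : (a : I) → Fin (ℓ a) → Derivation ℂ K K), (∀ a i, D a i ∈ V) →
    ∑ a, ℓ a < m → (Matrix.of fun a b => ev (ℓ a) (D a) (g b)).det = 0

theorem MinLen.zero {m : ℕ} (h : MinLen V g m) {ℓ : I → ℕ} (hℓ : ∑ a, ℓ a = m) (a0 : I)
    (r : I → I → K) (hr : ∀ a, a ≠ a0 → r a ∈ Us V g (ℓ a + 1)) (hr0 : r a0 ∈ Us V g (ℓ a0)) :
    (Matrix.of r).det = 0 := by
  refine det_span_zero (S := fun a => Rw V g (if a = a0 then ℓ a else ℓ a + 1))
    (fun v hv => ?_) r fun a => ?_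
  · choose ℓ' hℓ' D hD hv using hv
    have h1 := h ℓ' D hD (by
      rw [← hℓ]
      refine Finset.sum_lt_sum (fun a _ => ?_) ⟨a0, Finset.mem_univ _, ?_⟩
      · have := hℓ' a
        split_ifs at this <;> omega
      · have := hℓ' a0
        rw [if_pos rfl] at this
        exact this)
    have h2 : v = fun a b => ev (ℓ' a) (D a) (g b) := funext hv
    rw [h2]
    exact h1
  · by_cases ha : a = a0
    · subst ha
      rw [if_pos rfl]
      exact hr0
    · rw [if_neg ha]
      exact hr a ha

/-- Homogeneity. -/
theorem MinLen.mul {m : ℕ} (h : MinLen V g m) {ℓ : I → ℕ} (hℓ : ∑ a, ℓ a = m)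
    (D : (a : I) → Fin (ℓ a) → Derivation ℂ K K) (hD : ∀ a i, D a i ∈ V) (c : K) :
    (Matrix.of fun a b => ev (ℓ a) (D a) (c * g b)).det =
      c ^ Fintype.card I * (Matrix.of fun a b => ev (ℓ a) (D a) (g b)).det := by
  let row : I → I → K := fun a b => ev (ℓ a) (D a) (g b)
  let r : I → I → K := fun a b => ev (ℓ a) (D a) (c * g b)
  have hrow : ∀ a, row a ∈ Us V g (ℓ a + 1) := fun a => row_mem (hD a)
  have hz : ∀ a, r a - c • row a ∈ Us V g (ℓ a) := fun a => ev_mul (ℓ a) (D a) (hD a) c
  have hr : ∀ a, r a ∈ Us V g (ℓ a + 1) := by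
    intro a
    have h1 := Submodule.add_mem _ (Us_mono (Nat.le_succ (ℓ a)) (hz a))
      (Submodule.smul_mem _ c (hrow a))
    rwa [sub_add_cancel] at h1
  have key : ∀ T : Finset I, (Matrix.of fun a => if a ∈ T then c • row a else r a).det =
      (Matrix.of r).det := by
    intro T
    induction T using Finset.induction_on with
    | empty => simp
    | insert a T ha ih =>
      rw [← ih]
      let M : Matrix I I K := Matrix.of fun a => if a ∈ T then c • row a else r a
      have h1 : (Matrix.of fun b => if b ∈ insert a T then c • row b else r b) =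
          M.updateRow a (c • row a) := by
        ext b j
        by_cases hb : b = a
        · subst hb
          rw [Matrix.updateRow_self]
          simp
        · rw [Matrix.updateRow_ne hb]
          simp [M, hb]
      have h2 : M = M.updateRow a ((r a - c • row a) + c • row a) := by
        ext b j
        by_cases hb : b = a
        · subst hb
          rw [Matrix.updateRow_self]
          simp [M, ha]
        · rw [Matrix.updateRow_ne hb]
      rw [h1]
      have h3 : (M.updateRow a (r a - c • row a)).det = 0 := by
        refine h.zero hℓ a (fun b => M.updateRow a (r a - c • row a) b) (fun b hb => ?_) ?_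
        · rw [Matrix.updateRow_ne hb]
          change (if b ∈ T then c • row b else r b) ∈ _
          split_ifs
          · exact Submodule.smul_mem _ c (hrow b)
          · exact hr b
        · rw [Matrix.updateRow_self]
          exact hz a
      change _ = M.det
      conv_rhs => rw [h2]
      rw [Matrix.det_updateRow_add, h3, zero_add]
  have h1 := key Finset.univ
  have h2 : (Matrix.of fun a => if a ∈ Finset.univ then c • row a else r a) =
      c • Matrix.of row := by
    ext a b
    simp
  rw [h2, Matrix.det_smul] at h1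
  exact h1.symm

/-- The Wronskian of words of minimal total length is a leafwise tensor. -/
theorem exists_wronskian {m : ℕ} (h : MinLen V g m) {ℓ : I → ℕ} (hℓ : ∑ a, ℓ a = m) :
    ∃ s : MultilinearMap K (fun _ : Σ a, Fin (ℓ a) => V) K, ∀ D,
      s D = (Matrix.of fun a b => ev (ℓ a) (fun i => (D ⟨a, i⟩ : Derivation ℂ K K)) (g b)).det := by
  have hupd : ∀ (inst : DecidableEq (Σ a, Fin (ℓ a))) (D : (Σ a, Fin (ℓ a)) → V) (a0 : I)
      (i0 : Fin (ℓ a0)) (z : V),
      (Matrix.of fun a b => ev (ℓ a)
        (fun i => (Function.update D ⟨a0, i0⟩ z ⟨a, i⟩ : Derivation ℂ K K)) (g b)) =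
      (Matrix.of fun a b => ev (ℓ a) (fun i => (D ⟨a, i⟩ : Derivation ℂ K K)) (g b)).updateRow a0
        fun b => ev (ℓ a0) (Function.update (fun i => (D ⟨a0, i⟩ : Derivation ℂ K K)) i0 z)
          (g b) := by
    intro inst D a0 i0 z
    ext a b
    by_cases ha : a = a0
    · subst ha
      rw [Matrix.updateRow_self]
      change ev _ _ _ = ev _ _ _
      congr 1
      funext i
      by_cases hi : i = i0
      · subst hi
        rw [Function.update_self, Function.update_self]
      · rw [Function.update_of_ne hi, Function.update_of_ne]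
        intro h1
        exact hi (by simpa using h1)
    · rw [Matrix.updateRow_ne ha]
      change ev _ _ _ = ev _ _ _
      congr 1
      funext i
      rw [Function.update_of_ne]
      intro h1
      exact ha (congrArg Sigma.fst h1)
  refine ⟨⟨fun D => (Matrix.of fun a b => ev (ℓ a)
    (fun i => (D ⟨a, i⟩ : Derivation ℂ K K)) (g b)).det, ?_, ?_⟩, fun D => rfl⟩
  · intro inst D p x y
    obtain ⟨a0, i0⟩ := p
    rw [hupd inst, hupd inst, hupd inst, ← Matrix.det_updateRow_add]
    congr 2
    funext b
    rw [Pi.add_apply, Submodule.coe_add, ev_update_add]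
  · intro inst D p c x
    obtain ⟨a0, i0⟩ := p
    rw [hupd inst, hupd inst, smul_eq_mul, ← Matrix.det_updateRow_smul]
    set M : Matrix I I K := Matrix.of fun a b => ev (ℓ a)
      (fun i => (D ⟨a, i⟩ : Derivation ℂ K K)) (g b)
    have h1 := ev_update_smul (V := V) (g := g) (ℓ a0)
      (fun i => (D ⟨a0, i⟩ : Derivation ℂ K K)) (fun i => (D _).2) i0 c x x.2
    have h2 : (fun b => ev (ℓ a0) (Function.update (fun i => (D ⟨a0, i⟩ : Derivation ℂ K K)) i0
        ((c • x : V) : Derivation ℂ K K)) (g b)) =
        (fun b => ev (ℓ a0) (Function.update (fun i => (D ⟨a0, i⟩ : Derivation ℂ K K)) i0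
          (c • (x : Derivation ℂ K K))) (g b) -
          c * ev (ℓ a0) (Function.update (fun i => (D ⟨a0, i⟩ : Derivation ℂ K K)) i0 x) (g b)) +
        c • fun b => ev (ℓ a0) (Function.update (fun i => (D ⟨a0, i⟩ : Derivation ℂ K K)) i0 x)
          (g b) := by
      funext b
      rw [Pi.add_apply, Pi.smul_apply, smul_eq_mul, Submodule.coe_smul, sub_add_cancel]
    rw [h2, Matrix.det_updateRow_add]
    have h3 : (M.updateRow a0 fun b => ev (ℓ a0) (Function.update
        (fun i => (D ⟨a0, i⟩ : Derivation ℂ K K)) i0 (c • (x : Derivation ℂ K K))) (g b) -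
          c * ev (ℓ a0) (Function.update (fun i => (D ⟨a0, i⟩ : Derivation ℂ K K)) i0 x)
            (g b)).det = 0 := by
      refine h.zero hℓ a0 (fun b => M.updateRow a0 _ b) (fun b hb => ?_) ?_
      · rw [Matrix.updateRow_ne hb]
        exact row_mem fun i => (D _).2
      · rw [Matrix.updateRow_self]
        exact h1
    rw [h3, zero_add]

end wron

end Pool.Agent.Zk28.TF
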