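import Pool.Agent.Zk28.TF.Wron

/-!
Generalized Wronskians, commuting coordinates of a foliation, and the number of words.
-/

set_option autoImplicit false
set_option linter.unusedSectionVars false

open FF Pool.Agent.W602.GT

namespace Pool.Agent.Zk28.TF

open Pool.Agent.Zk28.TS

section exist

variable {K : Type} [Field K] [Algebra ℂ K] {I : Type} [Fintype I] [DecidableEq I]
  {V : Submodule K (Derivation ℂ K K)} {g : I → K}

/-- The generalized Wronskian. -/
theorem exists_words
    (hind : ∀ c : I → K, (∀ b, ∀ E ∈ V, E (c b) = 0) → ∑ b, c b * g b = 0 → c = 0) :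
    ∃ (ℓ : I → ℕ) (D : (a : I) → Fin (ℓ a) → Derivation ℂ K K), (∀ a i, D a i ∈ V) ∧
      (Matrix.of fun a b => ev (ℓ a) (D a) (g b)).det ≠ 0 := by
  classical
  let All : Set (I → K) := {r | ∃ (ℓ : ℕ) (D : Fin ℓ → Derivation ℂ K K), (∀ i, D i ∈ V) ∧
    r = fun b => ev ℓ D (g b)}
  have hspan : Submodule.span K All = ⊤ := by
    by_contra hne
    obtain ⟨f, hf0, hf⟩ := Submodule.exists_le_ker_of_lt_top _ (lt_top_iff_ne_top.mpr hne)
    let Λ : (I → K) → Prop := fun c => ∀ (ℓ : ℕ) (D : Fin ℓ → Derivation ℂ K K),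
      (∀ i, D i ∈ V) → ∑ b, c b * ev ℓ D (g b) = 0
    have hex : ∃ n, ∃ c : I → K, Λ c ∧ c ≠ 0 ∧ (Finset.univ.filter fun b => c b ≠ 0).card = n := by
      refine ⟨_, fun b => f fun j => if b = j then 1 else 0, ?_, ?_, rfl⟩
      · intro ℓ D hD
        have h1 : (fun b => ev ℓ D (g b)) ∈ LinearMap.ker f :=
          hf (Submodule.subset_span ⟨ℓ, D, hD, rfl⟩)
        rw [LinearMap.mem_ker, LinearMap.pi_apply_eq_sum_univ f] at h1
        refine Eq.trans (Finset.sum_congr rfl fun b _ => ?_) h1
        rw [smul_eq_mul]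
        exact mul_comm (f fun j => if b = j then 1 else 0 : K) (ev ℓ D (g b))
      · intro h0
        apply hf0
        ext r
        rw [LinearMap.comp_apply, LinearMap.single_apply, LinearMap.pi_apply_eq_sum_univ f]
        have h1 : ∀ b, f (fun j => if b = j then 1 else 0) = 0 := fun b => congrFun h0 b
        simp [h1]
    obtain ⟨c, hc, hc0, hcard⟩ := Nat.find_spec hex
    obtain ⟨b0, hb0⟩ : ∃ b0, c b0 ≠ 0 := by
      by_contra hno
      push Not at hno
      exact hc0 (funext hno)
    let μ : I → K := fun b => (c b0)⁻¹ * c b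
    have hμ : Λ μ := by
      intro ℓ D hD
      have h1 : ∑ b, μ b * ev ℓ D (g b) = (c b0)⁻¹ * ∑ b, c b * ev ℓ D (g b) := by
        rw [Finset.mul_sum]
        exact Finset.sum_congr rfl fun b _ => by simp only [μ]; ring
      rw [h1, hc ℓ D hD, mul_zero]
    have hμb0 : μ b0 = 1 := inv_mul_cancel₀ hb0
    have hder : ∀ E ∈ V, Λ fun b => E (μ b) := by
      intro E hE ℓ D hD
      have h1 := hμ (ℓ + 1) (Fin.cons E D) (by
        intro i
        refine Fin.cases ?_ (fun j => ?_) i
        · simpa using hE
        · simpa using hD j)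
      have h2 := hμ ℓ D hD
      have h3 : E (∑ b, μ b * ev ℓ D (g b)) = 0 := by rw [h2, map_zero]
      rw [map_sum] at h3
      have h4 : ∀ b, E (μ b * ev ℓ D (g b)) = μ b * ev (ℓ + 1) (Fin.cons E D) (g b) +
          E (μ b) * ev ℓ D (g b) := by
        intro b
        rw [ev_succ, Derivation.leibniz]
        simp only [Fin.cons_zero, Fin.cons_succ, smul_eq_mul]
        ring
      rw [Finset.sum_congr rfl fun b _ => h4 b, Finset.sum_add_distrib, h1, zero_add] at h3
      exact h3
    have hder0 : ∀ E ∈ V, (fun b => E (μ b)) = 0 := by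
      intro E hE
      by_contra hne'
      have h1 := Nat.find_min' hex ⟨_, hder E hE, hne', rfl⟩
      rw [← hcard] at h1
      refine absurd h1 (not_le.mpr (Finset.card_lt_card ?_))
      refine Finset.ssubset_iff_subset_ne.mpr ⟨fun b hb => ?_, fun heq => ?_⟩
      · rw [Finset.mem_filter] at hb ⊢
        refine ⟨Finset.mem_univ _, fun h0 => hb.2 ?_⟩
        have h2 : μ b = 0 := by simp only [μ]; rw [h0, mul_zero]
        rw [h2, map_zero]
      · have h2 : b0 ∈ Finset.univ.filter fun b => c b ≠ 0 :=
          Finset.mem_filter.mpr ⟨Finset.mem_univ _, hb0⟩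
        rw [← heq, Finset.mem_filter] at h2
        apply h2.2
        rw [hμb0]
        simp
    have h1 := hind μ (fun b E hE => congrFun (hder0 E hE) b)
      (by
        have h2 := hμ 0 (fun i => i.elim0) (fun i => i.elim0)
        simpa [ev_zero] using h2)
    have h2 := congrFun h1 b0
    rw [hμb0] at h2
    exact one_ne_zero h2
  obtain ⟨B, hB, hBspan, hBli⟩ := exists_linearIndependent K All
  have hfin : Finite B := hBli.setFinite
  have hfin' : Fintype B := Fintype.ofFinite B
  let bas := Module.Basis.mk hBli (by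
    rw [Subtype.range_coe, hBspan, hspan])
  have hcard : Fintype.card I = Fintype.card B := by
    have h1 := Module.finrank_eq_card_basis bas
    rw [Module.finrank_fintype_fun_eq_card] at h1
    exact h1
  let e : I ≃ B := Fintype.equivOfCardEq hcard
  have hrow : ∀ a, ∃ (ℓ : ℕ) (D : Fin ℓ → Derivation ℂ K K), (∀ i, D i ∈ V) ∧
      ((e a : B) : I → K) = fun b => ev ℓ D (g b) := fun a => hB (e a).2
  choose ℓ D hD hrow using hrow
  refine ⟨ℓ, D, hD, ?_⟩
  have h1 : LinearIndependent K (Matrix.of fun a b => ev (ℓ a) (D a) (g b)).row := by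
    have h2 : (Matrix.of fun a b => ev (ℓ a) (D a) (g b)).row =
        (Subtype.val : B → I → K) ∘ e := by
      funext a
      exact (hrow a).symm
    rw [h2]
    exact hBli.comp _ e.injective
  rw [Matrix.linearIndependent_rows_iff_isUnit, Matrix.isUnit_iff_isUnit_det] at h1
  exact h1.ne_zero

end exist

theorem der_sum' {K : Type} [Field K] [Algebra ℂ K] {ι : Type} (c : ι → K)
    (E : ι → Derivation ℂ K K) (A : Finset ι) (f : K) :
    (∑ i ∈ A, c i • E i) f = ∑ i ∈ A, c i * E i f := by
  classical
  induction A using Finset.induction_on with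
  | empty => rfl
  | insert a s ha ih =>
    rw [Finset.sum_insert ha, Finset.sum_insert ha, ← ih]
    rfl

section coords

variable {K : Type} [Field K] [Algebra ℂ K] (V : Submodule K (Derivation ℂ K K))

/-- The leafwise differential. -/
noncomputable def dd (f : K) : Module.Dual K V where
  toFun D := (D : Derivation ℂ K K) f
  map_add' x y := by simp
  map_smul' c x := by simp

theorem dd_apply (f : K) (D : V) : dd V f D = (D : Derivation ℂ K K) f := rfl

theorem span_dd [Module.Finite K V] : Submodule.span K (Set.range (dd V)) = ⊤ := by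
  have h1 : (Submodule.span K (Set.range (dd V))).dualCoannihilator = ⊥ := by
    rw [Submodule.eq_bot_iff]
    intro D hD
    rw [Submodule.mem_dualCoannihilator] at hD
    apply Subtype.ext
    ext f
    exact hD (dd V f) (Submodule.subset_span ⟨f, rfl⟩)
  have h2 := Subspace.dualCoannihilator_dualAnnihilator_eq
    (W := Submodule.span K (Set.range (dd V)))
  rw [h1, Submodule.dualAnnihilator_bot] at h2
  exact h2.symm

/-- Commuting coordinates. -/
theorem exists_coords [Module.Finite K V] (hbr : ∀ D ∈ V, ∀ E ∈ V, ⁅D, E⁆ ∈ V) {d : ℕ}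
    (z : Fin d → K) :
    ∃ (ι : Type) (_ : Fintype ι) (_ : DecidableEq ι) (D : ι → Derivation ℂ K K) (A : Set K),
      Fintype.card ι = Module.finrank K (Submodule.span K (Set.range fun a => dd V (z a))) ∧
      (∀ i j f, D i (D j f) = D j (D i f)) ∧ (∀ a, z a ∈ A) ∧ (1 : K) ∈ A ∧
      (∀ f ∈ A, ∀ g ∈ A, f * g ∈ A) ∧ (∀ i, ∀ f ∈ A, D i f ∈ A) ∧
      ∀ E ∈ V, ∃ c : ι → K, ∀ f ∈ A, E f = ∑ i, c i * D i f := by
  classical
  obtain ⟨B1, hB1, hB1span, hB1li⟩ := exists_linearIndependent K (Set.range fun a => dd V (z a))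
  have hB1' : LinearIndepOn K id B1 := hB1li
  obtain ⟨B, hB, hB1B, hBspan, hBli⟩ := exists_linearIndepOn_id_extension hB1'
    (show B1 ⊆ Set.range (dd V) from fun v hv => by
      obtain ⟨a, rfl⟩ := hB1 hv
      exact ⟨_, rfl⟩)
  have hBtop : ⊤ ≤ Submodule.span K B := by
    rw [← span_dd V]
    exact Submodule.span_le.mpr hBspan
  have hBfin : Finite B := hBli.linearIndependent.setFinite
  have hBft : Fintype B := Fintype.ofFinite B
  have hB1fin : Finite B1 := hB1li.setFinite
  have hB1ft : Fintype B1 := Fintype.ofFinite B1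
  let bas : Module.Basis B K (Module.Dual K V) := Module.Basis.mk (v := fun v : B => (v : Module.Dual K V))
    hBli.linearIndependent (by
      rw [Subtype.range_coe]
      exact hBtop)
  have hbas : ∀ v : B, bas v = (v : Module.Dual K V) := fun v => Module.Basis.mk_apply _ _ v
  let D : B → V := fun v => (Module.evalEquiv K V).symm (bas.coord v)
  have hD : ∀ v w : B, (w : Module.Dual K V) (D v) = if v = w then 1 else 0 := by
    intro v w
    change (w : Module.Dual K V) ((Module.evalEquiv K V).symm (bas.coord v)) = _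
    rw [Module.apply_evalEquiv_symm_apply, ← hbas, Module.Basis.coord_apply,
      Module.Basis.repr_self, Finsupp.single_apply]
    simp [eq_comm]
  -- elements of `V` are determined by `B`
  have hsep : ∀ x : V, (∀ w : B, (w : Module.Dual K V) x = 0) → x = 0 := by
    intro x hx
    rw [← Module.forall_dual_apply_eq_zero_iff K]
    intro f
    have h1 := bas.sum_repr f
    rw [← h1, LinearMap.sum_apply]
    refine Finset.sum_eq_zero fun w _ => ?_
    rw [LinearMap.smul_apply, hbas, hx, smul_zero]
  choose y hy using fun v : B => hB v.2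
  have hcomm : ∀ v w : B, ∀ f, (D v : Derivation ℂ K K) ((D w : Derivation ℂ K K) f) =
      (D w : Derivation ℂ K K) ((D v : Derivation ℂ K K) f) := by
    intro v w f
    have h1 : (⟨⁅(D v : Derivation ℂ K K), (D w : Derivation ℂ K K)⁆,
        hbr _ (D v).2 _ (D w).2⟩ : V) = 0 := by
      apply hsep
      intro u
      rw [← hy u, dd_apply]
      change ⁅(D v : Derivation ℂ K K), (D w : Derivation ℂ K K)⁆ (y u) = 0
      rw [Derivation.commutator_apply]
      have h2 : ∀ v' : B, (D v' : Derivation ℂ K K) (y u) = if v' = u then 1 else 0 := by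
        intro v'
        rw [← hD v' u, ← hy u, dd_apply]
      rw [h2, h2]
      split_ifs <;> simp
    have h2 : ⁅(D v : Derivation ℂ K K), (D w : Derivation ℂ K K)⁆ = 0 :=
      congrArg Subtype.val h1
    have h3 := congrArg (fun E : Derivation ℂ K K => E f) h2
    change ⁅(D v : Derivation ℂ K K), (D w : Derivation ℂ K K)⁆ f = 0 at h3
    rw [Derivation.commutator_apply, sub_eq_zero] at h3
    exact h3
  have hexp : ∀ E : V, E = ∑ v : B, (v : Module.Dual K V) E • D v := by
    intro E
    rw [← sub_eq_zero]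
    apply hsep
    intro w
    rw [map_sub, map_sum, sub_eq_zero]
    simp only [map_smul, hD, smul_eq_mul]
    simp
  let inc : B1 → B := fun v => ⟨v, hB1B v.2⟩
  have hinc : Function.Injective inc := fun v w h => Subtype.ext (congrArg (fun x : B =>
    (x : Module.Dual K V)) h)
  refine ⟨B1, hB1ft, inferInstance, fun v => (D (inc v) : Derivation ℂ K K),
    {f | ∀ v : B, (v : Module.Dual K V) ∉ B1 → (D v : Derivation ℂ K K) f = 0}, ?_, ?_, ?_, ?_,
    ?_, ?_, ?_⟩
  · rw [← hB1span]
    have h1 := finrank_span_eq_card hB1li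
    rw [Subtype.range_coe] at h1
    exact h1.symm
  · exact fun i j f => hcomm _ _ f
  · intro a v hv
    have h1 : dd V (z a) ∈ Submodule.span K B1 := by
      rw [hB1span]
      exact Submodule.subset_span ⟨a, rfl⟩
    rw [← dd_apply]
    refine Submodule.span_induction (p := fun w _ => w (D v) = 0) ?_ ?_ ?_ ?_ h1
    · intro w hw
      rw [show w = ((⟨w, hB1B hw⟩ : B) : Module.Dual K V) from rfl, hD, if_neg]
      rintro rfl
      exact hv hw
    · simp
    · intro w w' _ _ h2 h3
      rw [LinearMap.add_apply, h2, h3, add_zero]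
    · intro c w _ h2
      rw [LinearMap.smul_apply, h2, smul_zero]
  · intro v _
    simp
  · intro f hf f' hf' v hv
    rw [Derivation.leibniz, hf v hv, hf' v hv, smul_zero, smul_zero, add_zero]
  · intro i f hf v hv
    rw [hcomm, hf v hv, map_zero]
  · intro E hE
    refine ⟨fun v => ((inc v : B) : Module.Dual K V) ⟨E, hE⟩, fun f hf => ?_⟩
    have h1 := congrArg (fun x : V => (x : Derivation ℂ K K) f) (hexp ⟨E, hE⟩)
    change E f = _ at h1
    rw [h1]
    have h2 : ((∑ v : B, (v : Module.Dual K V) ⟨E, hE⟩ • D v : V) : Derivation ℂ K K) f =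
        ∑ v : B, (v : Module.Dual K V) ⟨E, hE⟩ * (D v : Derivation ℂ K K) f := by
      rw [Submodule.coe_sum]
      simp only [Submodule.coe_smul]
      exact der_sum' _ _ _ _
    rw [h2]
    have h3 : ∑ v : B, (v : Module.Dual K V) ⟨E, hE⟩ * (D v : Derivation ℂ K K) f =
        ∑ v ∈ Finset.univ.image inc, (v : Module.Dual K V) ⟨E, hE⟩ *
          (D v : Derivation ℂ K K) f := by
      symm
      refine Finset.sum_subset (Finset.subset_univ _) fun v _ hv => ?_
      rw [hf v fun hv1 => hv (Finset.mem_image.mpr ⟨⟨v, hv1⟩, Finset.mem_univ _, rfl⟩), mul_zero]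
    rw [h3, Finset.sum_image fun v _ w _ h => hinc h]

end coords

section count

variable {K : Type} [Field K] [Algebra ℂ K] {I : Type} [Fintype I]
  {V : Submodule K (Derivation ℂ K K)} {g : I → K}

/-- The words of length less than `T` span a space of dimension at most `T ^ ρ`. -/
theorem finrank_Us {ι : Type} [Fintype ι] [DecidableEq ι] {D : ι → Derivation ℂ K K} {A : Set K}
    (hcomm : ∀ i j f, D i (D j f) = D j (D i f)) (hDA : ∀ i, ∀ f ∈ A, D i f ∈ A)
    (hE : ∀ E ∈ V, ∃ c : ι → K, ∀ f ∈ A, E f = ∑ i, c i * D i f) (hg : ∀ b, g b ∈ A) (T : ℕ) :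
    Module.finrank K (Us V g T) ≤ T ^ Fintype.card ι := by
  classical
  have hlc : LeftCommutative fun (i : ι) (f : K) => D i f := ⟨fun i j f => hcomm i j f⟩
  let row : Multiset ι → I → K := fun s b => Multiset.foldr (fun i f => D i f) (g b) s
  have hrow : ∀ (i : ι) (s : Multiset ι) (b : I), row (i ::ₘ s) b = D i (row s b) := by
    intro i s b
    simp only [row]
    rw [Multiset.foldr_cons]
  have hrowA : ∀ (s : Multiset ι) (b : I), row s b ∈ A := by
    intro s
    induction s using Multiset.induction_on with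
    | empty =>
      intro b
      simp only [row]
      rw [Multiset.foldr_zero]
      exact hg b
    | cons i s ih =>
      intro b
      rw [hrow]
      exact hDA i _ (ih b)
  let M : ℕ → Submodule K (I → K) := fun T =>
    Submodule.span K {r | ∃ s : Multiset ι, Multiset.card s < T ∧ r = row s}
  have hMmono : ∀ {T T' : ℕ}, T ≤ T' → M T ≤ M T' := by
    intro T T' h
    refine Submodule.span_mono ?_
    rintro r ⟨s, hs, rfl⟩
    exact ⟨s, by omega, rfl⟩
  have hMder : ∀ {T : ℕ} {E : Derivation ℂ K K}, E ∈ V → ∀ {r : I → K}, r ∈ M T →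
      (fun b => E (r b)) ∈ M (T + 1) := by
    intro T E hEV r hr
    obtain ⟨c, hc⟩ := hE E hEV
    induction hr using Submodule.span_induction with
    | mem r hr =>
      obtain ⟨s, hs, rfl⟩ := hr
      have h1 : (fun b => E (row s b)) = ∑ i, c i • row (i ::ₘ s) := by
        funext b
        rw [hc _ (hrowA s b), Finset.sum_apply]
        exact Finset.sum_congr rfl fun i _ => by
          rw [Pi.smul_apply, smul_eq_mul, hrow]
      rw [h1]
      refine Submodule.sum_mem _ fun i _ => Submodule.smul_mem _ _
        (Submodule.subset_span ⟨i ::ₘ s, ?_, rfl⟩)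
      rw [Multiset.card_cons]
      omega
    | zero =>
      have h1 : (fun b => E ((0 : I → K) b)) = 0 := by
        funext b
        simp
      rw [h1]
      exact Submodule.zero_mem _
    | add x y _ _ hx hy =>
      have h1 : (fun b => E ((x + y) b)) = (fun b => E (x b)) + fun b => E (y b) := by
        funext b
        simp
      rw [h1]
      exact Submodule.add_mem _ hx hy
    | smul c' x hx' hx =>
      have h1 : (fun b => E ((c' • x) b)) = E c' • x + c' • fun b => E (x b) := by
        funext b
        simp only [Pi.smul_apply, Pi.add_apply, smul_eq_mul, Derivation.leibniz]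
        ring
      rw [h1]
      exact Submodule.add_mem _ (Submodule.smul_mem _ _ (hMmono (Nat.le_succ _) hx'))
        (Submodule.smul_mem _ _ hx)
  have hword : ∀ (ℓ : ℕ) (E : Fin ℓ → Derivation ℂ K K), (∀ i, E i ∈ V) →
      (fun b => ev ℓ E (g b)) ∈ M (ℓ + 1) := by
    intro ℓ
    induction ℓ with
    | zero =>
      intro E _
      refine Submodule.subset_span ⟨0, by simp, ?_⟩
      funext b
      simp only [row]
      rw [Multiset.foldr_zero]
      rfl
    | succ ℓ ih =>
      intro E hEV
      exact hMder (hEV 0) (ih (fun i => E i.succ) fun i => hEV _)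
  have hle : Us V g T ≤ M T := by
    refine Submodule.span_le.mpr ?_
    rintro r ⟨ℓ, hℓ, E, hEV, rfl⟩
    exact hMmono (by omega) (hword ℓ E hEV)
  let S : Type := {s : Multiset ι // Multiset.card s < T}
  let j : S → ι → Fin T := fun s i => ⟨Multiset.count i s.1,
    lt_of_le_of_lt (Multiset.count_le_card i s.1) s.2⟩
  have hj : Function.Injective j := by
    intro s s' h
    apply Subtype.ext
    rw [Multiset.ext]
    intro i
    have h1 := congrFun h i
    exact congrArg Fin.val h1
  have hSfin : Finite S := Finite.of_injective j hj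
  have hSft : Fintype S := Fintype.ofFinite S
  have h1 : M T = Submodule.span K (Set.range fun s : S => row s.1) := by
    simp only [M]
    congr 1
    ext r
    constructor
    · rintro ⟨s, hs, rfl⟩
      exact ⟨⟨s, hs⟩, rfl⟩
    · rintro ⟨s, rfl⟩
      exact ⟨s.1, s.2, rfl⟩
  have h2 : Module.finrank K (M T) ≤ Fintype.card S := by
    rw [h1]
    exact finrank_range_le_card _
  have h3 : Fintype.card S ≤ T ^ Fintype.card ι := by
    have h4 := Fintype.card_le_of_injective j hj
    rwa [Fintype.card_fun, Fintype.card_fin] at h4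
  exact (Submodule.finrank_mono hle).trans (h2.trans h3)

/-- The total length of words with independent rows. -/
theorem length_bound [DecidableEq I] {ρ : ℕ}
    (hρ : ∀ T, Module.finrank K (Us V g T) ≤ T ^ ρ) {ℓ : I → ℕ}
    {D : (a : I) → Fin (ℓ a) → Derivation ℂ K K} (hD : ∀ a i, D a i ∈ V)
    (hdet : (Matrix.of fun a b => ev (ℓ a) (D a) (g b)).det ≠ 0) (T : ℕ) :
    T * Fintype.card I ≤ ∑ a, ℓ a + T * T ^ ρ := by
  classical
  have hli : LinearIndependent K (Matrix.of fun a b => ev (ℓ a) (D a) (g b)).row := by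
    rw [Matrix.linearIndependent_rows_iff_isUnit, Matrix.isUnit_iff_isUnit_det]
    exact isUnit_iff_ne_zero.mpr hdet
  have h1 : (Finset.univ.filter fun a => ℓ a < T).card ≤ T ^ ρ := by
    refine le_trans ?_ (hρ T)
    let f : {a : I // ℓ a < T} → Us V g T := fun a =>
      ⟨fun b => ev (ℓ a) (D a) (g b), Us_mono (by have := a.2; omega) (row_mem (hD a))⟩
    have hf : LinearIndependent K f := by
      refine LinearIndependent.of_comp (Us V g T).subtype ?_
      exact hli.comp (fun a : {a : I // ℓ a < T} => (a : I)) Subtype.val_injective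
    have h2 := hf.fintype_card_le_finrank
    rw [Fintype.card_subtype] at h2
    exact h2
  have h2 : T * (Finset.univ.filter fun a => ¬ ℓ a < T).card ≤ ∑ a, ℓ a := by
    calc T * (Finset.univ.filter fun a => ¬ ℓ a < T).card
        = ∑ a ∈ Finset.univ.filter (fun a => ¬ ℓ a < T), T := by
          rw [Finset.sum_const, smul_eq_mul, mul_comm]
      _ ≤ ∑ a ∈ Finset.univ.filter (fun a => ¬ ℓ a < T), ℓ a :=
          Finset.sum_le_sum fun a ha => not_lt.mp (Finset.mem_filter.mp ha).2
      _ ≤ ∑ a, ℓ a := Finset.sum_le_sum_of_subset (Finset.filter_subset _ _)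
  have h3 := Finset.card_filter_add_card_filter_not (s := (Finset.univ : Finset I))
    (p := fun a => ℓ a < T)
  rw [Finset.card_univ] at h3
  rw [← h3, mul_add]
  have h4 := Nat.mul_le_mul_left T h1
  omega

end count

end Pool.Agent.Zk28.TF
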